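import Pool.Agent.Lib_helper15.STB.Defs

/-! # STB, block fraA : frames -/

open MeasureTheory Filter Topology
open scoped InnerProductSpace
open Pool.Agent.Lib_helper15.STE

namespace STB

theorem fraA_ip (x y : E3) : ⟪x, y⟫_ℝ = x 0 * y 0 + x 1 * y 1 + x 2 * y 2 := by
  simp only [PiLp.inner_apply, Fin.sum_univ_three]
  simp [mul_comm]

theorem fraA_ext {x y : E3} (h0 : x 0 = y 0) (h1 : x 1 = y 1) (h2 : x 2 = y 2) : x = y := by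
  ext i
  fin_cases i
  · exact h0
  · exact h1
  · exact h2

theorem fraA_c0 (x y : E3) : cr x y 0 = x 1 * y 2 - x 2 * y 1 := by simp [cr]
theorem fraA_c1 (x y : E3) : cr x y 1 = x 2 * y 0 - x 0 * y 2 := by simp [cr]
theorem fraA_c2 (x y : E3) : cr x y 2 = x 0 * y 1 - x 1 * y 0 := by simp [cr]

theorem fraA_a (x y : E3) (i : Fin 3) : (x + y) i = x i + y i := rfl
theorem fraA_s (x y : E3) (i : Fin 3) : (x - y) i = x i - y i := rfl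
theorem fraA_m (r : ℝ) (x : E3) (i : Fin 3) : (r • x) i = r * x i := rfl
theorem fraA_n (x : E3) (i : Fin 3) : (-x) i = - x i := rfl

theorem fraA_lin1 (a b : ℝ) (x y z : E3) :
    cr (a • x - b • y) z = a • cr x z - b • cr y z := by
  apply fraA_ext <;> simp only [fraA_s, fraA_m, fraA_c0, fraA_c1, fraA_c2] <;> ring

theorem fraA_lin2 (a b : ℝ) (x y z : E3) :
    cr z (a • x - b • y) = a • cr z x - b • cr z y := by
  apply fraA_ext <;> simp only [fraA_s, fraA_m, fraA_c0, fraA_c1, fraA_c2] <;> ring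

theorem fraA_crcr (x y z : E3) : cr (cr x y) z = ⟪x, z⟫_ℝ • y - ⟪y, z⟫_ℝ • x := by
  apply fraA_ext <;> simp only [fraA_s, fraA_m, fraA_c0, fraA_c1, fraA_c2, fraA_ip] <;> ring

theorem fraA_crcr2 (x y z : E3) : cr x (cr y z) = ⟪x, z⟫_ℝ • y - ⟪x, y⟫_ℝ • z := by
  apply fraA_ext <;> simp only [fraA_s, fraA_m, fraA_c0, fraA_c1, fraA_c2, fraA_ip] <;> ring

theorem fraA_anti (x y : E3) : cr x y = - cr y x := by
  apply fraA_ext <;> simp only [fraA_n, fraA_c0, fraA_c1, fraA_c2] <;> ring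

theorem fraA_ip1 (x y : E3) : ⟪cr x y, x⟫_ℝ = 0 := by
  simp only [fraA_ip, fraA_c0, fraA_c1, fraA_c2]; ring

theorem fraA_ip2 (x y : E3) : ⟪cr x y, y⟫_ℝ = 0 := by
  simp only [fraA_ip, fraA_c0, fraA_c1, fraA_c2]; ring

theorem fraA_sq (x : E3) : ⟪x, x⟫_ℝ = ‖x‖ ^ 2 := real_inner_self_eq_norm_sq x

theorem fraA_nsq (x y : E3) : ‖cr x y‖ ^ 2 = ‖x‖ ^ 2 * ‖y‖ ^ 2 - ⟪x, y⟫_ℝ ^ 2 := by
  rw [← fraA_sq, ← fraA_sq, ← fraA_sq]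
  simp only [fraA_ip, fraA_c0, fraA_c1, fraA_c2]; ring

theorem fraA_one {x : E3} (h : ‖x‖ ^ 2 = 1) : ‖x‖ = 1 := by
  nlinarith [norm_nonneg x, sq_nonneg (‖x‖ - 1)]

theorem fraA_ncr (f u : E3) (h : ON f u) : ‖cr f u‖ = 1 := by
  apply fraA_one
  rw [fraA_nsq, h.nf, h.nu, h.or]; norm_num

theorem fraA_ff (f u : E3) (h : ON f u) : ⟪f, f⟫_ℝ = 1 := by rw [fraA_sq, h.nf]; norm_num
theorem fraA_uu (f u : E3) (h : ON f u) : ⟪u, u⟫_ℝ = 1 := by rw [fraA_sq, h.nu]; norm_num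
theorem fraA_uf (f u : E3) (h : ON f u) : ⟪u, f⟫_ℝ = 0 := by rw [real_inner_comm]; exact h.or

theorem fra_on' (f u : E3) (h : ON f u) : ON u f ∧ cr u f = - cr f u ∧ ON (cr f u) u ∧
    ON (cr f u) f ∧ cr (cr f u) u = -f ∧ cr (cr f u) f = u := by
  refine ⟨⟨h.nu, h.nf, fraA_uf f u h⟩, fraA_anti u f, ⟨fraA_ncr f u h, h.nu, fraA_ip2 f u⟩,
    ⟨fraA_ncr f u h, h.nf, fraA_ip1 f u⟩, ?_, ?_⟩
  · rw [fraA_crcr, h.or, fraA_uu f u h]; simp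
  · rw [fraA_crcr, fraA_ff f u h, fraA_uf f u h]; simp

theorem fra_on (f u : E3) (h : ON f u) (φ : ℝ) : ON (tw f u φ) u ∧ cr (tw f u φ) u =
    Real.cos φ • cr f u + Real.sin φ • f := by
  obtain ⟨h1, h2, h3, h4, h5, h6⟩ := fra_on' f u h
  refine ⟨⟨?_, h.nu, ?_⟩, ?_⟩
  · apply fraA_one
    rw [← fraA_sq, tw]
    have e1 : ⟪Real.cos φ • f - Real.sin φ • cr f u, Real.cos φ • f - Real.sin φ • cr f u⟫_ℝ =
        Real.cos φ ^ 2 * ⟪f, f⟫_ℝ - 2 * Real.cos φ * Real.sin φ * ⟪cr f u, f⟫_ℝ +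
          Real.sin φ ^ 2 * ⟪cr f u, cr f u⟫_ℝ := by
      simp only [fraA_ip, fraA_s, fraA_m]; ring
    rw [e1, fraA_ff f u h, fraA_ip1, fraA_sq, fraA_ncr f u h]
    nlinarith [Real.sin_sq_add_cos_sq φ]
  · rw [tw]
    have e1 : ⟪Real.cos φ • f - Real.sin φ • cr f u, u⟫_ℝ =
        Real.cos φ * ⟪f, u⟫_ℝ - Real.sin φ * ⟪cr f u, u⟫_ℝ := by
      simp only [fraA_ip, fraA_s, fraA_m]; ring
    rw [e1, h.or, fraA_ip2]; ring
  · rw [tw, fraA_lin1, h5]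
    simp

theorem fra_basis (f u : E3) (h : ON f u) (x : E3) :
    x = ⟪x, cr f u⟫_ℝ • cr f u + ⟪x, f⟫_ℝ • f + ⟪x, u⟫_ℝ • u ∧
    ‖x‖ ^ 2 = ⟪x, cr f u⟫_ℝ ^ 2 + ⟪x, f⟫_ℝ ^ 2 + ⟪x, u⟫_ℝ ^ 2 := by
  obtain ⟨h1, h2, h3, h4, h5, h6⟩ := fra_on' f u h
  have hw : ⟪cr f u, cr f u⟫_ℝ = 1 := by rw [fraA_sq, fraA_ncr f u h]; norm_num
  have e1 := fraA_crcr2 (cr f u) x (cr f u)
  have e2 : cr x (cr f u) = ⟪x, u⟫_ℝ • f - ⟪x, f⟫_ℝ • u := fraA_crcr2 x f u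
  have hc : ⟪cr f u, x⟫_ℝ = ⟪x, cr f u⟫_ℝ := real_inner_comm _ _
  rw [e2, fraA_lin2, h5, h6, hw, one_smul, hc] at e1
  have key : x = ⟪x, cr f u⟫_ℝ • cr f u + ⟪x, f⟫_ℝ • f + ⟪x, u⟫_ℝ • u := by
    have e3 : x = ⟪x, u⟫_ℝ • u - ⟪x, f⟫_ℝ • -f + ⟪x, cr f u⟫_ℝ • cr f u := by
      rw [e1]; abel
    conv_lhs => rw [e3]
    rw [smul_neg]; abel
  refine ⟨key, ?_⟩
  rw [← fraA_sq]
  have e4 : ⟪x, x⟫_ℝ = ⟪x, ⟪x, cr f u⟫_ℝ • cr f u + ⟪x, f⟫_ℝ • f + ⟪x, u⟫_ℝ • u⟫_ℝ := by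
    rw [← key]
  rw [e4, inner_add_right, inner_add_right, inner_smul_right, inner_smul_right, inner_smul_right]
  ring

/-- the linear part -/
noncomputable def fraA_lin (w f : E3) : E2 →ₗ[ℝ] E3 where
  toFun y := y 0 • w + y 1 • f
  map_add' a b := by
    apply fraA_ext <;> simp only [fraA_a, fraA_m] <;> simp only [PiLp.add_apply] <;> ring
  map_smul' r a := by
    apply fraA_ext <;> simp only [fraA_a, fraA_m] <;> simp only [PiLp.smul_apply, smul_eq_mul,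
      RingHom.id_apply] <;> ring

theorem fraA_norm (w f : E3) (h : ON w f) (y : E2) : ‖fraA_lin w f y‖ = ‖y‖ := by
  have e1 : ‖fraA_lin w f y‖ ^ 2 = ‖y‖ ^ 2 := by
    rw [← fraA_sq, EuclideanSpace.real_norm_sq_eq, Fin.sum_univ_two]
    have e2 : ⟪fraA_lin w f y, fraA_lin w f y⟫_ℝ = y 0 ^ 2 * ⟪w, w⟫_ℝ +
        2 * y 0 * y 1 * ⟪w, f⟫_ℝ + y 1 ^ 2 * ⟪f, f⟫_ℝ := by
      simp only [fraA_ip, fraA_lin, LinearMap.coe_mk, AddHom.coe_mk, fraA_a, fraA_m]; ring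
    rw [e2, fraA_ff w f h, fraA_uu w f h, h.or]; ring
  exact (pow_left_inj₀ (norm_nonneg _) (norm_nonneg _) two_ne_zero).1 e1

theorem fra_plane (f u : E3) (h : ON f u) (t : ℝ) : ∃ P : E2 →ᵃⁱ[ℝ] E3,
    ∀ y : E2, P y = y 0 • cr f u + y 1 • f + t • u := by
  obtain ⟨h1, h2, h3, h4, h5, h6⟩ := fra_on' f u h
  refine ⟨⟨⟨fun y => y 0 • cr f u + y 1 • f + t • u, fraA_lin (cr f u) f, ?_⟩, ?_⟩, fun y => rfl⟩
  · intro p v
    show (v +ᵥ p) 0 • cr f u + (v +ᵥ p) 1 • f + t • u = fraA_lin (cr f u) f v +ᵥ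
      (p 0 • cr f u + p 1 • f + t • u)
    rw [vadd_eq_add, vadd_eq_add]
    show _ = (v 0 • cr f u + v 1 • f) + _
    rw [PiLp.add_apply, PiLp.add_apply, add_smul, add_smul]
    abel
  · intro x
    exact fraA_norm (cr f u) f h4 x

end STB
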