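import Pool.Agent.Lib_helper15.STB.Defs
import Pool.Agent.Lib_helper15.STB.B.fraA

/-! # STB, block fraC : heights of a convex body -/

open MeasureTheory Filter Topology
open scoped InnerProductSpace
open Pool.Agent.Lib_helper15.STE

namespace STB

theorem fraC_img (K : Set E3) (hK : CB K) (u : E3) :
    IsCompact ((fun x => ⟪x, u⟫_ℝ) '' K) ∧ ((fun x => ⟪x, u⟫_ℝ) '' K).Nonempty := by
  have hne : K.Nonempty := hK.int.mono interior_subset
  exact ⟨hK.comp.image (by fun_prop), hne.image _⟩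

theorem fraC_mem (K : Set E3) (hK : CB K) (u : E3) :
    (∃ x ∈ K, ⟪x, u⟫_ℝ = lo K u) ∧ (∃ x ∈ K, ⟪x, u⟫_ℝ = hi K u) := by
  obtain ⟨h1, h2⟩ := fraC_img K hK u
  exact ⟨h1.sInf_mem h2, h1.sSup_mem h2⟩

theorem fraC_le (K : Set E3) (hK : CB K) (u : E3) :
    ∀ x ∈ K, lo K u ≤ ⟪x, u⟫_ℝ ∧ ⟪x, u⟫_ℝ ≤ hi K u := by
  obtain ⟨h1, h2⟩ := fraC_img K hK u
  intro x hx
  exact ⟨csInf_le h1.bddBelow ⟨x, hx, rfl⟩, le_csSup h1.bddAbove ⟨x, hx, rfl⟩⟩

theorem fraC_lt (K : Set E3) (hK : CB K) (u : E3) (hu : ‖u‖ = 1) :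
    ∀ x ∈ interior K, lo K u < ⟪x, u⟫_ℝ ∧ ⟪x, u⟫_ℝ < hi K u := by
  intro x hx
  obtain ⟨ε, hε, hb⟩ := Metric.isOpen_iff.1 isOpen_interior x hx
  have h1 : ∀ c : ℝ, |c| < ε → x + c • u ∈ K := by
    intro c hc
    apply interior_subset
    apply hb
    rw [Metric.mem_ball, dist_eq_norm, add_sub_cancel_left, norm_smul, hu, mul_one]
    exact hc
  have h2 : ∀ c : ℝ, ⟪x + c • u, u⟫_ℝ = ⟪x, u⟫_ℝ + c := by
    intro c
    rw [inner_add_left, inner_smul_left, real_inner_self_eq_norm_sq, hu]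
    simp
  have e1 := (fraC_le K hK u _ (h1 (-(ε / 2)) (by rw [abs_neg, abs_of_pos] <;> linarith))).1
  have e2 := (fraC_le K hK u _ (h1 (ε / 2) (by rw [abs_of_pos] <;> linarith))).2
  rw [h2] at e1 e2
  constructor <;> linarith

theorem fra_lohi (K : Set E3) (hK : CB K) (u : E3) (hu : ‖u‖ = 1) : lo K u < hi K u ∧
    (∀ x ∈ K, lo K u ≤ ⟪x, u⟫_ℝ ∧ ⟪x, u⟫_ℝ ≤ hi K u) ∧
    (∀ t ∈ Set.Icc (lo K u) (hi K u), ∃ x ∈ K, ⟪x, u⟫_ℝ = t) ∧
    (∀ t ∈ Set.Ioo (lo K u) (hi K u), ∃ x ∈ interior K, ⟪x, u⟫_ℝ = t) := by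
  obtain ⟨x0, hx0⟩ := hK.int
  obtain ⟨⟨a, ha, ha'⟩, ⟨b, hb, hb'⟩⟩ := fraC_mem K hK u
  obtain ⟨h1, h2⟩ := fraC_lt K hK u hu x0 hx0
  refine ⟨h1.trans h2, fraC_le K hK u, ?_, ?_⟩
  · intro t ht
    have hlt := h1.trans h2
    have hd : 0 < hi K u - lo K u := by linarith
    refine ⟨((hi K u - t) / (hi K u - lo K u)) • a + ((t - lo K u) / (hi K u - lo K u)) • b,
      hK.conv ha hb (div_nonneg (by linarith [ht.2]) hd.le) (div_nonneg (by linarith [ht.1]) hd.le)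
        (by field_simp; ring), ?_⟩
    rw [inner_add_left, inner_smul_left, inner_smul_left, ha', hb']
    simp only [conj_trivial]
    field_simp
    ring
  · intro t ht
    rcases lt_trichotomy t ⟪x0, u⟫_ℝ with h | h | h
    · have hd : 0 < ⟪x0, u⟫_ℝ - lo K u := by linarith [ht.1]
      refine ⟨((t - lo K u) / (⟪x0, u⟫_ℝ - lo K u)) • x0 +
        ((⟪x0, u⟫_ℝ - t) / (⟪x0, u⟫_ℝ - lo K u)) • a,
        hK.conv.combo_interior_self_mem_interior hx0 ha (div_pos (by linarith [ht.1]) hd)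
          (div_nonneg (by linarith) hd.le) (by field_simp; ring), ?_⟩
      rw [inner_add_left, inner_smul_left, inner_smul_left, ha']
      simp only [conj_trivial]
      field_simp
      ring
    · exact ⟨x0, hx0, h.symm⟩
    · have hd : 0 < hi K u - ⟪x0, u⟫_ℝ := by linarith [ht.2]
      refine ⟨((hi K u - t) / (hi K u - ⟪x0, u⟫_ℝ)) • x0 +
        ((t - ⟪x0, u⟫_ℝ) / (hi K u - ⟪x0, u⟫_ℝ)) • b,
        hK.conv.combo_interior_self_mem_interior hx0 hb (div_pos (by linarith [ht.2]) hd)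
          (div_nonneg (by linarith) hd.le) (by field_simp; ring), ?_⟩
      rw [inner_add_left, inner_smul_left, inner_smul_left, hb']
      simp only [conj_trivial]
      field_simp
      ring

theorem fra_wd (K : Set E3) (hK : CB K) (f u : E3) (h : ON f u) (t : ℝ) :
    Wd K f u t ≤ hi K (cr f u) - lo K (cr f u) := by
  obtain ⟨-, -, h1, h2, -, -⟩ := fra_on' f u h
  have hsub : {x : ℝ | ∃ s : ℝ, x • cr f u + s • f + t • u ∈ K} ⊆
      Set.Icc (lo K (cr f u)) (hi K (cr f u)) := by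
    rintro x ⟨s, hs⟩
    have h3 := fraC_le K hK (cr f u) _ hs
    have h4 : ⟪x • cr f u + s • f + t • u, cr f u⟫_ℝ = x := by
      rw [inner_add_left, inner_add_left, inner_smul_left, inner_smul_left, inner_smul_left,
        real_inner_self_eq_norm_sq, h1.nf, real_inner_comm, h2.or, real_inner_comm, h1.or]
      simp
    rw [h4] at h3
    exact h3
  have h5 : volume {x : ℝ | ∃ s : ℝ, x • cr f u + s • f + t • u ∈ K} ≤
      ENNReal.ofReal (hi K (cr f u) - lo K (cr f u)) := by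
    rw [← Real.volume_Icc]
    exact measure_mono hsub
  have hle : lo K (cr f u) ≤ hi K (cr f u) := (fra_lohi K hK (cr f u) h1.nf).1.le
  exact ENNReal.toReal_le_of_le_ofReal (by linarith) h5

theorem fra_bound (K : Set E3) (hK : CB K) : ∃ C : ℝ, 0 < C ∧ (∀ x ∈ K, ‖x‖ ≤ C) ∧
    (∀ f u, ON f u → ∀ t, Wd K f u t ≤ 2 * C) ∧
    ∀ u, ‖u‖ = 1 → -C ≤ lo K u ∧ hi K u ≤ C := by
  obtain ⟨C, hC, hC'⟩ := hK.comp.isBounded.exists_pos_norm_le
  have h1 : ∀ u : E3, ‖u‖ = 1 → -C ≤ lo K u ∧ hi K u ≤ C := by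
    intro u hu
    obtain ⟨⟨a, ha, ha'⟩, ⟨b, hb, hb'⟩⟩ := fraC_mem K hK u
    have h2 : ∀ x ∈ K, |⟪x, u⟫_ℝ| ≤ C := by
      intro x hx
      have := abs_real_inner_le_norm x u
      rw [hu, mul_one] at this
      exact this.trans (hC' x hx)
    have h3 := abs_le.1 (h2 a ha)
    have h4 := abs_le.1 (h2 b hb)
    rw [ha'] at h3
    rw [hb'] at h4
    exact ⟨h3.1, h4.2⟩
  refine ⟨C, hC, hC', ?_, h1⟩
  intro f u h t
  have h2 := fra_wd K hK f u h t
  have h3 := h1 (cr f u) (fra_on' f u h).2.2.1.nf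
  linarith

end STB
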