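import Pool.Agent.Lib_helper15.STB.Defs
import Pool.Agent.Lib_helper15.STB.B.fraA
import Pool.Agent.Lib_helper15.STB.B.fraC

/-! # STB, block ccvA : concavity in the height -/

open MeasureTheory Filter Topology
open scoped InnerProductSpace
open Pool.Agent.Lib_helper15.STE

namespace STB

/-- the fibre -/
def ccvA_S (K : Set E3) (f u : E3) (t : ℝ) : Set ℝ :=
  {x : ℝ | ∃ s : ℝ, x • cr f u + s • f + t • u ∈ K}

theorem ccvA_cr_neg_left (f u : E3) : cr (-f) u = - cr f u := by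
  ext i
  fin_cases i <;> simp [cr] <;> ring

theorem ccvA_cr_neg_right (f u : E3) : cr f (-u) = - cr f u := by
  ext i
  fin_cases i <;> simp [cr] <;> ring

theorem ccvA_vol_neg (A B : Set ℝ) (h : ∀ x, x ∈ A ↔ -x ∈ B) : volume A = volume B := by
  have h1 : A = -B := by
    ext x
    rw [h x]
    rfl
  rw [h1]
  exact Measure.measure_neg volume B

theorem ccv_sym (K : Set E3) (f u : E3) (t : ℝ) : Wd K (-f) u t = Wd K f u t ∧
    Wd K f (-u) t = Wd K f u (-t) := by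
  constructor
  · unfold Wd
    congr 1
    apply ccvA_vol_neg
    intro x
    simp only [Set.mem_ofPred_eq, ccvA_cr_neg_left]
    constructor
    · rintro ⟨s, hs⟩
      refine ⟨-s, ?_⟩
      have : (-x) • cr f u + (-s) • f + t • u = x • -cr f u + s • -f + t • u := by
        simp
      rw [this]; exact hs
    · rintro ⟨s, hs⟩
      refine ⟨-s, ?_⟩
      have : x • -cr f u + (-s) • -f + t • u = (-x) • cr f u + s • f + t • u := by
        simp
      rw [this]; exact hs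
  · unfold Wd
    congr 1
    apply ccvA_vol_neg
    intro x
    simp only [Set.mem_ofPred_eq, ccvA_cr_neg_right]
    constructor
    · rintro ⟨s, hs⟩
      refine ⟨s, ?_⟩
      have : (-x) • cr f u + s • f + (-t) • u = x • -cr f u + s • f + t • -u := by
        simp
      rw [this]; exact hs
    · rintro ⟨s, hs⟩
      refine ⟨s, ?_⟩
      have : x • -cr f u + s • f + t • -u = (-x) • cr f u + s • f + (-t) • u := by
        simp
      rw [this]; exact hs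

theorem ccvA_inner (f u : E3) (h : ON f u) (x s t : ℝ) :
    ⟪x • cr f u + s • f + t • u, cr f u⟫_ℝ = x ∧ ⟪x • cr f u + s • f + t • u, u⟫_ℝ = t := by
  obtain ⟨h1, h2, h3, h4, h5, h6⟩ := fra_on' f u h
  have e1 : ⟪cr f u, cr f u⟫_ℝ = 1 := by rw [real_inner_self_eq_norm_sq, h3.nf]; norm_num
  have e2 : ⟪f, cr f u⟫_ℝ = 0 := by rw [real_inner_comm]; exact h4.or
  have e3 : ⟪u, cr f u⟫_ℝ = 0 := by rw [real_inner_comm]; exact h3.or
  have e4 : ⟪cr f u, u⟫_ℝ = 0 := h3.or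
  have e5 : ⟪f, u⟫_ℝ = 0 := h.or
  have e6 : ⟪u, u⟫_ℝ = 1 := by rw [real_inner_self_eq_norm_sq, h.nu]; norm_num
  constructor
  · rw [inner_add_left, inner_add_left, real_inner_smul_left, real_inner_smul_left,
      real_inner_smul_left, e1, e2, e3]
    ring
  · rw [inner_add_left, inner_add_left, real_inner_smul_left, real_inner_smul_left,
      real_inner_smul_left, e4, e5, e6]
    ring

theorem ccvA_set (K : Set E3) (f u : E3) (h : ON f u) (t : ℝ) :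
    ccvA_S K f u t = (fun y => ⟪y, cr f u⟫_ℝ) '' (K ∩ {y | ⟪y, u⟫_ℝ = t}) := by
  ext x
  constructor
  · rintro ⟨s, hs⟩
    obtain ⟨h1, h2⟩ := ccvA_inner f u h x s t
    exact ⟨_, ⟨hs, h2⟩, h1⟩
  · rintro ⟨y, ⟨hy, hyt⟩, rfl⟩
    refine ⟨⟪y, f⟫_ℝ, ?_⟩
    have h1 := (fra_basis f u h y).1
    have hyt' : ⟪y, u⟫_ℝ = t := hyt
    rw [hyt'] at h1
    rw [← h1]
    exact hy

theorem ccvA_comp (K : Set E3) (hK : CB K) (f u : E3) (h : ON f u) (t : ℝ) :
    IsCompact (ccvA_S K f u t) := by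
  rw [ccvA_set K f u h t]
  apply IsCompact.image
  · apply hK.comp.inter_right
    exact isClosed_eq (by fun_prop) continuous_const
  · fun_prop

theorem ccvA_mix (K : Set E3) (hK : CB K) (f u : E3) (t₀ t₁ a b : ℝ) (ha : 0 ≤ a) (hb : 0 ≤ b)
    (hab : a + b = 1) (x₀ x₁ : ℝ) (h0 : x₀ ∈ ccvA_S K f u t₀) (h1 : x₁ ∈ ccvA_S K f u t₁) :
    a * x₀ + b * x₁ ∈ ccvA_S K f u (a * t₀ + b * t₁) := by
  obtain ⟨s₀, hs₀⟩ := h0
  obtain ⟨s₁, hs₁⟩ := h1
  refine ⟨a * s₀ + b * s₁, ?_⟩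
  have := hK.conv hs₀ hs₁ ha hb hab
  have e : (a * x₀ + b * x₁) • cr f u + (a * s₀ + b * s₁) • f + (a * t₀ + b * t₁) • u =
    a • (x₀ • cr f u + s₀ • f + t₀ • u) + b • (x₁ • cr f u + s₁ • f + t₁ • u) := by
    module
  rw [e]
  exact this

theorem ccvA_Icc (K : Set E3) (hK : CB K) (f u : E3) (t x₀ x₁ : ℝ)
    (h0 : x₀ ∈ ccvA_S K f u t) (h1 : x₁ ∈ ccvA_S K f u t) :
    Set.Icc x₀ x₁ ⊆ ccvA_S K f u t := by
  have hc : Convex ℝ (ccvA_S K f u t) := by
    intro x hx y hy a b ha hb hab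
    have := ccvA_mix K hK f u t t a b ha hb hab x y hx hy
    have e : a * t + b * t = t := by rw [← add_mul, hab, one_mul]
    rw [e] at this
    exact this
  exact hc.ordConnected.out h0 h1

theorem ccvA_ge (K : Set E3) (hK : CB K) (f u : E3) (h : ON f u) (t x₀ x₁ : ℝ)
    (h0 : x₀ ∈ ccvA_S K f u t) (h1 : x₁ ∈ ccvA_S K f u t) :
    x₁ - x₀ ≤ Wd K f u t := by
  have hfin : volume (ccvA_S K f u t) ≠ ⊤ := (ccvA_comp K hK f u h t).measure_lt_top.ne
  have h2 : volume (Set.Icc x₀ x₁) ≤ volume (ccvA_S K f u t) :=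
    measure_mono (ccvA_Icc K hK f u t x₀ x₁ h0 h1)
  have h3 := ENNReal.toReal_mono hfin h2
  rw [Real.volume_Icc] at h3
  rcases le_or_gt 0 (x₁ - x₀) with h4 | h4
  · rw [ENNReal.toReal_ofReal h4] at h3
    exact h3
  · exact h4.le.trans ENNReal.toReal_nonneg

theorem ccvA_le (K : Set E3) (hK : CB K) (f u : E3) (h : ON f u) (t : ℝ)
    (hne : (ccvA_S K f u t).Nonempty) : ∃ x₀ ∈ ccvA_S K f u t, ∃ x₁ ∈ ccvA_S K f u t,
    Wd K f u t ≤ x₁ - x₀ := by
  have hc := ccvA_comp K hK f u h t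
  refine ⟨sInf (ccvA_S K f u t), hc.sInf_mem hne, sSup (ccvA_S K f u t), hc.sSup_mem hne, ?_⟩
  have h1 : ccvA_S K f u t ⊆ Set.Icc (sInf (ccvA_S K f u t)) (sSup (ccvA_S K f u t)) :=
    fun x hx => ⟨csInf_le hc.bddBelow hx, le_csSup hc.bddAbove hx⟩
  have h2 : volume (ccvA_S K f u t) ≤
      volume (Set.Icc (sInf (ccvA_S K f u t)) (sSup (ccvA_S K f u t))) := measure_mono h1
  rw [Real.volume_Icc] at h2
  have h3 := ENNReal.toReal_mono ENNReal.ofReal_ne_top h2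
  obtain ⟨x, hx⟩ := hne
  have h4 : 0 ≤ sSup (ccvA_S K f u t) - sInf (ccvA_S K f u t) := by
    have := h1 hx
    linarith [this.1, this.2]
  rw [ENNReal.toReal_ofReal h4] at h3
  exact h3

theorem ccvA_ne (K : Set E3) (hK : CB K) (f u : E3) (h : ON f u) (t : ℝ)
    (ht : t ∈ Set.Icc (lo K u) (hi K u)) : (ccvA_S K f u t).Nonempty := by
  obtain ⟨_, _, h3, _⟩ := fra_lohi K hK u h.nu
  obtain ⟨x, hx, hxt⟩ := h3 t ht
  rw [ccvA_set K f u h t]
  exact ⟨_, x, ⟨hx, hxt⟩, rfl⟩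

theorem ccv_wd (K : Set E3) (hK : CB K) (f u : E3) (h : ON f u) :
    ConcaveOn ℝ (Set.Icc (lo K u) (hi K u)) (Wd K f u) ∧ (∀ t, 0 ≤ Wd K f u t) ∧
    (∀ t ∈ Set.Ioo (lo K u) (hi K u), 0 < Wd K f u t) := by
  refine ⟨⟨convex_Icc _ _, ?_⟩, fun t => ENNReal.toReal_nonneg, ?_⟩
  · intro t₀ ht₀ t₁ ht₁ a b ha hb hab
    obtain ⟨x₀, hx₀, y₀, hy₀, h0⟩ := ccvA_le K hK f u h t₀ (ccvA_ne K hK f u h t₀ ht₀)
    obtain ⟨x₁, hx₁, y₁, hy₁, h1⟩ := ccvA_le K hK f u h t₁ (ccvA_ne K hK f u h t₁ ht₁)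
    have hx := ccvA_mix K hK f u t₀ t₁ a b ha hb hab x₀ x₁ hx₀ hx₁
    have hy := ccvA_mix K hK f u t₀ t₁ a b ha hb hab y₀ y₁ hy₀ hy₁
    have h2 := ccvA_ge K hK f u h _ _ _ hx hy
    simp only [smul_eq_mul]
    nlinarith [mul_le_mul_of_nonneg_left h0 ha, mul_le_mul_of_nonneg_left h1 hb]
  · intro t ht
    obtain ⟨_, _, _, h4⟩ := fra_lohi K hK u h.nu
    obtain ⟨x, hx, hxt⟩ := h4 t ht
    obtain ⟨r, hr, hball⟩ := Metric.isOpen_iff.1 isOpen_interior x hx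
    have hsub : Metric.ball x r ⊆ K := hball.trans interior_subset
    obtain ⟨g1, g2, g3, g4, g5, g6⟩ := fra_on' f u h
    have e1 : ⟪cr f u, cr f u⟫_ℝ = 1 := by rw [real_inner_self_eq_norm_sq, g3.nf]; norm_num
    have hin : ∀ d : ℝ, |d| < r → ⟪x, cr f u⟫_ℝ + d ∈ ccvA_S K f u t := by
      intro d hd
      rw [ccvA_set K f u h t]
      refine ⟨x + d • cr f u, ⟨hsub ?_, ?_⟩, ?_⟩
      · rw [Metric.mem_ball, dist_eq_norm, add_sub_cancel_left, norm_smul, g3.nf, mul_one]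
        exact hd
      · change ⟪x + d • cr f u, u⟫_ℝ = t
        rw [inner_add_left, real_inner_smul_left, g3.or, hxt]
        ring
      · change ⟪x + d • cr f u, cr f u⟫_ℝ = _
        rw [inner_add_left, real_inner_smul_left, e1]
        ring
    have h5 := hin (r / 2) (by rw [abs_of_pos (by linarith)]; linarith)
    have h6 := hin (-(r / 2)) (by rw [abs_neg, abs_of_pos (by linarith)]; linarith)
    have h7 := ccvA_ge K hK f u h _ _ _ h6 h5
    linarith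

end STB
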