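import Pool.Agent.Lib_helper15.STB.Defs
import Pool.Agent.Lib_helper15.STB.B.fraA

/-! # STB, block ccvB : measurability of the widths (helper66) -/

open MeasureTheory Filter Topology
open scoped InnerProductSpace
open Pool.Agent.Lib_helper15.STE

namespace STB

theorem ccvB_cont : Continuous (fun p : E3 × E3 => cr p.1 p.2) := by
  unfold cr
  refine (PiLp.continuous_toLp 2 _).comp (continuous_pi ?_)
  intro i
  fin_cases i <;> simp <;> fun_prop

theorem ccvB_inner (f u : E3) (h : ON f u) (x s t : ℝ) :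
    ⟪x • cr f u + s • f + t • u, f⟫_ℝ = s := by
  have h1 : ⟪cr f u, f⟫_ℝ = 0 := (fra_on' f u h).2.2.2.1.or
  have h2 : ⟪f, f⟫_ℝ = 1 := by rw [real_inner_self_eq_norm_sq, h.nf]; norm_num
  have h3 : ⟪u, f⟫_ℝ = 0 := by rw [real_inner_comm]; exact h.or
  rw [inner_add_left, inner_add_left, real_inner_smul_left, real_inner_smul_left,
    real_inner_smul_left, h1, h2, h3]
  ring

/-- the set over which the width is a measure of fibres, with a compact parameter -/
def ccvB_set (K : Set E3) (C : ℝ) : Set ((E3 × E3 × ℝ) × ℝ) :=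
  {q | ∃ s : Set.Icc (-C) C,
    q.2 • cr q.1.1 q.1.2.1 + (s : ℝ) • q.1.1 + q.1.2.2 • q.1.2.1 ∈ K}

theorem ccvB_closed (K : Set E3) (hK : IsClosed K) (C : ℝ) : IsClosed (ccvB_set K C) := by
  have h1 : Continuous (fun q : ((E3 × E3 × ℝ) × ℝ) × Set.Icc (-C) C =>
      q.1.2 • cr q.1.1.1 q.1.1.2.1 + (q.2 : ℝ) • q.1.1.1 + q.1.1.2.2 • q.1.1.2.1) := by
    have h2 : Continuous (fun q : ((E3 × E3 × ℝ) × ℝ) × Set.Icc (-C) C =>
        cr q.1.1.1 q.1.1.2.1) :=
      ccvB_cont.comp (by fun_prop :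
        Continuous (fun q : ((E3 × E3 × ℝ) × ℝ) × Set.Icc (-C) C => (q.1.1.1, q.1.1.2.1)))
    fun_prop
  have h3 := isClosedMap_fst_of_compactSpace (X := (E3 × E3 × ℝ) × ℝ) (Y := Set.Icc (-C) C)
    _ (hK.preimage h1)
  convert h3 using 1
  ext q
  constructor
  · rintro ⟨s, hs⟩
    exact ⟨(q, s), hs, rfl⟩
  · rintro ⟨⟨q', s⟩, hs, rfl⟩
    exact ⟨s, hs⟩

theorem ccv_meas (K : Set E3) (hK : CB K) {Ω : Type} [MeasurableSpace Ω] (F U : Ω → E3)
    (T : Ω → ℝ) (hF : Measurable F) (hU : Measurable U) (hT : Measurable T)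
    (h : ∀ ω, ON (F ω) (U ω)) : Measurable (fun ω => Wd K (F ω) (U ω) (T ω)) := by
  obtain ⟨C, hC⟩ := hK.comp.isBounded.exists_norm_le
  have hm : MeasurableSet (ccvB_set K C) := (ccvB_closed K hK.comp.isClosed C).measurableSet
  have h1 : Measurable (fun p : E3 × E3 × ℝ => (volume : Measure ℝ) (Prod.mk p ⁻¹' ccvB_set K C)) :=
    measurable_measure_prodMk_left hm
  have h2 : Measurable (fun ω => (F ω, U ω, T ω)) := hF.prodMk (hU.prodMk hT)
  have h3 := (h1.comp h2).ennreal_toReal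
  convert h3 using 1
  funext ω
  unfold Wd
  simp only [Function.comp]
  congr 2
  ext x
  constructor
  · rintro ⟨s, hs⟩
    have h4 : |s| ≤ C := by
      have h5 := abs_real_inner_le_norm (x • cr (F ω) (U ω) + s • F ω + T ω • U ω) (F ω)
      rw [ccvB_inner (F ω) (U ω) (h ω), (h ω).nf, mul_one] at h5
      exact h5.trans (hC _ hs)
    exact ⟨⟨s, abs_le.mp h4⟩, hs⟩
  · rintro ⟨s, hs⟩
    exact ⟨s, hs⟩

end STB
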