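import Pool.Agent.Lib_helper15.STB.Defs
import Pool.Agent.Lib_helper15.STB.B.fraA

/-! # STB, block fraB : volume in the coordinates of a frame (uses fraA) -/

open MeasureTheory Filter Topology
open scoped InnerProductSpace
open Pool.Agent.Lib_helper15.STE

namespace STB

theorem fraB_on (f u : E3) (h : ON f u) : Orthonormal ℝ ![cr f u, f, u] := by
  obtain ⟨-, -, h1, h2, -, -⟩ := fra_on' f u h
  have a1 : ‖cr f u‖ = 1 := h1.nf
  have a2 : ⟪cr f u, u⟫_ℝ = 0 := h1.or
  have a3 : ⟪cr f u, f⟫_ℝ = 0 := h2.or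
  have a4 : ⟪f, u⟫_ℝ = 0 := h.or
  constructor
  · intro i
    fin_cases i
    · exact a1
    · exact h.nf
    · exact h.nu
  · intro i j hij
    fin_cases i <;> fin_cases j
    · exact absurd rfl hij
    · exact a3
    · exact a2
    · show ⟪f, cr f u⟫_ℝ = 0
      rw [real_inner_comm]; exact a3
    · exact absurd rfl hij
    · exact a4
    · show ⟪u, cr f u⟫_ℝ = 0
      rw [real_inner_comm]; exact a2
    · show ⟪u, f⟫_ℝ = 0
      rw [real_inner_comm]; exact a4
    · exact absurd rfl hij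

theorem fraB_mp3 (f u : E3) (h : ON f u) :
    MeasurePreserving (fun x : E3 => x 0 • cr f u + x 1 • f + x 2 • u) volume volume := by
  have hon := fraB_on f u h
  let b : OrthonormalBasis (Fin 3) ℝ E3 :=
    (basisOfOrthonormalOfCardEqFinrank hon (by simp)).toOrthonormalBasis (by
      rw [coe_basisOfOrthonormalOfCardEqFinrank]; exact hon)
  have hb : ∀ i, b i = ![cr f u, f, u] i := by
    intro i
    show (basisOfOrthonormalOfCardEqFinrank hon (by simp)).toOrthonormalBasis _ i = _
    rw [Module.Basis.coe_toOrthonormalBasis, coe_basisOfOrthonormalOfCardEqFinrank]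
  have h1 : MeasurePreserving b.repr.symm volume volume := b.repr.symm.measurePreserving
  have h2 : (fun x : E3 => x 0 • cr f u + x 1 • f + x 2 • u) = b.repr.symm := by
    funext x
    have h3 := b.sum_repr_symm x
    rw [← h3, Fin.sum_univ_three, hb, hb, hb]
    rfl
  rw [h2]
  exact h1

theorem fraB_mp (f u : E3) (h : ON f u) :
    MeasurePreserving (fun p : ℝ × (Fin 2 → ℝ) => p.2 0 • cr f u + p.2 1 • f + p.1 • u)
      volume volume := by
  have h1 : MeasurePreserving (MeasurableEquiv.piFinSuccAbove (fun _ : Fin 3 => ℝ) 2).symm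
      volume volume := (volume_preserving_piFinSuccAbove (fun _ : Fin 3 => ℝ) 2).symm
  have h2 : MeasurePreserving (MeasurableEquiv.toLp 2 (Fin 3 → ℝ)) volume volume :=
    (EuclideanSpace.volume_preserving_symm_measurableEquiv_toLp (Fin 3)).symm
  have h3 := (fraB_mp3 f u h).comp (h2.comp h1)
  convert h3 using 1
  funext p
  have a0 : (MeasurableEquiv.piFinSuccAbove (fun _ : Fin 3 => ℝ) 2).symm p 0 = p.2 0 := rfl
  have a1 : (MeasurableEquiv.piFinSuccAbove (fun _ : Fin 3 => ℝ) 2).symm p 1 = p.2 1 := rfl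
  have a2 : (MeasurableEquiv.piFinSuccAbove (fun _ : Fin 3 => ℝ) 2).symm p 2 = p.1 := rfl
  show _ = (MeasurableEquiv.piFinSuccAbove (fun _ : Fin 3 => ℝ) 2).symm p 0 • cr f u +
    (MeasurableEquiv.piFinSuccAbove (fun _ : Fin 3 => ℝ) 2).symm p 1 • f +
    (MeasurableEquiv.piFinSuccAbove (fun _ : Fin 3 => ℝ) 2).symm p 2 • u
  rw [a0, a1, a2]

theorem fraB_mp2 : MeasurePreserving (fun w : Fin 2 → ℝ => (WithLp.toLp 2 w : E2)) volume volume :=
  PiLp.volume_preserving_toLp (Fin 2)

theorem fraB_cont (f u : E3) : Continuous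
    (fun p : ℝ × (Fin 2 → ℝ) => p.2 0 • cr f u + p.2 1 • f + p.1 • u) := by
  fun_prop

theorem fraB_Sc (s : Set E3) (hs : MeasurableSet s) (f u : E3) (t : ℝ) :
    MeasurableSet (Sc s f u t) := by
  have h : Continuous (fun y : E2 => y 0 • cr f u + y 1 • f + t • u) := by fun_prop
  exact h.measurable hs

theorem fra_vol (f u : E3) (h : ON f u) (s : Set E3) (hs : MeasurableSet s) :
    volume s = ∫⁻ t : ℝ, volume (Sc s f u t) := by
  have h1 := (fraB_mp f u h).measure_preimage hs.nullMeasurableSet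
  have hm : MeasurableSet ((fun p : ℝ × (Fin 2 → ℝ) =>
    p.2 0 • cr f u + p.2 1 • f + p.1 • u) ⁻¹' s) := (fraB_cont f u).measurable hs
  rw [← h1]
  have h2 : (volume : Measure (ℝ × (Fin 2 → ℝ))) = (volume : Measure ℝ).prod volume := rfl
  rw [h2, Measure.prod_apply hm]
  refine lintegral_congr fun t => ?_
  have h3 := fraB_mp2.measure_preimage (fraB_Sc s hs f u t).nullMeasurableSet
  rw [← h3]
  rfl

theorem fraB_prod (S : Set E2) (hS : MeasurableSet S) :
    volume S = ∫⁻ x : ℝ, volume {r : ℝ | !₂[x, r] ∈ S} := by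
  have h1 : MeasurePreserving (MeasurableEquiv.finTwoArrow (α := ℝ)).symm volume volume :=
    (volume_preserving_finTwoArrow ℝ).symm
  have h2 : MeasurePreserving (MeasurableEquiv.toLp 2 (Fin 2 → ℝ)) volume volume :=
    (EuclideanSpace.volume_preserving_symm_measurableEquiv_toLp (Fin 2)).symm
  have h3 := h2.comp h1
  have h4 := h3.measure_preimage hS.nullMeasurableSet
  have hm : MeasurableSet (((MeasurableEquiv.toLp 2 (Fin 2 → ℝ)) ∘
      (MeasurableEquiv.finTwoArrow (α := ℝ)).symm) ⁻¹' S) := h3.measurable hS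
  rw [← h4]
  have h5 : (volume : Measure (ℝ × ℝ)) = (volume : Measure ℝ).prod volume := rfl
  rw [h5, Measure.prod_apply hm]
  rfl

theorem fra_vol2 (f u : E3) (h : ON f u) (s : Set E3) (hs : MeasurableSet s) :
    volume s = ∫⁻ t : ℝ, ∫⁻ x : ℝ, volume {r : ℝ | x • cr f u + r • f + t • u ∈ s} := by
  rw [fra_vol f u h s hs]
  refine lintegral_congr fun t => ?_
  rw [fraB_prod _ (fraB_Sc s hs f u t)]
  rfl

end STB
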