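import Pool.Agent.Lib_helper15.STB.Defs
import Pool.Agent.Lib_helper15.STB.B.fraA
import Pool.Agent.Lib_helper15.STB.B.fraC

/-! # STB, block sec : sections -/

open MeasureTheory Filter Topology
open scoped InnerProductSpace
open Pool.Agent.Lib_helper15.STE

namespace STB

private theorem sec_pre (K : Set E3) (f u : E3) (t : ℝ) (P : E2 →ᵃⁱ[ℝ] E3)
    (hP : ∀ y : E2, P y = y 0 • cr f u + y 1 • f + t • u) : Sc K f u t = P ⁻¹' K := by
  ext y
  rw [Set.mem_preimage, hP y]
  rfl

private theorem sec_inner (f u : E3) (h : ON f u) (t a b : ℝ) :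
    ⟪a • cr f u + b • f + t • u, u⟫_ℝ = t := by
  obtain ⟨-, -, h1, -, -, -⟩ := fra_on' f u h
  rw [inner_add_left, inner_add_left, real_inner_smul_left, real_inner_smul_left,
    real_inner_smul_left, h1.or, h.or, real_inner_self_eq_norm_sq, h.nu]
  ring

private theorem sec_coord (f u : E3) (h : ON f u) (x : E3) (t : ℝ) (hx : ⟪x, u⟫_ℝ = t) :
    ∃ y : E2, y 0 • cr f u + y 1 • f + t • u = x := by
  refine ⟨!₂[⟪x, cr f u⟫_ℝ, ⟪x, f⟫_ℝ], ?_⟩
  have h1 := (fra_basis f u h x).1
  rw [hx] at h1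
  simpa using h1.symm

theorem sec_comp (K : Set E3) (hK : CB K) (f u : E3) (h : ON f u) (t : ℝ) :
    Convex ℝ (Sc K f u t) ∧ IsCompact (Sc K f u t) ∧
    (t ∈ Set.Icc (lo K u) (hi K u) → (Sc K f u t).Nonempty) ∧
    (t ∉ Set.Icc (lo K u) (hi K u) → Sc K f u t = ∅ ∧ Wd K f u t = 0) ∧
    (t ∈ Set.Ioo (lo K u) (hi K u) → 0 < volume (Sc K f u t)) := by
  obtain ⟨P, hP⟩ := fra_plane f u h t
  have hS := sec_pre K f u t P hP
  obtain ⟨-, hlohi, hIcc, hIoo⟩ := fra_lohi K hK u h.nu
  refine ⟨?_, ?_, ?_, ?_, ?_⟩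
  · rw [hS]
    exact hK.conv.affine_preimage P.toAffineMap
  · rw [hS]
    exact P.isometry.isClosedEmbedding.isCompact_preimage hK.comp
  · intro ht
    obtain ⟨x, hx, hxt⟩ := hIcc t ht
    obtain ⟨y, hy⟩ := sec_coord f u h x t hxt
    refine ⟨y, ?_⟩
    show y 0 • cr f u + y 1 • f + t • u ∈ K
    rw [hy]
    exact hx
  · intro ht
    have hno : ∀ a b : ℝ, a • cr f u + b • f + t • u ∉ K := by
      intro a b hab
      have h1 := hlohi _ hab
      rw [sec_inner f u h t a b] at h1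
      exact ht ⟨h1.1, h1.2⟩
    constructor
    · ext y
      simp only [Set.mem_empty_iff_false, iff_false]
      exact hno (y 0) (y 1)
    · unfold Wd
      have h2 : {x : ℝ | ∃ s : ℝ, x • cr f u + s • f + t • u ∈ K} = ∅ := by
        ext x
        simp only [Set.mem_setOf_eq, Set.mem_empty_iff_false, iff_false, not_exists]
        exact fun s => hno x s
      rw [h2]
      simp
  · intro ht
    obtain ⟨x, hx, hxt⟩ := hIoo t ht
    obtain ⟨y, hy⟩ := sec_coord f u h x t hxt
    have ho : IsOpen (P ⁻¹' interior K) := isOpen_interior.preimage P.continuous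
    have hne : (P ⁻¹' interior K).Nonempty := by
      refine ⟨y, ?_⟩
      rw [Set.mem_preimage, hP y, hy]
      exact hx
    refine (ho.measure_pos volume hne).trans_le (measure_mono ?_)
    rw [hS]
    exact Set.preimage_mono interior_subset

theorem sec_width (K : Set E3) (hK : CB K) (f u : E3) (h : ON f u) (t φ : ℝ) :
    wE (Sc K f u t) φ = Wd K (tw f u φ) u t := by
  unfold wE Wd
  congr 2
  have hcs : Real.cos φ ^ 2 + Real.sin φ ^ 2 = 1 := Real.cos_sq_add_sin_sq φ
  obtain ⟨-, hcr⟩ := fra_on f u h φ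
  rw [hcr]
  ext x
  simp only [Set.mem_image, Set.mem_setOf_eq]
  constructor
  · rintro ⟨y, hy, rfl⟩
    refine ⟨-(y 0) * Real.sin φ + y 1 * Real.cos φ, ?_⟩
    have hy' : y 0 • cr f u + y 1 • f + t • u ∈ K := hy
    convert hy' using 2
    unfold tw
    have e1 : (y 0 * Real.cos φ + y 1 * Real.sin φ) • (Real.cos φ • cr f u + Real.sin φ • f) +
        (-(y 0) * Real.sin φ + y 1 * Real.cos φ) • (Real.cos φ • f - Real.sin φ • cr f u) =
        (y 0 * (Real.cos φ ^ 2 + Real.sin φ ^ 2)) • cr f u +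
          (y 1 * (Real.cos φ ^ 2 + Real.sin φ ^ 2)) • f := by
      module
    rw [e1, hcs, mul_one, mul_one]
  · rintro ⟨s, hs⟩
    refine ⟨!₂[x * Real.cos φ - s * Real.sin φ, x * Real.sin φ + s * Real.cos φ], ?_, ?_⟩
    · show (x * Real.cos φ - s * Real.sin φ) • cr f u +
        (x * Real.sin φ + s * Real.cos φ) • f + t • u ∈ K
      convert hs using 2
      unfold tw
      module
    · show (x * Real.cos φ - s * Real.sin φ) * Real.cos φ +
        (x * Real.sin φ + s * Real.cos φ) * Real.sin φ = x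
      linear_combination x * hcs

end STB
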