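import Pool.Agent.Lib_helper15.STB.Defs
import Pool.Agent.Lib_helper15.STB.B.fraA
import Pool.Agent.Lib_helper15.STB.B.fraB
import Pool.Agent.Lib_helper15.STB.B.fraC
import Pool.Agent.Lib_helper15.STB.B.sec
import Pool.Agent.Lib_helper15.STB.B.ccvA
import Pool.Agent.Lib_helper15.STB.B.ccvB

/-! # STB, block fub (helper97): integrals over the heights -/

open MeasureTheory Filter Topology
open scoped InnerProductSpace
open Pool.Agent.Lib_helper15.STE

namespace STB

/-! ## general analysis -/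

theorem fub_int {g : ℝ → ℝ} {a b C : ℝ} (hab : a ≤ b) (hg : Measurable g) (hC : ∀ t, |g t| ≤ C)
    (h0 : ∀ t, t ∉ Set.Icc a b → g t = 0) :
    Integrable g ∧ ∫ t in a..b, g t = ∫ t, g t := by
  have h1 : IntegrableOn g (Set.Icc a b) := by
    refine Measure.integrableOn_of_bounded (M := C) ?_ hg.aestronglyMeasurable ?_
    · rw [Real.volume_Icc]
      exact ENNReal.ofReal_ne_top
    · exact Filter.Eventually.of_forall fun t => by rw [Real.norm_eq_abs]; exact hC t
  have h2 : Integrable g := by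
    rw [integrableOn_iff_integrable_of_support_subset] at h1
    · exact h1
    · intro t ht
      by_contra hc
      exact ht (h0 t hc)
  refine ⟨h2, ?_⟩
  rw [intervalIntegral.integral_of_le hab, ← integral_Icc_eq_integral_Ioc]
  exact setIntegral_eq_integral_of_forall_compl_eq_zero h0

theorem fub_swap {G : ℝ → ℝ → ℝ} {a b c d C : ℝ} (hab : a ≤ b) (hcd : c ≤ d)
    (hG : Measurable (Function.uncurry G)) (hC : ∀ t φ, |G t φ| ≤ C) :
    ∫ t in a..b, ∫ φ in c..d, G t φ = ∫ φ in c..d, ∫ t in a..b, G t φ := by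
  rw [intervalIntegral.integral_of_le hab, intervalIntegral.integral_of_le hcd]
  have e1 : ∀ t, ∫ φ in c..d, G t φ = ∫ φ in Set.Ioc c d, G t φ :=
    fun t => intervalIntegral.integral_of_le hcd
  have e2 : ∀ φ, ∫ t in a..b, G t φ = ∫ t in Set.Ioc a b, G t φ :=
    fun φ => intervalIntegral.integral_of_le hab
  simp_rw [e1, e2]
  apply integral_integral_swap
  refine Integrable.mono' (g := fun _ => C) (integrable_const _) hG.aestronglyMeasurable ?_
  exact Filter.Eventually.of_forall fun p => by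
    rw [Real.norm_eq_abs]
    exact hC p.1 p.2

/-! ## the fibres -/

theorem fub_inner {f u : E3} (h : ON f u) (x r t : ℝ) :
    ⟪x • cr f u + r • f + t • u, f⟫_ℝ = r ∧ ⟪x • cr f u + r • f + t • u, cr f u⟫_ℝ = x ∧
      ⟪x • cr f u + r • f + t • u, u⟫_ℝ = t := by
  obtain ⟨_, _, h1, h2, _, _⟩ := fra_on' f u h
  have a1 : ⟪cr f u, f⟫_ℝ = 0 := h2.or
  have a2 : ⟪cr f u, u⟫_ℝ = 0 := h1.or
  have a3 : ⟪f, u⟫_ℝ = 0 := h.or
  have a4 : ⟪u, f⟫_ℝ = 0 := by rw [real_inner_comm]; exact a3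
  have a5 : ⟪f, cr f u⟫_ℝ = 0 := by rw [real_inner_comm]; exact a1
  have a6 : ⟪u, cr f u⟫_ℝ = 0 := by rw [real_inner_comm]; exact a2
  have b1 : ⟪f, f⟫_ℝ = 1 := by rw [real_inner_self_eq_norm_sq, h.nf]; norm_num
  have b2 : ⟪u, u⟫_ℝ = 1 := by rw [real_inner_self_eq_norm_sq, h.nu]; norm_num
  have b3 : ⟪cr f u, cr f u⟫_ℝ = 1 := by rw [real_inner_self_eq_norm_sq, h1.nf]; norm_num
  simp only [inner_add_left, real_inner_smul_left]
  rw [a1, a2, a3, a4, a5, a6, b1, b2, b3]
  refine ⟨by ring, by ring, by ring⟩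

theorem fub_cont (f u : E3) :
    Continuous (fun p : (ℝ × ℝ) × ℝ => p.1.2 • cr f u + p.2 • f + p.1.1 • u) := by
  fun_prop

/-- the fibre over a point of the shadow -/
theorem fub_fibre {K : Set E3} (hK : CB K) {f u : E3} (h : ON f u) (x t : ℝ) :
    volume {r : ℝ | x • cr f u + r • f + t • u ∈
        {y : E3 | ∃ z ∈ K, ∃ s ∈ Set.Icc (0:ℝ) 1, y = z + s • f}} =
      volume {r : ℝ | x • cr f u + r • f + t • u ∈ K} +
        Set.indicator {x : ℝ | ∃ s : ℝ, x • cr f u + s • f + t • u ∈ K} 1 x := by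
  set F : Set ℝ := {r : ℝ | x • cr f u + r • f + t • u ∈ K} with hF
  have hF' : {r : ℝ | x • cr f u + r • f + t • u ∈
        {y : E3 | ∃ z ∈ K, ∃ s ∈ Set.Icc (0:ℝ) 1, y = z + s • f}} =
      {r : ℝ | ∃ s ∈ Set.Icc (0:ℝ) 1, r - s ∈ F} := by
    ext r
    simp only [Set.mem_ofPred_eq, hF]
    constructor
    · rintro ⟨z, hz, s, hs, he⟩
      refine ⟨s, hs, ?_⟩
      have : x • cr f u + (r - s) • f + t • u = z := by
        rw [sub_smul]
        have e1 : z = x • cr f u + r • f + t • u - s • f := by rw [he]; abel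
        rw [e1]
        abel
      rw [this]
      exact hz
    · rintro ⟨s, hs, he⟩
      refine ⟨_, he, s, hs, ?_⟩
      rw [sub_smul]
      abel
  rw [hF']
  rcases F.eq_empty_or_nonempty with h0 | h0
  · have e1 : {r : ℝ | ∃ s ∈ Set.Icc (0:ℝ) 1, r - s ∈ F} = ∅ := by
      rw [h0]
      ext r
      simp
    have e2 : x ∉ {x : ℝ | ∃ s : ℝ, x • cr f u + s • f + t • u ∈ K} := by
      rintro ⟨s, hs⟩
      have : s ∈ F := hs
      rw [h0] at this
      exact this
    rw [e1, h0, Set.indicator_of_notMem e2]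
    simp
  · have e2 : x ∈ {x : ℝ | ∃ s : ℝ, x • cr f u + s • f + t • u ∈ K} := by
      obtain ⟨s, hs⟩ := h0
      exact ⟨s, hs⟩
    rw [Set.indicator_of_mem e2]
    obtain ⟨C, hC0, hC, _, _⟩ := fra_bound K hK
    have hcl : IsClosed F := by
      have : Continuous (fun r : ℝ => x • cr f u + r • f + t • u) := by fun_prop
      exact hK.comp.isClosed.preimage this
    have hsub : F ⊆ Set.Icc (-C) C := by
      intro r hr
      have h1 := (fub_inner h x r t).1
      have h2 := abs_real_inner_le_norm (x • cr f u + r • f + t • u) f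
      rw [h1, h.nf, mul_one] at h2
      have h3 := h2.trans (hC _ hr)
      rwa [abs_le] at h3
    have hco : IsCompact F := isCompact_Icc.of_isClosed_subset hcl hsub
    have hcv : Convex ℝ F := by
      intro r hr r' hr' a b ha hb hab
      have h1 := hK.conv hr hr' ha hb hab
      have h2 : a • (x • cr f u + r • f + t • u) + b • (x • cr f u + r' • f + t • u) =
          x • cr f u + (a • r + b • r') • f + t • u := by
        simp only [smul_add, smul_smul, smul_eq_mul, add_smul]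
        have e3 : (a * x) • cr f u + (b * x) • cr f u = x • cr f u := by
          rw [← add_smul, ← add_mul, hab, one_mul]
        have e4 : (a * t) • u + (b * t) • u = t • u := by
          rw [← add_smul, ← add_mul, hab, one_mul]
        rw [← e3, ← e4]
        abel
      rw [h2] at h1
      exact h1
    have hIcc : F = Set.Icc (sInf F) (sSup F) :=
      eq_Icc_of_connected_compact ⟨h0, hcv.isPreconnected⟩ hco
    have hle : sInf F ≤ sSup F := by
      obtain ⟨r, hr⟩ := h0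
      rw [hIcc] at hr
      exact hr.1.trans hr.2
    generalize sInf F = α at hIcc hle
    generalize sSup F = β at hIcc hle
    rw [hIcc]
    have e1 : {r : ℝ | ∃ s ∈ Set.Icc (0:ℝ) 1, r - s ∈ Set.Icc α β} = Set.Icc α (β + 1) := by
      ext r
      simp only [Set.mem_ofPred_eq, Set.mem_Icc]
      constructor
      · rintro ⟨s, hs, h1, h2⟩
        constructor <;> linarith [hs.1, hs.2]
      · rintro ⟨h1, h2⟩
        refine ⟨max 0 (r - β), ⟨le_max_left _ _, max_le (by norm_num) (by linarith)⟩, ?_, ?_⟩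
        · rcases max_cases 0 (r - β) with ⟨e, _⟩ | ⟨e, _⟩ <;> rw [e] <;> linarith
        · have := le_max_right 0 (r - β)
          linarith
    rw [e1, Real.volume_Icc, Real.volume_Icc]
    have e3 : (β + 1 - α) = (β - α) + 1 := by ring
    rw [e3, ENNReal.ofReal_add (by linarith) (by norm_num), ENNReal.ofReal_one]
    rfl

theorem fub_D {K : Set E3} (hK : CB K) {f u : E3} (h : ON f u) (t : ℝ) :
    MeasurableSet {x : ℝ | ∃ s : ℝ, x • cr f u + s • f + t • u ∈ K} ∧
    volume {x : ℝ | ∃ s : ℝ, x • cr f u + s • f + t • u ∈ K} =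
      ENNReal.ofReal (Wd K f u t) := by
  have h1 : {x : ℝ | ∃ s : ℝ, x • cr f u + s • f + t • u ∈ K} =
      (fun y : E3 => ⟪y, cr f u⟫_ℝ) '' (K ∩ {y : E3 | ⟪y, u⟫_ℝ = t}) := by
    ext x
    simp only [Set.mem_ofPred_eq, Set.mem_image, Set.mem_inter_iff]
    constructor
    · rintro ⟨s, hs⟩
      exact ⟨_, ⟨hs, (fub_inner h x s t).2.2⟩, (fub_inner h x s t).2.1⟩
    · rintro ⟨y, ⟨hy, hy2⟩, hy3⟩
      refine ⟨⟪y, f⟫_ℝ, ?_⟩
      have := (fra_basis f u h y).1
      rw [hy2, hy3] at this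
      rw [← this]
      exact hy
  have h2 : IsCompact {x : ℝ | ∃ s : ℝ, x • cr f u + s • f + t • u ∈ K} := by
    rw [h1]
    apply IsCompact.image
    · apply hK.comp.inter_right
      exact isClosed_eq (by fun_prop) continuous_const
    · fun_prop
  refine ⟨h2.isClosed.measurableSet, ?_⟩
  unfold Wd
  rw [ENNReal.ofReal_toReal]
  exact h2.measure_lt_top.ne

theorem fub_wdm {K : Set E3} (hK : CB K) {f u : E3} (h : ON f u) : Measurable (Wd K f u) :=
  ccv_meas K hK (fun _ : ℝ => f) (fun _ => u) (fun t => t) measurable_const measurable_const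
    measurable_id (fun _ => h)

theorem fub_comp2 {K : Set E3} (hK : CB K) {f : E3} :
    IsCompact {y : E3 | ∃ z ∈ K, ∃ s ∈ Set.Icc (0:ℝ) 1, y = z + s • f} := by
  have h1 : {y : E3 | ∃ z ∈ K, ∃ s ∈ Set.Icc (0:ℝ) 1, y = z + s • f} =
      (fun p : E3 × ℝ => p.1 + p.2 • f) '' (K ×ˢ Set.Icc (0:ℝ) 1) := by
    ext y
    simp only [Set.mem_ofPred_eq, Set.mem_image, Set.mem_prod, Prod.exists]
    constructor
    · rintro ⟨z, hz, s, hs, he⟩
      exact ⟨z, s, ⟨hz, hs⟩, he.symm⟩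
    · rintro ⟨z, s, ⟨hz, hs⟩, he⟩
      exact ⟨z, hz, s, hs, he.symm⟩
  rw [h1]
  exact (hK.comp.prod isCompact_Icc).image (by fun_prop)

/-- The length of the fibre. -/
noncomputable def fubL (K : Set E3) (f u : E3) (p : ℝ × ℝ) : ENNReal :=
  volume {r : ℝ | p.2 • cr f u + r • f + p.1 • u ∈ K}

theorem fub_L0 {K : Set E3} (hK : CB K) (f u : E3) : Measurable (fubL K f u) := by
  have hs : MeasurableSet {q : (ℝ × ℝ) × ℝ | q.1.2 • cr f u + q.2 • f + q.1.1 • u ∈ K} :=
    (hK.comp.isClosed.preimage (fub_cont f u)).measurableSet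
  exact measurable_measure_prodMk_left hs

theorem fub_L1 {K : Set E3} (hK : CB K) (f u : E3) (t : ℝ) :
    Measurable (fun x : ℝ => fubL K f u (t, x)) := by
  have h0 : Measurable (fun x : ℝ => ((t, x) : ℝ × ℝ)) :=
    measurable_const.prodMk measurable_id
  exact (fub_L0 hK f u).comp h0

theorem fub_L2 {K : Set E3} (hK : CB K) (f u : E3) :
    Measurable (fun t : ℝ => ∫⁻ x : ℝ, fubL K f u (t, x)) :=
  (fub_L0 hK f u).lintegral_prod_right'

theorem fub_L3 {K : Set E3} (hK : CB K) {f u : E3} (h : ON f u) (t : ℝ) :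
    ∫⁻ x : ℝ, volume {r : ℝ | x • cr f u + r • f + t • u ∈
        {y : E3 | ∃ z ∈ K, ∃ s ∈ Set.Icc (0:ℝ) 1, y = z + s • f}} =
      (∫⁻ x : ℝ, fubL K f u (t, x)) + ENNReal.ofReal (Wd K f u t) := by
  obtain ⟨hD1, hD2⟩ := fub_D hK h t
  rw [lintegral_congr (fun x => fub_fibre hK h x t)]
  have h1 : (∫⁻ x : ℝ, fubL K f u (t, x) +
      Set.indicator {x : ℝ | ∃ r : ℝ, x • cr f u + r • f + t • u ∈ K} 1 x) =
      (∫⁻ x : ℝ, fubL K f u (t, x)) + ENNReal.ofReal (Wd K f u t) := by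
    rw [lintegral_add_left (fub_L1 hK f u t), lintegral_indicator_one hD1, hD2]
  exact h1

theorem fub_vol {K : Set E3} (hK : CB K) {f u : E3} (h : ON f u) :
    volume {y : E3 | ∃ z ∈ K, ∃ s ∈ Set.Icc (0:ℝ) 1, y = z + s • f} =
      volume K + ∫⁻ t : ℝ, ENNReal.ofReal (Wd K f u t) := by
  rw [fra_vol2 f u h _ (fub_comp2 hK).isClosed.measurableSet,
    fra_vol2 f u h K hK.comp.isClosed.measurableSet]
  rw [lintegral_congr (fub_L3 hK h)]
  exact lintegral_add_left (fub_L2 hK f u) _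

theorem fub_base {K : Set E3} (hK : CB K) {f u : E3} (h : ON f u) :
    ∃ C : ℝ, 0 ≤ C ∧ (∀ t, 0 ≤ Wd K f u t) ∧ (∀ t, |Wd K f u t| ≤ C) ∧
      (∀ t, t ∉ Set.Icc (lo K u) (hi K u) → Wd K f u t = 0) ∧ lo K u ≤ hi K u := by
  obtain ⟨C, hC0, _, hC, _⟩ := fra_bound K hK
  have h0 := (ccv_wd K hK f u h).2.1
  refine ⟨2 * C, by linarith, h0, ?_, ?_, (fra_lohi K hK u h.nu).1.le⟩
  · intro t
    rw [abs_of_nonneg (h0 t)]
    exact hC f u h t
  · intro t ht
    exact ((sec_comp K hK f u h t).2.2.2.1 ht).2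

theorem fub_sh (K : Set E3) (hK : CB K) (f u : E3) (h : ON f u) :
    ∫ t in (lo K u)..(hi K u), Wd K f u t = sh K f := by
  obtain ⟨C, hC0, h1, h2, h3, h4⟩ := fub_base hK h
  obtain ⟨h5, h6⟩ := fub_int h4 (fub_wdm hK h) h2 h3
  rw [h6]
  unfold sh
  rw [fub_vol hK h]
  have h7 : ∫⁻ t : ℝ, ENNReal.ofReal (Wd K f u t) = ENNReal.ofReal (∫ t, Wd K f u t) :=
    (ofReal_integral_eq_lintegral_ofReal h5 (Filter.Eventually.of_forall h1)).symm
  rw [h7, ENNReal.toReal_add hK.comp.measure_lt_top.ne ENNReal.ofReal_ne_top,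
    ENNReal.toReal_ofReal (integral_nonneg h1)]
  ring

/-! ## the turned frames -/

theorem fub_twm (K : Set E3) (hK : CB K) (f u : E3) (h : ON f u) :
    Measurable (Function.uncurry (fun t φ => Wd K (tw f u φ) u t)) := by
  have h1 : Continuous (fun φ : ℝ => tw f u φ) := by
    unfold tw
    fun_prop
  exact ccv_meas K hK (fun p : ℝ × ℝ => tw f u p.2) (fun _ => u) (fun p => p.1)
    (h1.measurable.comp measurable_snd) measurable_const measurable_fst
    (fun p => (fra_on f u h p.2).1)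

theorem fub_twb (K : Set E3) (hK : CB K) (f u : E3) (h : ON f u) :
    ∃ C : ℝ, 0 ≤ C ∧ ∀ t φ, 0 ≤ Wd K (tw f u φ) u t ∧ Wd K (tw f u φ) u t ≤ C := by
  obtain ⟨C, hC0, _, hC, _⟩ := fra_bound K hK
  refine ⟨2 * C, by linarith, fun t φ => ⟨?_, ?_⟩⟩
  · exact (ccv_wd K hK _ u (fra_on f u h φ).1).2.1 t
  · exact hC _ u (fra_on f u h φ).1 t

theorem fub_La (K : Set E3) (hK : CB K) (f u : E3) (h : ON f u) :
    ∫ t in (lo K u)..(hi K u), Lt K f u t = La K f u := by
  obtain ⟨C, hC0, hC⟩ := fub_twb K hK f u h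
  unfold Lt La
  rw [fub_swap (C := C) (fra_lohi K hK u h.nu).1.le Real.pi_pos.le (fub_twm K hK f u h)
    (fun t φ => by rw [abs_of_nonneg (hC t φ).1]; exact (hC t φ).2)]
  apply intervalIntegral.integral_congr
  intro φ _
  exact fub_sh K hK _ u (fra_on f u h φ).1

theorem fub_th1 (K : Set E3) (hK : CB K) (f u : E3) (h : ON f u) :
    th K f u = ∫ t in (lo K u)..(hi K u), Wd K f u t ^ 3 := by
  obtain ⟨C, hC0, h1, h2, h3, h4⟩ := fub_base hK h
  have h5 := fub_int (g := fun t => Wd K f u t ^ 3) (C := C ^ 3) h4 ((fub_wdm hK h).pow_const 3)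
    (fun t => by
      rw [abs_pow]
      exact pow_le_pow_left₀ (abs_nonneg _) (h2 t) 3)
    (fun t ht => by rw [h3 t ht]; norm_num)
  rw [h5.2]
  rfl

theorem fub_th (K : Set E3) (hK : CB K) (f u : E3) (h : ON f u) :
    ∫ t in (lo K u)..(hi K u), (∫ φ in (0:ℝ)..Real.pi, Wd K (tw f u φ) u t ^ 3) =
      ∫ φ in (0:ℝ)..Real.pi, th K (tw f u φ) u ∧
    th K f u = ∫ t in (lo K u)..(hi K u), Wd K f u t ^ 3 := by
  refine ⟨?_, fub_th1 K hK f u h⟩
  obtain ⟨C, hC0, hC⟩ := fub_twb K hK f u h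
  rw [fub_swap (G := fun t φ => Wd K (tw f u φ) u t ^ 3) (C := C ^ 3)
    (fra_lohi K hK u h.nu).1.le Real.pi_pos.le ((fub_twm K hK f u h).pow_const 3)
    (fun t φ => by
      rw [abs_pow, abs_of_nonneg (hC t φ).1]
      exact pow_le_pow_left₀ (hC t φ).1 (hC t φ).2 3)]
  apply intervalIntegral.integral_congr
  intro φ _
  exact (fub_th1 K hK _ u (fra_on f u h φ).1).symm

/-- the same with a weight -/
theorem fub_wt (K : Set E3) (hK : CB K) (f u : E3) (h : ON f u) (q : ℝ → ℝ)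
    (hq : Continuous q) : ∫ t, Lt K f u t * q t =
      ∫ φ in (0:ℝ)..Real.pi, (∫ t, Wd K (tw f u φ) u t * q t) := by
  obtain ⟨C, hC0, hC⟩ := fub_twb K hK f u h
  have hle := (fra_lohi K hK u h.nu).1.le
  obtain ⟨Q, hQ⟩ := isCompact_Icc.exists_bound_of_continuousOn (s := Set.Icc (lo K u) (hi K u))
    hq.continuousOn
  have hQ0 : 0 ≤ Q := (norm_nonneg _).trans (hQ (lo K u) ⟨le_rfl, hle⟩)
  have hout : ∀ φ t, t ∉ Set.Icc (lo K u) (hi K u) → Wd K (tw f u φ) u t = 0 := fun φ t ht =>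
    ((sec_comp K hK _ u (fra_on f u h φ).1 t).2.2.2.1 ht).2
  have hb : ∀ t φ, |Wd K (tw f u φ) u t * q t| ≤ C * Q := by
    intro t φ
    by_cases ht : t ∈ Set.Icc (lo K u) (hi K u)
    · rw [abs_mul, abs_of_nonneg (hC t φ).1]
      exact mul_le_mul (hC t φ).2 (hQ t ht) (abs_nonneg _) hC0
    · rw [hout φ t ht, zero_mul, abs_zero]
      positivity
  have hm : Measurable (Function.uncurry (fun t φ => Wd K (tw f u φ) u t * q t)) :=
    (fub_twm K hK f u h).mul (hq.measurable.comp measurable_fst)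
  have e1 : ∀ φ, ∫ t, Wd K (tw f u φ) u t * q t =
      ∫ t in (lo K u)..(hi K u), Wd K (tw f u φ) u t * q t := by
    intro φ
    refine (fub_int hle ?_ (fun t => hb t φ) ?_).2.symm
    · exact (fub_wdm hK (fra_on f u h φ).1).mul hq.measurable
    · intro t ht
      rw [hout φ t ht, zero_mul]
  have e2 : ∀ t, Lt K f u t * q t = ∫ φ in (0:ℝ)..Real.pi, Wd K (tw f u φ) u t * q t := by
    intro t
    unfold Lt
    rw [intervalIntegral.integral_mul_const]
  have e3 : ∫ t, Lt K f u t * q t = ∫ t in (lo K u)..(hi K u), Lt K f u t * q t := by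
    rw [intervalIntegral.integral_of_le hle, ← integral_Icc_eq_integral_Ioc]
    symm
    apply setIntegral_eq_integral_of_forall_compl_eq_zero
    intro t ht
    rw [e2]
    have : ∀ φ, Wd K (tw f u φ) u t * q t = 0 := fun φ => by rw [hout φ t ht, zero_mul]
    simp_rw [this]
    simp
  rw [e3]
  simp_rw [e2, e1]
  exact fub_swap hle Real.pi_pos.le hm hb

end STB
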