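import Pool.Agent.Lib_helper15.STB.Defs
import Pool.Agent.Lib_helper15.STB.B.fraA
import Pool.Agent.Lib_helper15.STB.B.fraC
import Pool.Agent.Lib_helper15.STB.B.sec
import Pool.Agent.Lib_helper15.STB.B.fub

/-! # STB, block cro : Crofton's formula for the chords of a shadow -/

open MeasureTheory Filter Topology
open scoped InnerProductSpace
open Pool.Agent.Lib_helper15.STE

namespace STB

/-- one-dimensional part -/
theorem cro_one (I : Set ℝ) (hc : IsCompact I) (hconv : Convex ℝ I) :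
    6 * ∫⁻ r in Set.Ioi (0:ℝ), ENNReal.ofReal r * volume {x : ℝ | x ∈ I ∧ x + r ∈ I} =
      (volume I) ^ 3 := by
  rcases Set.eq_empty_or_nonempty I with h0 | hne
  · subst h0
    simp
  · have hI : I = Set.Icc (sInf I) (sSup I) :=
      eq_Icc_of_connected_compact ⟨hne, hconv.isPreconnected⟩ hc
    obtain ⟨a, b, hab⟩ : ∃ a b : ℝ, I = Set.Icc a b := ⟨_, _, hI⟩
    have hle : a ≤ b := by
      rw [hab] at hne
      exact Set.nonempty_Icc.mp hne
    subst hab
    have h1 : ∀ r ∈ Set.Ioi (0:ℝ), ENNReal.ofReal r *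
        volume {x : ℝ | x ∈ Set.Icc a b ∧ x + r ∈ Set.Icc a b} =
        (Set.Ioc 0 (b - a)).indicator (fun r => ENNReal.ofReal (r * (b - a - r))) r := by
      intro r hr
      have hr' : (0:ℝ) < r := hr
      have hset : {x : ℝ | x ∈ Set.Icc a b ∧ x + r ∈ Set.Icc a b} = Set.Icc a (b - r) := by
        ext x
        simp only [Set.mem_ofPred_eq, Set.mem_Icc]
        constructor
        · rintro ⟨⟨h1, h2⟩, h3, h4⟩
          exact ⟨h1, by linarith⟩
        · rintro ⟨h1, h2⟩
          exact ⟨⟨h1, by linarith⟩, by linarith, by linarith⟩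
      rw [hset, Real.volume_Icc, ← ENNReal.ofReal_mul hr'.le]
      by_cases hrb : r ≤ b - a
      · rw [Set.indicator_of_mem (show r ∈ Set.Ioc 0 (b - a) from ⟨hr', hrb⟩)]
        congr 1
        ring
      · rw [Set.indicator_of_notMem (fun h => hrb h.2)]
        rw [ENNReal.ofReal_eq_zero]
        push Not at hrb
        nlinarith
    rw [setLIntegral_congr_fun measurableSet_Ioi h1,
      lintegral_indicator measurableSet_Ioc, Measure.restrict_restrict measurableSet_Ioc]
    have hinter : Set.Ioc 0 (b - a) ∩ Set.Ioi 0 = Set.Ioc 0 (b - a) := by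
      apply Set.inter_eq_left.mpr
      intro x hx
      exact hx.1
    rw [hinter]
    have hint : IntervalIntegrable (fun r : ℝ => r * (b - a - r)) volume 0 (b - a) :=
      (by fun_prop : Continuous fun r : ℝ => r * (b - a - r)).intervalIntegrable _ _
    rw [← ofReal_integral_eq_lintegral_ofReal
      ((intervalIntegrable_iff_integrableOn_Ioc_of_le (by linarith)).mp hint)]
    · rw [← intervalIntegral.integral_of_le (by linarith)]
      have hval : ∫ r in (0:ℝ)..(b - a), r * (b - a - r) = (b - a) ^ 3 / 6 := by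
        have : (fun r : ℝ => r * (b - a - r)) = fun r => (b - a) * r - r ^ 2 := by
          funext r; ring
        rw [this, intervalIntegral.integral_sub, intervalIntegral.integral_const_mul]
        · simp only [integral_id, integral_pow]
          norm_num
          ring
        · exact (by fun_prop : Continuous fun r : ℝ => (b - a) * r).intervalIntegrable _ _
        · exact (by fun_prop : Continuous fun r : ℝ => r ^ 2).intervalIntegrable _ _
      rw [hval, Real.volume_Icc, ← ENNReal.ofReal_pow (by linarith),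
        show (6 : ENNReal) = ENNReal.ofReal 6 by norm_num,
        ← ENNReal.ofReal_mul (by norm_num)]
      congr 1
      ring
    · filter_upwards [ae_restrict_mem measurableSet_Ioc] with r hr
      exact mul_nonneg hr.1.le (by linarith [hr.2])

theorem cro_sq (D : Set (ℝ × ℝ)) (hD : MeasurableSet D) :
    volume D ^ 2 = ∫⁻ v : ℝ × ℝ, volume {x : ℝ × ℝ | x ∈ D ∧ x + v ∈ D} := by
  have hmp := measurePreserving_prod_add (volume : Measure (ℝ × ℝ)) (volume : Measure (ℝ × ℝ))
  have h1 : ((volume : Measure (ℝ × ℝ)).prod (volume : Measure (ℝ × ℝ))) (D ×ˢ D) =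
      volume D ^ 2 := by
    rw [Measure.prod_prod, sq]
  rw [← h1, ← hmp.measure_preimage (hD.prod hD).nullMeasurableSet,
    Measure.prod_apply_symm (hmp.measurable (hD.prod hD))]
  rfl

/-- the reflection used for the coordinates along a direction -/
theorem cro_rot (θ : ℝ) : MeasurePreserving
    (fun p : ℝ × ℝ => (p.1 * Real.cos θ + p.2 * Real.sin θ,
      p.1 * Real.sin θ - p.2 * Real.cos θ)) volume volume := by
  set L : (ℝ × ℝ) →ₗ[ℝ] (ℝ × ℝ) := Matrix.toLin (Module.Basis.finTwoProd ℝ)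
    (Module.Basis.finTwoProd ℝ) !![Real.cos θ, Real.sin θ; Real.sin θ, -Real.cos θ] with hL
  have hdet : LinearMap.det L = -1 := by
    rw [hL, LinearMap.det_toLin, Matrix.det_fin_two_of]
    have := Real.sin_sq_add_cos_sq θ
    nlinarith
  have hLf : (L : ℝ × ℝ → ℝ × ℝ) = (fun p : ℝ × ℝ => (p.1 * Real.cos θ + p.2 * Real.sin θ,
      p.1 * Real.sin θ - p.2 * Real.cos θ)) := by
    funext p
    rw [hL, Matrix.toLin_finTwoProd_apply]
    ext
    · simp; ring
    · simp; ring
  refine ⟨by fun_prop, ?_⟩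
  rw [← hLf, Measure.map_linearMap_addHaar_eq_smul_addHaar volume (by rw [hdet]; norm_num), hdet]
  norm_num

theorem cro_half (H : ℝ → ENNReal) (hper : ∀ θ, H (θ - Real.pi) = H θ) :
    ∫⁻ θ in Set.Ioo (-Real.pi) Real.pi, H θ = 2 * ∫⁻ θ in Set.Ioc (0:ℝ) Real.pi, H θ := by
  have hpi := Real.pi_pos
  rw [restrict_Ioo_eq_restrict_Ioc]
  have hu : Set.Ioc (-Real.pi) Real.pi = Set.Ioc (-Real.pi) 0 ∪ Set.Ioc 0 Real.pi :=
    (Set.Ioc_union_Ioc_eq_Ioc (by linarith) hpi.le).symm
  rw [hu, lintegral_union measurableSet_Ioc]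
  · rw [two_mul]
    congr 1
    rw [← lintegral_indicator measurableSet_Ioc, ← lintegral_indicator measurableSet_Ioc,
      ← lintegral_sub_right_eq_self _ Real.pi]
    apply lintegral_congr
    intro θ
    by_cases h : θ ∈ Set.Ioc 0 Real.pi
    · rw [Set.indicator_of_mem h, Set.indicator_of_mem
        (show θ - Real.pi ∈ Set.Ioc (-Real.pi) 0 from ⟨by linarith [h.1], by linarith [h.2]⟩),
        hper]
    · rw [Set.indicator_of_notMem h, Set.indicator_of_notMem]
      intro h'
      exact h ⟨by linarith [h'.1], by linarith [h'.2]⟩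
  · rw [Set.disjoint_left]
    intro x h1 h2
    exact absurd h1.2 (not_le.mpr h2.1)

theorem cro_polar (G : ℝ × ℝ → ENNReal) (hG : Measurable G) (hev : ∀ v, G (-v) = G v) :
    ∫⁻ v : ℝ × ℝ, G v = 2 * ∫⁻ θ in Set.Ioc (0:ℝ) Real.pi, ∫⁻ r in Set.Ioi (0:ℝ),
      ENNReal.ofReal r * G (r * Real.cos θ, r * Real.sin θ) := by
  rw [← lintegral_comp_polarCoord_symm]
  have ht : polarCoord.target = Set.Ioi (0 : ℝ) ×ˢ Set.Ioo (-Real.pi) Real.pi := rfl
  rw [ht, Measure.volume_eq_prod, ← Measure.prod_restrict, lintegral_prod_symm]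
  · simp only [polarCoord_symm_apply, smul_eq_mul]
    apply cro_half (fun θ => ∫⁻ r in Set.Ioi (0:ℝ),
      ENNReal.ofReal r * G (r * Real.cos θ, r * Real.sin θ))
    intro θ
    apply lintegral_congr
    intro r
    rw [Real.cos_sub_pi, Real.sin_sub_pi, ← hev (r * Real.cos θ, r * Real.sin θ)]
    congr 2
    ext
    · simp
    · simp
  · have : Measurable fun p : ℝ × ℝ => ENNReal.ofReal p.1 • G (polarCoord.symm p) := by
      simp only [polarCoord_symm_apply, smul_eq_mul]
      exact (by fun_prop : Measurable fun p : ℝ × ℝ => ENNReal.ofReal p.1).mul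
        (hG.comp (by fun_prop))
    exact this.aemeasurable

/-- Crofton's formula for the chords of a plane convex body -/
theorem cro_plane (D : Set (ℝ × ℝ)) (hc : IsCompact D) (hconv : Convex ℝ D) :
    3 * volume D ^ 2 = ∫⁻ θ in Set.Ioc (0:ℝ) Real.pi, ∫⁻ t : ℝ,
      (volume {x : ℝ | (x * Real.cos θ + t * Real.sin θ,
        x * Real.sin θ - t * Real.cos θ) ∈ D}) ^ 3 := by
  have hD : MeasurableSet D := hc.isClosed.measurableSet
  have hset : MeasurableSet {q : (ℝ × ℝ) × (ℝ × ℝ) | q.2 ∈ D ∧ q.2 + q.1 ∈ D} :=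
    (measurable_snd hD).inter
      ((by fun_prop : Measurable fun q : (ℝ × ℝ) × (ℝ × ℝ) => q.2 + q.1) hD)
  have hG : Measurable fun v : ℝ × ℝ => volume {x : ℝ × ℝ | x ∈ D ∧ x + v ∈ D} :=
    measurable_measure_prodMk_left hset
  have hev : ∀ v : ℝ × ℝ, volume {x : ℝ × ℝ | x ∈ D ∧ x + (-v) ∈ D} =
      volume {x : ℝ × ℝ | x ∈ D ∧ x + v ∈ D} := by
    intro v
    have h1 := measure_preimage_add_right (volume : Measure (ℝ × ℝ)) v
      {x : ℝ × ℝ | x ∈ D ∧ x + (-v) ∈ D}
    rw [← h1]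
    congr 1
    ext x
    simp only [Set.mem_preimage, Set.mem_ofPred_eq, add_neg_cancel_right]
    exact and_comm
  rw [cro_sq D hD, cro_polar _ hG hev, ← mul_assoc, show (3:ENNReal) * 2 = 6 by norm_num,
    ← lintegral_const_mul' _ _ (by norm_num)]
  apply lintegral_congr
  intro θ
  have hrot := cro_rot θ
  set R : ℝ × ℝ → ℝ × ℝ := fun p : ℝ × ℝ => (p.1 * Real.cos θ + p.2 * Real.sin θ,
      p.1 * Real.sin θ - p.2 * Real.cos θ) with hR
  have hRm : Measurable R := by rw [hR]; fun_prop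
  have hV : ∀ r : ℝ, volume {x : ℝ × ℝ | x ∈ D ∧ x + (r * Real.cos θ, r * Real.sin θ) ∈ D} =
      ∫⁻ t : ℝ, volume {a : ℝ | R (a, t) ∈ D ∧ R (a + r, t) ∈ D} := by
    intro r
    have hm : MeasurableSet {x : ℝ × ℝ | x ∈ D ∧ x + (r * Real.cos θ, r * Real.sin θ) ∈ D} :=
      hD.inter ((by fun_prop : Measurable fun x : ℝ × ℝ =>
        x + (r * Real.cos θ, r * Real.sin θ)) hD)
    rw [← hrot.measure_preimage hm.nullMeasurableSet, Measure.volume_eq_prod,
      Measure.prod_apply_symm (hRm hm)]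
    apply lintegral_congr
    intro t
    congr 1
    ext a
    simp only [Set.mem_preimage, Set.mem_ofPred_eq]
    have : R (a, t) + (r * Real.cos θ, r * Real.sin θ) = R (a + r, t) := by
      rw [hR]
      ext
      · simp; ring
      · simp; ring
    rw [this]
  have hVm : Measurable fun q : ℝ × ℝ =>
      volume {a : ℝ | R (a, q.2) ∈ D ∧ R (a + q.1, q.2) ∈ D} := by
    have : MeasurableSet {w : (ℝ × ℝ) × ℝ | R (w.2, w.1.2) ∈ D ∧ R (w.2 + w.1.1, w.1.2) ∈ D} :=
      ((hRm.comp (by fun_prop : Measurable fun w : (ℝ × ℝ) × ℝ => (w.2, w.1.2))) hD).inter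
        ((hRm.comp (by fun_prop : Measurable fun w : (ℝ × ℝ) × ℝ =>
          (w.2 + w.1.1, w.1.2))) hD)
    exact measurable_measure_prodMk_left this
  simp only [hV]
  have hsw : ∫⁻ r in Set.Ioi (0:ℝ), ENNReal.ofReal r *
      ∫⁻ t : ℝ, volume {a : ℝ | R (a, t) ∈ D ∧ R (a + r, t) ∈ D} =
      ∫⁻ t : ℝ, ∫⁻ r in Set.Ioi (0:ℝ), ENNReal.ofReal r *
        volume {a : ℝ | R (a, t) ∈ D ∧ R (a + r, t) ∈ D} := by
    have h1 : ∀ r : ℝ, ENNReal.ofReal r *
      ∫⁻ t : ℝ, volume {a : ℝ | R (a, t) ∈ D ∧ R (a + r, t) ∈ D} =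
      ∫⁻ t : ℝ, ENNReal.ofReal r * volume {a : ℝ | R (a, t) ∈ D ∧ R (a + r, t) ∈ D} := by
      intro r
      rw [lintegral_const_mul' _ _ ENNReal.ofReal_ne_top]
    simp only [h1]
    apply lintegral_lintegral_swap
    exact ((by fun_prop : Measurable fun q : ℝ × ℝ => ENNReal.ofReal q.1).mul
      hVm).aemeasurable
  rw [hsw, ← lintegral_const_mul' _ _ (by norm_num)]
  apply lintegral_congr
  intro t
  have hI : IsCompact {x : ℝ | R (x, t) ∈ D} := by
    have h1 : IsClosed {x : ℝ | R (x, t) ∈ D} :=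
      hc.isClosed.preimage (by rw [hR]; fun_prop)
    have h2 : IsCompact ((fun p : ℝ × ℝ => p.1 * Real.cos θ + p.2 * Real.sin θ) '' D) :=
      hc.image (by fun_prop)
    apply h2.of_isClosed_subset h1
    intro x hx
    refine ⟨R (x, t), hx, ?_⟩
    rw [hR]
    dsimp only
    linear_combination x * Real.sin_sq_add_cos_sq θ
  have hIc : Convex ℝ {x : ℝ | R (x, t) ∈ D} := by
    intro x hx y hy a b ha hb hab
    have h1 := hconv hx hy ha hb hab
    have h2 : R (a • x + b • y, t) = a • R (x, t) + b • R (y, t) := by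
      have hb' : b = 1 - a := by linarith
      rw [hR, hb']
      ext
      · simp; ring
      · simp; ring
    rw [Set.mem_ofPred_eq, h2]
    exact h1
  exact cro_one _ hI hIc

/-- the shadow in coordinates -/
def cro_D (K : Set E3) (f u : E3) : Set (ℝ × ℝ) :=
  {p | ∃ s : ℝ, p.1 • cr f u + s • f + (-p.2) • u ∈ K}

theorem cro_D_eq (K : Set E3) (f u : E3) (h : ON f u) :
    cro_D K f u = (fun x : E3 => ((⟪cr f u, x⟫_ℝ, -⟪u, x⟫_ℝ) : ℝ × ℝ)) '' K := by
  obtain ⟨h1, h2, h3, h4, -, -⟩ := fra_on' f u h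
  have e1 : ⟪cr f u, cr f u⟫_ℝ = 1 := by rw [real_inner_self_eq_norm_sq, h3.nf]; norm_num
  have e2 : ⟪cr f u, f⟫_ℝ = 0 := h4.or
  have e3 : ⟪cr f u, u⟫_ℝ = 0 := h3.or
  have e4 : ⟪u, cr f u⟫_ℝ = 0 := by rw [real_inner_comm]; exact e3
  have e5 : ⟪u, f⟫_ℝ = 0 := h1.or
  have e6 : ⟪u, u⟫_ℝ = 1 := by rw [real_inner_self_eq_norm_sq, h.nu]; norm_num
  ext p
  constructor
  · rintro ⟨s, hs⟩
    refine ⟨_, hs, ?_⟩
    ext
    · simp only [inner_add_right, inner_smul_right, e1, e2, e3]
      ring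
    · simp only [inner_add_right, inner_smul_right, e4, e5, e6]
      ring
  · rintro ⟨x, hx, rfl⟩
    refine ⟨⟪x, f⟫_ℝ, ?_⟩
    have hb := (fra_basis f u h x).1
    dsimp only
    rw [neg_neg, real_inner_comm x (cr f u), real_inner_comm x u, ← hb]
    exact hx

theorem cro_D_cpt (K : Set E3) (hK : CB K) (f u : E3) (h : ON f u) :
    IsCompact (cro_D K f u) ∧ Convex ℝ (cro_D K f u) := by
  constructor
  · rw [cro_D_eq K f u h]
    exact hK.comp.image (by fun_prop)
  · rintro p ⟨s, hs⟩ q ⟨t, ht⟩ a b ha hb hab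
    refine ⟨a * s + b * t, ?_⟩
    have := hK.conv hs ht ha hb hab
    convert this using 1
    simp only [Prod.fst_add, Prod.snd_add, Prod.smul_fst, Prod.smul_snd, smul_eq_mul]
    module

theorem cro_fib (K : Set E3) (f u : E3) (h : ON f u) (θ t : ℝ) :
    Wd K f (tw u f θ) t = (volume {x : ℝ | (x * Real.cos θ + t * Real.sin θ,
        x * Real.sin θ - t * Real.cos θ) ∈ cro_D K f u}).toReal := by
  obtain ⟨h1, h2, -, -, -, -⟩ := fra_on' f u h
  obtain ⟨h3, h4⟩ := fra_on u f h1 θ
  obtain ⟨-, h5, -, -, -, -⟩ := fra_on' (tw u f θ) f h3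
  unfold Wd
  congr 2
  ext x
  simp only [Set.mem_ofPred_eq, cro_D]
  have key : ∀ s : ℝ, x • cr f (tw u f θ) + s • f + t • tw u f θ =
      (x * Real.cos θ + t * Real.sin θ) • cr f u + s • f +
        (-(x * Real.sin θ - t * Real.cos θ)) • u := by
    intro s
    rw [h5, h4, h2]
    unfold tw
    rw [h2]
    module
  simp only [key]

theorem cro_fin (D : Set (ℝ × ℝ)) (hc : IsCompact D) (θ t : ℝ) :
    volume {x : ℝ | (x * Real.cos θ + t * Real.sin θ,
        x * Real.sin θ - t * Real.cos θ) ∈ D} < ⊤ := by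
  have h2 : IsCompact ((fun p : ℝ × ℝ => p.1 * Real.cos θ + p.2 * Real.sin θ) '' D) :=
    hc.image (by fun_prop)
  refine lt_of_le_of_lt (measure_mono ?_) h2.measure_lt_top
  intro x hx
  refine ⟨_, hx, ?_⟩
  dsimp only
  linear_combination x * Real.sin_sq_add_cos_sq θ

theorem cro_area (K : Set E3) (hK : CB K) (f u : E3) (h : ON f u) :
    (volume (cro_D K f u)).toReal = sh K f := by
  obtain ⟨hc, hconv⟩ := cro_D_cpt K hK f u h
  have hD : MeasurableSet (cro_D K f u) := hc.isClosed.measurableSet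
  have hW : ∀ t : ℝ, (volume ((fun x : ℝ => (x, t)) ⁻¹' cro_D K f u)).toReal =
      Wd K f u (-t) := by
    intro t
    rfl
  have hfin : ∀ t : ℝ, volume ((fun x : ℝ => (x, t)) ⁻¹' cro_D K f u) < ⊤ := by
    intro t
    have := cro_fin (cro_D K f u) hc 0 (-t)
    simp only [Real.cos_zero, Real.sin_zero, mul_one, mul_zero, add_zero, zero_sub,
      neg_neg] at this
    exact this
  have hlt := (fra_lohi K hK u h.nu).1
  have h1 : ∫ t : ℝ, Wd K f u t = sh K f := by
    rw [← fub_sh K hK f u h, intervalIntegral.integral_of_le hlt.le,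
      ← integral_Icc_eq_integral_Ioc]
    symm
    apply setIntegral_eq_integral_of_forall_compl_eq_zero
    intro t ht
    exact ((sec_comp K hK f u h t).2.2.2.1 ht).2
  rw [Measure.volume_eq_prod, Measure.prod_apply_symm hD, ← integral_toReal
    (measurable_measure_prodMk_right hD).aemeasurable (Filter.Eventually.of_forall hfin)]
  simp only [hW]
  rw [integral_neg_eq_self (fun t => Wd K f u t), h1]

theorem cro_main (K : Set E3) (hK : CB K) (f u : E3) (h : ON f u) :
    ∫ θ in (0:ℝ)..Real.pi, th K f (tw u f θ) = 3 * sh K f ^ 2 := by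
  obtain ⟨hc, hconv⟩ := cro_D_cpt K hK f u h
  set D := cro_D K f u with hDdef
  have hD : MeasurableSet D := hc.isClosed.measurableSet
  have hplane := cro_plane D hc hconv
  have hDfin : volume D < ⊤ := hc.measure_lt_top
  have hm3 : MeasurableSet {w : (ℝ × ℝ) × ℝ | (w.2 * Real.cos w.1.1 + w.1.2 * Real.sin w.1.1,
      w.2 * Real.sin w.1.1 - w.1.2 * Real.cos w.1.1) ∈ D} :=
    (by fun_prop : Measurable fun w : (ℝ × ℝ) × ℝ =>
      (w.2 * Real.cos w.1.1 + w.1.2 * Real.sin w.1.1,
      w.2 * Real.sin w.1.1 - w.1.2 * Real.cos w.1.1)) hD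
  have hm : Measurable fun q : ℝ × ℝ => (volume {x : ℝ |
      (x * Real.cos q.1 + q.2 * Real.sin q.1, x * Real.sin q.1 - q.2 * Real.cos q.1) ∈ D}) ^ 3 :=
    (measurable_measure_prodMk_left hm3).pow_const 3
  have hth : ∀ θ : ℝ, th K f (tw u f θ) = (∫⁻ t : ℝ, (volume {x : ℝ |
      (x * Real.cos θ + t * Real.sin θ, x * Real.sin θ - t * Real.cos θ) ∈ D}) ^ 3).toReal := by
    intro θ
    unfold th
    rw [← integral_toReal]
    · apply integral_congr_ae
      apply Filter.Eventually.of_forall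
      intro t
      dsimp only
      rw [cro_fib K f u h θ t, ENNReal.toReal_pow]
    · exact (hm.comp (by fun_prop : Measurable fun t : ℝ => (θ, t))).aemeasurable
    · apply Filter.Eventually.of_forall
      intro t
      exact ENNReal.pow_lt_top (cro_fin D hc θ t)
  have hout : Measurable fun θ : ℝ => ∫⁻ t : ℝ, (volume {x : ℝ |
      (x * Real.cos θ + t * Real.sin θ, x * Real.sin θ - t * Real.cos θ) ∈ D}) ^ 3 :=
    hm.lintegral_prod_right'
  simp only [hth]
  rw [intervalIntegral.integral_of_le Real.pi_pos.le, integral_toReal hout.aemeasurable,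
    ← hplane, ENNReal.toReal_mul, ENNReal.toReal_pow, hDdef, cro_area K hK f u h]
  · norm_num
  · apply ae_lt_top' hout.aemeasurable
    rw [← hplane]
    exact ENNReal.mul_ne_top (by norm_num) (ENNReal.pow_ne_top hDfin.ne)

end STB
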