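import Pool.Agent.Lib_helper15.STB.Defs
import Pool.Agent.Lib_helper15.STB.B.fraA
import Pool.Agent.Lib_helper15.STB.B.fraB
import Pool.Agent.Lib_helper15.STB.B.fraC
import Pool.Agent.Lib_helper15.STB.B.sec
import Pool.Agent.Lib_helper15.STB.B.ccvA
import Pool.Agent.Lib_helper15.STB.B.fub

/-! # STB, block shmB : properties of the shadow function -/

open MeasureTheory Filter Topology
open scoped InnerProductSpace Pointwise
open Pool.Agent.Lib_helper15.STE

namespace STB

theorem shmB_ex (x : E3) (hx : ‖x‖ = 1) : ∃ u, ON x u := by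
  obtain ⟨v, hv, hv0⟩ : ∃ v : E3, ⟪x, v⟫_ℝ = 0 ∧ v ≠ 0 := by
    by_cases h : x 0 = 0 ∧ x 1 = 0
    · refine ⟨!₂[1, 0, 0], ?_, ?_⟩
      · simp [PiLp.inner_apply, Fin.sum_univ_three, h.1]
      · intro h0
        have := congrArg (fun y : E3 => y 0) h0
        simp at this
    · refine ⟨!₂[-x 1, x 0, 0], ?_, ?_⟩
      · simp [PiLp.inner_apply, Fin.sum_univ_three]
        ring
      · intro h0
        apply h
        have h1 := congrArg (fun y : E3 => y 0) h0
        have h2 := congrArg (fun y : E3 => y 1) h0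
        simp at h1 h2
        exact ⟨h2, h1⟩
  refine ⟨‖v‖⁻¹ • v, hx, norm_smul_inv_norm hv0, ?_⟩
  rw [inner_smul_right, hv, mul_zero]

/-- the points of a fibre -/
theorem shmB_inner (f u : E3) (h : ON f u) (x s t : ℝ) :
    ⟪x • cr f u + s • f + t • u, cr f u⟫_ℝ = x ∧ ⟪x • cr f u + s • f + t • u, u⟫_ℝ = t := by
  obtain ⟨h1, h2, h3, h4, h5, h6⟩ := fra_on' f u h
  have a1 : ⟪cr f u, cr f u⟫_ℝ = 1 := by rw [real_inner_self_eq_norm_sq, h3.nf]; norm_num
  have a2 : ⟪f, cr f u⟫_ℝ = 0 := by rw [real_inner_comm]; exact h4.or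
  have a3 : ⟪u, cr f u⟫_ℝ = 0 := by rw [real_inner_comm]; exact h3.or
  have a4 : ⟪cr f u, u⟫_ℝ = 0 := h3.or
  have a5 : ⟪f, u⟫_ℝ = 0 := h.or
  have a6 : ⟪u, u⟫_ℝ = 1 := by rw [real_inner_self_eq_norm_sq, h.nu]; norm_num
  constructor
  · simp only [inner_add_left, real_inner_smul_left, a1, a2, a3]
    ring
  · simp only [inner_add_left, real_inner_smul_left, a4, a5, a6]
    ring

theorem shmB_fin (K : Set E3) (hK : CB K) (f u : E3) (h : ON f u) (t : ℝ) :
    volume {x : ℝ | ∃ s : ℝ, x • cr f u + s • f + t • u ∈ K} ≠ ⊤ := by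
  obtain ⟨C, hC, h1, -, -⟩ := fra_bound K hK
  have h2 : {x : ℝ | ∃ s : ℝ, x • cr f u + s • f + t • u ∈ K} ⊆ Set.Icc (-C) C := by
    rintro x ⟨s, hs⟩
    have h3 := (shmB_inner f u h x s t).1
    have h4 := abs_real_inner_le_norm (x • cr f u + s • f + t • u) (cr f u)
    have h5 := (fra_on' f u h).2.2.1.nf
    rw [h3, h5, mul_one] at h4
    exact abs_le.1 (h4.trans (h1 _ hs))
  refine ne_top_of_le_ne_top ?_ (measure_mono h2)
  rw [Real.volume_Icc]
  exact ENNReal.ofReal_ne_top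

theorem shmB_on (K : Set E3) (hK : CB K) (f u : E3) (h : ON f u) :
    IntegrableOn (Wd K f u) (Set.Icc (lo K u) (hi K u)) := by
  obtain ⟨C, hC, h1, h2, -⟩ := fra_bound K hK
  obtain ⟨c1, c2, c3⟩ := ccv_wd K hK f u h
  rw [integrableOn_Icc_iff_integrableOn_Ioo]
  have h3 : ContinuousOn (Wd K f u) (Set.Ioo (lo K u) (hi K u)) := by
    have h4 : ConcaveOn ℝ (Set.Ioo (lo K u) (hi K u)) (Wd K f u) :=
      c1.subset Set.Ioo_subset_Icc_self (convex_Ioo _ _)
    exact h4.continuousOn isOpen_Ioo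
  refine Integrable.of_bound (h3.aestronglyMeasurable measurableSet_Ioo) (2 * C) ?_
  refine ae_of_all _ fun t => ?_
  rw [Real.norm_of_nonneg (c2 t)]
  exact h2 f u h t

theorem shmB_full (K : Set E3) (hK : CB K) (f u : E3) (h : ON f u) :
    Integrable (Wd K f u) ∧ ∫ t, Wd K f u t = sh K f := by
  have h1 := shmB_on K hK f u h
  have h2 : Function.support (Wd K f u) ⊆ Set.Icc (lo K u) (hi K u) := by
    intro t ht
    by_contra h3
    exact ht ((sec_comp K hK f u h t).2.2.2.1 h3).2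
  refine ⟨(integrableOn_iff_integrable_of_support_subset h2).1 h1, ?_⟩
  rw [← fub_sh K hK f u h, intervalIntegral.integral_of_le (fra_lohi K hK u h.nu).1.le,
    ← integral_Icc_eq_integral_Ioc, setIntegral_eq_integral_of_forall_compl_eq_zero]
  intro t ht
  by_contra h3
  exact ht (h2 h3)

theorem shm_pos (K : Set E3) (hK : CB K) : (∀ x, ‖x‖ = 1 → 0 < sh K x) ∧
    (∀ x, sh K (-x) = sh K x) := by
  constructor
  · intro x hx
    obtain ⟨u, hu⟩ := shmB_ex x hx
    rw [← fub_sh K hK x u hu]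
    have h1 := (fra_lohi K hK u hu.nu).1
    apply intervalIntegral.intervalIntegral_pos_of_pos_on
    · rw [intervalIntegrable_iff_integrableOn_Icc_of_le h1.le]
      exact shmB_on K hK x u hu
    · exact (ccv_wd K hK x u hu).2.2
    · exact h1
  · intro x
    unfold sh
    congr 2
    have h1 : {y : E3 | ∃ z ∈ K, ∃ s ∈ Set.Icc (0:ℝ) 1, y = z + s • -x} =
        (fun y => y + x) ⁻¹' {y : E3 | ∃ z ∈ K, ∃ s ∈ Set.Icc (0:ℝ) 1, y = z + s • x} := by
      ext y
      simp only [Set.mem_ofPred_eq, Set.mem_preimage]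
      constructor
      · rintro ⟨z, hz, s, hs, rfl⟩
        refine ⟨z, hz, 1 - s, ⟨by linarith [hs.2], by linarith [hs.1]⟩, ?_⟩
        module
      · rintro ⟨z, hz, s, hs, h2⟩
        refine ⟨z, hz, 1 - s, ⟨by linarith [hs.2], by linarith [hs.1]⟩, ?_⟩
        have h3 : y = z + s • x - x := by rw [← h2]; abel
        rw [h3]
        module
    rw [h1, measure_preimage_add_right]

theorem shm_mono (K K' : Set E3) (hK : CB K) (hK' : CB K') (h : K ⊆ K') (x : E3)
    (hx : ‖x‖ = 1) : sh K x ≤ sh K' x := by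
  obtain ⟨u, hu⟩ := shmB_ex x hx
  obtain ⟨h1, h2⟩ := shmB_full K hK x u hu
  obtain ⟨h3, h4⟩ := shmB_full K' hK' x u hu
  rw [← h2, ← h4]
  refine integral_mono h1 h3 fun t => ?_
  refine ENNReal.toReal_mono (shmB_fin K' hK' x u hu t) (measure_mono ?_)
  rintro a ⟨s, hs⟩
  exact ⟨s, h hs⟩

theorem shmB_CB (K : Set E3) (hK : CB K) (c : E3) (r : ℝ) (hr : 0 < r) :
    CB ((fun x => c + r • x) '' K) := by
  have hc : Continuous (fun x : E3 => c + r • x) := by fun_prop
  refine ⟨?_, hK.comp.image hc, ?_⟩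
  · have h1 : (fun x : E3 => c + r • x) '' K = (fun x => c + x) '' (r • K) := by
      rw [← Set.image_smul, Set.image_image]
    rw [h1]
    exact (hK.conv.smul r).translate c
  · obtain ⟨x, hx⟩ := hK.int
    refine ⟨c + r • x, ?_⟩
    let T : E3 ≃ₜ E3 := (Homeomorph.smulOfNeZero r hr.ne').trans (Homeomorph.addLeft c)
    have h1 : (fun x : E3 => c + r • x) '' K = T '' K := rfl
    rw [h1, ← T.image_interior]
    exact ⟨x, hx, rfl⟩

theorem shmB_wd (K : Set E3) (c : E3) (r : ℝ) (hr : 0 < r) (f u : E3) (h : ON f u) (t : ℝ) :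
    Wd ((fun x => c + r • x) '' K) f u t = r * Wd K f u ((t - ⟪c, u⟫_ℝ) / r) := by
  unfold Wd
  set a := ⟪c, cr f u⟫_ℝ with ha
  set b := ⟪c, f⟫_ℝ with hb
  set d := ⟪c, u⟫_ℝ with hd
  have hc : c = a • cr f u + b • f + d • u := (fra_basis f u h c).1
  have h1 : {x : ℝ | ∃ s : ℝ, x • cr f u + s • f + t • u ∈ (fun x => c + r • x) '' K} =
      (fun x => x + -a) ⁻¹' (r • {x : ℝ | ∃ s : ℝ, x • cr f u + s • f + ((t - d) / r) • u ∈ K}) := by
    ext x
    simp only [Set.mem_ofPred_eq, Set.mem_preimage, Set.mem_smul_set, Set.mem_image]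
    constructor
    · rintro ⟨s, y, hy, hxy⟩
      refine ⟨(x - a) / r, ⟨(s - b) / r, ?_⟩, ?_⟩
      · have h2 : y = ((x - a) / r) • cr f u + ((s - b) / r) • f + ((t - d) / r) • u := by
          have h3 : r • y = (x - a) • cr f u + (s - b) • f + (t - d) • u := by
            have h4 : r • y = x • cr f u + s • f + t • u - c := by rw [← hxy]; abel
            rw [h4]
            nth_rewrite 1 [hc]
            module
          have h5 : y = r⁻¹ • (r • y) := by rw [smul_smul, inv_mul_cancel₀ hr.ne', one_smul]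
          rw [h5, h3, smul_add, smul_add, smul_smul, smul_smul, smul_smul, div_eq_inv_mul,
            div_eq_inv_mul, div_eq_inv_mul]
        rw [← h2]
        exact hy
      · rw [smul_eq_mul, mul_div_cancel₀ _ hr.ne']
        ring
    · rintro ⟨x', ⟨s, hs⟩, hx⟩
      refine ⟨r * s + b, x' • cr f u + s • f + ((t - d) / r) • u, hs, ?_⟩
      have h2 : x = r * x' + a := by rw [smul_eq_mul] at hx; linarith
      have h3 : t = r * ((t - d) / r) + d := by field_simp; ring
      rw [h2]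
      nth_rewrite 1 [hc]
      nth_rewrite 2 [h3]
      module
  rw [h1, measure_preimage_add_right, Measure.addHaar_smul, ENNReal.toReal_mul,
    Module.finrank_self, pow_one, abs_of_pos hr, ENNReal.toReal_ofReal hr.le]

/-- homothetic copies -/
theorem shm_homothety (K : Set E3) (hK : CB K) (c : E3) (r : ℝ) (hr : 0 < r) (f : E3)
    (hf : ‖f‖ = 1) : sh ((fun x => c + r • x) '' K) f = r ^ 2 * sh K f := by
  obtain ⟨u, hu⟩ := shmB_ex f hf
  obtain ⟨-, h2⟩ := shmB_full K hK f u hu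
  obtain ⟨-, h4⟩ := shmB_full _ (shmB_CB K hK c r hr) f u hu
  rw [← h2, ← h4]
  simp_rw [shmB_wd K c r hr f u hu]
  rw [integral_const_mul]
  have h5 : ∫ t, Wd K f u ((t - ⟪c, u⟫_ℝ) / r) = ∫ t, Wd K f u (t / r) :=
    integral_sub_right_eq_self (fun t => Wd K f u (t / r)) ⟪c, u⟫_ℝ
  rw [h5, Measure.integral_comp_div (fun t => Wd K f u t) r, abs_of_pos hr, smul_eq_mul]
  ring

/-- rectangle around the shadow -/
theorem shm_rect (K : Set E3) (hK : CB K) (f u : E3) (h : ON f u) :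
    sh K f ≤ (hi K u - lo K u) * (hi K (cr f u) - lo K (cr f u)) := by
  rw [← fub_sh K hK f u h]
  have h1 := (fra_lohi K hK u h.nu).1
  calc ∫ t in (lo K u)..(hi K u), Wd K f u t ≤
      ∫ _t in (lo K u)..(hi K u), (hi K (cr f u) - lo K (cr f u)) := by
        apply intervalIntegral.integral_mono_on h1.le
        · rw [intervalIntegrable_iff_integrableOn_Icc_of_le h1.le]
          exact shmB_on K hK f u h
        · exact intervalIntegrable_const
        · intro t _
          exact fra_wd K hK f u h t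
    _ = _ := by rw [intervalIntegral.integral_const, smul_eq_mul]

end STB
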