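import Pool.Agent.Lib_helper15.STB.Defs
import Pool.Agent.Lib_helper15.STB.B.fraA
import Pool.Agent.Lib_helper15.STB.B.shmB

/-! # STB, block rotA : frames moved by isometries -/

open MeasureTheory Filter Topology
open scoped InnerProductSpace
open Pool.Agent.Lib_helper15.STE

namespace STB

theorem rotA_iso (g : E3 ≃ₗᵢ[ℝ] E3) : ON (g (e 1)) (g (e 2)) := by
  refine ⟨?_, ?_, ?_⟩
  · rw [LinearIsometryEquiv.norm_map]
    simp [e]
  · rw [LinearIsometryEquiv.norm_map]
    simp [e]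
  · rw [LinearIsometryEquiv.inner_map_map]
    simp [e, EuclideanSpace.inner_single_left]

theorem rotA_on {Γ : Type} [MeasurableSpace Γ] {H : Measure Γ} {γ : Γ → (E3 ≃ₗᵢ[ℝ] E3)}
    (hH : STH.Haar H γ) (g : Γ) : ON (γ g (e 1)) (γ g (e 2)) := rotA_iso (γ g)

theorem rotA_sign (g : E3 ≃ₗᵢ[ℝ] E3) : ∃ s : ℝ, (s = 1 ∨ s = -1) ∧
    cr (g (e 1)) (g (e 2)) = g (s • e 0) := by
  obtain ⟨h1, h2, h3, h4, h5, h6⟩ := fra_on' _ _ (rotA_iso g)
  set x := cr (g (e 1)) (g (e 2)) with hx
  set y := g.symm x with hy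
  have hgy : g y = x := by rw [hy]; exact g.apply_symm_apply x
  have n1 : ‖y‖ = 1 := by
    rw [hy, LinearIsometryEquiv.norm_map]
    exact h3.nf
  have o1 : ⟪y, e 2⟫_ℝ = 0 := by
    rw [← g.inner_map_map, hgy]
    exact h3.or
  have o2 : ⟪y, e 1⟫_ℝ = 0 := by
    rw [← g.inner_map_map, hgy]
    exact h4.or
  have y1 : y 1 = 0 := by
    simpa [e, EuclideanSpace.inner_single_right] using o2
  have y2 : y 2 = 0 := by
    simpa [e, EuclideanSpace.inner_single_right] using o1
  have hy0 : y 0 ^ 2 = 1 := by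
    have h7 := EuclideanSpace.norm_sq_eq y
    rw [n1, Fin.sum_univ_three, y1, y2] at h7
    simp only [Real.norm_eq_abs, sq_abs] at h7
    linarith
  refine ⟨y 0, ?_, ?_⟩
  · have h8 : (y 0 - 1) * (y 0 + 1) = 0 := by ring_nf; linarith
    rcases mul_eq_zero.1 h8 with h9 | h9
    · left; linarith
    · right; linarith
  · rw [← hgy]
    congr 1
    ext i
    fin_cases i
    · simp [e]
    · simpa [e] using y1
    · simpa [e] using y2

theorem rotA_per (G : ℝ → ℝ) (hG : Function.Periodic G Real.pi) :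
    ∫ φ in (-Real.pi)..Real.pi, G φ = 2 * ∫ φ in (0:ℝ)..Real.pi, G φ := by
  by_cases h : IntervalIntegrable G volume 0 Real.pi
  · have h2 : IntervalIntegrable G volume (-Real.pi) 0 := by
      have h3 := h.comp_add_right Real.pi
      simp only [zero_sub, sub_self] at h3
      refine h3.congr ?_
      intro x _
      exact hG x
    rw [← intervalIntegral.integral_add_adjacent_intervals h2 h]
    have h4 := hG.intervalIntegral_add_eq (-Real.pi) 0
    rw [neg_add_cancel, zero_add] at h4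
    rw [h4]
    ring
  · rw [intervalIntegral.integral_undef h, intervalIntegral.integral_undef, mul_zero]
    intro h2
    apply h
    refine h2.mono_set ?_
    rw [Set.uIcc_of_le Real.pi_pos.le, Set.uIcc_of_le (by linarith [Real.pi_pos])]
    exact Set.Icc_subset_Icc (by linarith [Real.pi_pos]) le_rfl

theorem rotA_shift (G : ℝ → ℝ) (hG : Function.Periodic G Real.pi) :
    (∫ φ in (0:ℝ)..Real.pi, G (φ + Real.pi / 2) = ∫ φ in (0:ℝ)..Real.pi, G φ) ∧
    (∫ φ in (0:ℝ)..Real.pi, G (Real.pi / 2 - φ) = ∫ φ in (0:ℝ)..Real.pi, G φ) := by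
  constructor
  · rw [intervalIntegral.integral_comp_add_right (fun x => G x)]
    have h4 := hG.intervalIntegral_add_eq (Real.pi / 2) 0
    have e1 : Real.pi / 2 + Real.pi = Real.pi + Real.pi / 2 := by ring
    rw [e1, zero_add] at h4
    rw [zero_add, h4]
  · rw [intervalIntegral.integral_comp_sub_left (fun x => G x)]
    have h4 := hG.intervalIntegral_add_eq (Real.pi / 2 - Real.pi) 0
    have e1 : Real.pi / 2 - Real.pi + Real.pi = Real.pi / 2 - 0 := by ring
    rw [e1, zero_add] at h4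
    rw [h4]

theorem rotA_La' (K : Set E3) (hK : CB K) (g : E3 ≃ₗᵢ[ℝ] E3) :
    La K (g (e 1)) (g (e 2)) = Real.pi * cm (sh K ∘ g) 0 := by
  obtain ⟨s, hs, hcr⟩ := rotA_sign g
  have heven : ∀ x, sh K (-x) = sh K x := (shm_pos K hK).2
  set G : ℝ → ℝ := fun φ => sh K (g (pt 0 φ)) with hGdef
  have hG : Function.Periodic G Real.pi := by
    intro φ
    have h1 : pt 0 (φ + Real.pi) = - pt 0 φ := by
      ext i
      fin_cases i <;> simp [pt, Real.cos_add_pi, Real.sin_add_pi]
    simp only [hGdef]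
    rw [h1, map_neg, heven]
  have hcm : Real.pi * cm (sh K ∘ g) 0 = ∫ φ in (0:ℝ)..Real.pi, G φ := by
    have h1 : cm (sh K ∘ g) 0 = (2 * Real.pi)⁻¹ * ∫ φ in (-Real.pi)..Real.pi, G φ := rfl
    rw [h1, rotA_per G hG]
    have := Real.pi_pos.ne'
    field_simp
  rw [hcm]
  unfold La
  obtain ⟨s1, s2⟩ := rotA_shift G hG
  rcases hs with hs | hs
  · rw [← s1]
    congr 1
    funext φ
    simp only [hGdef]
    congr 1
    unfold tw
    rw [hcr, ← map_smul, ← map_smul, ← map_sub]
    congr 1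
    rw [hs]
    ext i
    fin_cases i <;> simp [pt, e, Real.cos_add_pi_div_two, Real.sin_add_pi_div_two]
  · rw [← s2]
    congr 1
    funext φ
    simp only [hGdef]
    congr 1
    unfold tw
    rw [hcr, ← map_smul, ← map_smul, ← map_sub]
    congr 1
    rw [hs]
    ext i
    fin_cases i <;> simp [pt, e, Real.cos_pi_div_two_sub, Real.sin_pi_div_two_sub]

theorem rotA_La {Γ : Type} [MeasurableSpace Γ] {H : Measure Γ} {γ : Γ → (E3 ≃ₗᵢ[ℝ] E3)}
    (hH : STH.Haar H γ) (K : Set E3) (hK : CB K) (g : Γ) :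
    La K (γ g (e 1)) (γ g (e 2)) = Real.pi * cm (sh K ∘ γ g) 0 := rotA_La' K hK (γ g)

end STB
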