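import Pool.Agent.Lib_helper15.STB.Defs
import Pool.Agent.Lib_helper15.STB.B.fraA
import Pool.Agent.Lib_helper59.STHF.haaB

open MeasureTheory Filter Topology
open scoped InnerProductSpace
open Pool.Agent.Lib_helper15.STE

namespace STB

theorem rotB_e_inner (i j : Fin 3) : ⟪(e i : E3), (e j : E3)⟫_ℝ = if i = j then 1 else 0 := by
  have h := (EuclideanSpace.basisFun (Fin 3) ℝ).orthonormal
  rw [orthonormal_iff_ite] at h
  have := h i j
  simpa [EuclideanSpace.basisFun_apply, e] using this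

theorem rotB_e_norm (i : Fin 3) : ‖(e i : E3)‖ = 1 := by
  simp [e]

theorem rotB_on (G : E3 ≃ₗᵢ[ℝ] E3) : ON (G (e 1)) (G (e 2)) where
  nf := by rw [LinearIsometryEquiv.norm_map, rotB_e_norm]
  nu := by rw [LinearIsometryEquiv.norm_map, rotB_e_norm]
  or := by
    rw [LinearIsometryEquiv.inner_map_map, rotB_e_inner]
    simp

theorem rotB_cr (G : E3 ≃ₗᵢ[ℝ] E3) :
    cr (G (e 1)) (G (e 2)) = G (e 0) ∨ cr (G (e 1)) (G (e 2)) = - G (e 0) := by
  obtain ⟨h1, h2⟩ := fra_basis _ _ (rotB_on G) (G (e 0))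
  have i1 : ⟪G (e 0), G (e 1)⟫_ℝ = 0 := by
    rw [LinearIsometryEquiv.inner_map_map, rotB_e_inner]; simp
  have i2 : ⟪G (e 0), G (e 2)⟫_ℝ = 0 := by
    rw [LinearIsometryEquiv.inner_map_map, rotB_e_inner]; simp
  rw [i1, i2, LinearIsometryEquiv.norm_map, rotB_e_norm] at h2
  rw [i1, i2, zero_smul, zero_smul, add_zero, add_zero] at h1
  obtain ⟨α, hα⟩ : ∃ α, α = ⟪G (e 0), cr (G (e 1)) (G (e 2))⟫_ℝ := ⟨_, rfl⟩
  rw [← hα] at h1 h2
  have h3 : (α - 1) * (α + 1) = 0 := by nlinarith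
  rcases mul_eq_zero.1 h3 with h | h
  · left
    have : α = 1 := by linarith
    rw [this, one_smul] at h1
    exact h1.symm
  · right
    have : α = -1 := by linarith
    rw [this, neg_smul, one_smul] at h1
    rw [h1, neg_neg]

theorem rotB_anti (x y : E3) : cr y x = - cr x y := by
  ext i
  fin_cases i
  · show y 1 * x 2 - y 2 * x 1 = -(x 1 * y 2 - x 2 * y 1); ring
  · show y 2 * x 0 - y 0 * x 2 = -(x 2 * y 0 - x 0 * y 2); ring
  · show y 0 * x 1 - y 1 * x 0 = -(x 0 * y 1 - x 1 * y 0); ring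

theorem rotB_ext {Γ : Type} [MeasurableSpace Γ] (hne : Nonempty Γ) (Φ : E3 → E3 → ℝ)
    (hm : ∀ F U : Γ × ℝ → E3, Measurable F → Measurable U → (∀ z, ON (F z) (U z)) →
      Measurable (fun z => Φ (F z) (U z))) :
    ∃ Ψ : E3 × E3 → ℝ, Measurable Ψ ∧ ∀ f u, ON f u → Φ f u = Ψ (f, u) := by
  obtain ⟨V, hV⟩ : ∃ V : Set (E3 × E3), V = {p | ‖p.1‖ = 1 ∧ ‖p.2‖ = 1 ∧ ⟪p.1, p.2⟫_ℝ = 0} :=
    ⟨_, rfl⟩
  have hVm : MeasurableSet V := by
    rw [hV]
    have m1 : Measurable (fun p : E3 × E3 => ‖p.1‖) := by fun_prop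
    have m2 : Measurable (fun p : E3 × E3 => ‖p.2‖) := by fun_prop
    have m3 : Measurable (fun p : E3 × E3 => ⟪p.1, p.2⟫_ℝ) := by fun_prop
    exact (measurableSet_eq_fun m1 measurable_const).inter
      ((measurableSet_eq_fun m2 measurable_const).inter (measurableSet_eq_fun m3 measurable_const))
  have hON : ∀ v : V, ON v.1.1 v.1.2 := by
    rintro ⟨v, hv⟩
    rw [hV] at hv
    exact ⟨hv.1, hv.2.1, hv.2.2⟩
  have hVON : ∀ f u, ON f u → (f, u) ∈ V := by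
    intro f u h
    rw [hV]
    exact ⟨h.nf, h.nu, h.or⟩
  have hsb : StandardBorelSpace V := hVm.standardBorel
  have hVne : Nonempty V := ⟨⟨_, hVON _ _ (rotB_on (LinearIsometryEquiv.refl ℝ E3))⟩⟩
  obtain ⟨r, hr, hrj⟩ := (measurableEmbedding_embeddingReal V).exists_measurable_extend
    (measurable_id (α := V)) (fun _ => hVne)
  obtain ⟨g0⟩ := hne
  have h1 : Measurable (fun z : Γ × ℝ => Φ (r z.2).1.1 (r z.2).1.2) := by
    have hr2 : Measurable (fun z : Γ × ℝ => (r z.2).1) :=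
      measurable_subtype_coe.comp (hr.comp measurable_snd)
    exact hm _ _ (measurable_fst.comp hr2) (measurable_snd.comp hr2) (fun z => hON _)
  have h2 : Measurable (fun s : ℝ => Φ (r s).1.1 (r s).1.2) :=
    h1.comp (measurable_prodMk_left (x := g0))
  have h3 : Measurable (fun v : V => Φ v.1.1 v.1.2) := by
    have h4 := h2.comp (measurableEmbedding_embeddingReal V).measurable
    have h5 : (fun v : V => Φ v.1.1 v.1.2) =
        (fun s : ℝ => Φ (r s).1.1 (r s).1.2) ∘ embeddingReal V := by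
      funext v
      have h6 : r (embeddingReal V v) = v := congrFun hrj v
      show _ = Φ (r (embeddingReal V v)).1.1 (r (embeddingReal V v)).1.2
      rw [h6]
    rw [h5]; exact h4
  obtain ⟨Ψ, hΨ, hΨV⟩ := (MeasurableEmbedding.subtype_coe hVm).exists_measurable_extend h3
    (fun _ => ⟨0⟩)
  refine ⟨Ψ, hΨ, fun f u h => ?_⟩
  have := congrFun hΨV ⟨(f, u), hVON f u h⟩
  exact this.symm

theorem rotB_half {Γ : Type} [MeasurableSpace Γ] {H : Measure Γ} {γ : Γ → (E3 ≃ₗᵢ[ℝ] E3)}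
    (hH : STH.Haar H γ) (Ψ : E3 × E3 → ℝ) (hΨ : Measurable Ψ) (C : ℝ)
    (hC : ∀ f u, ON f u → |Ψ (f, u)| ≤ C) (p q : ℝ → E3) (hp : Measurable p) (hq : Measurable q)
    (hk : ∀ φ, ∃ k : E3 ≃ₗᵢ[ℝ] E3, k (e 1) = p φ ∧ k (e 2) = q φ) :
    Integrable (fun g => ∫ φ in (0:ℝ)..Real.pi, Ψ (γ g (p φ), γ g (q φ))) H ∧
    ∫ g, (∫ φ in (0:ℝ)..Real.pi, Ψ (γ g (p φ), γ g (q φ))) ∂H =
      Real.pi * ∫ g, Ψ (γ g (e 1), γ g (e 2)) ∂H := by
  have := hH.prob
  have hpi := Real.pi_pos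
  obtain ⟨ν, hν⟩ : ∃ ν : Measure ℝ, ν = volume.restrict (Set.Ioc 0 Real.pi) := ⟨_, rfl⟩
  have hνf : IsFiniteMeasure ν := by rw [hν]; infer_instance
  have hmj : Measurable (fun z : Γ × ℝ => Ψ (γ z.1 (p z.2), γ z.1 (q z.2))) := by
    refine hΨ.comp (Measurable.prodMk ?_ ?_)
    · exact hH.meas.comp (measurable_fst.prodMk (hp.comp measurable_snd))
    · exact hH.meas.comp (measurable_fst.prodMk (hq.comp measurable_snd))
  have hON : ∀ g φ, ON (γ g (p φ)) (γ g (q φ)) := by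
    intro g φ
    obtain ⟨k, k1, k2⟩ := hk φ
    rw [← k1, ← k2]
    exact rotB_on (k.trans (γ g))
  have hint : Integrable (fun z : Γ × ℝ => Ψ (γ z.1 (p z.2), γ z.1 (q z.2))) (H.prod ν) := by
    refine Integrable.of_bound hmj.aestronglyMeasurable C ?_
    exact Filter.Eventually.of_forall fun z => hC _ _ (hON z.1 z.2)
  have hconv : ∀ g, ∫ φ in (0:ℝ)..Real.pi, Ψ (γ g (p φ), γ g (q φ)) =
      ∫ φ, Ψ (γ g (p φ), γ g (q φ)) ∂ν := by
    intro g
    rw [intervalIntegral.integral_of_le hpi.le, hν]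
  simp only [hconv]
  refine ⟨hint.integral_prod_left, ?_⟩
  rw [integral_integral_swap (f := fun g φ => Ψ (γ g (p φ), γ g (q φ))) hint]
  have hinner : ∀ φ, ∫ g, Ψ (γ g (p φ), γ g (q φ)) ∂H = ∫ g, Ψ (γ g (e 1), γ g (e 2)) ∂H := by
    intro φ
    obtain ⟨k, k1, k2⟩ := hk φ
    have h1 := hH.inv k (e 1) (e 2)
    have h2 : ∫ g, Ψ (γ g (e 1), γ g (e 2)) ∂H =
        ∫ w, Ψ w ∂(H.map (fun g => (γ g (e 1), γ g (e 2)))) := by
      rw [integral_map (STH.haaB_meas2 hH _ _).aemeasurable hΨ.aestronglyMeasurable]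
    rw [h2, h1, integral_map (STH.haaB_meas2 hH _ _).aemeasurable hΨ.aestronglyMeasurable, k1, k2]
  simp only [hinner]
  rw [integral_const, smul_eq_mul, hν]
  congr 1
  simp [hpi.le]

theorem rotB_k1 (φ : ℝ) : ∃ k : E3 ≃ₗᵢ[ℝ] E3,
    k (e 1) = Real.cos φ • e 1 - Real.sin φ • e 0 ∧ k (e 2) = e 2 := by
  have hn : ‖(e 1 : E3)‖ = ‖(Real.cos φ • e 1 - Real.sin φ • e 0 : E3)‖ := by
    have h1 : ‖(Real.cos φ • e 1 - Real.sin φ • e 0 : E3)‖ ^ 2 = 1 := by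
      rw [← real_inner_self_eq_norm_sq]
      simp only [inner_sub_left, inner_sub_right, inner_smul_left, inner_smul_right,
        rotB_e_inner]
      have := Real.sin_sq_add_cos_sq φ
      simp
      nlinarith
    rw [rotB_e_norm]
    have h2 := norm_nonneg (Real.cos φ • e 1 - Real.sin φ • e 0 : E3)
    nlinarith
  obtain ⟨k, k1, k2⟩ := STH.haaB_refl _ _ hn
  refine ⟨k, k1, k2 _ ?_⟩
  simp only [inner_sub_left, inner_smul_left, rotB_e_inner]
  simp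

theorem rotB_k2 (φ : ℝ) : ∃ k : E3 ≃ₗᵢ[ℝ] E3,
    k (e 1) = e 1 ∧ k (e 2) = Real.cos φ • e 2 - Real.sin φ • e 0 := by
  have hn : ‖(e 2 : E3)‖ = ‖(Real.cos φ • e 2 - Real.sin φ • e 0 : E3)‖ := by
    have h1 : ‖(Real.cos φ • e 2 - Real.sin φ • e 0 : E3)‖ ^ 2 = 1 := by
      rw [← real_inner_self_eq_norm_sq]
      simp only [inner_sub_left, inner_sub_right, inner_smul_left, inner_smul_right,
        rotB_e_inner]
      have := Real.sin_sq_add_cos_sq φ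
      simp
      nlinarith
    rw [rotB_e_norm]
    have h2 := norm_nonneg (Real.cos φ • e 2 - Real.sin φ • e 0 : E3)
    nlinarith
  obtain ⟨k, k1, k2⟩ := STH.haaB_refl _ _ hn
  refine ⟨k, k2 _ ?_, k1⟩
  simp only [inner_sub_left, inner_smul_left, rotB_e_inner]
  simp

theorem rotB_meas (i : Fin 3) :
    Measurable (fun φ : ℝ => (Real.cos φ • e i - Real.sin φ • e 0 : E3)) := by
  have : Continuous (fun φ : ℝ => (Real.cos φ • e i - Real.sin φ • e 0 : E3)) := by fun_prop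
  exact this.measurable

/-- reflection of the interval -/
theorem rotB_flip (h k : ℝ → ℝ) (hk : ∀ φ, h (Real.pi - φ) = k φ) :
    ∫ φ in (0:ℝ)..Real.pi, h φ = ∫ φ in (0:ℝ)..Real.pi, k φ := by
  have h1 := intervalIntegral.integral_comp_sub_left (a := 0) (b := Real.pi) h Real.pi
  rw [sub_self, sub_zero] at h1
  rw [← h1]
  simp only [hk]

theorem rotB_main {Γ : Type} [MeasurableSpace Γ] {H : Measure Γ} {γ : Γ → (E3 ≃ₗᵢ[ℝ] E3)}
    (hH : STH.Haar H γ) (Φ : E3 → E3 → ℝ)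
    (hm : ∀ F U : Γ × ℝ → E3, Measurable F → Measurable U → (∀ z, ON (F z) (U z)) →
      Measurable (fun z => Φ (F z) (U z)))
    (C : ℝ) (hC : ∀ f u, ON f u → |Φ f u| ≤ C) (h1 : ∀ f u, ON f u → Φ (-f) u = Φ f u)
    (h2 : ∀ f u, ON f u → Φ f (-u) = Φ f u) :
    Integrable (fun g => ∫ φ in (0:ℝ)..Real.pi,
      Φ (tw (γ g (e 1)) (γ g (e 2)) φ) (γ g (e 2))) H ∧
    Integrable (fun g => ∫ θ in (0:ℝ)..Real.pi,
      Φ (γ g (e 1)) (tw (γ g (e 2)) (γ g (e 1)) θ)) H ∧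
    ∫ g, (∫ φ in (0:ℝ)..Real.pi, Φ (tw (γ g (e 1)) (γ g (e 2)) φ) (γ g (e 2))) ∂H =
      ∫ g, (∫ θ in (0:ℝ)..Real.pi, Φ (γ g (e 1)) (tw (γ g (e 2)) (γ g (e 1)) θ)) ∂H := by
  have hprob := hH.prob
  have hne : Nonempty Γ := by
    by_contra hcon
    rw [not_nonempty_iff] at hcon
    have h := measure_univ (μ := H)
    rw [Set.univ_eq_empty_iff.2 hcon, measure_empty] at h
    exact zero_ne_one h
  obtain ⟨Ψ, hΨ, hΦΨ⟩ := rotB_ext hne Φ hm
  have hCΨ : ∀ f u, ON f u → |Ψ (f, u)| ≤ C := by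
    intro f u h
    rw [← hΦΨ f u h]; exact hC f u h
  have hA : ∀ g, ∫ φ in (0:ℝ)..Real.pi, Φ (tw (γ g (e 1)) (γ g (e 2)) φ) (γ g (e 2)) =
      ∫ φ in (0:ℝ)..Real.pi, Ψ (γ g (Real.cos φ • e 1 - Real.sin φ • e 0), γ g (e 2)) := by
    intro g
    have hon : ∀ φ, ON (γ g (Real.cos φ • e 1 - Real.sin φ • e 0)) (γ g (e 2)) := by
      intro φ
      obtain ⟨k, k1, k2⟩ := rotB_k1 φ
      rw [← k1]
      conv_rhs => rw [← k2]
      exact rotB_on (k.trans (γ g))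
    rcases rotB_cr (γ g) with hc | hc
    · congr 1
      funext φ
      rw [← hΦΨ _ _ (hon φ), tw, hc, map_sub, map_smul, map_smul]
    · refine rotB_flip _ _ ?_
      intro φ
      rw [← hΦΨ _ _ (hon φ), ← h1 _ _ (hon φ), tw, hc, Real.cos_pi_sub, Real.sin_pi_sub]
      congr 1
      rw [map_sub, map_smul, map_smul]
      module
  have hB : ∀ g, ∫ θ in (0:ℝ)..Real.pi, Φ (γ g (e 1)) (tw (γ g (e 2)) (γ g (e 1)) θ) =
      ∫ φ in (0:ℝ)..Real.pi, Ψ (γ g (e 1), γ g (Real.cos φ • e 2 - Real.sin φ • e 0)) := by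
    intro g
    have hon : ∀ φ, ON (γ g (e 1)) (γ g (Real.cos φ • e 2 - Real.sin φ • e 0)) := by
      intro φ
      obtain ⟨k, k1, k2⟩ := rotB_k2 φ
      rw [← k2]
      conv_lhs => rw [← k1]
      exact rotB_on (k.trans (γ g))
    rcases rotB_cr (γ g) with hc | hc
    · refine rotB_flip _ _ ?_
      intro φ
      rw [← hΦΨ _ _ (hon φ), ← h2 _ _ (hon φ), tw, rotB_anti (γ g (e 1)) (γ g (e 2)), hc,
        Real.cos_pi_sub, Real.sin_pi_sub]
      congr 1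
      rw [map_sub, map_smul, map_smul]
      module
    · congr 1
      funext φ
      rw [← hΦΨ _ _ (hon φ), tw, rotB_anti (γ g (e 1)) (γ g (e 2)), hc, map_sub, map_smul,
        map_smul, neg_neg]
  simp only [hA, hB]
  obtain ⟨a1, a2⟩ := rotB_half hH Ψ hΨ C hCΨ (fun φ => Real.cos φ • e 1 - Real.sin φ • e 0)
    (fun _ => e 2) (rotB_meas 1) measurable_const rotB_k1
  obtain ⟨b1, b2⟩ := rotB_half hH Ψ hΨ C hCΨ (fun _ => e 1)
    (fun φ => Real.cos φ • e 2 - Real.sin φ • e 0) measurable_const (rotB_meas 2) rotB_k2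
  exact ⟨a1, b1, a2.trans b2.symm⟩

end STB
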