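import Pool.Agent.Lib_helper15.STB.Defs

/-! # STB, block shmA : the shadow function is continuous -/

open MeasureTheory Filter Topology
open scoped InnerProductSpace Pointwise
open Pool.Agent.Lib_helper15.STE

namespace STB

/-- the body swept by a translation -/
def shmA_M (K : Set E3) (f : E3) : Set E3 := {y : E3 | ∃ x ∈ K, ∃ s ∈ Set.Icc (0:ℝ) 1, y = x + s • f}

theorem shmA_sub (K : Set E3) (f : E3) : K ⊆ shmA_M K f := fun x hx =>
  ⟨x, hx, 0, ⟨le_rfl, zero_le_one⟩, by simp⟩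

theorem shmA_conv {K : Set E3} (hK : CB K) (f : E3) : Convex ℝ (shmA_M K f) := by
  rintro _ ⟨x, hx, s, hs, rfl⟩ _ ⟨y, hy, t, ht, rfl⟩ a b ha hb hab
  refine ⟨a • x + b • y, hK.conv hx hy ha hb hab, a * s + b * t, ⟨?_, ?_⟩, ?_⟩
  · have := mul_nonneg ha hs.1
    have := mul_nonneg hb ht.1
    linarith
  · have := mul_le_mul_of_nonneg_left hs.2 ha
    have := mul_le_mul_of_nonneg_left ht.2 hb
    linarith
  · module

theorem shmA_fin {K : Set E3} (hK : CB K) (f : E3) : volume (shmA_M K f) < ⊤ := by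
  have h1 : shmA_M K f ⊆ K + (fun s : ℝ => s • f) '' Set.Icc (0:ℝ) 1 := by
    rintro _ ⟨x, hx, s, hs, rfl⟩
    exact Set.add_mem_add hx ⟨s, hs, rfl⟩
  have h2 : IsCompact ((fun s : ℝ => s • f) '' Set.Icc (0:ℝ) 1) :=
    isCompact_Icc.image (by fun_prop)
  exact lt_of_le_of_lt (measure_mono h1) (hK.comp.add h2).measure_lt_top

theorem shmA_step {K : Set E3} (hK : CB K) {c : E3} {r : ℝ} (hr : 0 < r)
    (hball : Metric.closedBall c r ⊆ K) (f g : E3) :
    shmA_M K g ⊆ AffineMap.homothety c (1 + ‖g - f‖ / r) '' shmA_M K f := by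
  rintro _ ⟨x, hx, s, hs, rfl⟩
  by_cases h0 : ‖g - f‖ = 0
  · have hgf : g = f := by rwa [norm_sub_eq_zero_iff] at h0
    subst hgf
    refine ⟨x + s • g, ⟨x, hx, s, hs, rfl⟩, ?_⟩
    rw [AffineMap.homothety_apply, h0]
    simp
  · have hε : 0 < ‖g - f‖ := lt_of_le_of_ne (norm_nonneg _) (Ne.symm h0)
    set l : ℝ := ‖g - f‖ / r with hl
    have hlpos : 0 < l := div_pos hε hr
    have hl1 : (1 + l) ≠ 0 := by positivity
    have hw : c + (l⁻¹ * s) • (g - f) ∈ shmA_M K f := by
      apply shmA_sub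
      apply hball
      rw [Metric.mem_closedBall, dist_eq_norm, add_sub_cancel_left, norm_smul, norm_mul, norm_inv,
        Real.norm_of_nonneg hlpos.le, Real.norm_of_nonneg hs.1, hl, inv_div]
      have h2 : r / ‖g - f‖ * s * ‖g - f‖ = r * s := by field_simp
      rw [h2]
      nlinarith [hs.2]
    have hy : x + s • f ∈ shmA_M K f := ⟨x, hx, s, hs, rfl⟩
    refine ⟨(1 / (1 + l)) • (x + s • f) + (l / (1 + l)) • (c + (l⁻¹ * s) • (g - f)),
      shmA_conv hK f hy hw (by positivity) (by positivity) (by field_simp), ?_⟩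
    rw [AffineMap.homothety_apply, vsub_eq_sub, vadd_eq_add]
    have e1 : (1 + l) * (1 / (1 + l)) = 1 := by field_simp
    have e2 : (1 + l) * (l / (1 + l)) = l := by field_simp
    have e3 : l * (l⁻¹ * s) = s := by field_simp
    have e4 : l • ((l⁻¹ * s) • (g - f)) = s • (g - f) := by rw [smul_smul, e3]
    calc (1 + l) • ((1 / (1 + l)) • (x + s • f) + (l / (1 + l)) • (c + (l⁻¹ * s) • (g - f)) - c)
          + c = ((1 + l) * (1 / (1 + l))) • (x + s • f) + ((1 + l) * (l / (1 + l))) • c +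
            ((1 + l) * (l / (1 + l))) • ((l⁻¹ * s) • (g - f)) - (1 + l) • c + c := by module
      _ = x + s • g := by
        rw [e1, e2, e4]
        module

theorem shmA_le {K : Set E3} (hK : CB K) {c : E3} {r : ℝ} (hr : 0 < r)
    (hball : Metric.closedBall c r ⊆ K) (f g : E3) :
    (volume (shmA_M K g)).toReal ≤ (1 + ‖g - f‖ / r) ^ 3 * (volume (shmA_M K f)).toReal := by
  have h1 := measure_mono (μ := volume) (shmA_step hK hr hball f g)
  rw [Measure.addHaar_image_homothety] at h1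
  have hfr : Module.finrank ℝ E3 = 3 := finrank_euclideanSpace_fin
  rw [hfr] at h1
  have hpos : 0 ≤ (1 + ‖g - f‖ / r) ^ 3 := by positivity
  rw [abs_of_nonneg hpos] at h1
  have h2 := ENNReal.toReal_mono (ENNReal.mul_ne_top ENNReal.ofReal_ne_top
    (shmA_fin hK f).ne) h1
  rwa [ENNReal.toReal_mul, ENNReal.toReal_ofReal hpos] at h2

theorem shmA_vol_cont {K : Set E3} (hK : CB K) :
    Continuous fun f => (volume (shmA_M K f)).toReal := by
  obtain ⟨c, hc⟩ := hK.int
  obtain ⟨r, hr, hball⟩ := Metric.nhds_basis_closedBall.mem_iff.1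
    (mem_interior_iff_mem_nhds.1 hc)
  rw [continuous_iff_continuousAt]
  intro f
  have hu : Tendsto (fun g : E3 => (1 + ‖g - f‖ / r) ^ 3 * (volume (shmA_M K f)).toReal) (𝓝 f)
      (𝓝 ((volume (shmA_M K f)).toReal)) := by
    have : Continuous (fun g : E3 => (1 + ‖g - f‖ / r) ^ 3 * (volume (shmA_M K f)).toReal) := by
      fun_prop
    have h := this.tendsto f
    simpa using h
  have hl : Tendsto (fun g : E3 => ((1 + ‖g - f‖ / r) ^ 3)⁻¹ * (volume (shmA_M K f)).toReal) (𝓝 f)
      (𝓝 ((volume (shmA_M K f)).toReal)) := by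
    have : Continuous (fun g : E3 => ((1 + ‖g - f‖ / r) ^ 3)⁻¹ *
        (volume (shmA_M K f)).toReal) := by
      refine Continuous.mul (Continuous.inv₀ (by fun_prop) ?_) continuous_const
      intro g
      positivity
    have h := this.tendsto f
    simpa using h
  refine tendsto_of_tendsto_of_tendsto_of_le_of_le hl hu (fun g => ?_) fun g => ?_
  · have h1 := shmA_le hK hr hball g f
    rw [norm_sub_rev] at h1
    have hpos : 0 < (1 + ‖g - f‖ / r) ^ 3 := by positivity
    show ((1 + ‖g - f‖ / r) ^ 3)⁻¹ * (volume (shmA_M K f)).toReal ≤ _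
    rw [inv_mul_le_iff₀ hpos]
    exact h1
  · exact shmA_le hK hr hball f g

theorem shm_cont (K : Set E3) (hK : CB K) : Continuous (sh K) ∧
    (∃ C : ℝ, ∀ x, ‖x‖ = 1 → |sh K x| ≤ C) := by
  have h1 : Continuous (sh K) := (shmA_vol_cont hK).sub continuous_const
  refine ⟨h1, ?_⟩
  obtain ⟨C, hC⟩ := (isCompact_sphere (0 : E3) 1).exists_bound_of_continuousOn
    (f := sh K) h1.continuousOn
  refine ⟨C, fun x hx => ?_⟩
  have := hC x (by simpa using hx)
  rwa [Real.norm_eq_abs] at this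

end STB
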