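import Pool.Agent.Lib_helper15.STB.Defs
import Pool.Agent.Lib_helper15.STB.B.fraA
import Pool.Agent.Lib_helper15.STB.B.fraC
import Pool.Agent.Lib_helper15.STB.B.ccvA
import Pool.Agent.Lib_helper15.STB.B.ccvB
import Pool.Agent.Lib_helper15.STB.B.shmA
import Pool.Agent.Lib_helper15.STB.B.rotA
import Pool.Agent.Lib_helper15.STB.B.rotB
import Pool.Agent.Lib_helper15.STB.B.cro
import Pool.Agent.Lib_helper59.STHF.haaB

/-! # STB, block avh : average of the third moments -/

open MeasureTheory Filter Topology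
open scoped InnerProductSpace
open Pool.Agent.Lib_helper15.STE

namespace STB

theorem avh_zero (K : Set E3) (hK : CB K) (f u : E3) (h : ON f u) (t : ℝ)
    (ht : ¬ (lo K u ≤ t ∧ t ≤ hi K u)) : Wd K f u t = 0 := by
  unfold Wd
  have h1 : {x : ℝ | ∃ s : ℝ, x • cr f u + s • f + t • u ∈ K} = ∅ := by
    rw [Set.eq_empty_iff_forall_notMem]
    rintro x ⟨s, hs⟩
    apply ht
    have h2 := (fra_lohi K hK u h.nu).2.1 _ hs
    obtain ⟨_, _, h3, _⟩ := fra_on' f u h
    have e1 : ⟪u, u⟫_ℝ = 1 := by rw [real_inner_self_eq_norm_sq, h.nu]; norm_num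
    have e2 : ⟪x • cr f u + s • f + t • u, u⟫_ℝ = t := by
      rw [inner_add_left, inner_add_left, real_inner_smul_left, real_inner_smul_left,
        real_inner_smul_left, h3.or, h.or, e1]
      ring
    rw [e2] at h2
    exact h2
  rw [h1]
  simp

theorem avh_bound (K : Set E3) (hK : CB K) : ∃ C : ℝ, ∀ f u, ON f u → |th K f u| ≤ C := by
  obtain ⟨C, hC, h1, h2, h3⟩ := fra_bound K hK
  refine ⟨(2 * C) ^ 3 * (volume (Set.Icc (-C) C)).toReal, fun f u h => ?_⟩
  unfold th
  have h4 : ∫ t, Wd K f u t ^ 3 = ∫ t in Set.Icc (-C) C, Wd K f u t ^ 3 := by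
    rw [setIntegral_eq_integral_of_forall_compl_eq_zero]
    intro t ht
    have h5 : ¬ (lo K u ≤ t ∧ t ≤ hi K u) := by
      intro h6
      apply ht
      have h7 := h3 u h.nu
      exact ⟨h7.1.trans h6.1, h6.2.trans h7.2⟩
    rw [avh_zero K hK f u h t h5]
    norm_num
  rw [h4, ← Real.norm_eq_abs]
  refine norm_setIntegral_le_of_norm_le_const (by simp) (fun t _ => ?_)
  have h8 : 0 ≤ Wd K f u t := ENNReal.toReal_nonneg
  rw [Real.norm_eq_abs, abs_of_nonneg (by positivity)]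
  exact pow_le_pow_left₀ h8 (h2 f u h t) 3

theorem avh_meas (K : Set E3) (hK : CB K) {Ω : Type} [MeasurableSpace Ω] (F U : Ω → E3)
    (hF : Measurable F) (hU : Measurable U) (h : ∀ z, ON (F z) (U z)) :
    Measurable (fun z => th K (F z) (U z)) := by
  have h1 : Measurable (fun w : Ω × ℝ => Wd K (F w.1) (U w.1) w.2 ^ 3) :=
    (ccv_meas K hK (fun w : Ω × ℝ => F w.1) (fun w => U w.1) (fun w => w.2)
      (hF.comp measurable_fst) (hU.comp measurable_fst) measurable_snd
      (fun w => h w.1)).pow_const 3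
  have h2 := h1.stronglyMeasurable.integral_prod_right' (ν := (volume : Measure ℝ))
  exact h2.measurable

theorem avh_main {Γ : Type} [MeasurableSpace Γ] {H : Measure Γ} {γ : Γ → (E3 ≃ₗᵢ[ℝ] E3)}
    (hH : STH.Haar H γ) (K : Set E3) (hK : CB K) :
    Integrable (fun g => ∫ φ in (0:ℝ)..Real.pi,
      th K (tw (γ g (e 1)) (γ g (e 2)) φ) (γ g (e 2))) H ∧
    ∫ g, (∫ φ in (0:ℝ)..Real.pi, th K (tw (γ g (e 1)) (γ g (e 2)) φ) (γ g (e 2))) ∂H =
      3 * ∫ x, sh K x ^ 2 ∂sig := by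
  obtain ⟨C, hC⟩ := avh_bound K hK
  obtain ⟨i1, _, i3⟩ := rotB_main hH (th K)
    (fun F U hF hU h => avh_meas K hK F U hF hU h) C hC
    (fun f u _ => by
      unfold th
      congr 1
      funext t
      rw [(ccv_sym K f u t).1])
    (fun f u _ => by
      unfold th
      have h1 : (fun t => Wd K f (-u) t ^ 3) = fun t => (fun t => Wd K f u t ^ 3) (-t) := by
        funext t
        rw [(ccv_sym K f u t).2]
      rw [h1]
      exact integral_neg_eq_self (fun t => Wd K f u t ^ 3) volume)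
  refine ⟨i1, ?_⟩
  rw [i3]
  have h2 : ∀ g, ∫ θ in (0:ℝ)..Real.pi, th K (γ g (e 1)) (tw (γ g (e 2)) (γ g (e 1)) θ) =
      3 * sh K (γ g (e 1)) ^ 2 := fun g =>
    cro_main K hK (γ g (e 1)) (γ g (e 2)) (rotA_on hH g)
  simp_rw [h2]
  rw [integral_const_mul]
  congr 1
  have h3 : ‖e 1‖ = 1 := by simp [e]
  have h4 := STH.avg_point hH (e 1) h3
  have h5 : Continuous (sh K) := (shm_cont K hK).1
  have h6 : AEStronglyMeasurable (fun x => sh K x ^ 2) (H.map (fun g => γ g (e 1))) :=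
    (h5.pow 2).aestronglyMeasurable
  rw [← h4, integral_map (STH.haaB_meas hH (e 1)).aemeasurable h6]

end STB
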