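import Pool.Agent.Lib_helper15.STB.Defs
import Pool.Agent.Lib_helper15.STB.B.fraA
import Pool.Agent.Lib_helper15.STB.B.fraC
import Pool.Agent.Lib_helper15.STB.B.sec
import Pool.Agent.Lib_helper15.STB.B.ccvB
import Pool.Agent.Lib_helper15.STB.B.fub

/-! # STB, block ray : the weight of a ball (helper66) -/

open MeasureTheory Filter Topology
open scoped InnerProductSpace Pointwise
open Pool.Agent.Lib_helper15.STE

namespace STB

/-! ## comparison of a star shaped set with the disc -/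

theorem ray_scale (D : Set ℂ) (c : ℝ) :
    volume (c • D) = ENNReal.ofReal (c ^ 2) * volume D := by
  rw [Measure.addHaar_smul, Complex.finrank_real_complex, abs_of_nonneg (by positivity)]

theorem ray_level (D : Set ℂ) (R : ℝ) (hR : 0 < R) (hD : D ⊆ Metric.closedBall 0 R)
    (hs : ∀ z ∈ D, ∀ c ∈ Set.Icc (0:ℝ) 1, c • z ∈ D) (G : ℝ → ℝ)
    (hG : ∀ r s, 0 ≤ r → r ≤ s → G s ≤ G r) (t : ℝ) :
    volume D * volume ({z | t ≤ G ‖z‖} ∩ Metric.closedBall (0:ℂ) R) ≤
      volume (Metric.closedBall (0:ℂ) R) * volume ({z | t ≤ G ‖z‖} ∩ D) := by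
  set A : Set ℝ := {r | 0 ≤ r ∧ r ≤ R ∧ t ≤ G r} with hA
  rcases Set.eq_empty_or_nonempty A with he | hne
  · have h1 : {z | t ≤ G ‖z‖} ∩ Metric.closedBall (0:ℂ) R = ∅ := by
      ext z
      simp only [Set.mem_inter_iff, Set.mem_ofPred_eq, Set.mem_empty_iff_false, iff_false]
      rintro ⟨h2, h3⟩
      have h4 : ‖z‖ ∈ A := ⟨norm_nonneg z, by simpa using h3, h2⟩
      rw [he] at h4
      exact h4
    rw [h1]
    simp
  have hb : BddAbove A := ⟨R, fun r hr => hr.2.1⟩
  set ρ := sSup A with hρ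
  have hρ0 : 0 ≤ ρ := by
    obtain ⟨r, hr⟩ := hne
    exact hr.1.trans (le_csSup hb hr)
  have hρR : ρ ≤ R := csSup_le hne fun r hr => hr.2.1
  have h1 : {z | t ≤ G ‖z‖} ∩ Metric.closedBall (0:ℂ) R ⊆ Metric.closedBall (0:ℂ) ρ := by
    rintro z ⟨h2, h3⟩
    have h4 : ‖z‖ ∈ A := ⟨norm_nonneg z, by simpa using h3, h2⟩
    simpa using le_csSup hb h4
  have hBR : volume (Metric.closedBall (0:ℂ) R) = ENNReal.ofReal (R ^ 2) * NNReal.pi := by
    rw [Complex.volume_closedBall, ENNReal.ofReal_pow hR.le]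
  have hBρ : volume (Metric.closedBall (0:ℂ) ρ) = ENNReal.ofReal (ρ ^ 2) * NNReal.pi := by
    rw [Complex.volume_closedBall, ENNReal.ofReal_pow hρ0]
  have hDf : volume D ≠ ⊤ := ((measure_mono hD).trans_lt
    (measure_closedBall_lt_top)).ne
  set w := volume ({z | t ≤ G ‖z‖} ∩ D) with hw
  have hwf : w ≠ ⊤ := ((measure_mono Set.inter_subset_right).trans_lt hDf.lt_top).ne
  have h2 : ∀ c : ℝ, 0 ≤ c → c * R < ρ → ENNReal.ofReal (c ^ 2) * volume D ≤ w := by
    intro c hc hcR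
    rw [← ray_scale D c]
    apply measure_mono
    rintro _ ⟨z, hz, rfl⟩
    have hc1 : c ≤ 1 := by
      by_contra h5
      push Not at h5
      nlinarith
    refine ⟨?_, hs z hz c ⟨hc, hc1⟩⟩
    obtain ⟨r, hr, hr2⟩ := exists_lt_of_lt_csSup hne hcR
    have h6 : ‖z‖ ≤ R := by simpa using hD hz
    have h7 : ‖c • z‖ ≤ r := by
      rw [norm_smul, Real.norm_of_nonneg hc]
      nlinarith
    exact hr.2.2.trans (hG _ _ (norm_nonneg _) h7)
  have h3 : ENNReal.ofReal (ρ ^ 2) * volume D ≤ ENNReal.ofReal (R ^ 2) * w := by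
    rcases hρ0.eq_or_lt with h4 | h4
    · rw [← h4]
      simp
    have h5 : ∀ c : ℝ, 0 ≤ c → c < ρ / R → c ^ 2 * (volume D).toReal ≤ w.toReal := by
      intro c hc hc2
      have h6 := h2 c hc ((lt_div_iff₀ hR).mp hc2)
      have h7 := ENNReal.toReal_mono hwf h6
      rwa [ENNReal.toReal_mul, ENNReal.toReal_ofReal (by positivity)] at h7
    have h6 : (ρ / R) ^ 2 * (volume D).toReal ≤ w.toReal := by
      have h7 : Tendsto (fun c : ℝ => c ^ 2 * (volume D).toReal) (𝓝[<] (ρ / R))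
          (𝓝 ((ρ / R) ^ 2 * (volume D).toReal)) := by
        apply Tendsto.mono_left _ nhdsWithin_le_nhds
        apply Continuous.tendsto
        fun_prop
      refine le_of_tendsto h7 ?_
      have h8 : Set.Ioo 0 (ρ / R) ∈ 𝓝[<] (ρ / R) := Ioo_mem_nhdsLT (by positivity)
      filter_upwards [h8] with c hc
      exact h5 c hc.1.le hc.2
    rw [← ENNReal.ofReal_toReal hDf, ← ENNReal.ofReal_toReal hwf,
      ← ENNReal.ofReal_mul (by positivity), ← ENNReal.ofReal_mul (by positivity)]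
    apply ENNReal.ofReal_le_ofReal
    rw [div_pow, div_mul_eq_mul_div, div_le_iff₀ (by positivity)] at h6
    linarith
  calc volume D * volume ({z | t ≤ G ‖z‖} ∩ Metric.closedBall (0:ℂ) R)
      ≤ volume D * (ENNReal.ofReal (ρ ^ 2) * NNReal.pi) := by
        rw [← hBρ]
        exact mul_le_mul_right (measure_mono h1) _
    _ = (ENNReal.ofReal (ρ ^ 2) * volume D) * NNReal.pi := by ring
    _ ≤ (ENNReal.ofReal (R ^ 2) * w) * NNReal.pi := mul_le_mul_left h3 _
    _ = volume (Metric.closedBall (0:ℂ) R) * w := by rw [hBR]; ring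

theorem ray_cmp (D : Set ℂ) (R : ℝ) (hR : 0 < R)
    (hD : D ⊆ Metric.closedBall 0 R)
    (hs : ∀ z ∈ D, ∀ c ∈ Set.Icc (0:ℝ) 1, c • z ∈ D) (G : ℝ → ℝ) (hG0 : ∀ r, 0 ≤ G r)
    (hGc : Continuous G) (hG : ∀ r s, 0 ≤ r → r ≤ s → G s ≤ G r) :
    volume D * ∫⁻ z in Metric.closedBall (0:ℂ) R, ENNReal.ofReal (G ‖z‖) ≤
      volume (Metric.closedBall (0:ℂ) R) * ∫⁻ z in D, ENNReal.ofReal (G ‖z‖) := by
  have hDf : volume D ≠ ⊤ := ((measure_mono hD).trans_lt
    (measure_closedBall_lt_top)).ne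
  have hm : Measurable (fun z : ℂ => G ‖z‖) := (hGc.comp continuous_norm).measurable
  rw [lintegral_eq_lintegral_meas_le _ (Eventually.of_forall fun z => hG0 _) hm.aemeasurable,
    lintegral_eq_lintegral_meas_le _ (Eventually.of_forall fun z => hG0 _) hm.aemeasurable,
    ← lintegral_const_mul' _ _ hDf, ← lintegral_const_mul' _ _ measure_closedBall_lt_top.ne]
  apply lintegral_mono
  intro t
  have hmt : MeasurableSet {z : ℂ | t ≤ G ‖z‖} := measurableSet_le measurable_const hm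
  simp only [Measure.restrict_apply hmt]
  exact ray_level D R hR hD hs G hG t

/-! ## Fubini and rotations -/

theorem ray_fub (S : Set ℂ) (hS : MeasurableSet S) (w : ℝ → ENNReal) (hw : Measurable w) :
    ∫⁻ z in S, w z.im = ∫⁻ t : ℝ, volume {x : ℝ | (⟨x, t⟩ : ℂ) ∈ S} * w t := by
  rw [← lintegral_indicator hS]
  have h1 : Measurable (S.indicator fun z : ℂ => w z.im) :=
    (hw.comp Complex.measurable_im).indicator hS
  have h2 := (Complex.volume_preserving_equiv_real_prod.symm).lintegral_comp h1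
  have h7 : AEMeasurable (fun a : ℝ × ℝ => S.indicator (fun z => w z.im)
      (Complex.measurableEquivRealProd.symm a)) ((volume : Measure ℝ).prod volume) :=
    (h1.comp Complex.measurableEquivRealProd.symm.measurable).aemeasurable
  rw [← h2, Measure.volume_eq_prod, lintegral_prod_symm _ h7]
  apply lintegral_congr
  intro t
  have h3 : ∀ x : ℝ, (S.indicator fun z : ℂ => w z.im)
      (Complex.measurableEquivRealProd.symm (x, t)) =
      ({x : ℝ | (⟨x, t⟩ : ℂ) ∈ S}.indicator fun _ => w t) x := by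
    intro x
    have h4 : Complex.measurableEquivRealProd.symm (x, t) = (⟨x, t⟩ : ℂ) := rfl
    rw [h4]
    by_cases h5 : (⟨x, t⟩ : ℂ) ∈ S
    · rw [Set.indicator_of_mem h5, Set.indicator_of_mem (by exact h5)]
    · rw [Set.indicator_of_notMem h5, Set.indicator_of_notMem (by exact h5)]
  have h6 : Measurable (fun x : ℝ => (⟨x, t⟩ : ℂ)) := by
    have : (fun x : ℝ => (⟨x, t⟩ : ℂ)) =
        fun x => Complex.measurableEquivRealProd.symm (x, t) := rfl
    rw [this]
    exact Complex.measurableEquivRealProd.symm.measurable.comp (by fun_prop)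
  have h8 : MeasurableSet {x : ℝ | (⟨x, t⟩ : ℂ) ∈ S} := h6 hS
  simp only [h3]
  rw [lintegral_indicator h8, setLIntegral_const, mul_comm]

/-- the number `Im (exp(iθ) z)` -/
noncomputable def ray_im (θ : ℝ) (z : ℂ) : ℝ := z.re * Real.sin θ + z.im * Real.cos θ

theorem ray_rot (S : Set ℂ) (hS : MeasurableSet S) (w : ℝ → ENNReal) (hw : Measurable w)
    (θ : ℝ) : ∫⁻ z in S, w (ray_im θ z) =
      ∫⁻ t : ℝ, volume {x : ℝ | (⟨x * Real.cos θ + t * Real.sin θ,
        -(x * Real.sin θ) + t * Real.cos θ⟩ : ℂ) ∈ S} * w t := by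
  set g : ℂ ≃ₗᵢ[ℝ] ℂ := rotation (Circle.exp θ) with hg
  have hgz : ∀ z, g z = (⟨z.re * Real.cos θ - z.im * Real.sin θ, ray_im θ z⟩ : ℂ) := by
    intro z
    rw [hg, rotation_apply, Circle.coe_exp]
    apply Complex.ext
    · simp [Complex.exp_ofReal_mul_I_re, Complex.exp_ofReal_mul_I_im]
      ring
    · simp [Complex.exp_ofReal_mul_I_re, Complex.exp_ofReal_mul_I_im, ray_im]
      ring
  have hmp : MeasurePreserving g volume volume := g.measurePreserving
  set S' : Set ℂ := {z | g.symm z ∈ S} with hS'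
  have hS'm : MeasurableSet S' := g.symm.continuous.measurable hS
  have h1 : ∀ z, S'.indicator (fun z : ℂ => w z.im) (g z) =
      S.indicator (fun z => w (ray_im θ z)) z := by
    intro z
    have h2 : (g z).im = ray_im θ z := by rw [hgz]
    by_cases h3 : z ∈ S
    · rw [Set.indicator_of_mem h3, Set.indicator_of_mem (by simpa [hS'] using h3), h2]
    · rw [Set.indicator_of_notMem h3, Set.indicator_of_notMem (by simpa [hS'] using h3)]
  rw [← lintegral_indicator hS]
  have h4 := hmp.lintegral_comp (f := S'.indicator fun z : ℂ => w z.im)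
    ((hw.comp Complex.measurable_im).indicator hS'm)
  have h5 : ∫⁻ z, S.indicator (fun z => w (ray_im θ z)) z =
      ∫⁻ z, S'.indicator (fun z : ℂ => w z.im) z := by
    rw [← h4]
    apply lintegral_congr
    intro z
    rw [← h1 z]
  rw [h5, lintegral_indicator hS'm, ray_fub S' hS'm w hw]
  apply lintegral_congr
  intro t
  congr 2
  ext x
  simp only [Set.mem_ofPred_eq, hS']
  have h6 : g.symm (⟨x, t⟩ : ℂ) = (⟨x * Real.cos θ + t * Real.sin θ,
        -(x * Real.sin θ) + t * Real.cos θ⟩ : ℂ) := by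
    rw [LinearIsometryEquiv.symm_apply_eq, hgz]
    have h7 := Real.sin_sq_add_cos_sq θ
    apply Complex.ext
    · simp only
      linear_combination (-x) * h7
    · simp only [ray_im]
      linear_combination (-t) * h7
  rw [h6]

/-! ## the radial function -/

noncomputable def ray_G (R r : ℝ) : ℝ := ∫ φ in (0:ℝ)..Real.pi, √(R ^ 2 - (r * Real.sin φ) ^ 2)

theorem ray_G_cont (R : ℝ) : Continuous (ray_G R) := by
  unfold ray_G
  apply intervalIntegral.continuous_parametric_intervalIntegral_of_continuous'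
  show Continuous fun p : ℝ × ℝ => √(R ^ 2 - (p.1 * Real.sin p.2) ^ 2)
  fun_prop

theorem ray_G_nonneg (R r : ℝ) : 0 ≤ ray_G R r :=
  intervalIntegral.integral_nonneg Real.pi_pos.le fun _ _ => Real.sqrt_nonneg _

theorem ray_G_anti (R r s : ℝ) (hr : 0 ≤ r) (hrs : r ≤ s) : ray_G R s ≤ ray_G R r := by
  unfold ray_G
  apply intervalIntegral.integral_mono_on Real.pi_pos.le
  · apply Continuous.intervalIntegrable
    fun_prop
  · apply Continuous.intervalIntegrable
    fun_prop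
  · intro φ _
    apply Real.sqrt_le_sqrt
    have h1 : (r * Real.sin φ) ^ 2 ≤ (s * Real.sin φ) ^ 2 := by
      rw [mul_pow, mul_pow]
      exact mul_le_mul_of_nonneg_right (by nlinarith) (sq_nonneg _)
    linarith

theorem ray_G_eq (R : ℝ) (z : ℂ) :
    ∫ θ in (0:ℝ)..Real.pi, √(R ^ 2 - ray_im θ z ^ 2) = ray_G R ‖z‖ := by
  set α := z.arg with hα
  have h1 : ∀ θ, ray_im θ z = ‖z‖ * Real.sin (θ + α) := by
    intro θ
    unfold ray_im
    rw [Real.sin_add, ← Complex.norm_mul_cos_arg z, ← Complex.norm_mul_sin_arg z]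
    simp only [Complex.norm_mul_cos_arg, Complex.norm_mul_sin_arg]
    rw [← Complex.norm_mul_cos_arg z, ← Complex.norm_mul_sin_arg z, ← hα]
    ring
  set h : ℝ → ℝ := fun φ => √(R ^ 2 - (‖z‖ * Real.sin φ) ^ 2) with hh
  have h2 : Function.Periodic h Real.pi := by
    intro φ
    simp only [hh, Real.sin_add_pi]
    congr 2
    ring
  have h3 : ∫ θ in (0:ℝ)..Real.pi, √(R ^ 2 - ray_im θ z ^ 2) =
      ∫ θ in (0:ℝ)..Real.pi, h (θ + α) := by
    apply intervalIntegral.integral_congr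
    intro θ _
    simp only [hh, h1]
  rw [h3, intervalIntegral.integral_comp_add_right]
  have h4 := h2.intervalIntegral_add_eq (0 + α) 0
  rw [show (0:ℝ) + α + Real.pi = Real.pi + α by ring, zero_add] at h4
  rw [zero_add, h4, zero_add]
  rfl

theorem ray_joint (R : ℝ) :
    Measurable (fun p : ℝ × ℂ => ENNReal.ofReal √(R ^ 2 - ray_im p.1 p.2 ^ 2)) := by
  apply ENNReal.measurable_ofReal.comp
  apply Continuous.measurable
  unfold ray_im
  fun_prop

theorem ray_swap (R : ℝ) (S : Set ℂ) :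
    ∫⁻ z in S, ENNReal.ofReal (ray_G R ‖z‖) =
      ∫⁻ θ in Set.Ioc 0 Real.pi, ∫⁻ z in S, ENNReal.ofReal √(R ^ 2 - ray_im θ z ^ 2) := by
  rw [lintegral_lintegral_swap (ray_joint R).aemeasurable]
  apply lintegral_congr
  intro z
  have h1 : Continuous (fun θ : ℝ => √(R ^ 2 - ray_im θ z ^ 2)) := by
    unfold ray_im
    fun_prop
  rw [← ray_G_eq, intervalIntegral.integral_of_le Real.pi_pos.le,
    ofReal_integral_eq_lintegral_ofReal]
  · exact (h1.intervalIntegrable 0 Real.pi).1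
  · exact Eventually.of_forall fun θ => Real.sqrt_nonneg _

theorem ray_disc (R : ℝ) (hR : 0 < R) (θ : ℝ) :
    ∫⁻ z in Metric.closedBall (0:ℂ) R, ENNReal.ofReal √(R ^ 2 - ray_im θ z ^ 2) =
      ENNReal.ofReal (8 / 3 * R ^ 3) := by
  have hw : Measurable (fun t : ℝ => ENNReal.ofReal √(R ^ 2 - t ^ 2)) := by
    apply ENNReal.measurable_ofReal.comp
    apply Continuous.measurable
    fun_prop
  have h0 := ray_rot (Metric.closedBall (0:ℂ) R) Metric.isClosed_closedBall.measurableSet _ hw θ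
  rw [h0]
  have h1 : ∀ t : ℝ, volume {x : ℝ | (⟨x * Real.cos θ + t * Real.sin θ,
        -(x * Real.sin θ) + t * Real.cos θ⟩ : ℂ) ∈ Metric.closedBall (0:ℂ) R} *
        ENNReal.ofReal √(R ^ 2 - t ^ 2) =
        (Set.Icc (-R) R).indicator (fun t => ENNReal.ofReal (2 * (R ^ 2 - t ^ 2))) t := by
    intro t
    by_cases ht : t ∈ Set.Icc (-R) R
    · have ht2 : 0 ≤ R ^ 2 - t ^ 2 := by nlinarith [ht.1, ht.2]
      have h2 : {x : ℝ | (⟨x * Real.cos θ + t * Real.sin θ,
          -(x * Real.sin θ) + t * Real.cos θ⟩ : ℂ) ∈ Metric.closedBall (0:ℂ) R} =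
          Set.Icc (-√(R ^ 2 - t ^ 2)) √(R ^ 2 - t ^ 2) := by
        ext x
        simp only [Set.mem_ofPred_eq, Set.mem_Icc, mem_closedBall_zero_iff]
        rw [← abs_le, ← Real.sqrt_sq_eq_abs, Real.sqrt_le_sqrt_iff ht2,
          ← abs_of_nonneg (norm_nonneg _), ← sq_le_sq₀ (abs_nonneg _) hR.le, sq_abs,
          Complex.sq_norm, Complex.normSq_mk]
        have h7 := Real.sin_sq_add_cos_sq θ
        have h8 : (x * Real.cos θ + t * Real.sin θ) * (x * Real.cos θ + t * Real.sin θ) +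
            (-(x * Real.sin θ) + t * Real.cos θ) * (-(x * Real.sin θ) + t * Real.cos θ) =
            x ^ 2 + t ^ 2 := by
          linear_combination (x ^ 2 + t ^ 2) * h7
        rw [h8]
        constructor <;> intro h9 <;> linarith
      rw [h2, Real.volume_Icc, Set.indicator_of_mem ht, ← ENNReal.ofReal_mul (by
        have := Real.sqrt_nonneg (R ^ 2 - t ^ 2)
        linarith)]
      congr 1
      have h10 := Real.mul_self_sqrt ht2
      linear_combination 2 * h10
    · have ht2 : R ^ 2 - t ^ 2 ≤ 0 := by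
        rw [Set.mem_Icc, not_and_or] at ht
        rcases ht with ht | ht <;> push Not at ht <;> nlinarith
      rw [Real.sqrt_eq_zero_of_nonpos ht2, Set.indicator_of_notMem ht]
      simp
  simp only [h1]
  rw [lintegral_indicator measurableSet_Icc, ← ofReal_integral_eq_lintegral_ofReal]
  · congr 1
    rw [integral_Icc_eq_integral_Ioc, ← intervalIntegral.integral_of_le (by linarith)]
    have hd : ∀ x ∈ Set.uIcc (-R) R, HasDerivAt (fun t : ℝ => 2 * (R ^ 2 * t - t ^ 3 / 3))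
        (2 * (R ^ 2 - x ^ 2)) x := by
      intro x _
      have h3 : HasDerivAt (fun t : ℝ => t ^ 3) (3 * x ^ 2) x := by
        simpa using hasDerivAt_pow 3 x
      have h2 := (((hasDerivAt_id' x).const_mul (R ^ 2)).sub
        (h3.div_const 3)).const_mul 2
      refine h2.congr_deriv ?_
      ring
    rw [intervalIntegral.integral_eq_sub_of_hasDerivAt hd
      (Continuous.intervalIntegrable (by fun_prop) _ _)]
    ring
  · apply ContinuousOn.integrableOn_Icc
    fun_prop
  · filter_upwards [ae_restrict_mem measurableSet_Icc] with t ht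
    show 0 ≤ 2 * (R ^ 2 - t ^ 2)
    nlinarith [ht.1, ht.2]

/-! ## the shadow -/

def ray_D (K : Set E3) (f u : E3) : Set ℂ :=
  {z | ∃ s : ℝ, z.re • cr f u + s • f + z.im • u ∈ K}

theorem ray_inner (f u : E3) (h : ON f u) (x s t : ℝ) :
    ⟪x • cr f u + s • f + t • u, cr f u⟫_ℝ = x ∧ ⟪x • cr f u + s • f + t • u, u⟫_ℝ = t := by
  have h0 := (fra_on' f u h).2.2.2.1
  have h0' := (fra_on' f u h).2.2.1
  have h1 : ⟪cr f u, cr f u⟫_ℝ = 1 := by rw [real_inner_self_eq_norm_sq, h0.nf]; norm_num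
  have h2 : ⟪f, cr f u⟫_ℝ = 0 := by rw [real_inner_comm]; exact h0.or
  have h3 : ⟪u, cr f u⟫_ℝ = 0 := by rw [real_inner_comm]; exact h0'.or
  have h4 : ⟪u, u⟫_ℝ = 1 := by rw [real_inner_self_eq_norm_sq, h.nu]; norm_num
  have h5 : ⟪f, u⟫_ℝ = 0 := h.or
  have h6 : ⟪cr f u, u⟫_ℝ = 0 := h0'.or
  constructor
  · rw [inner_add_left, inner_add_left, real_inner_smul_left, real_inner_smul_left,
      real_inner_smul_left, h1, h2, h3]
    ring
  · rw [inner_add_left, inner_add_left, real_inner_smul_left, real_inner_smul_left,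
      real_inner_smul_left, h4, h5, h6]
    ring

theorem ray_D_eq (K : Set E3) (f u : E3) (h : ON f u) :
    ray_D K f u = (fun y : E3 => Complex.measurableEquivRealProd.symm (⟪y, cr f u⟫_ℝ, ⟪y, u⟫_ℝ))
      '' K := by
  ext z
  constructor
  · rintro ⟨s, hs⟩
    refine ⟨_, hs, ?_⟩
    show (⟨_, _⟩ : ℂ) = z
    rw [(ray_inner f u h z.re s z.im).1, (ray_inner f u h z.re s z.im).2]
  · rintro ⟨y, hy, rfl⟩
    refine ⟨⟪y, f⟫_ℝ, ?_⟩
    show ⟪y, cr f u⟫_ℝ • cr f u + ⟪y, f⟫_ℝ • f + ⟪y, u⟫_ℝ • u ∈ K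
    rw [← (fra_basis f u h y).1]
    exact hy

theorem ray_D_meas (K : Set E3) (hK : CB K) (f u : E3) (h : ON f u) :
    MeasurableSet (ray_D K f u) := by
  rw [ray_D_eq K f u h]
  apply IsClosed.measurableSet
  apply IsCompact.isClosed
  apply hK.comp.image
  have h1 : Continuous (fun p : ℝ × ℝ => Complex.measurableEquivRealProd.symm p) :=
    Complex.equivRealProdCLM.symm.continuous
  exact h1.comp (by fun_prop)

theorem ray_D_sub (K : Set E3) (R : ℝ) (hR0 : 0 ≤ R) (hR : K ⊆ Metric.closedBall 0 R)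
    (f u : E3) (h : ON f u) : ray_D K f u ⊆ Metric.closedBall 0 R := by
  rw [ray_D_eq K f u h]
  rintro _ ⟨y, hy, rfl⟩
  have h1 : ‖y‖ ≤ R := by simpa using hR hy
  have h2 := (fra_basis f u h y).2
  show (⟨⟪y, cr f u⟫_ℝ, ⟪y, u⟫_ℝ⟩ : ℂ) ∈ _
  rw [mem_closedBall_zero_iff, ← abs_of_nonneg (norm_nonneg _),
    ← sq_le_sq₀ (abs_nonneg _) hR0, sq_abs, Complex.sq_norm, Complex.normSq_mk]
  have h3 : ‖y‖ ^ 2 ≤ R ^ 2 := pow_le_pow_left₀ (norm_nonneg _) h1 2
  nlinarith [sq_nonneg ⟪y, f⟫_ℝ]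

theorem ray_tw (f u : E3) (h : ON f u) (θ : ℝ) : ON f (tw u f θ) ∧
    tw u f θ = Real.cos θ • u + Real.sin θ • cr f u ∧
    cr f (tw u f θ) = Real.cos θ • cr f u - Real.sin θ • u := by
  have h1 := fra_on' f u h
  have h2 := fra_on u f h1.1 θ
  have h3 := fra_on' _ _ h2.1
  refine ⟨h3.1, ?_, ?_⟩
  · unfold tw
    rw [h1.2.1, smul_neg, sub_neg_eq_add]
  · rw [h3.2.1, h2.2, h1.2.1, smul_neg]
    abel

theorem ray_fibre (K : Set E3) (f u : E3) (h : ON f u) (θ t : ℝ) :
    {x : ℝ | (⟨x * Real.cos θ + t * Real.sin θ, -(x * Real.sin θ) + t * Real.cos θ⟩ : ℂ) ∈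
      ray_D K f u} = {x : ℝ | ∃ s : ℝ, x • cr f (tw u f θ) + s • f + t • tw u f θ ∈ K} := by
  ext x
  have h1 : ∀ s : ℝ, (x * Real.cos θ + t * Real.sin θ) • cr f u + s • f +
      (-(x * Real.sin θ) + t * Real.cos θ) • u =
      x • cr f (tw u f θ) + s • f + t • tw u f θ := by
    intro s
    rw [(ray_tw f u h θ).2.2, (ray_tw f u h θ).2.1]
    module
  constructor
  · rintro ⟨s, hs⟩
    exact ⟨s, by rw [← h1]; exact hs⟩
  · rintro ⟨s, hs⟩
    refine ⟨s, ?_⟩
    show (x * Real.cos θ + t * Real.sin θ) • cr f u + s • f +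
      (-(x * Real.sin θ) + t * Real.cos θ) • u ∈ K
    rw [h1]
    exact hs

theorem ray_fin (K : Set E3) (hK : CB K) (f u : E3) (h : ON f u) (t : ℝ) :
    volume {x : ℝ | ∃ s : ℝ, x • cr f u + s • f + t • u ∈ K} ≠ ⊤ := by
  obtain ⟨C, hC⟩ := hK.comp.isBounded.exists_norm_le
  have h1 : {x : ℝ | ∃ s : ℝ, x • cr f u + s • f + t • u ∈ K} ⊆ Set.Icc (-C) C := by
    rintro x ⟨s, hs⟩
    have h2 := abs_real_inner_le_norm (x • cr f u + s • f + t • u) (cr f u)
    rw [(ray_inner f u h x s t).1, (fra_on' f u h).2.2.1.nf, mul_one] at h2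
    exact abs_le.mp (h2.trans (hC _ hs))
  exact ((measure_mono h1).trans_lt (measure_Icc_lt_top)).ne

theorem ray_I (K : Set E3) (hK : CB K) (f u : E3) (h : ON f u) (q : ℝ → ℝ)
    (hq : Continuous q) (hq0 : ∀ t, 0 ≤ q t) (θ : ℝ) :
    ∫ t, Wd K f (tw u f θ) t * q t =
      (∫⁻ z in ray_D K f u, ENNReal.ofReal (q (ray_im θ z))).toReal := by
  have hw : Measurable (fun t : ℝ => ENNReal.ofReal (q t)) :=
    ENNReal.measurable_ofReal.comp hq.measurable
  have hon := (ray_tw f u h θ).1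
  rw [ray_rot (ray_D K f u) (ray_D_meas K hK f u h) _ hw θ, integral_eq_lintegral_of_nonneg_ae]
  · congr 1
    apply lintegral_congr
    intro t
    rw [ENNReal.ofReal_mul (by unfold Wd; positivity), ray_fibre K f u h]
    unfold Wd
    rw [ENNReal.ofReal_toReal (ray_fin K hK f _ hon t)]
  · exact Eventually.of_forall fun t => mul_nonneg (by unfold Wd; positivity) (hq0 t)
  · apply Measurable.aestronglyMeasurable
    apply Measurable.mul _ hq.measurable
    exact ccv_meas K hK (fun _ => f) (fun _ => tw u f θ) (fun t => t) measurable_const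
      measurable_const measurable_id (fun _ => hon)

theorem ray_sh (K : Set E3) (hK : CB K) (f u : E3) (h : ON f u) :
    sh K f = (volume (ray_D K f u)).toReal := by
  have h1 := ray_I K hK f u h (fun _ => 1) continuous_const (fun _ => zero_le_one) 0
  have h2 : tw u f 0 = u := by unfold tw; simp
  simp only [h2, mul_one, ENNReal.ofReal_one, setLIntegral_one] at h1
  rw [← h1, ← fub_sh K hK f u h, intervalIntegral.integral_of_le (fra_lohi K hK u h.nu).1.le,
    ← integral_Icc_eq_integral_Ioc]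
  apply setIntegral_eq_integral_of_forall_compl_eq_zero
  intro t ht
  exact ((sec_comp K hK f u h t).2.2.2.1 ht).2

theorem ray_pos (K : Set E3) (hK : CB K) (R : ℝ) (hR : K ⊆ Metric.closedBall 0 R) : 0 < R := by
  by_contra hc
  push Not at hc
  have h1 : K ⊆ {0} := by
    intro x hx
    have h2 : ‖x‖ ≤ R := by simpa using hR hx
    have h3 : ‖x‖ = 0 := le_antisymm (h2.trans hc) (norm_nonneg x)
    simpa using h3
  have h2 := interior_mono h1
  rw [interior_singleton] at h2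
  exact hK.int.ne_empty (Set.subset_empty_iff.mp h2)

theorem ray_main (K : Set E3) (hK : CB K) (R : ℝ) (hR : K ⊆ Metric.closedBall 0 R)
    (h0 : (0 : E3) ∈ K) (f u : E3) (h : ON f u) :
    8 / 3 * R * sh K f ≤
      ∫ θ in (0:ℝ)..Real.pi, (∫ t, Wd K f (tw u f θ) t * √(R ^ 2 - t ^ 2)) := by
  have hR0 := ray_pos K hK R hR
  set D := ray_D K f u with hD
  have hDs : D ⊆ Metric.closedBall 0 R := ray_D_sub K R hR0.le hR f u h
  have hDf : volume D ≠ ⊤ := ((measure_mono hDs).trans_lt measure_closedBall_lt_top).ne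
  have hI : ∀ θ, ∫ t, Wd K f (tw u f θ) t * √(R ^ 2 - t ^ 2) =
      (∫⁻ z in D, ENNReal.ofReal √(R ^ 2 - ray_im θ z ^ 2)).toReal := fun θ =>
    ray_I K hK f u h (fun t => √(R ^ 2 - t ^ 2)) (by fun_prop) (fun t => Real.sqrt_nonneg _) θ
  have hle : ∀ θ, ∫⁻ z in D, ENNReal.ofReal √(R ^ 2 - ray_im θ z ^ 2) ≤
      ENNReal.ofReal R * volume D := by
    intro θ
    rw [← setLIntegral_const]
    apply lintegral_mono
    intro z
    apply ENNReal.ofReal_le_ofReal
    rw [Real.sqrt_le_left hR0.le]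
    nlinarith [sq_nonneg (ray_im θ z)]
  have hft : ENNReal.ofReal R * volume D < ⊤ := ENNReal.mul_lt_top ENNReal.ofReal_lt_top
    hDf.lt_top
  have hmeas : Measurable fun θ : ℝ => ∫⁻ z in D, ENNReal.ofReal √(R ^ 2 - ray_im θ z ^ 2) :=
    (ray_joint R).lintegral_prod_right'
  simp only [hI]
  rw [intervalIntegral.integral_of_le Real.pi_pos.le, integral_toReal hmeas.aemeasurable
    (Eventually.of_forall fun θ => (hle θ).trans_lt hft), ← ray_swap R D, ray_sh K hK f u h,
    ← hD]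
  have hcmp := ray_cmp D R hR0 hDs (by
    rintro z ⟨s, hs⟩ c hc
    refine ⟨c * s, ?_⟩
    have h3 := hK.conv.smul_mem_of_zero_mem h0 hs hc
    convert h3 using 1
    simp only [Complex.smul_re, Complex.smul_im, smul_eq_mul]
    module) (ray_G R) (ray_G_nonneg R) (ray_G_cont R) (ray_G_anti R)
  rw [ray_swap R (Metric.closedBall 0 R)] at hcmp
  simp only [ray_disc R hR0] at hcmp
  rw [setLIntegral_const, Real.volume_Ioc, sub_zero, Complex.volume_closedBall] at hcmp
  set Q := ∫⁻ z in D, ENNReal.ofReal (ray_G R ‖z‖) with hQ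
  have hQf : Q ≠ ⊤ := by
    rw [hQ, ray_swap R D]
    refine (lt_of_le_of_lt (lintegral_mono fun θ => hle θ) ?_).ne
    rw [setLIntegral_const, Real.volume_Ioc]
    exact ENNReal.mul_lt_top hft ENNReal.ofReal_lt_top
  have h5 := ENNReal.toReal_mono (by
    refine ENNReal.mul_ne_top (ENNReal.mul_ne_top ?_ ?_) hQf
    · exact ENNReal.pow_ne_top ENNReal.ofReal_ne_top
    · exact ENNReal.coe_ne_top) hcmp
  rw [ENNReal.toReal_mul, ENNReal.toReal_mul, ENNReal.toReal_mul, ENNReal.toReal_mul,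
    ENNReal.toReal_pow, ENNReal.toReal_ofReal (by positivity),
    ENNReal.toReal_ofReal Real.pi_pos.le, ENNReal.toReal_ofReal hR0.le,
    ENNReal.coe_toReal, NNReal.coe_real_pi] at h5
  have hpi := Real.pi_pos
  have h6 : (0:ℝ) < R ^ 2 * Real.pi := by positivity
  refine le_of_mul_le_mul_left ?_ h6
  calc R ^ 2 * Real.pi * (8 / 3 * R * (volume D).toReal)
      = (volume D).toReal * (8 / 3 * R ^ 3 * Real.pi) := by ring
    _ ≤ R ^ 2 * Real.pi * Q.toReal := h5

end STB
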