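import Pool.Agent.Lib_helper15.STB.Defs
import Pool.Agent.Lib_helper15.STB.B.rotA
import Pool.Agent.Lib_helper15.STB.B.rotB
import Pool.Agent.Lib_helper15.STB.B.ray
import Pool.Agent.Lib_helper15.STB.B.fub
import Pool.Agent.Lib_helper15.STB.B.ccvA
import Pool.Agent.Lib_helper15.STB.B.ccvB
import Pool.Agent.Lib_helper15.STB.B.fraA
import Pool.Agent.Lib_helper15.STB.B.fraC
import Pool.Agent.Lib_helper15.STB.B.shmA
import Pool.Agent.Lib_helper59.STHF.haaB

/-! # STB, block avr (helper74): average with the weight of a ball -/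

open MeasureTheory Filter Topology
open scoped InnerProductSpace
open Pool.Agent.Lib_helper15.STE

namespace STB

/-- the inner integral -/
noncomputable def avr_P (K : Set E3) (R : ℝ) (f u : E3) : ℝ :=
  ∫ t, Wd K f u t * √(R ^ 2 - t ^ 2)

theorem avr_q (R : ℝ) : Continuous (fun t : ℝ => √(R ^ 2 - t ^ 2)) := by fun_prop

theorem avr_meas (K : Set E3) (hK : CB K) (R : ℝ) {Ω : Type} [MeasurableSpace Ω]
    (F U : Ω → E3) (hF : Measurable F) (hU : Measurable U) (h : ∀ z, ON (F z) (U z)) :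
    Measurable (fun z => avr_P K R (F z) (U z)) := by
  have h1 : Measurable (fun p : Ω × ℝ => Wd K (F p.1) (U p.1) p.2) :=
    ccv_meas K hK (fun p : Ω × ℝ => F p.1) (fun p => U p.1) (fun p => p.2)
      (hF.comp measurable_fst) (hU.comp measurable_fst) measurable_snd (fun p => h p.1)
  have h2 : Measurable (fun p : Ω × ℝ => Wd K (F p.1) (U p.1) p.2 * √(R ^ 2 - p.2 ^ 2)) :=
    h1.mul ((avr_q R).measurable.comp measurable_snd)
  exact (h2.stronglyMeasurable.integral_prod_right (ν := volume)).measurable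

theorem avr_bound (K : Set E3) (hK : CB K) (R : ℝ) : ∃ C : ℝ, ∀ f u, ON f u →
    |avr_P K R f u| ≤ C := by
  obtain ⟨C, hC0, -, hC1, -⟩ := fra_bound K hK
  refine ⟨2 * C * |R| * (2 * |R|), fun f u h => ?_⟩
  have h0 : ∀ t ∉ Set.Icc (-|R|) |R|, Wd K f u t * √(R ^ 2 - t ^ 2) = 0 := by
    intro t ht
    have h1 : |R| < |t| := by
      by_contra h2
      push Not at h2
      exact ht (abs_le.1 h2)
    have h2 : R ^ 2 - t ^ 2 ≤ 0 := by
      have := (sq_lt_sq.2 h1).le
      linarith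
    rw [Real.sqrt_eq_zero_of_nonpos h2, mul_zero]
  have h1 : avr_P K R f u = ∫ t in Set.Icc (-|R|) |R|, Wd K f u t * √(R ^ 2 - t ^ 2) :=
    (setIntegral_eq_integral_of_forall_compl_eq_zero h0).symm
  have h2 : ∀ t ∈ Set.Icc (-|R|) |R|, ‖Wd K f u t * √(R ^ 2 - t ^ 2)‖ ≤ 2 * C * |R| := by
    intro t _
    rw [norm_mul, Real.norm_of_nonneg ((ccv_wd K hK f u h).2.1 t),
      Real.norm_of_nonneg (Real.sqrt_nonneg _)]
    have h3 : √(R ^ 2 - t ^ 2) ≤ |R| := by
      rw [← Real.sqrt_sq_eq_abs]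
      apply Real.sqrt_le_sqrt
      have := sq_nonneg t
      linarith
    exact mul_le_mul (hC1 f u h t) h3 (Real.sqrt_nonneg _) (by linarith)
  have h3 := norm_setIntegral_le_of_norm_le_const (μ := volume) (s := Set.Icc (-|R|) |R|)
    (by rw [Real.volume_Icc]; exact ENNReal.ofReal_lt_top) h2
  rw [← h1] at h3
  have h4 : (volume : Measure ℝ).real (Set.Icc (-|R|) |R|) = 2 * |R| := by
    rw [Real.volume_real_Icc_of_le (by have := abs_nonneg R; linarith)]
    ring
  rw [h4] at h3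
  exact h3

theorem avr_sym (K : Set E3) (R : ℝ) (f u : E3) :
    avr_P K R (-f) u = avr_P K R f u ∧ avr_P K R f (-u) = avr_P K R f u := by
  constructor
  · unfold avr_P
    congr 1
    funext t
    rw [(ccv_sym K f u t).1]
  · unfold avr_P
    rw [← integral_neg_eq_self (fun t => Wd K f u t * √(R ^ 2 - t ^ 2))]
    congr 1
    funext t
    rw [(ccv_sym K f u t).2, neg_sq]

theorem avr_main {Γ : Type} [MeasurableSpace Γ] {H : Measure Γ} {γ : Γ → (E3 ≃ₗᵢ[ℝ] E3)}
    (hH : STH.Haar H γ) (K : Set E3) (hK : CB K) (R : ℝ) (hR : K ⊆ Metric.closedBall 0 R)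
    (h0 : (0 : E3) ∈ K) :
    Integrable (fun g => ∫ t, Lt K (γ g (e 1)) (γ g (e 2)) t * √(R ^ 2 - t ^ 2)) H ∧
    8 / 3 * R * (∫ x, sh K x ∂sig) ≤
      ∫ g, (∫ t, Lt K (γ g (e 1)) (γ g (e 2)) t * √(R ^ 2 - t ^ 2)) ∂H := by
  have := hH.prob
  obtain ⟨C, hC⟩ := avr_bound K hK R
  obtain ⟨i1, i2, i3⟩ := rotB_main hH (avr_P K R)
    (fun F U hF hU h => avr_meas K hK R F U hF hU h) C hC
    (fun f u _ => (avr_sym K R f u).1) (fun f u _ => (avr_sym K R f u).2)
  have e1 : (fun g => ∫ t, Lt K (γ g (e 1)) (γ g (e 2)) t * √(R ^ 2 - t ^ 2)) =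
      fun g => ∫ φ in (0:ℝ)..Real.pi,
        avr_P K R (tw (γ g (e 1)) (γ g (e 2)) φ) (γ g (e 2)) := by
    funext g
    exact fub_wt K hK _ _ (rotA_on hH g) (fun t => √(R ^ 2 - t ^ 2)) (avr_q R)
  rw [e1]
  refine ⟨i1, ?_⟩
  rw [i3]
  obtain ⟨hsc, C', hC'⟩ := shm_cont K hK
  have n1 : ‖(e 1 : E3)‖ = 1 := by
    unfold e
    simp
  have m1 : Measurable (fun g => γ g (e 1)) := STH.haaB_meas hH (e 1)
  have e2 : ∫ x, sh K x ∂sig = ∫ g, sh K (γ g (e 1)) ∂H := by
    rw [← STH.avg_point hH (e 1) n1, integral_map m1.aemeasurable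
      hsc.measurable.aestronglyMeasurable]
  have i4 : Integrable (fun g => sh K (γ g (e 1))) H := by
    refine Integrable.of_bound (hsc.measurable.comp m1).aestronglyMeasurable C' ?_
    refine Filter.Eventually.of_forall fun g => ?_
    exact hC' _ (by rw [LinearIsometryEquiv.norm_map]; exact n1)
  rw [e2, ← integral_const_mul]
  refine integral_mono (i4.const_mul _) i2 fun g => ?_
  exact ray_main K hK R hR h0 _ _ (rotA_on hH g)

end STB
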