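import Mathlib
import Pool.Agent.Lib_helper15.STB.Defs

/-! # STB, block bwA : the measures of the superlevel sets of a concave function -/

open MeasureTheory Filter Topology
open scoped InnerProductSpace
open Pool.Agent.Lib_helper15.STE

namespace STB

/-- superlevel set -/
def bwA_A (a b : ℝ) (f : ℝ → ℝ) (s : ℝ) : Set ℝ := {t | t ∈ Set.Icc a b ∧ s ≤ f t}

theorem bwA_vol {A : Set ℝ} (hc : Convex ℝ A) (hn : A.Nonempty) (hb : BddBelow A)
    (ha : BddAbove A) : (volume A).toReal = sSup A - sInf A := by
  have h1 : Set.Ioo (sInf A) (sSup A) ⊆ A :=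
    IsConnected.Ioo_csInf_csSup_subset ⟨hn, hc.isPreconnected⟩ hb ha
  have h2 : A ⊆ Set.Icc (sInf A) (sSup A) := subset_Icc_csInf_csSup hb ha
  have h3 : volume A = ENNReal.ofReal (sSup A - sInf A) := by
    apply le_antisymm
    · calc volume A ≤ volume (Set.Icc (sInf A) (sSup A)) := measure_mono h2
        _ = _ := Real.volume_Icc
    · calc ENNReal.ofReal (sSup A - sInf A) = volume (Set.Ioo (sInf A) (sSup A)) :=
          Real.volume_Ioo.symm
        _ ≤ _ := measure_mono h1
  rw [h3, ENNReal.toReal_ofReal]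
  obtain ⟨x, hx⟩ := hn
  have := csInf_le hb hx
  have := le_csSup ha hx
  linarith

theorem bwA_bm {A B C : Set ℝ} (hA : Convex ℝ A) (hB : Convex ℝ B) (hC : Convex ℝ C)
    (hAn : A.Nonempty) (hBn : B.Nonempty) (hAb : BddBelow A) (hAa : BddAbove A)
    (hBb : BddBelow B) (hBa : BddAbove B) (hCb : BddBelow C) (hCa : BddAbove C)
    {p q : ℝ} (hp : 0 ≤ p) (hq : 0 ≤ q)
    (h : ∀ x ∈ A, ∀ y ∈ B, p * x + q * y ∈ C) :
    p * (volume A).toReal + q * (volume B).toReal ≤ (volume C).toReal := by
  have hCn : C.Nonempty := by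
    obtain ⟨x, hx⟩ := hAn
    obtain ⟨y, hy⟩ := hBn
    exact ⟨_, h x hx y hy⟩
  rw [bwA_vol hA hAn hAb hAa, bwA_vol hB hBn hBb hBa, bwA_vol hC hCn hCb hCa]
  have h1 : p * sSup A + q * sSup B ≤ sSup C := by
    by_contra hlt
    push Not at hlt
    have h2 : ∀ x ∈ A, ∀ y ∈ B, p * x + q * y ≤ sSup C := fun x hx y hy => le_csSup hCa (h x hx y hy)
    have h3 : ∀ x ∈ A, p * x + q * sSup B ≤ sSup C := by
      intro x hx
      rcases eq_or_lt_of_le hq with h0 | h0
      · obtain ⟨y, hy⟩ := hBn
        have := h2 x hx y hy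
        rw [← h0] at this ⊢
        simpa using this
      · have : sSup B ≤ (sSup C - p * x) / q := by
          apply csSup_le hBn
          intro y hy
          rw [le_div_iff₀ h0]
          have := h2 x hx y hy
          linarith
        rw [le_div_iff₀ h0] at this
        linarith
    have h4 : p * sSup A + q * sSup B ≤ sSup C := by
      rcases eq_or_lt_of_le hp with h0 | h0
      · obtain ⟨x, hx⟩ := hAn
        have := h3 x hx
        rw [← h0] at this ⊢
        simpa using this
      · have : sSup A ≤ (sSup C - q * sSup B) / p := by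
          apply csSup_le hAn
          intro x hx
          rw [le_div_iff₀ h0]
          have := h3 x hx
          linarith
        rw [le_div_iff₀ h0] at this
        linarith
    linarith
  have h2 : sInf C ≤ p * sInf A + q * sInf B := by
    have h2 : ∀ x ∈ A, ∀ y ∈ B, sInf C ≤ p * x + q * y := fun x hx y hy => csInf_le hCb (h x hx y hy)
    have h3 : ∀ x ∈ A, sInf C ≤ p * x + q * sInf B := by
      intro x hx
      rcases eq_or_lt_of_le hq with h0 | h0
      · obtain ⟨y, hy⟩ := hBn
        have := h2 x hx y hy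
        rw [← h0] at this ⊢
        simpa using this
      · have : (sInf C - p * x) / q ≤ sInf B := by
          apply le_csInf hBn
          intro y hy
          rw [div_le_iff₀ h0]
          have := h2 x hx y hy
          linarith
        rw [div_le_iff₀ h0] at this
        linarith
    rcases eq_or_lt_of_le hp with h0 | h0
    · obtain ⟨x, hx⟩ := hAn
      have := h3 x hx
      rw [← h0] at this ⊢
      simpa using this
    · have : (sInf C - q * sInf B) / p ≤ sInf A := by
        apply le_csInf hAn
        intro x hx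
        rw [div_le_iff₀ h0]
        have := h3 x hx
        linarith
      rw [div_le_iff₀ h0] at this
      linarith
  nlinarith

theorem bwA_main (a b : ℝ) (hab : a ≤ b) (f : ℝ → ℝ) (hc : ConcaveOn ℝ (Set.Icc a b) f)
    (h0 : ∀ t ∈ Set.Icc a b, 0 ≤ f t) :
    ∃ (M : ℝ) (m : ℝ → ℝ), 0 ≤ M ∧ ConcaveOn ℝ (Set.Icc 0 M) m ∧ (∀ s ∈ Set.Icc 0 M, 0 ≤ m s) ∧
      ∫ t in a..b, f t = ∫ s in (0:ℝ)..M, m s ∧
      ∫ t in a..b, f t ^ 2 = 2 * ∫ s in (0:ℝ)..M, s * m s ∧
      ∫ t in a..b, f t ^ 3 = 3 * ∫ s in (0:ℝ)..M, s ^ 2 * m s := by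
  have hne : (Set.Icc a b).Nonempty := Set.nonempty_Icc.2 hab
  have hbdd : BddAbove (f '' Set.Icc a b) := by
    refine ⟨2 * f ((a + b) / 2), ?_⟩
    rintro _ ⟨x, hx, rfl⟩
    have hx' : a + b - x ∈ Set.Icc a b := ⟨by linarith [hx.2], by linarith [hx.1]⟩
    have h1 := hc.2 hx hx' (by norm_num : (0:ℝ) ≤ 1 / 2) (by norm_num : (0:ℝ) ≤ 1 / 2) (by norm_num)
    have h2 := h0 _ hx'
    have h3 : (1 / 2 : ℝ) • x + (1 / 2 : ℝ) • (a + b - x) = (a + b) / 2 := by
      simp only [smul_eq_mul]; ring
    rw [h3] at h1
    simp only [smul_eq_mul] at h1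
    linarith
  set M := sSup (f '' Set.Icc a b) with hM
  have hfM : ∀ t ∈ Set.Icc a b, f t ≤ M := fun t ht => le_csSup hbdd ⟨t, ht, rfl⟩
  have hM0 : 0 ≤ M := by
    obtain ⟨x, hx⟩ := hne
    exact le_trans (h0 x hx) (hfM x hx)
  have hAsub : ∀ s, bwA_A a b f s ⊆ Set.Icc a b := fun s t ht => ht.1
  have hAb : ∀ s, BddBelow (bwA_A a b f s) := fun s => bddBelow_Icc.mono (hAsub s)
  have hAa : ∀ s, BddAbove (bwA_A a b f s) := fun s => bddAbove_Icc.mono (hAsub s)
  have hAc : ∀ s, Convex ℝ (bwA_A a b f s) := fun s => hc.convex_ge s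
  have hAfin : ∀ s, volume (bwA_A a b f s) ≠ ⊤ := fun s =>
    ne_top_of_le_ne_top (by rw [Real.volume_Icc]; exact ENNReal.ofReal_ne_top)
      (measure_mono (hAsub s))
  have hAn : ∀ s, s < M → (bwA_A a b f s).Nonempty := by
    intro s hs
    obtain ⟨y, ⟨x, hx, rfl⟩, hy⟩ := exists_lt_of_lt_csSup (hne.image f) hs
    exact ⟨x, hx, hy.le⟩
  set m : ℝ → ℝ := fun s => if s < M then (volume (bwA_A a b f s)).toReal else 0 with hm
  have hm0 : ∀ s, 0 ≤ m s := by
    intro s
    simp only [hm]
    split_ifs
    · exact ENNReal.toReal_nonneg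
    · exact le_rfl
  have hmM : ∀ s, M ≤ s → m s = 0 := by
    intro s hs
    simp only [hm]
    rw [if_neg (not_lt.2 hs)]
  have hmlt : ∀ s, s < M → m s = (volume (bwA_A a b f s)).toReal := by
    intro s hs
    simp only [hm]
    rw [if_pos hs]
  have hanti : Antitone m := by
    intro s s' hss
    rcases lt_or_ge s' M with h | h
    · rw [hmlt s' h, hmlt s (lt_of_le_of_lt hss h)]
      apply ENNReal.toReal_mono (hAfin s)
      apply measure_mono
      intro t ht
      exact ⟨ht.1, le_trans hss ht.2⟩
    · rw [hmM s' h]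
      exact hm0 s
  have hmeas : Measurable m := hanti.measurable
  -- concavity below `M`
  have hco : ∀ s s' p q : ℝ, s < M → s' < M → 0 ≤ p → 0 ≤ q → p + q = 1 →
      p * m s + q * m s' ≤ m (p * s + q * s') := by
    intro s s' p q hs hs' hp hq hpq
    have hlt : p * s + q * s' < M := by
      rcases eq_or_lt_of_le hp with h | h
      · have : q = 1 := by linarith
        rw [← h, this]; linarith
      · have h1 : p * s < p * M := mul_lt_mul_of_pos_left hs h
        have h2 : q * s' ≤ q * M := mul_le_mul_of_nonneg_left hs'.le hq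
        have h3 : p * M + q * M = M := by rw [← add_mul, hpq, one_mul]
        linarith
    rw [hmlt s hs, hmlt s' hs', hmlt _ hlt]
    apply bwA_bm (hAc s) (hAc s') (hAc _) (hAn s hs) (hAn s' hs') (hAb _) (hAa _) (hAb _) (hAa _)
      (hAb _) (hAa _) hp hq
    intro x hx y hy
    have h1 := hc.1 hx.1 hy.1 hp hq hpq
    have h2 := hc.2 hx.1 hy.1 hp hq hpq
    simp only [smul_eq_mul] at h1 h2
    refine ⟨h1, le_trans ?_ h2⟩
    have := mul_le_mul_of_nonneg_left hx.2 hp
    have := mul_le_mul_of_nonneg_left hy.2 hq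
    linarith
  -- the end point `M`
  have hend : ∀ s p q : ℝ, s < M → 0 < p → 0 < q → p + q = 1 → p * m s ≤ m (p * s + q * M) := by
    intro s p q hs hp hq hpq
    set t := p * s + q * M with ht
    have hst : s < t := by
      have : t = s + q * (M - s) := by rw [ht]; linear_combination s * hpq
      rw [this]
      have := mul_pos hq (sub_pos.2 hs)
      linarith
    have htM : t < M := by
      have : t = M - p * (M - s) := by rw [ht]; linear_combination M * hpq
      rw [this]
      have := mul_pos hp (sub_pos.2 hs)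
      linarith
    have h1 : ∀ s' ∈ Set.Ioo t M, (s' - t) * m s ≤ m t * (s' - s) := by
      intro s' hs'
      have hd : 0 < s' - s := by linarith [hs'.1]
      have h2 := hco s s' ((s' - t) / (s' - s)) ((t - s) / (s' - s)) hs hs'.2
        (div_nonneg (by linarith [hs'.1]) hd.le) (div_nonneg (by linarith) hd.le)
        (by field_simp; ring)
      have h3 : (s' - t) / (s' - s) * s + (t - s) / (s' - s) * s' = t := by
        field_simp
        ring
      rw [h3] at h2
      have h4 : 0 ≤ (t - s) / (s' - s) * m s' := mul_nonneg (div_nonneg (by linarith) hd.le) (hm0 _)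
      have h5 : (s' - t) / (s' - s) * m s ≤ m t := by linarith
      rw [div_mul_eq_mul_div, div_le_iff₀ hd] at h5
      exact h5
    have h2 : (M - t) * m s ≤ m t * (M - s) := by
      have hl : Tendsto (fun s' : ℝ => (s' - t) * m s) (𝓝[<] M) (𝓝 ((M - t) * m s)) := by
        apply tendsto_nhdsWithin_of_tendsto_nhds
        exact (Continuous.tendsto (by fun_prop) M)
      have hr : Tendsto (fun s' : ℝ => m t * (s' - s)) (𝓝[<] M) (𝓝 (m t * (M - s))) := by
        apply tendsto_nhdsWithin_of_tendsto_nhds
        exact (Continuous.tendsto (by fun_prop) M)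
      apply le_of_tendsto_of_tendsto hl hr
      filter_upwards [Ioo_mem_nhdsLT htM] with s' hs'
      exact h1 s' hs'
    have h3 : M - t = p * (M - s) := by rw [ht]; linear_combination -M * hpq
    rw [h3] at h2
    have h4 : 0 < M - s := sub_pos.2 hs
    have h5 : (p * m s) * (M - s) ≤ m t * (M - s) := by linarith
    exact le_of_mul_le_mul_right h5 h4
  have hconc : ConcaveOn ℝ (Set.Icc 0 M) m := by
    refine ⟨convex_Icc 0 M, ?_⟩
    intro s hs s' hs' p q hp hq hpq
    simp only [smul_eq_mul]
    rcases eq_or_lt_of_le hp with h | hp'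
    · have : q = 1 := by linarith
      rw [← h, this]; simp
    rcases eq_or_lt_of_le hq with h | hq'
    · have : p = 1 := by linarith
      rw [← h, this]; simp
    rcases lt_or_eq_of_le hs.2 with h1 | h1
    · rcases lt_or_eq_of_le hs'.2 with h2 | h2
      · exact hco s s' p q h1 h2 hp hq hpq
      · rw [h2, hmM M le_rfl]
        have := hend s p q h1 hp' hq' hpq
        linarith
    · rcases lt_or_eq_of_le hs'.2 with h2 | h2
      · rw [h1, hmM M le_rfl]
        have := hend s' q p h2 hq' hp' (by linarith)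
        rw [add_comm (p * M)]
        linarith
      · rw [h1, h2, hmM M le_rfl]
        have := hm0 (p * M + q * M)
        linarith
  -- measurability of `f`
  have hfm : AEMeasurable f (volume.restrict (Set.Icc a b)) := by
    have h1 : ContinuousOn f (Set.Ioo a b) := by
      have := hc.continuousOn_interior
      rwa [interior_Icc] at this
    have h2 : AEMeasurable f (volume.restrict (Set.Ioo a b)) := h1.aemeasurable measurableSet_Ioo
    rwa [Measure.restrict_congr_set Ioo_ae_eq_Icc] at h2
  have hfnn : 0 ≤ᵐ[volume.restrict (Set.Icc a b)] f := by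
    filter_upwards [ae_restrict_mem measurableSet_Icc] with t ht
    exact h0 t ht
  have hlayer : ∀ k : ℕ, ∫ t in a..b, f t ^ (k + 1) = (k + 1 : ℕ) * ∫ s in (0:ℝ)..M, s ^ k * m s := by
    intro k
    have h1 := lintegral_rpow_eq_lintegral_meas_le_mul (volume.restrict (Set.Icc a b)) hfnn hfm
      (p := ((k + 1 : ℕ) : ℝ)) (by positivity)
    have h2 : ∫⁻ t in Set.Ioi (0:ℝ), (volume.restrict (Set.Icc a b)) {x : ℝ | t ≤ f x} *
        ENNReal.ofReal (t ^ (((k + 1 : ℕ) : ℝ) - 1)) =
        ∫⁻ t in Set.Ioi (0:ℝ), ENNReal.ofReal (t ^ k * m t) := by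
      apply lintegral_congr_ae
      have hMne : ∀ᵐ t ∂(volume.restrict (Set.Ioi (0:ℝ))), t ∉ ({M} : Set ℝ) :=
        ae_restrict_of_ae ((Set.countable_singleton M).ae_notMem volume)
      filter_upwards [hMne, ae_restrict_mem measurableSet_Ioi] with t htM ht
      have ht0 : (0:ℝ) < t := ht
      have e1 : t ^ (((k + 1 : ℕ) : ℝ) - 1) = t ^ k := by
        have : ((k + 1 : ℕ) : ℝ) - 1 = (k : ℝ) := by push_cast; ring
        rw [this, Real.rpow_natCast]
      have e2 : (volume.restrict (Set.Icc a b)) {x : ℝ | t ≤ f x} = volume (bwA_A a b f t) := by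
        rw [Measure.restrict_apply' measurableSet_Icc]
        congr 1
        ext x
        constructor
        · rintro ⟨h1, h2⟩; exact ⟨h2, h1⟩
        · rintro ⟨h1, h2⟩; exact ⟨h2, h1⟩
      rw [e1, e2, mul_comm]
      rcases lt_or_ge t M with h | h
      · rw [hmlt t h, ENNReal.ofReal_mul (by positivity), ENNReal.ofReal_toReal (hAfin t)]
      · have h' : M < t := lt_of_le_of_ne h (fun e => htM (by rw [Set.mem_singleton_iff]; exact e.symm))
        rw [hmM t h]
        have : bwA_A a b f t = ∅ := by
          ext x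
          simp only [Set.mem_empty_iff_false, iff_false]
          intro hx
          have := hfM x hx.1
          have := hx.2
          linarith
        rw [this, measure_empty]
        simp
    rw [h2] at h1
    have h3 : ∫ t in a..b, f t ^ (k + 1) =
        (∫⁻ t in Set.Icc a b, ENNReal.ofReal (f t ^ ((k + 1 : ℕ) : ℝ))).toReal := by
      rw [intervalIntegral.integral_of_le hab, ← integral_Icc_eq_integral_Ioc,
        integral_eq_lintegral_of_nonneg_ae]
      · simp_rw [Real.rpow_natCast]
      · filter_upwards [ae_restrict_mem measurableSet_Icc] with t ht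
        exact pow_nonneg (h0 t ht) _
      · exact (hfm.pow_const _).aestronglyMeasurable
    have h4 : ∫ s in (0:ℝ)..M, s ^ k * m s =
        (∫⁻ t in Set.Ioi (0:ℝ), ENNReal.ofReal (t ^ k * m t)).toReal := by
      rw [intervalIntegral.integral_of_le hM0]
      have : ∫ s in Set.Ioc 0 M, s ^ k * m s = ∫ s in Set.Ioi 0, s ^ k * m s := by
        symm
        apply setIntegral_eq_of_subset_of_forall_sdiff_eq_zero measurableSet_Ioi
        · intro x hx; exact hx.1
        · intro x hx
          have hx1 : (0:ℝ) < x := hx.1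
          have : M ≤ x := by
            by_contra hlt
            push Not at hlt
            exact hx.2 ⟨hx1, hlt.le⟩
          rw [hmM x this, mul_zero]
      rw [this, integral_eq_lintegral_of_nonneg_ae]
      · filter_upwards [ae_restrict_mem measurableSet_Ioi] with t ht
        have ht' : (0:ℝ) < t := ht
        exact mul_nonneg (by positivity) (hm0 t)
      · exact ((measurable_id.pow_const k).mul hmeas).aestronglyMeasurable
    rw [h3, h4, h1, ENNReal.toReal_mul, ENNReal.toReal_ofReal (by positivity)]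
  refine ⟨M, m, hM0, hconc, fun s _ => hm0 s, ?_, ?_, ?_⟩
  · have := hlayer 0
    simpa using this
  · have := hlayer 1
    simpa using this
  · have := hlayer 2
    simpa using this

end STB
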