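import Pool.Agent.Lib_helper15.STB.Defs

/-! # STB, block bwB : comparison with a linear function -/

open MeasureTheory Filter Topology
open scoped InnerProductSpace
open Pool.Agent.Lib_helper15.STE

namespace STB

lemma bwB_slope {M : ℝ} {m : ℝ → ℝ} (hc : ConcaveOn ℝ (Set.Icc 0 M) m)
    (h0 : ∀ s ∈ Set.Icc 0 M, 0 ≤ m s) {x y : ℝ} (hx : 0 ≤ x) (hxy : x ≤ y) (hy : y ≤ M) :
    m x * (M - y) ≤ m y * (M - x) := by
  rcases eq_or_lt_of_le hxy with rfl | hlt
  · exact le_refl _
  have hMx : 0 < M - x := by linarith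
  have hxm : x ∈ Set.Icc 0 M := ⟨hx, hxy.trans hy⟩
  have hMm : M ∈ Set.Icc 0 M := ⟨hx.trans (hxy.trans hy), le_refl _⟩
  have h1 := hc.2 hxm hMm (show 0 ≤ (M - y) / (M - x) from div_nonneg (by linarith) hMx.le)
    (show 0 ≤ (y - x) / (M - x) from div_nonneg (by linarith) hMx.le)
    (by rw [← add_div, div_eq_one_iff_eq hMx.ne']; ring)
  simp only [smul_eq_mul] at h1
  have e : (M - y) / (M - x) * x + (y - x) / (M - x) * M = y := by
    field_simp
    ring
  rw [e] at h1
  have h2 : 0 ≤ (y - x) / (M - x) * m M := mul_nonneg (div_nonneg (by linarith) hMx.le) (h0 M hMm)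
  have h3 : (M - y) / (M - x) * m x ≤ m y := by linarith
  have h4 := mul_le_mul_of_nonneg_right h3 hMx.le
  have e2 : (M - y) / (M - x) * m x * (M - x) = m x * (M - y) := by
    field_simp
  rwa [e2] at h4

lemma bwB_int {M : ℝ} (hM : 0 < M) {m : ℝ → ℝ} (hc : ConcaveOn ℝ (Set.Icc 0 M) m)
    (h0 : ∀ s ∈ Set.Icc 0 M, 0 ≤ m s) : IntervalIntegrable m volume 0 M := by
  rw [intervalIntegrable_iff_integrableOn_Ioo_of_le hM.le]
  have hcont : ContinuousOn m (Set.Ioo 0 M) := by
    have := hc.continuousOn_interior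
    rwa [interior_Icc] at this
  refine IntegrableOn.of_bound (C := 2 * m (M / 2)) ?_
    (hcont.aestronglyMeasurable measurableSet_Ioo) ?_
  · rw [Real.volume_Ioo]
    exact ENNReal.ofReal_lt_top
  · refine (ae_restrict_iff' measurableSet_Ioo).2 (Eventually.of_forall fun s hs => ?_)
    have hs1 : s ∈ Set.Icc 0 M := ⟨hs.1.le, hs.2.le⟩
    have hs2 : M - s ∈ Set.Icc 0 M := ⟨by linarith [hs.2], by linarith [hs.1]⟩
    rw [Real.norm_of_nonneg (h0 s hs1)]
    have h1 := hc.2 hs1 hs2 (show (0:ℝ) ≤ 1 / 2 by norm_num) (show (0:ℝ) ≤ 1 / 2 by norm_num)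
      (by norm_num)
    simp only [smul_eq_mul] at h1
    have e : 1 / 2 * s + 1 / 2 * (M - s) = M / 2 := by ring
    rw [e] at h1
    have := h0 _ hs2
    linarith

theorem bwB_main (M : ℝ) (hM : 0 ≤ M) (m : ℝ → ℝ) (hc : ConcaveOn ℝ (Set.Icc 0 M) m)
    (h0 : ∀ s ∈ Set.Icc 0 M, 0 ≤ m s) :
    2 / 3 * (∫ s in (0:ℝ)..M, m s) * (∫ s in (0:ℝ)..M, s ^ 2 * m s) ≤
      (∫ s in (0:ℝ)..M, s * m s) ^ 2 := by
  rcases eq_or_lt_of_le hM with rfl | hMpos
  · simp
  have hm := bwB_int hMpos hc h0
  have hint : ∀ g : ℝ → ℝ, Continuous g → IntervalIntegrable (fun s => g s * m s) volume 0 M :=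
    fun g hg => hm.continuousOn_mul hg.continuousOn
  set I0 := ∫ s in (0:ℝ)..M, m s with hI0
  set I1 := ∫ s in (0:ℝ)..M, s * m s with hI1
  set I2 := ∫ s in (0:ℝ)..M, s ^ 2 * m s with hI2
  have hI0n : 0 ≤ I0 := intervalIntegral.integral_nonneg hM h0
  rcases eq_or_lt_of_le hI0n with hz | hI0p
  · rw [← hz]
    simp only [mul_zero, zero_mul]
    positivity
  have hlin : ∀ A B C : ℝ, ∫ s in (0:ℝ)..M, (A * s ^ 2 + B * s + C) * m s =
      A * I2 + B * I1 + C * I0 := by
    intro A B C
    have e : ∀ s : ℝ, (A * s ^ 2 + B * s + C) * m s =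
        A * (s ^ 2 * m s) + B * (s * m s) + C * m s := fun s => by ring
    simp only [e]
    rw [intervalIntegral.integral_add, intervalIntegral.integral_add,
      intervalIntegral.integral_const_mul, intervalIntegral.integral_const_mul,
      intervalIntegral.integral_const_mul]
    · exact (hint (fun s => s ^ 2) (by fun_prop)).const_mul A
    · exact (hint (fun s => s) (by fun_prop)).const_mul B
    · exact ((hint (fun s => s ^ 2) (by fun_prop)).const_mul A).add
        ((hint (fun s => s) (by fun_prop)).const_mul B)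
    · exact hm.const_mul C
  -- first step: the mean is at least M / 3
  have hmean : M / 3 * I0 ≤ I1 := by
    have h1 : 0 ≤ ∫ s in (0:ℝ)..M, ((M - M / 3) * ((s - M / 3) * m s) -
        m (M / 3) * ((M - s) * (s - M / 3))) := by
      refine intervalIntegral.integral_nonneg hM fun s hs => ?_
      have e : (M - M / 3) * ((s - M / 3) * m s) - m (M / 3) * ((M - s) * (s - M / 3)) =
        (s - M / 3) * (m s * (M - M / 3) - m (M / 3) * (M - s)) := by ring
      rw [e]
      rcases le_total s (M / 3) with h | h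
      · have := bwB_slope hc h0 hs.1 h (by linarith)
        exact mul_nonneg_of_nonpos_of_nonpos (by linarith) (by linarith)
      · have := bwB_slope hc h0 (show (0:ℝ) ≤ M / 3 by linarith) h hs.2
        exact mul_nonneg (by linarith) (by linarith)
    rw [intervalIntegral.integral_sub, intervalIntegral.integral_const_mul,
      intervalIntegral.integral_const_mul] at h1
    · have e1 : ∫ s in (0:ℝ)..M, (M - s) * (s - M / 3) = 0 := by
        have e : ∀ s : ℝ, (M - s) * (s - M / 3) = -(s ^ 2) + (4 * M / 3) * s - M ^ 2 / 3 :=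
          fun s => by ring
        simp only [e]
        rw [intervalIntegral.integral_sub, intervalIntegral.integral_add,
          intervalIntegral.integral_neg, intervalIntegral.integral_const_mul]
        · simp only [integral_pow, integral_id, intervalIntegral.integral_const, smul_eq_mul]
          norm_num
          ring
        · exact (by fun_prop : Continuous fun s : ℝ => -(s ^ 2)).intervalIntegrable _ _
        · exact (by fun_prop : Continuous fun s : ℝ => 4 * M / 3 * s).intervalIntegrable _ _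
        · exact (by fun_prop : Continuous fun s : ℝ => -(s ^ 2) + 4 * M / 3 * s).intervalIntegrable _ _
        · exact intervalIntegrable_const
      have e2 : ∫ s in (0:ℝ)..M, (s - M / 3) * m s = I1 - M / 3 * I0 := by
        have := hlin 0 1 (-(M / 3))
        rw [show I1 - M / 3 * I0 = 0 * I2 + 1 * I1 + -(M / 3) * I0 by ring, ← this]
        congr 1
        funext s
        ring
      rw [e1, e2, mul_zero, sub_zero] at h1
      have : 0 < M - M / 3 := by linarith
      have h2 := nonneg_of_mul_nonneg_right h1 this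
      linarith
    · exact (hint (fun s => s - M / 3) (by fun_prop)).const_mul _
    · exact (by fun_prop : Continuous fun s : ℝ =>
        m (M / 3) * ((M - s) * (s - M / 3))).intervalIntegrable _ _
  set T := 3 * I1 / I0 with hT
  have hTM : M ≤ T := by
    rw [hT, le_div_iff₀ hI0p]
    linarith
  have hTp : 0 < T := by linarith
  set c := 2 * I0 / T ^ 2 with hcdef
  have hcp : 0 < c := by positivity
  -- sign changes
  have hD : ConcaveOn ℝ (Set.Icc 0 M) (fun s => m s - c * (T - s)) := by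
    refine ⟨hc.1, fun x hx y hy a b ha hb hab => ?_⟩
    have := hc.2 hx hy ha hb hab
    simp only [smul_eq_mul] at this ⊢
    have e : a * (m x - c * (T - x)) + b * (m y - c * (T - y)) =
      (a * m x + b * m y) - c * ((a + b) * T - (a * x + b * y)) := by ring
    rw [e, hab, one_mul]
    linarith
  obtain ⟨s₁, s₂, hs₁, hs₂, hsg⟩ : ∃ s₁ s₂ : ℝ, s₁ ≤ M ∧ s₂ ≤ M ∧ ∀ s ∈ Set.Icc 0 M,
      (s - s₁) * (s - s₂) * (m s - c * (T - s)) ≤ 0 := by
    set S := {s ∈ Set.Icc 0 M | 0 ≤ m s - c * (T - s)} with hS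
    have hconv : Convex ℝ S := hD.convex_ge 0
    by_cases hne : S.Nonempty
    · have hbb : BddBelow S := ⟨0, fun s hs => hs.1.1⟩
      have hba : BddAbove S := ⟨M, fun s hs => hs.1.2⟩
      refine ⟨sInf S, sSup S, ?_, csSup_le hne fun s hs => hs.1.2, fun s hs => ?_⟩
      · obtain ⟨z, hz⟩ := hne
        exact (csInf_le hbb hz).trans hz.1.2
      rcases lt_trichotomy s (sInf S) with h | h | h
      · have hnot : s ∉ S := fun hh => absurd (csInf_le hbb hh) (not_le.2 h)
        have hneg : m s - c * (T - s) < 0 := by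
          by_contra hcon
          exact hnot ⟨hs, not_lt.1 hcon⟩
        have h2 : sInf S ≤ sSup S := by
          obtain ⟨z, hz⟩ := hne
          exact (csInf_le hbb hz).trans (le_csSup hba hz)
        exact mul_nonpos_of_nonneg_of_nonpos
          (mul_nonneg_of_nonpos_of_nonpos (by linarith) (by linarith)) hneg.le
      · rw [h]; simp
      · rcases lt_trichotomy s (sSup S) with h' | h' | h'
        · obtain ⟨x, hx, hxs⟩ := exists_lt_of_csInf_lt hne h
          obtain ⟨y, hy, hsy⟩ := exists_lt_of_lt_csSup hne h'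
          have hsS : s ∈ S := hconv.ordConnected.out hx hy ⟨hxs.le, hsy.le⟩
          exact mul_nonpos_of_nonpos_of_nonneg
            (mul_nonpos_of_nonneg_of_nonpos (by linarith) (by linarith)) hsS.2
        · rw [h']; simp
        · have hnot : s ∉ S := fun hh => absurd (le_csSup hba hh) (not_le.2 h')
          have hneg : m s - c * (T - s) < 0 := by
            by_contra hcon
            exact hnot ⟨hs, not_lt.1 hcon⟩
          exact mul_nonpos_of_nonneg_of_nonpos
            (mul_nonneg (by linarith) (by linarith)) hneg.le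
    · refine ⟨0, 0, hM, hM, fun s hs => ?_⟩
      have hneg : m s - c * (T - s) < 0 := by
        by_contra hcon
        exact hne ⟨s, hs, not_lt.1 hcon⟩
      exact mul_nonpos_of_nonneg_of_nonpos (mul_nonneg (by linarith [hs.1]) (by linarith [hs.1]))
        hneg.le
  obtain ⟨G, hG⟩ : ∃ G : ℝ → ℝ, G = fun s => c * (-(s ^ 4) / 4 + (T + s₁ + s₂) * s ^ 3 / 3 -
        (s₁ * s₂ + T * (s₁ + s₂)) * s ^ 2 / 2 + s₁ * s₂ * T * s) := ⟨_, rfl⟩
  have hpoly : ∀ x y : ℝ, ∫ s in x..y, (s - s₁) * (s - s₂) * (c * (T - s)) = G y - G x := by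
    intro x y
    refine intervalIntegral.integral_eq_sub_of_hasDerivAt (f := G) (fun s _ => ?_)
      ((by fun_prop : Continuous fun s : ℝ =>
        (s - s₁) * (s - s₂) * (c * (T - s))).intervalIntegrable _ _)
    have h1 : HasDerivAt (fun s : ℝ => c * (-(s ^ 4) / 4 + (T + s₁ + s₂) * s ^ 3 / 3 -
        (s₁ * s₂ + T * (s₁ + s₂)) * s ^ 2 / 2 + s₁ * s₂ * T * s))
        (c * (-(4 * s ^ 3) / 4 + (T + s₁ + s₂) * (3 * s ^ 2) / 3 -
        (s₁ * s₂ + T * (s₁ + s₂)) * (2 * s) / 2 + s₁ * s₂ * T * 1)) s := by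
      have h4 := hasDerivAt_pow 4 s
      have h3 := hasDerivAt_pow 3 s
      have h2 := hasDerivAt_pow 2 s
      norm_num at h4 h3 h2
      exact ((((h4.neg.div_const 4).add ((h3.const_mul _).div_const 3)).sub
        ((h2.const_mul _).div_const 2)).add ((hasDerivAt_id s).const_mul _)).const_mul c
    rw [hG]
    refine h1.congr_deriv ?_
    ring
  -- the comparison
  have hA : ∫ s in (0:ℝ)..M, (s - s₁) * (s - s₂) * (m s - c * (T - s)) ≤ 0 := by
    have := intervalIntegral.integral_nonneg (f := fun s => -((s - s₁) * (s - s₂) *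
      (m s - c * (T - s)))) (μ := volume) hM fun s hs => by
        have := hsg s hs
        linarith
    rw [intervalIntegral.integral_neg] at this
    linarith
  have hB : 0 ≤ ∫ s in M..T, (s - s₁) * (s - s₂) * (c * (T - s)) := by
    refine intervalIntegral.integral_nonneg hTM fun s hs => ?_
    exact mul_nonneg (mul_nonneg (by linarith [hs.1]) (by linarith [hs.1]))
      (mul_nonneg hcp.le (by linarith [hs.2]))
  have hA2 : ∫ s in (0:ℝ)..M, (s - s₁) * (s - s₂) * (m s - c * (T - s)) =
      (I2 - (s₁ + s₂) * I1 + s₁ * s₂ * I0) -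
        ∫ s in (0:ℝ)..M, (s - s₁) * (s - s₂) * (c * (T - s)) := by
    have h1 := hlin 1 (-(s₁ + s₂)) (s₁ * s₂)
    rw [show I2 - (s₁ + s₂) * I1 + s₁ * s₂ * I0 = 1 * I2 + -(s₁ + s₂) * I1 + s₁ * s₂ * I0 by ring,
      ← h1, ← intervalIntegral.integral_sub]
    · congr 1
      funext s
      ring
    · exact hint (fun s => 1 * s ^ 2 + -(s₁ + s₂) * s + s₁ * s₂) (by fun_prop)
    · exact (by fun_prop : Continuous fun s : ℝ =>
        (s - s₁) * (s - s₂) * (c * (T - s))).intervalIntegrable _ _
  rw [hA2, hpoly] at hA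
  rw [hpoly] at hB
  have hc2 : c * T ^ 2 = 2 * I0 := by
    rw [hcdef]; field_simp
  have hI1T : I1 = I0 * T / 3 := by
    rw [hT]; field_simp
  have key : I2 ≤ I0 * T ^ 2 / 6 := by
    have e1 : c * (-(T ^ 4) / 4 + (T + s₁ + s₂) * T ^ 3 / 3 -
        (s₁ * s₂ + T * (s₁ + s₂)) * T ^ 2 / 2 + s₁ * s₂ * T * T) =
        (c * T ^ 2) * (T ^ 2 / 12 - (s₁ + s₂) * T / 6 + s₁ * s₂ / 2) := by ring
    rw [hG] at hA hB
    simp only at hA hB
    rw [e1, hc2] at hB
    rw [hI1T] at hA
    norm_num at hA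
    nlinarith
  have hfin : 2 / 3 * I0 * I2 ≤ 2 / 3 * I0 * (I0 * T ^ 2 / 6) :=
    mul_le_mul_of_nonneg_left key (by positivity)
  refine hfin.trans (le_of_eq ?_)
  rw [hI1T]
  ring

end STB
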