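import Pool.Agent.Lib_helper15.STB.Defs
import Pool.Agent.Lib_helper15.STB.B.fraA
import Pool.Agent.Lib_helper15.STB.B.fraB

/-! # STB, block seg3 : adding a segment to a convex body (uses fraA, fraB) -/

open MeasureTheory Filter Topology
open scoped InnerProductSpace
open Pool.Agent.Lib_helper15.STE

namespace STB

/-- a convex body plus a segment -/
def seg3_P (K : Set E3) (f : E3) (p q : ℝ) : Set E3 :=
  {y : E3 | ∃ x ∈ K, ∃ s ∈ Set.Icc p q, y = x + s • f}

/-- fibre in the direction `f` -/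
def seg3_F (K : Set E3) (f u : E3) (t x : ℝ) : Set ℝ :=
  {r : ℝ | x • cr f u + r • f + t • u ∈ K}

theorem seg3_P_eq (K : Set E3) (f : E3) (p q : ℝ) :
    seg3_P K f p q = (fun z : E3 × ℝ => z.1 + z.2 • f) '' (K ×ˢ Set.Icc p q) := by
  ext y
  constructor
  · rintro ⟨x, hx, s, hs, rfl⟩
    exact ⟨(x, s), ⟨hx, hs⟩, rfl⟩
  · rintro ⟨⟨x, s⟩, ⟨hx, hs⟩, rfl⟩
    exact ⟨x, hx, s, hs, rfl⟩

theorem seg3_P_comp (K : Set E3) (hK : CB K) (f : E3) (p q : ℝ) :
    IsCompact (seg3_P K f p q) := by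
  rw [seg3_P_eq]
  exact (hK.comp.prod isCompact_Icc).image (by fun_prop)

theorem seg3_P_conv (K : Set E3) (hK : CB K) (f : E3) (p q : ℝ) :
    Convex ℝ (seg3_P K f p q) := by
  rintro y ⟨x, hx, s, hs, rfl⟩ y' ⟨x', hx', s', hs', rfl⟩ α β hα hβ hαβ
  refine ⟨α • x + β • x', hK.conv hx hx' hα hβ hαβ, α • s + β • s',
    convex_Icc p q hs hs' hα hβ hαβ, ?_⟩
  simp only [smul_add, add_smul, smul_eq_mul, mul_smul]
  abel

theorem seg3_u (f : E3) (hf : ‖f‖ = 1) : ∃ u : E3, ON f u := by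
  have hf0 : f ≠ 0 := by
    intro h
    rw [h, norm_zero] at hf
    exact zero_ne_one hf
  have : Fact (Module.finrank ℝ E3 = 2 + 1) := ⟨by simp⟩
  have h1 : Module.finrank ℝ (ℝ ∙ f)ᗮ = 2 := Submodule.finrank_orthogonal_span_singleton hf0
  have : Nontrivial (ℝ ∙ f)ᗮ := Module.nontrivial_of_finrank_pos (R := ℝ) (by rw [h1]; norm_num)
  obtain ⟨v, hv⟩ := exists_ne (0 : (ℝ ∙ f)ᗮ)
  have hv0 : (v : E3) ≠ 0 := fun h => hv (Subtype.ext h)
  have hn : ‖(v : E3)‖ ≠ 0 := norm_ne_zero_iff.2 hv0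
  have hor : ⟪f, (v : E3)⟫_ℝ = 0 :=
    (Submodule.mem_orthogonal _ _).1 v.2 f (Submodule.mem_span_singleton_self f)
  refine ⟨‖(v : E3)‖⁻¹ • (v : E3), hf, ?_, ?_⟩
  · rw [norm_smul, norm_inv, norm_norm, inv_mul_cancel₀ hn]
  · rw [inner_smul_right, hor, mul_zero]

theorem seg3_F_comp (K : Set E3) (hK : CB K) (f u : E3) (h : ON f u) (t x : ℝ) :
    IsCompact (seg3_F K f u t x) := by
  have hc : Continuous (fun r : ℝ => x • cr f u + r • f + t • u) := by fun_prop
  have hcl : IsClosed (seg3_F K f u t x) := hK.comp.isClosed.preimage hc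
  obtain ⟨C, hC⟩ := hK.comp.isBounded.exists_norm_le
  have hb : seg3_F K f u t x ⊆ Metric.closedBall 0 C := by
    intro r hr
    rw [mem_closedBall_zero_iff]
    have h1 : ‖x • cr f u + r • f + t • u‖ ≤ C := hC _ hr
    obtain ⟨-, -, h3, h4, -, -⟩ := fra_on' f u h
    have h5 : ⟪f, x • cr f u + r • f + t • u⟫_ℝ = r := by
      have e1 : ⟪f, cr f u⟫_ℝ = 0 := by rw [real_inner_comm]; exact h4.or
      have e2 : ⟪f, f⟫_ℝ = 1 := by rw [real_inner_self_eq_norm_sq, h.nf]; norm_num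
      rw [inner_add_right, inner_add_right, inner_smul_right, inner_smul_right, inner_smul_right,
        e1, e2, h.or]
      ring
    have h6 := abs_real_inner_le_norm f (x • cr f u + r • f + t • u)
    rw [h5, h.nf, one_mul] at h6
    exact h6.trans h1
  exact (Metric.isCompact_of_isClosed_isBounded hcl (Metric.isBounded_closedBall.subset hb))

theorem seg3_F_conv (K : Set E3) (hK : CB K) (f u : E3) (t x : ℝ) :
    Convex ℝ (seg3_F K f u t x) := by
  intro r hr r' hr' α β hα hβ hαβ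
  show x • cr f u + (α • r + β • r') • f + t • u ∈ K
  have h1 := hK.conv (show x • cr f u + r • f + t • u ∈ K from hr)
    (show x • cr f u + r' • f + t • u ∈ K from hr') hα hβ hαβ
  have hα' : α = 1 - β := by linarith
  convert h1 using 1
  simp only [smul_add, add_smul, smul_eq_mul, mul_smul]
  rw [hα']
  simp only [sub_smul, one_smul]
  abel

open Classical in
/-- indicator of a nonempty fibre -/
noncomputable def seg3_i (K : Set E3) (f u : E3) (t x : ℝ) : ENNReal :=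
  if (seg3_F K f u t x).Nonempty then 1 else 0

theorem seg3_F_P (K : Set E3) (f u : E3) (p q t x : ℝ) :
    seg3_F (seg3_P K f p q) f u t x = {r | ∃ s ∈ Set.Icc p q, r - s ∈ seg3_F K f u t x} := by
  ext r
  constructor
  · rintro ⟨y, hy, s, hs, h⟩
    refine ⟨s, hs, ?_⟩
    show x • cr f u + (r - s) • f + t • u ∈ K
    have h1 : x • cr f u + (r - s) • f + t • u = y := by
      have h2 : y = x • cr f u + r • f + t • u - s • f := by rw [h]; abel
      rw [h2, sub_smul]; abel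
    rw [h1]; exact hy
  · rintro ⟨s, hs, h⟩
    refine ⟨x • cr f u + (r - s) • f + t • u, h, s, hs, ?_⟩
    rw [sub_smul]; abel

theorem seg3_fib (K : Set E3) (hK : CB K) (f u : E3) (h : ON f u) (p q : ℝ) (hpq : p ≤ q)
    (t x : ℝ) : volume (seg3_F (seg3_P K f p q) f u t x) = volume (seg3_F K f u t x) +
      ENNReal.ofReal (q - p) * seg3_i K f u t x := by
  rw [seg3_F_P]
  by_cases hne : (seg3_F K f u t x).Nonempty
  · rw [seg3_i, if_pos hne, mul_one]
    have hc := seg3_F_comp K hK f u h t x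
    have hI : seg3_F K f u t x = Set.Icc (sInf (seg3_F K f u t x)) (sSup (seg3_F K f u t x)) := by
      refine Set.Subset.antisymm (fun r hr => ⟨csInf_le hc.bddBelow hr, le_csSup hc.bddAbove hr⟩) ?_
      exact (seg3_F_conv K hK f u t x).ordConnected.out (hc.sInf_mem hne) (hc.sSup_mem hne)
    have hle : sInf (seg3_F K f u t x) ≤ sSup (seg3_F K f u t x) :=
      (csInf_le hc.bddBelow (hc.sSup_mem hne))
    generalize sInf (seg3_F K f u t x) = α at hI hle
    generalize sSup (seg3_F K f u t x) = β at hI hle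
    rw [hI]
    have h2 : {r | ∃ s ∈ Set.Icc p q, r - s ∈ Set.Icc α β} = Set.Icc (α + p) (β + q) := by
      ext r
      constructor
      · rintro ⟨s, hs, h3⟩
        exact ⟨by linarith [hs.1, h3.1], by linarith [hs.2, h3.2]⟩
      · rintro ⟨h3, h4⟩
        refine ⟨max p (r - β), ⟨le_max_left _ _, max_le hpq (by linarith)⟩, ?_, ?_⟩
        · have : max p (r - β) ≤ r - α := max_le (by linarith) (by linarith)
          linarith
        · have : r - β ≤ max p (r - β) := le_max_right _ _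
          linarith
    rw [h2, Real.volume_Icc, Real.volume_Icc, ← ENNReal.ofReal_add (by linarith) (by linarith)]
    congr 1
    ring
  · rw [seg3_i, if_neg hne, mul_zero, add_zero]
    rw [Set.not_nonempty_iff_eq_empty] at hne
    rw [hne]
    simp

theorem seg3_meas (K : Set E3) (hK : CB K) (f u : E3) :
    Measurable (fun z : ℝ × ℝ => volume (seg3_F K f u z.1 z.2)) := by
  have hc : Continuous (fun z : (ℝ × ℝ) × ℝ => z.1.2 • cr f u + z.2 • f + z.1.1 • u) := by
    fun_prop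
  have hm : MeasurableSet ((fun z : (ℝ × ℝ) × ℝ => z.1.2 • cr f u + z.2 • f + z.1.1 • u) ⁻¹' K) :=
    hc.measurable hK.comp.isClosed.measurableSet
  exact measurable_measure_prodMk_left hm

theorem seg3_meas1 (K : Set E3) (hK : CB K) (f u : E3) (t : ℝ) :
    Measurable (fun x : ℝ => volume (seg3_F K f u t x)) := by
  have hc : Continuous (fun z : ℝ × ℝ => z.1 • cr f u + z.2 • f + t • u) := by
    fun_prop
  have hm : MeasurableSet ((fun z : ℝ × ℝ => z.1 • cr f u + z.2 • f + t • u) ⁻¹' K) :=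
    hc.measurable hK.comp.isClosed.measurableSet
  exact measurable_measure_prodMk_left hm

theorem seg3_meas2 (K : Set E3) (hK : CB K) (f u : E3) :
    Measurable (fun t : ℝ => ∫⁻ x : ℝ, volume (seg3_F K f u t x)) := by
  have hm := seg3_meas K hK f u
  exact hm.lintegral_prod_right'

theorem seg3_vol (K : Set E3) (hK : CB K) (f u : E3) (h : ON f u) (p q : ℝ) (hpq : p ≤ q) :
    volume (seg3_P K f p q) = volume K + ENNReal.ofReal (q - p) *
      ∫⁻ t : ℝ, ∫⁻ x : ℝ, seg3_i K f u t x := by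
  have h1 : volume (seg3_P K f p q) =
      ∫⁻ t : ℝ, ∫⁻ x : ℝ, volume (seg3_F (seg3_P K f p q) f u t x) :=
    fra_vol2 f u h _ (seg3_P_comp K hK f p q).isClosed.measurableSet
  have h2 : volume K = ∫⁻ t : ℝ, ∫⁻ x : ℝ, volume (seg3_F K f u t x) :=
    fra_vol2 f u h _ hK.comp.isClosed.measurableSet
  rw [h1, h2]
  have h3 : ∀ t : ℝ, ∫⁻ x : ℝ, volume (seg3_F (seg3_P K f p q) f u t x) =
      (∫⁻ x : ℝ, volume (seg3_F K f u t x)) + ENNReal.ofReal (q - p) *
        ∫⁻ x : ℝ, seg3_i K f u t x := by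
    intro t
    rw [lintegral_congr (fun x => seg3_fib K hK f u h p q hpq t x)]
    have hmt : Measurable (fun x : ℝ => volume (seg3_F K f u t x)) := seg3_meas1 K hK f u t
    rw [lintegral_add_left hmt]
    rw [lintegral_const_mul' _ _ ENNReal.ofReal_ne_top]
  rw [lintegral_congr h3]
  rw [lintegral_add_left (seg3_meas2 K hK f u)]
  rw [lintegral_const_mul' _ _ ENNReal.ofReal_ne_top]

theorem seg3_main (K : Set E3) (hK : CB K) (f : E3) (hf : ‖f‖ = 1) (a : ℝ) (ha : 0 ≤ a) :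
    volume {y : E3 | ∃ x ∈ K, ∃ s ∈ Set.Icc (-a) a, y = x + s • f} =
      volume K + ENNReal.ofReal (2 * a * sh K f) ∧
    CB {y : E3 | ∃ x ∈ K, ∃ s ∈ Set.Icc (-a) a, y = x + s • f} ∧
    K ⊆ {y : E3 | ∃ x ∈ K, ∃ s ∈ Set.Icc (-a) a, y = x + s • f} := by
  have hsub : K ⊆ {y : E3 | ∃ x ∈ K, ∃ s ∈ Set.Icc (-a) a, y = x + s • f} := by
    intro x hx
    exact ⟨x, hx, 0, ⟨by linarith, ha⟩, by rw [zero_smul, add_zero]⟩
  refine ⟨?_, ⟨seg3_P_conv K hK f (-a) a, seg3_P_comp K hK f (-a) a,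
    hK.int.mono (interior_mono hsub)⟩, hsub⟩
  obtain ⟨u, hu⟩ := seg3_u f hf
  have h1 := seg3_vol K hK f u hu (-a) a (by linarith)
  have h2 := seg3_vol K hK f u hu 0 1 zero_le_one
  generalize (∫⁻ t : ℝ, ∫⁻ x : ℝ, seg3_i K f u t x) = A
    at h1 h2
  have hKf : volume K ≠ ⊤ := hK.comp.measure_lt_top.ne
  have hPf : volume (seg3_P K f 0 1) ≠ ⊤ := (seg3_P_comp K hK f 0 1).measure_lt_top.ne
  rw [sub_zero, ENNReal.ofReal_one, one_mul] at h2
  have hA : A ≠ ⊤ := by
    intro hA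
    rw [hA, add_top] at h2
    exact hPf h2
  have hsh : sh K f = A.toReal := by
    have h3 : sh K f = (volume (seg3_P K f 0 1)).toReal - (volume K).toReal := rfl
    rw [h3, h2, ENNReal.toReal_add hKf hA]
    ring
  have h4 : volume {y : E3 | ∃ x ∈ K, ∃ s ∈ Set.Icc (-a) a, y = x + s • f} =
      volume (seg3_P K f (-a) a) := rfl
  rw [h4, h1, hsh, sub_neg_eq_add, ← two_mul,
    ENNReal.ofReal_mul (by linarith : (0 : ℝ) ≤ 2 * a), ENNReal.ofReal_toReal hA]

end STB
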