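import Pool.Agent.Lib_helper15.STB.Defs
import Pool.Agent.Lib_helper15.STB.B.seg3
import Pool.Agent.Lib_helper15.STB.B.shmB

/-! # STB, block plo3 : surface area and inscribed zonotopes -/

open MeasureTheory Filter Topology
open scoped InnerProductSpace
open Pool.Agent.Lib_helper15.STE

namespace STB

/-- the set `K` with the first `k` segments added -/
noncomputable def plo3_K (K : Set E3) (f : ℕ → E3) (ρ : ℕ → ℝ) (ε : ℝ) : ℕ → Set E3
  | 0 => K
  | k + 1 => {y : E3 | ∃ x ∈ plo3_K K f ρ ε k, ∃ s ∈ Set.Icc (-(ε * ρ k)) (ε * ρ k),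
      y = x + s • f k}

theorem plo3_basic (K : Set E3) (hK : CB K) (f : ℕ → E3) (ρ : ℕ → ℝ) (hf : ∀ j, ‖f j‖ = 1)
    (hρ : ∀ j, 0 ≤ ρ j) (ε : ℝ) (hε : 0 < ε) (k : ℕ) :
    CB (plo3_K K f ρ ε k) ∧ K ⊆ plo3_K K f ρ ε k ∧
    volume K + ENNReal.ofReal (ε * (2 * ∑ j ∈ Finset.range k, ρ j * sh K (f j))) ≤
      volume (plo3_K K f ρ ε k) := by
  have hpos : ∀ j, 0 ≤ sh K (f j) := fun j => ((shm_pos K hK).1 (f j) (hf j)).le
  induction k with
  | zero =>
    refine ⟨hK, subset_rfl, ?_⟩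
    simp [plo3_K]
  | succ k ih =>
    obtain ⟨h1, h3, h4⟩ := ih
    have ha : 0 ≤ ε * ρ k := mul_nonneg hε.le (hρ k)
    obtain ⟨hv, c1, c3⟩ := seg3_main (plo3_K K f ρ ε k) h1 (f k) (hf k) (ε * ρ k) ha
    refine ⟨c1, h3.trans c3, ?_⟩
    have hv' : volume (plo3_K K f ρ ε (k + 1)) = volume (plo3_K K f ρ ε k) +
        ENNReal.ofReal (2 * (ε * ρ k) * sh (plo3_K K f ρ ε k) (f k)) := hv
    rw [hv']
    have hw := shm_mono K (plo3_K K f ρ ε k) hK h1 h3 (f k) (hf k)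
    have hw0 := hpos k
    have hsum : 0 ≤ ∑ j ∈ Finset.range k, ρ j * sh K (f j) :=
      Finset.sum_nonneg fun j _ => mul_nonneg (hρ j) (hpos j)
    have e1 : ENNReal.ofReal (ε * (2 * ∑ j ∈ Finset.range (k + 1), ρ j * sh K (f j))) =
        ENNReal.ofReal (ε * (2 * ∑ j ∈ Finset.range k, ρ j * sh K (f j))) +
          ENNReal.ofReal (2 * (ε * ρ k) * sh K (f k)) := by
      rw [← ENNReal.ofReal_add (by positivity) (by have := hρ k; positivity)]
      congr 1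
      rw [Finset.sum_range_succ]
      ring
    rw [e1, ← add_assoc]
    refine add_le_add h4 (ENNReal.ofReal_le_ofReal ?_)
    exact mul_le_mul_of_nonneg_left hw (by have := hρ k; positivity)

theorem plo3_rep (K : Set E3) (f : ℕ → E3) (ρ : ℕ → ℝ) (ε : ℝ) (k : ℕ) (y : E3)
    (hy : y ∈ plo3_K K f ρ ε k) :
    ∃ x ∈ K, ∃ s : ℕ → ℝ, (∀ j, j < k → |s j| ≤ ε * ρ j) ∧
      y = x + ∑ j ∈ Finset.range k, s j • f j := by
  induction k generalizing y with
  | zero => exact ⟨y, hy, fun _ => 0, by simp, by simp⟩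
  | succ k ih =>
    obtain ⟨x, hx, s, hs, rfl⟩ := hy
    obtain ⟨x', hx', s', hs', rfl⟩ := ih x hx
    refine ⟨x', hx', fun j => if j = k then s else s' j, ?_, ?_⟩
    · intro j hj
      by_cases h : j = k
      · subst h
        simp only [if_true]
        exact abs_le.2 ⟨hs.1, hs.2⟩
      · simp only [h, if_false]
        exact hs' j (by omega)
    · rw [Finset.sum_range_succ]
      simp only [if_true]
      have : ∑ j ∈ Finset.range k, (if j = k then s else s' j) • f j =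
          ∑ j ∈ Finset.range k, s' j • f j := by
        refine Finset.sum_congr rfl fun j hj => ?_
        have : j ≠ k := (Finset.mem_range.1 hj).ne
        simp [this]
      rw [this, add_assoc]

theorem plo3_norm (n : ℕ) (f : ℕ → E3) (ρ : ℕ → ℝ)
    (hs : ∀ x : E3, ∑ j ∈ Finset.range n, ρ j * |⟪f j, x⟫_ℝ| ≤ ‖x‖) (ε : ℝ) (hε : 0 < ε)
    (s : ℕ → ℝ) (h : ∀ j, j < n → |s j| ≤ ε * ρ j) :
    ‖∑ j ∈ Finset.range n, s j • f j‖ ≤ ε := by
  set z : E3 := ∑ j ∈ Finset.range n, s j • f j with hz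
  have key : ‖z‖ * ‖z‖ ≤ ε * ‖z‖ := by
    calc ‖z‖ * ‖z‖ = ⟪z, z⟫_ℝ := (real_inner_self_eq_norm_mul_norm z).symm
      _ = ∑ j ∈ Finset.range n, s j * ⟪f j, z⟫_ℝ := by
          conv_lhs => rw [hz]
          rw [sum_inner]
          refine Finset.sum_congr rfl fun j _ => ?_
          rw [← hz, real_inner_smul_left]
      _ ≤ ∑ j ∈ Finset.range n, ε * (ρ j * |⟪f j, z⟫_ℝ|) := by
          refine Finset.sum_le_sum fun j hj => ?_
          calc s j * ⟪f j, z⟫_ℝ ≤ |s j * ⟪f j, z⟫_ℝ| := le_abs_self _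
            _ = |s j| * |⟪f j, z⟫_ℝ| := abs_mul _ _
            _ ≤ (ε * ρ j) * |⟪f j, z⟫_ℝ| :=
                mul_le_mul_of_nonneg_right (h j (Finset.mem_range.1 hj)) (abs_nonneg _)
            _ = ε * (ρ j * |⟪f j, z⟫_ℝ|) := by ring
      _ = ε * ∑ j ∈ Finset.range n, ρ j * |⟪f j, z⟫_ℝ| := by rw [Finset.mul_sum]
      _ ≤ ε * ‖z‖ := mul_le_mul_of_nonneg_left (hs z) hε.le
  by_contra hcon
  have hlt : ε < ‖z‖ := not_le.1 hcon
  have hpos : 0 < ‖z‖ := hε.trans hlt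
  nlinarith

theorem plo3_liminf {n : ℕ} (M : Set (EuclideanSpace ℝ (Fin n))) (hMc : IsCompact M) (c : ℝ)
    (N : ℝ → Set (EuclideanSpace ℝ (Fin n)))
    (h : ∀ ε : ℝ, 0 < ε → N ε ⊆ Metric.cthickening ε M ∧
      volume M + ENNReal.ofReal (ε * c) ≤ volume (N ε)) :
    ENNReal.ofReal c ≤ bd M := by
  unfold bd
  refine le_liminf_of_le (by isBoundedDefault) ?_
  filter_upwards [self_mem_nhdsWithin] with ε hε
  have hε' : 0 < ε := hε
  obtain ⟨h1, h2⟩ := h ε hε'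
  have hfin : volume M ≠ ⊤ := hMc.measure_lt_top.ne
  have hsub : M ⊆ Metric.cthickening ε M := Metric.self_subset_cthickening M
  rw [measure_sdiff hsub hMc.measurableSet.nullMeasurableSet hfin]
  have h3 : ENNReal.ofReal (ε * c) ≤ volume (Metric.cthickening ε M) - volume M := by
    refine ENNReal.le_sub_of_add_le_left hfin ?_
    exact h2.trans (measure_mono h1)
  have h4 : ENNReal.ofReal c = ENNReal.ofReal (ε * c) / ENNReal.ofReal ε := by
    rw [ENNReal.ofReal_mul hε'.le, mul_comm, ENNReal.mul_div_cancel_right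
      (by simpa using hε') ENNReal.ofReal_ne_top]
  rw [h4]
  exact ENNReal.div_le_div_right h3 _

theorem plo3_main (K : Set E3) (hK : CB K) (n : ℕ) (f : ℕ → E3) (ρ : ℕ → ℝ)
    (hf : ∀ j, ‖f j‖ = 1) (hρ : ∀ j, 0 ≤ ρ j)
    (hs : ∀ x : E3, ∑ j ∈ Finset.range n, ρ j * |⟪f j, x⟫_ℝ| ≤ ‖x‖) :
    ENNReal.ofReal (2 * ∑ j ∈ Finset.range n, ρ j * sh K (f j)) ≤ bd K := by
  refine plo3_liminf K hK.comp _ (fun ε => plo3_K K f ρ ε n) fun ε hε => ?_
  obtain ⟨-, -, h4⟩ := plo3_basic K hK f ρ hf hρ ε hε n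
  refine ⟨?_, h4⟩
  intro y hy
  obtain ⟨x, hx, s, h, rfl⟩ := plo3_rep K f ρ ε n y hy
  refine Metric.mem_cthickening_of_dist_le _ x ε K hx ?_
  rw [dist_eq_norm, add_sub_cancel_left]
  exact plo3_norm n f ρ hs ε hε s h

end STB
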