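import Pool.Agent.Lib_helper15.STB.Defs
import Pool.Agent.Lib_helper15.STB.B.seg3
import Pool.Agent.Lib_helper15.STB.B.shmB

/-! # STB, block pup3 : surface area and circumscribed zonotopes (uses seg3, shmB) -/

open MeasureTheory Filter Topology
open scoped InnerProductSpace
open Pool.Agent.Lib_helper15.STE

namespace STB

/-- adding the first `k` segments -/
def pup3_K (K : Set E3) (f : ℕ → E3) (b : ℕ → ℝ) : ℕ → Set E3
  | 0 => K
  | k + 1 => {y : E3 | ∃ x ∈ pup3_K K f b k, ∃ s ∈ Set.Icc (-b k) (b k), y = x + s • f k}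

theorem pup3_cb (K : Set E3) (hK : CB K) (f : ℕ → E3) (hf : ∀ j, ‖f j‖ = 1) (b : ℕ → ℝ)
    (hb : ∀ j, 0 ≤ b j) (k : ℕ) : CB (pup3_K K f b k) ∧ K ⊆ pup3_K K f b k ∧
      volume (pup3_K K f b k) = volume K +
        ∑ j ∈ Finset.range k, ENNReal.ofReal (2 * b j * sh (pup3_K K f b j) (f j)) := by
  induction k with
  | zero => exact ⟨hK, subset_rfl, by simp [pup3_K]⟩
  | succ k ih =>
    obtain ⟨h1, h2, h3⟩ := ih
    obtain ⟨h4, h5, h6⟩ := seg3_main _ h1 (f k) (hf k) (b k) (hb k)
    refine ⟨h5, h2.trans h6, ?_⟩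
    rw [Finset.sum_range_succ, ← add_assoc, ← h3]
    exact h4

theorem pup3_mem (K : Set E3) (f : ℕ → E3) (b : ℕ → ℝ) (x : E3) (hx : x ∈ K) (s : ℕ → ℝ)
    (hs : ∀ j, |s j| ≤ b j) (k : ℕ) :
    x + ∑ j ∈ Finset.range k, s j • f j ∈ pup3_K K f b k := by
  induction k with
  | zero => simpa [pup3_K] using hx
  | succ k ih =>
    refine ⟨_, ih, s k, abs_le.1 (hs k), ?_⟩
    rw [Finset.sum_range_succ, add_assoc]

theorem pup3_near (K : Set E3) (f : ℕ → E3) (hf : ∀ j, ‖f j‖ = 1) (b : ℕ → ℝ) (k : ℕ) (y : E3)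
    (hy : y ∈ pup3_K K f b k) : ∃ x ∈ K, ‖y - x‖ ≤ ∑ j ∈ Finset.range k, b j := by
  induction k generalizing y with
  | zero => exact ⟨y, hy, by simp⟩
  | succ k ih =>
    obtain ⟨z, hz, s, hs, rfl⟩ := hy
    obtain ⟨x, hx, hxz⟩ := ih z hz
    refine ⟨x, hx, ?_⟩
    rw [Finset.sum_range_succ]
    have e : z + s • f k - x = (z - x) + s • f k := by abel
    rw [e]
    refine (norm_add_le _ _).trans (add_le_add hxz ?_)
    rw [norm_smul, hf, mul_one, Real.norm_eq_abs]
    exact abs_le.2 hs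

/-- the zonotope contains the unit ball -/
theorem pup3_sep (n : ℕ) (f : ℕ → E3) (ρ : ℕ → ℝ) (hρ : ∀ j, 0 ≤ ρ j)
    (hs : ∀ x : E3, ‖x‖ ≤ ∑ j ∈ Finset.range n, ρ j * |⟪f j, x⟫_ℝ|) (z : E3) (hz : ‖z‖ ≤ 1) :
    ∃ s : ℕ → ℝ, (∀ j, |s j| ≤ ρ j) ∧ z = ∑ j ∈ Finset.range n, s j • f j := by
  set B : Set (ℕ → ℝ) := Set.pi Set.univ fun j => Set.Icc (-ρ j) (ρ j) with hB
  have hBc : IsCompact B := isCompact_univ_pi fun j => isCompact_Icc
  have hBv : Convex ℝ B := convex_pi fun j _ => convex_Icc _ _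
  let g : (ℕ → ℝ) →ₗ[ℝ] E3 :=
    { toFun := fun s => ∑ j ∈ Finset.range n, s j • f j
      map_add' := by
        intro s t
        simp only [Pi.add_apply, add_smul, Finset.sum_add_distrib]
      map_smul' := by
        intro c s
        simp only [Pi.smul_apply, smul_eq_mul, mul_smul, RingHom.id_apply, Finset.smul_sum] }
  have hgc : Continuous g := by
    change Continuous fun s : ℕ → ℝ => ∑ j ∈ Finset.range n, s j • f j
    exact continuous_finsetSum _ fun j _ => (continuous_apply j).smul continuous_const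
  have hZc : IsCompact (g '' B) := hBc.image hgc
  have hZv : Convex ℝ (g '' B) := hBv.linear_image g
  by_cases h : z ∈ g '' B
  · obtain ⟨s, hsB, rfl⟩ := h
    refine ⟨s, fun j => ?_, rfl⟩
    exact abs_le.2 (hsB j (Set.mem_univ j))
  · exfalso
    obtain ⟨l, u, hl1, hl2⟩ := geometric_hahn_banach_closed_point hZv hZc.isClosed h
    set x : E3 := (InnerProductSpace.toDual ℝ E3).symm l with hx
    have hlx : ∀ y, l y = ⟪x, y⟫_ℝ := fun y => by
      rw [hx, InnerProductSpace.toDual_symm_apply]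
    set s : ℕ → ℝ := fun j => if 0 ≤ ⟪f j, x⟫_ℝ then ρ j else -ρ j with hsdef
    have hsB : s ∈ B := by
      intro j _
      have := hρ j
      simp only [hsdef]
      split_ifs
      · exact ⟨by linarith, le_refl _⟩
      · exact ⟨le_refl _, by linarith⟩
    have h1 := hl1 (g s) ⟨s, hsB, rfl⟩
    have h2 : l (g s) = ∑ j ∈ Finset.range n, ρ j * |⟪f j, x⟫_ℝ| := by
      rw [hlx]
      change ⟪x, ∑ j ∈ Finset.range n, s j • f j⟫_ℝ = _
      rw [inner_sum]
      refine Finset.sum_congr rfl fun j _ => ?_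
      rw [real_inner_smul_right, real_inner_comm]
      simp only [hsdef]
      split_ifs with h3
      · rw [abs_of_nonneg h3]
      · rw [abs_of_neg (not_le.1 h3)]; ring
    have h3 : l z ≤ ‖x‖ := by
      rw [hlx]
      have := real_inner_le_norm x z
      have h4 := norm_nonneg x
      nlinarith
    have h4 := hs x
    linarith

/-- all sets are in a homothetic copy of `K` -/
theorem pup3_hom (K : Set E3) (hK : CB K) (c : E3) (r : ℝ)
    (hc : Metric.closedBall c r ⊆ K) (η : ℝ) (hη : 0 ≤ η) (y x : E3) (hx : x ∈ K)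
    (hy : ‖y - x‖ ≤ η * r) : y ∈ (fun z => (-η) • c + (1 + η) • z) '' K := by
  rcases hη.eq_or_lt with h0 | h0
  · subst h0
    rw [zero_mul] at hy
    have : y = x := by
      rw [← sub_eq_zero]
      exact norm_le_zero_iff.1 hy
    refine ⟨x, hx, ?_⟩
    rw [this]
    simp
  · have hm : c + η⁻¹ • (y - x) ∈ K := by
      apply hc
      rw [Metric.mem_closedBall, dist_eq_norm, add_sub_cancel_left, norm_smul, norm_inv,
        Real.norm_eq_abs, abs_of_pos h0]
      rw [inv_mul_le_iff₀ h0]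
      exact hy
    have h1 : 0 < 1 + η := by linarith
    refine ⟨(1 + η)⁻¹ • x + (η * (1 + η)⁻¹) • (c + η⁻¹ • (y - x)), ?_, ?_⟩
    · apply hK.conv hx hm (by positivity) (by positivity)
      field_simp
    · simp only [smul_add, smul_smul]
      have e1 : (1 + η) * (1 + η)⁻¹ = 1 := mul_inv_cancel₀ h1.ne'
      have e2 : (1 + η) * (η * (1 + η)⁻¹) = η := by field_simp
      have e3 : (1 + η) * (η * (1 + η)⁻¹ * η⁻¹) = 1 := by field_simp
      rw [e1, e2, e3]
      simp only [one_smul, neg_smul]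
      abel

theorem pup3_cbh (K : Set E3) (hK : CB K) (c : E3) (r : ℝ) (hr : 0 < r) :
    CB ((fun x => c + r • x) '' K) := by
  refine ⟨hK.conv.affinity c r, hK.comp.image (by fun_prop), ?_⟩
  obtain ⟨x, hx⟩ := hK.int
  refine ⟨c + r • x, ?_⟩
  have hop : IsOpen ((fun x : E3 => c + r • x) '' interior K) := by
    have h1 : (fun x : E3 => c + r • x) = (fun y => c + y) ∘ (fun x => r • x) := rfl
    rw [h1, Set.image_comp]
    exact (isOpenMap_add_left c) _ ((isOpenMap_smul₀ hr.ne') _ isOpen_interior)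
  exact mem_interior.2 ⟨_, Set.image_mono interior_subset, hop, ⟨x, hx, rfl⟩⟩

theorem pup3_main (K : Set E3) (hK : CB K) (n : ℕ) (f : ℕ → E3) (ρ : ℕ → ℝ)
    (hf : ∀ j, ‖f j‖ = 1) (hρ : ∀ j, 0 ≤ ρ j)
    (hs : ∀ x : E3, ‖x‖ ≤ ∑ j ∈ Finset.range n, ρ j * |⟪f j, x⟫_ℝ|) :
    bd K ≤ ENNReal.ofReal (2 * ∑ j ∈ Finset.range n, ρ j * sh K (f j)) := by
  obtain ⟨c, hc⟩ := hK.int
  obtain ⟨r, hr, hcr⟩ := Metric.isOpen_iff.1 isOpen_interior c hc
  have hball : Metric.closedBall c (r / 2) ⊆ K := by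
    refine ((Metric.closedBall_subset_ball (by linarith)).trans hcr).trans interior_subset
  have hr2 : 0 < r / 2 := by linarith
  set R : ℝ := ∑ j ∈ Finset.range n, ρ j with hR
  have hR0 : 0 ≤ R := Finset.sum_nonneg fun j _ => hρ j
  set S : ℝ := ∑ j ∈ Finset.range n, ρ j * sh K (f j) with hS
  have hshp : ∀ x, ‖x‖ = 1 → 0 < sh K x := (shm_pos K hK).1
  have hS0 : 0 ≤ S := Finset.sum_nonneg fun j _ => mul_nonneg (hρ j) (hshp _ (hf j)).le
  -- the bound for one `ε`
  have key : ∀ ε : ℝ, 0 < ε → volume (Metric.cthickening ε K \ K) / ENNReal.ofReal ε ≤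
      ENNReal.ofReal (2 * ((1 + ε * R / (r / 2)) ^ 2 * S)) := by
    intro ε hε
    set b : ℕ → ℝ := fun j => ε * ρ j with hb
    have hb0 : ∀ j, 0 ≤ b j := fun j => mul_nonneg hε.le (hρ j)
    set η : ℝ := ε * R / (r / 2) with hη
    have hη0 : 0 ≤ η := by positivity
    have hηr : η * (r / 2) = ε * R := by rw [hη]; field_simp
    -- inclusion
    have hincl : Metric.cthickening ε K ⊆ pup3_K K f b n := by
      intro y hy
      rw [hK.comp.cthickening_eq_biUnion_closedBall hε.le] at hy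
      obtain ⟨x, hx, hxy⟩ := Set.mem_iUnion₂.1 hy
      rw [Metric.mem_closedBall, dist_eq_norm] at hxy
      obtain ⟨s, hs1, hs2⟩ := pup3_sep n f ρ hρ hs (ε⁻¹ • (y - x)) (by
        rw [norm_smul, norm_inv, Real.norm_eq_abs, abs_of_pos hε, inv_mul_le_iff₀ hε, mul_one]
        exact hxy)
      have h1 := pup3_mem K f b x hx (fun j => ε * s j) (fun j => by
        rw [abs_mul, abs_of_pos hε]
        exact mul_le_mul_of_nonneg_left (hs1 j) hε.le) n
      have h2 : y = x + ∑ j ∈ Finset.range n, (ε * s j) • f j := by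
        have h3 : ∑ j ∈ Finset.range n, (ε * s j) • f j = ε • ∑ j ∈ Finset.range n, s j • f j := by
          rw [Finset.smul_sum]
          exact Finset.sum_congr rfl fun j _ => by rw [mul_smul]
        rw [h3, ← hs2, smul_smul, mul_inv_cancel₀ hε.ne', one_smul]
        abel
      rw [h2]
      exact h1
    obtain ⟨hcb, hsub, hvol⟩ := pup3_cb K hK f hf b hb0 n
    -- shadows
    have hsh : ∀ j ∈ Finset.range n, sh (pup3_K K f b j) (f j) ≤ (1 + η) ^ 2 * sh K (f j) := by
      intro j hj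
      obtain ⟨hcbj, -, -⟩ := pup3_cb K hK f hf b hb0 j
      have h1 : pup3_K K f b j ⊆ (fun z => (-η) • c + (1 + η) • z) '' K := by
        intro y hy
        obtain ⟨x, hx, hxy⟩ := pup3_near K f hf b j y hy
        refine pup3_hom K hK c (r / 2) hball η hη0 y x hx (hxy.trans ?_)
        rw [hηr, hR, Finset.mul_sum]
        exact Finset.sum_le_sum_of_subset_of_nonneg
          (Finset.range_mono (Finset.mem_range.1 hj).le) fun i _ _ => hb0 i
      have h2 := shm_mono _ _ hcbj (pup3_cbh K hK ((-η) • c) (1 + η) (by linarith)) h1 (f j) (hf j)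
      rwa [shm_homothety K hK ((-η) • c) (1 + η) (by linarith) (f j) (hf j)] at h2
    have hfin : volume K ≠ ⊤ := hK.comp.measure_lt_top.ne
    have h1 : volume (Metric.cthickening ε K \ K) ≤
        ENNReal.ofReal (ε * (2 * ((1 + η) ^ 2 * S))) := by
      calc volume (Metric.cthickening ε K \ K) ≤ volume (pup3_K K f b n \ K) :=
            measure_mono (Set.sdiff_subset_sdiff_left hincl)
        _ = volume (pup3_K K f b n) - volume K :=
            measure_sdiff hsub hK.comp.measurableSet.nullMeasurableSet hfin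
        _ = ∑ j ∈ Finset.range n, ENNReal.ofReal (2 * b j * sh (pup3_K K f b j) (f j)) := by
            rw [hvol]
            exact ENNReal.add_sub_cancel_left hfin
        _ ≤ ∑ j ∈ Finset.range n, ENNReal.ofReal (2 * b j * ((1 + η) ^ 2 * sh K (f j))) := by
            refine Finset.sum_le_sum fun j hj => ENNReal.ofReal_le_ofReal ?_
            exact mul_le_mul_of_nonneg_left (hsh j hj) (mul_nonneg zero_le_two (hb0 j))
        _ = ENNReal.ofReal (∑ j ∈ Finset.range n, 2 * b j * ((1 + η) ^ 2 * sh K (f j))) := by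
            rw [ENNReal.ofReal_sum_of_nonneg]
            intro j _
            have := hb0 j
            have := (hshp _ (hf j)).le
            positivity
        _ = ENNReal.ofReal (ε * (2 * ((1 + η) ^ 2 * S))) := by
            congr 1
            rw [hS, Finset.mul_sum, Finset.mul_sum, Finset.mul_sum]
            refine Finset.sum_congr rfl fun j _ => ?_
            simp only [hb]
            ring
    have hε' : ENNReal.ofReal ε ≠ 0 := by
      rw [Ne, ENNReal.ofReal_eq_zero]; linarith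
    rw [ENNReal.div_le_iff hε' ENNReal.ofReal_ne_top, mul_comm, ← ENNReal.ofReal_mul hε.le]
    exact h1
  -- the limit
  have hlim : Tendsto (fun ε : ℝ => ENNReal.ofReal (2 * ((1 + ε * R / (r / 2)) ^ 2 * S)))
      (𝓝[>] (0:ℝ)) (𝓝 (ENNReal.ofReal (2 * S))) := by
    apply ENNReal.tendsto_ofReal
    have h1 : Tendsto (fun ε : ℝ => 2 * ((1 + ε * R / (r / 2)) ^ 2 * S)) (𝓝 0)
        (𝓝 (2 * ((1 + 0 * R / (r / 2)) ^ 2 * S))) := by
      apply Continuous.tendsto
      fun_prop
    have h2 : 2 * ((1 + 0 * R / (r / 2)) ^ 2 * S) = 2 * S := by simp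
    rw [h2] at h1
    exact h1.mono_left nhdsWithin_le_nhds
  unfold bd
  rw [← hlim.liminf_eq]
  refine Filter.liminf_le_liminf ?_ (by isBoundedDefault) (by isBoundedDefault)
  filter_upwards [self_mem_nhdsWithin] with ε hε
  exact key ε hε

end STB
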