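import Pool.Agent.Lib_helper15.STB.Defs
import Pool.Agent.Lib_helper15.STE.B.sigA

/-! # STB, block qua : quadrature on the sphere -/

open MeasureTheory Filter Topology
open scoped InnerProductSpace
open Pool.Agent.Lib_helper15.STE

namespace STB

theorem qua_pts (δ : ℝ) (hδ : 0 < δ) : ∃ (n : ℕ) (c : ℕ → E3), (∀ j, ‖c j‖ = 1) ∧
    ∀ x : E3, ‖x‖ = 1 → ∃ j < n, dist x (c j) < δ := by
  have hc : IsCompact (Metric.sphere (0 : E3) 1) := isCompact_sphere 0 1
  obtain ⟨t, hts, htf, hcov⟩ := hc.finite_cover_balls hδ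
  have he : ‖(EuclideanSpace.single (0 : Fin 3) (1 : ℝ) : E3)‖ = 1 := by simp
  set L := htf.toFinset.toList with hL
  refine ⟨L.length, fun j => L.getD j (EuclideanSpace.single (0 : Fin 3) (1 : ℝ)), ?_, ?_⟩
  · intro j
    by_cases hj : j < L.length
    · have h1 : L.getD j (EuclideanSpace.single (0 : Fin 3) (1 : ℝ)) = L[j] := by
        simp [List.getD_eq_getElem?_getD, hj]
      have hLt : ∀ z, z ∈ L → z ∈ t := by
        intro z hz
        rw [hL, Finset.mem_toList, Set.Finite.mem_toFinset] at hz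
        exact hz
      have h3 := hts (hLt _ (List.getElem_mem hj))
      rw [mem_sphere_zero_iff_norm] at h3
      show ‖L.getD j (EuclideanSpace.single (0 : Fin 3) (1 : ℝ))‖ = 1
      rw [h1]
      exact h3
    · have h1 : L.getD j (EuclideanSpace.single (0 : Fin 3) (1 : ℝ)) =
          EuclideanSpace.single (0 : Fin 3) (1 : ℝ) := by
        simp [List.getD_eq_getElem?_getD, hj]
      show ‖L.getD j (EuclideanSpace.single (0 : Fin 3) (1 : ℝ))‖ = 1
      rw [h1]
      exact he
  · intro x hx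
    have h1 : x ∈ Metric.sphere (0 : E3) 1 := by simpa using hx
    obtain ⟨y, hy, hxy⟩ := Set.mem_iUnion₂.mp (hcov h1)
    have h2 : y ∈ L := by
      rw [hL, Finset.mem_toList, Set.Finite.mem_toFinset]
      exact hy
    obtain ⟨j, hj, hjy⟩ := List.getElem_of_mem h2
    refine ⟨j, hj, ?_⟩
    have h3 : L.getD j (EuclideanSpace.single (0 : Fin 3) (1 : ℝ)) = y := by
      rw [← hjy]
      simp [List.getD_eq_getElem?_getD, hj]
    show dist x (L.getD j (EuclideanSpace.single (0 : Fin 3) (1 : ℝ))) < δ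
    rw [h3]
    exact hxy

/-- the parts -/
def qua_D (c : ℕ → E3) (δ : ℝ) (j : ℕ) : Set E3 :=
  Metric.ball (c j) δ ∩ ⋂ i ∈ Finset.range j, (Metric.ball (c i) δ)ᶜ

theorem qua_meas (c : ℕ → E3) (δ : ℝ) (j : ℕ) : MeasurableSet (qua_D c δ j) := by
  apply Metric.isOpen_ball.measurableSet.inter
  apply Finset.measurableSet_biInter
  intro i _
  exact Metric.isOpen_ball.measurableSet.compl

theorem qua_unique (c : ℕ → E3) (δ : ℝ) (n : ℕ) (x : E3) (hx : ∃ j < n, dist x (c j) < δ) :
    ∃ j < n, dist x (c j) < δ ∧ ∀ v : ℕ → ℝ,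
      ∑ i ∈ Finset.range n, (qua_D c δ i).indicator (fun _ => v i) x = v j := by
  classical
  obtain ⟨hj1, hj2⟩ := Nat.find_spec hx
  refine ⟨Nat.find hx, hj1, hj2, fun v => ?_⟩
  have hmem : x ∈ qua_D c δ (Nat.find hx) := by
    refine ⟨hj2, ?_⟩
    rw [Set.mem_iInter₂]
    intro i hi
    rw [Finset.mem_range] at hi
    intro hc
    exact Nat.find_min hx hi ⟨lt_trans hi hj1, hc⟩
  rw [Finset.sum_eq_single (Nat.find hx)]
  · rw [Set.indicator_of_mem hmem]
  · intro i hi hne
    rw [Finset.mem_range] at hi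
    apply Set.indicator_of_notMem
    intro hc
    rcases lt_or_gt_of_ne hne with h | h
    · exact Nat.find_min hx h ⟨hi, hc.1⟩
    · have h2 := Set.mem_iInter₂.mp hc.2 (Nat.find hx) (Finset.mem_range.mpr h)
      exact h2 hj2
  · intro h
    exact absurd (Finset.mem_range.mpr hj1) h

theorem qua_sum (c : ℕ → E3) (δ : ℝ) (n : ℕ) (v : ℕ → ℝ) :
    ∑ j ∈ Finset.range n, (sig (qua_D c δ j)).toReal * v j =
      ∫ x, ∑ j ∈ Finset.range n, (qua_D c δ j).indicator (fun _ => v j) x ∂sig := by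
  have hP := sigA_prob
  rw [integral_finsetSum]
  · apply Finset.sum_congr rfl
    intro j _
    rw [integral_indicator_const _ (qua_meas c δ j)]
    rfl
  · intro j _
    exact (integrable_const (v j)).indicator (qua_meas c δ j)

theorem qua_main (δ : ℝ) (hδ : 0 < δ) : ∃ (n : ℕ) (f : ℕ → E3) (w : ℕ → ℝ),
    (∀ j, ‖f j‖ = 1) ∧ (∀ j, 0 ≤ w j) ∧ ∑ j ∈ Finset.range n, w j = 1 ∧
    ∀ (h : E3 → ℝ) (ω : ℝ), Measurable h →
      (∀ x y, ‖x‖ = 1 → ‖y‖ = 1 → ‖x - y‖ ≤ δ → |h x - h y| ≤ ω) →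
      |∑ j ∈ Finset.range n, w j * h (f j) - ∫ x, h x ∂sig| ≤ ω := by
  have hP := sigA_prob
  obtain ⟨n, c, hc, hcov⟩ := qua_pts δ hδ
  refine ⟨n, c, fun j => (sig (qua_D c δ j)).toReal, hc, fun j => ENNReal.toReal_nonneg, ?_, ?_⟩
  · have h1 := qua_sum c δ n (fun _ => 1)
    simp only [mul_one] at h1
    rw [h1]
    have h2 : ∫ x, ∑ j ∈ Finset.range n, (qua_D c δ j).indicator (fun _ => (1 : ℝ)) x ∂sig =
        ∫ x : E3, (1 : ℝ) ∂sig := by
      apply integral_congr_ae
      filter_upwards [sigA_sphere] with x hx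
      obtain ⟨j, _, _, hj⟩ := qua_unique c δ n x (hcov x hx)
      exact hj (fun _ => 1)
    rw [h2]
    simp
  · intro h ω hm hω
    have h1 := qua_sum c δ n (fun j => h (c j))
    show |∑ j ∈ Finset.range n, (sig (qua_D c δ j)).toReal * h (c j) - ∫ x, h x ∂sig| ≤ ω
    rw [h1]
    have hI : Integrable h sig := by
      refine Integrable.of_bound hm.aestronglyMeasurable
        (ω + ∑ j ∈ Finset.range n, |h (c j)|) ?_
      filter_upwards [sigA_sphere] with x hx
      obtain ⟨j, hjn, hjx⟩ := hcov x hx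
      have h2 := hω x (c j) hx (hc j) (by rw [← dist_eq_norm]; exact hjx.le)
      have h3 : |h (c j)| ≤ ∑ i ∈ Finset.range n, |h (c i)| :=
        Finset.single_le_sum (f := fun i => |h (c i)|) (fun i _ => abs_nonneg _)
          (Finset.mem_range.mpr hjn)
      rw [Real.norm_eq_abs]
      have h4 : |h x| ≤ |h x - h (c j)| + |h (c j)| := by
        calc |h x| = |(h x - h (c j)) + h (c j)| := by ring_nf
          _ ≤ _ := abs_add_le _ _
      linarith
    have hS : Integrable (fun x => ∑ j ∈ Finset.range n,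
        (qua_D c δ j).indicator (fun _ => h (c j)) x) sig := by
      apply integrable_finsetSum
      intro j _
      exact (integrable_const (h (c j))).indicator (qua_meas c δ j)
    rw [← integral_sub hS hI]
    have h5 := norm_integral_le_of_norm_le_const (μ := sig) (C := ω)
      (f := fun x => ∑ j ∈ Finset.range n, (qua_D c δ j).indicator (fun _ => h (c j)) x - h x) (by
        filter_upwards [sigA_sphere] with x hx
        obtain ⟨j, _, hjx, hj⟩ := qua_unique c δ n x (hcov x hx)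
        rw [hj (fun j => h (c j)), Real.norm_eq_abs, abs_sub_comm]
        exact hω x (c j) hx (hc j) (by rw [← dist_eq_norm]; exact hjx.le))
    simpa using h5

end STB
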