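import Pool.Agent.Lib_helper15.STB.Defs

/-! # STB, block rie : Riemann sums of periodic Lipschitz functions -/

open MeasureTheory Filter Topology
open scoped InnerProductSpace
open Pool.Agent.Lib_helper15.STE

namespace STB

theorem rie_cont (h : ℝ → ℝ) (C : ℝ) (hC : ∀ x y, |h x - h y| ≤ C * |x - y|) : Continuous h := by
  have hC0 : 0 ≤ C := by
    have h1 := hC 1 0
    have h2 := abs_nonneg (h 1 - h 0)
    rw [sub_zero, abs_one, mul_one] at h1
    linarith
  have : LipschitzWith C.toNNReal h := by
    refine LipschitzWith.of_dist_le_mul fun x y => ?_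
    rw [Real.dist_eq, Real.dist_eq, Real.coe_toNNReal C hC0]
    exact hC x y
  exact this.continuous

theorem rie_main (h : ℝ → ℝ) (C : ℝ) (hC : ∀ x y, |h x - h y| ≤ C * |x - y|)
    (hp : ∀ x, h (x + Real.pi) = h x) (n : ℕ) (hn : 0 < n) (θ : ℝ) :
    |Real.pi / n * (∑ j ∈ Finset.range n, h (θ + j * (Real.pi / n))) -
      ∫ x in (0:ℝ)..Real.pi, h x| ≤ C * Real.pi ^ 2 / n := by
  have hcont := rie_cont h C hC
  have hC0 : 0 ≤ C := by
    have h1 := hC 1 0
    have h2 := abs_nonneg (h 1 - h 0)
    rw [sub_zero, abs_one, mul_one] at h1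
    linarith
  have hn0 : (0 : ℝ) < n := by exact_mod_cast hn
  have hpi := Real.pi_pos
  set d := Real.pi / n with hd
  have hd0 : 0 < d := by rw [hd]; positivity
  set a : ℕ → ℝ := fun j => θ + j * d with ha
  have hper : Function.Periodic h Real.pi := hp
  have e1 : ∫ x in (0:ℝ)..Real.pi, h x = ∫ x in (a 0)..(a n), h x := by
    have h1 := hper.intervalIntegral_add_eq 0 θ
    rw [zero_add] at h1
    rw [h1]
    congr 1
    · simp [ha]
    · simp only [ha, hd]; field_simp
  have e2 : ∫ x in (a 0)..(a n), h x = ∑ j ∈ Finset.range n, ∫ x in (a j)..(a (j + 1)), h x := by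
    rw [intervalIntegral.sum_integral_adjacent_intervals]
    intro k _
    exact hcont.intervalIntegrable _ _
  have e3 : d * (∑ j ∈ Finset.range n, h (θ + j * d)) -
      ∫ x in (0:ℝ)..Real.pi, h x =
      ∑ j ∈ Finset.range n, ∫ x in (a j)..(a (j + 1)), (h (a j) - h x) := by
    rw [e1, e2, Finset.mul_sum, ← Finset.sum_sub_distrib]
    refine Finset.sum_congr rfl fun j _ => ?_
    rw [intervalIntegral.integral_sub (by simp) (hcont.intervalIntegrable _ _),
      intervalIntegral.integral_const, smul_eq_mul]
    congr 2
    simp only [ha]; push_cast; ring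
  rw [e3]
  calc |∑ j ∈ Finset.range n, ∫ x in (a j)..(a (j + 1)), (h (a j) - h x)|
      ≤ ∑ j ∈ Finset.range n, |∫ x in (a j)..(a (j + 1)), (h (a j) - h x)| :=
        Finset.abs_sum_le_sum_abs _ _
    _ ≤ ∑ j ∈ Finset.range n, (C * d) * d := by
        refine Finset.sum_le_sum fun j _ => ?_
        have hle : a j ≤ a (j + 1) := by
          simp only [ha]; push_cast; nlinarith
        have hdiff : a (j + 1) - a j = d := by
          simp only [ha]; push_cast; ring
        have h1 := intervalIntegral.norm_integral_le_of_norm_le_const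
          (a := a j) (b := a (j + 1)) (f := fun x => h (a j) - h x) (C := C * d) (by
            intro x hx
            rw [Set.uIoc_of_le hle] at hx
            rw [Real.norm_eq_abs]
            refine (hC _ _).trans ?_
            apply mul_le_mul_of_nonneg_left _ hC0
            rw [abs_le]
            constructor <;> linarith [hx.1, hx.2])
        rw [hdiff, abs_of_pos hd0, Real.norm_eq_abs] at h1
        exact h1
    _ = C * Real.pi ^ 2 / n := by
        rw [Finset.sum_const, Finset.card_range, nsmul_eq_mul, hd]
        field_simp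

end STB
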