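import Mathlib
import Pool.Agent.Lib_helper15.STB.Defs
import Pool.Agent.Lib_helper15.STB.B.fraA
import Pool.Agent.Lib_helper15.STB.B.plo3
import Pool.Agent.Lib_helper15.STB.B.pup3
import Pool.Agent.Lib_helper15.STB.B.qua
import Pool.Agent.Lib_helper15.STB.B.rie
import Pool.Agent.Lib_helper15.STB.B.shmA
import Pool.Agent.Lib_helper15.STB.B.shmB
import Pool.Agent.Lib_helper15.STE.B.rot
import Pool.Agent.Lib_helper15.STE.B.sigA
import Pool.Agent.Lib_helper15.STE.B.sigC
import Pool.Agent.Lib_helper59.STHF.xxB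

/-! # STB, block cau : the formula of Cauchy -/

open MeasureTheory Filter Topology
open scoped InnerProductSpace
open Pool.Agent.Lib_helper15.STE

namespace STB

theorem cau_pole : ∫ y : E3, |⟪y, e 2⟫_ℝ| ∂sig = 1 / 2 := by
  have hc : Continuous (fun y : E3 => |⟪y, e 2⟫_ℝ|) :=
    (continuous_id.inner continuous_const).abs
  have he : ‖(e 2 : E3)‖ = 1 := by simp [e]
  have hb : ∀ x : E3, ‖x‖ = 1 → |(|⟪x, e 2⟫_ℝ|)| ≤ 1 := by
    intro x hx
    rw [abs_abs]
    have := abs_real_inner_le_norm x (e 2)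
    rwa [hx, he, one_mul] at this
  rw [(sigC_integral _ hc.measurable 1 hb).2]
  have h1 : ∀ τ : ℝ, cm (fun y : E3 => |⟪y, e 2⟫_ℝ|) τ = |τ| := by
    intro τ
    unfold cm av
    have : ∀ φ : ℝ, |⟪pt τ φ, e 2⟫_ℝ| = |τ| := by
      intro φ
      rw [STH.xxB_inner]
      simp [pt, e]
    simp_rw [this]
    rw [intervalIntegral.integral_const]
    have : Real.pi ≠ 0 := Real.pi_ne_zero
    rw [smul_eq_mul]
    field_simp
    ring
  simp_rw [h1]
  have h2 : ∫ τ in (-1:ℝ)..1, |τ| = 1 := by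
    rw [← intervalIntegral.integral_add_adjacent_intervals (b := 0)
      (continuous_abs.intervalIntegrable _ _) (continuous_abs.intervalIntegrable _ _)]
    have h3 : ∫ τ in (-1:ℝ)..0, |τ| = ∫ τ in (-1:ℝ)..0, -τ := by
      apply intervalIntegral.integral_congr
      intro τ hτ
      rw [Set.uIcc_of_le (by norm_num)] at hτ
      exact abs_of_nonpos hτ.2
    have h4 : ∫ τ in (0:ℝ)..1, |τ| = ∫ τ in (0:ℝ)..1, τ := by
      apply intervalIntegral.integral_congr
      intro τ hτ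
      rw [Set.uIcc_of_le (by norm_num)] at hτ
      exact abs_of_nonneg hτ.1
    rw [h3, h4, intervalIntegral.integral_neg, integral_id, integral_id]
    norm_num
  rw [h2, mul_one]

theorem cau_abs (x : E3) : ∫ y : E3, |⟪y, x⟫_ℝ| ∂sig = ‖x‖ / 2 := by
  by_cases hx : x = 0
  · subst hx
    simp
  · have hn : 0 < ‖x‖ := norm_pos_iff.2 hx
    obtain ⟨g, hg⟩ := STH.exists_iso (‖x‖⁻¹ • x) (by
      rw [norm_smul, norm_inv, norm_norm, inv_mul_cancel₀ hn.ne'])
    have h1 : x = ‖x‖ • g (e 2) := by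
      rw [hg, smul_smul, mul_inv_cancel₀ hn.ne', one_smul]
    have h2 : ∫ y : E3, |⟪y, x⟫_ℝ| ∂sig = ∫ y : E3, |⟪g y, x⟫_ℝ| ∂sig :=
      (rot_one (fun y : E3 => |⟪y, x⟫_ℝ|) g).symm
    rw [h2]
    have h3 : ∀ y : E3, |⟪g y, x⟫_ℝ| = ‖x‖ * |⟪y, e 2⟫_ℝ| := by
      intro y
      conv_lhs => rw [h1]
      rw [real_inner_smul_right, g.inner_map_map, abs_mul, abs_norm]
    simp_rw [h3]
    rw [integral_const_mul, cau_pole]
    ring

theorem cau_dirs (δ : ℝ) (hδ : 0 < δ) : ∃ (n : ℕ) (f : ℕ → E3) (w : ℕ → ℝ),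
    (∀ j, ‖f j‖ = 1) ∧ (∀ j, 0 ≤ w j) ∧
    (∀ x : E3, |∑ j ∈ Finset.range n, w j * |⟪f j, x⟫_ℝ| - ‖x‖ / 2| ≤ δ * ‖x‖) ∧
    ∀ (h : E3 → ℝ) (ω : ℝ), Measurable h →
      (∀ x y, ‖x‖ = 1 → ‖y‖ = 1 → ‖x - y‖ ≤ δ → |h x - h y| ≤ ω) →
      |∑ j ∈ Finset.range n, w j * h (f j) - ∫ x, h x ∂sig| ≤ ω := by
  obtain ⟨n, f, w, hf, hw, _, hq⟩ := qua_main δ hδ
  refine ⟨n, f, w, hf, hw, ?_, hq⟩
  intro x
  have hc : Continuous (fun y : E3 => |⟪y, x⟫_ℝ|) := (continuous_id.inner continuous_const).abs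
  have := hq (fun y : E3 => |⟪y, x⟫_ℝ|) (δ * ‖x‖) hc.measurable (by
    intro y z _ _ hyz
    calc |(|⟪y, x⟫_ℝ| - |⟪z, x⟫_ℝ|)| ≤ |⟪y, x⟫_ℝ - ⟪z, x⟫_ℝ| := abs_abs_sub_abs_le_abs_sub _ _
      _ = |⟪y - z, x⟫_ℝ| := by rw [inner_sub_left]
      _ ≤ ‖y - z‖ * ‖x‖ := abs_real_inner_le_norm _ _
      _ ≤ δ * ‖x‖ := mul_le_mul_of_nonneg_right hyz (norm_nonneg _))
  rwa [cau_abs] at this

theorem cau_unif (K : Set E3) (hK : CB K) (η : ℝ) (hη : 0 < η) : ∃ δ0 : ℝ, 0 < δ0 ∧
    ∀ x y : E3, ‖x‖ = 1 → ‖y‖ = 1 → ‖x - y‖ ≤ δ0 → |sh K x - sh K y| ≤ η := by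
  obtain ⟨hc, _⟩ := shm_cont K hK
  have hu := (isCompact_closedBall (0 : E3) 1).uniformContinuousOn_of_continuous hc.continuousOn
  rw [Metric.uniformContinuousOn_iff] at hu
  obtain ⟨d, hd, h⟩ := hu η hη
  refine ⟨d / 2, by positivity, ?_⟩
  intro x y hx hy hxy
  have := h x (by simp [hx]) y (by simp [hy]) (by rw [dist_eq_norm]; linarith)
  rw [Real.dist_eq] at this
  exact this.le

theorem cau_main (K : Set E3) (hK : CB K) : bd K ≠ ⊤ ∧ ∀ η : ℝ, 0 < η →
    |(bd K).toReal - 4 * ∫ x, sh K x ∂sig| ≤ η * (4 + 2 * (bd K).toReal) := by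
  obtain ⟨hc, _⟩ := shm_cont K hK
  obtain ⟨hpos, _⟩ := shm_pos K hK
  set I := ∫ x, sh K x ∂sig with hI
  have key : ∀ η : ℝ, 0 < η → ∃ δ : ℝ, 0 < δ ∧ δ ≤ η ∧ δ ≤ 1 / 4 ∧ ∃ S : ℝ, 0 ≤ S ∧ |S - I| ≤ η ∧
      ENNReal.ofReal (4 / (1 + 2 * δ) * S) ≤ bd K ∧
      bd K ≤ ENNReal.ofReal (4 / (1 - 2 * δ) * S) := by
    intro η hη
    obtain ⟨δ0, hδ0, hu⟩ := cau_unif K hK η hη
    set δ := min δ0 (min η (1 / 4)) with hδdef
    have hδ : 0 < δ := by
      rw [hδdef]
      exact lt_min hδ0 (lt_min hη (by norm_num))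
    have hδ1 : δ ≤ δ0 := min_le_left _ _
    have hδ2 : δ ≤ η := le_trans (min_le_right _ _) (min_le_left _ _)
    have hδ3 : δ ≤ 1 / 4 := le_trans (min_le_right _ _) (min_le_right _ _)
    obtain ⟨n, f, w, hf, hw, habs, hq⟩ := cau_dirs δ hδ
    have hS := hq (sh K) η hc.measurable (fun x y hx hy hxy => hu x y hx hy (le_trans hxy hδ1))
    refine ⟨δ, hδ, hδ2, hδ3, ∑ j ∈ Finset.range n, w j * sh K (f j), ?_, hS, ?_, ?_⟩
    · exact Finset.sum_nonneg (fun j _ => mul_nonneg (hw j) (hpos _ (hf j)).le)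
    · have h1 := plo3_main K hK n f (fun j => 2 * w j / (1 + 2 * δ)) hf
        (fun j => div_nonneg (mul_nonneg (by norm_num) (hw j)) (by positivity)) (by
          intro x
          have h2 := (abs_le.1 (habs x)).2
          have h3 : ∑ j ∈ Finset.range n, 2 * w j / (1 + 2 * δ) * |⟪f j, x⟫_ℝ| =
              2 / (1 + 2 * δ) * ∑ j ∈ Finset.range n, w j * |⟪f j, x⟫_ℝ| := by
            rw [Finset.mul_sum]
            apply Finset.sum_congr rfl
            intro j _
            ring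
          rw [h3, div_mul_eq_mul_div, div_le_iff₀ (by positivity)]
          nlinarith)
      have h4 : 2 * ∑ j ∈ Finset.range n, 2 * w j / (1 + 2 * δ) * sh K (f j) =
          4 / (1 + 2 * δ) * ∑ j ∈ Finset.range n, w j * sh K (f j) := by
        rw [Finset.mul_sum, Finset.mul_sum]
        apply Finset.sum_congr rfl
        intro j _
        ring
      rw [h4] at h1
      exact h1
    · have h5 : 0 < 1 - 2 * δ := by linarith
      have h1 := pup3_main K hK n f (fun j => 2 * w j / (1 - 2 * δ)) hf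
        (fun j => div_nonneg (mul_nonneg (by norm_num) (hw j)) h5.le) (by
          intro x
          have h2 := (abs_le.1 (habs x)).1
          have h3 : ∑ j ∈ Finset.range n, 2 * w j / (1 - 2 * δ) * |⟪f j, x⟫_ℝ| =
              2 / (1 - 2 * δ) * ∑ j ∈ Finset.range n, w j * |⟪f j, x⟫_ℝ| := by
            rw [Finset.mul_sum]
            apply Finset.sum_congr rfl
            intro j _
            ring
          rw [h3, div_mul_eq_mul_div, le_div_iff₀ h5]
          nlinarith)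
      have h4 : 2 * ∑ j ∈ Finset.range n, 2 * w j / (1 - 2 * δ) * sh K (f j) =
          4 / (1 - 2 * δ) * ∑ j ∈ Finset.range n, w j * sh K (f j) := by
        rw [Finset.mul_sum, Finset.mul_sum]
        apply Finset.sum_congr rfl
        intro j _
        ring
      rw [h4] at h1
      exact h1
  have hfin : bd K ≠ ⊤ := by
    obtain ⟨δ, _, _, _, S, _, _, _, h⟩ := key 1 one_pos
    exact ne_top_of_le_ne_top ENNReal.ofReal_ne_top h
  refine ⟨hfin, ?_⟩
  intro η hη
  obtain ⟨δ, hδ, hδη, hδ4, S, hS0, hSI, hlow, hup⟩ := key η hη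
  have h5 : 0 < 1 - 2 * δ := by linarith
  rw [ENNReal.ofReal_le_iff_le_toReal hfin, div_mul_eq_mul_div, div_le_iff₀ (by positivity)] at hlow
  have hup' := ENNReal.toReal_le_of_le_ofReal (by positivity) hup
  rw [div_mul_eq_mul_div, le_div_iff₀ h5] at hup'
  have hB0 : 0 ≤ (bd K).toReal := ENNReal.toReal_nonneg
  set B := (bd K).toReal
  obtain ⟨hs1, hs2⟩ := abs_le.1 hSI
  have hδB : δ * B ≤ η * B := mul_le_mul_of_nonneg_right hδη hB0
  rw [abs_le]
  constructor
  · nlinarith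
  · nlinarith

theorem cau_eq (K : Set E3) (hK : CB K) : bd K = ENNReal.ofReal (4 * ∫ x, sh K x ∂sig) := by
  obtain ⟨hfin, h⟩ := cau_main K hK
  have hB0 : 0 ≤ (bd K).toReal := ENNReal.toReal_nonneg
  rw [← ENNReal.ofReal_toReal hfin]
  congr 1
  set B := (bd K).toReal
  set I := ∫ x, sh K x ∂sig
  have h1 : |B - 4 * I| ≤ 0 := by
    apply le_of_forall_pos_le_add
    intro ε hε
    have hp : 0 < 4 + 2 * B := by linarith
    have := h (ε / (4 + 2 * B)) (div_pos hε hp)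
    rw [div_mul_cancel₀ _ hp.ne'] at this
    linarith
  have h2 := abs_nonpos_iff.1 h1
  linarith

theorem cau_cos (a b θ : ℝ) : ∫ φ in (0:ℝ)..Real.pi, |a * Real.cos (θ + φ) - b * Real.sin (θ + φ)| =
    2 * √(a ^ 2 + b ^ 2) := by
  set z : ℂ := ⟨a, b⟩ with hz
  have hr : √(a ^ 2 + b ^ 2) = ‖z‖ := by
    rw [Complex.norm_def, Complex.normSq_mk]
    congr 1
    ring
  have h1 : ‖z‖ * Real.cos z.arg = a := Complex.norm_mul_cos_arg z
  have h2 : ‖z‖ * Real.sin z.arg = b := Complex.norm_mul_sin_arg z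
  have h3 : ∀ φ : ℝ, |a * Real.cos (θ + φ) - b * Real.sin (θ + φ)| =
      ‖z‖ * |Real.cos (φ + (θ + z.arg))| := by
    intro φ
    have h4 : a * Real.cos (θ + φ) - b * Real.sin (θ + φ) = ‖z‖ * Real.cos (φ + (θ + z.arg)) := by
      have : φ + (θ + z.arg) = (θ + φ) + z.arg := by ring
      rw [this, Real.cos_add (θ + φ) z.arg]
      conv_lhs => rw [← h1, ← h2]
      ring
    rw [h4, abs_mul, abs_norm]
  simp_rw [h3]
  rw [intervalIntegral.integral_const_mul, hr]
  have hper : Function.Periodic (fun x : ℝ => |Real.cos x|) Real.pi := by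
    intro x
    simp only [Real.cos_add_pi, abs_neg]
  have h4 : ∫ φ in (0:ℝ)..Real.pi, |Real.cos (φ + (θ + z.arg))| = 2 := by
    rw [intervalIntegral.integral_comp_add_right (fun x => |Real.cos x|)]
    rw [zero_add, add_comm Real.pi]
    rw [hper.intervalIntegral_add_eq (θ + z.arg) (-(Real.pi / 2))]
    have h5 : -(Real.pi / 2) + Real.pi = Real.pi / 2 := by ring
    rw [h5]
    have h6 : ∫ x in (-(Real.pi / 2))..(Real.pi / 2), |Real.cos x| =
        ∫ x in (-(Real.pi / 2))..(Real.pi / 2), Real.cos x := by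
      apply intervalIntegral.integral_congr
      intro x hx
      rw [Set.uIcc_of_le (by linarith [Real.pi_pos])] at hx
      exact abs_of_nonneg (Real.cos_nonneg_of_mem_Icc hx)
    rw [h6, integral_cos, Real.sin_neg, Real.sin_pi_div_two]
    norm_num
  rw [h4]
  ring

theorem cau_lip (a b : ℝ) (x y : ℝ) :
    |(|a * Real.cos x - b * Real.sin x| - |a * Real.cos y - b * Real.sin y|)| ≤
      √(a ^ 2 + b ^ 2) * |x - y| := by
  set z : ℂ := ⟨a, b⟩ with hz
  have hr : √(a ^ 2 + b ^ 2) = ‖z‖ := by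
    rw [Complex.norm_def, Complex.normSq_mk]
    congr 1
    ring
  have h1 : ‖z‖ * Real.cos z.arg = a := Complex.norm_mul_cos_arg z
  have h2 : ‖z‖ * Real.sin z.arg = b := Complex.norm_mul_sin_arg z
  have h3 : ∀ φ : ℝ, a * Real.cos φ - b * Real.sin φ = ‖z‖ * Real.cos (φ + z.arg) := by
    intro φ
    rw [Real.cos_add]
    conv_lhs => rw [← h1, ← h2]
    ring
  rw [h3, h3, hr]
  refine le_trans (abs_abs_sub_abs_le_abs_sub _ _) ?_
  rw [← mul_sub, abs_mul, abs_norm]
  apply mul_le_mul_of_nonneg_left _ (norm_nonneg z)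
  have h4 : ∀ x y : ℝ, |Real.cos x - Real.cos y| ≤ |x - y| := by
    intro x y
    have := Real.abs_cos_sub_cos_le x y
    exact this
  have h5 := h4 (x + z.arg) (y + z.arg)
  rwa [add_sub_add_right_eq_sub] at h5

theorem cau_inner (f u : E3) (x : E3) (φ : ℝ) : ⟪tw f u φ, x⟫_ℝ =
    ⟪x, f⟫_ℝ * Real.cos φ - ⟪x, cr f u⟫_ℝ * Real.sin φ := by
  unfold tw
  rw [inner_sub_left, real_inner_smul_left, real_inner_smul_left, real_inner_comm x f,
    real_inner_comm x (cr f u)]
  ring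

theorem cau_flat_norm (f u : E3) (h : ON f u) (n : ℕ) (hn : 16 < n) (θ : ℝ) (x : E3) :
    ‖x‖ ≤ (Real.pi / n) / (2 - 16 / (n:ℝ)) *
      ∑ j ∈ Finset.range n, |⟪tw f u (θ + j * (Real.pi / n)), x⟫_ℝ| + |⟪u, x⟫_ℝ| := by
  have hpi := Real.pi_pos
  have hpi4 : Real.pi < 4 := Real.pi_lt_four
  have hn0 : (0:ℝ) < n := by exact_mod_cast (by omega : 0 < n)
  have hn16 : (16:ℝ) < n := by exact_mod_cast hn
  have hd : 0 < 2 - 16 / (n:ℝ) := by
    have : 16 / (n:ℝ) < 1 := by rw [div_lt_one hn0]; exact hn16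
    linarith
  have hcomm : ⟪u, x⟫_ℝ = ⟪x, u⟫_ℝ := real_inner_comm x u
  rw [hcomm]
  have hnorm := (fra_basis f u h x).2
  have h5 : ∑ j ∈ Finset.range n, |⟪tw f u (θ + j * (Real.pi / n)), x⟫_ℝ| =
      ∑ j ∈ Finset.range n, (fun φ => |⟪x, f⟫_ℝ * Real.cos φ - ⟪x, cr f u⟫_ℝ * Real.sin φ|)
        (θ + j * (Real.pi / n)) := by
    apply Finset.sum_congr rfl
    intro j _
    rw [cau_inner]
  rw [h5]
  generalize ⟪x, f⟫_ℝ = a at *
  generalize ⟪x, cr f u⟫_ℝ = b at *
  generalize ⟪x, u⟫_ℝ = c at *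
  set r := √(a ^ 2 + b ^ 2) with hr
  have hr0 : 0 ≤ r := Real.sqrt_nonneg _
  have hr2 : r ^ 2 = a ^ 2 + b ^ 2 := Real.sq_sqrt (by positivity)
  have h2 := rie_main (fun φ => |a * Real.cos φ - b * Real.sin φ|) r
    (fun x y => cau_lip a b x y) (by
      intro x
      simp only [Real.cos_add_pi, Real.sin_add_pi]
      rw [← abs_neg]
      congr 1
      ring) n (by omega) θ
  have h3 : ∫ φ in (0:ℝ)..Real.pi, |a * Real.cos φ - b * Real.sin φ| = 2 * r := by
    have := cau_cos a b 0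
    simp only [zero_add] at this
    exact this
  rw [h3] at h2
  have h4 := (abs_le.1 h2).1
  generalize ∑ j ∈ Finset.range n, (fun φ => |a * Real.cos φ - b * Real.sin φ|)
        (θ + j * (Real.pi / n)) = S at *
  have h6 : r * Real.pi ^ 2 / n ≤ r * (16 / n) := by
    rw [mul_div_assoc]
    apply mul_le_mul_of_nonneg_left _ hr0
    apply div_le_div_of_nonneg_right _ hn0.le
    nlinarith
  have h7 : r ≤ (Real.pi / n) / (2 - 16 / (n:ℝ)) * S := by
    rw [div_mul_eq_mul_div, le_div_iff₀ hd]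
    have : r * (2 - 16 / (n:ℝ)) = 2 * r - r * (16 / n) := by ring
    rw [this]
    linarith
  have h8 : ‖x‖ ≤ r + |c| := by
    apply (abs_le_of_sq_le_sq' _ (by positivity)).2
    rw [hnorm]
    have h9 : |c| ^ 2 = c ^ 2 := sq_abs _
    have : 0 ≤ r * |c| := by positivity
    nlinarith
  linarith

/-- the directions -/
noncomputable def cau_F (f u : E3) (n : ℕ) (θ : ℝ) (j : ℕ) : E3 :=
  if j < n then tw f u (θ + j * (Real.pi / n)) else u

/-- the weights -/
noncomputable def cau_R (n : ℕ) (c : ℝ) (j : ℕ) : ℝ := if j < n then c else 1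

theorem cau_sum (f u : E3) (n : ℕ) (θ c : ℝ) (G : E3 → ℝ) :
    ∑ j ∈ Finset.range (n + 1), cau_R n c j * G (cau_F f u n θ j) =
      c * ∑ j ∈ Finset.range n, G (tw f u (θ + j * (Real.pi / n))) + G u := by
  rw [Finset.sum_range_succ, Finset.mul_sum]
  congr 1
  · apply Finset.sum_congr rfl
    intro j hj
    rw [Finset.mem_range] at hj
    rw [cau_R, cau_F, if_pos hj, if_pos hj]
  · rw [cau_R, cau_F, if_neg (lt_irrefl n), if_neg (lt_irrefl n), one_mul]

theorem cau_F_norm (f u : E3) (h : ON f u) (n : ℕ) (θ : ℝ) (j : ℕ) : ‖cau_F f u n θ j‖ = 1 := by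
  unfold cau_F
  split_ifs
  · exact (fra_on f u h _).1.nf
  · exact h.nu

theorem cau_R_nonneg (n : ℕ) (c : ℝ) (hc : 0 ≤ c) (j : ℕ) : 0 ≤ cau_R n c j := by
  unfold cau_R
  split_ifs
  · exact hc
  · exact zero_le_one

theorem cau_flat_theta (K : Set E3) (hK : CB K) (f u : E3) (h : ON f u) (n : ℕ) (hn : 16 < n)
    (θ : ℝ) : (bd K).toReal ≤ 2 * ((Real.pi / n) / (2 - 16 / (n:ℝ)) *
      ∑ j ∈ Finset.range n, sh K (tw f u (θ + j * (Real.pi / n))) + sh K u) := by
  have hpos := (shm_pos K hK).1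
  have hpi := Real.pi_pos
  have hn0 : (0:ℝ) < n := by exact_mod_cast (by omega : 0 < n)
  have hn16 : (16:ℝ) < n := by exact_mod_cast hn
  have hd : 0 < 2 - 16 / (n:ℝ) := by
    have : 16 / (n:ℝ) < 1 := by rw [div_lt_one hn0]; exact hn16
    linarith
  have hc0 : 0 ≤ (Real.pi / n) / (2 - 16 / (n:ℝ)) := (div_pos (div_pos hpi hn0) hd).le
  have h1 := pup3_main K hK (n + 1) (cau_F f u n θ)
    (cau_R n ((Real.pi / n) / (2 - 16 / (n:ℝ)))) (cau_F_norm f u h n θ)
    (cau_R_nonneg n _ hc0) (fun x => by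
      rw [cau_sum f u n θ _ (fun y => |⟪y, x⟫_ℝ|)]
      exact cau_flat_norm f u h n hn θ x)
  rw [cau_sum f u n θ _ (sh K)] at h1
  refine ENNReal.toReal_le_of_le_ofReal ?_ h1
  have h10 : 0 ≤ ∑ j ∈ Finset.range n, sh K (tw f u (θ + j * (Real.pi / n))) :=
    Finset.sum_nonneg (fun j _ => (hpos _ (fra_on f u h _).1.nf).le)
  exact mul_nonneg zero_le_two (add_nonneg (mul_nonneg hc0 h10) (hpos u h.nu).le)

theorem cau_cont (K : Set E3) (hK : CB K) (f u : E3) :
    Continuous (fun φ : ℝ => sh K (tw f u φ)) := by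
  apply (shm_cont K hK).1.comp
  unfold tw
  fun_prop

theorem cau_split (K : Set E3) (hK : CB K) (f u : E3) (n : ℕ) (hn : 0 < n) :
    ∫ θ in (0:ℝ)..(Real.pi / n), ∑ j ∈ Finset.range n, sh K (tw f u (θ + j * (Real.pi / n))) =
      La K f u := by
  have hn0 : (n:ℝ) ≠ 0 := by exact_mod_cast hn.ne'
  have hcont := cau_cont K hK f u
  rw [intervalIntegral.integral_finsetSum]
  · have h3 : ∀ j ∈ Finset.range n,
        ∫ θ in (0:ℝ)..(Real.pi / n), sh K (tw f u (θ + j * (Real.pi / n))) =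
        ∫ φ in ((j:ℝ) * (Real.pi / n))..(((j + 1 : ℕ) : ℝ) * (Real.pi / n)),
          sh K (tw f u φ) := by
      intro j _
      rw [intervalIntegral.integral_comp_add_right (fun φ => sh K (tw f u φ))]
      congr 1
      · ring
      · push_cast; ring
    rw [Finset.sum_congr rfl h3]
    rw [intervalIntegral.sum_integral_adjacent_intervals
      (a := fun j : ℕ => (j:ℝ) * (Real.pi / n)) (fun j _ => hcont.intervalIntegrable _ _)]
    have e1 : ((0:ℕ):ℝ) * (Real.pi / n) = 0 := by simp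
    have e2 : (n:ℝ) * (Real.pi / n) = Real.pi := by field_simp
    rw [e1, e2]
    rfl
  · intro j _
    exact (hcont.comp (continuous_id.add continuous_const)).intervalIntegrable _ _

theorem cau_flat_n (K : Set E3) (hK : CB K) (f u : E3) (h : ON f u) (n : ℕ) (hn : 16 < n) :
    (bd K).toReal ≤ 2 / (2 - 16 / (n:ℝ)) * La K f u + 2 * sh K u := by
  have hpi := Real.pi_pos
  have hn0 : (0:ℝ) < n := by exact_mod_cast (by omega : 0 < n)
  have hθ := cau_flat_theta K hK f u h n hn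
  have hsp := cau_split K hK f u n (by omega)
  have hcont := cau_cont K hK f u
  set q := Real.pi / n with hq
  have hq0 : 0 < q := div_pos hpi hn0
  set D := 2 - 16 / (n:ℝ) with hD
  have hcs : Continuous (fun θ : ℝ => ∑ j ∈ Finset.range n, sh K (tw f u (θ + j * q))) :=
    continuous_finsetSum _ (fun j _ => hcont.comp (continuous_id.add continuous_const))
  have h1 : ∫ θ in (0:ℝ)..q, (bd K).toReal ≤ ∫ θ in (0:ℝ)..q,
      2 * (q / D * ∑ j ∈ Finset.range n, sh K (tw f u (θ + j * q)) + sh K u) := by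
    apply intervalIntegral.integral_mono_on hq0.le
    · exact intervalIntegrable_const
    · exact (continuous_const.mul ((continuous_const.mul hcs).add
        continuous_const)).intervalIntegrable _ _
    · intro θ _
      exact hθ θ
  have hadd : ∫ θ in (0:ℝ)..q,
      (q / D * ∑ j ∈ Finset.range n, sh K (tw f u (θ + j * q)) + sh K u) =
      (∫ θ in (0:ℝ)..q, q / D * ∑ j ∈ Finset.range n, sh K (tw f u (θ + j * q))) +
      ∫ θ in (0:ℝ)..q, sh K u :=
    intervalIntegral.integral_add ((continuous_const.mul hcs).intervalIntegrable _ _)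
      intervalIntegrable_const
  rw [intervalIntegral.integral_const, intervalIntegral.integral_const_mul, hadd,
    intervalIntegral.integral_const_mul, hsp, intervalIntegral.integral_const] at h1
  simp only [sub_zero, smul_eq_mul] at h1
  have h4 : q * (bd K).toReal ≤ q * (2 / D * La K f u + 2 * sh K u) := by
    calc q * (bd K).toReal ≤ 2 * (q / D * La K f u + q * sh K u) := h1
      _ = _ := by ring
  exact le_of_mul_le_mul_left h4 hq0

theorem cau_flat (K : Set E3) (hK : CB K) (f u : E3) (h : ON f u) :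
    (bd K).toReal ≤ La K f u + 2 * sh K u := by
  have hlim : Tendsto (fun n : ℕ => 2 / (2 - 16 / (n:ℝ)) * La K f u + 2 * sh K u) atTop
      (𝓝 (2 / (2 - 0) * La K f u + 2 * sh K u)) := by
    apply Tendsto.add_const
    apply Tendsto.mul_const
    apply Tendsto.div tendsto_const_nhds _ (by norm_num)
    apply Tendsto.const_sub
    exact tendsto_const_div_atTop_nhds_zero_nat 16
  have h2 := ge_of_tendsto hlim (by
    filter_upwards [eventually_gt_atTop 16] with n hn
    exact cau_flat_n K hK f u h n hn)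
  have h3 : 2 / (2 - 0) * La K f u + 2 * sh K u = La K f u + 2 * sh K u := by norm_num
  rw [h3] at h2
  exact h2

theorem cau_norm3 (f u : E3) (h : ON f u) (x : E3) :
    ‖x‖ ≤ |⟪f, x⟫_ℝ| + |⟪u, x⟫_ℝ| + |⟪cr f u, x⟫_ℝ| := by
  have hnorm := (fra_basis f u h x).2
  rw [real_inner_comm f x, real_inner_comm u x, real_inner_comm (cr f u) x] at hnorm
  generalize ⟪f, x⟫_ℝ = a at *
  generalize ⟪u, x⟫_ℝ = b at *
  generalize ⟪cr f u, x⟫_ℝ = c at *
  apply (abs_le_of_sq_le_sq' _ (by positivity)).2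
  rw [hnorm]
  have e1 := sq_abs a
  have e2 := sq_abs b
  have e3 := sq_abs c
  have p1 := abs_nonneg a
  have p2 := abs_nonneg b
  have p3 := abs_nonneg c
  nlinarith [mul_nonneg p1 p2, mul_nonneg p1 p3, mul_nonneg p2 p3]

theorem cau_box (K : Set E3) (hK : CB K) (f u : E3) (h : ON f u) :
    (bd K).toReal ≤ 2 * (sh K f + sh K u + sh K (cr f u)) := by
  obtain ⟨hpos, _⟩ := shm_pos K hK
  have hv : ‖cr f u‖ = 1 := (fra_on' f u h).2.2.1.nf
  have hsum : ∀ G : E3 → ℝ, ∑ j ∈ Finset.range 3, (1:ℝ) *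
      G ((fun j : ℕ => if j = 0 then f else if j = 1 then u else cr f u) j) =
      G f + G u + G (cr f u) := by
    intro G
    rw [Finset.sum_range_succ, Finset.sum_range_succ, Finset.sum_range_succ,
      Finset.sum_range_zero]
    simp
  have h1 := pup3_main K hK 3 (fun j => if j = 0 then f else if j = 1 then u else cr f u)
    (fun _ => 1) (by
      intro j
      split_ifs
      · exact h.nf
      · exact h.nu
      · exact hv) (fun _ => zero_le_one) (by
      intro x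
      rw [hsum (fun y => |⟪y, x⟫_ℝ|)]
      exact cau_norm3 f u h x)
  rw [hsum (sh K)] at h1
  have p1 := (hpos f h.nf).le
  have p2 := (hpos u h.nu).le
  have p3 := (hpos _ hv).le
  exact ENNReal.toReal_le_of_le_ofReal (by positivity) h1

end STB
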