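import Pool.Agent.Lib_helper15.STB.Defs
import Pool.Agent.Lib_helper15.STB.B.cau
import Pool.Agent.Lib_helper15.STB.B.shmA
import Pool.Agent.Lib_helper15.STB.B.shmB
import Pool.Agent.Lib_helper15.STE.B.sigA

/-! # STB, block cmo : monotonicity of the surface area (uses cau, shmA, shmB) -/

open MeasureTheory Filter Topology
open scoped InnerProductSpace
open Pool.Agent.Lib_helper15.STE

namespace STB

theorem cmo_int (K : Set E3) (hK : CB K) : Integrable (sh K) sig := by
  have := sigA_prob
  obtain ⟨hc, C, hC⟩ := shm_cont K hK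
  refine Integrable.mono' (integrable_const C) hc.aestronglyMeasurable ?_
  filter_upwards [sigA_sphere] with x hx
  exact hC x hx

theorem cmo_mono (K K' : Set E3) (hK : CB K) (hK' : CB K') (h : K ⊆ K') : bd K ≤ bd K' := by
  rw [cau_eq K hK, cau_eq K' hK']
  apply ENNReal.ofReal_le_ofReal
  have h1 : ∫ x, sh K x ∂sig ≤ ∫ x, sh K' x ∂sig := by
    refine integral_mono_ae (cmo_int K hK) (cmo_int K' hK') ?_
    filter_upwards [sigA_sphere] with x hx
    exact shm_mono K K' hK hK' h x hx
  linarith

theorem cmo_pos (K : Set E3) (hK : CB K) : 0 < bd K ∧ bd K ≠ ⊤ ∧ 0 < volume K ∧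
    volume K ≠ ⊤ := by
  have := sigA_prob
  refine ⟨?_, ?_, ?_, hK.comp.measure_lt_top.ne⟩
  · rw [cau_eq K hK, ENNReal.ofReal_pos]
    have hae : 0 ≤ᵐ[sig] sh K := by
      filter_upwards [sigA_sphere] with x hx
      exact ((shm_pos K hK).1 x hx).le
    have h1 : 0 < ∫ x, sh K x ∂sig := by
      rw [integral_pos_iff_support_of_nonneg_ae hae (cmo_int K hK)]
      have h2 : sig (Function.support (sh K)) = sig Set.univ := by
        apply measure_congr
        filter_upwards [sigA_sphere] with x hx
        have h3 : sh K x ≠ 0 := ((shm_pos K hK).1 x hx).ne'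
        have h4 : x ∈ Function.support (sh K) := h3
        apply propext
        exact ⟨fun _ => trivial, fun _ => h4⟩
      rw [h2]
      simp
    linarith
  · rw [cau_eq K hK]
    exact ENNReal.ofReal_ne_top
  · exact lt_of_lt_of_le (isOpen_interior.measure_pos volume hK.int)
      (measure_mono interior_subset)

end STB
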