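import Pool.Agent.Lib_helper15.STB.DefsC

/-! # STB, block cpA : selection theorem of Blaschke -/

open MeasureTheory Filter Topology
open scoped InnerProductSpace
open Pool.Agent.Lib_helper15.STE

namespace STB

theorem cpA_near {δ : ℝ} (hδ : 0 ≤ δ) {A : Set E3} (hA : IsCompact A) {x : E3}
    (hx : x ∈ Metric.cthickening δ A) : ∃ y ∈ A, dist x y ≤ δ := by
  rw [hA.cthickening_eq_biUnion_closedBall hδ] at hx
  simpa only [Set.mem_iUnion, exists_prop, Metric.mem_closedBall] using hx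

theorem cpA_nonempty {A : Set E3} {u : E3} {ρ : ℝ} (hρ : 0 < ρ)
    (hw : ρ ≤ hi A u - lo A u) : A.Nonempty := by
  by_contra h
  rw [Set.not_nonempty_iff_eq_empty] at h
  subst h
  simp only [hi, lo, Set.image_empty, Real.sSup_empty, Real.sInf_empty] at hw
  linarith

theorem cpA_width {A : Set E3} (hA : A.Nonempty) {u : E3} {c δ : ℝ}
    (h : ∀ x ∈ A, |⟪x, u⟫_ℝ - c| ≤ δ) : hi A u - lo A u ≤ 2 * δ := by
  have h1 : hi A u ≤ c + δ := by
    apply csSup_le (hA.image _)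
    rintro _ ⟨x, hx, rfl⟩
    have := (abs_le.mp (h x hx)).2
    simp only
    linarith
  have h2 : c - δ ≤ lo A u := by
    apply le_csInf (hA.image _)
    rintro _ ⟨x, hx, rfl⟩
    have := (abs_le.mp (h x hx)).1
    simp only
    linarith
  linarith

theorem cpA_conv {L : Set E3} (hL : IsCompact L) (A : ℕ → Set E3) (hc : ∀ n, Convex ℝ (A n))
    (hk : ∀ n, IsCompact (A n))
    (h : ∀ δ : ℝ, 0 < δ → ∃ n, Nr δ (A n) L) : Convex ℝ L := by
  intro x hx y hy a b ha hb hab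
  have hcl : a • x + b • y ∈ closure L := by
    rw [Metric.mem_closure_iff]
    intro ε hε
    obtain ⟨n, hn⟩ := h (ε / 3) (by positivity)
    obtain ⟨x', hx', hdx⟩ := cpA_near (by positivity) (hk n) (hn.right hx)
    obtain ⟨y', hy', hdy⟩ := cpA_near (by positivity) (hk n) (hn.right hy)
    obtain ⟨z, hz, hdz⟩ := cpA_near (by positivity) hL (hn.left (hc n hx' hy' ha hb hab))
    refine ⟨z, hz, ?_⟩
    have h1 : dist (a • x + b • y) (a • x' + b • y') ≤ ε / 3 := by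
      rw [dist_eq_norm]
      have e : a • x + b • y - (a • x' + b • y') = a • (x - x') + b • (y - y') := by
        simp only [smul_sub]; abel
      rw [e]
      rw [dist_eq_norm] at hdx hdy
      calc ‖a • (x - x') + b • (y - y')‖ ≤ ‖a • (x - x')‖ + ‖b • (y - y')‖ := norm_add_le _ _
        _ = a * ‖x - x'‖ + b * ‖y - y'‖ := by
            rw [norm_smul, norm_smul, Real.norm_of_nonneg ha, Real.norm_of_nonneg hb]
        _ ≤ a * (ε / 3) + b * (ε / 3) := by gcongr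
        _ = ε / 3 := by rw [← add_mul, hab, one_mul]
    calc dist (a • x + b • y) z ≤ dist (a • x + b • y) (a • x' + b • y') +
          dist (a • x' + b • y') z := dist_triangle _ _ _
      _ ≤ ε / 3 + ε / 3 := add_le_add h1 hdz
      _ < ε := by linarith
  rwa [hL.isClosed.closure_eq] at hcl

theorem cpA_int {L : Set E3} (hL : IsCompact L) (hne : L.Nonempty) (hconv : Convex ℝ L)
    (A : ℕ → Set E3) (hA : ∀ n, (A n).Nonempty)
    {ρ : ℝ} (hρ : 0 < ρ) (hw : ∀ n u, ‖u‖ = 1 → ρ ≤ hi (A n) u - lo (A n) u)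
    (h : ∀ δ : ℝ, 0 < δ → ∃ n, Nr δ (A n) L) : (interior L).Nonempty := by
  by_contra hcon
  have h1 : affineSpan ℝ L ≠ ⊤ := fun h0 =>
    hcon (hconv.interior_nonempty_iff_affineSpan_eq_top.mpr h0)
  have h2 : vectorSpan ℝ L ≠ ⊤ := by
    intro h0
    apply h1
    rw [← AffineSubspace.direction_eq_top_iff_of_nonempty ((affineSpan_nonempty ℝ).mpr hne),
      direction_affineSpan]
    exact h0
  have h3 : (vectorSpan ℝ L)ᗮ ≠ ⊥ := fun h0 => h2 ((Submodule.orthogonal_eq_bot_iff).mp h0)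
  obtain ⟨v, hv, hv0⟩ := Submodule.exists_mem_ne_zero_of_ne_bot h3
  have hv1 : ‖v‖ ≠ 0 := norm_ne_zero_iff.mpr hv0
  set u : E3 := ‖v‖⁻¹ • v with hu
  have hu1 : ‖u‖ = 1 := by
    rw [hu, norm_smul, norm_inv, norm_norm, inv_mul_cancel₀ hv1]
  obtain ⟨p, hp⟩ := hne
  have hco : ∀ y ∈ L, ⟪y, u⟫_ℝ = ⟪p, u⟫_ℝ := by
    intro y hy
    have hyp : y - p ∈ vectorSpan ℝ L := vsub_mem_vectorSpan ℝ hy hp
    have h0 : ⟪y - p, v⟫_ℝ = 0 := (Submodule.mem_orthogonal _ _).mp hv _ hyp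
    have h4 : ⟪y - p, u⟫_ℝ = 0 := by rw [hu, inner_smul_right, h0, mul_zero]
    rw [inner_sub_left] at h4
    linarith
  obtain ⟨n, hn⟩ := h (ρ / 4) (by positivity)
  have hwid := cpA_width (hA n) (u := u) (c := ⟪p, u⟫_ℝ) (δ := ρ / 4) (by
    intro x hx
    obtain ⟨y, hy, hd⟩ := cpA_near (by positivity) hL (hn.left hx)
    rw [← hco y hy, ← inner_sub_left]
    calc |⟪x - y, u⟫_ℝ| ≤ ‖x - y‖ * ‖u‖ := abs_real_inner_le_norm _ _
      _ = dist x y := by rw [hu1, mul_one, dist_eq_norm]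
      _ ≤ ρ / 4 := hd)
  have := hw n u hu1
  linarith

theorem cpA_main (K : ℕ → Set E3) (hc : ∀ n, Convex ℝ (K n)) (hk : ∀ n, IsCompact (K n))
    (hb : ∀ n, K n ⊆ Metric.closedBall 0 1) (ρ : ℝ) (hρ : 0 < ρ)
    (hw : ∀ n u, ‖u‖ = 1 → ρ ≤ hi (K n) u - lo (K n) u) :
    ∃ φ : ℕ → ℕ, StrictMono φ ∧ ∃ L : Set E3, CB L ∧
      ∀ δ : ℝ, 0 < δ → ∀ᶠ n in atTop, Nr δ (K (φ n)) L := by
  have hne : ∀ n, (K n).Nonempty := fun n =>
    cpA_nonempty (u := EuclideanSpace.single (0 : Fin 3) (1 : ℝ)) hρ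
      (hw n _ (by simp))
  have : CompactSpace (Metric.closedBall (0 : E3) 1) :=
    isCompact_iff_compactSpace.mp (isCompact_closedBall 0 1)
  have hcomp : ∀ n, IsCompact ((↑) ⁻¹' K n : Set (Metric.closedBall (0 : E3) 1)) := by
    intro n
    rw [Subtype.isCompact_iff]
    have : (Subtype.val '' (Subtype.val ⁻¹' K n : Set (Metric.closedBall (0 : E3) 1))) = K n := by
      rw [Subtype.image_preimage_coe]
      exact Set.inter_eq_right.mpr (hb n)
    rw [this]
    exact hk n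
  have hnon : ∀ n, ((↑) ⁻¹' K n : Set (Metric.closedBall (0 : E3) 1)).Nonempty := by
    intro n
    obtain ⟨x, hx⟩ := hne n
    exact ⟨⟨x, hb n hx⟩, hx⟩
  let Q : ℕ → TopologicalSpace.NonemptyCompacts (Metric.closedBall (0 : E3) 1) :=
    fun n => ⟨⟨_, hcomp n⟩, hnon n⟩
  obtain ⟨a, φ, hφ, hlim⟩ := CompactSpace.tendsto_subseq Q
  set L : Set E3 := Subtype.val '' (a : Set (Metric.closedBall (0 : E3) 1)) with hLdef
  have hL : IsCompact L := a.isCompact.image continuous_subtype_val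
  have hLne : L.Nonempty := a.nonempty.image _
  have key : ∀ δ : ℝ, 0 < δ → ∀ᶠ n in atTop, Nr δ (K (φ n)) L := by
    intro δ hδ
    have h1 : ∀ᶠ n in atTop, dist ((Q ∘ φ) n) a < δ :=
      (Metric.tendsto_nhds.mp hlim) δ hδ
    filter_upwards [h1] with n hn
    rw [Metric.NonemptyCompacts.dist_eq] at hn
    have hfin : Metric.hausdorffEDist ((Q (φ n) : Set (Metric.closedBall (0 : E3) 1))) a ≠ ⊤ :=
      Metric.hausdorffEDist_ne_top_of_nonempty_of_bounded (Q (φ n)).nonempty a.nonempty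
        (Q (φ n)).isCompact.isBounded a.isCompact.isBounded
    constructor
    · intro x hx
      obtain ⟨y, hy, hd⟩ := Metric.exists_dist_lt_of_hausdorffDist_lt
        (x := ⟨x, hb _ hx⟩) (show (⟨x, hb _ hx⟩ : Metric.closedBall (0 : E3) 1) ∈
          (Q (φ n) : Set (Metric.closedBall (0 : E3) 1)) from hx) hn hfin
      exact Metric.mem_cthickening_of_dist_le x y.1 δ L ⟨y, hy, rfl⟩ hd.le
    · rintro _ ⟨y, hy, rfl⟩
      obtain ⟨x, hx, hd⟩ := Metric.exists_dist_lt_of_hausdorffDist_lt' hy hn hfin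
      rw [dist_comm] at hd
      exact Metric.mem_cthickening_of_dist_le y.1 x.1 δ (K (φ n)) hx hd.le
  have hex : ∀ δ : ℝ, 0 < δ → ∃ n, Nr δ (K (φ n)) L := fun δ hδ => (key δ hδ).exists
  have hconv := cpA_conv hL (fun n => K (φ n)) (fun n => hc _) (fun n => hk _) hex
  exact ⟨φ, hφ, L, ⟨hconv, hL, cpA_int hL hLne hconv (fun n => K (φ n)) (fun n => hne _) hρ
    (fun n => hw _) hex⟩, key⟩

end STB
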