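import Pool.Agent.Lib_helper15.STB.DefsC

/-! # STB, block cpB : near bodies are between homothetic copies -/

open MeasureTheory Filter Topology
open scoped InnerProductSpace
open Pool.Agent.Lib_helper15.STE

namespace STB

theorem cpB_near (L : Set E3) (hL : IsCompact L) (δ : ℝ) (hδ : 0 ≤ δ) (x : E3)
    (hx : x ∈ Metric.cthickening δ L) : ∃ y ∈ L, ‖x - y‖ ≤ δ := by
  rw [hL.cthickening_eq_biUnion_closedBall hδ] at hx
  rw [Set.mem_iUnion₂] at hx
  obtain ⟨y, hy, hxy⟩ := hx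
  rw [Metric.mem_closedBall, dist_eq_norm] at hxy
  exact ⟨y, hy, hxy⟩

theorem cpB_ball (L : Set E3) (w : E3) (r δ : ℝ) (hr : 0 < r) (hδ : 0 < δ) (hδr : δ ≤ r / 4)
    (hb : Metric.closedBall w r ⊆ L) (K : Set E3) (hK : Convex ℝ K) (hKc : IsCompact K)
    (hn : L ⊆ Metric.cthickening δ K) : Metric.closedBall w (r / 2) ⊆ K := by
  intro z hz
  by_contra hzK
  obtain ⟨f, u, hf1, hf2⟩ := geometric_hahn_banach_point_closed hK hKc.isClosed hzK
  obtain ⟨v, hv⟩ : ∃ v : E3, ∀ x, f x = ⟪v, x⟫_ℝ :=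
    ⟨(InnerProductSpace.toDual ℝ E3).symm f, fun x => by
      rw [InnerProductSpace.toDual_symm_apply]⟩
  have hwL : w ∈ L := hb (Metric.mem_closedBall_self hr.le)
  obtain ⟨k0, hk0, -⟩ := cpB_near K hKc δ hδ.le w (hn hwL)
  have hv0 : v ≠ 0 := by
    intro h0
    have h1 := hf2 k0 hk0
    rw [hv, h0, inner_zero_left] at h1
    rw [hv, h0, inner_zero_left] at hf1
    linarith
  have hvn : 0 < ‖v‖ := norm_pos_iff.2 hv0
  obtain ⟨e, he⟩ : ∃ e : E3, e = ‖v‖⁻¹ • v := ⟨_, rfl⟩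
  have hen : ‖e‖ = 1 := by
    rw [he, norm_smul, norm_inv, norm_norm, inv_mul_cancel₀ hvn.ne']
  have hve : ⟪v, e⟫_ℝ = ‖v‖ := by
    rw [he, inner_smul_right, real_inner_self_eq_norm_sq]
    field_simp
  have hq : z - (r / 2) • e ∈ L := by
    apply hb
    rw [Metric.mem_closedBall, dist_eq_norm] at hz ⊢
    have h1 : z - (r / 2) • e - w = (z - w) - (r / 2) • e := by abel
    rw [h1]
    have h2 := norm_sub_le (z - w) ((r / 2) • e)
    rw [norm_smul, hen, mul_one, Real.norm_eq_abs, abs_of_pos (by linarith)] at h2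
    linarith
  obtain ⟨k, hk, hqk⟩ := cpB_near K hKc δ hδ.le _ (hn hq)
  have h3 := hf2 k hk
  rw [hv] at h3
  rw [hv] at hf1
  have h4 : ⟪v, k⟫_ℝ = ⟪v, z⟫_ℝ - r / 2 * ‖v‖ - ⟪v, z - (r / 2) • e - k⟫_ℝ := by
    rw [inner_sub_right, inner_sub_right, inner_smul_right, hve]
    ring
  have h5 : -⟪v, z - (r / 2) • e - k⟫_ℝ ≤ ‖v‖ * δ := by
    have h6 := abs_real_inner_le_norm v (z - (r / 2) • e - k)
    have h7 := neg_abs_le ⟪v, z - (r / 2) • e - k⟫_ℝ
    have h8 : ‖v‖ * ‖z - (r / 2) • e - k‖ ≤ ‖v‖ * δ :=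
      mul_le_mul_of_nonneg_left hqk hvn.le
    linarith
  have h9 : ‖v‖ * δ ≤ r / 2 * ‖v‖ := by
    have : ‖v‖ * δ ≤ ‖v‖ * (r / 2) := mul_le_mul_of_nonneg_left (by linarith) hvn.le
    linarith
  linarith

theorem cpB_main (L : Set E3) (hL : CB L) (w : E3) (hw : w ∈ interior L) (ε : ℝ) (hε : 0 < ε)
    (hε1 : ε < 1) : ∃ δ : ℝ, 0 < δ ∧ ∀ K : Set E3, Convex ℝ K → IsCompact K → Nr δ K L →
      hmt w (1 - ε) L ⊆ K ∧ K ⊆ hmt w (1 + ε) L := by
  obtain ⟨r, hr, hb⟩ : ∃ r : ℝ, 0 < r ∧ Metric.closedBall w r ⊆ L := by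
    obtain ⟨r, hr, hb⟩ := Metric.isOpen_iff.1 isOpen_interior w hw
    refine ⟨r / 2, by linarith, ?_⟩
    exact (Metric.closedBall_subset_ball (by linarith)).trans (hb.trans interior_subset)
  obtain ⟨δ, hδe⟩ : ∃ δ, δ = ε * r / 4 := ⟨_, rfl⟩
  have hδ : 0 < δ := by rw [hδe]; positivity
  have hδr : δ ≤ r / 4 := by
    have : ε * r ≤ 1 * r := mul_le_mul_of_nonneg_right hε1.le hr.le
    linarith
  have hεδ : δ / ε = r / 4 := by
    rw [hδe]; field_simp
  refine ⟨δ, hδ, fun K hK hKc hn => ⟨?_, ?_⟩⟩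
  · have hball := cpB_ball L w r δ hr hδ hδr hb K hK hKc hn.right
    rintro x ⟨y, hy, rfl⟩
    obtain ⟨k, hk, hyk⟩ := cpB_near K hKc δ hδ.le y (hn.right hy)
    have h1 : w + ((1 - ε) / ε) • (y - k) ∈ K := by
      apply hball
      rw [Metric.mem_closedBall, dist_eq_norm, add_sub_cancel_left, norm_smul, Real.norm_eq_abs,
        abs_of_nonneg (div_nonneg (by linarith) hε.le)]
      have h2 : (1 - ε) / ε * ‖y - k‖ ≤ 1 / ε * δ := by
        apply mul_le_mul _ hyk (norm_nonneg _) (by positivity)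
        exact div_le_div_of_nonneg_right (by linarith) hε.le
      have h3 : 1 / ε * δ = r / 4 := by rw [← hεδ]; ring
      linarith
    have h4 := hK hk h1 (by linarith : 0 ≤ 1 - ε) hε.le (by ring)
    have h5 : (1 - ε) • k + ε • (w + ((1 - ε) / ε) • (y - k)) = w + (1 - ε) • (y - w) := by
      rw [smul_add, smul_smul, mul_div_cancel₀ _ hε.ne']
      module
    rw [h5] at h4
    exact h4
  · intro x hx
    obtain ⟨y, hy, hxy⟩ := cpB_near L hL.comp δ hδ.le x (hn.left hx)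
    have h0 : (0 : ℝ) < 1 + ε := by linarith
    have h1 : w + (1 / ε) • (x - y) ∈ L := by
      apply hb
      rw [Metric.mem_closedBall, dist_eq_norm, add_sub_cancel_left, norm_smul, Real.norm_eq_abs,
        abs_of_nonneg (by positivity)]
      have h2 : 1 / ε * ‖x - y‖ ≤ 1 / ε * δ := mul_le_mul_of_nonneg_left hxy (by positivity)
      have h3 : 1 / ε * δ = r / 4 := by rw [← hεδ]; ring
      linarith
    have h4 := hL.conv hy h1 (by positivity : 0 ≤ 1 / (1 + ε)) (by positivity : 0 ≤ ε / (1 + ε))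
      (by field_simp)
    refine ⟨_, h4, ?_⟩
    have h5 : ε / (1 + ε) * (1 / ε) = 1 / (1 + ε) := by field_simp
    have h6 : (1 / (1 + ε)) • y + (ε / (1 + ε)) • (w + (1 / ε) • (x - y)) - w =
        (1 / (1 + ε)) • (x - w) := by
      rw [smul_add, smul_smul, h5]
      have h7 : (ε / (1 + ε)) • w = w - (1 / (1 + ε)) • w := by
        have : ε / (1 + ε) = 1 - 1 / (1 + ε) := by field_simp; ring
        rw [this, sub_smul, one_smul]
      rw [h7]
      module
    show w + (1 + ε) • ((1 / (1 + ε)) • y + (ε / (1 + ε)) • (w + (1 / ε) • (x - y)) - w) = x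
    rw [h6, smul_smul, mul_one_div, div_self h0.ne', one_smul]
    abel

end STB
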