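import Pool.Agent.Lib_helper15.STB.Defs

/-! # STB, block seg : adding a segment to a plane convex set (helper89) -/

open MeasureTheory Filter Topology
open scoped InnerProductSpace
open Pool.Agent.Lib_helper15.STE

namespace STB

/-- rotated coordinates of the plane -/
noncomputable def seg_lin (φ : ℝ) : E2 →ₗ[ℝ] E2 where
  toFun y := !₂[y 0 * Real.cos φ + y 1 * Real.sin φ, -(y 0 * Real.sin φ) + y 1 * Real.cos φ]
  map_add' x y := by
    ext i
    fin_cases i
    · simp
      ring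
    · simp
      ring
  map_smul' r y := by
    ext i
    fin_cases i
    · simp
      ring
    · simp
      ring

noncomputable def seg_iso (φ : ℝ) : E2 →ₗᵢ[ℝ] E2 where
  toLinearMap := seg_lin φ
  norm_map' y := by
    rw [EuclideanSpace.norm_eq, EuclideanSpace.norm_eq]
    congr 1
    rw [Fin.sum_univ_two, Fin.sum_univ_two]
    simp only [Real.norm_eq_abs, sq_abs]
    show (y 0 * Real.cos φ + y 1 * Real.sin φ) ^ 2 +
      (-(y 0 * Real.sin φ) + y 1 * Real.cos φ) ^ 2 = y 0 ^ 2 + y 1 ^ 2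
    nlinarith [Real.sin_sq_add_cos_sq φ]

/-- the two rotated coordinates -/
noncomputable def seg_G (φ : ℝ) (y : E2) : ℝ × ℝ :=
  (y 0 * Real.cos φ + y 1 * Real.sin φ, -(y 0 * Real.sin φ) + y 1 * Real.cos φ)

theorem seg_mp (φ : ℝ) : MeasurePreserving (seg_G φ) volume volume := by
  have h1 : MeasurePreserving ((seg_iso φ).toLinearIsometryEquiv rfl) volume volume :=
    LinearIsometryEquiv.measurePreserving _
  have h2 : MeasurePreserving (@WithLp.ofLp 2 (Fin 2 → ℝ)) volume volume :=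
    PiLp.volume_preserving_ofLp (Fin 2)
  have h3 := (volume_preserving_finTwoArrow ℝ).comp (h2.comp h1)
  exact h3

/-- the point with the rotated coordinates `p` -/
noncomputable def seg_H (φ : ℝ) (p : ℝ × ℝ) : E2 :=
  !₂[p.1 * Real.cos φ - p.2 * Real.sin φ, p.1 * Real.sin φ + p.2 * Real.cos φ]

theorem seg_HG (φ : ℝ) (y : E2) : seg_H φ (seg_G φ y) = y := by
  have h := Real.sin_sq_add_cos_sq φ
  ext i
  fin_cases i
  · simp only [seg_H, seg_G]
    show (y 0 * Real.cos φ + y 1 * Real.sin φ) * Real.cos φ -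
      (-(y 0 * Real.sin φ) + y 1 * Real.cos φ) * Real.sin φ = y 0
    linear_combination (y 0) * h
  · simp only [seg_H, seg_G]
    show (y 0 * Real.cos φ + y 1 * Real.sin φ) * Real.sin φ +
      (-(y 0 * Real.sin φ) + y 1 * Real.cos φ) * Real.cos φ = y 1
    linear_combination (y 1) * h

theorem seg_GH (φ : ℝ) (p : ℝ × ℝ) : seg_G φ (seg_H φ p) = p := by
  have h := Real.sin_sq_add_cos_sq φ
  refine Prod.ext ?_ ?_
  · show (p.1 * Real.cos φ - p.2 * Real.sin φ) * Real.cos φ +
      (p.1 * Real.sin φ + p.2 * Real.cos φ) * Real.sin φ = p.1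
    linear_combination (p.1) * h
  · show -((p.1 * Real.cos φ - p.2 * Real.sin φ) * Real.sin φ) +
      (p.1 * Real.sin φ + p.2 * Real.cos φ) * Real.cos φ = p.2
    linear_combination (p.2) * h

theorem seg_Hc (φ : ℝ) : Continuous (seg_H φ) := by
  unfold seg_H
  fun_prop

theorem seg_Gc (φ : ℝ) : Continuous (seg_G φ) := by
  unfold seg_G
  fun_prop

theorem seg_Gadd (φ : ℝ) (x : E2) (s : ℝ) :
    seg_G φ (x + s • (!₂[-Real.sin φ, Real.cos φ] : E2)) =
      ((seg_G φ x).1, (seg_G φ x).2 + s) := by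
  have h := Real.sin_sq_add_cos_sq φ
  refine Prod.ext ?_ ?_
  · show (x 0 + s * -Real.sin φ) * Real.cos φ + (x 1 + s * Real.cos φ) * Real.sin φ =
      x 0 * Real.cos φ + x 1 * Real.sin φ
    ring
  · show -((x 0 + s * -Real.sin φ) * Real.sin φ) + (x 1 + s * Real.cos φ) * Real.cos φ =
      -(x 0 * Real.sin φ) + x 1 * Real.cos φ + s
    linear_combination s * h

theorem seg_img (M : Set E2) (φ a : ℝ) :
    {y : E2 | ∃ x ∈ M, ∃ s ∈ Set.Icc (-a) a, y = x + s • (!₂[-Real.sin φ, Real.cos φ] : E2)} =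
      (fun p : E2 × ℝ => p.1 + p.2 • (!₂[-Real.sin φ, Real.cos φ] : E2)) ''
        (M ×ˢ Set.Icc (-a) a) := by
  ext y
  constructor
  · rintro ⟨x, hx, s, hs, rfl⟩
    exact ⟨(x, s), ⟨hx, hs⟩, rfl⟩
  · rintro ⟨⟨x, s⟩, ⟨hx, hs⟩, rfl⟩
    exact ⟨x, hx, s, hs, rfl⟩

theorem seg_convex (M : Set E2) (hM : Convex ℝ M) (hMc : IsCompact M) (hM0 : M.Nonempty)
    (φ a : ℝ) (ha : 0 ≤ a) :
    Convex ℝ {y : E2 | ∃ x ∈ M, ∃ s ∈ Set.Icc (-a) a,
        y = x + s • (!₂[-Real.sin φ, Real.cos φ] : E2)} ∧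
    IsCompact {y : E2 | ∃ x ∈ M, ∃ s ∈ Set.Icc (-a) a,
        y = x + s • (!₂[-Real.sin φ, Real.cos φ] : E2)} ∧
    M ⊆ {y : E2 | ∃ x ∈ M, ∃ s ∈ Set.Icc (-a) a,
        y = x + s • (!₂[-Real.sin φ, Real.cos φ] : E2)} := by
  refine ⟨?_, ?_, ?_⟩
  · rintro _ ⟨x, hx, s, hs, rfl⟩ _ ⟨x', hx', s', hs', rfl⟩ p q hp hq hpq
    refine ⟨p • x + q • x', hM hx hx' hp hq hpq, p * s + q * s', ?_, ?_⟩
    · have := (convex_Icc (-a) a) hs hs' hp hq hpq
      simpa using this
    · rw [smul_add, smul_add, smul_smul, smul_smul, add_smul]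
      abel
  · rw [seg_img]
    exact (hMc.prod isCompact_Icc).image (by fun_prop)
  · intro x hx
    exact ⟨x, hx, 0, ⟨by linarith, ha⟩, by rw [zero_smul, add_zero]⟩

open Classical in
/-- fattening a compact interval -/
theorem seg_fib (F : Set ℝ) (hF : Convex ℝ F) (hFc : IsCompact F) (a : ℝ) (ha : 0 ≤ a) :
    volume {v : ℝ | ∃ w ∈ F, ∃ s ∈ Set.Icc (-a) a, v = w + s} =
      volume F + (if F.Nonempty then ENNReal.ofReal (2 * a) else 0) := by
  rcases F.eq_empty_or_nonempty with rfl | hne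
  · simp
  · rw [if_pos hne]
    have hI : F = Set.Icc (sInf F) (sSup F) := by
      apply Set.Subset.antisymm
      · exact subset_Icc_csInf_csSup hFc.bddBelow hFc.bddAbove
      · exact hF.ordConnected.out (hFc.sInf_mem hne) (hFc.sSup_mem hne)
    obtain ⟨c, d, hcd, rfl⟩ : ∃ c d, c ≤ d ∧ F = Set.Icc c d :=
      ⟨sInf F, sSup F, by
        obtain ⟨x, hx⟩ := hne
        exact (csInf_le hFc.bddBelow hx).trans (le_csSup hFc.bddAbove hx), hI⟩
    have h1 : {v : ℝ | ∃ w ∈ Set.Icc c d, ∃ s ∈ Set.Icc (-a) a, v = w + s} =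
        Set.Icc (c - a) (d + a) := by
      ext v
      constructor
      · rintro ⟨w, ⟨hw1, hw2⟩, s, ⟨hs1, hs2⟩, rfl⟩
        exact ⟨by linarith, by linarith⟩
      · rintro ⟨h1, h2⟩
        refine ⟨max c (min d v), ⟨le_max_left _ _, max_le hcd (min_le_left _ _)⟩,
          v - max c (min d v), ⟨?_, ?_⟩, by ring⟩
        · have : max c (min d v) ≤ v + a := max_le (by linarith) ((min_le_right _ _).trans
            (by linarith))
          linarith
        · have : v - a ≤ max c (min d v) := by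
            rcases le_total d v with h | h
            · rw [min_eq_left h]
              exact le_max_of_le_right (by linarith)
            · rw [min_eq_right h]
              exact le_max_of_le_right (by linarith)
          linarith
    rw [h1, Real.volume_Icc, Real.volume_Icc, ← ENNReal.ofReal_add (by linarith) (by linarith)]
    congr 1
    ring

theorem seg_area (M : Set E2) (hM : Convex ℝ M) (hMc : IsCompact M) (hM0 : M.Nonempty)
    (φ a : ℝ) (ha : 0 ≤ a) :
    volume {y : E2 | ∃ x ∈ M, ∃ s ∈ Set.Icc (-a) a,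
        y = x + s • (!₂[-Real.sin φ, Real.cos φ] : E2)} =
      volume M + ENNReal.ofReal (2 * a * wE M φ) := by
  set S : Set E2 := {y : E2 | ∃ x ∈ M, ∃ s ∈ Set.Icc (-a) a,
        y = x + s • (!₂[-Real.sin φ, Real.cos φ] : E2)} with hS
  have hSc : IsCompact S := (seg_convex M hM hMc hM0 φ a ha).2.1
  -- transport to the product
  have key : ∀ A : Set E2, IsCompact A → volume A = volume (seg_G φ '' A) ∧
      IsCompact (seg_G φ '' A) := by
    intro A hA
    have h1 : IsCompact (seg_G φ '' A) := hA.image (seg_Gc φ)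
    refine ⟨?_, h1⟩
    have h2 : seg_G φ ⁻¹' (seg_G φ '' A) = A := by
      apply Set.preimage_image_eq
      intro x y hxy
      rw [← seg_HG φ x, hxy, seg_HG]
    rw [← (seg_mp φ).measure_preimage h1.measurableSet.nullMeasurableSet, h2]
  obtain ⟨hM1, hM2⟩ := key M hMc
  obtain ⟨hS1, hS2⟩ := key S hSc
  set T := seg_G φ '' M with hT
  have hTS : seg_G φ '' S = {p : ℝ × ℝ | ∃ w ∈ Prod.mk p.1 ⁻¹' T, ∃ s ∈ Set.Icc (-a) a,
      p.2 = w + s} := by
    ext p
    constructor
    · rintro ⟨_, ⟨x, hx, s, hs, rfl⟩, rfl⟩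
      rw [seg_Gadd]
      exact ⟨(seg_G φ x).2, ⟨x, hx, rfl⟩, s, hs, rfl⟩
    · rintro ⟨w, ⟨x, hx, hxw⟩, s, hs, hps⟩
      refine ⟨_, ⟨x, hx, s, hs, rfl⟩, ?_⟩
      rw [seg_Gadd, hxw]
      exact Prod.ext rfl hps.symm
  have hTc : Convex ℝ T := by
    have : T = (seg_H φ) ⁻¹' M := by
      ext p
      constructor
      · rintro ⟨x, hx, rfl⟩
        show seg_H φ (seg_G φ x) ∈ M
        rw [seg_HG]
        exact hx
      · intro hp
        exact ⟨seg_H φ p, hp, seg_GH φ p⟩
    rw [this]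
    intro p hp q hq s t hs ht hst
    show seg_H φ (s • p + t • q) ∈ M
    have e : seg_H φ (s • p + t • q) = s • seg_H φ p + t • seg_H φ q := by
      ext i
      fin_cases i
      · show (s * p.1 + t * q.1) * Real.cos φ - (s * p.2 + t * q.2) * Real.sin φ =
          s * (p.1 * Real.cos φ - p.2 * Real.sin φ) + t * (q.1 * Real.cos φ - q.2 * Real.sin φ)
        ring
      · show (s * p.1 + t * q.1) * Real.sin φ + (s * p.2 + t * q.2) * Real.cos φ =
          s * (p.1 * Real.sin φ + p.2 * Real.cos φ) + t * (q.1 * Real.sin φ + q.2 * Real.cos φ)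
        ring
    rw [e]
    exact hM hp hq hs ht hst
  have hfc : ∀ u : ℝ, Convex ℝ (Prod.mk u ⁻¹' T) ∧ IsCompact (Prod.mk u ⁻¹' T) := by
    intro u
    refine ⟨?_, ?_⟩
    · intro p hp q hq s t hs ht hst
      have := hTc hp hq hs ht hst
      have e : s • (u, p) + t • (u, q) = (u, s • p + t • q) := by
        refine Prod.ext ?_ rfl
        show s * u + t * u = u
        rw [← add_mul, hst, one_mul]
      show (u, s • p + t • q) ∈ T
      rw [← e]
      exact this
    · have h1 : Prod.mk u ⁻¹' T ⊆ Prod.snd '' T := fun v hv => ⟨(u, v), hv, rfl⟩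
      exact (hM2.image continuous_snd).of_isClosed_subset
        (hM2.isClosed.preimage (by fun_prop)) h1
  rw [hM1, hS1, Measure.volume_eq_prod, Measure.prod_apply hS2.measurableSet,
    Measure.prod_apply hM2.measurableSet]
  set P : Set ℝ := (fun y : E2 => y 0 * Real.cos φ + y 1 * Real.sin φ) '' M with hP
  have hPc : IsCompact P := hMc.image (by fun_prop)
  have hPn : ∀ u, (Prod.mk u ⁻¹' T).Nonempty ↔ u ∈ P := by
    intro u
    constructor
    · rintro ⟨v, x, hx, hxv⟩
      exact ⟨x, hx, congrArg Prod.fst hxv⟩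
    · rintro ⟨x, hx, hxu⟩
      exact ⟨(seg_G φ x).2, x, hx, Prod.ext hxu rfl⟩
  have h1 : ∀ u : ℝ, volume (Prod.mk u ⁻¹' (seg_G φ '' S)) =
      volume (Prod.mk u ⁻¹' T) + P.indicator (fun _ => ENNReal.ofReal (2 * a)) u := by
    intro u
    have e : Prod.mk u ⁻¹' (seg_G φ '' S) =
        {v : ℝ | ∃ w ∈ Prod.mk u ⁻¹' T, ∃ s ∈ Set.Icc (-a) a, v = w + s} := by
      rw [hTS]
      rfl
    rw [e, seg_fib _ (hfc u).1 (hfc u).2 a ha]
    congr 1
    by_cases hu : u ∈ P
    · rw [if_pos ((hPn u).2 hu), Set.indicator_of_mem hu]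
    · rw [if_neg (fun h => hu ((hPn u).1 h)), Set.indicator_of_notMem hu]
  simp_rw [h1]
  rw [lintegral_add_right _ (measurable_const.indicator hPc.measurableSet),
    lintegral_indicator hPc.measurableSet, setLIntegral_const]
  congr 1
  rw [ENNReal.ofReal_mul (p := 2 * a) (by linarith)]
  congr 1
  exact (ENNReal.ofReal_toReal hPc.measure_lt_top.ne).symm

end STB
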