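import Pool.Agent.Lib_helper15.STB.Defs

/-! # STB, block wid : the width function of a plane convex set -/

open MeasureTheory Filter Topology
open scoped InnerProductSpace
open Pool.Agent.Lib_helper15.STE

namespace STB

/-- the linear functional -/
noncomputable def wid_l (φ : ℝ) (y : E2) : ℝ := y 0 * Real.cos φ + y 1 * Real.sin φ

theorem wid_l_cont (φ : ℝ) : Continuous (wid_l φ) := by
  unfold wid_l; fun_prop

theorem wid_def (M : Set E2) (φ : ℝ) : wE M φ = (volume (wid_l φ '' M)).toReal := rfl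

theorem wid_l_sub (φ : ℝ) (y z : E2) : |wid_l φ y - wid_l φ z| ≤ ‖y - z‖ := by
  have h1 : wid_l φ y - wid_l φ z = (y - z) 0 * Real.cos φ + (y - z) 1 * Real.sin φ := by
    unfold wid_l
    simp only [PiLp.sub_apply]
    ring
  rw [h1, EuclideanSpace.norm_eq, Fin.sum_univ_two, Real.norm_eq_abs, Real.norm_eq_abs, sq_abs,
    sq_abs]
  apply Real.abs_le_sqrt
  have h2 := Real.sin_sq_add_cos_sq φ
  nlinarith [sq_nonneg ((y - z) 0 * Real.sin φ - (y - z) 1 * Real.cos φ)]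

theorem wid_l_abs (φ : ℝ) (y : E2) : |wid_l φ y| ≤ ‖y‖ := by
  have h := wid_l_sub φ y 0
  have h0 : wid_l φ 0 = 0 := by simp [wid_l]
  rwa [h0, sub_zero, sub_zero] at h

theorem wid_cos (a b : ℝ) : |Real.cos a - Real.cos b| ≤ |a - b| := by
  rw [Real.cos_sub_cos, abs_mul, abs_mul]
  have h1 : |Real.sin ((a - b) / 2)| ≤ |(a - b) / 2| := Real.abs_sin_le_abs
  have h2 : |Real.sin ((a + b) / 2)| ≤ 1 := Real.abs_sin_le_one _
  have h3 : |(a - b) / 2| = |a - b| / 2 := by rw [abs_div, abs_two]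
  have h4 := abs_nonneg (Real.sin ((a - b) / 2))
  have h5 := abs_nonneg (Real.sin ((a + b) / 2))
  rw [abs_neg, abs_two]
  nlinarith

theorem wid_sin (a b : ℝ) : |Real.sin a - Real.sin b| ≤ |a - b| := by
  rw [Real.sin_sub_sin, abs_mul, abs_mul]
  have h1 : |Real.sin ((a - b) / 2)| ≤ |(a - b) / 2| := Real.abs_sin_le_abs
  have h2 : |Real.cos ((a + b) / 2)| ≤ 1 := Real.abs_cos_le_one _
  have h3 : |(a - b) / 2| = |a - b| / 2 := by rw [abs_div, abs_two]
  have h4 := abs_nonneg (Real.sin ((a - b) / 2))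
  have h5 := abs_nonneg (Real.cos ((a + b) / 2))
  rw [abs_two]
  nlinarith

theorem wid_nonneg (M : Set E2) (φ : ℝ) : 0 ≤ wE M φ := ENNReal.toReal_nonneg

theorem wid_fin (M : Set E2) (hM : Bornology.IsBounded M) (φ : ℝ) :
    volume (wid_l φ '' M) ≠ ⊤ := by
  obtain ⟨R, hR⟩ := hM.exists_norm_le
  have hsub : wid_l φ '' M ⊆ Set.Icc (-R) R := by
    rintro _ ⟨y, hy, rfl⟩
    have h1 := (wid_l_abs φ y).trans (hR y hy)
    exact abs_le.1 h1
  refine ne_top_of_le_ne_top ?_ (measure_mono hsub)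
  rw [Real.volume_Icc]
  exact ENNReal.ofReal_ne_top

theorem wid_mono (M M' : Set E2) (h : M ⊆ M') (hM' : Bornology.IsBounded M') (φ : ℝ) :
    wE M φ ≤ wE M' φ := by
  rw [wid_def, wid_def]
  exact ENNReal.toReal_mono (wid_fin M' hM' φ) (measure_mono (Set.image_mono h))

theorem wid_period (M : Set E2) (φ : ℝ) : wE M (φ + Real.pi) = wE M φ := by
  rw [wid_def, wid_def]
  congr 1
  have h1 : wid_l (φ + Real.pi) '' M = -(wid_l φ '' M) := by
    ext x
    rw [Set.mem_neg]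
    constructor
    · rintro ⟨y, hy, rfl⟩
      refine ⟨y, hy, ?_⟩
      unfold wid_l
      rw [Real.cos_add_pi, Real.sin_add_pi]; ring
    · rintro ⟨y, hy, h⟩
      refine ⟨y, hy, ?_⟩
      unfold wid_l at h ⊢
      rw [Real.cos_add_pi, Real.sin_add_pi]; linarith
  rw [h1, Measure.measure_neg]

theorem wid_icc (M : Set E2) (hM : Convex ℝ M) (hMc : IsCompact M) (hM0 : M.Nonempty) (φ : ℝ) :
    ∃ a b : ℝ, a ≤ b ∧ wid_l φ '' M = Set.Icc a b ∧ wE M φ = b - a := by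
  have hconn : IsConnected (wid_l φ '' M) :=
    ⟨hM0.image _, (hM.isPreconnected).image _ (wid_l_cont φ).continuousOn⟩
  have hcomp : IsCompact (wid_l φ '' M) := hMc.image (wid_l_cont φ)
  have h1 := eq_Icc_of_connected_compact hconn hcomp
  have h2 : sInf (wid_l φ '' M) ≤ sSup (wid_l φ '' M) :=
    csInf_le_csSup hconn.nonempty hcomp.bddBelow hcomp.bddAbove
  refine ⟨_, _, h2, h1, ?_⟩
  rw [wid_def]
  nth_rewrite 1 [h1]
  rw [Real.volume_Icc, ENNReal.toReal_ofReal (by linarith)]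

theorem wid_close (M M' : Set E2) (hM : Convex ℝ M) (hMc : IsCompact M) (hM0 : M.Nonempty)
    (hM' : Convex ℝ M') (hMc' : IsCompact M') (φ ψ ε : ℝ) (hε : 0 ≤ ε)
    (h : ∀ y' ∈ M', ∃ y ∈ M, |wid_l ψ y' - wid_l φ y| ≤ ε) : wE M' ψ ≤ wE M φ + 2 * ε := by
  rcases M'.eq_empty_or_nonempty with he | hne
  · rw [wid_def M', he, Set.image_empty, measure_empty, ENNReal.toReal_zero]
    have := wid_nonneg M φ
    linarith
  · obtain ⟨a, b, hab, h1, h2⟩ := wid_icc M hM hMc hM0 φ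
    obtain ⟨a', b', hab', h1', h2'⟩ := wid_icc M' hM' hMc' hne ψ
    have ha : a' ∈ wid_l ψ '' M' := by rw [h1']; exact ⟨le_rfl, hab'⟩
    have hb : b' ∈ wid_l ψ '' M' := by rw [h1']; exact ⟨hab', le_rfl⟩
    obtain ⟨y1, hy1, e1⟩ := ha
    obtain ⟨y2, hy2, e2⟩ := hb
    obtain ⟨z1, hz1, f1⟩ := h y1 hy1
    obtain ⟨z2, hz2, f2⟩ := h y2 hy2
    have g1 : wid_l φ z1 ∈ Set.Icc a b := by rw [← h1]; exact ⟨z1, hz1, rfl⟩
    have g2 : wid_l φ z2 ∈ Set.Icc a b := by rw [← h1]; exact ⟨z2, hz2, rfl⟩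
    rw [h2, h2']
    rw [e1] at f1
    rw [e2] at f2
    have := abs_le.1 f1
    have := abs_le.1 f2
    linarith [g1.1, g1.2, g2.1, g2.2]

theorem wid_lip (M : Set E2) (hM : Convex ℝ M) (hMc : IsCompact M) : ∃ C : ℝ, 0 ≤ C ∧
    (∀ φ, wE M φ ≤ C) ∧ ∀ φ ψ, |wE M φ - wE M ψ| ≤ C * |φ - ψ| := by
  rcases M.eq_empty_or_nonempty with he | hne
  · have h0 : ∀ φ, wE M φ = 0 := by
      intro φ
      rw [wid_def M, he, Set.image_empty, measure_empty, ENNReal.toReal_zero]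
    refine ⟨0, le_rfl, fun φ => (h0 φ).le, fun φ ψ => ?_⟩
    rw [h0, h0]; simp
  · obtain ⟨R, hR⟩ := hMc.isBounded.exists_norm_le
    have hR0 : 0 ≤ R := by
      obtain ⟨y, hy⟩ := hne
      exact (norm_nonneg y).trans (hR y hy)
    have hdiff : ∀ φ ψ, wE M φ ≤ wE M ψ + 2 * (2 * R * |φ - ψ|) := by
      intro φ ψ
      refine wid_close M M hM hMc hne hM hMc ψ φ (2 * R * |φ - ψ|) (by positivity) ?_
      intro y hy
      refine ⟨y, hy, ?_⟩
      have e : wid_l φ y - wid_l ψ y = y 0 * (Real.cos φ - Real.cos ψ) +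
          y 1 * (Real.sin φ - Real.sin ψ) := by
        unfold wid_l; ring
      have n0 : |y 0| ≤ R := (by rw [← Real.norm_eq_abs]; exact (PiLp.norm_apply_le y 0).trans (hR y hy))
      have n1 : |y 1| ≤ R := (by rw [← Real.norm_eq_abs]; exact (PiLp.norm_apply_le y 1).trans (hR y hy))
      rw [e]
      calc |y 0 * (Real.cos φ - Real.cos ψ) + y 1 * (Real.sin φ - Real.sin ψ)|
          ≤ |y 0 * (Real.cos φ - Real.cos ψ)| + |y 1 * (Real.sin φ - Real.sin ψ)| :=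
            abs_add_le _ _
        _ = |y 0| * |Real.cos φ - Real.cos ψ| + |y 1| * |Real.sin φ - Real.sin ψ| := by
            rw [abs_mul, abs_mul]
        _ ≤ R * |φ - ψ| + R * |φ - ψ| := by
            have := wid_cos φ ψ
            have := wid_sin φ ψ
            gcongr
        _ = 2 * R * |φ - ψ| := by ring
    refine ⟨4 * R, by positivity, ?_, ?_⟩
    · intro φ
      obtain ⟨a, b, hab, h1, h2⟩ := wid_icc M hM hMc hne φ
      have ha : a ∈ wid_l φ '' M := by rw [h1]; exact ⟨le_rfl, hab⟩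
      have hb : b ∈ wid_l φ '' M := by rw [h1]; exact ⟨hab, le_rfl⟩
      obtain ⟨y1, hy1, rfl⟩ := ha
      obtain ⟨y2, hy2, rfl⟩ := hb
      have f1 := abs_le.1 ((wid_l_abs φ y1).trans (hR y1 hy1))
      have f2 := abs_le.1 ((wid_l_abs φ y2).trans (hR y2 hy2))
      rw [h2]
      linarith [f1.1, f2.2]
    · intro φ ψ
      have h1 := hdiff φ ψ
      have h2 := hdiff ψ φ
      rw [abs_sub_comm ψ φ] at h2
      rw [abs_le]
      constructor <;> linarith

/-- the width of a thickened set -/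
theorem wid_add (M : Set E2) (hM : Convex ℝ M) (hMc : IsCompact M) (hM0 : M.Nonempty)
    (M' : Set E2) (hM' : Convex ℝ M') (hMc' : IsCompact M') (r : ℝ) (hr : 0 ≤ r)
    (h : M' ⊆ Metric.cthickening r M) (φ : ℝ) : wE M' φ ≤ wE M φ + 2 * r := by
  refine wid_close M M' hM hMc hM0 hM' hMc' φ φ r hr fun y' hy' => ?_
  have h1 := h hy'
  rw [hMc.cthickening_eq_biUnion_closedBall hr] at h1
  obtain ⟨y, hy, hyy⟩ := Set.mem_iUnion₂.1 h1
  refine ⟨y, hy, (wid_l_sub φ y' y).trans ?_⟩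
  rw [← dist_eq_norm]
  exact hyy

end STB
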