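import Pool.Agent.Lib_helper15.STB.Defs
import Pool.Agent.Lib_helper15.STB.B.seg
import Pool.Agent.Lib_helper15.STB.B.wid

/-! # STB, block plo : lower bound for the perimeter by inscribed zonogons -/

open MeasureTheory Filter Topology
open scoped InnerProductSpace
open Pool.Agent.Lib_helper15.STE

namespace STB

/-- the direction orthogonal to the angle -/
noncomputable def plo_d (t : ℝ) : E2 := !₂[-Real.sin t, Real.cos t]

/-- the set `M` with the first `k` segments added -/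
noncomputable def plo_M (M : Set E2) (ψ ρ : ℕ → ℝ) (ε : ℝ) : ℕ → Set E2
  | 0 => M
  | k + 1 => {y : E2 | ∃ x ∈ plo_M M ψ ρ ε k, ∃ s ∈ Set.Icc (-(ε * ρ k)) (ε * ρ k),
      y = x + s • (!₂[-Real.sin (ψ k), Real.cos (ψ k)] : E2)}

theorem plo_basic (M : Set E2) (hM : Convex ℝ M) (hMc : IsCompact M) (hM0 : M.Nonempty)
    (ψ ρ : ℕ → ℝ) (hρ : ∀ j, 0 ≤ ρ j) (ε : ℝ) (hε : 0 < ε) (k : ℕ) :
    Convex ℝ (plo_M M ψ ρ ε k) ∧ IsCompact (plo_M M ψ ρ ε k) ∧ M ⊆ plo_M M ψ ρ ε k ∧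
    volume M + ENNReal.ofReal (ε * (2 * ∑ j ∈ Finset.range k, ρ j * wE M (ψ j))) ≤
      volume (plo_M M ψ ρ ε k) := by
  induction k with
  | zero =>
    refine ⟨hM, hMc, subset_rfl, ?_⟩
    simp [plo_M]
  | succ k ih =>
    obtain ⟨h1, h2, h3, h4⟩ := ih
    have hne : (plo_M M ψ ρ ε k).Nonempty := hM0.mono h3
    have ha : 0 ≤ ε * ρ k := mul_nonneg hε.le (hρ k)
    obtain ⟨c1, c2, c3⟩ := seg_convex (plo_M M ψ ρ ε k) h1 h2 hne (ψ k) (ε * ρ k) ha
    have hv := seg_area (plo_M M ψ ρ ε k) h1 h2 hne (ψ k) (ε * ρ k) ha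
    refine ⟨c1, c2, h3.trans c3, ?_⟩
    have hv' : volume (plo_M M ψ ρ ε (k + 1)) = volume (plo_M M ψ ρ ε k) +
        ENNReal.ofReal (2 * (ε * ρ k) * wE (plo_M M ψ ρ ε k) (ψ k)) := hv
    rw [hv']
    have hw := wid_mono M (plo_M M ψ ρ ε k) h3 h2.isBounded (ψ k)
    have hw0 := wid_nonneg M (ψ k)
    have hsum : 0 ≤ ∑ j ∈ Finset.range k, ρ j * wE M (ψ j) :=
      Finset.sum_nonneg fun j _ => mul_nonneg (hρ j) (wid_nonneg M (ψ j))
    have e1 : ENNReal.ofReal (ε * (2 * ∑ j ∈ Finset.range (k + 1), ρ j * wE M (ψ j))) =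
        ENNReal.ofReal (ε * (2 * ∑ j ∈ Finset.range k, ρ j * wE M (ψ j))) +
          ENNReal.ofReal (2 * (ε * ρ k) * wE M (ψ k)) := by
      rw [← ENNReal.ofReal_add (by positivity) (by have := hρ k; positivity)]
      congr 1
      rw [Finset.sum_range_succ]
      ring
    rw [e1, ← add_assoc]
    refine add_le_add h4 (ENNReal.ofReal_le_ofReal ?_)
    exact mul_le_mul_of_nonneg_left hw (by have := hρ k; positivity)

theorem plo_rep (M : Set E2) (ψ ρ : ℕ → ℝ) (ε : ℝ) (k : ℕ) (y : E2)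
    (hy : y ∈ plo_M M ψ ρ ε k) :
    ∃ x ∈ M, ∃ s : ℕ → ℝ, (∀ j, j < k → |s j| ≤ ε * ρ j) ∧
      y = x + ∑ j ∈ Finset.range k, s j • plo_d (ψ j) := by
  induction k generalizing y with
  | zero => exact ⟨y, hy, fun _ => 0, by simp, by simp⟩
  | succ k ih =>
    obtain ⟨x, hx, s, hs, rfl⟩ := hy
    obtain ⟨x', hx', s', hs', rfl⟩ := ih x hx
    refine ⟨x', hx', fun j => if j = k then s else s' j, ?_, ?_⟩
    · intro j hj
      by_cases h : j = k
      · subst h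
        simp only [if_true]
        exact abs_le.2 ⟨hs.1, hs.2⟩
      · simp only [h, if_false]
        exact hs' j (by omega)
    · rw [Finset.sum_range_succ]
      simp only [if_true]
      have : ∑ j ∈ Finset.range k, (if j = k then s else s' j) • plo_d (ψ j) =
          ∑ j ∈ Finset.range k, s' j • plo_d (ψ j) := by
        refine Finset.sum_congr rfl fun j hj => ?_
        have : j ≠ k := (Finset.mem_range.1 hj).ne
        simp [this]
      rw [this, add_assoc]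
      rfl

theorem plo_norm (n : ℕ) (ψ ρ : ℕ → ℝ) (hs : ∀ θ : ℝ,
    ∑ j ∈ Finset.range n, ρ j * |Real.sin (θ - ψ j)| ≤ 1) (ε : ℝ) (hε : 0 < ε)
    (s : ℕ → ℝ) (h : ∀ j, j < n → |s j| ≤ ε * ρ j) :
    ‖∑ j ∈ Finset.range n, s j • plo_d (ψ j)‖ ≤ ε := by
  set z : E2 := ∑ j ∈ Finset.range n, s j • plo_d (ψ j) with hz
  have z0 : z 0 = ∑ j ∈ Finset.range n, s j * (-Real.sin (ψ j)) := by
    rw [hz]; simp [plo_d]
  have z1 : z 1 = ∑ j ∈ Finset.range n, s j * Real.cos (ψ j) := by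
    rw [hz]; simp [plo_d]
  have hn : ‖z‖ = Real.sqrt (z 0 ^ 2 + z 1 ^ 2) := by
    rw [EuclideanSpace.norm_eq]
    simp [Fin.sum_univ_two]
  have hc : ‖(⟨z 0, z 1⟩ : ℂ)‖ = ‖z‖ := by
    rw [hn, Complex.norm_def, Complex.normSq_apply]
    congr 1
    ring
  set w : ℂ := ⟨z 0, z 1⟩ with hw
  set θ := Complex.arg w with hθ
  have c0 : z 0 = ‖z‖ * Real.cos θ := by
    rw [← hc]; exact (Complex.norm_mul_cos_arg w).symm
  have c1 : z 1 = ‖z‖ * Real.sin θ := by
    rw [← hc]; exact (Complex.norm_mul_sin_arg w).symm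
  have key : ‖z‖ = z 0 * Real.cos θ + z 1 * Real.sin θ := by
    have := Real.sin_sq_add_cos_sq θ
    rw [c0, c1]
    linear_combination (-‖z‖) * this
  have key2 : ‖z‖ = ∑ j ∈ Finset.range n, s j * Real.sin (θ - ψ j) := by
    rw [key, z0, z1, Finset.sum_mul, Finset.sum_mul, ← Finset.sum_add_distrib]
    refine Finset.sum_congr rfl fun j _ => ?_
    rw [Real.sin_sub]
    ring
  rw [key2]
  calc ∑ j ∈ Finset.range n, s j * Real.sin (θ - ψ j)
      ≤ ∑ j ∈ Finset.range n, ε * (ρ j * |Real.sin (θ - ψ j)|) := by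
        refine Finset.sum_le_sum fun j hj => ?_
        calc s j * Real.sin (θ - ψ j) ≤ |s j * Real.sin (θ - ψ j)| := le_abs_self _
          _ = |s j| * |Real.sin (θ - ψ j)| := abs_mul _ _
          _ ≤ (ε * ρ j) * |Real.sin (θ - ψ j)| :=
              mul_le_mul_of_nonneg_right (h j (Finset.mem_range.1 hj)) (abs_nonneg _)
          _ = ε * (ρ j * |Real.sin (θ - ψ j)|) := by ring
    _ = ε * ∑ j ∈ Finset.range n, ρ j * |Real.sin (θ - ψ j)| := by rw [Finset.mul_sum]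
    _ ≤ ε * 1 := mul_le_mul_of_nonneg_left (hs θ) hε.le
    _ = ε := mul_one ε

/-- the last step, for both blocks -/
theorem plo_liminf {n : ℕ} (M : Set (EuclideanSpace ℝ (Fin n))) (hMc : IsCompact M) (c : ℝ)
    (N : ℝ → Set (EuclideanSpace ℝ (Fin n)))
    (h : ∀ ε : ℝ, 0 < ε → N ε ⊆ Metric.cthickening ε M ∧
      volume M + ENNReal.ofReal (ε * c) ≤ volume (N ε)) :
    ENNReal.ofReal c ≤ bd M := by
  unfold bd
  refine le_liminf_of_le (by isBoundedDefault) ?_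
  filter_upwards [self_mem_nhdsWithin] with ε hε
  have hε' : 0 < ε := hε
  obtain ⟨h1, h2⟩ := h ε hε'
  have hfin : volume M ≠ ⊤ := hMc.measure_lt_top.ne
  have hsub : M ⊆ Metric.cthickening ε M := Metric.self_subset_cthickening M
  rw [measure_sdiff hsub hMc.measurableSet.nullMeasurableSet hfin]
  have h3 : ENNReal.ofReal (ε * c) ≤ volume (Metric.cthickening ε M) - volume M := by
    refine ENNReal.le_sub_of_add_le_left hfin ?_
    exact h2.trans (measure_mono h1)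
  have h4 : ENNReal.ofReal c = ENNReal.ofReal (ε * c) / ENNReal.ofReal ε := by
    rw [ENNReal.ofReal_mul hε'.le, mul_comm, ENNReal.mul_div_cancel_right
      (by simpa using hε') ENNReal.ofReal_ne_top]
  rw [h4]
  exact ENNReal.div_le_div_right h3 _

theorem plo_main (M : Set E2) (hM : Convex ℝ M) (hMc : IsCompact M) (hM0 : M.Nonempty)
    (n : ℕ) (ψ ρ : ℕ → ℝ) (hρ : ∀ j, 0 ≤ ρ j)
    (hs : ∀ θ : ℝ, ∑ j ∈ Finset.range n, ρ j * |Real.sin (θ - ψ j)| ≤ 1) :
    ENNReal.ofReal (2 * ∑ j ∈ Finset.range n, ρ j * wE M (ψ j)) ≤ bd M := by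
  refine plo_liminf M hMc _ (fun ε => plo_M M ψ ρ ε n) fun ε hε => ?_
  obtain ⟨-, -, -, h4⟩ := plo_basic M hM hMc hM0 ψ ρ hρ ε hε n
  refine ⟨?_, h4⟩
  intro y hy
  obtain ⟨x, hx, s, h, rfl⟩ := plo_rep M ψ ρ ε n y hy
  refine Metric.mem_cthickening_of_dist_le _ x ε M hx ?_
  rw [dist_eq_norm, add_sub_cancel_left]
  exact plo_norm n ψ ρ hs ε hε s h

end STB
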