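import Pool.Agent.Lib_helper15.STB.Defs
import Pool.Agent.Lib_helper15.STB.B.wid
import Pool.Agent.Lib_helper15.STB.B.plo
import Pool.Agent.Lib_helper15.STB.B.rie

/-! # STB, block plc (helper97): continuous version of plo -/

open MeasureTheory Filter Topology
open scoped InnerProductSpace
open Pool.Agent.Lib_helper15.STE

namespace STB

theorem plc_C0 {ρ : ℝ → ℝ} {C' : ℝ} (hρ : ∀ x y, |ρ x - ρ y| ≤ C' * |x - y|) : 0 ≤ C' := by
  have h := hρ 1 0
  have h1 : |(1 : ℝ) - 0| = 1 := by norm_num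
  rw [h1, mul_one] at h
  exact (abs_nonneg _).trans h

theorem plc_bound {ρ : ℝ → ℝ} {C' : ℝ} (hρ : ∀ x y, |ρ x - ρ y| ≤ C' * |x - y|)
    (hp : ∀ x, ρ (x + Real.pi) = ρ x) : ∃ B : ℝ, 0 ≤ B ∧ ∀ x, |ρ x| ≤ B := by
  have hC0 := plc_C0 hρ
  refine ⟨|ρ 0| + C' * Real.pi, by positivity, fun x => ?_⟩
  have hper : Function.Periodic ρ Real.pi := hp
  obtain ⟨y, hy, hxy⟩ := hper.exists_mem_Ico₀ Real.pi_pos x
  rw [hxy]
  have h1 := hρ y 0
  have h2 : |y - 0| ≤ Real.pi := by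
    rw [sub_zero, abs_of_nonneg hy.1]
    exact hy.2.le
  have h3 : |ρ y| ≤ |ρ 0| + |ρ y - ρ 0| := by
    have := abs_add_le (ρ 0) (ρ y - ρ 0)
    rwa [add_sub_cancel] at this
  have h4 : C' * |y - 0| ≤ C' * Real.pi := mul_le_mul_of_nonneg_left h2 hC0
  linarith

theorem plc_prod {f g : ℝ → ℝ} {a b A B : ℝ} (hf : ∀ x y, |f x - f y| ≤ a * |x - y|)
    (hg : ∀ x y, |g x - g y| ≤ b * |x - y|) (hA : ∀ x, |f x| ≤ A) (hB : ∀ x, |g x| ≤ B)
    (x y : ℝ) : |f x * g x - f y * g y| ≤ (A * b + a * B) * |x - y| := by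
  have e : f x * g x - f y * g y = f x * (g x - g y) + (f x - f y) * g y := by ring
  rw [e]
  have hA0 : 0 ≤ A := (abs_nonneg _).trans (hA 0)
  have ha0 := plc_C0 hf
  have h1 : |f x * (g x - g y)| ≤ A * (b * |x - y|) := by
    rw [abs_mul]
    exact mul_le_mul (hA x) (hg x y) (abs_nonneg _) hA0
  have h2 : |(f x - f y) * g y| ≤ (a * |x - y|) * B := by
    rw [abs_mul]
    exact mul_le_mul (hf x y) (hB y) (abs_nonneg _) (by positivity)
  refine (abs_add_le _ _).trans ((add_le_add h1 h2).trans (le_of_eq ?_))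
  ring

theorem plc_sin (θ x y : ℝ) :
    abs (abs (Real.sin (θ - x)) - abs (Real.sin (θ - y))) ≤ 1 * |x - y| := by
  rw [one_mul]
  refine (abs_abs_sub_abs_le_abs_sub _ _).trans ?_
  have h := Real.abs_sin_sub_sin_le (θ - x) (θ - y)
  have e : θ - x - (θ - y) = -(x - y) := by ring
  rwa [e, abs_neg] at h

theorem plc_main (M : Set E2) (hM : Convex ℝ M) (hMc : IsCompact M) (hM0 : M.Nonempty)
    (ρ : ℝ → ℝ) (C' : ℝ) (hρ : ∀ x y, |ρ x - ρ y| ≤ C' * |x - y|)
    (hp : ∀ x, ρ (x + Real.pi) = ρ x) (h0 : ∀ x, 0 ≤ ρ x) (C : ℝ) (hC0 : 0 < C)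
    (hC : ∀ θ : ℝ, ∫ ψ in (0:ℝ)..Real.pi, ρ ψ * |Real.sin (θ - ψ)| ≤ C) :
    ENNReal.ofReal (2 * ∫ ψ in (0:ℝ)..Real.pi, ρ ψ * wE M ψ) ≤ ENNReal.ofReal C * bd M := by
  by_cases htop : bd M = ⊤
  · rw [htop, ENNReal.mul_top (by simpa using hC0)]
    exact le_top
  obtain ⟨B, hB0, hB⟩ := plc_bound hρ hp
  obtain ⟨Cw, hCw0, hw1, hw2⟩ := wid_lip M hM hMc
  have hw1' : ∀ x, |wE M x| ≤ Cw := fun x => by
    rw [abs_of_nonneg (wid_nonneg M x)]
    exact hw1 x
  have hs1 : ∀ θ x : ℝ, |(|Real.sin (θ - x)|)| ≤ 1 := fun θ x => by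
    rw [abs_abs]
    exact Real.abs_sin_le_one _
  set P : ℝ := (bd M).toReal with hP
  have hP0 : 0 ≤ P := ENNReal.toReal_nonneg
  set K1 : ℝ := B * 1 + C' * 1 with hK1
  have hC'0 := plc_C0 hρ
  have hK10 : 0 ≤ K1 := by positivity
  set K2 : ℝ := B * Cw + C' * Cw with hK2
  set I : ℝ := ∫ ψ in (0:ℝ)..Real.pi, ρ ψ * wE M ψ with hI
  have key : ∀ n : ℕ, 0 < n → 2 * I ≤ C * P + (K1 * Real.pi ^ 2 * P + 2 * (K2 * Real.pi ^ 2)) / n := by
    intro n hn
    have hnr : (0 : ℝ) < n := by exact_mod_cast hn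
    have hpn : 0 < Real.pi / n := div_pos Real.pi_pos hnr
    set E : ℝ := C + K1 * Real.pi ^ 2 / n with hE
    have hE0 : 0 < E := by positivity
    have h1 : ∀ θ : ℝ, ∑ j ∈ Finset.range n, (Real.pi / n * ρ (0 + j * (Real.pi / n)) / E) *
        |Real.sin (θ - (0 + j * (Real.pi / n)))| ≤ 1 := by
      intro θ
      have h2 := rie_main (fun x => ρ x * |Real.sin (θ - x)|) K1
        (fun x y => plc_prod hρ (plc_sin θ) hB (hs1 θ) x y)
        (fun x => by
          rw [hp]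
          congr 1
          have e : θ - (x + Real.pi) = (θ - x) - Real.pi := by ring
          rw [e, Real.sin_sub_pi, abs_neg]) n hn 0
      have h3 := hC θ
      rw [abs_le] at h2
      have h4 : Real.pi / n * ∑ j ∈ Finset.range n,
          ρ (0 + j * (Real.pi / n)) * |Real.sin (θ - (0 + j * (Real.pi / n)))| ≤ E := by
        rw [hE]
        linarith [h2.2]
      have h5 : ∑ j ∈ Finset.range n, (Real.pi / n * ρ (0 + j * (Real.pi / n)) / E) *
          |Real.sin (θ - (0 + j * (Real.pi / n)))| =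
          (Real.pi / n * ∑ j ∈ Finset.range n,
            ρ (0 + j * (Real.pi / n)) * |Real.sin (θ - (0 + j * (Real.pi / n)))|) / E := by
        rw [Finset.mul_sum, Finset.sum_div]
        apply Finset.sum_congr rfl
        intro j _
        ring
      rw [h5, div_le_one hE0]
      exact h4
    have h6 := plo_main M hM hMc hM0 n (fun j => 0 + j * (Real.pi / n))
      (fun j => Real.pi / n * ρ (0 + j * (Real.pi / n)) / E)
      (fun j => div_nonneg (mul_nonneg hpn.le (h0 _)) hE0.le) h1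
    have h7 : 2 * ∑ j ∈ Finset.range n, Real.pi / n * ρ (0 + j * (Real.pi / n)) / E *
        wE M (0 + j * (Real.pi / n)) ≤ P := by
      rw [hP]
      exact (ENNReal.ofReal_le_iff_le_toReal htop).1 h6
    have h8 : ∑ j ∈ Finset.range n, Real.pi / n * ρ (0 + j * (Real.pi / n)) / E *
        wE M (0 + j * (Real.pi / n)) = (Real.pi / n * ∑ j ∈ Finset.range n,
          ρ (0 + j * (Real.pi / n)) * wE M (0 + j * (Real.pi / n))) / E := by
      rw [Finset.mul_sum, Finset.sum_div]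
      apply Finset.sum_congr rfl
      intro j _
      ring
    rw [h8] at h7
    have h9 : 2 * (Real.pi / n * ∑ j ∈ Finset.range n,
          ρ (0 + j * (Real.pi / n)) * wE M (0 + j * (Real.pi / n))) ≤ P * E := by
      rw [← div_le_iff₀ hE0]
      rw [mul_div_assoc]
      exact h7
    have h10 := rie_main (fun x => ρ x * wE M x) K2
      (fun x y => plc_prod hρ hw2 hB hw1' x y)
      (fun x => by
        rw [hp, wid_period]) n hn 0
    rw [abs_le] at h10
    have h11 : I ≤ Real.pi / n * ∑ j ∈ Finset.range n,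
          ρ (0 + j * (Real.pi / n)) * wE M (0 + j * (Real.pi / n)) + K2 * Real.pi ^ 2 / n := by
      rw [hI]
      linarith [h10.1]
    have h12 : C * P + (K1 * Real.pi ^ 2 * P + 2 * (K2 * Real.pi ^ 2)) / n =
        P * E + 2 * (K2 * Real.pi ^ 2 / n) := by
      rw [hE]
      ring
    rw [h12]
    linarith
  have hlim : 2 * I ≤ C * P := by
    have ht : Tendsto (fun n : ℕ => C * P + (K1 * Real.pi ^ 2 * P + 2 * (K2 * Real.pi ^ 2)) / n)
        atTop (𝓝 (C * P + 0)) :=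
      tendsto_const_nhds.add (tendsto_const_div_atTop_nhds_zero_nat _)
    rw [add_zero] at ht
    refine ge_of_tendsto ht ?_
    filter_upwards [eventually_gt_atTop 0] with n hn
    exact key n hn
  calc ENNReal.ofReal (2 * I) ≤ ENNReal.ofReal (C * P) := ENNReal.ofReal_le_ofReal hlim
    _ = ENNReal.ofReal C * bd M := by
        rw [ENNReal.ofReal_mul hC0.le, hP, ENNReal.ofReal_toReal htop]

end STB
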