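import Pool.Agent.Lib_helper15.STB.Defs
import Pool.Agent.Lib_helper15.STB.B.seg
import Pool.Agent.Lib_helper15.STB.B.wid

/-! # STB, block pup : upper bound for the perimeter by circumscribed zonogons (helper33) -/

open MeasureTheory Filter Topology
open scoped InnerProductSpace
open Pool.Agent.Lib_helper15.STE

namespace STB

/-- the direction of the `j`-th segment -/
noncomputable def pup_d (ψ : ℕ → ℝ) (j : ℕ) : E2 := !₂[-Real.sin (ψ j), Real.cos (ψ j)]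

/-- `M` plus the first `k` segments -/
noncomputable def pup_M (M : Set E2) (ψ ρ : ℕ → ℝ) (ε : ℝ) : ℕ → Set E2
  | 0 => M
  | k + 1 => {y : E2 | ∃ x ∈ pup_M M ψ ρ ε k, ∃ s ∈ Set.Icc (-(ε * ρ k)) (ε * ρ k),
      y = x + s • (!₂[-Real.sin (ψ k), Real.cos (ψ k)] : E2)}

theorem pup_props (M : Set E2) (hM : Convex ℝ M) (hMc : IsCompact M) (hM0 : M.Nonempty)
    (ψ ρ : ℕ → ℝ) (hρ : ∀ j, 0 ≤ ρ j) (ε : ℝ) (hε : 0 ≤ ε) (k : ℕ) :
    Convex ℝ (pup_M M ψ ρ ε k) ∧ IsCompact (pup_M M ψ ρ ε k) ∧ M ⊆ pup_M M ψ ρ ε k := by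
  induction k with
  | zero => exact ⟨hM, hMc, le_rfl⟩
  | succ k ih =>
    obtain ⟨h1, h2, h3⟩ := ih
    obtain ⟨g1, g2, g3⟩ := seg_convex (pup_M M ψ ρ ε k) h1 h2 (hM0.mono h3) (ψ k) (ε * ρ k)
      (mul_nonneg hε (hρ k))
    exact ⟨g1, g2, h3.trans g3⟩

theorem pup_norm_d (ψ : ℕ → ℝ) (j : ℕ) : ‖(!₂[-Real.sin (ψ j), Real.cos (ψ j)] : E2)‖ = 1 := by
  rw [EuclideanSpace.norm_eq, Fin.sum_univ_two]
  simp [Real.sin_sq_add_cos_sq]

theorem pup_near (M : Set E2) (ψ ρ : ℕ → ℝ) (ε : ℝ) (k : ℕ) :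
    ∀ y ∈ pup_M M ψ ρ ε k, ∃ x ∈ M, dist y x ≤ ε * ∑ j ∈ Finset.range k, ρ j := by
  induction k with
  | zero =>
    intro y hy
    exact ⟨y, hy, by simp⟩
  | succ k ih =>
    rintro y ⟨z, hz, s, hs, rfl⟩
    obtain ⟨x, hx, hd⟩ := ih z hz
    refine ⟨x, hx, ?_⟩
    have h1 : dist (z + s • (!₂[-Real.sin (ψ k), Real.cos (ψ k)] : E2)) z ≤ ε * ρ k := by
      rw [dist_eq_norm, add_sub_cancel_left, norm_smul, pup_norm_d, mul_one, Real.norm_eq_abs]
      exact abs_le.2 hs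
    rw [Finset.sum_range_succ, mul_add]
    linarith [dist_triangle (z + s • (!₂[-Real.sin (ψ k), Real.cos (ψ k)] : E2)) z x]

theorem pup_sub (M : Set E2) (hMc : IsCompact M) (ψ ρ : ℕ → ℝ) (ε : ℝ)
    (k : ℕ) : pup_M M ψ ρ ε k ⊆
      Metric.cthickening (ε * ∑ j ∈ Finset.range k, ρ j) M := by
  intro y hy
  obtain ⟨x, hx, hd⟩ := pup_near M ψ ρ ε k y hy
  exact Metric.mem_cthickening_of_dist_le y x _ M hx hd

theorem pup_vol (M : Set E2) (hM : Convex ℝ M) (hMc : IsCompact M) (hM0 : M.Nonempty)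
    (ψ ρ : ℕ → ℝ) (hρ : ∀ j, 0 ≤ ρ j) (ε : ℝ) (hε : 0 ≤ ε) (C : ℝ) (k : ℕ)
    (hC : ∑ j ∈ Finset.range k, ρ j ≤ C) :
    volume (pup_M M ψ ρ ε k) ≤ volume M +
      ENNReal.ofReal (2 * ε * ∑ j ∈ Finset.range k, ρ j * (wE M (ψ j) + 2 * (ε * C))) := by
  induction k with
  | zero => simp [pup_M]
  | succ k ih =>
    have hk : ∑ j ∈ Finset.range k, ρ j ≤ C := by
      rw [Finset.sum_range_succ] at hC
      linarith [hρ k]
    have hC0 : 0 ≤ C := le_trans (Finset.sum_nonneg fun j _ => hρ j) hk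
    obtain ⟨h1, h2, h3⟩ := pup_props M hM hMc hM0 ψ ρ hρ ε hε k
    have h4 := seg_area (pup_M M ψ ρ ε k) h1 h2 (hM0.mono h3) (ψ k) (ε * ρ k)
      (mul_nonneg hε (hρ k))
    have h5 : wE (pup_M M ψ ρ ε k) (ψ k) ≤ wE M (ψ k) + 2 * (ε * C) := by
      have h6 := wid_add M hM hMc hM0 (pup_M M ψ ρ ε k) h1 h2
        (ε * ∑ j ∈ Finset.range k, ρ j)
        (mul_nonneg hε (Finset.sum_nonneg fun j _ => hρ j)) (pup_sub M hMc ψ ρ ε k) (ψ k)
      have h7 : ε * ∑ j ∈ Finset.range k, ρ j ≤ ε * C := mul_le_mul_of_nonneg_left hk hε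
      linarith
    have hw : ∀ φ, 0 ≤ wE M φ := wid_nonneg M
    have h8 : 0 ≤ 2 * ε * ∑ j ∈ Finset.range k, ρ j * (wE M (ψ j) + 2 * (ε * C)) := by
      refine mul_nonneg (by linarith) (Finset.sum_nonneg fun j _ => mul_nonneg (hρ j) ?_)
      have := hw (ψ j)
      have := mul_nonneg hε hC0
      linarith
    calc volume (pup_M M ψ ρ ε (k + 1))
        = volume (pup_M M ψ ρ ε k) + ENNReal.ofReal (2 * (ε * ρ k) * wE (pup_M M ψ ρ ε k) (ψ k)) :=
          h4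
      _ ≤ (volume M +
          ENNReal.ofReal (2 * ε * ∑ j ∈ Finset.range k, ρ j * (wE M (ψ j) + 2 * (ε * C)))) +
          ENNReal.ofReal (2 * (ε * ρ k) * (wE M (ψ k) + 2 * (ε * C))) := by
          refine add_le_add (ih hk) (ENNReal.ofReal_le_ofReal ?_)
          exact mul_le_mul_of_nonneg_left h5 (by have := mul_nonneg hε (hρ k); linarith)
      _ = volume M +
          ENNReal.ofReal (2 * ε * ∑ j ∈ Finset.range (k + 1), ρ j * (wE M (ψ j) + 2 * (ε * C))) := by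
          rw [add_assoc, ← ENNReal.ofReal_add h8]
          · congr 2
            rw [Finset.sum_range_succ]
            ring
          · have h9 := mul_nonneg hε (hρ k)
            have := hw (ψ k)
            have := mul_nonneg hε hC0
            exact mul_nonneg (by linarith) (by linarith)

/-- the zonogon -/
def pup_Z (ψ ρ : ℕ → ℝ) (n : ℕ) : Set E2 :=
  (fun t : Fin n → ℝ => ∑ j : Fin n, t j • (!₂[-Real.sin (ψ j), Real.cos (ψ j)] : E2)) ''
    Set.pi Set.univ fun j : Fin n => Set.Icc (-(ρ j)) (ρ j)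

theorem pup_Z_compact (ψ ρ : ℕ → ℝ) (n : ℕ) : IsCompact (pup_Z ψ ρ n) := by
  refine (isCompact_univ_pi fun j => isCompact_Icc).image ?_
  refine continuous_finsetSum _ fun j _ => ?_
  exact (continuous_apply j).smul continuous_const

theorem pup_Z_convex (ψ ρ : ℕ → ℝ) (n : ℕ) : Convex ℝ (pup_Z ψ ρ n) := by
  rintro _ ⟨t, ht, rfl⟩ _ ⟨t', ht', rfl⟩ a b ha hb hab
  refine ⟨a • t + b • t', ?_, ?_⟩
  · intro j hj
    exact convex_Icc _ _ (ht j hj) (ht' j hj) ha hb hab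
  · simp only [Finset.smul_sum, smul_smul, Pi.add_apply, Pi.smul_apply, smul_eq_mul, add_smul,
      Finset.sum_add_distrib]

/-- the zonogon contains the unit ball -/
theorem pup_ball (ψ ρ : ℕ → ℝ) (hρ : ∀ j, 0 ≤ ρ j) (n : ℕ)
    (hs : ∀ θ : ℝ, 1 ≤ ∑ j ∈ Finset.range n, ρ j * |Real.sin (θ - ψ j)|) (z : E2)
    (hz : ‖z‖ ≤ 1) : z ∈ pup_Z ψ ρ n := by
  by_contra hne
  obtain ⟨f, u, h1, h2⟩ := geometric_hahn_banach_closed_point (pup_Z_convex ψ ρ n)
    (pup_Z_compact ψ ρ n).isClosed hne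
  set v : E2 := (InnerProductSpace.toDual ℝ E2).symm f with hv
  have hf : ∀ x : E2, f x = v 0 * x 0 + v 1 * x 1 := by
    intro x
    have : ⟪v, x⟫_ℝ = f x := InnerProductSpace.toDual_symm_apply
    rw [← this, PiLp.inner_apply, Fin.sum_univ_two]
    simp [mul_comm]
  -- polar coordinates
  set w : ℂ := ⟨v 0, v 1⟩ with hw
  set r : ℝ := ‖w‖ with hr
  set θ : ℝ := w.arg with hθ
  have e0 : v 0 = r * Real.cos θ := by
    have := Complex.norm_mul_cos_arg w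
    exact this.symm
  have e1 : v 1 = r * Real.sin θ := by
    have := Complex.norm_mul_sin_arg w
    exact this.symm
  have hr0 : 0 ≤ r := norm_nonneg _
  have hvr : ‖v‖ = r := by
    rw [EuclideanSpace.norm_eq, Fin.sum_univ_two, hr, Complex.norm_def, Complex.normSq_apply]
    congr 1
    simp [hw, pow_two]
  -- the point of `Z` in direction `v`
  let t : Fin n → ℝ := fun j => ρ j * SignType.sign (Real.sin (θ - ψ j))
  have ht : (∑ j : Fin n, t j • (!₂[-Real.sin (ψ j), Real.cos (ψ j)] : E2)) ∈ pup_Z ψ ρ n := by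
    refine ⟨t, ?_, rfl⟩
    intro j _
    have hρj := hρ j
    show ρ j * SignType.sign (Real.sin (θ - ψ j)) ∈ Set.Icc (-(ρ j)) (ρ j)
    rcases lt_trichotomy (Real.sin (θ - ψ j)) 0 with h | h | h
    · rw [sign_neg h]
      constructor <;> simp <;> linarith
    · rw [h, sign_zero]
      constructor <;> simp <;> linarith
    · rw [sign_pos h]
      constructor <;> simp <;> linarith
  have h3 := h1 _ ht
  rw [map_sum] at h3
  have h4 : ∀ j : Fin n, f (t j • (!₂[-Real.sin (ψ j), Real.cos (ψ j)] : E2)) =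
      r * (ρ j * |Real.sin (θ - ψ j)|) := by
    intro j
    rw [map_smul, hf, smul_eq_mul]
    have e2 : v 0 * (!₂[-Real.sin (ψ j), Real.cos (ψ j)] : E2) 0 +
        v 1 * (!₂[-Real.sin (ψ j), Real.cos (ψ j)] : E2) 1 = r * Real.sin (θ - ψ j) := by
      show v 0 * (-Real.sin (ψ j)) + v 1 * Real.cos (ψ j) = _
      rw [e0, e1, Real.sin_sub]
      ring
    rw [e2]
    have e3 : (SignType.sign (Real.sin (θ - ψ j)) : ℝ) * Real.sin (θ - ψ j) =
        |Real.sin (θ - ψ j)| := by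
      rw [mul_comm]
      exact self_mul_sign _
    show ρ j * SignType.sign (Real.sin (θ - ψ j)) * (r * Real.sin (θ - ψ j)) = _
    rw [← e3]
    ring
  rw [Finset.sum_congr rfl fun j _ => h4 j, ← Finset.mul_sum] at h3
  have h5 : ∑ j : Fin n, ρ j * |Real.sin (θ - ψ j)| =
      ∑ j ∈ Finset.range n, ρ j * |Real.sin (θ - ψ j)| :=
    Fin.sum_univ_eq_sum_range (fun j => ρ j * |Real.sin (θ - ψ j)|) n
  rw [h5] at h3
  have h6 : r ≤ r * ∑ j ∈ Finset.range n, ρ j * |Real.sin (θ - ψ j)| :=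
    le_mul_of_one_le_right hr0 (hs θ)
  have h7 : f z ≤ r := by
    have e4 : ⟪v, z⟫_ℝ = f z := InnerProductSpace.toDual_symm_apply
    rw [← e4]
    refine (real_inner_le_norm v z).trans ?_
    rw [hvr]
    exact mul_le_of_le_one_right hr0 hz
  linarith

theorem pup_mem (M : Set E2) (ψ ρ : ℕ → ℝ) (ε : ℝ) (hε : 0 ≤ ε) (x : E2) (hx : x ∈ M) (k : ℕ)
    (t : ℕ → ℝ) (ht : ∀ j < k, t j ∈ Set.Icc (-(ρ j)) (ρ j)) :
    x + ε • ∑ j ∈ Finset.range k, t j • (!₂[-Real.sin (ψ j), Real.cos (ψ j)] : E2) ∈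
      pup_M M ψ ρ ε k := by
  induction k with
  | zero => simpa [pup_M] using hx
  | succ k ih =>
    refine ⟨_, ih fun j hj => ht j (by omega), ε * t k, ?_, ?_⟩
    · obtain ⟨h1, h2⟩ := ht k (by omega)
      constructor
      · have := mul_le_mul_of_nonneg_left h1 hε
        linarith
      · exact mul_le_mul_of_nonneg_left h2 hε
    · rw [Finset.sum_range_succ, smul_add, smul_smul, add_assoc]

theorem pup_thick (M : Set E2) (hMc : IsCompact M)
    (ψ ρ : ℕ → ℝ) (hρ : ∀ j, 0 ≤ ρ j) (n : ℕ)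
    (hs : ∀ θ : ℝ, 1 ≤ ∑ j ∈ Finset.range n, ρ j * |Real.sin (θ - ψ j)|) (ε : ℝ) (hε : 0 < ε) :
    Metric.cthickening ε M ⊆ pup_M M ψ ρ ε n := by
  intro y hy
  rw [hMc.cthickening_eq_biUnion_closedBall hε.le] at hy
  obtain ⟨x, hx, hyx⟩ := Set.mem_iUnion₂.1 hy
  rw [Metric.mem_closedBall, dist_eq_norm] at hyx
  have h1 : ‖ε⁻¹ • (y - x)‖ ≤ 1 := by
    rw [norm_smul, norm_inv, Real.norm_eq_abs, abs_of_pos hε, inv_mul_le_iff₀ hε, mul_one]
    exact hyx
  obtain ⟨t, ht, hte⟩ := pup_ball ψ ρ hρ n hs _ h1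
  let t' : ℕ → ℝ := fun j => if h : j < n then t ⟨j, h⟩ else 0
  have h2 := pup_mem M ψ ρ ε hε.le x hx n t' (by
    intro j hj
    have e : t' j = t ⟨j, hj⟩ := dif_pos hj
    rw [e]
    exact ht ⟨j, hj⟩ (Set.mem_univ _))
  have h3 : ∑ j ∈ Finset.range n, t' j • (!₂[-Real.sin (ψ j), Real.cos (ψ j)] : E2) =
      ε⁻¹ • (y - x) := by
    rw [← hte, ← Fin.sum_univ_eq_sum_range
      (fun j => t' j • (!₂[-Real.sin (ψ j), Real.cos (ψ j)] : E2)) n]
    refine Finset.sum_congr rfl fun j _ => ?_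
    have e : t' j = t j := dif_pos j.2
    rw [e]
  rw [h3, smul_smul, mul_inv_cancel₀ hε.ne', one_smul, add_sub_cancel] at h2
  exact h2

theorem pup_main (M : Set E2) (hM : Convex ℝ M) (hMc : IsCompact M) (hM0 : M.Nonempty)
    (n : ℕ) (ψ ρ : ℕ → ℝ) (hρ : ∀ j, 0 ≤ ρ j)
    (hs : ∀ θ : ℝ, 1 ≤ ∑ j ∈ Finset.range n, ρ j * |Real.sin (θ - ψ j)|) :
    bd M ≤ ENNReal.ofReal (2 * ∑ j ∈ Finset.range n, ρ j * wE M (ψ j)) := by
  set C : ℝ := ∑ j ∈ Finset.range n, ρ j with hC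
  set g : ℝ → ℝ := fun ε => 2 * ∑ j ∈ Finset.range n, ρ j * (wE M (ψ j) + 2 * (ε * C)) with hg
  have hfin : volume M ≠ ⊤ := hMc.measure_lt_top.ne
  have h1 : ∀ ε : ℝ, 0 < ε → volume (Metric.cthickening ε M \ M) / ENNReal.ofReal ε ≤
      ENNReal.ofReal (g ε) := by
    intro ε hε
    obtain ⟨_, _, h3⟩ := pup_props M hM hMc hM0 ψ ρ hρ ε hε.le n
    have h4 := pup_thick M hMc ψ ρ hρ n hs ε hε
    have h5 := pup_vol M hM hMc hM0 ψ ρ hρ ε hε.le C n le_rfl
    have h6 : volume (Metric.cthickening ε M \ M) ≤ ENNReal.ofReal (ε * g ε) := by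
      calc volume (Metric.cthickening ε M \ M) ≤ volume (pup_M M ψ ρ ε n \ M) :=
            measure_mono (Set.sdiff_subset_sdiff_left h4)
        _ = volume (pup_M M ψ ρ ε n) - volume M :=
            measure_sdiff h3 hMc.isClosed.measurableSet.nullMeasurableSet hfin
        _ ≤ ENNReal.ofReal (ε * g ε) := by
            rw [tsub_le_iff_left]
            refine h5.trans (le_of_eq ?_)
            congr 2
            rw [hg]
            ring
    refine ENNReal.div_le_of_le_mul ?_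
    rw [← ENNReal.ofReal_mul' hε.le, mul_comm]
    exact h6
  unfold bd
  have h2 : Tendsto (fun ε : ℝ => ENNReal.ofReal (g ε)) (𝓝[>] (0:ℝ)) (𝓝 (ENNReal.ofReal (g 0))) := by
    refine (ENNReal.continuous_ofReal.tendsto _).comp ?_
    have hc : Continuous g := by
      rw [hg]
      fun_prop
    exact (hc.tendsto 0).mono_left nhdsWithin_le_nhds
  have h3 : g 0 = 2 * ∑ j ∈ Finset.range n, ρ j * wE M (ψ j) := by
    rw [hg]
    simp
  rw [← h3, ← h2.liminf_eq]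
  refine liminf_le_liminf ?_
  filter_upwards [self_mem_nhdsWithin] with ε hε
  exact h1 ε hε

end STB
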