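import Pool.Agent.Lib_helper15.STB.Defs
import Pool.Agent.Lib_helper15.STB.B.wid
import Pool.Agent.Lib_helper15.STB.B.plo
import Pool.Agent.Lib_helper15.STB.B.pup
import Pool.Agent.Lib_helper15.STB.B.rie
import Pool.Agent.Lib_helper15.STB.B.plc

/-! # STB, block per (helper73): perimeter of a plane convex set -/

open MeasureTheory Filter Topology
open scoped InnerProductSpace
open Pool.Agent.Lib_helper15.STE

namespace STB

/-- shifts of integrals of periodic functions -/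
theorem per_shift (g : ℝ → ℝ) (hp : Function.Periodic g Real.pi) (θ : ℝ) :
    ∫ ψ in (0:ℝ)..Real.pi, g (θ - ψ) = ∫ ψ in (0:ℝ)..Real.pi, g ψ := by
  rw [intervalIntegral.integral_comp_sub_left]
  have h := hp.intervalIntegral_add_eq (θ - Real.pi) 0
  rw [sub_add_cancel, zero_add] at h
  rw [sub_zero]
  exact h

theorem per_abs_periodic : Function.Periodic (fun x => |Real.sin x|) Real.pi := by
  intro x
  simp only [Real.sin_add_pi, abs_neg]

theorem per_sin_one : ∫ ψ in (0:ℝ)..Real.pi, |Real.sin ψ| = 2 := by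
  have h : ∫ ψ in (0:ℝ)..Real.pi, |Real.sin ψ| = ∫ ψ in (0:ℝ)..Real.pi, Real.sin ψ := by
    refine intervalIntegral.integral_congr fun x hx => ?_
    rw [Set.uIcc_of_le Real.pi_pos.le] at hx
    exact abs_of_nonneg (Real.sin_nonneg_of_mem_Icc hx)
  rw [h, integral_sin]
  simp
  norm_num

theorem per_sin_three : ∫ ψ in (0:ℝ)..Real.pi, |Real.sin ψ| ^ 3 = 4 / 3 := by
  have h : ∫ ψ in (0:ℝ)..Real.pi, |Real.sin ψ| ^ 3 = ∫ ψ in (0:ℝ)..Real.pi, Real.sin ψ ^ (1 + 2) := by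
    refine intervalIntegral.integral_congr fun x hx => ?_
    rw [Set.uIcc_of_le Real.pi_pos.le] at hx
    show |Real.sin x| ^ 3 = Real.sin x ^ (1 + 2)
    rw [abs_of_nonneg (Real.sin_nonneg_of_mem_Icc hx)]
  rw [h, integral_sin_pow]
  simp
  norm_num

theorem per_sin (θ : ℝ) : ∫ ψ in (0:ℝ)..Real.pi, |Real.sin (θ - ψ)| = 2 := by
  rw [per_shift (fun x => |Real.sin x|) per_abs_periodic θ, per_sin_one]

theorem per_sin3 (θ : ℝ) : ∫ ψ in (0:ℝ)..Real.pi, |Real.sin (θ - ψ)| ^ 3 = 4 / 3 := by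
  rw [per_shift (fun x => |Real.sin x| ^ 3) (fun x => by
    simp only [Real.sin_add_pi, abs_neg]) θ, per_sin_three]

/-- `|sin|` is 1-Lipschitz -/
theorem per_abs_lip (x y : ℝ) : |(|Real.sin x| - |Real.sin y|)| ≤ |x - y| := by
  refine (abs_abs_sub_abs_le_abs_sub _ _).trans ?_
  exact Real.abs_sin_sub_sin_le x y

/-- products of bounded Lipschitz functions are Lipschitz -/
theorem per_prod_lip (f g : ℝ → ℝ) (A B F G : ℝ) (hf : ∀ x y, |f x - f y| ≤ A * |x - y|)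
    (hg : ∀ x y, |g x - g y| ≤ B * |x - y|) (hF : ∀ x, |f x| ≤ F) (hG : ∀ x, |g x| ≤ G)
    (x y : ℝ) : |f x * g x - f y * g y| ≤ (A * G + F * B) * |x - y| := by
  have e : f x * g x - f y * g y = (f x - f y) * g x + f y * (g x - g y) := by ring
  rw [e]
  refine (abs_add_le _ _).trans ?_
  rw [abs_mul, abs_mul]
  have h1 : |f x - f y| * |g x| ≤ (A * |x - y|) * G :=
    mul_le_mul (hf x y) (hG x) (abs_nonneg _) ((abs_nonneg _).trans (hf x y))
  have h2 : |f y| * |g x - g y| ≤ F * (B * |x - y|) :=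
    mul_le_mul (hF y) (hg x y) (abs_nonneg _) ((abs_nonneg _).trans (hF y))
  nlinarith [h1, h2]

theorem per_cont (f : ℝ → ℝ) (A : ℝ) (hf : ∀ x y, |f x - f y| ≤ A * |x - y|) : Continuous f := by
  have h : LipschitzWith (Real.toNNReal A) f := by
    refine LipschitzWith.of_dist_le_mul fun x y => ?_
    rw [Real.dist_eq, Real.dist_eq]
    refine (hf x y).trans ?_
    exact mul_le_mul_of_nonneg_right (Real.le_coe_toNNReal A) (abs_nonneg _)
  exact h.continuous

/-- the function `x ↦ |sin (a - x)|` -/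
theorem per_abs_lip' (a x y : ℝ) : |(|Real.sin (a - x)| - |Real.sin (a - y)|)| ≤ 1 * |x - y| := by
  refine (per_abs_lip _ _).trans ?_
  have e : a - x - (a - y) = -(x - y) := by ring
  rw [e, abs_neg, one_mul]

theorem per_abs_per' (a x : ℝ) : |Real.sin (a - (x + Real.pi))| = |Real.sin (a - x)| := by
  have e : a - (x + Real.pi) = a - x - Real.pi := by ring
  rw [e, Real.sin_sub_pi, abs_neg]

theorem per_abs_le (a : ℝ) : |(|Real.sin a|)| ≤ 1 := by
  rw [abs_abs]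
  exact Real.abs_sin_le_one a

theorem per_lower (M : Set E2) (hM : Convex ℝ M) (hMc : IsCompact M) (hM0 : M.Nonempty) :
    ENNReal.ofReal (∫ φ in (0:ℝ)..Real.pi, wE M φ) ≤ bd M := by
  have h := plc_main M hM hMc hM0 (fun _ => 1 / 2) 0 (by intro x y; simp) (fun _ => rfl)
    (fun _ => by norm_num) 1 one_pos (by
      intro θ
      rw [intervalIntegral.integral_const_mul, per_sin]
      norm_num)
  rw [intervalIntegral.integral_const_mul, ENNReal.ofReal_one, one_mul] at h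
  have e : (2:ℝ) * (1 / 2 * ∫ φ in (0:ℝ)..Real.pi, wE M φ) = ∫ φ in (0:ℝ)..Real.pi, wE M φ := by
    ring
  rw [e] at h
  exact h

theorem per_step (M : Set E2) (hM : Convex ℝ M) (hMc : IsCompact M) (hM0 : M.Nonempty) (C : ℝ)
    (hC : ∀ φ ψ, |wE M φ - wE M ψ| ≤ C * |φ - ψ|) (n : ℕ) (hn : 10 ≤ n) :
    bd M ≤ ENNReal.ofReal (2 * (((∫ φ in (0:ℝ)..Real.pi, wE M φ) + C * Real.pi ^ 2 / n) /
      (2 - Real.pi ^ 2 / n))) := by
  have hn0 : 0 < n := by omega
  have hnR : (10:ℝ) ≤ n := by exact_mod_cast hn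
  have hnp : (0:ℝ) < n := by linarith
  have hpi : Real.pi ^ 2 < 10 := by
    have h1 := Real.pi_lt_d2
    have h2 := Real.pi_pos
    nlinarith
  have hd : Real.pi ^ 2 / n < 1 := by
    rw [div_lt_one hnp]
    linarith
  have hD : 0 < 2 - Real.pi ^ 2 / n := by linarith
  have h := pup_main M hM hMc hM0 n (fun j => 0 + j * (Real.pi / n))
    (fun _ => (Real.pi / n) / (2 - Real.pi ^ 2 / n))
    (fun _ => div_nonneg (div_nonneg Real.pi_pos.le hnp.le) hD.le) (by
      intro θ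
      have hr := rie_main (fun x => |Real.sin (θ - x)|) 1 (per_abs_lip' θ) (per_abs_per' θ)
        n hn0 0
      rw [per_sin] at hr
      have hr2 := (abs_le.1 hr).1
      rw [← Finset.mul_sum, div_mul_eq_mul_div, le_div_iff₀ hD, one_mul]
      rw [one_mul] at hr2
      linarith)
  refine h.trans (ENNReal.ofReal_le_ofReal ?_)
  rw [← Finset.mul_sum, div_mul_eq_mul_div]
  have hr := rie_main (wE M) C hC (wid_period M) n hn0 0
  have hr2 := (abs_le.1 hr).2
  gcongr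
  linarith

theorem per_upper (M : Set E2) (hM : Convex ℝ M) (hMc : IsCompact M) (hM0 : M.Nonempty) :
    bd M ≤ ENNReal.ofReal (∫ φ in (0:ℝ)..Real.pi, wE M φ) := by
  obtain ⟨C, hC0, _, hC⟩ := wid_lip M hM hMc
  have hlim : Tendsto (fun n : ℕ => ENNReal.ofReal
      (2 * (((∫ φ in (0:ℝ)..Real.pi, wE M φ) + C * Real.pi ^ 2 / n) /
        (2 - Real.pi ^ 2 / n)))) atTop
      (𝓝 (ENNReal.ofReal (∫ φ in (0:ℝ)..Real.pi, wE M φ))) := by
    refine ENNReal.tendsto_ofReal ?_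
    have h1 : Tendsto (fun n : ℕ => C * Real.pi ^ 2 / (n:ℝ)) atTop (𝓝 0) :=
      tendsto_const_div_atTop_nhds_zero_nat _
    have h2 : Tendsto (fun n : ℕ => Real.pi ^ 2 / (n:ℝ)) atTop (𝓝 0) :=
      tendsto_const_div_atTop_nhds_zero_nat _
    have h3 := ((tendsto_const_nhds (x := ∫ φ in (0:ℝ)..Real.pi, wE M φ)).add h1).div
      ((tendsto_const_nhds (x := (2:ℝ))).sub h2) (by norm_num)
    have h4 := (tendsto_const_nhds (x := (2:ℝ))).mul h3
    have e : (2:ℝ) * (((∫ φ in (0:ℝ)..Real.pi, wE M φ) + 0) / (2 - 0)) =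
        ∫ φ in (0:ℝ)..Real.pi, wE M φ := by ring
    rw [e] at h4
    exact h4
  refine ge_of_tendsto hlim ?_
  filter_upwards [eventually_ge_atTop 10] with n hn
  exact per_step M hM hMc hM0 C hC n hn

theorem per_eq (M : Set E2) (hM : Convex ℝ M) (hMc : IsCompact M) (hM0 : M.Nonempty) :
    bd M = ENNReal.ofReal (∫ φ in (0:ℝ)..Real.pi, wE M φ) :=
  le_antisymm (per_upper M hM hMc hM0) (per_lower M hM hMc hM0)

theorem per_int_nonneg (M : Set E2) : 0 ≤ ∫ φ in (0:ℝ)..Real.pi, wE M φ :=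
  intervalIntegral.integral_nonneg Real.pi_pos.le fun φ _ => wid_nonneg M φ

theorem per_two (M : Set E2) (hM : Convex ℝ M) (hMc : IsCompact M) (hM0 : M.Nonempty) (φ : ℝ) :
    2 * wE M φ ≤ ∫ φ in (0:ℝ)..Real.pi, wE M φ := by
  have h := plo_main M hM hMc hM0 1 (fun _ => φ) (fun _ => 1) (fun _ => zero_le_one) (by
    intro θ
    rw [Finset.sum_range_one, one_mul]
    exact Real.abs_sin_le_one _)
  rw [per_eq M hM hMc hM0, Finset.sum_range_one, one_mul] at h
  exact (ENNReal.ofReal_le_ofReal_iff (per_int_nonneg M)).1 h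

/-- duality -/
theorem per_dual (M : Set E2) (hM : Convex ℝ M) (hMc : IsCompact M) (hM0 : M.Nonempty)
    (ρ : ℝ → ℝ) (C' : ℝ) (hρ : ∀ x y, |ρ x - ρ y| ≤ C' * |x - y|)
    (hp : ∀ x, ρ (x + Real.pi) = ρ x) (h0 : ∀ x, 0 ≤ ρ x) (C : ℝ) (hC0 : 0 < C)
    (hC : ∀ θ : ℝ, ∫ ψ in (0:ℝ)..Real.pi, ρ ψ * |Real.sin (θ - ψ)| ≤ C) :
    2 * ∫ ψ in (0:ℝ)..Real.pi, ρ ψ * wE M ψ ≤ C * ∫ φ in (0:ℝ)..Real.pi, wE M φ := by
  have h := plc_main M hM hMc hM0 ρ C' hρ hp h0 C hC0 hC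
  rw [per_eq M hM hMc hM0, ← ENNReal.ofReal_mul hC0.le] at h
  exact (ENNReal.ofReal_le_ofReal_iff (mul_nonneg hC0.le (per_int_nonneg M))).1 h

theorem per_amgm (x y z : ℝ) (hx : 0 ≤ x) (hy : 0 ≤ y) (hz : 0 ≤ z) :
    x * y * z ≤ (x ^ 3 + y ^ 3 + z ^ 3) / 3 := by
  nlinarith [mul_nonneg (add_nonneg (add_nonneg hx hy) hz)
    (add_nonneg (add_nonneg (sq_nonneg (x - y)) (sq_nonneg (y - z))) (sq_nonneg (z - x)))]

theorem per_sin_cont (a : ℝ) : Continuous fun x : ℝ => |Real.sin (a - x)| := by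
  fun_prop

theorem per_triple (a b θ : ℝ) : ∫ ψ in (0:ℝ)..Real.pi,
    (|Real.sin (a - ψ)| * |Real.sin (b - ψ)|) * |Real.sin (θ - ψ)| ≤ 4 / 3 := by
  have h : ∫ ψ in (0:ℝ)..Real.pi,
      (|Real.sin (a - ψ)| * |Real.sin (b - ψ)|) * |Real.sin (θ - ψ)| ≤
      ∫ ψ in (0:ℝ)..Real.pi, (|Real.sin (a - ψ)| ^ 3 + |Real.sin (b - ψ)| ^ 3 +
        |Real.sin (θ - ψ)| ^ 3) / 3 := by
    refine intervalIntegral.integral_mono_on Real.pi_pos.le ?_ ?_ fun x _ => ?_
    · exact (((per_sin_cont a).mul (per_sin_cont b)).mul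
        (per_sin_cont θ)).intervalIntegrable _ _
    · exact (((((per_sin_cont a).pow 3).add ((per_sin_cont b).pow 3)).add
        ((per_sin_cont θ).pow 3)).div_const 3).intervalIntegrable _ _
    · exact per_amgm _ _ _ (abs_nonneg _) (abs_nonneg _) (abs_nonneg _)
  refine h.trans ?_
  rw [intervalIntegral.integral_div, intervalIntegral.integral_add, intervalIntegral.integral_add,
    per_sin3, per_sin3, per_sin3]
  · norm_num
  · exact ((per_sin_cont a).pow 3).intervalIntegrable _ _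
  · exact ((per_sin_cont b).pow 3).intervalIntegrable _ _
  · exact (((per_sin_cont a).pow 3).add ((per_sin_cont b).pow 3)).intervalIntegrable _ _
  · exact ((per_sin_cont θ).pow 3).intervalIntegrable _ _

theorem per_w1 (M : Set E2) (hM : Convex ℝ M) (hMc : IsCompact M) (hM0 : M.Nonempty) (a b : ℝ) :
    ∫ ψ in (0:ℝ)..Real.pi, (wE M ψ * |Real.sin (a - ψ)|) * |Real.sin (b - ψ)| ≤
      2 / 3 * ∫ φ in (0:ℝ)..Real.pi, wE M φ := by
  have h := per_dual M hM hMc hM0 (fun x => |Real.sin (a - x)| * |Real.sin (b - x)|)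
    (1 * 1 + 1 * 1)
    (per_prod_lip (fun x => |Real.sin (a - x)|) (fun x => |Real.sin (b - x)|) 1 1 1 1
      (per_abs_lip' a) (per_abs_lip' b) (fun x => per_abs_le _) (fun x => per_abs_le _))
    (fun x => by rw [per_abs_per', per_abs_per']) (fun x => mul_nonneg (abs_nonneg _) (abs_nonneg _))
    (4 / 3) (by norm_num) (per_triple a b)
  have e : ∫ ψ in (0:ℝ)..Real.pi, (wE M ψ * |Real.sin (a - ψ)|) * |Real.sin (b - ψ)| =
      ∫ ψ in (0:ℝ)..Real.pi, |Real.sin (a - ψ)| * |Real.sin (b - ψ)| * wE M ψ := by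
    refine intervalIntegral.integral_congr fun x _ => ?_
    show (wE M x * |Real.sin (a - x)|) * |Real.sin (b - x)| =
      |Real.sin (a - x)| * |Real.sin (b - x)| * wE M x
    ring
  rw [e]
  linarith

theorem per_w2 (M : Set E2) (hM : Convex ℝ M) (hMc : IsCompact M) (hM0 : M.Nonempty)
    (hL : 0 < ∫ φ in (0:ℝ)..Real.pi, wE M φ) (a : ℝ) :
    ∫ ψ in (0:ℝ)..Real.pi, wE M ψ ^ 2 * |Real.sin (a - ψ)| ≤
      (∫ φ in (0:ℝ)..Real.pi, wE M φ) ^ 2 / 3 := by
  obtain ⟨C, hC0, hCb, hC⟩ := wid_lip M hM hMc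
  have h := per_dual M hM hMc hM0 (fun x => wE M x * |Real.sin (a - x)|)
    (C * 1 + C * 1)
    (per_prod_lip (wE M) (fun x => |Real.sin (a - x)|) C 1 C 1 hC
      (per_abs_lip' a) (fun x => by rw [abs_of_nonneg (wid_nonneg M x)]; exact hCb x)
      (fun x => per_abs_le _))
    (fun x => by rw [per_abs_per', wid_period]) (fun x => mul_nonneg (wid_nonneg M x) (abs_nonneg _))
    (2 / 3 * ∫ φ in (0:ℝ)..Real.pi, wE M φ) (by positivity) (fun θ => per_w1 M hM hMc hM0 a θ)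
  have e : ∫ ψ in (0:ℝ)..Real.pi, wE M ψ ^ 2 * |Real.sin (a - ψ)| =
      ∫ ψ in (0:ℝ)..Real.pi, wE M ψ * |Real.sin (a - ψ)| * wE M ψ := by
    refine intervalIntegral.integral_congr fun x _ => ?_
    show wE M x ^ 2 * |Real.sin (a - x)| = wE M x * |Real.sin (a - x)| * wE M x
    ring
  rw [e]
  nlinarith [h]

theorem per_three (M : Set E2) (hM : Convex ℝ M) (hMc : IsCompact M) (hM0 : M.Nonempty) :
    6 * (∫ φ in (0:ℝ)..Real.pi, wE M φ ^ 3) ≤ (∫ φ in (0:ℝ)..Real.pi, wE M φ) ^ 3 := by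
  obtain ⟨C, hC0, hCb, hC⟩ := wid_lip M hM hMc
  rcases (per_int_nonneg M).eq_or_lt with h0 | hL
  · have hz : ∀ φ, wE M φ = 0 := by
      intro φ
      have h1 := per_two M hM hMc hM0 φ
      rw [← h0] at h1
      exact le_antisymm (by linarith) (wid_nonneg M φ)
    have h3 : ∫ φ in (0:ℝ)..Real.pi, wE M φ ^ 3 = 0 := by
      have : (fun φ => wE M φ ^ 3) = fun _ => (0:ℝ) := by
        funext φ
        rw [hz φ]
        norm_num
      rw [this]
      simp
    rw [h3, ← h0]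
    norm_num
  · have h := per_dual M hM hMc hM0 (fun x => wE M x ^ 2) (C * C + C * C)
      (fun x y => by
        have hb : ∀ x, |wE M x| ≤ C := fun x => by
          rw [abs_of_nonneg (wid_nonneg M x)]; exact hCb x
        have := per_prod_lip (wE M) (wE M) C C C C hC hC hb hb x y
        rw [sq, sq]
        exact this)
      (fun x => by rw [wid_period]) (fun x => sq_nonneg _)
      ((∫ φ in (0:ℝ)..Real.pi, wE M φ) ^ 2 / 3) (by positivity)
      (fun θ => per_w2 M hM hMc hM0 hL θ)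
    have e : ∫ φ in (0:ℝ)..Real.pi, wE M φ ^ 3 =
        ∫ φ in (0:ℝ)..Real.pi, wE M φ ^ 2 * wE M φ := by
      refine intervalIntegral.integral_congr fun x _ => ?_
      show wE M x ^ 3 = wE M x ^ 2 * wE M x
      ring
    rw [e]
    nlinarith [h]

end STB
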