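import Pool.Agent.Lib_helper15.STB.DefsC
import Pool.Agent.Lib_helper15.STB.B.per
import Pool.Agent.Lib_helper15.STB.B.wid
import Pool.Agent.Lib_helper15.STE.B.scl

open MeasureTheory Filter Topology
open scoped InnerProductSpace
open Pool.Agent.Lib_helper15.STE

namespace STB

theorem cpP_mono (A B : Set E2) (hA : Convex ℝ A) (hAc : IsCompact A) (hA0 : A.Nonempty)
    (hB : Convex ℝ B) (hBc : IsCompact B) (hAB : A ⊆ B) :
    bd A ≤ bd B ∧ bd B ≠ ⊤ := by
  have hB0 : B.Nonempty := hA0.mono hAB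
  rw [per_eq A hA hAc hA0, per_eq B hB hBc hB0]
  refine ⟨ENNReal.ofReal_le_ofReal ?_, ENNReal.ofReal_ne_top⟩
  have key : ∀ M : Set E2, Convex ℝ M → IsCompact M →
      IntervalIntegrable (fun φ => wE M φ) volume 0 Real.pi := by
    intro M hM hMc
    obtain ⟨C, hC0, -, hC⟩ := wid_lip M hM hMc
    apply Continuous.intervalIntegrable
    have hl : LipschitzWith (Real.toNNReal C) (fun φ => wE M φ) := by
      apply LipschitzWith.of_dist_le_mul
      intro x y
      rw [Real.dist_eq, Real.dist_eq, Real.coe_toNNReal C hC0]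
      exact hC x y
    exact hl.continuous
  exact intervalIntegral.integral_mono_on Real.pi_pos.le (key A hA hAc) (key B hB hBc)
    (fun φ _ => wid_mono A B hAB hBc.isBounded φ)

theorem cpP_pos (F : Set E2) (hF : Convex ℝ F) (hFc : IsCompact F) (hV : 0 < volume F) :
    0 < (bd F).toReal := by
  have hF0 : F.Nonempty := by
    by_contra h
    rw [Set.not_nonempty_iff_eq_empty] at h
    rw [h] at hV
    simp at hV
  have hint : (interior F).Nonempty := by
    by_contra h
    rw [Set.not_nonempty_iff_eq_empty] at h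
    have h1 : volume (frontier F) = 0 := hF.addHaar_frontier volume
    have h2 : F ⊆ frontier F := by
      intro x hx
      refine ⟨subset_closure hx, ?_⟩
      rw [h]
      exact Set.notMem_empty x
    exact absurd (measure_mono_null h2 h1) hV.ne'
  obtain ⟨c, hc⟩ := hint
  obtain ⟨r, hr, hball⟩ := Metric.isOpen_iff.1 isOpen_interior c hc
  have hsub : Metric.ball c r ⊆ F := hball.trans interior_subset
  rw [per_eq F hF hFc hF0]
  have h2 := per_two F hF hFc hF0 0
  have h3 : 0 < wE F 0 := by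
    unfold wE
    have hb : Bornology.IsBounded ((fun y : E2 => y 0 * Real.cos 0 + y 1 * Real.sin 0) '' F) := by
      have hcont : Continuous (fun y : E2 => y 0 * Real.cos 0 + y 1 * Real.sin 0) := by fun_prop
      exact (hFc.image hcont).isBounded
    apply ENNReal.toReal_pos
    · apply ne_of_gt
      have h4 : Set.Ioo (c 0 - r) (c 0 + r) ⊆
          ((fun y : E2 => y 0 * Real.cos 0 + y 1 * Real.sin 0) '' F) := by
        intro t ht
        refine ⟨c + (t - c 0) • EuclideanSpace.single (0 : Fin 2) (1 : ℝ), hsub ?_, ?_⟩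
        · rw [Metric.mem_ball, dist_eq_norm, add_sub_cancel_left, norm_smul,
            PiLp.norm_single, norm_one, mul_one, Real.norm_eq_abs, abs_lt]
          constructor
          · linarith [ht.1]
          · linarith [ht.2]
        · simp
      refine lt_of_lt_of_le ?_ (measure_mono h4)
      rw [Real.volume_Ioo]
      simp only [ENNReal.ofReal_pos]
      linarith
    · exact hb.measure_lt_top.ne
  rw [ENNReal.toReal_ofReal]
  · linarith
  · linarith

theorem cpP_main (K : Set E3) (hK : CB K) (P : E2 →ᵃⁱ[ℝ] E3) (hP : 0 < volume (P ⁻¹' K))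
    (ε : ℝ) (hε : 0 < ε) : ∃ (P' : E2 →ᵃⁱ[ℝ] E3) (y : E2), P' y ∈ interior K ∧
      (volume (P' ⁻¹' K)).toReal / (bd (P' ⁻¹' K)).toReal ^ 2 ≤
        (volume (P ⁻¹' K)).toReal / (bd (P ⁻¹' K)).toReal ^ 2 + ε := by
  obtain ⟨hKc, hKk, hKi⟩ := hK
  have hbdd : ∀ (R : E2 →ᵃⁱ[ℝ] E3) (S : Set E3), Bornology.IsBounded S →
      Bornology.IsBounded (R ⁻¹' S) := fun R S hS => R.isometry.antilipschitz.isBounded_preimage hS
  have hcomp : ∀ R : E2 →ᵃⁱ[ℝ] E3, IsCompact (R ⁻¹' K) := fun R =>
    Metric.isCompact_of_isClosed_isBounded (hKk.isClosed.preimage R.continuous)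
      (hbdd R K hKk.isBounded)
  have hconv : ∀ R : E2 →ᵃⁱ[ℝ] E3, Convex ℝ (R ⁻¹' K) := fun R =>
    hKc.affine_preimage R.toAffineMap
  have hFne : (P ⁻¹' K).Nonempty := by
    by_contra h
    rw [Set.not_nonempty_iff_eq_empty] at h
    rw [h] at hP
    simp at hP
  obtain ⟨w1, hw1⟩ := hFne
  obtain ⟨w0, hw0⟩ := hKi
  set v : E3 := w0 - P w1 with hv
  let Q : ℝ → (E2 →ᵃⁱ[ℝ] E3) := fun s =>
    (AffineIsometryEquiv.constVAdd ℝ E3 (s • v)).toAffineIsometry.comp P
  have hQ : ∀ s y, Q s y = s • v + P y := fun s y => rfl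
  set B0 := (bd (P ⁻¹' K)).toReal with hB0
  have hB0pos : 0 < B0 := cpP_pos _ (hconv P) (hcomp P) hP
  set μ : Measure E3 := Measure.map P volume with hμ
  have hPm : Measurable P := P.continuous.measurable
  have hμK : ∀ S : Set E3, MeasurableSet S → μ S = volume (P ⁻¹' S) := fun S hS =>
    Measure.map_apply hPm hS
  have htend : Tendsto (fun r : ℝ => μ (Metric.cthickening r K)) (𝓝 0) (𝓝 (μ (closure K))) := by
    apply tendsto_measure_cthickening
    refine ⟨1, one_pos, ?_⟩
    rw [hμK _ Metric.isClosed_cthickening.measurableSet]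
    exact (hbdd P _ hKk.isBounded.cthickening).measure_lt_top.ne
  rw [hKk.isClosed.closure_eq, hμK K hKk.isClosed.measurableSet] at htend
  have hfin : volume (P ⁻¹' K) ≠ ⊤ := (hcomp P).measure_lt_top.ne
  have htend2 : Tendsto (fun s : ℝ => (μ (Metric.cthickening (s * ‖v‖) K)).toReal /
      ((1 - s) * B0) ^ 2) (𝓝[>] 0) (𝓝 ((volume (P ⁻¹' K)).toReal / B0 ^ 2)) := by
    have h1 : Tendsto (fun s : ℝ => s * ‖v‖) (𝓝[>] 0) (𝓝 0) := by
      have : Tendsto (fun s : ℝ => s * ‖v‖) (𝓝 0) (𝓝 (0 * ‖v‖)) :=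
        (continuous_id.mul continuous_const).tendsto 0
      rw [zero_mul] at this
      exact this.mono_left nhdsWithin_le_nhds
    have h2 : Tendsto (fun s : ℝ => (μ (Metric.cthickening (s * ‖v‖) K)).toReal) (𝓝[>] 0)
        (𝓝 (volume (P ⁻¹' K)).toReal) := (ENNReal.tendsto_toReal hfin).comp (htend.comp h1)
    have h3 : Tendsto (fun s : ℝ => ((1 - s) * B0) ^ 2) (𝓝[>] 0) (𝓝 (B0 ^ 2)) := by
      have : Tendsto (fun s : ℝ => ((1 - s) * B0) ^ 2) (𝓝 0) (𝓝 (((1 - 0) * B0) ^ 2)) := by
        apply Continuous.tendsto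
        fun_prop
      rw [sub_zero, one_mul] at this
      exact this.mono_left nhdsWithin_le_nhds
    exact h2.div h3 (by positivity)
  have hev := htend2.eventually (gt_mem_nhds (show (volume (P ⁻¹' K)).toReal / B0 ^ 2 <
    (volume (P ⁻¹' K)).toReal / B0 ^ 2 + ε by linarith))
  have hev2 : ∀ᶠ s : ℝ in 𝓝[>] 0, s < 1 := by
    have : ∀ᶠ s : ℝ in 𝓝 0, s < 1 := gt_mem_nhds one_pos
    exact this.filter_mono nhdsWithin_le_nhds
  obtain ⟨s, ⟨hs1, hs2⟩, hs0⟩ := ((hev.and hev2).and self_mem_nhdsWithin).exists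
  have hs0' : 0 < s := hs0
  refine ⟨Q s, w1, ?_, ?_⟩
  · rw [hQ]
    have := hKc.add_smul_sub_mem_interior (x := P w1) (y := w0) hw1 hw0
      (t := s) ⟨hs0', hs2.le⟩
    rw [add_comm]
    exact this
  · have hvol : (volume (Q s ⁻¹' K)).toReal ≤ (μ (Metric.cthickening (s * ‖v‖) K)).toReal := by
      rw [hμK _ Metric.isClosed_cthickening.measurableSet]
      apply ENNReal.toReal_mono
      · exact (hbdd P _ hKk.isBounded.cthickening).measure_lt_top.ne
      · apply measure_mono
        intro y hy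
        have hy' : s • v + P y ∈ K := hy
        show P y ∈ Metric.cthickening (s * ‖v‖) K
        refine Metric.mem_cthickening_of_dist_le _ _ _ _ hy' ?_
        rw [dist_eq_norm, show P y - (s • v + P y) = -(s • v) by abel, norm_neg, norm_smul,
          Real.norm_eq_abs, abs_of_pos hs0']
    have h1s : 0 < 1 - s := by linarith
    have hbd : (1 - s) * B0 ≤ (bd (Q s ⁻¹' K)).toReal := by
      have hsc := scl_bd (n := 2) (by norm_num) (P ⁻¹' K) (s • w1) (1 - s) h1s
      have hsub : (fun x => s • w1 + (1 - s) • x) '' (P ⁻¹' K) ⊆ Q s ⁻¹' K := by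
        rintro _ ⟨y, hy, rfl⟩
        show s • v + P (s • w1 + (1 - s) • y) ∈ K
        have e1 : P (s • w1 + (1 - s) • y) = s • P w1 + (1 - s) • P y := by
          have e2 : s • w1 + (1 - s) • y = AffineMap.lineMap y w1 s := by
            rw [AffineMap.lineMap_apply_module]
            abel
          rw [e2]
          have e3 := P.toAffineMap.apply_lineMap y w1 s
          have e4 : P (AffineMap.lineMap y w1 s) = AffineMap.lineMap (P y) (P w1) s := e3
          rw [e4, AffineMap.lineMap_apply_module]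
          abel
        rw [e1, show s • v + (s • P w1 + (1 - s) • P y) = s • w0 + (1 - s) • P y by
          rw [hv, smul_sub]; abel]
        exact hKc (interior_subset hw0) hy hs0'.le h1s.le (by ring)
      have hc1 : Continuous (fun x : E2 => s • w1 + (1 - s) • x) := by fun_prop
      have hcompA : IsCompact ((fun x => s • w1 + (1 - s) • x) '' (P ⁻¹' K)) :=
        (hcomp P).image hc1
      have hconvA : Convex ℝ ((fun x => s • w1 + (1 - s) • x) '' (P ⁻¹' K)) := by
        rintro _ ⟨y, hy, rfl⟩ _ ⟨z, hz, rfl⟩ a b ha hb hab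
        refine ⟨a • y + b • z, hconv P hy hz ha hb hab, ?_⟩
        show s • w1 + (1 - s) • (a • y + b • z) =
          a • (s • w1 + (1 - s) • y) + b • (s • w1 + (1 - s) • z)
        have e5 : b = 1 - a := by linarith
        subst e5
        module
      have hne : ((fun x => s • w1 + (1 - s) • x) '' (P ⁻¹' K)).Nonempty :=
        ⟨_, w1, hw1, rfl⟩
      obtain ⟨hm1, hm2⟩ := cpP_mono _ _ hconvA hcompA hne (hconv (Q s)) (hcomp (Q s)) hsub
      have hm3 := ENNReal.toReal_mono hm2 hm1
      rw [hsc.1, ENNReal.toReal_mul, ENNReal.toReal_ofReal (by positivity)] at hm3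
      simpa using hm3
    have hpos : 0 < (1 - s) * B0 := mul_pos h1s hB0pos
    calc (volume (Q s ⁻¹' K)).toReal / (bd (Q s ⁻¹' K)).toReal ^ 2
        ≤ (μ (Metric.cthickening (s * ‖v‖) K)).toReal / ((1 - s) * B0) ^ 2 := by
          apply div_le_div₀ ENNReal.toReal_nonneg hvol (by positivity)
          exact pow_le_pow_left₀ hpos.le hbd 2
      _ ≤ (volume (P ⁻¹' K)).toReal / B0 ^ 2 + ε := hs1.le

end STB
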