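import Pool.Agent.Lib_helper15.STB.DefsC
import Pool.Agent.Lib_helper15.STB.B.cpB
import Pool.Agent.Lib_helper15.STB.B.cpP
import Pool.Agent.Lib_helper15.STB.B.per
import Pool.Agent.Lib_helper15.STB.B.wid
import Pool.Agent.Lib_helper15.STB.B.fraA
import Pool.Agent.Lib_helper15.STE.B.scl

/-! # STB, block cpC (helper45): the infimum is upper semicontinuous -/

open MeasureTheory Filter Topology
open scoped InnerProductSpace
open Pool.Agent.Lib_helper15.STE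

namespace STB

theorem cpC_cont (M : Set E2) (hM : Convex ℝ M) (hMc : IsCompact M) : Continuous (wE M) := by
  obtain ⟨C, hC, -, h⟩ := wid_lip M hM hMc
  exact (LipschitzWith.of_dist_le_mul (K := ⟨C, hC⟩) (fun x y => by
    rw [Real.dist_eq, Real.dist_eq]
    exact h x y)).continuous

theorem cpC_bd (M : Set E2) (hM : Convex ℝ M) (hMc : IsCompact M) (hM0 : M.Nonempty) :
    (bd M).toReal = ∫ φ in (0:ℝ)..Real.pi, wE M φ := by
  rw [per_eq M hM hMc hM0, ENNReal.toReal_ofReal]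
  exact intervalIntegral.integral_nonneg Real.pi_pos.le (fun φ _ => wid_nonneg M φ)

theorem cpC_mono (M M' : Set E2) (hM : Convex ℝ M) (hMc : IsCompact M) (hM0 : M.Nonempty)
    (hM' : Convex ℝ M') (hMc' : IsCompact M') (h : M ⊆ M') : (bd M).toReal ≤ (bd M').toReal := by
  rw [cpC_bd M hM hMc hM0, cpC_bd M' hM' hMc' (hM0.mono h)]
  exact intervalIntegral.integral_mono_on Real.pi_pos.le
    ((cpC_cont M hM hMc).intervalIntegrable _ _) ((cpC_cont M' hM' hMc').intervalIntegrable _ _)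
    (fun φ _ => wid_mono M M' h hMc'.isBounded φ)

theorem cpC_pos (M : Set E2) (hM : Convex ℝ M) (hMc : IsCompact M) {y : E2}
    (hy : y ∈ interior M) : 0 < (bd M).toReal := by
  have hM0 : M.Nonempty := ⟨y, interior_subset hy⟩
  rw [cpC_bd M hM hMc hM0]
  refine lt_of_lt_of_le ?_ (per_two M hM hMc hM0 0)
  obtain ⟨r, hr, hball⟩ := Metric.isOpen_iff.1 isOpen_interior y hy
  have hsub : Set.Ioo (y 0 - r) (y 0 + r) ⊆
      (fun y : E2 => y 0 * Real.cos 0 + y 1 * Real.sin 0) '' M := by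
    intro t ht
    refine ⟨y + (t - y 0) • EuclideanSpace.single 0 1, ?_, ?_⟩
    · apply interior_subset
      apply hball
      rw [Metric.mem_ball, dist_eq_norm, add_sub_cancel_left, norm_smul]
      rw [PiLp.norm_single, norm_one, mul_one, Real.norm_eq_abs]
      rw [abs_lt]
      constructor <;> linarith [ht.1, ht.2]
    · simp
  have hfin : volume ((fun y : E2 => y 0 * Real.cos 0 + y 1 * Real.sin 0) '' M) ≠ ⊤ := by
    refine (IsCompact.measure_lt_top ?_).ne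
    exact hMc.image (by fun_prop)
  have h1 : 0 < wE M 0 := by
    unfold wE
    apply ENNReal.toReal_pos _ hfin
    have h2 : 0 < volume (Set.Ioo (y 0 - r) (y 0 + r)) := by
      rw [Real.volume_Ioo]
      simp only [ENNReal.ofReal_pos]
      linarith
    exact (lt_of_lt_of_le h2 (measure_mono hsub)).ne'
  linarith

theorem cpC_aff (P : E2 →ᵃⁱ[ℝ] E3) (x y : E2) (s : ℝ) :
    P (y + s • (x - y)) = P y + s • (P x - P y) := by
  have h1 := P.map_vadd y (s • (x - y))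
  have h2 := P.map_vsub x y
  rw [vadd_eq_add, vadd_eq_add, map_smul] at h1
  rw [vsub_eq_sub, vsub_eq_sub] at h2
  rw [h2] at h1
  rw [add_comm y, h1, add_comm]

theorem cpC_pre (P : E2 →ᵃⁱ[ℝ] E3) (K : Set E3) (hK : Convex ℝ K) (hKc : IsCompact K) :
    Convex ℝ (P ⁻¹' K) ∧ IsCompact (P ⁻¹' K) :=
  ⟨hK.affine_preimage P.toAffineMap, P.isometry.isClosedEmbedding.isCompact_preimage hKc⟩

theorem cpC_sc (M : Set E2) (hM : Convex ℝ M) (hMc : IsCompact M) (c : E2) (s : ℝ) :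
    Convex ℝ ((fun x => c + s • x) '' M) ∧ IsCompact ((fun x => c + s • x) '' M) := by
  refine ⟨?_, hMc.image (by fun_prop)⟩
  rintro _ ⟨x, hx, rfl⟩ _ ⟨z, hz, rfl⟩ a b ha hb hab
  refine ⟨a • x + b • z, hM hx hz ha hb hab, ?_⟩
  have hb' : b = 1 - a := by linarith
  subst hb'
  show c + s • (a • x + (1 - a) • z) = a • (c + s • x) + (1 - a) • (c + s • z)
  module

theorem cpC_num {A B A₀ B₀ e ε : ℝ} (hA0 : 0 ≤ A₀) (hB0 : 0 < B₀) (he : 0 < e) (he2 : e ≤ 1 / 2)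
    (heε : e * (48 * (A₀ / B₀ ^ 2 + 1)) ≤ ε) (hA : A ≤ (1 + e) ^ 2 * A₀)
    (hB : (1 - e) * B₀ ≤ B) : A / B ^ 2 ≤ A₀ / B₀ ^ 2 + ε / 3 := by
  obtain ⟨r, hr⟩ : ∃ r : ℝ, r = A₀ / B₀ ^ 2 := ⟨_, rfl⟩
  have hr0 : 0 ≤ r := by
    rw [hr]
    positivity
  have hA' : A₀ = r * B₀ ^ 2 := by
    rw [hr]
    field_simp
  have h1e : 0 < 1 - e := by linarith
  have h2 : 0 < (1 - e) * B₀ := by positivity
  have hB2 : ((1 - e) * B₀) ^ 2 ≤ B ^ 2 := pow_le_pow_left₀ h2.le hB 2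
  have hB3 : 0 < B ^ 2 := lt_of_lt_of_le (by positivity) hB2
  rw [← hr] at heε ⊢
  rw [div_le_iff₀ hB3]
  have h3 : A ≤ (1 + e) ^ 2 * (r * B₀ ^ 2) := by rw [← hA']; exact hA
  have h4 : (1 + e) ^ 2 * r ≤ (r + ε / 3) * (1 - e) ^ 2 := by
    have h5 : 1 / 4 ≤ (1 - e) ^ 2 := by nlinarith
    have h6 : 16 * (e * r) ≤ ε / 3 := by nlinarith
    have h7 : 0 ≤ ε / 3 := by
      have : 0 ≤ e * r := by positivity
      linarith
    nlinarith
  have h8 : (1 + e) ^ 2 * (r * B₀ ^ 2) ≤ (r + ε / 3) * ((1 - e) * B₀) ^ 2 := by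
    have := mul_le_mul_of_nonneg_right h4 (sq_nonneg B₀)
    nlinarith
  have h9 : 0 ≤ r + ε / 3 := by
    have : 0 ≤ e * (48 * (r + 1)) := by positivity
    linarith
  calc A ≤ (1 + e) ^ 2 * (r * B₀ ^ 2) := h3
    _ ≤ (r + ε / 3) * ((1 - e) * B₀) ^ 2 := h8
    _ ≤ (r + ε / 3) * B ^ 2 := mul_le_mul_of_nonneg_left hB2 h9

theorem cpC_iot (L : Set E3) (hL : CB L) : (iot L).Nonempty := by
  obtain ⟨w, hw⟩ := hL.int
  have hON : ON (e 0) (e 1) := by
    refine ⟨by simp [e], by simp [e], ?_⟩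
    simp [e, EuclideanSpace.inner_single_left]
  obtain ⟨P, hP⟩ := fra_plane (e 0) (e 1) hON ⟪w, e 1⟫_ℝ
  obtain ⟨hb, -⟩ := fra_basis (e 0) (e 1) hON w
  have hPw : P (!₂[⟪w, cr (e 0) (e 1)⟫_ℝ, ⟪w, e 0⟫_ℝ]) = w := by
    rw [hP]
    conv_rhs => rw [hb]
    simp
  refine ⟨_, P, ?_, rfl⟩
  have h1 : IsOpen (P ⁻¹' (interior L)) := isOpen_interior.preimage P.continuous
  have h2 : (P ⁻¹' (interior L)).Nonempty := ⟨_, by
    rw [Set.mem_preimage, hPw]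
    exact hw⟩
  exact lt_of_lt_of_le (h1.measure_pos volume h2) (measure_mono (Set.preimage_mono interior_subset))

theorem cpC_main (L : Set E3) (hL : CB L) (ε : ℝ) (hε : 0 < ε) : ∃ δ : ℝ, 0 < δ ∧
    ∀ K : Set E3, Convex ℝ K → IsCompact K → Nr δ K L → kap K ≤ kap L + ε := by
  obtain ⟨v, ⟨P, hP, hv⟩, hvlt⟩ := Real.lt_sInf_add_pos (cpC_iot L hL) (by linarith : 0 < ε / 3)
  obtain ⟨P', y, hy, hP'⟩ := cpP_main L hL P hP (ε / 3) (by linarith)
  rw [← hv] at hP'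
  obtain ⟨hMconv, hMcomp⟩ := cpC_pre P' L hL.conv hL.comp
  have hyM : y ∈ interior (P' ⁻¹' L) := by
    rw [mem_interior]
    exact ⟨P' ⁻¹' (interior L), Set.preimage_mono interior_subset,
      isOpen_interior.preimage P'.continuous, hy⟩
  have hM0 : (P' ⁻¹' L).Nonempty := ⟨y, interior_subset hyM⟩
  have hB0 := cpC_pos (P' ⁻¹' L) hMconv hMcomp hyM
  have hA0 : 0 ≤ (volume (P' ⁻¹' L)).toReal := ENNReal.toReal_nonneg
  have hMpos : 0 < volume (P' ⁻¹' L) :=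
    lt_of_lt_of_le (isOpen_interior.measure_pos volume ⟨y, hyM⟩) (measure_mono interior_subset)
  obtain ⟨A₀, hA₀⟩ : ∃ A₀, A₀ = (volume (P' ⁻¹' L)).toReal := ⟨_, rfl⟩
  obtain ⟨B₀, hB₀⟩ : ∃ B₀, B₀ = (bd (P' ⁻¹' L)).toReal := ⟨_, rfl⟩
  rw [← hA₀] at hA0 hP'
  rw [← hB₀] at hB0 hP'
  have hr0 : 0 ≤ A₀ / B₀ ^ 2 := by positivity
  obtain ⟨e, he, he2, heε⟩ : ∃ e : ℝ, 0 < e ∧ e ≤ 1 / 2 ∧ e * (48 * (A₀ / B₀ ^ 2 + 1)) ≤ ε := by
    have h48 : 0 < 48 * (A₀ / B₀ ^ 2 + 1) := by positivity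
    refine ⟨min (1 / 2) (ε / (48 * (A₀ / B₀ ^ 2 + 1))), lt_min (by norm_num) (by positivity),
      min_le_left _ _, ?_⟩
    rw [← le_div_iff₀ h48]
    exact min_le_right _ _
  obtain ⟨δ, hδ, hnr⟩ := cpB_main L hL (P' y) hy e he (by linarith)
  refine ⟨δ, hδ, ?_⟩
  intro K hK hKc hKL
  obtain ⟨hin, hout⟩ := hnr K hK hKc hKL
  obtain ⟨hNconv, hNcomp⟩ := cpC_pre P' K hK hKc
  have h1e : 0 < 1 - e := by linarith
  have h1e' : 0 < 1 + e := by linarith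
  have hin' : (fun x => (y - (1 - e) • y) + (1 - e) • x) '' (P' ⁻¹' L) ⊆ P' ⁻¹' K := by
    rintro _ ⟨x, hx, rfl⟩
    have h1 : (y - (1 - e) • y) + (1 - e) • x = y + (1 - e) • (x - y) := by
      rw [smul_sub]
      abel
    simp only [Set.mem_preimage]
    rw [h1, cpC_aff]
    exact hin ⟨P' x, hx, rfl⟩
  have hout' : P' ⁻¹' K ⊆ (fun x => (y - (1 + e) • y) + (1 + e) • x) '' (P' ⁻¹' L) := by
    intro x hx
    obtain ⟨z, hz, hzx⟩ := hout hx
    have h3 : P' (y + (1 + e)⁻¹ • (x - y)) = z := by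
      rw [cpC_aff, ← hzx]
      simp only [add_sub_cancel_left]
      rw [smul_smul, inv_mul_cancel₀ h1e'.ne', one_smul]
      abel
    refine ⟨y + (1 + e)⁻¹ • (x - y), ?_, ?_⟩
    · rw [Set.mem_preimage, h3]
      exact hz
    · simp only
      rw [smul_add, smul_smul, mul_inv_cancel₀ h1e'.ne', one_smul]
      abel
  obtain ⟨hbin, hvin⟩ := scl_bd (n := 2) (by norm_num) (P' ⁻¹' L) (y - (1 - e) • y) (1 - e) h1e
  obtain ⟨-, hvout⟩ := scl_bd (n := 2) (by norm_num) (P' ⁻¹' L) (y - (1 + e) • y) (1 + e) h1e'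
  obtain ⟨hSc, hSk⟩ := cpC_sc (P' ⁻¹' L) hMconv hMcomp (y - (1 - e) • y) (1 - e)
  have hB : (1 - e) * B₀ ≤ (bd (P' ⁻¹' K)).toReal := by
    have h1 := cpC_mono _ _ hSc hSk (hM0.image _) hNconv hNcomp hin'
    rw [hbin, ENNReal.toReal_mul, ENNReal.toReal_ofReal (by positivity), ← hB₀] at h1
    simpa using h1
  have hMfin : volume (P' ⁻¹' L) ≠ ⊤ := hMcomp.measure_lt_top.ne
  have hA : (volume (P' ⁻¹' K)).toReal ≤ (1 + e) ^ 2 * A₀ := by
    have h1 := measure_mono (μ := volume) hout'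
    rw [hvout] at h1
    have h2 := ENNReal.toReal_mono (ENNReal.mul_ne_top ENNReal.ofReal_ne_top hMfin) h1
    rwa [ENNReal.toReal_mul, ENNReal.toReal_ofReal (by positivity), ← hA₀] at h2
  have hpos : 0 < volume (P' ⁻¹' K) := by
    refine lt_of_lt_of_le ?_ (measure_mono (μ := volume) hin')
    rw [hvin]
    exact ENNReal.mul_pos (by
      rw [ne_eq, ENNReal.ofReal_eq_zero, not_le]
      positivity) hMpos.ne'
  have hkap : kap K ≤ (volume (P' ⁻¹' K)).toReal / (bd (P' ⁻¹' K)).toReal ^ 2 := by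
    apply csInf_le
    · refine ⟨0, ?_⟩
      rintro _ ⟨Q, -, rfl⟩
      exact div_nonneg ENNReal.toReal_nonneg (sq_nonneg _)
    · exact ⟨P', hpos, rfl⟩
  have hnum := cpC_num hA0 hB0 he he2 heε hA hB
  have hvlt' : v < kap L + ε / 3 := hvlt
  linarith

end STB
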