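import Pool.Agent.Lib_helper15.STB.Defs
import Pool.Agent.Lib_helper15.STE.B.rot
import Pool.Agent.Lib_helper15.STE.B.scl

/-! # STB, block iso : invariance under motions and homotheties -/

open MeasureTheory Filter Topology
open scoped InnerProductSpace
open Pool.Agent.Lib_helper15.STE

namespace STB

private theorem iso_img (K : Set E3) (g : E3 ≃ₗᵢ[ℝ] E3) (c : E3) (r : ℝ) :
    (fun x => c + r • g x) '' K = (fun x => c + r • x) '' (g.symm ⁻¹' K) := by
  ext z
  simp only [Set.mem_image, Set.mem_preimage]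
  constructor
  · rintro ⟨x, hx, rfl⟩
    exact ⟨g x, by simpa using hx, rfl⟩
  · rintro ⟨x, hx, rfl⟩
    exact ⟨g.symm x, hx, by simp⟩

private theorem iso_bd (K : Set E3) (g : E3 ≃ₗᵢ[ℝ] E3) (c : E3) (r : ℝ) (hr : 0 < r) :
    bd ((fun x => c + r • g x) '' K) = ENNReal.ofReal (r ^ 2) * bd K ∧
    volume ((fun x => c + r • g x) '' K) = ENNReal.ofReal (r ^ 3) * volume K := by
  obtain ⟨h1, h2⟩ := scl_bd (n := 3) (by norm_num) (g.symm ⁻¹' K) c r hr
  obtain ⟨h3, h4⟩ := rot_bd K g.symm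
  rw [iso_img, h1, h2, h3, h4]
  exact ⟨rfl, rfl⟩

/-- the plane in the coordinates of the inverse motion -/
private theorem iso_plane (P : E2 →ᵃⁱ[ℝ] E3) (g : E3 ≃ₗᵢ[ℝ] E3) (c : E3) (r : ℝ) (hr : 0 < r) :
    ∃ Q : E2 →ᵃⁱ[ℝ] E3, ∀ y : E2, c + r • g (Q y) = P (r • y) := by
  refine ⟨((AffineIsometryEquiv.constVAdd ℝ E3 (g.symm (r⁻¹ • (P 0 - c)))).toAffineIsometry).comp
    ((g.symm.toLinearIsometry.comp P.linearIsometry).toAffineIsometry), ?_⟩
  intro y
  have h1 : P (r • y) = r • P.linearIsometry y + P 0 := by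
    have h2 := P.map_vadd 0 (r • y)
    rw [map_smul] at h2
    simpa using h2
  have h2 : (((AffineIsometryEquiv.constVAdd ℝ E3 (g.symm (r⁻¹ • (P 0 - c)))).toAffineIsometry).comp
    ((g.symm.toLinearIsometry.comp P.linearIsometry).toAffineIsometry)) y =
      g.symm (r⁻¹ • (P 0 - c)) + g.symm (P.linearIsometry y) := rfl
  rw [h2, map_add, g.apply_symm_apply, g.apply_symm_apply, smul_add, smul_smul,
    mul_inv_cancel₀ hr.ne', one_smul, h1]
  abel

private theorem iso_sub (K : Set E3) (g : E3 ≃ₗᵢ[ℝ] E3) (c : E3) (r : ℝ) (hr : 0 < r) :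
    iot ((fun x => c + r • g x) '' K) ⊆ iot K := by
  rintro x ⟨P, hP, hx⟩
  obtain ⟨Q, hQ⟩ := iso_plane P g c r hr
  have hinj : Function.Injective (fun x : E3 => c + r • g x) := by
    intro a b hab
    have h1 : r • g a = r • g b := add_left_cancel hab
    exact g.injective (smul_right_injective _ hr.ne' h1)
  have hpre : P ⁻¹' ((fun x => c + r • g x) '' K) = (fun y : E2 => 0 + r • y) '' (Q ⁻¹' K) := by
    ext z
    obtain ⟨y, rfl⟩ := scl_surj (0 : E2) r hr z
    rw [(scl_inj (0 : E2) r hr).mem_set_image, Set.mem_preimage, Set.mem_preimage, zero_add,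
      ← hQ y]
    exact hinj.mem_set_image
  obtain ⟨h1, h2⟩ := scl_bd (n := 2) (by norm_num) (Q ⁻¹' K) (0 : E2) r hr
  rw [hpre, h2] at hP
  refine ⟨Q, ?_, ?_⟩
  · by_contra h3
    rw [not_lt, nonpos_iff_eq_zero] at h3
    rw [h3, mul_zero] at hP
    exact lt_irrefl _ hP
  · rw [hx, hpre, h1, h2, ENNReal.toReal_mul, ENNReal.toReal_mul,
      ENNReal.toReal_ofReal (pow_pos hr _).le, ENNReal.toReal_ofReal (pow_pos hr _).le]
    have h4 : (r ^ (2 - 1) * (bd (Q ⁻¹' K)).toReal) ^ 2 =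
        r ^ 2 * (bd (Q ⁻¹' K)).toReal ^ 2 := by
      norm_num
      ring
    rw [h4]
    exact mul_div_mul_left _ _ (pow_pos hr 2).ne'

theorem iso_main (K : Set E3) (g : E3 ≃ₗᵢ[ℝ] E3) (c : E3) (r : ℝ) (hr : 0 < r) :
    bd ((fun x => c + r • g x) '' K) = ENNReal.ofReal (r ^ 2) * bd K ∧
    volume ((fun x => c + r • g x) '' K) = ENNReal.ofReal (r ^ 3) * volume K ∧
    iot ((fun x => c + r • g x) '' K) = iot K ∧
    (CB K → CB ((fun x => c + r • g x) '' K)) := by
  refine ⟨(iso_bd K g c r hr).1, (iso_bd K g c r hr).2, ?_, ?_⟩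
  · apply Set.Subset.antisymm (iso_sub K g c r hr)
    have h1 := iso_sub ((fun x => c + r • g x) '' K) g.symm (-(r⁻¹ • g.symm c)) r⁻¹
      (inv_pos.2 hr)
    have h2 : (fun x => -(r⁻¹ • g.symm c) + r⁻¹ • g.symm x) ''
        ((fun x => c + r • g x) '' K) = K := by
      rw [Set.image_image]
      have h3 : (fun x : E3 => -(r⁻¹ • g.symm c) + r⁻¹ • g.symm (c + r • g x)) = id := by
        funext x
        rw [map_add, map_smul, g.symm_apply_apply, smul_add, smul_smul,
          inv_mul_cancel₀ hr.ne', one_smul]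
        simp
      rw [h3, Set.image_id]
    rw [h2] at h1
    exact h1
  · intro hK
    let T : E3 ≃ₜ E3 := (g.toHomeomorph.trans (Homeomorph.smulOfNeZero r hr.ne')).trans
      (Homeomorph.addLeft c)
    have hT : (fun x => c + r • g x) '' K = T '' K := rfl
    refine ⟨?_, ?_, ?_⟩
    · have h1 : (fun x => c + r • g x) '' K =
          (fun z => c + z) '' ((r • (g.toLinearEquiv : E3 →ₗ[ℝ] E3)) '' K) := by
        rw [Set.image_image]
        rfl
      rw [h1]
      exact (hK.conv.linear_image _).translate c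
    · rw [hT]
      exact hK.comp.image T.continuous
    · rw [hT, ← T.image_interior]
      exact hK.int.image T

end STB
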