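import Pool.Agent.Lib_helper15.STB.DefsC
import Pool.Agent.Lib_helper15.STB.B.cpB
import Pool.Agent.Lib_helper15.STB.B.iso
import Pool.Agent.Lib_helper15.STB.B.cmo

/-! # STB, block cpD : volume and surface area are continuous -/

open MeasureTheory Filter Topology
open scoped InnerProductSpace
open Pool.Agent.Lib_helper15.STE

namespace STB

theorem cpD_hmt (L : Set E3) (hL : CB L) (w : E3) (s : ℝ) (hs : 0 < s) :
    CB (hmt w s L) ∧ (volume (hmt w s L)).toReal = s ^ 3 * (volume L).toReal ∧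
      (bd (hmt w s L)).toReal = s ^ 2 * (bd L).toReal := by
  have h0 : hmt w s L =
      (fun x => (w - s • w) + s • (LinearIsometryEquiv.refl ℝ E3) x) '' L := by
    unfold hmt
    apply Set.image_congr
    intro x _
    rw [LinearIsometryEquiv.coe_refl, id, smul_sub]
    abel
  obtain ⟨h1, h2, -, h4⟩ := iso_main L (LinearIsometryEquiv.refl ℝ E3) (w - s • w) s hs
  rw [h0]
  refine ⟨h4 hL, ?_, ?_⟩
  · rw [h2, ENNReal.toReal_mul, ENNReal.toReal_ofReal (by positivity)]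
  · rw [h1, ENNReal.toReal_mul, ENNReal.toReal_ofReal (by positivity)]

theorem cpD_est (V x e : ℝ) (hV : 0 ≤ V) (he : 0 < e) (he1 : e < 1)
    (h1 : (1 - e) ^ 3 * V ≤ x) (h2 : x ≤ (1 + e) ^ 3 * V) : |x - V| ≤ 7 * e * V := by
  have ha : 1 - 7 * e ≤ (1 - e) ^ 3 := by nlinarith [mul_pos he he, mul_pos (mul_pos he he) he]
  have hb : (1 + e) ^ 3 ≤ 1 + 7 * e := by nlinarith [mul_pos he he, mul_pos (mul_pos he he) he]
  have ha' := mul_le_mul_of_nonneg_right ha hV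
  have hb' := mul_le_mul_of_nonneg_right hb hV
  rw [abs_le]
  constructor <;> nlinarith

theorem cpD_est2 (V x e : ℝ) (hV : 0 ≤ V) (he : 0 < e) (he1 : e < 1)
    (h1 : (1 - e) ^ 2 * V ≤ x) (h2 : x ≤ (1 + e) ^ 2 * V) : |x - V| ≤ 7 * e * V := by
  have ha : 1 - 7 * e ≤ (1 - e) ^ 2 := by nlinarith [mul_pos he he]
  have hb : (1 + e) ^ 2 ≤ 1 + 7 * e := by nlinarith [mul_pos he he]
  have ha' := mul_le_mul_of_nonneg_right ha hV
  have hb' := mul_le_mul_of_nonneg_right hb hV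
  rw [abs_le]
  constructor <;> nlinarith

theorem cpD_main (L : Set E3) (hL : CB L) (ε : ℝ) (hε : 0 < ε) : ∃ δ : ℝ, 0 < δ ∧
    ∀ K : Set E3, Convex ℝ K → IsCompact K → Nr δ K L → CB K ∧
      |(volume K).toReal - (volume L).toReal| ≤ ε ∧ |(bd K).toReal - (bd L).toReal| ≤ ε := by
  obtain ⟨w, hw⟩ := hL.int
  obtain ⟨V, hV⟩ : ∃ V, V = (volume L).toReal := ⟨_, rfl⟩
  obtain ⟨S, hS⟩ : ∃ S, S = (bd L).toReal := ⟨_, rfl⟩
  have hV0 : 0 ≤ V := by rw [hV]; exact ENNReal.toReal_nonneg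
  have hS0 : 0 ≤ S := by rw [hS]; exact ENNReal.toReal_nonneg
  obtain ⟨e, he⟩ : ∃ e, e = min (1 / 2) (ε / (7 * (V + S + 1))) := ⟨_, rfl⟩
  have he0 : 0 < e := by rw [he]; exact lt_min (by norm_num) (by positivity)
  have he1 : e < 1 := by
    have : e ≤ 1 / 2 := by rw [he]; exact min_le_left _ _
    linarith
  have hee : 7 * e * (V + S + 1) ≤ ε := by
    have h1 : e ≤ ε / (7 * (V + S + 1)) := by rw [he]; exact min_le_right _ _
    rw [le_div_iff₀ (by positivity)] at h1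
    linarith
  have heV : 7 * e * V ≤ ε := by
    have : 7 * e * V ≤ 7 * e * (V + S + 1) := mul_le_mul_of_nonneg_left (by linarith) (by linarith)
    linarith
  have heS : 7 * e * S ≤ ε := by
    have : 7 * e * S ≤ 7 * e * (V + S + 1) := mul_le_mul_of_nonneg_left (by linarith) (by linarith)
    linarith
  obtain ⟨δ, hδ, hδK⟩ := cpB_main L hL w hw e he0 he1
  refine ⟨δ, hδ, fun K hK hKc hn => ?_⟩
  obtain ⟨hlo, hup⟩ := hδK K hK hKc hn
  obtain ⟨a1, a2, a3⟩ := cpD_hmt L hL w (1 - e) (by linarith)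
  obtain ⟨b1, b2, b3⟩ := cpD_hmt L hL w (1 + e) (by linarith)
  have hCB : CB K := ⟨hK, hKc, a1.int.mono (interior_mono hlo)⟩
  obtain ⟨-, k2, -, k4⟩ := cmo_pos K hCB
  obtain ⟨-, u2, -, u4⟩ := cmo_pos _ b1
  refine ⟨hCB, ?_, ?_⟩
  · rw [← hV]
    refine (cpD_est V _ e hV0 he0 he1 ?_ ?_).trans heV
    · rw [hV, ← a2]
      exact ENNReal.toReal_mono k4 (measure_mono hlo)
    · rw [hV, ← b2]
      exact ENNReal.toReal_mono u4 (measure_mono hup)
  · rw [← hS]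
    refine (cpD_est2 S _ e hS0 he0 he1 ?_ ?_).trans heS
    · rw [hS, ← a3]
      exact ENNReal.toReal_mono k2 (cmo_mono _ _ a1 hCB hlo)
    · rw [hS, ← b3]
      exact ENNReal.toReal_mono u2 (cmo_mono _ _ hCB b1 hup)

end STB
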