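import Pool.Agent.Lib_helper15.STB.Defs

/-! # STB, block csq : the Cauchy-Schwarz inequality with the half circle, and equality -/

open MeasureTheory Filter Topology
open scoped InnerProductSpace
open Pool.Agent.Lib_helper15.STE

namespace STB

theorem csq_ii (a b : ℝ) (f : ℝ → ℝ) (hf : Measurable f) (C : ℝ) (hC : ∀ t, |f t| ≤ C) :
    IntervalIntegrable f volume a b := by
  rw [intervalIntegrable_iff]
  refine Integrable.mono' (g := fun _ => C) ?_ hf.aestronglyMeasurable ?_
  · exact (integrableOn_const (by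
      rw [Set.uIoc_eq_union]
      exact (measure_union_lt_top (by simp) (by simp)).ne)).integrable
  · exact Filter.Eventually.of_forall fun t => by rw [Real.norm_eq_abs]; exact hC t

theorem csq_main (R : ℝ) (hR : 0 < R) (a b : ℝ) (ha : -R ≤ a) (hab : a < b) (hb : b ≤ R)
    (L : ℝ → ℝ) (hL : Measurable L) (C : ℝ) (hC : ∀ t, |L t| ≤ C)
    (h0 : ∀ t ∉ Set.Icc a b, L t = 0) (hpos : ∀ t ∈ Set.Ioo a b, 0 < L t) :
    (∫ t, L t * √(R ^ 2 - t ^ 2)) ^ 2 ≤ 4 / 3 * R ^ 3 * (∫ t in a..b, L t ^ 2) ∧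
    ((∫ t, L t * √(R ^ 2 - t ^ 2)) ^ 2 = 4 / 3 * R ^ 3 * (∫ t in a..b, L t ^ 2) → b = R) := by
  have hC0 : 0 ≤ C := (abs_nonneg _).trans (hC 0)
  set w : ℝ → ℝ := fun t => √(R ^ 2 - t ^ 2) with hw
  have hwc : Continuous w := by
    rw [hw]; fun_prop
  have hwm : Measurable w := hwc.measurable
  have hwb : ∀ t, |w t| ≤ R := by
    intro t
    rw [abs_of_nonneg (Real.sqrt_nonneg _)]
    rw [Real.sqrt_le_left hR.le]
    nlinarith [sq_nonneg t]
  have hB0 : (∫ t, L t * √(R ^ 2 - t ^ 2)) = ∫ t in a..b, L t * w t := by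
    rw [intervalIntegral.integral_of_le hab.le, ← integral_Icc_eq_integral_Ioc]
    symm
    apply setIntegral_eq_integral_of_forall_compl_eq_zero
    intro t ht
    rw [h0 t ht, zero_mul]
  rw [hB0]
  have i1 : IntervalIntegrable (fun t => L t ^ 2) volume a b := by
    refine csq_ii a b _ (hL.pow_const 2) (C ^ 2) fun t => ?_
    rw [abs_pow]
    exact pow_le_pow_left₀ (abs_nonneg _) (hC t) 2
  have i2 : IntervalIntegrable (fun t => L t * w t) volume a b := by
    refine csq_ii a b _ (hL.mul hwm) (C * R) fun t => ?_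
    rw [abs_mul]
    exact mul_le_mul (hC t) (hwb t) (abs_nonneg _) hC0
  have i3 : IntervalIntegrable (fun t => R ^ 2 - t ^ 2) volume a b := by
    apply Continuous.intervalIntegrable
    fun_prop
  set A : ℝ := ∫ t in a..b, L t ^ 2 with hA
  set B : ℝ := ∫ t in a..b, L t * w t with hB
  set D : ℝ := ∫ t in a..b, (R ^ 2 - t ^ 2) with hD
  have hDv : D = R ^ 2 * (b - a) - (b ^ 3 - a ^ 3) / 3 := by
    rw [hD, intervalIntegral.integral_sub (by simp) (by simp), intervalIntegral.integral_const,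
      integral_pow, smul_eq_mul]
    push_cast; ring
  have hab2 : a * b < (a ^ 2 + b ^ 2) / 2 := by nlinarith [sq_pos_of_pos (sub_pos.2 hab)]
  have hD0 : 0 < D := by
    have h1 : D = (b - a) * (R ^ 2 - (a ^ 2 + a * b + b ^ 2) / 3) := by rw [hDv]; ring
    rw [h1]
    apply mul_pos (sub_pos.2 hab)
    nlinarith [mul_nonneg (by linarith : 0 ≤ R - a) (by linarith : 0 ≤ R + a),
      mul_nonneg (by linarith : 0 ≤ R - b) (by linarith : 0 ≤ R + b)]
  have hDle : D ≤ 4 / 3 * R ^ 3 - (R - b) ^ 2 * (2 * R + b) / 3 := by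
    have h1 : 4 / 3 * R ^ 3 - (R - b) ^ 2 * (2 * R + b) / 3 - D
        = (R + a) ^ 2 * (2 * R - a) / 3 := by rw [hDv]; ring
    have h2 : 0 ≤ (R + a) ^ 2 * (2 * R - a) / 3 := by
      have : 0 ≤ 2 * R - a := by linarith
      positivity
    linarith
  have hcs : B ^ 2 ≤ D * A := by
    have h1 : 0 ≤ ∫ t in a..b, (D * L t - B * w t) ^ 2 := by
      apply intervalIntegral.integral_nonneg hab.le
      intro t _
      positivity
    have h2 : ∫ t in a..b, (D * L t - B * w t) ^ 2
        = ∫ t in a..b, (D ^ 2 * L t ^ 2 - 2 * D * B * (L t * w t) + B ^ 2 * (R ^ 2 - t ^ 2)) := by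
      apply intervalIntegral.integral_congr
      intro t ht
      rw [Set.uIcc_of_le hab.le] at ht
      have h3 : w t ^ 2 = R ^ 2 - t ^ 2 := by
        rw [hw]
        apply Real.sq_sqrt
        nlinarith [ht.1, ht.2]
      show (D * L t - B * w t) ^ 2
        = D ^ 2 * L t ^ 2 - 2 * D * B * (L t * w t) + B ^ 2 * (R ^ 2 - t ^ 2)
      rw [← h3]; ring
    rw [h2, intervalIntegral.integral_add ((i1.const_mul _).sub (i2.const_mul _)) (i3.const_mul _),
      intervalIntegral.integral_sub (i1.const_mul _) (i2.const_mul _),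
      intervalIntegral.integral_const_mul, intervalIntegral.integral_const_mul,
      intervalIntegral.integral_const_mul, ← hA, ← hB, ← hD] at h1
    have h4 : 0 ≤ D * (D * A - B ^ 2) := by nlinarith
    have h5 : 0 ≤ D * A - B ^ 2 := nonneg_of_mul_nonneg_right h4 hD0
    linarith
  have hA0 : 0 < A := by
    apply intervalIntegral.intervalIntegral_pos_of_pos_on i1 _ hab
    intro t ht
    exact pow_pos (hpos t ht) 2
  constructor
  · have h1 : D ≤ 4 / 3 * R ^ 3 := by
      have : 0 ≤ (R - b) ^ 2 * (2 * R + b) / 3 := by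
        have : 0 ≤ 2 * R + b := by linarith
        positivity
      linarith
    calc B ^ 2 ≤ D * A := hcs
      _ ≤ _ := mul_le_mul_of_nonneg_right h1 hA0.le
  · intro heq
    by_contra hne
    have hlt : b < R := lt_of_le_of_ne hb hne
    have h1 : 0 < (R - b) ^ 2 * (2 * R + b) / 3 := by
      have h2 : 0 < R - b := sub_pos.2 hlt
      have h3 : 0 < 2 * R + b := by linarith
      positivity
    have h4 : D * A < 4 / 3 * R ^ 3 * A := mul_lt_mul_of_pos_right (by linarith) hA0
    linarith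

end STB
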