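import Pool.Agent.Lib_helper15.STB.Defs

/-! # STB, block ellA : ellipsoids -/

open MeasureTheory Filter Topology
open scoped InnerProductSpace
open Pool.Agent.Lib_helper15.STE

namespace STB

theorem ellA_cont (a : Fin 3 → ℝ) : Continuous (fun x : E3 => ∑ i, (x i / a i) ^ 2) := by
  fun_prop

theorem ellA_upper (a : Fin 3 → ℝ) (ha : ∀ i, 0 < a i) (s : ℝ) (hs : 0 < s) :
    Ell a s ⊆ Metric.closedBall 0 (s * max (a 0) (max (a 1) (a 2))) := by
  intro x hx
  have hx' : ∑ i, (x i / a i) ^ 2 ≤ s ^ 2 := hx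
  rw [mem_closedBall_zero_iff]
  set M := max (a 0) (max (a 1) (a 2)) with hM
  have hM0 : a 0 ≤ M := le_max_left _ _
  have hM1 : a 1 ≤ M := (le_max_left _ _).trans (le_max_right _ _)
  have hM2 : a 2 ≤ M := (le_max_right _ _).trans (le_max_right _ _)
  have hMi : ∀ i, a i ≤ M := by
    intro i
    fin_cases i
    · exact hM0
    · exact hM1
    · exact hM2
  have hMp : 0 < M := (ha 0).trans_le hM0
  have hterm : ∀ i : Fin 3, (x i) ^ 2 ≤ M ^ 2 * (x i / a i) ^ 2 := by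
    intro i
    have h1 : x i = a i * (x i / a i) := by field_simp [(ha i).ne']
    have h2 : (x i) ^ 2 = (a i) ^ 2 * (x i / a i) ^ 2 := by
      conv_lhs => rw [h1]
      ring
    rw [h2]
    exact mul_le_mul_of_nonneg_right (pow_le_pow_left₀ (ha i).le (hMi i) 2) (sq_nonneg _)
  have hsum : ‖x‖ ^ 2 ≤ (s * M) ^ 2 := by
    rw [EuclideanSpace.real_norm_sq_eq]
    calc ∑ i, (x i) ^ 2 ≤ ∑ i, M ^ 2 * (x i / a i) ^ 2 := Finset.sum_le_sum (fun i _ => hterm i)
      _ = M ^ 2 * ∑ i, (x i / a i) ^ 2 := by rw [Finset.mul_sum]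
      _ ≤ M ^ 2 * s ^ 2 := mul_le_mul_of_nonneg_left hx' (sq_nonneg _)
      _ = (s * M) ^ 2 := by ring
  exact (sq_le_sq₀ (norm_nonneg _) (by positivity)).1 hsum

theorem ellA_lower (a : Fin 3 → ℝ) (ha : ∀ i, 0 < a i) (s : ℝ) (hs : 0 < s) :
    Metric.closedBall 0 (s * min (a 0) (min (a 1) (a 2))) ⊆ Ell a s := by
  intro x hx
  rw [mem_closedBall_zero_iff] at hx
  set m := min (a 0) (min (a 1) (a 2)) with hm
  have hm0 : m ≤ a 0 := min_le_left _ _
  have hm1 : m ≤ a 1 := (min_le_right _ _).trans (min_le_left _ _)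
  have hm2 : m ≤ a 2 := (min_le_right _ _).trans (min_le_right _ _)
  have hmi : ∀ i, m ≤ a i := by
    intro i
    fin_cases i
    · exact hm0
    · exact hm1
    · exact hm2
  have hmp : 0 < m := lt_min (ha 0) (lt_min (ha 1) (ha 2))
  have hterm : ∀ i : Fin 3, (x i / a i) ^ 2 ≤ (x i) ^ 2 / m ^ 2 := by
    intro i
    rw [div_pow]
    exact div_le_div_of_nonneg_left (sq_nonneg _) (by positivity)
      (pow_le_pow_left₀ hmp.le (hmi i) 2)
  have hn : ∑ i, (x i) ^ 2 = ‖x‖ ^ 2 := (EuclideanSpace.real_norm_sq_eq x).symm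
  show ∑ i, (x i / a i) ^ 2 ≤ s ^ 2
  calc ∑ i, (x i / a i) ^ 2 ≤ ∑ i, (x i) ^ 2 / m ^ 2 := Finset.sum_le_sum (fun i _ => hterm i)
    _ = ‖x‖ ^ 2 / m ^ 2 := by rw [← Finset.sum_div, hn]
    _ ≤ (s * m) ^ 2 / m ^ 2 := by
        gcongr
    _ = s ^ 2 := by field_simp

theorem ell_cb (a : Fin 3 → ℝ) (ha : ∀ i, 0 < a i) (s : ℝ) (hs : 0 < s) : CB (Ell a s) ∧
    Ell a s = (fun x => (0 : E3) + s • x) '' Ell a 1 ∧
    Metric.closedBall 0 (s * min (a 0) (min (a 1) (a 2))) ⊆ Ell a s ∧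
    Ell a s ⊆ Metric.closedBall 0 (s * max (a 0) (max (a 1) (a 2))) := by
  refine ⟨⟨?_, ?_, ?_⟩, ?_, ellA_lower a ha s hs, ellA_upper a ha s hs⟩
  · -- convex
    have hcv : ConvexOn ℝ Set.univ (fun x : E3 => ∑ i, (x i / a i) ^ 2) := by
      refine ⟨convex_univ, ?_⟩
      intro x _ y _ p q hp hq hpq
      simp only [PiLp.add_apply, PiLp.smul_apply, smul_eq_mul]
      rw [Finset.mul_sum, Finset.mul_sum, ← Finset.sum_add_distrib]
      refine Finset.sum_le_sum (fun i _ => ?_)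
      have hq' : q = 1 - p := by linarith
      have h1 : (p * x i + q * y i) / a i = p * (x i / a i) + q * (y i / a i) := by ring
      rw [h1]
      have h2 : p * (x i / a i) ^ 2 + q * (y i / a i) ^ 2
          - (p * (x i / a i) + q * (y i / a i)) ^ 2 = p * q * (x i / a i - y i / a i) ^ 2 := by
        rw [hq']; ring
      have h3 : 0 ≤ p * q * (x i / a i - y i / a i) ^ 2 := by positivity
      linarith
    have := hcv.convex_le (s ^ 2)
    simpa [Ell] using this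
  · -- compact
    refine Metric.isCompact_of_isClosed_isBounded ?_ ?_
    · exact isClosed_le (ellA_cont a) continuous_const
    · exact Metric.isBounded_closedBall.subset (ellA_upper a ha s hs)
  · -- interior
    refine ⟨0, ?_⟩
    rw [mem_interior_iff_mem_nhds]
    refine Filter.mem_of_superset (Metric.closedBall_mem_nhds (0 : E3) ?_) (ellA_lower a ha s hs)
    exact mul_pos hs (lt_min (ha 0) (lt_min (ha 1) (ha 2)))
  · ext x
    constructor
    · intro hx
      have hx' : ∑ i, (x i / a i) ^ 2 ≤ s ^ 2 := hx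
      refine ⟨s⁻¹ • x, ?_, ?_⟩
      · show ∑ i, ((s⁻¹ • x) i / a i) ^ 2 ≤ 1 ^ 2
        have h1 : ∀ i : Fin 3, ((s⁻¹ • x) i / a i) ^ 2 = (s⁻¹) ^ 2 * (x i / a i) ^ 2 := by
          intro i
          simp only [PiLp.smul_apply, smul_eq_mul]
          ring
        rw [Finset.sum_congr rfl (fun i _ => h1 i), ← Finset.mul_sum]
        calc (s⁻¹) ^ 2 * ∑ i, (x i / a i) ^ 2 ≤ (s⁻¹) ^ 2 * s ^ 2 :=
              mul_le_mul_of_nonneg_left hx' (sq_nonneg _)
          _ = 1 ^ 2 := by field_simp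
      · simp [smul_smul, hs.ne']
    · rintro ⟨y, hy, rfl⟩
      have hy' : ∑ i, (y i / a i) ^ 2 ≤ 1 ^ 2 := hy
      show ∑ i, (((0 : E3) + s • y) i / a i) ^ 2 ≤ s ^ 2
      have h1 : ∀ i : Fin 3, (((0 : E3) + s • y) i / a i) ^ 2 = s ^ 2 * (y i / a i) ^ 2 := by
        intro i
        simp only [zero_add, PiLp.smul_apply, smul_eq_mul]
        ring
      rw [Finset.sum_congr rfl (fun i _ => h1 i), ← Finset.mul_sum]
      calc s ^ 2 * ∑ i, (y i / a i) ^ 2 ≤ s ^ 2 * 1 ^ 2 :=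
            mul_le_mul_of_nonneg_left hy' (sq_nonneg _)
        _ = s ^ 2 := by ring

end STB
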