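import Pool.Agent.Lib_helper15.STB.Defs
import Pool.Agent.Lib_helper15.STB.B.fraA
import Pool.Agent.Lib_helper15.STB.B.fraB
import Pool.Agent.Lib_helper15.STB.B.fraC
import Pool.Agent.Lib_helper15.STB.B.fub

/-! # STB, block ellB : shadows of ellipsoids (uses fraA, fraB, fub, ellA) -/

open MeasureTheory Filter Topology
open scoped InnerProductSpace
open Pool.Agent.Lib_helper15.STE

namespace STB

/-- norm in a frame -/
theorem ellB_norm (f u : E3) (h : ON f u) (x s t : ℝ) :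
    ‖x • cr f u + s • f + t • u‖ ^ 2 = x ^ 2 + s ^ 2 + t ^ 2 := by
  obtain ⟨-, -, h3, h4, -, -⟩ := fra_on' f u h
  obtain ⟨-, h2⟩ := fra_basis f u h (x • cr f u + s • f + t • u)
  have e1 : ⟪cr f u, cr f u⟫_ℝ = 1 := by
    rw [real_inner_self_eq_norm_sq, h3.nf]; norm_num
  have e2 : ⟪f, f⟫_ℝ = 1 := by
    rw [real_inner_self_eq_norm_sq, h.nf]; norm_num
  have e3 : ⟪u, u⟫_ℝ = 1 := by
    rw [real_inner_self_eq_norm_sq, h.nu]; norm_num
  have e4 : ⟪cr f u, f⟫_ℝ = 0 := h4.or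
  have e5 : ⟪cr f u, u⟫_ℝ = 0 := h3.or
  have e6 : ⟪f, u⟫_ℝ = 0 := h.or
  have e4' : ⟪f, cr f u⟫_ℝ = 0 := by rw [real_inner_comm]; exact e4
  have e5' : ⟪u, cr f u⟫_ℝ = 0 := by rw [real_inner_comm]; exact e5
  have e6' : ⟪u, f⟫_ℝ = 0 := by rw [real_inner_comm]; exact e6
  rw [h2]
  simp only [inner_add_left, real_inner_smul_left, e1, e2, e3, e4, e5, e6, e4', e5', e6']
  ring

/-- a unit vector orthogonal to `v` -/
theorem ellB_on (v : E3) (hv : ‖v‖ = 1) : ∃ u, ON v u := by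
  have h1 : ∃ w : E3, w ≠ 0 ∧ ⟪v, w⟫_ℝ = 0 := by
    by_cases h : v 0 = 0 ∧ v 1 = 0
    · refine ⟨EuclideanSpace.single 0 1, ?_, ?_⟩
      · intro h2
        have := congrArg (fun z : E3 => z 0) h2
        simp at this
      · rw [EuclideanSpace.inner_single_right]
        simp [h.1]
    · refine ⟨!₂[-v 1, v 0, 0], ?_, ?_⟩
      · intro h2
        apply h
        have h3 := congrArg (fun z : E3 => z 0) h2
        have h4 := congrArg (fun z : E3 => z 1) h2
        simp at h3 h4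
        exact ⟨h4, h3⟩
      · rw [PiLp.inner_apply]
        simp [Fin.sum_univ_three]
        ring
  obtain ⟨w, hw, hvw⟩ := h1
  refine ⟨‖w‖⁻¹ • w, ⟨hv, ?_, ?_⟩⟩
  · rw [norm_smul, norm_inv, norm_norm]
    exact inv_mul_cancel₀ (norm_ne_zero_iff.2 hw)
  · rw [real_inner_smul_right, hvw, mul_zero]

theorem ellB_cb (R : ℝ) (hR : 0 < R) : CB (Metric.closedBall (0 : E3) R) := by
  refine ⟨convex_closedBall _ _, isCompact_closedBall _ _, ?_⟩
  rw [interior_closedBall _ hR.ne']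
  exact ⟨0, Metric.mem_ball_self hR⟩

/-- shadow of a ball -/
theorem ellB_ball (R : ℝ) (hR : 0 < R) (v : E3) (hv : ‖v‖ = 1) :
    sh (Metric.closedBall (0 : E3) R) v = Real.pi * R ^ 2 := by
  obtain ⟨u, hu⟩ := ellB_on v hv
  have hK := ellB_cb R hR
  obtain ⟨-, hle, hex, -⟩ := fra_lohi _ hK u hu.nu
  have huu : ⟪u, u⟫_ℝ = 1 := by rw [real_inner_self_eq_norm_sq, hu.nu]; norm_num
  -- heights
  have hin : ∀ x ∈ Metric.closedBall (0 : E3) R, |⟪x, u⟫_ℝ| ≤ R := by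
    intro x hx
    rw [mem_closedBall_zero_iff] at hx
    have := abs_real_inner_le_norm x u
    rw [hu.nu, mul_one] at this
    linarith
  have hhi : hi (Metric.closedBall (0 : E3) R) u = R := by
    apply le_antisymm
    · apply csSup_le
      · exact ⟨_, ⟨0, by simp [hR.le], rfl⟩⟩
      · rintro _ ⟨x, hx, rfl⟩
        exact (abs_le.1 (hin x hx)).2
    · have hm : R • u ∈ Metric.closedBall (0 : E3) R := by
        rw [mem_closedBall_zero_iff, norm_smul, hu.nu, mul_one, Real.norm_eq_abs, abs_of_pos hR]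
      have := (hle _ hm).2
      rwa [real_inner_smul_left, huu, mul_one] at this
  have hlo : lo (Metric.closedBall (0 : E3) R) u = -R := by
    apply le_antisymm
    · have hm : (-R) • u ∈ Metric.closedBall (0 : E3) R := by
        rw [mem_closedBall_zero_iff, norm_smul, hu.nu, mul_one, Real.norm_eq_abs, abs_neg,
          abs_of_pos hR]
      have := (hle _ hm).1
      rwa [real_inner_smul_left, huu, mul_one] at this
    · apply le_csInf
      · exact ⟨_, ⟨0, by simp [hR.le], rfl⟩⟩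
      · rintro _ ⟨x, hx, rfl⟩
        exact (abs_le.1 (hin x hx)).1
  -- chords
  have hW : ∀ t ∈ Set.uIcc (-R) R, Wd (Metric.closedBall (0 : E3) R) v u t =
      2 * √(R ^ 2 - t ^ 2) := by
    intro t ht
    rw [Set.uIcc_of_le (by linarith)] at ht
    have hs : {x : ℝ | ∃ s : ℝ, x • cr v u + s • v + t • u ∈ Metric.closedBall (0 : E3) R} =
        Set.Icc (-√(R ^ 2 - t ^ 2)) (√(R ^ 2 - t ^ 2)) := by
      have h0 : 0 ≤ R ^ 2 - t ^ 2 := by nlinarith [ht.1, ht.2]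
      have key : ∀ x s : ℝ, x • cr v u + s • v + t • u ∈ Metric.closedBall (0 : E3) R ↔
          x ^ 2 + s ^ 2 + t ^ 2 ≤ R ^ 2 := by
        intro x s
        rw [mem_closedBall_zero_iff, ← ellB_norm v u hu x s t]
        constructor
        · intro h1
          exact pow_le_pow_left₀ (norm_nonneg _) h1 2
        · intro h1
          exact le_of_sq_le_sq h1 hR.le
      ext x
      simp only [Set.mem_ofPred_eq, Set.mem_Icc]
      rw [← abs_le]
      constructor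
      · rintro ⟨s, hs⟩
        rw [key] at hs
        exact Real.abs_le_sqrt (by nlinarith [sq_nonneg s])
      · intro hx
        refine ⟨0, ?_⟩
        rw [key]
        have := Real.sq_sqrt h0
        have h3 : x ^ 2 ≤ √(R ^ 2 - t ^ 2) ^ 2 := by
          rw [← sq_abs x]
          exact pow_le_pow_left₀ (abs_nonneg x) hx 2
        nlinarith
    unfold Wd
    rw [hs, Real.volume_Icc, ENNReal.toReal_ofReal]
    · ring
    · have := Real.sqrt_nonneg (R ^ 2 - t ^ 2)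
      linarith
  rw [← fub_sh _ hK v u hu, hhi, hlo, intervalIntegral.integral_congr hW]
  have hsub : ∫ t in (-R)..R, 2 * √(R ^ 2 - t ^ 2) = R * ∫ t in (-1:ℝ)..1, 2 * √(R ^ 2 - (R * t) ^ 2) := by
    have := intervalIntegral.smul_integral_comp_mul_left (a := -1) (b := 1)
      (fun t => 2 * √(R ^ 2 - t ^ 2)) R
    rw [smul_eq_mul] at this
    rw [this, mul_one, mul_neg, mul_one]
  rw [hsub]
  have h2 : ∀ t ∈ Set.uIcc (-1:ℝ) 1, 2 * √(R ^ 2 - (R * t) ^ 2) = (2 * R) * √(1 - t ^ 2) := by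
    intro t _
    have : R ^ 2 - (R * t) ^ 2 = R ^ 2 * (1 - t ^ 2) := by ring
    rw [this, Real.sqrt_mul (sq_nonneg R), Real.sqrt_sq hR.le]
    ring
  rw [intervalIntegral.integral_congr h2, intervalIntegral.integral_const_mul,
    integral_sqrt_one_sub_sq]
  ring

/-- a diagonal map -/
theorem ellB_diag (b : Fin 3 → ℝ) : ∃ T : E3 →ₗ[ℝ] E3, LinearMap.det T = b 0 * b 1 * b 2 ∧
    ∀ x i, T x i = b i * x i := by
  let e : (Fin 3 → ℝ) ≃ₗ[ℝ] E3 := (WithLp.linearEquiv 2 ℝ (Fin 3 → ℝ)).symm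
  refine ⟨(e : (Fin 3 → ℝ) →ₗ[ℝ] E3) ∘ₗ (Matrix.toLin' (Matrix.diagonal b)) ∘ₗ
    (e.symm : E3 →ₗ[ℝ] (Fin 3 → ℝ)), ?_, ?_⟩
  · rw [LinearMap.det_conj, LinearMap.det_toLin', Matrix.det_diagonal, Fin.prod_univ_three]
  · intro x i
    change (Matrix.toLin' (Matrix.diagonal b)) (e.symm x) i = b i * x i
    rw [Matrix.toLin'_apply, Matrix.mulVec_diagonal]
    rfl

theorem ell_sh (a : Fin 3 → ℝ) (ha : ∀ i, 0 < a i) (f : E3) (hf : ‖f‖ = 1) :
    sh (Ell a 1) f =
      Real.pi * √((a 1 * a 2 * f 0) ^ 2 + (a 0 * a 2 * f 1) ^ 2 + (a 0 * a 1 * f 2) ^ 2) := by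
  -- the preimage of `f`
  have ha0 := ha 0
  have ha1 := ha 1
  have ha2 := ha 2
  set w : E3 := !₂[f 0 / a 0, f 1 / a 1, f 2 / a 2] with hw
  have hw0 : w 0 = f 0 / a 0 := by simp [hw]
  have hw1 : w 1 = f 1 / a 1 := by simp [hw]
  have hw2 : w 2 = f 2 / a 2 := by simp [hw]
  have hwi : ∀ i, w i = f i / a i := by
    intro i; fin_cases i
    · exact hw0
    · exact hw1
    · exact hw2
  set r : ℝ := ‖w‖ with hr
  have hwne : w ≠ 0 := by
    intro h0
    have : f = 0 := by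
      ext i
      have h1 := hwi i
      rw [h0] at h1
      have h2 : f i / a i = 0 := by rw [← h1]; rfl
      rcases div_eq_zero_iff.1 h2 with h3 | h3
      · rw [h3]; rfl
      · exact absurd h3 (ha i).ne'
    rw [this, norm_zero] at hf
    exact zero_ne_one hf
  have hrp : 0 < r := norm_pos_iff.2 hwne
  obtain ⟨T, hdet, hT⟩ := ellB_diag (fun i => r * a i)
  set v : E3 := r⁻¹ • w with hv
  have hv1 : ‖v‖ = 1 := by
    rw [hv, norm_smul, norm_inv, Real.norm_eq_abs, abs_of_pos hrp, ← hr]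
    exact inv_mul_cancel₀ hrp.ne'
  have hTv : T v = f := by
    ext i
    rw [hT, hv]
    simp only [PiLp.smul_apply, smul_eq_mul]
    rw [hwi]
    have := (ha i).ne'
    field_simp
  have hnsq : ∀ x : E3, ‖x‖ ^ 2 = ∑ i, x i ^ 2 := by
    intro x
    rw [EuclideanSpace.norm_sq_eq]
    simp only [Real.norm_eq_abs, sq_abs]
  have himg : Ell a 1 = T '' Metric.closedBall (0 : E3) r⁻¹ := by
    ext x
    constructor
    · intro hx
      refine ⟨!₂[x 0 / (r * a 0), x 1 / (r * a 1), x 2 / (r * a 2)], ?_, ?_⟩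
      · rw [mem_closedBall_zero_iff]
        apply le_of_sq_le_sq _ (inv_pos.2 hrp).le
        rw [hnsq, Fin.sum_univ_three]
        have hx' : (x 0 / a 0) ^ 2 + (x 1 / a 1) ^ 2 + (x 2 / a 2) ^ 2 ≤ 1 := by
          have h1 : ∑ i, (x i / a i) ^ 2 ≤ (1:ℝ) ^ 2 := hx
          rw [Fin.sum_univ_three] at h1
          linarith
        have e1 : (!₂[x 0 / (r * a 0), x 1 / (r * a 1), x 2 / (r * a 2)] : E3) 0 ^ 2 +
            (!₂[x 0 / (r * a 0), x 1 / (r * a 1), x 2 / (r * a 2)] : E3) 1 ^ 2 +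
            (!₂[x 0 / (r * a 0), x 1 / (r * a 1), x 2 / (r * a 2)] : E3) 2 ^ 2 =
            r⁻¹ ^ 2 * ((x 0 / a 0) ^ 2 + (x 1 / a 1) ^ 2 + (x 2 / a 2) ^ 2) := by
          simp
          field_simp
        rw [e1]
        have : 0 ≤ r⁻¹ ^ 2 := by positivity
        nlinarith
      · ext i
        rw [hT]
        fin_cases i <;> simp <;> field_simp
    · rintro ⟨y, hy, rfl⟩
      rw [mem_closedBall_zero_iff] at hy
      show ∑ i, (T y i / a i) ^ 2 ≤ (1:ℝ) ^ 2
      have h1 : ∀ i, (T y i / a i) ^ 2 = r ^ 2 * y i ^ 2 := by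
        intro i
        rw [hT]
        have := (ha i).ne'
        field_simp
      simp only [h1]
      rw [← Finset.mul_sum, ← hnsq]
      have h2 : ‖y‖ ^ 2 ≤ r⁻¹ ^ 2 := pow_le_pow_left₀ (norm_nonneg _) hy 2
      calc r ^ 2 * ‖y‖ ^ 2 ≤ r ^ 2 * r⁻¹ ^ 2 := by
            apply mul_le_mul_of_nonneg_left h2; positivity
        _ = 1 ^ 2 := by rw [← mul_pow, mul_inv_cancel₀ hrp.ne']
  have himg2 : {y : E3 | ∃ x ∈ Ell a 1, ∃ s ∈ Set.Icc (0:ℝ) 1, y = x + s • f} =
      T '' {y : E3 | ∃ x ∈ Metric.closedBall (0 : E3) r⁻¹, ∃ s ∈ Set.Icc (0:ℝ) 1,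
        y = x + s • v} := by
    ext y
    constructor
    · rintro ⟨x, hx, s, hs, rfl⟩
      rw [himg] at hx
      obtain ⟨z, hz, rfl⟩ := hx
      exact ⟨z + s • v, ⟨z, hz, s, hs, rfl⟩, by rw [map_add, map_smul, hTv]⟩
    · rintro ⟨_, ⟨z, hz, s, hs, rfl⟩, rfl⟩
      refine ⟨T z, ?_, s, hs, by rw [map_add, map_smul, hTv]⟩
      rw [himg]
      exact ⟨z, hz, rfl⟩
  have hsh : sh (Ell a 1) f = |LinearMap.det T| * sh (Metric.closedBall (0 : E3) r⁻¹) v := by
    unfold sh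
    rw [himg2, himg, Measure.addHaar_image_linearMap, Measure.addHaar_image_linearMap,
      ENNReal.toReal_mul, ENNReal.toReal_mul, ENNReal.toReal_ofReal (abs_nonneg _)]
    ring
  rw [hsh, ellB_ball _ (inv_pos.2 hrp) v hv1, hdet, abs_of_pos (by positivity)]
  have hr2 : r ^ 2 = (f 0 / a 0) ^ 2 + (f 1 / a 1) ^ 2 + (f 2 / a 2) ^ 2 := by
    rw [hr, hnsq, Fin.sum_univ_three, hw0, hw1, hw2]
  have hsq : √((a 1 * a 2 * f 0) ^ 2 + (a 0 * a 2 * f 1) ^ 2 + (a 0 * a 1 * f 2) ^ 2) =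
      a 0 * a 1 * a 2 * r := by
    rw [Real.sqrt_eq_iff_mul_self_eq (by positivity) (by positivity)]
    have : a 0 * a 1 * a 2 * r * (a 0 * a 1 * a 2 * r) = (a 0 * a 1 * a 2) ^ 2 * r ^ 2 := by ring
    rw [this, hr2]
    field_simp
  rw [hsq]
  field_simp

end STB
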