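import Mathlib
import Pool.Agent.Lib_helper15.STB.Defs
import Pool.Agent.Lib_helper15.STB.B.fraA
import Pool.Agent.Lib_helper15.STB.B.fraC
import Pool.Agent.Lib_helper15.STB.B.wid
import Pool.Agent.Lib_helper15.STB.B.per
import Pool.Agent.Lib_helper15.STB.B.sec
import Pool.Agent.Lib_helper15.STB.B.ccvA
import Pool.Agent.Lib_helper15.STB.B.ccvB

/-! # STB, block lcv : the perimeter as a function of the height -/

open MeasureTheory Filter Topology
open scoped InnerProductSpace
open Pool.Agent.Lib_helper15.STE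

namespace STB

theorem lcv_tw_meas (f u : E3) : Measurable (fun φ : ℝ => tw f u φ) := by
  have : Continuous (fun φ : ℝ => tw f u φ) := by
    unfold tw
    fun_prop
  exact this.measurable

theorem lcv_meas2 (K : Set E3) (hK : CB K) (f u : E3) (h : ON f u) :
    Measurable (fun p : ℝ × ℝ => Wd K (tw f u p.2) u p.1) :=
  ccv_meas K hK (fun p : ℝ × ℝ => tw f u p.2) (fun _ => u) (fun p => p.1)
    ((lcv_tw_meas f u).comp measurable_snd) measurable_const measurable_fst
    (fun p => (fra_on f u h p.2).1)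

theorem lcv_int (K : Set E3) (hK : CB K) (f u : E3) (h : ON f u) (t : ℝ) :
    IntervalIntegrable (fun φ => Wd K (tw f u φ) u t) volume 0 Real.pi := by
  obtain ⟨C, hC, -, hC2, -⟩ := fra_bound K hK
  have hm : Measurable (fun φ : ℝ => Wd K (tw f u φ) u t) :=
    ccv_meas K hK (fun φ : ℝ => tw f u φ) (fun _ => u) (fun _ => t)
      (lcv_tw_meas f u) measurable_const measurable_const (fun p => (fra_on f u h p).1)
  rw [intervalIntegrable_iff]
  refine Measure.integrableOn_of_bounded (M := 2 * C) ?_ hm.aestronglyMeasurable ?_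
  · simp
  · refine Filter.Eventually.of_forall fun φ => ?_
    have h0 := (ccv_wd K hK (tw f u φ) u (fra_on f u h φ).1).2.1 t
    have h1 := hC2 (tw f u φ) u (fra_on f u h φ).1 t
    rw [Real.norm_eq_abs, abs_of_nonneg h0]
    exact h1

theorem lcv_lt (K : Set E3) (hK : CB K) (f u : E3) (h : ON f u) :
    ConcaveOn ℝ (Set.Icc (lo K u) (hi K u)) (Lt K f u) ∧ (∀ t, 0 ≤ Lt K f u t) ∧
    Measurable (Lt K f u) ∧ (∃ C : ℝ, ∀ t, Lt K f u t ≤ C) ∧
    (∀ t ∉ Set.Icc (lo K u) (hi K u), Lt K f u t = 0) ∧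
    (∀ t ∈ Set.Ioo (lo K u) (hi K u), 0 < Lt K f u t) ∧
    (∀ t ∈ Set.Icc (lo K u) (hi K u), bd (Sc K f u t) = ENNReal.ofReal (Lt K f u t) ∧
      2 * Wd K f u t ≤ Lt K f u t ∧
      6 * (∫ φ in (0:ℝ)..Real.pi, Wd K (tw f u φ) u t ^ 3) ≤ Lt K f u t ^ 3) := by
  have hpi := Real.pi_pos
  obtain ⟨C, hC, -, hC2, -⟩ := fra_bound K hK
  have hon := fun φ => (fra_on f u h φ).1
  have hcc := fun φ => ccv_wd K hK (tw f u φ) u (hon φ)
  have hii := fun t => lcv_int K hK f u h t
  refine ⟨⟨convex_Icc _ _, ?_⟩, ?_, ?_, ⟨(Real.pi - 0) * (2 * C), ?_⟩, ?_, ?_, ?_⟩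
  · intro x hx y hy a b ha hb hab
    simp only [smul_eq_mul, Lt]
    rw [← intervalIntegral.integral_const_mul, ← intervalIntegral.integral_const_mul,
      ← intervalIntegral.integral_add ((hii x).const_mul a) ((hii y).const_mul b)]
    refine intervalIntegral.integral_mono_on hpi.le
      (((hii x).const_mul a).add ((hii y).const_mul b)) (hii _) ?_
    intro φ _
    have := (hcc φ).1.2 hx hy ha hb hab
    simpa only [smul_eq_mul] using this
  · intro t
    exact intervalIntegral.integral_nonneg hpi.le (fun φ _ => (hcc φ).2.1 t)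
  · have hm := lcv_meas2 K hK f u h
    have h2 : StronglyMeasurable (fun t : ℝ => ∫ φ in Set.Ioc (0:ℝ) Real.pi,
        Wd K (tw f u φ) u t) :=
      StronglyMeasurable.integral_prod_right (f := fun t φ => Wd K (tw f u φ) u t)
        hm.stronglyMeasurable
    have h3 : Lt K f u = (fun t : ℝ => ∫ φ in Set.Ioc (0:ℝ) Real.pi,
        Wd K (tw f u φ) u t) := by
      funext t
      unfold Lt
      rw [intervalIntegral.integral_of_le hpi.le]
    rw [h3]
    exact h2.measurable
  · intro t
    have h1 : Lt K f u t ≤ ∫ _ in (0:ℝ)..Real.pi, (2 * C) :=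
      intervalIntegral.integral_mono_on hpi.le (hii t) intervalIntegrable_const
        (fun φ _ => hC2 (tw f u φ) u (hon φ) t)
    rw [intervalIntegral.integral_const, smul_eq_mul] at h1
    exact h1
  · intro t ht
    unfold Lt
    have : ∀ φ, Wd K (tw f u φ) u t = 0 := fun φ =>
      ((sec_comp K hK (tw f u φ) u (hon φ) t).2.2.2.1 ht).2
    simp [this]
  · intro t ht
    exact intervalIntegral.intervalIntegral_pos_of_pos_on (hii t)
      (fun φ _ => (hcc φ).2.2 t ht) hpi
  · intro t ht
    have hs := sec_comp K hK f u h t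
    have hne := hs.2.2.1 ht
    have hw : ∀ φ, wE (Sc K f u t) φ = Wd K (tw f u φ) u t :=
      fun φ => sec_width K hK f u h t φ
    have hL : (∫ φ in (0:ℝ)..Real.pi, wE (Sc K f u t) φ) = Lt K f u t := by
      unfold Lt
      simp only [hw]
    have h0 : tw f u 0 = f := by simp [tw]
    refine ⟨?_, ?_, ?_⟩
    · rw [per_eq (Sc K f u t) hs.1 hs.2.1 hne, hL]
    · have := per_two (Sc K f u t) hs.1 hs.2.1 hne 0
      rw [hL, hw 0, h0] at this
      exact this
    · have := per_three (Sc K f u t) hs.1 hs.2.1 hne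
      rw [hL] at this
      simpa only [hw] using this

end STB
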