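import Pool.Agent.Lib_helper15.STB.Defs
import Pool.Agent.Lib_helper15.STB.B.wid
import Pool.Agent.Lib_helper15.STB.B.fraA
import Pool.Agent.Lib_helper15.STB.B.fraC
import Pool.Agent.Lib_helper15.STB.B.sec
import Pool.Agent.Lib_helper15.STB.B.lcv
import Pool.Agent.Lib_helper15.STB.B.ellA

/-! # STB, block ellC : sections of a body containing an ellipsoid, orthogonal to the second axis -/

open MeasureTheory Filter Topology
open scoped InnerProductSpace
open Pool.Agent.Lib_helper15.STE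

namespace STB

theorem ellC_on : ON (e 2) (e 1) := by
  refine ⟨?_, ?_, ?_⟩
  · simp [e]
  · simp [e]
  · simp [e, EuclideanSpace.inner_single_left]

theorem ellC_cr : cr (e 2) (e 1) = - e 0 := by
  ext i
  fin_cases i <;> simp [cr, e]

theorem ellC_coord (c s α β t : ℝ) : (α • (c • -e 0 + s • e 2) + β • (c • e 2 - s • -e 0) +
    t • e 1 : E3) = !₂[-(α * c) + β * s, t, α * s + β * c] := by
  ext i
  fin_cases i <;> simp [e]

/-- membership of the explicit points in the ellipsoid -/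
theorem ellC_mem (a : Fin 3 → ℝ) (ha : ∀ i, 0 < a i) (φ t x : ℝ) (ht : |t| ≤ a 1)
    (hx : |x| ≤ √(1 - t ^ 2 / a 1 ^ 2) *
      √((a 0 * Real.cos φ) ^ 2 + (a 2 * Real.sin φ) ^ 2)) :
    ∃ s : ℝ, x • cr (tw (e 2) (e 1) φ) (e 1) + s • tw (e 2) (e 1) φ + t • e 1 ∈ Ell a 1 := by
  have h0 := ha 0
  have h1 := ha 1
  have h2 := ha 2
  have hcs : Real.sin φ ^ 2 + Real.cos φ ^ 2 = 1 := Real.sin_sq_add_cos_sq φ
  have hpos : 0 < (a 0 * Real.cos φ) ^ 2 + (a 2 * Real.sin φ) ^ 2 := by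
    rcases eq_or_ne (Real.cos φ) 0 with hc | hc
    · have hs : Real.sin φ ≠ 0 := by
        intro hs
        rw [hc, hs] at hcs
        norm_num at hcs
      positivity
    · positivity
  obtain ⟨h, hh⟩ : ∃ h, h = √((a 0 * Real.cos φ) ^ 2 + (a 2 * Real.sin φ) ^ 2) := ⟨_, rfl⟩
  have hhpos : 0 < h := hh ▸ Real.sqrt_pos.mpr hpos
  have hhsq : h ^ 2 = (a 0 * Real.cos φ) ^ 2 + (a 2 * Real.sin φ) ^ 2 := by
    rw [hh, Real.sq_sqrt hpos.le]
  rw [← hh] at hx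
  obtain ⟨lam, hlam⟩ : ∃ lam, lam = x / h := ⟨_, rfl⟩
  have hxl : x = lam * h := by rw [hlam]; field_simp
  have ht2 : t ^ 2 ≤ a 1 ^ 2 := by
    rw [← sq_abs t]
    exact pow_le_pow_left₀ (abs_nonneg _) ht 2
  have hr : 0 ≤ 1 - t ^ 2 / a 1 ^ 2 := by
    rw [sub_nonneg, div_le_one (by positivity)]
    exact ht2
  have hlam2 : lam ^ 2 ≤ 1 - t ^ 2 / a 1 ^ 2 := by
    have h3 : |lam| ≤ √(1 - t ^ 2 / a 1 ^ 2) := by
      rw [hlam, abs_div, abs_of_pos hhpos, div_le_iff₀ hhpos]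
      exact hx
    rw [← sq_abs lam, ← Real.sq_sqrt hr]
    exact pow_le_pow_left₀ (abs_nonneg _) h3 2
  obtain ⟨z0, hz0⟩ : ∃ z0, z0 = -(a 0 ^ 2 * Real.cos φ / h) := ⟨_, rfl⟩
  obtain ⟨z2, hz2⟩ : ∃ z2, z2 = a 2 ^ 2 * Real.sin φ / h := ⟨_, rfl⟩
  have hxz : x = lam * (-z0 * Real.cos φ + z2 * Real.sin φ) := by
    rw [hxl, hz0, hz2]
    congr 1
    have e1 : h = h ^ 2 / h := by field_simp
    nth_rewrite 1 [e1]
    rw [hhsq]
    ring
  refine ⟨lam * (z0 * Real.sin φ + z2 * Real.cos φ), ?_⟩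
  have hcr := (fra_on (e 2) (e 1) ellC_on φ).2
  rw [hcr]
  unfold tw
  rw [ellC_cr, ellC_coord]
  have c0 : -(x * Real.cos φ) + lam * (z0 * Real.sin φ + z2 * Real.cos φ) * Real.sin φ =
      lam * z0 := by
    rw [hxz]
    linear_combination (lam * z0) * hcs
  have c2 : x * Real.sin φ + lam * (z0 * Real.sin φ + z2 * Real.cos φ) * Real.cos φ =
      lam * z2 := by
    rw [hxz]
    linear_combination (lam * z2) * hcs
  rw [c0, c2]
  have key : (lam * z0 / a 0) ^ 2 + (t / a 1) ^ 2 + (lam * z2 / a 2) ^ 2 ≤ 1 ^ 2 := by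
    have e2 : (lam * z0 / a 0) ^ 2 + (t / a 1) ^ 2 + (lam * z2 / a 2) ^ 2 =
        lam ^ 2 * (((a 0 * Real.cos φ) ^ 2 + (a 2 * Real.sin φ) ^ 2) / h ^ 2) +
          t ^ 2 / a 1 ^ 2 := by
      rw [hz0, hz2]
      field_simp
      ring
    rw [e2, ← hhsq, div_self (by positivity)]
    linarith
  unfold Ell
  refine Set.mem_setOf.mpr ?_
  rw [Fin.sum_univ_three]
  simpa using key

theorem ellC_wd (a : Fin 3 → ℝ) (ha : ∀ i, 0 < a i) (K : Set E3) (hK : CB K)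
    (h : Ell a 1 ⊆ K) (φ t : ℝ) (ht : |t| ≤ a 1) :
    √(1 - t ^ 2 / a 1 ^ 2) * (2 * √((a 0 * Real.cos φ) ^ 2 + (a 2 * Real.sin φ) ^ 2)) ≤
      Wd K (tw (e 2) (e 1) φ) (e 1) t := by
  obtain ⟨C, hC0, hC, -, -⟩ := fra_bound K hK
  obtain ⟨w, hw⟩ : ∃ w, w = √(1 - t ^ 2 / a 1 ^ 2) *
      √((a 0 * Real.cos φ) ^ 2 + (a 2 * Real.sin φ) ^ 2) := ⟨_, rfl⟩
  have hw0 : 0 ≤ w := by rw [hw]; positivity
  have hON := (fra_on (e 2) (e 1) ellC_on φ).1
  obtain ⟨f, hf⟩ : ∃ f, f = tw (e 2) (e 1) φ := ⟨_, rfl⟩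
  rw [← hf] at hON ⊢
  obtain ⟨-, -, h1, h2, -, -⟩ := fra_on' f (e 1) hON
  have hsub : Set.Icc (-w) w ⊆ {x : ℝ | ∃ s : ℝ, x • cr f (e 1) + s • f + t • e 1 ∈ K} := by
    intro x hx
    obtain ⟨s, hs⟩ := ellC_mem a ha φ t x ht (by rw [← hw]; exact abs_le.mpr hx)
    rw [← hf] at hs
    exact ⟨s, h hs⟩
  have hbd : {x : ℝ | ∃ s : ℝ, x • cr f (e 1) + s • f + t • e 1 ∈ K} ⊆ Set.Icc (-C) C := by
    rintro x ⟨s, hx⟩
    have e1 := hC _ hx
    have e2 : ⟪x • cr f (e 1) + s • f + t • e 1, cr f (e 1)⟫_ℝ = x := by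
      rw [inner_add_left, inner_add_left, inner_smul_left, inner_smul_left, inner_smul_left,
        real_inner_self_eq_norm_sq, h1.nf, real_inner_comm (cr f (e 1)) f,
        real_inner_comm (cr f (e 1)) (e 1), h1.or, h2.or]
      simp
    have e3 := abs_real_inner_le_norm (x • cr f (e 1) + s • f + t • e 1) (cr f (e 1))
    rw [e2, h1.nf, mul_one] at e3
    exact abs_le.mp (e3.trans e1)
  have hfin : volume {x : ℝ | ∃ s : ℝ, x • cr f (e 1) + s • f + t • e 1 ∈ K} ≠ ⊤ := by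
    refine ne_top_of_le_ne_top ?_ (measure_mono hbd)
    rw [Real.volume_Icc]
    exact ENNReal.ofReal_ne_top
  have e5 := ENNReal.toReal_mono hfin (measure_mono hsub)
  rw [Real.volume_Icc, ENNReal.toReal_ofReal (by linarith)] at e5
  have e6 : √(1 - t ^ 2 / a 1 ^ 2) *
      (2 * √((a 0 * Real.cos φ) ^ 2 + (a 2 * Real.sin φ) ^ 2)) = w - -w := by
    rw [hw]; ring
  rw [e6]
  exact e5

theorem ell_sec (a : Fin 3 → ℝ) (ha : ∀ i, 0 < a i) (K : Set E3) (hK : CB K)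
    (h : Ell a 1 ⊆ K) :
    4 / 3 * a 1 * (∫ φ in (0:ℝ)..Real.pi,
        2 * √((a 0 * Real.cos φ) ^ 2 + (a 2 * Real.sin φ) ^ 2)) ^ 2 ≤
      ∫ t in (lo K (e 1))..(hi K (e 1)), Lt K (e 2) (e 1) t ^ 2 := by
  have h1 := ha 1
  have hON := ellC_on
  obtain ⟨P, hP⟩ : ∃ P, P = ∫ φ in (0:ℝ)..Real.pi,
        2 * √((a 0 * Real.cos φ) ^ 2 + (a 2 * Real.sin φ) ^ 2) := ⟨_, rfl⟩
  have hP0 : 0 ≤ P := by
    rw [hP]
    apply intervalIntegral.integral_nonneg Real.pi_pos.le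
    intro φ _
    positivity
  have hcont : Continuous fun φ : ℝ =>
      2 * √((a 0 * Real.cos φ) ^ 2 + (a 2 * Real.sin φ) ^ 2) := by fun_prop
  rw [← hP]
  -- the perimeter of the section
  have hLt : ∀ t, |t| ≤ a 1 → √(1 - t ^ 2 / a 1 ^ 2) * P ≤ Lt K (e 2) (e 1) t := by
    intro t ht
    unfold Lt
    rw [hP, ← intervalIntegral.integral_const_mul]
    apply intervalIntegral.integral_mono_on Real.pi_pos.le
    · exact (Continuous.intervalIntegrable (continuous_const.mul hcont) _ _)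
    · obtain ⟨hc1, hc2, -⟩ := sec_comp K hK (e 2) (e 1) hON t
      obtain ⟨C, hC0, -, hC⟩ := wid_lip _ hc1 hc2
      have hLip : LipschitzWith ⟨C, hC0⟩ (wE (Sc K (e 2) (e 1) t)) := by
        refine LipschitzWith.of_dist_le_mul fun x y => ?_
        rw [Real.dist_eq, Real.dist_eq]
        exact hC x y
      have hc3 := hLip.continuous
      have e1 : (fun φ => Wd K (tw (e 2) (e 1) φ) (e 1) t) = wE (Sc K (e 2) (e 1) t) := by
        funext φ
        exact (sec_width K hK (e 2) (e 1) hON t φ).symm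
      rw [e1]
      exact hc3.intervalIntegrable _ _
    · intro φ _
      exact ellC_wd a ha K hK h φ t ht
  obtain ⟨-, hL0, hLm, ⟨C, hLC⟩, -⟩ := lcv_lt K hK (e 2) (e 1) hON
  have hii : ∀ x y : ℝ, IntervalIntegrable (fun t => Lt K (e 2) (e 1) t ^ 2) volume x y := by
    intro x y
    rw [intervalIntegrable_iff]
    refine IntegrableOn.of_bound ?_ (hLm.pow_const 2).aestronglyMeasurable (C ^ 2) ?_
    · exact measure_Ioc_lt_top
    · refine Filter.Eventually.of_forall fun t => ?_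
      rw [Real.norm_eq_abs, abs_of_nonneg (sq_nonneg _)]
      exact pow_le_pow_left₀ (hL0 t) (hLC t) 2
  -- the heights
  have hmem : ∀ s : ℝ, s ^ 2 = a 1 ^ 2 → s • e 1 ∈ K := by
    intro s hs
    apply h
    unfold Ell
    rw [Set.mem_setOf_eq, Fin.sum_univ_three]
    simp [e]
    rw [abs_div, div_le_one (by positivity)]
    rw [abs_of_pos h1]
    exact abs_le_of_sq_le_sq hs.le h1.le
  obtain ⟨-, hlohi, -⟩ := fra_lohi K hK (e 1) hON.nu
  have hin : ∀ s : ℝ, ⟪s • e 1, e 1⟫_ℝ = s := by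
    intro s
    rw [inner_smul_left, real_inner_self_eq_norm_sq, hON.nu]
    simp
  have hhi : a 1 ≤ hi K (e 1) := by
    have := (hlohi _ (hmem (a 1) rfl)).2
    rwa [hin] at this
  have hlo : lo K (e 1) ≤ -a 1 := by
    have := (hlohi _ (hmem (-a 1) (by ring))).1
    rwa [hin] at this
  have k1 : ∫ t in (-a 1)..(a 1), Lt K (e 2) (e 1) t ^ 2 ≤
      ∫ t in (lo K (e 1))..(hi K (e 1)), Lt K (e 2) (e 1) t ^ 2 := by
    apply intervalIntegral.integral_mono_interval hlo (by linarith) hhi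
    · exact Filter.Eventually.of_forall fun t => sq_nonneg _
    · exact hii _ _
  refine le_trans ?_ k1
  have k2 : ∫ t in (-a 1)..(a 1), (1 - t ^ 2 / a 1 ^ 2) * P ^ 2 = 4 / 3 * a 1 * P ^ 2 := by
    rw [intervalIntegral.integral_mul_const, intervalIntegral.integral_sub (by simp)
      (Continuous.intervalIntegrable (by fun_prop) _ _), intervalIntegral.integral_div,
      integral_pow]
    simp only [intervalIntegral.integral_const, smul_eq_mul]
    field_simp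
    ring
  rw [← k2]
  apply intervalIntegral.integral_mono_on (by linarith)
    (Continuous.intervalIntegrable (by fun_prop) _ _) (hii _ _)
  intro t ht
  have ht' : |t| ≤ a 1 := abs_le.mpr ht
  have ht2 : t ^ 2 ≤ a 1 ^ 2 := by
    rw [← sq_abs t]
    exact pow_le_pow_left₀ (abs_nonneg _) ht' 2
  have hr : 0 ≤ 1 - t ^ 2 / a 1 ^ 2 := by
    rw [sub_nonneg, div_le_one (by positivity)]
    exact ht2
  have e1 : (1 - t ^ 2 / a 1 ^ 2) * P ^ 2 = (√(1 - t ^ 2 / a 1 ^ 2) * P) ^ 2 := by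
    rw [mul_pow, Real.sq_sqrt hr]
  rw [e1]
  exact pow_le_pow_left₀ (by positivity) (hLt t ht') 2

end STB
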