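import Pool.Agent.Lib_helper15.STB.Defs
import Pool.Agent.Lib_helper15.STE.B.sigA
import Pool.Agent.Lib_helper15.STE.B.sigB
import Pool.Agent.Lib_helper15.STE.B.sigC

/-! # STB, block ellD : perimeter of the ellipse with semiaxes 1, k against the surface area of the
spheroid with semiaxes 1, 1, k -/

open MeasureTheory Filter Topology
open scoped InnerProductSpace
open Pool.Agent.Lib_helper15.STE

namespace STB

/-- the function on the sphere -/
noncomputable def ellD_g (k : ℝ) (x : E3) : ℝ :=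
  √(k ^ 2 * x 1 ^ 2 + x 2 ^ 2) * √(x 1 ^ 2 + x 2 ^ 2)

/-- the turned function -/
noncomputable def ellD_h (k : ℝ) (x : E3) : ℝ :=
  √(k ^ 2 * x 0 ^ 2 + x 1 ^ 2) * √(x 0 ^ 2 + x 1 ^ 2)

theorem ellD_coord (i : Fin 3) : Continuous (fun x : E3 => x i) :=
  (EuclideanSpace.proj (𝕜 := ℝ) i).continuous

theorem ellD_gc (k : ℝ) : Continuous (ellD_g k) := by
  unfold ellD_g
  have h1 := ellD_coord 1
  have h2 := ellD_coord 2
  fun_prop

theorem ellD_hc (k : ℝ) : Continuous (ellD_h k) := by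
  unfold ellD_h
  have h1 := ellD_coord 0
  have h2 := ellD_coord 1
  fun_prop

theorem ellD_nrm (x : E3) (hx : ‖x‖ = 1) : x 0 ^ 2 + x 1 ^ 2 + x 2 ^ 2 = 1 := by
  have h := EuclideanSpace.norm_sq_eq x
  rw [hx, Fin.sum_univ_three] at h
  simp only [Real.norm_eq_abs, sq_abs] at h
  linarith

theorem ellD_bd (k : ℝ) (hk : 0 < k) (a b : ℝ) (h : a ^ 2 + b ^ 2 ≤ 1) :
    |√(k ^ 2 * a ^ 2 + b ^ 2) * √(a ^ 2 + b ^ 2)| ≤ k + 1 := by
  rw [abs_of_nonneg (by positivity)]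
  have h1 : √(k ^ 2 * a ^ 2 + b ^ 2) ≤ k + 1 := by
    apply Real.sqrt_le_iff.2
    refine ⟨by linarith, ?_⟩
    have h2 : k ^ 2 * a ^ 2 ≤ k ^ 2 := by nlinarith [sq_nonneg k, sq_nonneg b, sq_nonneg a]
    nlinarith [sq_nonneg a]
  have h2 : √(a ^ 2 + b ^ 2) ≤ 1 := by
    rw [← Real.sqrt_one]
    exact Real.sqrt_le_sqrt h
  calc _ ≤ (k + 1) * 1 := by gcongr
    _ = k + 1 := mul_one _

theorem ellD_rot (k : ℝ) : ∫ x, ellD_h k x ∂sig = ∫ x, ellD_g k x ∂sig := by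
  let R : E3 ≃ₗᵢ[ℝ] E3 := LinearIsometryEquiv.piLpCongrLeft 2 ℝ ℝ (finRotate 3)
  have hR : ∀ x : E3, (R x) 1 = x 0 ∧ (R x) 2 = x 1 := by
    intro x
    exact ⟨rfl, rfl⟩
  have h1 : ∀ x, ellD_h k x = ellD_g k (R x) := by
    intro x
    unfold ellD_h ellD_g
    rw [(hR x).1, (hR x).2]
  simp_rw [h1]
  nth_rewrite 2 [← sigA_map R]
  rw [integral_map R.continuous.measurable.aemeasurable
    (ellD_gc k).measurable.aestronglyMeasurable]

theorem ellD_per (k : ℝ) : ∫ φ in (-Real.pi)..Real.pi, √(k ^ 2 * Real.cos φ ^ 2 + Real.sin φ ^ 2) =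
    2 * ∫ φ in (0:ℝ)..Real.pi, √(Real.cos φ ^ 2 + (k * Real.sin φ) ^ 2) := by
  set F : ℝ → ℝ := fun φ => √(Real.cos φ ^ 2 + (k * Real.sin φ) ^ 2) with hF
  have hFc : Continuous F := by rw [hF]; fun_prop
  have h1 : ∀ φ, √(k ^ 2 * Real.cos φ ^ 2 + Real.sin φ ^ 2) = F (φ + Real.pi / 2) := by
    intro φ
    simp only [hF, Real.cos_add_pi_div_two, Real.sin_add_pi_div_two]
    congr 1
    ring
  simp_rw [h1]
  rw [intervalIntegral.integral_comp_add_right (fun φ => F φ)]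
  have hp : Function.Periodic F Real.pi := by
    intro φ
    simp only [hF, Real.cos_add_pi, Real.sin_add_pi]
    congr 1
    ring
  have hp2 : Function.Periodic F (2 * Real.pi) := by
    have := hp.nat_mul 2
    simpa using this
  have h2 := hp2.intervalIntegral_add_eq (-Real.pi + Real.pi / 2) 0
  have h3 : -Real.pi + Real.pi / 2 + 2 * Real.pi = Real.pi + Real.pi / 2 := by ring
  rw [h3] at h2
  rw [h2]
  have h4 := hp.intervalIntegral_add_eq Real.pi 0
  have h5 : (0:ℝ) + Real.pi = Real.pi := zero_add _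
  have h6 : Real.pi + Real.pi = 0 + 2 * Real.pi := by ring
  rw [h5, h6] at h4
  rw [← intervalIntegral.integral_add_adjacent_intervals (b := Real.pi)
    (hFc.intervalIntegrable _ _) (hFc.intervalIntegrable _ _), h4]
  ring

/-- axis 0 -/
theorem ellD_ax0 (k : ℝ) (hk : 0 < k) : ∫ x, ellD_h k x ∂sig =
    2 / (3 * Real.pi) * ∫ φ in (0:ℝ)..Real.pi, √(Real.cos φ ^ 2 + (k * Real.sin φ) ^ 2) := by
  have hb : ∀ x : E3, ‖x‖ = 1 → |ellD_h k x| ≤ k + 1 := by
    intro x hx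
    have := ellD_nrm x hx
    exact ellD_bd k hk _ _ (by nlinarith [sq_nonneg (x 2)])
  rw [(sigC_integral (ellD_h k) (ellD_hc k).measurable (k + 1) hb).2]
  have h1 : ∀ τ ∈ Set.uIcc (-1:ℝ) 1, cm (ellD_h k) τ = (1 - τ ^ 2) * (Real.pi⁻¹ *
      ∫ φ in (0:ℝ)..Real.pi, √(Real.cos φ ^ 2 + (k * Real.sin φ) ^ 2)) := by
    intro τ hτ
    rw [Set.uIcc_of_le (by norm_num)] at hτ
    have hτ2 : 0 ≤ 1 - τ ^ 2 := by nlinarith [hτ.1, hτ.2]
    unfold cm av
    have h2 : ∀ φ, ellD_h k (pt τ φ) = (1 - τ ^ 2) *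
        √(k ^ 2 * Real.cos φ ^ 2 + Real.sin φ ^ 2) := by
      intro φ
      unfold ellD_h
      have e0 : (pt τ φ) 0 = √(1 - τ ^ 2) * Real.cos φ := rfl
      have e1 : (pt τ φ) 1 = √(1 - τ ^ 2) * Real.sin φ := rfl
      rw [e0, e1]
      have e2 : k ^ 2 * (√(1 - τ ^ 2) * Real.cos φ) ^ 2 + (√(1 - τ ^ 2) * Real.sin φ) ^ 2 =
          (1 - τ ^ 2) * (k ^ 2 * Real.cos φ ^ 2 + Real.sin φ ^ 2) := by
        rw [mul_pow, mul_pow, Real.sq_sqrt hτ2]
        ring
      have e3 : (√(1 - τ ^ 2) * Real.cos φ) ^ 2 + (√(1 - τ ^ 2) * Real.sin φ) ^ 2 =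
          1 - τ ^ 2 := by
        rw [mul_pow, mul_pow, Real.sq_sqrt hτ2]
        have := Real.sin_sq_add_cos_sq φ
        linear_combination (1 - τ ^ 2) * this
      rw [e2, e3, Real.sqrt_mul hτ2]
      have e4 := Real.mul_self_sqrt hτ2
      linear_combination √(k ^ 2 * Real.cos φ ^ 2 + Real.sin φ ^ 2) * e4
    simp_rw [h2]
    rw [intervalIntegral.integral_const_mul, ellD_per]
    have hpi := Real.pi_ne_zero
    field_simp
  rw [intervalIntegral.integral_congr h1, intervalIntegral.integral_mul_const]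
  have h3 : ∫ τ in (-1:ℝ)..1, (1 - τ ^ 2) = 4 / 3 := by
    rw [intervalIntegral.integral_sub (by simp) (by simp), integral_pow]
    simp
    norm_num
  rw [h3]
  have hpi := Real.pi_ne_zero
  field_simp
  ring

/-- pointwise inequality -/
theorem ellD_cs (k z : ℝ) (hz : z ^ 2 ≤ 1) (φ : ℝ) :
    √(k ^ 2 * (1 - z ^ 2) + z ^ 2) * Real.sin φ ^ 2 + z ^ 2 * Real.cos φ ^ 2 ≤
      ellD_g k (pt z φ) := by
  unfold ellD_g
  have e1 : (pt z φ) 1 = √(1 - z ^ 2) * Real.sin φ := rfl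
  have e2 : (pt z φ) 2 = z := rfl
  rw [e1, e2]
  have h1 : 0 ≤ 1 - z ^ 2 := by linarith
  have hcs := Real.sin_sq_add_cos_sq φ
  set s := Real.sin φ ^ 2 with hs
  set c := Real.cos φ ^ 2 with hc
  have hs0 : 0 ≤ s := sq_nonneg _
  have hc0 : 0 ≤ c := sq_nonneg _
  set a := k ^ 2 * (1 - z ^ 2) + z ^ 2 with ha
  have ha0 : 0 ≤ a := by positivity
  have e3 : k ^ 2 * (√(1 - z ^ 2) * Real.sin φ) ^ 2 + z ^ 2 = a * s + z ^ 2 * c := by
    rw [mul_pow, Real.sq_sqrt h1, ← hs, ha]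
    linear_combination (-z ^ 2) * hcs
  have e4 : (√(1 - z ^ 2) * Real.sin φ) ^ 2 + z ^ 2 = s + z ^ 2 * c := by
    rw [mul_pow, Real.sq_sqrt h1, ← hs]
    linear_combination (-z ^ 2) * hcs
  rw [e3, e4, ← Real.sqrt_mul (by positivity)]
  apply Real.le_sqrt_of_sq_le
  have h2 := Real.mul_self_sqrt ha0
  have h3 : 0 ≤ s * (z ^ 2 * c) * (√a - 1) ^ 2 := by positivity
  have h4 : (a * s + z ^ 2 * c) * (s + z ^ 2 * c) - (√a * s + z ^ 2 * c) ^ 2 =
      s * (z ^ 2 * c) * (√a - 1) ^ 2 := by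
    linear_combination (-(s * s) - s * (z ^ 2 * c)) * h2
  linarith

theorem ellD_sc : ∫ φ in (-Real.pi)..Real.pi, Real.sin φ ^ 2 = Real.pi ∧
    ∫ φ in (-Real.pi)..Real.pi, Real.cos φ ^ 2 = Real.pi := by
  constructor
  · rw [integral_sin_sq]
    simp
  · rw [integral_cos_sq]
    simp

/-- axis 2 -/
theorem ellD_ax2 (k : ℝ) (hk : 0 < k) :
    1 / 2 * (∫ z in (0:ℝ)..1, √(k ^ 2 * (1 - z ^ 2) + z ^ 2)) + 1 / 6 ≤ ∫ x, ellD_g k x ∂sig := by
  have hb : ∀ x : E3, ‖x‖ = 1 → |ellD_g k x| ≤ k + 1 := by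
    intro x hx
    have := ellD_nrm x hx
    exact ellD_bd k hk _ _ (by nlinarith [sq_nonneg (x 0)])
  rw [(sigC_integral (ellD_g k) (ellD_gc k).measurable (k + 1) hb).2]
  set f : ℝ → ℝ := fun z => 1 / 2 * (√(k ^ 2 * (1 - z ^ 2) + z ^ 2) + z ^ 2) with hf
  have hfc : Continuous f := by rw [hf]; fun_prop
  have h1 : ∀ z ∈ Set.Icc (-1:ℝ) 1, f z ≤ cm (ellD_g k) z := by
    intro z hz
    have hz2 : z ^ 2 ≤ 1 := by nlinarith [hz.1, hz.2]
    unfold cm av
    have h2 : ∫ φ in (-Real.pi)..Real.pi, (√(k ^ 2 * (1 - z ^ 2) + z ^ 2) * Real.sin φ ^ 2 +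
        z ^ 2 * Real.cos φ ^ 2) ≤ ∫ φ in (-Real.pi)..Real.pi, ellD_g k (pt z φ) := by
      apply intervalIntegral.integral_mono_on (by linarith [Real.pi_pos])
      · apply Continuous.intervalIntegrable
        fun_prop
      · apply Continuous.intervalIntegrable
        have h3 : Continuous (fun φ : ℝ => pt z φ) :=
          sigC_pt_cont.comp (Continuous.prodMk continuous_const continuous_id)
        exact (ellD_gc k).comp h3
      · intro φ _
        exact ellD_cs k z hz2 φ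
    rw [intervalIntegral.integral_add (by apply Continuous.intervalIntegrable; fun_prop)
      (by apply Continuous.intervalIntegrable; fun_prop), intervalIntegral.integral_const_mul,
      intervalIntegral.integral_const_mul, ellD_sc.1, ellD_sc.2] at h2
    have hpi : (0:ℝ) < Real.pi := Real.pi_pos
    calc f z = (2 * Real.pi)⁻¹ * (√(k ^ 2 * (1 - z ^ 2) + z ^ 2) * Real.pi +
          z ^ 2 * Real.pi) := by
          rw [hf]
          field_simp
      _ ≤ _ := by gcongr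
  have h2 : ∫ z in (-1:ℝ)..1, f z ≤ ∫ z in (-1:ℝ)..1, cm (ellD_g k) z := by
    apply intervalIntegral.integral_mono_on (by norm_num) (hfc.intervalIntegrable _ _) _ h1
    rw [intervalIntegrable_iff_integrableOn_Icc_of_le (by norm_num)]
    refine Measure.integrableOn_of_bounded (M := k + 1) ?_ ?_ ?_
    · simp
    · exact (sigC_cm_meas _ (ellD_gc k).measurable).aestronglyMeasurable
    · rw [ae_restrict_iff' measurableSet_Icc]
      refine ae_of_all _ fun z hz => ?_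
      exact sigC_cm_bound _ _ hb z (abs_le.2 ⟨hz.1, hz.2⟩)
  have h3 : ∫ z in (-1:ℝ)..1, f z =
      (∫ z in (0:ℝ)..1, √(k ^ 2 * (1 - z ^ 2) + z ^ 2)) + 1 / 3 := by
    have h4 : ∫ z in (-1:ℝ)..0, f z = ∫ z in (0:ℝ)..1, f z := by
      have h5 := intervalIntegral.integral_comp_neg (a := (0:ℝ)) (b := 1) f
      rw [neg_zero] at h5
      rw [← h5]
      refine intervalIntegral.integral_congr fun z _ => ?_
      simp only [hf]
      rw [neg_sq]
    rw [← intervalIntegral.integral_add_adjacent_intervals (b := 0)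
      (hfc.intervalIntegrable _ _) (hfc.intervalIntegrable _ _), h4]
    have h6 : ∫ z in (0:ℝ)..1, f z =
        1 / 2 * ((∫ z in (0:ℝ)..1, √(k ^ 2 * (1 - z ^ 2) + z ^ 2)) + 1 / 3) := by
      rw [hf, intervalIntegral.integral_const_mul, intervalIntegral.integral_add
        (by apply Continuous.intervalIntegrable; fun_prop)
        (by apply Continuous.intervalIntegrable; fun_prop), integral_pow]
      norm_num
    rw [h6]
    ring
  rw [h3] at h2
  linarith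

theorem ell_per (k : ℝ) (hk : 0 < k) :
    3 / 2 * Real.pi * (∫ z in (0:ℝ)..1, √(k ^ 2 * (1 - z ^ 2) + z ^ 2)) + Real.pi / 2 ≤
      ∫ φ in (0:ℝ)..Real.pi, 2 * √(Real.cos φ ^ 2 + (k * Real.sin φ) ^ 2) := by
  have h1 := ellD_ax2 k hk
  rw [← ellD_rot, ellD_ax0 k hk] at h1
  rw [intervalIntegral.integral_const_mul]
  set J := ∫ φ in (0:ℝ)..Real.pi, √(Real.cos φ ^ 2 + (k * Real.sin φ) ^ 2) with hJ
  set A := ∫ z in (0:ℝ)..1, √(k ^ 2 * (1 - z ^ 2) + z ^ 2) with hA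
  have hpi : (0:ℝ) < Real.pi := Real.pi_pos
  have h2 : 3 * Real.pi * (1 / 2 * A + 1 / 6) ≤ 3 * Real.pi * (2 / (3 * Real.pi) * J) :=
    mul_le_mul_of_nonneg_left h1 (by positivity)
  have h3 : 3 * Real.pi * (2 / (3 * Real.pi) * J) = 2 * J := by field_simp
  rw [h3] at h2
  linarith

end STB
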