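import Pool.Agent.Lib_helper15.STB.Defs
import Pool.Agent.Lib_helper15.STB.B.ellD
import Pool.Agent.Lib_helper15.STE.B.sigA
import Pool.Agent.Lib_helper15.STE.B.sigC

open MeasureTheory Filter Topology
open scoped InnerProductSpace
open Pool.Agent.Lib_helper15.STE

namespace STB

theorem ellE_ax2 (g : ℝ → ℝ) (hg : Continuous g) (he : ∀ z, g (-z) = g z) :
    Integrable (fun f : E3 => g (f 2)) sig ∧ ∫ f : E3, g (f 2) ∂sig = ∫ z in (0:ℝ)..1, g z := by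
  obtain ⟨C, hC⟩ := (isCompact_Icc (a := (-1:ℝ)) (b := 1)).exists_bound_of_continuousOn
    hg.continuousOn
  have hcoord : ∀ x : E3, ‖x‖ = 1 → |x 2| ≤ 1 := by
    intro x hx
    have h := EuclideanSpace.norm_sq_eq x
    rw [hx, Fin.sum_univ_three] at h
    simp only [Real.norm_eq_abs, sq_abs] at h
    rw [← sq_le_one_iff_abs_le_one]
    nlinarith [sq_nonneg (x 0), sq_nonneg (x 1)]
  have hm : Measurable (fun f : E3 => g (f 2)) := by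
    have : Continuous (fun f : E3 => g (f 2)) := hg.comp (by fun_prop)
    exact this.measurable
  obtain ⟨h1, h2⟩ := sigC_integral (fun f : E3 => g (f 2)) hm C (fun x hx => by
    have := hC (x 2) (by have := abs_le.1 (hcoord x hx); exact ⟨this.1, this.2⟩)
    rwa [Real.norm_eq_abs] at this)
  refine ⟨h1, ?_⟩
  rw [h2]
  have h3 : ∀ τ : ℝ, cm (fun f : E3 => g (f 2)) τ = g τ := by
    intro τ
    have h4 : ∀ φ : ℝ, (pt τ φ) 2 = τ := fun φ => rfl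
    unfold cm av
    simp only [h4]
    rw [intervalIntegral.integral_const, smul_eq_mul]
    have hpi := Real.pi_pos
    field_simp
    ring
  simp only [h3]
  have h5 : ∫ τ in (-1:ℝ)..0, g τ = ∫ τ in (0:ℝ)..1, g τ := by
    have h6 := intervalIntegral.integral_comp_neg (a := (0:ℝ)) (b := 1) g
    simp only [he, neg_zero] at h6
    exact h6.symm
  rw [← intervalIntegral.integral_add_adjacent_intervals (hg.intervalIntegrable _ _)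
    (hg.intervalIntegrable 0 1), h5]
  ring

theorem ellE_ax0 (g : ℝ → ℝ) (hg : Continuous g) (he : ∀ z, g (-z) = g z) :
    ∫ f : E3, g (f 0) ∂sig = ∫ z in (0:ℝ)..1, g z := by
  rw [← (ellE_ax2 g hg he).2]
  let G : E3 ≃ₗᵢ[ℝ] E3 := LinearIsometryEquiv.piLpCongrLeft 2 ℝ ℝ (Equiv.swap (0 : Fin 3) 2)
  have hG : ∀ x : E3, (G x) 2 = x 0 := by
    intro x
    simp [G]
  have hc : Continuous (fun f : E3 => g (f 2)) := hg.comp (by fun_prop)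
  have h1 : ∫ f : E3, g (f 2) ∂sig = ∫ f : E3, g (f 2) ∂(sig.map G) := by rw [sigA_map]
  rw [h1, integral_map G.continuous.measurable.aemeasurable hc.aestronglyMeasurable]
  simp only [hG]

theorem ellE_sq : ∀ᵐ f : E3 ∂sig, f 0 ^ 2 + f 1 ^ 2 + f 2 ^ 2 = 1 := by
  filter_upwards [sigA_sphere] with x hx
  have h := EuclideanSpace.norm_sq_eq x
  rw [hx, Fin.sum_univ_three] at h
  simp only [Real.norm_eq_abs, sq_abs] at h
  linarith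

theorem ellE_cont (k : ℝ) : Continuous (fun z : ℝ => √(k ^ 2 * (1 - z ^ 2) + z ^ 2)) := by
  fun_prop

/-- the value for semiaxes a, a, c -/
theorem ellE_end1 (a c : ℝ) (ha : 0 < a) :
    ∫ f : E3, √((a * c * f 0) ^ 2 + (a * c * f 1) ^ 2 + (a * a * f 2) ^ 2) ∂sig =
      a ^ 2 * ∫ z in (0:ℝ)..1, √((c / a) ^ 2 * (1 - z ^ 2) + z ^ 2) := by
  rw [← (ellE_ax2 _ (ellE_cont (c / a)) (fun z => by simp)).2, ← integral_const_mul]
  refine integral_congr_ae ?_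
  filter_upwards [ellE_sq] with f hf
  have h1 : (a * c * f 0) ^ 2 + (a * c * f 1) ^ 2 + (a * a * f 2) ^ 2 =
      (a ^ 2) ^ 2 * ((c / a) ^ 2 * (1 - f 2 ^ 2) + f 2 ^ 2) := by
    have h2 : 1 - f 2 ^ 2 = f 0 ^ 2 + f 1 ^ 2 := by linarith
    rw [h2]; field_simp
  rw [h1, Real.sqrt_mul (by positivity), Real.sqrt_sq (by positivity)]

/-- the value for semiaxes a, c, c -/
theorem ellE_end2 (a c : ℝ) (hc : 0 < c) :
    ∫ f : E3, √((c * c * f 0) ^ 2 + (a * c * f 1) ^ 2 + (a * c * f 2) ^ 2) ∂sig =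
      c ^ 2 * ∫ z in (0:ℝ)..1, √((a / c) ^ 2 * (1 - z ^ 2) + z ^ 2) := by
  rw [← ellE_ax0 _ (ellE_cont (a / c)) (fun z => by simp), ← integral_const_mul]
  refine integral_congr_ae ?_
  filter_upwards [ellE_sq] with f hf
  have h1 : (c * c * f 0) ^ 2 + (a * c * f 1) ^ 2 + (a * c * f 2) ^ 2 =
      (c ^ 2) ^ 2 * ((a / c) ^ 2 * (1 - f 0 ^ 2) + f 0 ^ 2) := by
    have h2 : 1 - f 0 ^ 2 = f 1 ^ 2 + f 2 ^ 2 := by linarith
    rw [h2]; field_simp; ring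
  rw [h1, Real.sqrt_mul (by positivity), Real.sqrt_sq (by positivity)]

theorem ellE_up (k : ℝ) :
    ∫ z in (0:ℝ)..1, √(k ^ 2 * (1 - z ^ 2) + z ^ 2) ≤ 1 - (1 - k ^ 2) / 3 := by
  have h1 : ∫ z in (0:ℝ)..1, √(k ^ 2 * (1 - z ^ 2) + z ^ 2) ≤
      ∫ z in (0:ℝ)..1, (1 + k ^ 2 * (1 - z ^ 2) + z ^ 2) / 2 := by
    refine intervalIntegral.integral_mono_on zero_le_one
      ((ellE_cont k).intervalIntegrable _ _) (Continuous.intervalIntegrable (by fun_prop) _ _) ?_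
    intro z hz
    have h0 : 0 ≤ k ^ 2 * (1 - z ^ 2) + z ^ 2 := by
      have : 0 ≤ 1 - z ^ 2 := by nlinarith [hz.1, hz.2]
      positivity
    have h2 := Real.sq_sqrt h0
    nlinarith [sq_nonneg (√(k ^ 2 * (1 - z ^ 2) + z ^ 2) - 1)]
  refine h1.trans (le_of_eq ?_)
  have h3 : (fun z : ℝ => (1 + k ^ 2 * (1 - z ^ 2) + z ^ 2) / 2) =
      fun z => (1 + k ^ 2) / 2 + (1 - k ^ 2) / 2 * z ^ 2 := by
    funext z; ring
  rw [h3, intervalIntegral.integral_add (by simp) (Continuous.intervalIntegrable (by fun_prop) _ _),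
    intervalIntegral.integral_const, intervalIntegral.integral_const_mul, integral_pow]
  simp only [smul_eq_mul]
  norm_num
  ring

theorem ellE_lo (K : ℝ) :
    (2 * K + 1) / 3 ≤ ∫ z in (0:ℝ)..1, √(K ^ 2 * (1 - z ^ 2) + z ^ 2) := by
  have h1 : ∫ z in (0:ℝ)..1, (K * (1 - z ^ 2) + z ^ 2) ≤
      ∫ z in (0:ℝ)..1, √(K ^ 2 * (1 - z ^ 2) + z ^ 2) := by
    refine intervalIntegral.integral_mono_on zero_le_one
      (Continuous.intervalIntegrable (by fun_prop) _ _) ((ellE_cont K).intervalIntegrable _ _) ?_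
    intro z hz
    have hw : 0 ≤ 1 - z ^ 2 := by nlinarith [hz.1, hz.2]
    refine Real.le_sqrt_of_sq_le ?_
    nlinarith [mul_nonneg (mul_nonneg hw (sq_nonneg z)) (sq_nonneg (K - 1))]
  refine le_trans (le_of_eq ?_) h1
  have h3 : (fun z : ℝ => K * (1 - z ^ 2) + z ^ 2) =
      fun z => K + (1 - K) * z ^ 2 := by
    funext z; ring
  rw [h3, intervalIntegral.integral_add (by simp) (Continuous.intervalIntegrable (by fun_prop) _ _),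
    intervalIntegral.integral_const, intervalIntegral.integral_const_mul, integral_pow]
  simp only [smul_eq_mul]
  norm_num
  ring

/-- perimeter, other order of the axes -/
theorem ellE_per (K : ℝ) :
    ∫ φ in (0:ℝ)..Real.pi, 2 * √((K * Real.cos φ) ^ 2 + Real.sin φ ^ 2) =
      ∫ φ in (0:ℝ)..Real.pi, 2 * √(Real.cos φ ^ 2 + (K * Real.sin φ) ^ 2) := by
  set h : ℝ → ℝ := fun φ => 2 * √(Real.cos φ ^ 2 + (K * Real.sin φ) ^ 2) with hh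
  have hper : Function.Periodic h Real.pi := by
    intro φ
    simp only [hh, Real.cos_add_pi, Real.sin_add_pi]
    congr 2
    ring
  have h1 : ∀ φ, h (φ + Real.pi / 2) = 2 * √((K * Real.cos φ) ^ 2 + Real.sin φ ^ 2) := by
    intro φ
    simp only [hh, Real.cos_add_pi_div_two, Real.sin_add_pi_div_two]
    congr 2
    ring
  have h2 := hper.intervalIntegral_add_eq (Real.pi / 2) 0
  rw [zero_add] at h2
  rw [← h2]
  simp only [← h1]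
  rw [intervalIntegral.integral_comp_add_right]
  congr 1
  · ring
  · ring

theorem ellE_num {m J p R : ℝ} (hR : 0 < R) (hJ : 0 < J) (hp : 3 / 2 * Real.pi * J + Real.pi / 2 ≤ p)
    (hm : 256 * m * J ^ 3 ≤ (3 * J + 1) ^ 4) :
    16 * m * Real.pi ^ 4 * (R ^ 2 * J) ^ 3 ≤ R ^ 2 * (R * p) ^ 4 := by
  have hpi := Real.pi_pos
  have h1 : (Real.pi / 2 * (3 * J + 1)) ^ 4 ≤ p ^ 4 := by
    refine pow_le_pow_left₀ (by positivity) ?_ 4
    linarith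
  have h2 : 16 * m * Real.pi ^ 4 * (R ^ 2 * J) ^ 3 =
      R ^ 6 * (Real.pi ^ 4 / 16 * (256 * m * J ^ 3)) := by ring
  have h3 : R ^ 2 * (R * p) ^ 4 = R ^ 6 * p ^ 4 := by ring
  rw [h2, h3]
  refine mul_le_mul_of_nonneg_left ?_ (by positivity)
  calc Real.pi ^ 4 / 16 * (256 * m * J ^ 3) ≤ Real.pi ^ 4 / 16 * (3 * J + 1) ^ 4 :=
        mul_le_mul_of_nonneg_left hm (by positivity)
    _ = (Real.pi / 2 * (3 * J + 1)) ^ 4 := by ring
    _ ≤ p ^ 4 := h1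

theorem ellE_poly1 {x d : ℝ} (hd : 0 ≤ d) (hx : 0 < x) (hx1 : x ≤ 1 - d) :
    256 * (1 + 3 / 8 * d ^ 2) * x ^ 3 ≤ (3 * x + 1) ^ 4 := by
  have h1 : (3 * x + 1) ^ 4 = 256 * x ^ 3 + (x - 1) ^ 2 * (81 * x ^ 2 + 14 * x + 1) := by ring
  have hx2 : x ≤ 1 := by linarith
  have h2 : 96 * x ^ 3 ≤ 81 * x ^ 2 + 14 * x + 1 := by
    have e1 : x ^ 3 ≤ x ^ 2 := by nlinarith [sq_nonneg x]
    have e2 : x ^ 2 ≤ x := by nlinarith
    nlinarith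
  have h3 : d ^ 2 ≤ (x - 1) ^ 2 := by nlinarith
  have h4 : d ^ 2 * (96 * x ^ 3) ≤ (x - 1) ^ 2 * (81 * x ^ 2 + 14 * x + 1) :=
    mul_le_mul h3 h2 (by positivity) (sq_nonneg _)
  rw [h1]
  nlinarith

theorem ellE_poly2 {x d : ℝ} (hd : 0 ≤ d) (hx : 1 ≤ x) (hx1 : d * x ≤ x - 1) :
    256 * (1 + 3 / 8 * d ^ 2 / 2) * x ^ 3 ≤ (3 * x + 1) ^ 4 := by
  have h1 : (3 * x + 1) ^ 4 = 256 * x ^ 3 + (x - 1) ^ 2 * (81 * x ^ 2 + 14 * x + 1) := by ring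
  have h3 : (d * x) ^ 2 ≤ (x - 1) ^ 2 := by
    refine pow_le_pow_left₀ (by positivity) hx1 2
  have h2 : 48 * x ≤ 81 * x ^ 2 + 14 * x + 1 := by nlinarith
  have h4 : (d * x) ^ 2 * (48 * x) ≤ (x - 1) ^ 2 * (81 * x ^ 2 + 14 * x + 1) :=
    mul_le_mul h3 h2 (by positivity) (sq_nonneg _)
  rw [h1]
  nlinarith

theorem ellE_vec {A B b c t : ℝ} (hA : 0 ≤ A) (hB : 0 ≤ B)
    (ht0 : 0 ≤ t) (ht1 : t ≤ 1) :
    √(((1 - t) * b + t * c) ^ 2 * A + B) ≤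
      (1 - t) * √(b ^ 2 * A + B) + t * √(c ^ 2 * A + B) := by
  have hp0 : 0 ≤ b ^ 2 * A + B := by positivity
  have hq0 : 0 ≤ c ^ 2 * A + B := by positivity
  have hp := Real.sq_sqrt hp0
  have hq := Real.sq_sqrt hq0
  have hps := Real.sqrt_nonneg (b ^ 2 * A + B)
  have hqs := Real.sqrt_nonneg (c ^ 2 * A + B)
  have h1t : 0 ≤ 1 - t := by linarith
  have hpq : b * c * A + B ≤ √(b ^ 2 * A + B) * √(c ^ 2 * A + B) := by
    rw [← Real.sqrt_mul hp0]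
    refine Real.le_sqrt_of_sq_le ?_
    nlinarith [mul_nonneg (mul_nonneg hA hB) (sq_nonneg (b - c))]
  refine Real.sqrt_le_iff.2 ⟨by positivity, ?_⟩
  have hk := mul_le_mul_of_nonneg_left hpq (mul_nonneg ht0 h1t)
  have e1 : ((1 - t) * √(b ^ 2 * A + B) + t * √(c ^ 2 * A + B)) ^ 2 =
      (1 - t) ^ 2 * √(b ^ 2 * A + B) ^ 2 + t ^ 2 * √(c ^ 2 * A + B) ^ 2 +
        2 * (t * (1 - t) * (√(b ^ 2 * A + B) * √(c ^ 2 * A + B))) := by ring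
  have e2 : ((1 - t) * b + t * c) ^ 2 * A + B =
      (1 - t) ^ 2 * (b ^ 2 * A + B) + t ^ 2 * (c ^ 2 * A + B) +
        2 * (t * (1 - t) * (b * c * A + B)) := by ring
  rw [e1, e2, hp, hq]
  linarith

theorem ellE_int (a c b : ℝ) : Integrable (fun f : E3 => √(b ^ 2 * (c ^ 2 * f 0 ^ 2 + a ^ 2 * f 2 ^ 2) +
    (a * c * f 1) ^ 2)) sig := by
  have := sigA_prob
  have hc : Continuous (fun f : E3 => √(b ^ 2 * (c ^ 2 * f 0 ^ 2 + a ^ 2 * f 2 ^ 2) +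
    (a * c * f 1) ^ 2)) := by fun_prop
  refine Integrable.of_bound hc.aestronglyMeasurable
    √(b ^ 2 * (c ^ 2 + a ^ 2) + (a * c) ^ 2) ?_
  filter_upwards [ellE_sq] with f hf
  rw [Real.norm_of_nonneg (Real.sqrt_nonneg _)]
  refine Real.sqrt_le_sqrt ?_
  have h0 : f 0 ^ 2 ≤ 1 := by nlinarith [sq_nonneg (f 1), sq_nonneg (f 2)]
  have h1 : f 1 ^ 2 ≤ 1 := by nlinarith [sq_nonneg (f 0), sq_nonneg (f 2)]
  have h2 : f 2 ^ 2 ≤ 1 := by nlinarith [sq_nonneg (f 0), sq_nonneg (f 1)]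
  have e0 : c ^ 2 * f 0 ^ 2 ≤ c ^ 2 := by nlinarith [sq_nonneg c]
  have e2 : a ^ 2 * f 2 ^ 2 ≤ a ^ 2 := by nlinarith [sq_nonneg a]
  have e1 : (a * c * f 1) ^ 2 ≤ (a * c) ^ 2 := by nlinarith [sq_nonneg (a * c)]
  have e3 : b ^ 2 * (c ^ 2 * f 0 ^ 2 + a ^ 2 * f 2 ^ 2) ≤ b ^ 2 * (c ^ 2 + a ^ 2) :=
    mul_le_mul_of_nonneg_left (by linarith) (sq_nonneg b)
  linarith

theorem ellE_conv {s1 s2 s M b c t : ℝ} (hM : 0 ≤ M) (hb : 0 ≤ b) (hc : 0 ≤ c) (ht0 : 0 ≤ t)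
    (ht1 : t ≤ 1) (hs1 : 0 ≤ s1) (hs2 : 0 ≤ s2) (hs0 : 0 ≤ s) (h1 : s1 ^ 3 ≤ M * b ^ 2)
    (h2 : s2 ^ 3 ≤ M * c ^ 2) (hs : s ≤ (1 - t) * s1 + t * s2) :
    s ^ 3 ≤ M * ((1 - t) * b + t * c) ^ 2 := by
  have hroot : ∀ y x : ℝ, 0 ≤ y → 0 ≤ x → y ^ 3 ≤ M * x ^ 2 →
      y ≤ M ^ (1 / 3 : ℝ) * x ^ (2 / 3 : ℝ) := by
    intro y x hy hx h
    have h3 : (y ^ 3) ^ (1 / 3 : ℝ) ≤ (M * x ^ 2) ^ (1 / 3 : ℝ) :=
      Real.rpow_le_rpow (by positivity) h (by norm_num)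
    have h4 : (y ^ 3) ^ (1 / 3 : ℝ) = y := by
      rw [← Real.rpow_natCast, ← Real.rpow_mul hy]; norm_num
    have h5 : (M * x ^ 2) ^ (1 / 3 : ℝ) = M ^ (1 / 3 : ℝ) * x ^ (2 / 3 : ℝ) := by
      rw [Real.mul_rpow hM (by positivity), ← Real.rpow_natCast x, ← Real.rpow_mul hx]
      norm_num
    rw [h4, h5] at h3
    exact h3
  have hx : 0 ≤ (1 - t) * b + t * c := by
    have : 0 ≤ 1 - t := by linarith
    positivity
  have hcc := (Real.concaveOn_rpow (p := 2 / 3) (by norm_num) (by norm_num)).2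
    (Set.mem_Ici.2 hb) (Set.mem_Ici.2 hc) (by linarith : 0 ≤ 1 - t) ht0 (by ring)
  simp only [smul_eq_mul] at hcc
  have hM3 : 0 ≤ M ^ (1 / 3 : ℝ) := Real.rpow_nonneg hM _
  have h1t : 0 ≤ 1 - t := by linarith
  have hfin : s ≤ M ^ (1 / 3 : ℝ) * ((1 - t) * b + t * c) ^ (2 / 3 : ℝ) := by
    calc s ≤ (1 - t) * s1 + t * s2 := hs
      _ ≤ (1 - t) * (M ^ (1 / 3 : ℝ) * b ^ (2 / 3 : ℝ)) +
          t * (M ^ (1 / 3 : ℝ) * c ^ (2 / 3 : ℝ)) := by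
          exact add_le_add (mul_le_mul_of_nonneg_left (hroot _ _ hs1 hb h1) h1t)
            (mul_le_mul_of_nonneg_left (hroot _ _ hs2 hc h2) ht0)
      _ = M ^ (1 / 3 : ℝ) * ((1 - t) * b ^ (2 / 3 : ℝ) + t * c ^ (2 / 3 : ℝ)) := by ring
      _ ≤ _ := mul_le_mul_of_nonneg_left hcc hM3
  calc s ^ 3 ≤ (M ^ (1 / 3 : ℝ) * ((1 - t) * b + t * c) ^ (2 / 3 : ℝ)) ^ 3 :=
        pow_le_pow_left₀ hs0 hfin 3
    _ = M * ((1 - t) * b + t * c) ^ 2 := by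
        rw [mul_pow, ← Real.rpow_natCast (M ^ (1 / 3 : ℝ)), ← Real.rpow_mul hM,
          ← Real.rpow_natCast (((1 - t) * b + t * c) ^ (2 / 3 : ℝ)), ← Real.rpow_mul hx,
          ← Real.rpow_natCast ((1 - t) * b + t * c) 2]
        norm_num

theorem ell_num (η : ℝ) (hη : 0 < η) : ∃ m : ℝ, 1 < m ∧ ∀ a : Fin 3 → ℝ, 0 < a 2 →
    a 2 ≤ a 1 → a 1 ≤ a 0 → (1 + η) * a 2 ≤ a 0 →
    m * (4 * Real.pi / 9 * (4 * ∫ f, Real.pi * √((a 1 * a 2 * f 0) ^ 2 + (a 0 * a 2 * f 1) ^ 2 +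
        (a 0 * a 1 * f 2) ^ 2) ∂sig) ^ 3) ≤
      (4 / 3 * a 1 * (∫ φ in (0:ℝ)..Real.pi,
        2 * √((a 0 * Real.cos φ) ^ 2 + (a 2 * Real.sin φ) ^ 2)) ^ 2) ^ 2 := by
  obtain ⟨δ, hδ⟩ : ∃ δ : ℝ, δ = (1 - ((1 + η)⁻¹) ^ 2) / 3 := ⟨_, rfl⟩
  obtain ⟨d, hd⟩ : ∃ d : ℝ, d = 2 * η / (3 + 2 * η) := ⟨_, rfl⟩
  have hi1 : (1 + η)⁻¹ < 1 := inv_lt_one_of_one_lt₀ (by linarith)
  have hi0 : 0 < (1 + η)⁻¹ := by positivity
  have hδ0 : 0 < δ := by rw [hδ]; nlinarith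
  have hd0 : 0 < d := by rw [hd]; positivity
  have hd1 : d < 1 := by rw [hd, div_lt_one (by positivity)]; linarith
  refine ⟨1 + min (3 / 8 * δ ^ 2) (3 / 8 * d ^ 2 / 2), ?_, ?_⟩
  · have : 0 < min (3 / 8 * δ ^ 2) (3 / 8 * d ^ 2 / 2) := lt_min (by positivity) (by positivity)
    linarith
  intro a ha2 h21 h10 h02
  obtain ⟨m, hm⟩ : ∃ m : ℝ, m = 1 + min (3 / 8 * δ ^ 2) (3 / 8 * d ^ 2 / 2) := ⟨_, rfl⟩
  rw [← hm]
  have hm1 : m ≤ 1 + 3 / 8 * δ ^ 2 := by rw [hm]; linarith [min_le_left (3 / 8 * δ ^ 2) (3 / 8 * d ^ 2 / 2)]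
  have hm2 : m ≤ 1 + 3 / 8 * d ^ 2 / 2 := by
    rw [hm]; linarith [min_le_right (3 / 8 * δ ^ 2) (3 / 8 * d ^ 2 / 2)]
  have hm0 : 0 < m := by rw [hm]; positivity
  obtain ⟨A, hA⟩ : ∃ A, A = a 0 := ⟨_, rfl⟩
  obtain ⟨b, hb⟩ : ∃ b, b = a 1 := ⟨_, rfl⟩
  obtain ⟨c, hc⟩ : ∃ c, c = a 2 := ⟨_, rfl⟩
  rw [← hA, ← hb, ← hc]
  rw [← hc] at ha2 h21 h02
  rw [← hb] at h21 h10
  rw [← hA] at h10 h02
  have hAc : c < A := by nlinarith
  have hA0 : 0 < A := ha2.trans hAc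
  obtain ⟨P, hP⟩ : ∃ P, P = ∫ φ in (0:ℝ)..Real.pi,
        2 * √((A * Real.cos φ) ^ 2 + (c * Real.sin φ) ^ 2) := ⟨_, rfl⟩
  rw [← hP]
  have hs : ∀ b' : ℝ, ∫ f : E3, √((b' * c * f 0) ^ 2 + (A * c * f 1) ^ 2 + (A * b' * f 2) ^ 2) ∂sig =
      ∫ f : E3, √(b' ^ 2 * (c ^ 2 * f 0 ^ 2 + A ^ 2 * f 2 ^ 2) + (A * c * f 1) ^ 2) ∂sig := by
    intro b'
    congr 1
    funext f
    congr 1
    ring
  obtain ⟨s, hsd⟩ : ∃ s : ℝ → ℝ, ∀ b', s b' = ∫ f : E3, √(b' ^ 2 * (c ^ 2 * f 0 ^ 2 + A ^ 2 * f 2 ^ 2) +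
      (A * c * f 1) ^ 2) ∂sig := ⟨_, fun _ => rfl⟩
  have hs0 : ∀ b', 0 ≤ s b' := by
    intro b'
    rw [hsd]
    exact integral_nonneg fun f => Real.sqrt_nonneg _
  have hpi := Real.pi_pos
  have hE1 : 16 * m * Real.pi ^ 4 * (s A) ^ 3 ≤ A ^ 2 * P ^ 4 := by
    have hk0 : 0 < c / A := by positivity
    have hk1 : c / A ≤ (1 + η)⁻¹ := by
      rw [div_le_iff₀ hA0, inv_mul_eq_div, le_div_iff₀ (by positivity)]
      linarith
    have hsA : s A = A ^ 2 * ∫ z in (0:ℝ)..1, √((c / A) ^ 2 * (1 - z ^ 2) + z ^ 2) := by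
      rw [hsd, ← hs A]
      exact ellE_end1 A c hA0
    have hPA : P = A * ∫ φ in (0:ℝ)..Real.pi, 2 * √(Real.cos φ ^ 2 + (c / A * Real.sin φ) ^ 2) := by
      rw [hP, ← intervalIntegral.integral_const_mul]
      congr 1
      funext φ
      have h1 : (A * Real.cos φ) ^ 2 + (c * Real.sin φ) ^ 2 =
          A ^ 2 * (Real.cos φ ^ 2 + (c / A * Real.sin φ) ^ 2) := by field_simp
      rw [h1, Real.sqrt_mul (by positivity), Real.sqrt_sq hA0.le]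
      ring
    have hJu := ellE_up (c / A)
    have hJ0 : 0 < ∫ z in (0:ℝ)..1, √((c / A) ^ 2 * (1 - z ^ 2) + z ^ 2) := by
      refine intervalIntegral.intervalIntegral_pos_of_pos_on
        ((ellE_cont _).intervalIntegrable _ _) ?_ zero_lt_one
      intro z hz
      refine Real.sqrt_pos.2 ?_
      have : 0 < 1 - z ^ 2 := by nlinarith [hz.1, hz.2]
      positivity
    have hJ1 : ∫ z in (0:ℝ)..1, √((c / A) ^ 2 * (1 - z ^ 2) + z ^ 2) ≤ 1 - δ := by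
      refine hJu.trans ?_
      rw [hδ]
      have : (c / A) ^ 2 ≤ ((1 + η)⁻¹) ^ 2 := pow_le_pow_left₀ hk0.le hk1 2
      linarith
    rw [hsA, hPA]
    refine ellE_num hA0 hJ0 (ell_per (c / A) hk0) ?_
    refine le_trans ?_ (ellE_poly1 hδ0.le hJ0 hJ1)
    have : 0 < (∫ z in (0:ℝ)..1, √((c / A) ^ 2 * (1 - z ^ 2) + z ^ 2)) ^ 3 := by positivity
    nlinarith
  have hE2 : 16 * m * Real.pi ^ 4 * (s c) ^ 3 ≤ c ^ 2 * P ^ 4 := by
    have hK0 : 0 < A / c := by positivity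
    have hK1 : 1 + η ≤ A / c := by
      rw [le_div_iff₀ ha2]
      linarith
    have hsc : s c = c ^ 2 * ∫ z in (0:ℝ)..1, √((A / c) ^ 2 * (1 - z ^ 2) + z ^ 2) := by
      rw [hsd, ← hs c]
      exact ellE_end2 A c ha2
    have hPc : P = c * ∫ φ in (0:ℝ)..Real.pi, 2 * √(Real.cos φ ^ 2 + (A / c * Real.sin φ) ^ 2) := by
      rw [hP, ← ellE_per (A / c), ← intervalIntegral.integral_const_mul]
      congr 1
      funext φ
      have h1 : (A * Real.cos φ) ^ 2 + (c * Real.sin φ) ^ 2 =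
          c ^ 2 * ((A / c * Real.cos φ) ^ 2 + Real.sin φ ^ 2) := by field_simp
      rw [h1, Real.sqrt_mul (by positivity), Real.sqrt_sq ha2.le]
      ring
    have hJl := ellE_lo (A / c)
    have hJ1 : 1 + 2 * η / 3 ≤ ∫ z in (0:ℝ)..1, √((A / c) ^ 2 * (1 - z ^ 2) + z ^ 2) := by
      refine le_trans ?_ hJl
      linarith
    have hJ0 : 0 < ∫ z in (0:ℝ)..1, √((A / c) ^ 2 * (1 - z ^ 2) + z ^ 2) := by
      have : 0 < 1 + 2 * η / 3 := by positivity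
      linarith
    rw [hsc, hPc]
    refine ellE_num ha2 hJ0 (ell_per (A / c) hK0) ?_
    refine le_trans ?_ (ellE_poly2 hd0.le (by linarith) ?_)
    · have : 0 < (∫ z in (0:ℝ)..1, √((A / c) ^ 2 * (1 - z ^ 2) + z ^ 2)) ^ 3 := by positivity
      nlinarith
    · obtain ⟨x, hx⟩ : ∃ x, x = ∫ z in (0:ℝ)..1, √((A / c) ^ 2 * (1 - z ^ 2) + z ^ 2) := ⟨_, rfl⟩
      rw [← hx] at hJ1 ⊢
      rw [hd, div_mul_eq_mul_div, div_le_iff₀ (by positivity)]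
      nlinarith
  obtain ⟨t, ht⟩ : ∃ t, t = (b - c) / (A - c) := ⟨_, rfl⟩
  have hAc' : 0 < A - c := by linarith
  have ht0 : 0 ≤ t := by rw [ht]; exact div_nonneg (by linarith) hAc'.le
  have ht1 : t ≤ 1 := by rw [ht, div_le_one hAc']; linarith
  have htb : b = (1 - t) * c + t * A := by
    rw [ht]; field_simp; ring
  have hsb : s b ≤ (1 - t) * s c + t * s A := by
    rw [hsd b, hsd c, hsd A, ← integral_const_mul, ← integral_const_mul, ← integral_add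
      ((ellE_int A c c).const_mul _) ((ellE_int A c A).const_mul _)]
    refine integral_mono (ellE_int A c b)
      (((ellE_int A c c).const_mul _).add ((ellE_int A c A).const_mul _)) ?_
    intro f
    show √(b ^ 2 * (c ^ 2 * f 0 ^ 2 + A ^ 2 * f 2 ^ 2) + (A * c * f 1) ^ 2) ≤
      (1 - t) * √(c ^ 2 * (c ^ 2 * f 0 ^ 2 + A ^ 2 * f 2 ^ 2) + (A * c * f 1) ^ 2) +
      t * √(A ^ 2 * (c ^ 2 * f 0 ^ 2 + A ^ 2 * f 2 ^ 2) + (A * c * f 1) ^ 2)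
    conv_lhs => rw [htb]
    exact ellE_vec (by positivity) (by positivity) ht0 ht1
  have hpos : 0 < 16 * m * Real.pi ^ 4 := by positivity
  have hfin := ellE_conv (M := P ^ 4 / (16 * m * Real.pi ^ 4)) (by positivity) ha2.le hA0.le ht0 ht1
    (hs0 c) (hs0 A) (hs0 b)
    (by rw [div_mul_eq_mul_div, le_div_iff₀ hpos]; linarith)
    (by rw [div_mul_eq_mul_div, le_div_iff₀ hpos]; linarith) hsb
  rw [← htb, div_mul_eq_mul_div, le_div_iff₀ hpos] at hfin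
  have hI : (∫ f : E3, Real.pi * √((b * c * f 0) ^ 2 + (A * c * f 1) ^ 2 +
        (A * b * f 2) ^ 2) ∂sig) = Real.pi * s b := by
    rw [integral_const_mul, hs b, hsd]
  rw [hI]
  have e1 : m * (4 * Real.pi / 9 * (4 * (Real.pi * s b)) ^ 3) =
      16 / 9 * (s b ^ 3 * (16 * m * Real.pi ^ 4)) := by ring
  have e2 : (4 / 3 * b * P ^ 2) ^ 2 = 16 / 9 * (P ^ 4 * b ^ 2) := by ring
  rw [e1, e2]
  linarith

end STB
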