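import Pool.Agent.Lib_helper15.STB.Defs
import Pool.Agent.Lib_helper15.STB.B.fraA
import Pool.Agent.Lib_helper15.STB.B.fraB
import Pool.Agent.Lib_helper15.STB.B.fraC
import Pool.Agent.Lib_helper15.STB.B.sec
import Pool.Agent.Lib_helper15.STB.B.lcv

/-! # STB, block vol : the volume bounds the squared perimeters -/

open MeasureTheory Filter Topology
open scoped InnerProductSpace
open Pool.Agent.Lib_helper15.STE

namespace STB

theorem vol_iot_nonneg (K : Set E3) : ∀ x ∈ iot K, 0 ≤ x := by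
  rintro x ⟨P, _, rfl⟩
  positivity

theorem vol_ptw (K : Set E3) (hK : CB K) (f u : E3) (h : ON f u) (t : ℝ)
    (ht : t ∈ Set.Ioo (lo K u) (hi K u)) :
    kap K * Lt K f u t ^ 2 ≤ (volume (Sc K f u t)).toReal := by
  obtain ⟨P, hP⟩ := fra_plane f u h t
  have hpre : P ⁻¹' K = Sc K f u t := by
    ext y
    simp only [Set.mem_preimage, Sc, Set.mem_ofPred_eq, hP]
  obtain ⟨_, _, _, _, hpos⟩ := sec_comp K hK f u h t
  obtain ⟨_, hnn, _, _, _, hLpos, hbd⟩ := lcv_lt K hK f u h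
  have hL := hLpos t ht
  have hb := (hbd t (Set.Ioo_subset_Icc_self ht)).1
  have hmem : (volume (Sc K f u t)).toReal / Lt K f u t ^ 2 ∈ iot K := by
    refine ⟨P, ?_, ?_⟩
    · rw [hpre]; exact hpos ht
    · rw [hpre, hb, ENNReal.toReal_ofReal hL.le]
  have hle : kap K ≤ (volume (Sc K f u t)).toReal / Lt K f u t ^ 2 :=
    csInf_le ⟨0, fun x hx => vol_iot_nonneg K x hx⟩ hmem
  have hL2 : 0 < Lt K f u t ^ 2 := by positivity
  exact (le_div_iff₀ hL2).1 hle

theorem vol_main (K : Set E3) (hK : CB K) (f u : E3) (h : ON f u) :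
    0 ≤ kap K ∧
    kap K * (∫ t in (lo K u)..(hi K u), Lt K f u t ^ 2) ≤ (volume K).toReal := by
  have hk : 0 ≤ kap K := Real.sInf_nonneg (vol_iot_nonneg K)
  refine ⟨hk, ?_⟩
  obtain ⟨hlh, _⟩ := fra_lohi K hK u h.nu
  obtain ⟨_, hnn, hmeas, ⟨C, hC⟩, _, _, _⟩ := lcv_lt K hK f u h
  have hKfin : volume K ≠ ⊤ := hK.comp.measure_lt_top.ne
  have hint : IntegrableOn (fun t => kap K * Lt K f u t ^ 2) (Set.Ioo (lo K u) (hi K u)) := by
    refine Measure.integrableOn_of_bounded (M := kap K * C ^ 2) ?_ ?_ ?_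
    · exact measure_Ioo_lt_top.ne
    · exact (measurable_const.mul (hmeas.pow_const 2)).aestronglyMeasurable
    · refine ae_of_all _ fun t => ?_
      rw [Real.norm_eq_abs, abs_of_nonneg (mul_nonneg hk (sq_nonneg _))]
      exact mul_le_mul_of_nonneg_left (pow_le_pow_left₀ (hnn t) (hC t) 2) hk
  have heq : kap K * (∫ t in (lo K u)..(hi K u), Lt K f u t ^ 2) =
      ∫ t in Set.Ioo (lo K u) (hi K u), kap K * Lt K f u t ^ 2 := by
    rw [← intervalIntegral.integral_const_mul, intervalIntegral.integral_of_le hlh.le,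
      integral_Ioc_eq_integral_Ioo]
  rw [heq, ← ENNReal.ofReal_le_iff_le_toReal hKfin,
    ofReal_integral_eq_lintegral_ofReal hint
      (ae_of_all _ fun t => mul_nonneg hk (sq_nonneg _))]
  calc ∫⁻ t in Set.Ioo (lo K u) (hi K u), ENNReal.ofReal (kap K * Lt K f u t ^ 2)
      ≤ ∫⁻ t in Set.Ioo (lo K u) (hi K u), volume (Sc K f u t) := by
        refine setLIntegral_mono' measurableSet_Ioo fun t ht => ?_
        exact ENNReal.ofReal_le_of_le_toReal (vol_ptw K hK f u h t ht)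
    _ ≤ ∫⁻ t, volume (Sc K f u t) := setLIntegral_le_lintegral _ _
    _ = volume K := (fra_vol f u h K hK.comp.isClosed.measurableSet).symm

end STB
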