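import Mathlib
import Pool.Agent.Lib_helper15.STB.Defs
import Pool.Agent.Lib_helper15.STB.B.fraA
import Pool.Agent.Lib_helper15.STB.B.lcv
import Pool.Agent.Lib_helper15.STB.B.ccvA
import Pool.Agent.Lib_helper15.STB.B.fub
import Pool.Agent.Lib_helper15.STB.B.vol
import Pool.Agent.Lib_helper15.STB.B.bwA
import Pool.Agent.Lib_helper15.STB.B.bwB

/-! # STB, block key : inequalities in one frame -/

open MeasureTheory Filter Topology
open scoped InnerProductSpace
open Pool.Agent.Lib_helper15.STE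

namespace STB

theorem key_bw (a b : ℝ) (hab : a ≤ b) (f : ℝ → ℝ) (hc : ConcaveOn ℝ (Set.Icc a b) f)
    (h0 : ∀ t ∈ Set.Icc a b, 0 ≤ f t) :
    8 / 9 * ((∫ t in a..b, f t) * (∫ t in a..b, f t ^ 3)) ≤ (∫ t in a..b, f t ^ 2) ^ 2 := by
  obtain ⟨M, m, hM, hmc, hm0, h1, h2, h3⟩ := bwA_main a b hab f hc h0
  have h4 := bwB_main M hM m hmc hm0
  rw [h1, h2, h3]
  nlinarith

theorem key_mono (a b : ℝ) (hab : a ≤ b) (f g : ℝ → ℝ) (hf : IntervalIntegrable f volume a b)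
    (hf0 : ∀ t ∈ Set.Icc a b, 0 ≤ f t) (hg : ∀ t ∈ Set.Icc a b, g t ≤ f t) :
    ∫ t in a..b, g t ≤ ∫ t in a..b, f t := by
  by_cases h : IntervalIntegrable g volume a b
  · exact intervalIntegral.integral_mono_on hab h hf hg
  · rw [intervalIntegral.integral_undef h]
    exact intervalIntegral.integral_nonneg hab hf0

theorem key_lohi (K : Set E3) (hK : CB K) (u : E3) : lo K u ≤ hi K u := by
  have hc : IsCompact ((fun x => ⟪x, u⟫_ℝ) '' K) :=
    hK.comp.image (continuous_id.inner continuous_const)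
  have hne : K.Nonempty := hK.int.mono interior_subset
  obtain ⟨x, hx⟩ := hne
  exact le_trans (csInf_le hc.bddBelow ⟨x, hx, rfl⟩) (le_csSup hc.bddAbove ⟨x, hx, rfl⟩)

theorem key_int (f : ℝ → ℝ) (a b C : ℝ) (hf : Measurable f) (h0 : ∀ t, 0 ≤ f t)
    (hC : ∀ t, f t ≤ C) (k : ℕ) : IntervalIntegrable (fun t => f t ^ k) volume a b := by
  rw [intervalIntegrable_iff]
  apply Measure.integrableOn_of_bounded (M := C ^ k)
  · rw [Set.uIoc, Real.volume_Ioc]
    exact ENNReal.ofReal_ne_top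
  · exact (hf.pow_const k).aestronglyMeasurable
  · filter_upwards with t
    rw [Real.norm_eq_abs, abs_of_nonneg (pow_nonneg (h0 t) k)]
    exact pow_le_pow_left₀ (h0 t) (hC t) k

theorem key_main (K : Set E3) (hK : CB K) (f u : E3) (h : ON f u) :
    16 / 3 * kap K ^ 2 * La K f u * (∫ φ in (0:ℝ)..Real.pi, th K (tw f u φ) u) ≤
      (volume K).toReal ^ 2 := by
  obtain ⟨hc, hL0, hLm, ⟨C, hC⟩, _, _, hsec⟩ := lcv_lt K hK f u h
  have hab := key_lohi K hK u
  obtain ⟨hk0, hV⟩ := vol_main K hK f u h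
  have hbw := key_bw _ _ hab (Lt K f u) hc (fun t _ => hL0 t)
  rw [fub_La K hK f u h] at hbw
  have hLa0 : 0 ≤ La K f u := by
    rw [← fub_La K hK f u h]
    exact intervalIntegral.integral_nonneg hab (fun t _ => hL0 t)
  have h6 : 6 * (∫ φ in (0:ℝ)..Real.pi, th K (tw f u φ) u) ≤
      ∫ t in (lo K u)..(hi K u), Lt K f u t ^ 3 := by
    rw [← (fub_th K hK f u h).1, ← intervalIntegral.integral_const_mul]
    apply key_mono _ _ hab _ _ (key_int _ _ _ C hLm hL0 hC 3)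
    · intro t _
      exact pow_nonneg (hL0 t) 3
    · intro t ht
      exact (hsec t ht).2.2
  have hI2 : 0 ≤ ∫ t in (lo K u)..(hi K u), Lt K f u t ^ 2 :=
    intervalIntegral.integral_nonneg hab (fun t _ => sq_nonneg _)
  set I2 := ∫ t in (lo K u)..(hi K u), Lt K f u t ^ 2
  set I3 := ∫ t in (lo K u)..(hi K u), Lt K f u t ^ 3
  set T := ∫ φ in (0:ℝ)..Real.pi, th K (tw f u φ) u
  set k := kap K
  set A := La K f u
  set V := (volume K).toReal
  have e1 : (k * I2) ^ 2 ≤ V ^ 2 := pow_le_pow_left₀ (mul_nonneg hk0 hI2) hV 2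
  have e2 : A * (6 * T) ≤ A * I3 := mul_le_mul_of_nonneg_left h6 hLa0
  have e3 : k ^ 2 * (8 / 9 * (A * (6 * T))) ≤ k ^ 2 * I2 ^ 2 := by
    apply mul_le_mul_of_nonneg_left _ (sq_nonneg k)
    linarith
  calc 16 / 3 * k ^ 2 * A * T = k ^ 2 * (8 / 9 * (A * (6 * T))) := by ring
    _ ≤ k ^ 2 * I2 ^ 2 := e3
    _ = (k * I2) ^ 2 := by ring
    _ ≤ V ^ 2 := e1

theorem key_sq (K : Set E3) (hK : CB K) (f u : E3) (h : ON f u) :
    4 * kap K * (∫ t in (lo K u)..(hi K u), Wd K f u t ^ 2) ≤ (volume K).toReal := by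
  obtain ⟨hc, hL0, hLm, ⟨C, hC⟩, _, _, hsec⟩ := lcv_lt K hK f u h
  obtain ⟨_, hW0, _⟩ := ccv_wd K hK f u h
  have hab := key_lohi K hK u
  obtain ⟨hk0, hV⟩ := vol_main K hK f u h
  have h1 : ∫ t in (lo K u)..(hi K u), 4 * Wd K f u t ^ 2 ≤
      ∫ t in (lo K u)..(hi K u), Lt K f u t ^ 2 := by
    apply key_mono _ _ hab _ _ (key_int _ _ _ C hLm hL0 hC 2)
    · intro t _
      exact pow_nonneg (hL0 t) 2
    · intro t ht
      have h2 := (hsec t ht).2.1
      have h3 := pow_le_pow_left₀ (by have := hW0 t; linarith) h2 2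
      linarith [mul_pow (2 : ℝ) (Wd K f u t) 2]
  rw [intervalIntegral.integral_const_mul] at h1
  have h2 := mul_le_mul_of_nonneg_left h1 hk0
  linarith

theorem key_flat (K : Set E3) (hK : CB K) (f u : E3) (h : ON f u) :
    128 / 9 * kap K ^ 2 * sh K f * th K f u ≤ (volume K).toReal ^ 2 := by
  obtain ⟨hWc, hW0, _⟩ := ccv_wd K hK f u h
  have hab := key_lohi K hK u
  obtain ⟨hk0, hV⟩ := vol_main K hK f u h
  have hbw := key_bw _ _ hab (Wd K f u) hWc (fun t _ => hW0 t)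
  have hsq := key_sq K hK f u h
  rw [fub_sh K hK f u h, ← (fub_th K hK f u h).2] at hbw
  have hI2 : 0 ≤ ∫ t in (lo K u)..(hi K u), Wd K f u t ^ 2 :=
    intervalIntegral.integral_nonneg hab (fun t _ => sq_nonneg _)
  set I2 := ∫ t in (lo K u)..(hi K u), Wd K f u t ^ 2
  set k := kap K
  set A := sh K f
  set T := th K f u
  set V := (volume K).toReal
  have e1 : (4 * k * I2) ^ 2 ≤ V ^ 2 := pow_le_pow_left₀ (by positivity) hsq 2
  have e3 : 16 * k ^ 2 * (8 / 9 * (A * T)) ≤ 16 * k ^ 2 * I2 ^ 2 := by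
    apply mul_le_mul_of_nonneg_left hbw
    positivity
  calc 128 / 9 * k ^ 2 * A * T = 16 * k ^ 2 * (8 / 9 * (A * T)) := by ring
    _ ≤ 16 * k ^ 2 * I2 ^ 2 := e3
    _ = (4 * k * I2) ^ 2 := by ring
    _ ≤ V ^ 2 := e1

end STB
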