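import Pool.Agent.Lib_helper15.STB.Defs
import Pool.Agent.Lib_helper15.STB.B.fraA
import Pool.Agent.Lib_helper15.STB.B.fraC
import Pool.Agent.Lib_helper15.STB.B.ccvA
import Pool.Agent.Lib_helper15.STB.B.key
import Pool.Agent.Lib_helper15.STB.B.vol
import Pool.Agent.Lib_helper15.STB.B.cau
import Pool.Agent.Lib_helper15.STB.B.shmB
import Pool.Agent.Lib_helper15.STB.B.cmo

/-! # STB, block far1 : elongated bodies -/

open MeasureTheory Filter Topology
open scoped InnerProductSpace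
open Pool.Agent.Lib_helper15.STE

namespace STB

theorem far1_ii (g : ℝ → ℝ) (a b C : ℝ) (hab : a < b) (hg : ConcaveOn ℝ (Set.Icc a b) g)
    (hnn : ∀ t, 0 ≤ g t) (hC : ∀ t, g t ≤ C) :
    IntervalIntegrable (fun t => g t ^ 2) volume a b := by
  rw [intervalIntegrable_iff_integrableOn_Ioo_of_le hab.le]
  have hg' : ConcaveOn ℝ (Set.Ioo a b) g := hg.subset Set.Ioo_subset_Icc_self (convex_Ioo a b)
  have hc : ContinuousOn g (Set.Ioo a b) := ConcaveOn.continuousOn isOpen_Ioo hg'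
  have hm : AEStronglyMeasurable (fun t => g t ^ 2) (volume.restrict (Set.Ioo a b)) :=
    (hc.pow 2).aestronglyMeasurable measurableSet_Ioo
  refine IntegrableOn.of_bound ?_ hm (C ^ 2) ?_
  · rw [Real.volume_Ioo]
    exact ENNReal.ofReal_lt_top
  · refine Filter.Eventually.of_forall fun t => ?_
    rw [Real.norm_eq_abs, abs_of_nonneg (sq_nonneg _)]
    exact pow_le_pow_left₀ (hnn t) (hC t) 2

theorem far1_int (g : ℝ → ℝ) (a b t₀ D C : ℝ) (hab : a < b) (ht : t₀ ∈ Set.Icc a b)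
    (hg : ConcaveOn ℝ (Set.Icc a b) g) (hnn : ∀ t, 0 ≤ g t) (hC : ∀ t, g t ≤ C) (hD0 : 0 ≤ D)
    (hD : D ≤ g t₀) : D ^ 2 * (b - a) / 3 ≤ ∫ t in a..b, g t ^ 2 := by
  have hii := far1_ii g a b C hab hg hnn hC
  have h1 : IntervalIntegrable (fun t => g t ^ 2) volume a t₀ := by
    apply hii.mono_set
    rw [Set.uIcc_of_le ht.1, Set.uIcc_of_le hab.le]
    exact Set.Icc_subset_Icc_right ht.2
  have h2 : IntervalIntegrable (fun t => g t ^ 2) volume t₀ b := by
    apply hii.mono_set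
    rw [Set.uIcc_of_le ht.2, Set.uIcc_of_le hab.le]
    exact Set.Icc_subset_Icc_left ht.1
  rw [← intervalIntegral.integral_add_adjacent_intervals h1 h2]
  have k1 : D ^ 2 * (t₀ - a) / 3 ≤ ∫ t in a..t₀, g t ^ 2 := by
    rcases eq_or_lt_of_le ht.1 with h | h
    · rw [← h]; simp
    · have hpos : 0 < t₀ - a := sub_pos.mpr h
      have e1 : ∫ t in a..t₀, (D / (t₀ - a)) ^ 2 * (t - a) ^ 2 = D ^ 2 * (t₀ - a) / 3 := by
        rw [intervalIntegral.integral_const_mul,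
          intervalIntegral.integral_comp_sub_right (fun x => x ^ 2) a, integral_pow]
        field_simp
        ring
      rw [← e1]
      apply intervalIntegral.integral_mono_on ht.1 _ h1
      · intro t htt
        have hle : D / (t₀ - a) * (t - a) ≤ g t := by
          have hconc := hg.2 (show a ∈ Set.Icc a b from ⟨le_rfl, hab.le⟩) ht
            (div_nonneg (sub_nonneg.mpr htt.2) hpos.le)
            (div_nonneg (sub_nonneg.mpr htt.1) hpos.le) (by field_simp; ring)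
          have e2 : ((t₀ - t) / (t₀ - a)) • a + ((t - a) / (t₀ - a)) • t₀ = t := by
            simp only [smul_eq_mul]; field_simp; ring
          rw [e2] at hconc
          simp only [smul_eq_mul] at hconc
          have e3 : 0 ≤ (t₀ - t) / (t₀ - a) * g a :=
            mul_nonneg (div_nonneg (sub_nonneg.mpr htt.2) hpos.le) (hnn a)
          have e4 : (t - a) / (t₀ - a) * D ≤ (t - a) / (t₀ - a) * g t₀ :=
            mul_le_mul_of_nonneg_left hD (div_nonneg (sub_nonneg.mpr htt.1) hpos.le)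
          have e5 : D / (t₀ - a) * (t - a) = (t - a) / (t₀ - a) * D := by ring
          linarith
        rw [← mul_pow]
        exact pow_le_pow_left₀ (mul_nonneg (div_nonneg hD0 hpos.le)
          (sub_nonneg.mpr htt.1)) hle 2
      · exact Continuous.intervalIntegrable (by fun_prop) _ _
  have k2 : D ^ 2 * (b - t₀) / 3 ≤ ∫ t in t₀..b, g t ^ 2 := by
    rcases eq_or_lt_of_le ht.2 with h | h
    · rw [h]; simp
    · have hpos : 0 < b - t₀ := sub_pos.mpr h
      have e1 : ∫ t in t₀..b, (D / (b - t₀)) ^ 2 * (b - t) ^ 2 = D ^ 2 * (b - t₀) / 3 := by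
        rw [intervalIntegral.integral_const_mul,
          intervalIntegral.integral_comp_sub_left (fun x => x ^ 2) b, integral_pow]
        field_simp
        ring
      rw [← e1]
      apply intervalIntegral.integral_mono_on ht.2 _ h2
      · intro t htt
        have hle : D / (b - t₀) * (b - t) ≤ g t := by
          have hconc := hg.2 ht (show b ∈ Set.Icc a b from ⟨hab.le, le_rfl⟩)
            (div_nonneg (sub_nonneg.mpr htt.2) hpos.le)
            (div_nonneg (sub_nonneg.mpr htt.1) hpos.le) (by field_simp; ring)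
          have e2 : ((b - t) / (b - t₀)) • t₀ + ((t - t₀) / (b - t₀)) • b = t := by
            simp only [smul_eq_mul]; field_simp; ring
          rw [e2] at hconc
          simp only [smul_eq_mul] at hconc
          have e3 : 0 ≤ (t - t₀) / (b - t₀) * g b :=
            mul_nonneg (div_nonneg (sub_nonneg.mpr htt.1) hpos.le) (hnn b)
          have e4 : (b - t) / (b - t₀) * D ≤ (b - t) / (b - t₀) * g t₀ :=
            mul_le_mul_of_nonneg_left hD (div_nonneg (sub_nonneg.mpr htt.2) hpos.le)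
          have e5 : D / (b - t₀) * (b - t) = (b - t) / (b - t₀) * D := by ring
          linarith
        rw [← mul_pow]
        exact pow_le_pow_left₀ (mul_nonneg (div_nonneg hD0 hpos.le)
          (sub_nonneg.mpr htt.2)) hle 2
      · exact Continuous.intervalIntegrable (by fun_prop) _ _
  have e : D ^ 2 * (b - a) / 3 = D ^ 2 * (t₀ - a) / 3 + D ^ 2 * (b - t₀) / 3 := by ring
  rw [e]
  exact add_le_add k1 k2

/-- the chord of the shadow at the common height of `p` and `q` -/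
theorem far1_chord (K : Set E3) (hK : CB K) (f u : E3) (h : ON f u) (p q : E3) (hp : p ∈ K)
    (hq : q ∈ K) (ht : ⟪p, u⟫_ℝ = ⟪q, u⟫_ℝ) :
    |⟪q - p, cr f u⟫_ℝ| ≤ Wd K f u ⟪p, u⟫_ℝ := by
  obtain ⟨C, hC0, hC, -, -⟩ := fra_bound K hK
  obtain ⟨-, -, h1, h2, -, -⟩ := fra_on' f u h
  have hsub : Set.uIcc ⟪p, cr f u⟫_ℝ ⟪q, cr f u⟫_ℝ ⊆
      {x : ℝ | ∃ s : ℝ, x • cr f u + s • f + ⟪p, u⟫_ℝ • u ∈ K} := by
    intro x hx
    rw [← segment_eq_uIcc] at hx
    obtain ⟨α, β, hα, hβ, hαβ, rfl⟩ := hx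
    refine ⟨α * ⟪p, f⟫_ℝ + β * ⟪q, f⟫_ℝ, ?_⟩
    have hmem : α • p + β • q ∈ K := hK.conv hp hq hα hβ hαβ
    have e1 := (fra_basis f u h p).1
    have e2 := (fra_basis f u h q).1
    have e3 : (α • ⟪p, cr f u⟫_ℝ + β • ⟪q, cr f u⟫_ℝ) • cr f u +
        (α * ⟪p, f⟫_ℝ + β * ⟪q, f⟫_ℝ) • f + ⟪p, u⟫_ℝ • u = α • p + β • q := by
      have e4 : ⟪p, u⟫_ℝ = α * ⟪p, u⟫_ℝ + β * ⟪q, u⟫_ℝ := by
        rw [← ht, ← add_mul, hαβ, one_mul]
      rw [e4]
      nth_rewrite 4 [e1]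
      nth_rewrite 4 [e2]
      simp only [smul_eq_mul]
      module
    rw [e3]
    exact hmem
  have hbd : {x : ℝ | ∃ s : ℝ, x • cr f u + s • f + ⟪p, u⟫_ℝ • u ∈ K} ⊆ Set.Icc (-C) C := by
    rintro x ⟨s, hx⟩
    have e1 := hC _ hx
    have e2 : ⟪x • cr f u + s • f + ⟪p, u⟫_ℝ • u, cr f u⟫_ℝ = x := by
      rw [inner_add_left, inner_add_left, inner_smul_left, inner_smul_left, inner_smul_left,
        real_inner_self_eq_norm_sq, h1.nf, real_inner_comm (cr f u) f,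
        real_inner_comm (cr f u) u, h1.or, h2.or]
      simp
    have e3 := abs_real_inner_le_norm (x • cr f u + s • f + ⟪p, u⟫_ℝ • u) (cr f u)
    rw [e2, h1.nf, mul_one] at e3
    exact abs_le.mp (e3.trans e1)
  have hfin : volume {x : ℝ | ∃ s : ℝ, x • cr f u + s • f + ⟪p, u⟫_ℝ • u ∈ K} ≠ ⊤ := by
    refine ne_top_of_le_ne_top ?_ (measure_mono hbd)
    rw [Real.volume_Icc]
    exact ENNReal.ofReal_ne_top
  have e5 := ENNReal.toReal_mono hfin (measure_mono hsub)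
  rw [Real.volume_interval, ENNReal.toReal_ofReal (abs_nonneg _), ← inner_sub_left] at e5
  exact e5

theorem far1_width (K : Set E3) (hK : CB K) (D : ℝ) (hD : ∀ x ∈ K, ∀ y ∈ K, ‖x - y‖ ≤ D)
    (v : E3) (hv : ‖v‖ = 1) : hi K v - lo K v ≤ D := by
  obtain ⟨h1, -, h3, -⟩ := fra_lohi K hK v hv
  obtain ⟨x, hx, hx'⟩ := h3 (hi K v) ⟨h1.le, le_rfl⟩
  obtain ⟨y, hy, hy'⟩ := h3 (lo K v) ⟨le_rfl, h1.le⟩
  rw [← hx', ← hy', ← inner_sub_left]
  calc ⟪x - y, v⟫_ℝ ≤ ‖x - y‖ * ‖v‖ := real_inner_le_norm _ _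
    _ = ‖x - y‖ := by rw [hv, mul_one]
    _ ≤ D := hD x hx y hy

theorem far1_num (D w κ : ℝ) (hw : 0 < w) (h52 : 52 * w ≤ D) (hκ : 0 < κ) :
    4 * Real.pi / 9 * κ ^ 2 * (2 * (2 * (D * w) + w * w)) ^ 3 <
      (4 * κ * (D ^ 2 * w / 3)) ^ 2 := by
  have hpi : Real.pi < 3.1416 := Real.pi_lt_d4
  have hD : 0 < D := by nlinarith
  have e1 : (4 * κ * (D ^ 2 * w / 3)) ^ 2 = 16 / 9 * κ ^ 2 * w ^ 2 * D ^ 4 := by ring
  have e2 : 4 * Real.pi / 9 * κ ^ 2 * (2 * (2 * (D * w) + w * w)) ^ 3 =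
      16 / 9 * κ ^ 2 * w ^ 2 * (2 * Real.pi * (w * (2 * D + w) ^ 3)) := by ring
  rw [e1, e2]
  apply mul_lt_mul_of_pos_left _ (by positivity)
  have e3 : w * (2 * D + w) ^ 3 ≤ D / 52 * (2 * D + D / 52) ^ 3 := by
    have h1 : w ≤ D / 52 := by linarith
    gcongr
  have e4 : D / 52 * (2 * D + D / 52) ^ 3 = (105 / 52) ^ 3 / 52 * D ^ 4 := by ring
  have hD4 : 0 < D ^ 4 := by positivity
  have e5 : 0 < w * (2 * D + w) ^ 3 := by positivity
  calc 2 * Real.pi * (w * (2 * D + w) ^ 3)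
      ≤ 2 * 3.1416 * ((105 / 52) ^ 3 / 52 * D ^ 4) := by
        rw [← e4]
        gcongr
    _ < D ^ 4 := by
        norm_num
        linarith

theorem far1_main (K : Set E3) (hK : CB K) (p q u : E3) (hp : p ∈ K) (hq : q ∈ K)
    (hD : ∀ x ∈ K, ∀ y ∈ K, ‖x - y‖ ≤ ‖q - p‖) (hu : ‖u‖ = 1) (hor : ⟪q - p, u⟫_ℝ = 0)
    (hw : ∀ v : E3, ‖v‖ = 1 → ⟪q - p, v⟫_ℝ = 0 → hi K v - lo K v ≤ hi K u - lo K u)
    (h52 : 52 * (hi K u - lo K u) ≤ ‖q - p‖) :
    4 * Real.pi / 9 * kap K ^ 2 < (volume K).toReal ^ 2 / (bd K).toReal ^ 3 := by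
  obtain ⟨hS0, hST, hV0, hVT⟩ := cmo_pos K hK
  have hS : 0 < (bd K).toReal := ENNReal.toReal_pos hS0.ne' hST
  have hV : 0 < (volume K).toReal := ENNReal.toReal_pos hV0.ne' hVT
  obtain ⟨hlh, hlo, -, -⟩ := fra_lohi K hK u hu
  have hwpos : 0 < hi K u - lo K u := sub_pos.mpr hlh
  have hDpos : 0 < ‖q - p‖ := by nlinarith
  set D : ℝ := ‖q - p‖ with hDdef
  set w : ℝ := hi K u - lo K u with hwdef
  set e₀ : E3 := D⁻¹ • (q - p) with he₀
  have hn : ‖e₀‖ = 1 := by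
    rw [he₀, norm_smul, Real.norm_eq_abs, abs_of_pos (inv_pos.mpr hDpos), ← hDdef]
    exact inv_mul_cancel₀ hDpos.ne'
  have ho : ⟪e₀, u⟫_ℝ = 0 := by
    rw [he₀, inner_smul_left, hor, mul_zero]
  have hon : ON e₀ u := ⟨hn, hu, ho⟩
  obtain ⟨g1, g2, g3, g4, g5, g6⟩ := fra_on' e₀ u hon
  obtain ⟨f, hf⟩ : ∃ f, f = cr e₀ u := ⟨_, rfl⟩
  rw [← hf] at g2 g3 g4 g5 g6
  have hqp : q - p = D • e₀ := by
    rw [he₀, smul_smul, mul_inv_cancel₀ hDpos.ne', one_smul]
  have hin : ∀ v : E3, ⟪e₀, v⟫_ℝ = 0 → ⟪q - p, v⟫_ℝ = 0 := by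
    intro v hv
    rw [hqp, inner_smul_left, hv, mul_zero]
  have hef : ⟪e₀, f⟫_ℝ = 0 := by rw [real_inner_comm]; exact g4.or
  have hκ0 := (vol_main K hK f u g3).1
  -- the volume
  have hpu : ⟪p, u⟫_ℝ = ⟪q, u⟫_ℝ := by
    have := hor
    rw [inner_sub_left] at this
    linarith
  have hch := far1_chord K hK f u g3 p q hp hq hpu
  rw [g5, hqp, inner_smul_left, inner_neg_right, real_inner_self_eq_norm_sq, hn] at hch
  have hch' : D ≤ Wd K f u ⟪p, u⟫_ℝ := by
    refine le_trans (le_of_eq ?_) hch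
    simp [abs_of_pos hDpos]
  obtain ⟨hc1, hc2, -⟩ := ccv_wd K hK f u g3
  obtain ⟨C, -, -, hC, -⟩ := fra_bound K hK
  have hint := far1_int (Wd K f u) (lo K u) (hi K u) ⟪p, u⟫_ℝ D (2 * C) hlh (hlo p hp) hc1 hc2
    (hC f u g3) hDpos.le hch'
  have hkey := key_sq K hK f u g3
  have hVlow : 4 * kap K * (D ^ 2 * w / 3) ≤ (volume K).toReal :=
    le_trans (mul_le_mul_of_nonneg_left hint (by positivity)) hkey
  -- the surface area
  have hwid := fun v hv => far1_width K hK D hD v hv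
  have s1 : sh K f ≤ w * D := by
    refine le_trans (shm_rect K hK f u g3) ?_
    rw [g5]
    exact mul_le_mul_of_nonneg_left (hwid _ (by rw [norm_neg]; exact hn)) hwpos.le
  have s2 : sh K u ≤ D * w := by
    refine le_trans (shm_rect K hK u e₀ g1) ?_
    rw [g2]
    have hnf : ‖-f‖ = 1 := by rw [norm_neg]; exact g3.nf
    have h1 := hw (-f) hnf (hin _ (by rw [inner_neg_right, hef, neg_zero]))
    have h2 := (fra_lohi K hK (-f) hnf).1
    exact mul_le_mul (hwid e₀ hn) h1 (sub_pos.mpr h2).le hDpos.le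
  have s3 : sh K (cr f u) ≤ w * w := by
    have g7 := fra_on' f u g3
    refine le_trans (shm_rect K hK (cr f u) u g7.2.2.1) ?_
    rw [g7.2.2.2.2.1]
    have hnf : ‖-f‖ = 1 := by rw [norm_neg]; exact g3.nf
    have h1 := hw (-f) hnf (hin _ (by rw [inner_neg_right, hef, neg_zero]))
    exact mul_le_mul_of_nonneg_left h1 hwpos.le
  have hbox := cau_box K hK f u g3
  have hSup : (bd K).toReal ≤ 2 * (2 * (D * w) + w * w) := by
    refine hbox.trans ?_
    nlinarith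
  rcases eq_or_lt_of_le hκ0 with hk | hk
  · rw [← hk]
    have : 0 < (volume K).toReal ^ 2 / (bd K).toReal ^ 3 := by positivity
    simpa using this
  · rw [lt_div_iff₀ (by positivity)]
    have hnum := far1_num D w (kap K) hwpos h52 hk
    calc 4 * Real.pi / 9 * kap K ^ 2 * (bd K).toReal ^ 3
        ≤ 4 * Real.pi / 9 * kap K ^ 2 * (2 * (2 * (D * w) + w * w)) ^ 3 := by
          gcongr
      _ < (4 * kap K * (D ^ 2 * w / 3)) ^ 2 := hnum
      _ ≤ (volume K).toReal ^ 2 := by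
          apply pow_le_pow_left₀ (by positivity) hVlow

end STB
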