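import Pool.Agent.Lib_helper15.STB.Defs
import Pool.Agent.Lib_helper15.STB.B.fraA
import Pool.Agent.Lib_helper15.STB.B.key
import Pool.Agent.Lib_helper15.STB.B.cro
import Pool.Agent.Lib_helper15.STB.B.shmB

/-! # STB, block flt : lower bound of the volume by a shadow (uses fraA, key, cro, shmB) -/

open MeasureTheory Filter Topology
open scoped InnerProductSpace
open Pool.Agent.Lib_helper15.STE

namespace STB

theorem flt_exists (f : E3) (hf : ‖f‖ = 1) : ∃ u : E3, ON f u := by
  have hne : ∃ v : E3, v ≠ 0 ∧ ⟪f, v⟫_ℝ = 0 := by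
    by_cases h01 : f 0 = 0 ∧ f 1 = 0
    · refine ⟨EuclideanSpace.single 0 1, ?_, ?_⟩
      · intro h
        have := congrArg (fun x : E3 => x 0) h
        simp at this
      · rw [EuclideanSpace.inner_single_right]
        simp [h01.1]
    · refine ⟨!₂[-(f 1), f 0, 0], ?_, ?_⟩
      · intro h
        apply h01
        have h0 := congrArg (fun x : E3 => x 0) h
        have h1 := congrArg (fun x : E3 => x 1) h
        simp at h0 h1
        exact ⟨h1, h0⟩
      · simp only [PiLp.inner_apply, Fin.sum_univ_three]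
        simp
        ring
  obtain ⟨v, hv0, hv⟩ := hne
  refine ⟨‖v‖⁻¹ • v, hf, ?_, ?_⟩
  · rw [norm_smul, norm_inv, norm_norm]
    exact inv_mul_cancel₀ (norm_ne_zero_iff.2 hv0)
  · rw [inner_smul_right, hv, mul_zero]

theorem flt_main (K : Set E3) (hK : CB K) (f : E3) (hf : ‖f‖ = 1) :
    128 / (3 * Real.pi) * kap K ^ 2 * sh K f ^ 3 ≤ (volume K).toReal ^ 2 := by
  obtain ⟨u, hu⟩ := flt_exists f hf
  have hcro := cro_main K hK f u hu
  have hpos := (shm_pos K hK).1 f hf
  have hint : IntervalIntegrable (fun θ => th K f (tw u f θ)) volume 0 Real.pi := by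
    by_contra hcon
    rw [intervalIntegral.integral_undef hcon] at hcro
    have : 0 < 3 * sh K f ^ 2 := by positivity
    linarith
  have hpt : ∀ θ : ℝ, 128 / 9 * kap K ^ 2 * sh K f * th K f (tw u f θ) ≤
      (volume K).toReal ^ 2 := by
    intro θ
    have h1 : ON u f := (fra_on' f u hu).1
    have h2 : ON (tw u f θ) f := (fra_on u f h1 θ).1
    have h3 : ON f (tw u f θ) := (fra_on' _ _ h2).1
    exact key_flat K hK f (tw u f θ) h3
  have hI : ∫ θ in (0:ℝ)..Real.pi, 128 / 9 * kap K ^ 2 * sh K f * th K f (tw u f θ) ≤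
      ∫ _θ in (0:ℝ)..Real.pi, (volume K).toReal ^ 2 := by
    refine intervalIntegral.integral_mono_on Real.pi_pos.le (hint.const_mul _)
      intervalIntegrable_const (fun θ _ => hpt θ)
  rw [intervalIntegral.integral_const_mul, hcro, intervalIntegral.integral_const, smul_eq_mul,
    sub_zero] at hI
  have hpi := Real.pi_pos
  have h4 : 128 / (3 * Real.pi) * kap K ^ 2 * sh K f ^ 3 =
      (128 / 9 * kap K ^ 2 * sh K f * (3 * sh K f ^ 2)) / Real.pi := by
    field_simp
    ring
  rw [h4, div_le_iff₀ hpi]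
  linarith

end STB
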