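import Pool.Agent.Lib_helper15.STB.Defs
import Pool.Agent.Lib_helper15.STB.B.fraA
import Pool.Agent.Lib_helper15.STB.B.fraC
import Pool.Agent.Lib_helper15.STB.B.ccvA
import Pool.Agent.Lib_helper15.STB.B.fub
import Pool.Agent.Lib_helper15.STB.B.flt
import Pool.Agent.Lib_helper15.STB.B.cau
import Pool.Agent.Lib_helper15.STB.B.shmB
import Pool.Agent.Lib_helper15.STB.B.cmo

/-! # STB, block far2 : flat bodies -/

open MeasureTheory Filter Topology
open scoped InnerProductSpace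
open Pool.Agent.Lib_helper15.STE

namespace STB

/-- one half of the lower bound of the integral of a concave function -/
theorem far2_left (g : ℝ → ℝ) (l t0 a : ℝ) (hlt : l ≤ t0)
    (hc : ∀ t ∈ Set.Icc l t0, a * (t - l) ≤ (t0 - l) * g t)
    (hi : IntervalIntegrable g volume l t0) : a * (t0 - l) / 2 ≤ ∫ t in l..t0, g t := by
  rcases hlt.eq_or_lt with h | h
  · subst h
    simp
  · have hp : 0 < t0 - l := by linarith
    have h0 : IntervalIntegrable (fun t => a * (t - l)) volume l t0 :=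
      (by fun_prop : Continuous fun t => a * (t - l)).intervalIntegrable _ _
    have h1 := intervalIntegral.integral_mono_on hlt h0 (hi.const_mul (t0 - l)) hc
    have h2 : ∫ t in l..t0, a * (t - l) = a * ((t0 - l) ^ 2 / 2) := by
      rw [intervalIntegral.integral_const_mul]
      congr 1
      rw [intervalIntegral.integral_comp_sub_right (fun x => x) l, integral_id]
      ring
    rw [h2, intervalIntegral.integral_const_mul] at h1
    have h3 : (t0 - l) * (a * (t0 - l) / 2) ≤ (t0 - l) * ∫ t in l..t0, g t := by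
      calc (t0 - l) * (a * (t0 - l) / 2) = a * ((t0 - l) ^ 2 / 2) := by ring
        _ ≤ _ := h1
    exact le_of_mul_le_mul_left h3 hp

theorem far2_right (g : ℝ → ℝ) (t0 r a : ℝ) (hlt : t0 ≤ r)
    (hc : ∀ t ∈ Set.Icc t0 r, a * (r - t) ≤ (r - t0) * g t)
    (hi : IntervalIntegrable g volume t0 r) : a * (r - t0) / 2 ≤ ∫ t in t0..r, g t := by
  rcases hlt.eq_or_lt with h | h
  · subst h
    simp
  · have hp : 0 < r - t0 := by linarith
    have h0 : IntervalIntegrable (fun t => a * (r - t)) volume t0 r :=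
      (by fun_prop : Continuous fun t => a * (r - t)).intervalIntegrable _ _
    have h1 := intervalIntegral.integral_mono_on hlt h0 (hi.const_mul (r - t0)) hc
    have h2 : ∫ t in t0..r, a * (r - t) = a * ((r - t0) ^ 2 / 2) := by
      rw [intervalIntegral.integral_const_mul]
      congr 1
      rw [intervalIntegral.integral_comp_sub_left (fun x => x) r, integral_id]
      ring
    rw [h2, intervalIntegral.integral_const_mul] at h1
    have h3 : (r - t0) * (a * (r - t0) / 2) ≤ (r - t0) * ∫ t in t0..r, g t := by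
      calc (r - t0) * (a * (r - t0) / 2) = a * ((r - t0) ^ 2 / 2) := by ring
        _ ≤ _ := h1
    exact le_of_mul_le_mul_left h3 hp

theorem far2_int (g : ℝ → ℝ) (l r t0 a : ℝ) (h0 : t0 ∈ Set.Icc l r)
    (hg : ConcaveOn ℝ (Set.Icc l r) g) (hp : ∀ t, 0 ≤ g t) (ha : a ≤ g t0)
    (hi : IntervalIntegrable g volume l r) : a * (r - l) / 2 ≤ ∫ t in l..r, g t := by
  have hlr : l ≤ r := h0.1.trans h0.2
  have hl : l ∈ Set.Icc l r := ⟨le_rfl, hlr⟩
  have hr : r ∈ Set.Icc l r := ⟨hlr, le_rfl⟩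
  have i1 : IntervalIntegrable g volume l t0 := hi.mono_set (by
    rw [Set.uIcc_of_le h0.1, Set.uIcc_of_le hlr]
    exact Set.Icc_subset_Icc le_rfl h0.2)
  have i2 : IntervalIntegrable g volume t0 r := hi.mono_set (by
    rw [Set.uIcc_of_le h0.2, Set.uIcc_of_le hlr]
    exact Set.Icc_subset_Icc h0.1 le_rfl)
  have e1 := far2_left g l t0 a h0.1 (by
    intro t ht
    rcases h0.1.eq_or_lt with h | h
    · have h1 : t = l := le_antisymm (ht.2.trans h.symm.le) ht.1
      rw [h1, ← h]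
      simp
    · have hpos : 0 < t0 - l := by linarith
      have h1 := hg.2 hl h0
        (div_nonneg (by linarith [ht.2]) hpos.le : (0:ℝ) ≤ (t0 - t) / (t0 - l))
        (div_nonneg (by linarith [ht.1]) hpos.le : (0:ℝ) ≤ (t - l) / (t0 - l))
        (by rw [← add_div, div_eq_one_iff_eq hpos.ne']; ring)
      have h2 : ((t0 - t) / (t0 - l)) • l + ((t - l) / (t0 - l)) • t0 = t := by
        simp only [smul_eq_mul]
        field_simp
        ring
      rw [h2] at h1
      simp only [smul_eq_mul] at h1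
      have h3 : (t - l) / (t0 - l) * a ≤ g t := by
        have h4 : 0 ≤ (t0 - t) / (t0 - l) * g l :=
          mul_nonneg (div_nonneg (by linarith [ht.2]) hpos.le) (hp l)
        have h5 : (t - l) / (t0 - l) * a ≤ (t - l) / (t0 - l) * g t0 :=
          mul_le_mul_of_nonneg_left ha (div_nonneg (by linarith [ht.1]) hpos.le)
        linarith
      have h6 := mul_le_mul_of_nonneg_left h3 hpos.le
      calc a * (t - l) = (t0 - l) * ((t - l) / (t0 - l) * a) := by field_simp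
        _ ≤ _ := h6) i1
  have e2 := far2_right g t0 r a h0.2 (by
    intro t ht
    rcases h0.2.eq_or_lt with h | h
    · have h1 : t = r := le_antisymm ht.2 (h.symm.le.trans ht.1)
      rw [h1, h]
      simp
    · have hpos : 0 < r - t0 := by linarith
      have h1 := hg.2 h0 hr
        (div_nonneg (by linarith [ht.2]) hpos.le : (0:ℝ) ≤ (r - t) / (r - t0))
        (div_nonneg (by linarith [ht.1]) hpos.le : (0:ℝ) ≤ (t - t0) / (r - t0))
        (by rw [← add_div, div_eq_one_iff_eq hpos.ne']; ring)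
      have h2 : ((r - t) / (r - t0)) • t0 + ((t - t0) / (r - t0)) • r = t := by
        simp only [smul_eq_mul]
        field_simp
        ring
      rw [h2] at h1
      simp only [smul_eq_mul] at h1
      have h3 : (r - t) / (r - t0) * a ≤ g t := by
        have h4 : 0 ≤ (t - t0) / (r - t0) * g r :=
          mul_nonneg (div_nonneg (by linarith [ht.1]) hpos.le) (hp r)
        have h5 : (r - t) / (r - t0) * a ≤ (r - t) / (r - t0) * g t0 :=
          mul_le_mul_of_nonneg_left ha (div_nonneg (by linarith [ht.2]) hpos.le)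
        linarith
      have h6 := mul_le_mul_of_nonneg_left h3 hpos.le
      calc a * (r - t) = (r - t0) * ((r - t) / (r - t0) * a) := by field_simp
        _ ≤ _ := h6) i2
  rw [← intervalIntegral.integral_add_adjacent_intervals i1 i2]
  linarith

/-- the chord at the height of two points of `K` -/
theorem far2_chord (K : Set E3) (hK : CB K) (f u : E3) (h : ON f u) (p q : E3) (hp : p ∈ K)
    (hq : q ∈ K) (hpq : ⟪p, u⟫_ℝ = ⟪q, u⟫_ℝ) :
    |⟪q - p, cr f u⟫_ℝ| ≤ Wd K f u ⟪p, u⟫_ℝ := by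
  set t := ⟪p, u⟫_ℝ with ht
  set A : Set ℝ := {x : ℝ | ∃ s : ℝ, x • cr f u + s • f + t • u ∈ K} with hA
  obtain ⟨C, hC, hCK, -, -⟩ := fra_bound K hK
  have hc1 : ‖cr f u‖ = 1 := (fra_on' f u h).2.2.1.nf
  have hconv : Convex ℝ A := by
    rintro x ⟨s, hs⟩ y ⟨s', hs'⟩ a b ha hb hab
    refine ⟨a * s + b * s', ?_⟩
    have h1 := hK.conv hs hs' ha hb hab
    have h2 : a • (x • cr f u + s • f + t • u) + b • (y • cr f u + s' • f + t • u) =
        (a • x + b • y) • cr f u + (a * s + b * s') • f + t • u := by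
      have h3 : t = a * t + b * t := by rw [← add_mul, hab, one_mul]
      conv_rhs => rw [h3]
      simp only [smul_eq_mul, add_smul, smul_add, mul_smul]
      abel
    rwa [h2] at h1
  have hpA : ⟪p, cr f u⟫_ℝ ∈ A := ⟨⟪p, f⟫_ℝ, by
    have := (fra_basis f u h p).1
    rw [← ht] at this
    rwa [← this]⟩
  have hqA : ⟪q, cr f u⟫_ℝ ∈ A := ⟨⟪q, f⟫_ℝ, by
    have := (fra_basis f u h q).1
    rw [← hpq] at this
    rwa [← this]⟩
  have hsub : Set.uIcc ⟪p, cr f u⟫_ℝ ⟪q, cr f u⟫_ℝ ⊆ A := hconv.ordConnected.uIcc_subset hpA hqA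
  have hbd : A ⊆ Set.Icc (-C) C := by
    rintro x ⟨s, hs⟩
    have h1 := hCK _ hs
    have h2 : ⟪x • cr f u + s • f + t • u, cr f u⟫_ℝ = x := by
      obtain ⟨-, -, h3, h4, -⟩ := fra_on' f u h
      rw [inner_add_left, inner_add_left, inner_smul_left, inner_smul_left, inner_smul_left,
        real_inner_self_eq_norm_sq, hc1, real_inner_comm, h4.or, real_inner_comm, h3.or]
      simp
    have h3 := abs_real_inner_le_norm (x • cr f u + s • f + t • u) (cr f u)
    rw [h2, hc1, mul_one] at h3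
    exact abs_le.mp (h3.trans h1)
  have hfin : volume A ≠ ⊤ := by
    refine ne_top_of_le_ne_top ?_ (measure_mono hbd)
    rw [Real.volume_Icc]
    exact ENNReal.ofReal_ne_top
  have h5 : ENNReal.ofReal |⟪q - p, cr f u⟫_ℝ| ≤ volume A := by
    refine le_trans (le_of_eq ?_) (measure_mono hsub)
    rw [Set.uIcc, Real.volume_Icc, max_sub_min_eq_abs, inner_sub_left]
  exact (ENNReal.ofReal_le_iff_le_toReal hfin).1 h5

theorem far2_width (K : Set E3) (hK : CB K) (D : ℝ) (hD : ∀ x ∈ K, ∀ y ∈ K, ‖x - y‖ ≤ D)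
    (v : E3) (hv : ‖v‖ = 1) : hi K v - lo K v ≤ D := by
  obtain ⟨h1, -, h2, -⟩ := fra_lohi K hK v hv
  obtain ⟨x, hx, hx1⟩ := h2 (hi K v) ⟨h1.le, le_rfl⟩
  obtain ⟨y, hy, hy1⟩ := h2 (lo K v) ⟨le_rfl, h1.le⟩
  have h3 := real_inner_le_norm (x - y) v
  rw [inner_sub_left, hx1, hy1, hv, mul_one] at h3
  exact h3.trans (hD x hx y hy)

/-- the arithmetic at the end -/
theorem far2_arith (κ V S F E : ℝ) (hV : 0 < V) (hS : 0 < S) (hF : 0 < F)
    (h1 : 128 / (3 * Real.pi) * κ ^ 2 * F ^ 3 ≤ V ^ 2) (h2 : S ≤ 2 * F + E)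
    (h3 : E ≤ 0.109 * F) : 4 * Real.pi / 9 * κ ^ 2 < V ^ 2 / S ^ 3 := by
  have hS3 : 0 < S ^ 3 := by positivity
  rw [lt_div_iff₀ hS3]
  have hpi := Real.pi_pos
  have hpi2 : Real.pi ^ 2 < 10 := by
    have := Real.pi_lt_d2
    nlinarith
  by_cases hκ : κ = 0
  · rw [hκ]
    have : 0 < V ^ 2 := by positivity
    simpa using this
  · have hκ2 : 0 < κ ^ 2 := by positivity
    have h4 : S ≤ 2.109 * F := by linarith
    have h5 : S ^ 3 ≤ (2.109 * F) ^ 3 := pow_le_pow_left₀ hS.le h4 3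
    have h6 : 4 * Real.pi / 9 * (2.109 : ℝ) ^ 3 < 128 / (3 * Real.pi) := by
      rw [lt_div_iff₀ (by positivity)]
      nlinarith
    have hF3 : 0 < F ^ 3 := by positivity
    calc 4 * Real.pi / 9 * κ ^ 2 * S ^ 3 ≤ 4 * Real.pi / 9 * κ ^ 2 * (2.109 * F) ^ 3 := by
          gcongr
      _ = 4 * Real.pi / 9 * (2.109 : ℝ) ^ 3 * (κ ^ 2 * F ^ 3) := by ring
      _ < 128 / (3 * Real.pi) * (κ ^ 2 * F ^ 3) := by gcongr
      _ = 128 / (3 * Real.pi) * κ ^ 2 * F ^ 3 := by ring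
      _ ≤ V ^ 2 := h1

theorem far2_main (K : Set E3) (hK : CB K) (p q u n : E3) (hp : p ∈ K) (hq : q ∈ K)
    (hD : ∀ x ∈ K, ∀ y ∈ K, ‖x - y‖ ≤ ‖q - p‖) (hu : ‖u‖ = 1) (hor : ⟪q - p, u⟫_ℝ = 0)
    (h52 : ‖q - p‖ ≤ 52 * (hi K u - lo K u)) (hn : ‖n‖ = 1)
    (h4 : 4000 * (hi K n - lo K n) ≤ ‖q - p‖) :
    4 * Real.pi / 9 * kap K ^ 2 < (volume K).toReal ^ 2 / (bd K).toReal ^ 3 := by
  set D := ‖q - p‖ with hDd
  obtain ⟨hn1, hn2, -, -⟩ := fra_lohi K hK n hn
  obtain ⟨w, hw⟩ : ∃ w, w = hi K n - lo K n := ⟨_, rfl⟩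
  obtain ⟨w1, hw1⟩ : ∃ w1, w1 = hi K u - lo K u := ⟨_, rfl⟩
  rw [← hw] at h4
  rw [← hw1] at h52
  have hw0 : 0 < w := by rw [hw]; linarith
  have hD0 : 0 < D := by linarith
  have hw10 : 0 < w1 := by linarith
  obtain ⟨b, hb⟩ : ∃ b, b = ⟪q - p, n⟫_ℝ := ⟨_, rfl⟩
  have hbw : |b| ≤ w := by
    rw [hb, inner_sub_left, hw, abs_le]
    have h5 := hn2 p hp
    have h6 := hn2 q hq
    constructor <;> linarith
  have hb2 : b ^ 2 ≤ w ^ 2 := by
    rw [← sq_abs]
    exact pow_le_pow_left₀ (abs_nonneg _) hbw 2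
  -- the projection
  obtain ⟨v, hv⟩ : ∃ v, v = q - p - b • n := ⟨_, rfl⟩
  have hv2 : ‖v‖ ^ 2 = D ^ 2 - b ^ 2 := by
    rw [hv, norm_sub_sq_real, inner_smul_right, ← hb, norm_smul, hn, Real.norm_eq_abs, mul_one,
      sq_abs, ← hDd]
    ring
  obtain ⟨a, ha⟩ : ∃ a, a = ‖v‖ := ⟨_, rfl⟩
  rw [← ha] at hv2
  have ha0 : 0 ≤ a := by rw [ha]; exact norm_nonneg _
  have hwD : w ^ 2 ≤ (D / 4000) ^ 2 := pow_le_pow_left₀ hw0.le (by linarith) 2
  have ha1 : 0.999 * D ≤ a := by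
    have h5 : (0.999 * D) ^ 2 ≤ a ^ 2 := by
      rw [hv2]
      nlinarith [sq_nonneg D]
    exact (pow_le_pow_iff_left₀ (by positivity) ha0 (by norm_num)).1 h5
  have hap : 0 < a := by linarith
  obtain ⟨e1, he1⟩ : ∃ e1, e1 = a⁻¹ • v := ⟨_, rfl⟩
  have hvn : ⟪v, n⟫_ℝ = 0 := by
    rw [hv, inner_sub_left, ← hb, inner_smul_left, real_inner_self_eq_norm_sq, hn]
    simp
  have hON : ON n e1 := by
    refine ⟨hn, ?_, ?_⟩
    · rw [he1, norm_smul, ← ha, norm_inv, Real.norm_of_nonneg ha0, inv_mul_cancel₀ hap.ne']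
    · rw [he1, inner_smul_right, real_inner_comm, hvn, mul_zero]
  have hd : q - p = a • e1 + b • n := by
    rw [he1, smul_smul, mul_inv_cancel₀ hap.ne', one_smul, hv]
    abel
  obtain ⟨hE1, hE2, hE3, hE4, hE5, hE6⟩ := fra_on' n e1 hON
  obtain ⟨u2, hu2⟩ : ∃ u2, u2 = cr n e1 := ⟨_, rfl⟩
  rw [← hu2] at hE2 hE3 hE4 hE5 hE6
  obtain ⟨hF1, hF2, -, -, -, -⟩ := fra_on' u2 n hE4
  -- hF1 : ON n u2, hF2 : cr n u2 = - cr u2 n
  rw [hE6] at hF2
  have hdu2 : ⟪q - p, u2⟫_ℝ = 0 := by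
    rw [hd, inner_add_left, inner_smul_left, inner_smul_left, real_inner_comm, hE3.or, hF1.or]
    simp
  have hpq : ⟪p, u2⟫_ℝ = ⟪q, u2⟫_ℝ := by
    rw [inner_sub_left] at hdu2
    linarith
  obtain ⟨hu21, hu22, -, -⟩ := fra_lohi K hK u2 hF1.nu
  have hde1 : ⟪q - p, e1⟫_ℝ = a := by
    rw [hd, inner_add_left, inner_smul_left, inner_smul_left, real_inner_self_eq_norm_sq, hON.nu,
      hON.or]
    simp
  have hch : a ≤ Wd K n u2 ⟪p, u2⟫_ℝ := by
    have h5 := far2_chord K hK n u2 hF1 p q hp hq hpq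
    rw [hF2, inner_neg_right, hde1, abs_neg, abs_of_pos hap] at h5
    exact h5
  obtain ⟨hcc1, hcc2, -⟩ := ccv_wd K hK n u2 hF1
  have hfub := fub_sh K hK n u2 hF1
  have hFpos := (shm_pos K hK).1 n hn
  have hint : IntervalIntegrable (Wd K n u2) volume (lo K u2) (hi K u2) := by
    by_contra hcon
    rw [intervalIntegral.integral_undef hcon] at hfub
    linarith
  have hF := far2_int (Wd K n u2) (lo K u2) (hi K u2) ⟪p, u2⟫_ℝ a (hu22 p hp) hcc1 hcc2 hch hint
  rw [hfub] at hF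
  obtain ⟨F, hFd⟩ : ∃ F, F = sh K n := ⟨_, rfl⟩
  rw [← hFd] at hF hFpos
  -- the width in direction u2
  have hwid : w1 - 2.1 * w ≤ hi K u2 - lo K u2 := by
    obtain ⟨g1, -, g2, -⟩ := fra_lohi K hK u hu
    obtain ⟨x, hx, hx1⟩ := g2 (hi K u) ⟨g1.le, le_rfl⟩
    obtain ⟨y, hy, hy1⟩ := g2 (lo K u) ⟨le_rfl, g1.le⟩
    have hw1' : w1 = ⟪x - y, u⟫_ℝ := by rw [inner_sub_left, hx1, hy1, hw1]
    have hbas := (fra_basis n u2 hF1 u).1
    rw [hF2] at hbas
    obtain ⟨α, hα⟩ : ∃ α, α = ⟪u, e1⟫_ℝ := ⟨_, rfl⟩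
    obtain ⟨β, hβ⟩ : ∃ β, β = ⟪u, n⟫_ℝ := ⟨_, rfl⟩
    obtain ⟨γ, hγ⟩ : ∃ γ, γ = ⟪u, u2⟫_ℝ := ⟨_, rfl⟩
    rw [inner_neg_right, ← hα, ← hβ, ← hγ, neg_smul_neg] at hbas
    have h0 : a * α + b * β = 0 := by
      rw [hd, inner_add_left, inner_smul_left, inner_smul_left, real_inner_comm, ← hα,
        real_inner_comm, ← hβ] at hor
      simpa using hor
    have hβ1 : |β| ≤ 1 := by
      have := abs_real_inner_le_norm u n
      rw [hu, hn, mul_one] at this
      rwa [hβ]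
    have hγ1 : |γ| ≤ 1 := by
      have := abs_real_inner_le_norm u u2
      rw [hu, hF1.nu, mul_one] at this
      rwa [hγ]
    obtain ⟨X, hX⟩ : ∃ X, X = ⟪x - y, e1⟫_ℝ := ⟨_, rfl⟩
    obtain ⟨Y, hY⟩ : ∃ Y, Y = ⟪x - y, n⟫_ℝ := ⟨_, rfl⟩
    obtain ⟨Z, hZ⟩ : ∃ Z, Z = ⟪x - y, u2⟫_ℝ := ⟨_, rfl⟩
    have hX1 : |X| ≤ D := by
      have := abs_real_inner_le_norm (x - y) e1
      rw [hON.nu, mul_one, ← hX] at this
      exact this.trans (hD x hx y hy)
    have hY1 : |Y| ≤ w := by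
      rw [hY, inner_sub_left, hw, abs_le]
      have h5 := hn2 x hx
      have h6 := hn2 y hy
      constructor <;> linarith
    have hZ1 : |Z| ≤ hi K u2 - lo K u2 := by
      rw [hZ, inner_sub_left, abs_le]
      have h5 := hu22 x hx
      have h6 := hu22 y hy
      constructor <;> linarith
    have hexp : w1 = α * X + β * Y + γ * Z := by
      rw [hw1', hbas, inner_add_right, inner_add_right, inner_smul_right, inner_smul_right,
        inner_smul_right, ← hX, ← hY, ← hZ]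
    have hα1 : |α| * a ≤ w := by
      have h5 : a * α = -(b * β) := by linarith
      have h6 : |a * α| ≤ w := by
        rw [h5, abs_neg, abs_mul]
        calc |b| * |β| ≤ w * 1 := mul_le_mul hbw hβ1 (abs_nonneg _) hw0.le
          _ = w := mul_one _
      rw [abs_mul, abs_of_pos hap] at h6
      linarith
    have hα2 : |α| * D ≤ 1.01 * w := by
      have h5 : |α| * (0.999 * D) ≤ |α| * a := mul_le_mul_of_nonneg_left ha1 (abs_nonneg _)
      nlinarith [abs_nonneg α]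
    have t1 : α * X ≤ 1.01 * w := by
      calc α * X ≤ |α * X| := le_abs_self _
        _ = |α| * |X| := abs_mul _ _
        _ ≤ |α| * D := mul_le_mul_of_nonneg_left hX1 (abs_nonneg _)
        _ ≤ _ := hα2
    have t2 : β * Y ≤ w := by
      calc β * Y ≤ |β * Y| := le_abs_self _
        _ = |β| * |Y| := abs_mul _ _
        _ ≤ 1 * w := mul_le_mul hβ1 hY1 (abs_nonneg _) zero_le_one
        _ = w := one_mul _
    have t3 : γ * Z ≤ hi K u2 - lo K u2 := by
      calc γ * Z ≤ |γ * Z| := le_abs_self _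
        _ = |γ| * |Z| := abs_mul _ _
        _ ≤ 1 * (hi K u2 - lo K u2) := mul_le_mul hγ1 hZ1 (abs_nonneg _) zero_le_one
        _ = _ := one_mul _
    linarith
  have hwid2 : 0.97 * w1 ≤ hi K u2 - lo K u2 := by linarith
  have hFlow : 0.48 * (D * w1) ≤ F := by
    have h5 : (0.999 * D) * (0.97 * w1) ≤ a * (hi K u2 - lo K u2) :=
      mul_le_mul ha1 hwid2 (by positivity) ha0
    have h6 : 0 < D * w1 := mul_pos hD0 hw10
    nlinarith
  -- surface area
  have hS := cau_box K hK n u2 hF1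
  have hs1 : sh K u2 ≤ w * D := by
    refine (shm_rect K hK u2 n hE4).trans ?_
    rw [hE6, ← hw]
    exact mul_le_mul_of_nonneg_left (far2_width K hK D hD e1 hON.nu) hw0.le
  have hs2 : sh K (cr n u2) ≤ w * D := by
    rw [hF2, (shm_pos K hK).2 e1]
    refine (shm_rect K hK e1 n hE1).trans ?_
    rw [← hw]
    exact mul_le_mul_of_nonneg_left (far2_width K hK D hD _ (by
      rw [hE2, norm_neg]; exact hF1.nu)) hw0.le
  obtain ⟨hb1, hb3, hV1, hV2⟩ := cmo_pos K hK
  have hwDD : 4 * (w * D) ≤ 0.109 * F := by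
    have h5 : 4000 * (w * D) ≤ D * D := by
      have := mul_le_mul_of_nonneg_right h4 hD0.le
      linarith
    have h6 : D * D ≤ 52 * (D * w1) := by
      have := mul_le_mul_of_nonneg_left h52 hD0.le
      linarith
    linarith
  refine far2_arith (kap K) (volume K).toReal (bd K).toReal F (4 * (w * D))
    (ENNReal.toReal_pos hV1.ne' hV2) (ENNReal.toReal_pos hb1.ne' hb3) hFpos ?_ ?_ hwDD
  · rw [hFd]
    exact flt_main K hK n hn
  · rw [← hFd] at hS
    linarith

end STB
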