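import Pool.Agent.Lib_helper15.STB.Defs

/-! # STB, block far3 : longest chord and widest orthogonal direction -/

open MeasureTheory Filter Topology
open scoped InnerProductSpace
open Pool.Agent.Lib_helper15.STE

namespace STB

theorem far3_orth (w : E3) : ∃ v : E3, ‖v‖ = 1 ∧ ⟪w, v⟫_ℝ = 0 := by
  have h1 : Module.finrank ℝ (ℝ ∙ w) ≤ 1 := by
    have := finrank_span_le_card (R := ℝ) ({w} : Set E3)
    simpa using this
  have h2 := Submodule.finrank_add_finrank_orthogonal (ℝ ∙ w)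
  have h3 : Module.finrank ℝ E3 = 3 := finrank_euclideanSpace_fin
  have h4 : (ℝ ∙ w)ᗮ ≠ ⊥ := by
    intro h
    rw [h, finrank_bot, h3] at h2
    omega
  obtain ⟨v, hv, hv0⟩ := Submodule.exists_mem_ne_zero_of_ne_bot h4
  have hn : ‖v‖ ≠ 0 := norm_ne_zero_iff.2 hv0
  refine ⟨‖v‖⁻¹ • v, ?_, ?_⟩
  · rw [norm_smul, norm_inv, norm_norm, inv_mul_cancel₀ hn]
  · rw [inner_smul_right, Submodule.mem_orthogonal_singleton_iff_inner_right.1 hv, mul_zero]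

theorem far3_cont (K : Set E3) (hK : CB K) : Continuous fun v => hi K v - lo K v := by
  have h : Continuous (fun p : E3 × E3 => ⟪p.2, p.1⟫_ℝ) := continuous_snd.inner continuous_fst
  exact (hK.comp.continuous_sSup (f := fun v x => ⟪x, v⟫_ℝ) h).sub
    (hK.comp.continuous_sInf (f := fun v x => ⟪x, v⟫_ℝ) h)

theorem far3_main (K : Set E3) (hK : CB K) : ∃ p ∈ K, ∃ q ∈ K, ∃ u : E3,
    (∀ x ∈ K, ∀ y ∈ K, ‖x - y‖ ≤ ‖q - p‖) ∧ ‖u‖ = 1 ∧ ⟪q - p, u⟫_ℝ = 0 ∧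
    ∀ v : E3, ‖v‖ = 1 → ⟪q - p, v⟫_ℝ = 0 → hi K v - lo K v ≤ hi K u - lo K u := by
  have hne : K.Nonempty := hK.int.mono interior_subset
  obtain ⟨⟨q, p⟩, hqp, hmax⟩ := (hK.comp.prod hK.comp).exists_isMaxOn (hne.prod hne)
    (f := fun z : E3 × E3 => ‖z.1 - z.2‖) (by fun_prop)
  rw [isMaxOn_iff] at hmax
  have hcpt : IsCompact {v : E3 | ‖v‖ = 1 ∧ ⟪q - p, v⟫_ℝ = 0} := by
    have h1 : {v : E3 | ‖v‖ = 1 ∧ ⟪q - p, v⟫_ℝ = 0} =
        Metric.sphere (0 : E3) 1 ∩ {v : E3 | ⟪q - p, v⟫_ℝ = 0} := by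
      ext v
      simp
    rw [h1]
    refine (isCompact_sphere _ _).inter_right (isClosed_eq ?_ continuous_const)
    exact continuous_const.inner continuous_id
  obtain ⟨v0, h1, h2⟩ := far3_orth (q - p)
  obtain ⟨u, hu, humax⟩ := hcpt.exists_isMaxOn ⟨v0, h1, h2⟩ (far3_cont K hK).continuousOn
  rw [isMaxOn_iff] at humax
  exact ⟨p, hqp.2, q, hqp.1, u, fun x hx y hy => hmax (x, y) ⟨hx, hy⟩, hu.1, hu.2,
    fun v hv hv2 => humax v ⟨hv, hv2⟩⟩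

end STB
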