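import Pool.Agent.Lib_helper15.STB.Defs
import Pool.Agent.Lib_helper59.STHF.momA

/-! # STB, block funA : the zonal quadratic form of degree 2 -/

open MeasureTheory Filter Topology
open scoped InnerProductSpace
open Pool.Agent.Lib_helper15.STE

namespace STB

/-- second moments of a function on the sphere -/
noncomputable def funA_M (H : E3 → ℝ) (i j : Fin 3) : ℝ := ∫ y, H y * (y i * y j) ∂sig

theorem funA_coord (i : Fin 3) : Measurable (fun x : E3 => x i) :=
  (EuclideanSpace.proj (𝕜 := ℝ) i : E3 →L[ℝ] ℝ).continuous.measurable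

theorem funA_le {x : E3} (hx : ‖x‖ = 1) (i : Fin 3) : |x i| ≤ 1 :=
  STH.momA_coord_le hx i

theorem funA_int (H : E3 → ℝ) (hH : Measurable H) (C : ℝ) (hC : ∀ x, ‖x‖ = 1 → |H x| ≤ C) :
    Integrable H sig := (sigC_integral H hH C hC).1

theorem funA_int2 (H : E3 → ℝ) (hH : Measurable H) (C : ℝ) (hC : ∀ x, ‖x‖ = 1 → |H x| ≤ C)
    (i j : Fin 3) : Integrable (fun y => H y * (y i * y j)) sig := by
  refine funA_int _ (hH.mul ((funA_coord i).mul (funA_coord j))) C ?_
  intro x hx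
  rw [abs_mul, abs_mul]
  have h1 := hC x hx
  have h2 := funA_le hx i
  have h3 := funA_le hx j
  have h4 : |x i| * |x j| ≤ 1 := mul_le_one₀ h2 (abs_nonneg _) h3
  calc |H x| * (|x i| * |x j|) ≤ |H x| * 1 := mul_le_mul_of_nonneg_left h4 (abs_nonneg _)
    _ ≤ C := by rw [mul_one]; exact h1

theorem funA_inner (x y : E3) :
    ⟪x, y⟫_ℝ ^ 2 = ∑ i : Fin 3, ∑ j : Fin 3, (x i * x j) * (y i * y j) := by
  have h : ⟪x, y⟫_ℝ = ∑ i : Fin 3, x i * y i := by
    rw [PiLp.inner_apply]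
    apply Finset.sum_congr rfl
    intro i _
    simp [mul_comm]
  rw [h, sq, Finset.sum_mul_sum]
  apply Finset.sum_congr rfl
  intro i _
  apply Finset.sum_congr rfl
  intro j _
  ring

/-- integration of the zonal form against a function -/
theorem funA_zon (H : E3 → ℝ) (hH : Measurable H) (C : ℝ) (hC : ∀ x, ‖x‖ = 1 → |H x| ≤ C)
    (x : E3) : ∫ y, H y * ⟪x, y⟫_ℝ ^ 2 ∂sig = ∑ i, ∑ j, (x i * x j) * funA_M H i j := by
  have h1 : ∀ y : E3, H y * ⟪x, y⟫_ℝ ^ 2 =
      ∑ i : Fin 3, ∑ j : Fin 3, (x i * x j) * (H y * (y i * y j)) := by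
    intro y
    rw [funA_inner, Finset.mul_sum]
    apply Finset.sum_congr rfl
    intro i _
    rw [Finset.mul_sum]
    apply Finset.sum_congr rfl
    intro j _
    ring
  simp_rw [h1]
  rw [integral_finsetSum]
  · apply Finset.sum_congr rfl
    intro i _
    rw [integral_finsetSum]
    · apply Finset.sum_congr rfl
      intro j _
      rw [integral_const_mul, funA_M]
    · intro j _
      exact (funA_int2 H hH C hC i j).const_mul _
  · intro i _
    apply integrable_finsetSum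
    intro j _
    exact (funA_int2 H hH C hC i j).const_mul _

theorem funA_one (i j : Fin 3) : ∫ y : E3, y i * y j ∂sig = if i = j then 1 / 3 else 0 := by
  have key : ∀ a b c : ℕ, a + b + c ≤ 6 → (fun y : E3 => y i * y j) = STH.mon a b c →
      ∫ y : E3, y i * y j ∂sig = if Even a ∧ Even b ∧ Even c then
      ((a - 1).doubleFactorial * (b - 1).doubleFactorial * (c - 1).doubleFactorial : ℝ) /
        (a + b + c + 1).doubleFactorial else 0 := by
    intro a b c h e
    rw [e]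
    exact STH.mom a b c h
  fin_cases i <;> fin_cases j
  · rw [key 2 0 0 (by norm_num) (by funext y; simp [STH.mon]; ring)]
    norm_num [Nat.doubleFactorial]
  · rw [key 1 1 0 (by norm_num) (by funext y; simp [STH.mon])]
    norm_num
  · rw [key 1 0 1 (by norm_num) (by funext y; simp [STH.mon])]
    norm_num
  · rw [key 1 1 0 (by norm_num) (by funext y; simp [STH.mon]; ring)]
    norm_num
  · rw [key 0 2 0 (by norm_num) (by funext y; simp [STH.mon]; ring)]
    norm_num [Nat.doubleFactorial]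
  · rw [key 0 1 1 (by norm_num) (by funext y; simp [STH.mon])]
    norm_num
  · rw [key 1 0 1 (by norm_num) (by funext y; simp [STH.mon]; ring)]
    norm_num
  · rw [key 0 1 1 (by norm_num) (by funext y; simp [STH.mon]; ring)]
    norm_num
  · rw [key 0 0 2 (by norm_num) (by funext y; simp [STH.mon]; ring)]
    norm_num [Nat.doubleFactorial]

/-- linear combinations of monomials -/
def funA_lin (L : List (ℝ × ℕ × ℕ × ℕ)) (x : E3) : ℝ :=
  (L.map (fun t => t.1 * STH.mon t.2.1 t.2.2.1 t.2.2.2 x)).sum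

theorem funA_lin_int (L : List (ℝ × ℕ × ℕ × ℕ)) : Integrable (funA_lin L) sig ∧
    ∫ x, funA_lin L x ∂sig =
      (L.map (fun t => t.1 * ∫ x, STH.mon t.2.1 t.2.2.1 t.2.2.2 x ∂sig)).sum := by
  induction L with
  | nil =>
    have h : funA_lin [] = fun _ => (0 : ℝ) := by funext x; simp [funA_lin]
    rw [h]
    refine ⟨integrable_zero _ _ _, by simp⟩
  | cons t L ih =>
    have h : funA_lin (t :: L) =
        fun x => t.1 * STH.mon t.2.1 t.2.2.1 t.2.2.2 x + funA_lin L x := by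
      funext x; simp [funA_lin]
    have hi : Integrable (fun x => t.1 * STH.mon t.2.1 t.2.2.1 t.2.2.2 x) sig :=
      (STH.momA_integrable _ _ _).const_mul _
    rw [h]
    refine ⟨hi.add ih.1, ?_⟩
    rw [integral_add hi ih.1, integral_const_mul, ih.2]
    simp

/-- the mean square of a quadratic form -/
theorem funA_q4 (a b c d e f : ℝ) :
    ∫ x : E3, (a * x 0 ^ 2 + b * x 1 ^ 2 + c * x 2 ^ 2 + 2 * d * (x 0 * x 1) +
      2 * e * (x 0 * x 2) + 2 * f * (x 1 * x 2)) ^ 2 ∂sig =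
      1 / 15 * ((a + b + c) ^ 2 + 2 * (a ^ 2 + b ^ 2 + c ^ 2 + 2 * d ^ 2 + 2 * e ^ 2 + 2 * f ^ 2)) := by
  have h : (fun x : E3 => (a * x 0 ^ 2 + b * x 1 ^ 2 + c * x 2 ^ 2 + 2 * d * (x 0 * x 1) +
      2 * e * (x 0 * x 2) + 2 * f * (x 1 * x 2)) ^ 2) = funA_lin
      [(a ^ 2, 4, 0, 0), (b ^ 2, 0, 4, 0), (c ^ 2, 0, 0, 4), (2 * a * b + 4 * d ^ 2, 2, 2, 0),
       (2 * a * c + 4 * e ^ 2, 2, 0, 2), (2 * b * c + 4 * f ^ 2, 0, 2, 2),
       (4 * a * d, 3, 1, 0), (4 * a * e, 3, 0, 1), (4 * a * f + 8 * d * e, 2, 1, 1),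
       (4 * b * d, 1, 3, 0), (4 * b * f, 0, 3, 1), (4 * b * e + 8 * d * f, 1, 2, 1),
       (4 * c * e, 1, 0, 3), (4 * c * f, 0, 1, 3), (4 * c * d + 8 * e * f, 1, 1, 2)] := by
    funext x
    simp only [funA_lin, STH.mon, List.map_cons, List.map_nil, List.sum_cons, List.sum_nil]
    ring
  rw [h, (funA_lin_int _).2]
  simp only [List.map_cons, List.map_nil, List.sum_cons, List.sum_nil]
  rw [STH.mom 4 0 0 (by norm_num), STH.mom 0 4 0 (by norm_num), STH.mom 0 0 4 (by norm_num),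
    STH.mom 2 2 0 (by norm_num), STH.mom 2 0 2 (by norm_num), STH.mom 0 2 2 (by norm_num),
    STH.mom 3 1 0 (by norm_num), STH.mom 3 0 1 (by norm_num), STH.mom 2 1 1 (by norm_num),
    STH.mom 1 3 0 (by norm_num), STH.mom 0 3 1 (by norm_num), STH.mom 1 2 1 (by norm_num),
    STH.mom 1 0 3 (by norm_num), STH.mom 0 1 3 (by norm_num), STH.mom 1 1 2 (by norm_num)]
  norm_num [Nat.doubleFactorial, Nat.even_iff]
  ring

theorem funA_tr (H : E3 → ℝ) (hH : Measurable H) (C : ℝ) (hC : ∀ x, ‖x‖ = 1 → |H x| ≤ C) :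
    funA_M H 0 0 + funA_M H 1 1 + funA_M H 2 2 = ∫ x, H x ∂sig := by
  have h0 := funA_int2 H hH C hC 0 0
  have h1 := funA_int2 H hH C hC 1 1
  have h2 := funA_int2 H hH C hC 2 2
  have h01 : Integrable (fun y : E3 => H y * (y 0 * y 0) + H y * (y 1 * y 1)) sig := h0.add h1
  simp only [funA_M]
  rw [← integral_add h0 h1, ← integral_add h01 h2]
  apply integral_congr_ae
  filter_upwards [sigA_sphere] with x hx
  have h3 := STH.momA_norm_sq x
  rw [hx] at h3
  have h4 : x 0 * x 0 + x 1 * x 1 + x 2 * x 2 = 1 := by nlinarith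
  linear_combination H x * h4

/-- second moments of a squared difference -/
theorem funA_diff (G : E3 → ℝ) (hG : Measurable G) (C : ℝ) (hC : ∀ x, ‖x‖ = 1 → |G x| ≤ C)
    (a : ℝ) (i j : Fin 3) : funA_M (fun y => (a - G y) ^ 2) i j =
      a ^ 2 * (if i = j then 1 / 3 else 0) - 2 * a * funA_M G i j +
        funA_M (fun y => G y ^ 2) i j := by
  have hP := sigA_prob
  have hG2C : ∀ x, ‖x‖ = 1 → |G x ^ 2| ≤ C ^ 2 := by
    intro x hx
    rw [abs_pow]
    exact pow_le_pow_left₀ (abs_nonneg _) (hC x hx) 2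
  have h1 : Integrable (fun y : E3 => a ^ 2 * (y i * y j)) sig := by
    have := funA_int2 (fun _ => (1 : ℝ)) measurable_const 1 (by intro x _; simp) i j
    simp only [one_mul] at this
    exact this.const_mul _
  have h2 : Integrable (fun y : E3 => 2 * a * (G y * (y i * y j))) sig :=
    (funA_int2 G hG C hC i j).const_mul _
  have h3 := funA_int2 (fun y => G y ^ 2) (hG.pow_const 2) (C ^ 2) hG2C i j
  have h12 : Integrable (fun y : E3 => a ^ 2 * (y i * y j) - 2 * a * (G y * (y i * y j))) sig :=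
    h1.sub h2
  have e : ∀ y : E3, (a - G y) ^ 2 * (y i * y j) =
      a ^ 2 * (y i * y j) - 2 * a * (G y * (y i * y j)) + G y ^ 2 * (y i * y j) := by
    intro y; ring
  simp only [funA_M]
  simp_rw [e]
  rw [integral_add h12 h3, integral_sub h1 h2, integral_const_mul, integral_const_mul, funA_one]

theorem funA_main (F : E3 → ℝ) (hF : Measurable F) (C : ℝ) (hC : ∀ x, ‖x‖ = 1 → |F x| ≤ C) :
    2 / 5 * ∫ x, (F x - ∫ y, F y ∂sig) ^ 2 ∂sig ≤
      ∫ x, (∫ y, (F x - F y) ^ 2 * ⟪x, y⟫_ℝ ^ 2 ∂sig) ∂sig := by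
  have hP := sigA_prob
  have hFi : Integrable F sig := funA_int F hF C hC
  set μ : ℝ := ∫ y, F y ∂sig with hμ
  set G : E3 → ℝ := fun x => F x - μ with hG
  have hGm : Measurable G := hF.sub measurable_const
  have hGC : ∀ x, ‖x‖ = 1 → |G x| ≤ C + |μ| := by
    intro x hx
    calc |F x - μ| ≤ |F x| + |μ| := abs_sub _ _
      _ ≤ C + |μ| := by linarith [hC x hx]
  set B : ℝ := C + |μ| with hB
  have hG2m : Measurable (fun x => G x ^ 2) := hGm.pow_const 2
  have hG2C : ∀ x, ‖x‖ = 1 → |G x ^ 2| ≤ B ^ 2 := by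
    intro x hx
    rw [abs_pow]
    exact pow_le_pow_left₀ (abs_nonneg _) (hGC x hx) 2
  have hG0 : ∫ x, G x ∂sig = 0 := by
    rw [hG, integral_sub hFi (integrable_const _), integral_const]
    simp [hμ]
  set m : Fin 3 → Fin 3 → ℝ := funA_M G with hm
  set n : Fin 3 → Fin 3 → ℝ := funA_M (fun x => G x ^ 2) with hn
  set W : ℝ := ∫ x, G x ^ 2 ∂sig with hW
  have hsym : ∀ i j, m i j = m j i := by
    intro i j
    simp only [hm, funA_M]
    congr 1
    funext y
    ring
  have htrm : m 0 0 + m 1 1 + m 2 2 = 0 := by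
    rw [← hG0]
    exact funA_tr G hGm B hGC
  have htrn : n 0 0 + n 1 1 + n 2 2 = W := funA_tr _ hG2m _ hG2C
  have hin : ∀ x : E3, ∫ y, (F x - F y) ^ 2 * ⟪x, y⟫_ℝ ^ 2 ∂sig =
      ∑ i : Fin 3, ∑ j : Fin 3, ((if i = j then 1 / 3 else 0) * (G x ^ 2 * (x i * x j)) -
        2 * m i j * (G x * (x i * x j)) + n i j * (x i * x j)) := by
    intro x
    have e : ∀ y, (F x - F y) ^ 2 = (G x - G y) ^ 2 := by
      intro y
      simp only [hG]
      ring
    simp_rw [e]
    rw [funA_zon (fun y => (G x - G y) ^ 2) ((measurable_const.sub hGm).pow_const 2)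
      ((|G x| + B) ^ 2) (by
        intro y hy
        rw [abs_pow]
        apply pow_le_pow_left₀ (abs_nonneg _)
        calc |G x - G y| ≤ |G x| + |G y| := abs_sub _ _
          _ ≤ |G x| + B := by linarith [hGC y hy]) x]
    apply Finset.sum_congr rfl
    intro i _
    apply Finset.sum_congr rfl
    intro j _
    rw [funA_diff G hGm B hGC]
    ring
  have hi1 : ∀ i j : Fin 3, Integrable (fun x : E3 => x i * x j) sig := by
    intro i j
    have := funA_int2 (fun _ => (1 : ℝ)) measurable_const 1 (by intro x _; simp) i j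
    simp only [one_mul] at this
    exact this
  have hi2 : ∀ i j : Fin 3, Integrable (fun x : E3 => G x * (x i * x j)) sig :=
    fun i j => funA_int2 G hGm B hGC i j
  have hi3 : ∀ i j : Fin 3, Integrable (fun x : E3 => G x ^ 2 * (x i * x j)) sig :=
    fun i j => funA_int2 _ hG2m _ hG2C i j
  have hi4 : ∀ i j : Fin 3, Integrable (fun x : E3 =>
      (if i = j then 1 / 3 else 0) * (G x ^ 2 * (x i * x j)) -
        2 * m i j * (G x * (x i * x j))) sig :=
    fun i j => ((hi3 i j).const_mul _).sub ((hi2 i j).const_mul _)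
  have hi5 : ∀ i j : Fin 3, Integrable (fun x : E3 =>
      (if i = j then 1 / 3 else 0) * (G x ^ 2 * (x i * x j)) -
        2 * m i j * (G x * (x i * x j)) + n i j * (x i * x j)) sig :=
    fun i j => (hi4 i j).add ((hi1 i j).const_mul _)
  have hout : ∫ x, (∫ y, (F x - F y) ^ 2 * ⟪x, y⟫_ℝ ^ 2 ∂sig) ∂sig =
      ∑ i : Fin 3, ∑ j : Fin 3, ((if i = j then 1 / 3 else 0) * n i j - 2 * m i j * m i j +
        n i j * (if i = j then 1 / 3 else 0)) := by
    simp_rw [hin]
    rw [integral_finsetSum]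
    · apply Finset.sum_congr rfl
      intro i _
      rw [integral_finsetSum]
      · apply Finset.sum_congr rfl
        intro j _
        rw [integral_add (hi4 i j) ((hi1 i j).const_mul _),
          integral_sub ((hi3 i j).const_mul _) ((hi2 i j).const_mul _), integral_const_mul,
          integral_const_mul, integral_const_mul, funA_one]
        rfl
      · intro j _
        exact hi5 i j
    · intro i _
      apply integrable_finsetSum
      intro j _
      exact hi5 i j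
  set S : ℝ := m 0 0 ^ 2 + m 1 1 ^ 2 + m 2 2 ^ 2 + 2 * m 0 1 ^ 2 + 2 * m 0 2 ^ 2 +
    2 * m 1 2 ^ 2 with hS
  have hout2 : ∫ x, (∫ y, (F x - F y) ^ 2 * ⟪x, y⟫_ℝ ^ 2 ∂sig) ∂sig = 2 / 3 * W - 2 * S := by
    rw [hout]
    simp only [Fin.sum_univ_three]
    have h10 := hsym 1 0
    have h20 := hsym 2 0
    have h21 := hsym 2 1
    rw [h10, h20, h21, ← htrn, hS]
    norm_num [Fin.ext_iff]
    ring
  have hq4 := funA_q4 (m 0 0) (m 1 1) (m 2 2) (m 0 1) (m 0 2) (m 1 2)
  set q : E3 → ℝ := fun x => m 0 0 * x 0 ^ 2 + m 1 1 * x 1 ^ 2 + m 2 2 * x 2 ^ 2 +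
    2 * m 0 1 * (x 0 * x 1) + 2 * m 0 2 * (x 0 * x 2) + 2 * m 1 2 * (x 1 * x 2) with hq
  have hq4' : ∫ x, q x ^ 2 ∂sig = 2 / 15 * S := by
    simp only [hq]
    rw [hq4, htrm, hS]
    ring
  have hqm : Measurable q := by
    have c := fun i : Fin 3 => funA_coord i
    have h1 : Measurable (fun x : E3 => m 0 0 * x 0 ^ 2) := ((c 0).pow_const 2).const_mul _
    have h2 : Measurable (fun x : E3 => m 1 1 * x 1 ^ 2) := ((c 1).pow_const 2).const_mul _
    have h3 : Measurable (fun x : E3 => m 2 2 * x 2 ^ 2) := ((c 2).pow_const 2).const_mul _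
    have h4 : Measurable (fun x : E3 => 2 * m 0 1 * (x 0 * x 1)) := ((c 0).mul (c 1)).const_mul _
    have h5 : Measurable (fun x : E3 => 2 * m 0 2 * (x 0 * x 2)) := ((c 0).mul (c 2)).const_mul _
    have h6 : Measurable (fun x : E3 => 2 * m 1 2 * (x 1 * x 2)) := ((c 1).mul (c 2)).const_mul _
    exact ((((h1.add h2).add h3).add h4).add h5).add h6
  have hGq : Integrable (fun x => G x * q x) sig ∧ ∫ x, G x * q x ∂sig = S := by
    have e : ∀ x, G x * q x = m 0 0 * (G x * (x 0 * x 0)) + m 1 1 * (G x * (x 1 * x 1)) +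
        m 2 2 * (G x * (x 2 * x 2)) + 2 * m 0 1 * (G x * (x 0 * x 1)) +
        2 * m 0 2 * (G x * (x 0 * x 2)) + 2 * m 1 2 * (G x * (x 1 * x 2)) := by
      intro x
      simp only [hq]
      ring
    simp_rw [e]
    have k1 := (hi2 0 0).const_mul (m 0 0)
    have k2 := (hi2 1 1).const_mul (m 1 1)
    have k3 := (hi2 2 2).const_mul (m 2 2)
    have k4 := (hi2 0 1).const_mul (2 * m 0 1)
    have k5 := (hi2 0 2).const_mul (2 * m 0 2)
    have k6 := (hi2 1 2).const_mul (2 * m 1 2)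
    have s2 : Integrable (fun x : E3 => m 0 0 * (G x * (x 0 * x 0)) +
      m 1 1 * (G x * (x 1 * x 1))) sig := k1.add k2
    have s3 : Integrable (fun x : E3 => m 0 0 * (G x * (x 0 * x 0)) +
      m 1 1 * (G x * (x 1 * x 1)) + m 2 2 * (G x * (x 2 * x 2))) sig := s2.add k3
    have s4 : Integrable (fun x : E3 => m 0 0 * (G x * (x 0 * x 0)) +
      m 1 1 * (G x * (x 1 * x 1)) + m 2 2 * (G x * (x 2 * x 2)) +
      2 * m 0 1 * (G x * (x 0 * x 1))) sig := s3.add k4
    have s5 : Integrable (fun x : E3 => m 0 0 * (G x * (x 0 * x 0)) +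
      m 1 1 * (G x * (x 1 * x 1)) + m 2 2 * (G x * (x 2 * x 2)) +
      2 * m 0 1 * (G x * (x 0 * x 1)) + 2 * m 0 2 * (G x * (x 0 * x 2))) sig := s4.add k5
    refine ⟨s5.add k6, ?_⟩
    rw [integral_add s5 k6, integral_add s4 k5, integral_add s3 k4, integral_add s2 k3,
      integral_add k1 k2, integral_const_mul, integral_const_mul, integral_const_mul,
      integral_const_mul, integral_const_mul, integral_const_mul]
    show m 0 0 * m 0 0 + m 1 1 * m 1 1 + m 2 2 * m 2 2 + 2 * m 0 1 * m 0 1 +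
      2 * m 0 2 * m 0 2 + 2 * m 1 2 * m 1 2 = S
    rw [hS]
    ring
  have hq2i : Integrable (fun x => q x ^ 2) sig := by
    refine funA_int _ (hqm.pow_const 2) ((|m 0 0| + |m 1 1| + |m 2 2| + 2 * |m 0 1| +
      2 * |m 0 2| + 2 * |m 1 2|) ^ 2) ?_
    intro x hx
    rw [abs_pow]
    apply pow_le_pow_left₀ (abs_nonneg _)
    have c0 := funA_le hx 0
    have c1 := funA_le hx 1
    have c2 := funA_le hx 2
    have d : ∀ (t : ℝ) (i j : Fin 3), |t * (x i * x j)| ≤ |t| := by
      intro t i j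
      rw [abs_mul, abs_mul]
      have := mul_le_one₀ (funA_le hx i) (abs_nonneg _) (funA_le hx j)
      exact mul_le_of_le_one_right (abs_nonneg _) this
    have e : q x = m 0 0 * (x 0 * x 0) + m 1 1 * (x 1 * x 1) + m 2 2 * (x 2 * x 2) +
        2 * m 0 1 * (x 0 * x 1) + 2 * m 0 2 * (x 0 * x 2) + 2 * m 1 2 * (x 1 * x 2) := by
      simp only [hq]
      ring
    rw [e]
    have t1 := d (m 0 0) 0 0
    have t2 := d (m 1 1) 1 1
    have t3 := d (m 2 2) 2 2
    have t4 := d (2 * m 0 1) 0 1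
    have t5 := d (2 * m 0 2) 0 2
    have t6 := d (2 * m 1 2) 1 2
    have u4 : |2 * m 0 1| = 2 * |m 0 1| := by rw [abs_mul]; norm_num
    have u5 : |2 * m 0 2| = 2 * |m 0 2| := by rw [abs_mul]; norm_num
    have u6 : |2 * m 1 2| = 2 * |m 1 2| := by rw [abs_mul]; norm_num
    rw [u4] at t4
    rw [u5] at t5
    rw [u6] at t6
    rw [abs_le] at t1 t2 t3 t4 t5 t6 ⊢
    constructor
    · linarith [t1.1, t2.1, t3.1, t4.1, t5.1, t6.1]
    · linarith [t1.2, t2.2, t3.2, t4.2, t5.2, t6.2]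
  have hG2i : Integrable (fun x => G x ^ 2) sig := funA_int _ hG2m _ hG2C
  have hpos : 0 ≤ ∫ x, (G x - 15 / 2 * q x) ^ 2 ∂sig :=
    integral_nonneg (fun x => sq_nonneg _)
  have hexp : ∫ x, (G x - 15 / 2 * q x) ^ 2 ∂sig = W - 15 * S + 225 / 4 * (2 / 15 * S) := by
    have e : ∀ x, (G x - 15 / 2 * q x) ^ 2 = G x ^ 2 - 15 * (G x * q x) + 225 / 4 * q x ^ 2 := by
      intro x; ring
    simp_rw [e]
    have k1 : Integrable (fun x => G x ^ 2 - 15 * (G x * q x)) sig :=
      hG2i.sub (hGq.1.const_mul 15)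
    rw [integral_add k1 (hq2i.const_mul _), integral_sub hG2i (hGq.1.const_mul 15),
      integral_const_mul, integral_const_mul, hGq.2, hq4']
  rw [hexp] at hpos
  rw [hout2]
  linarith

end STB
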