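import Pool.Agent.Lib_helper15.STB.Defs
import Pool.Agent.Lib_helper15.STE.B.sigA
import Pool.Agent.Lib_helper15.STE.B.sigC
import Pool.Agent.Lib_helper59.STHF.haaB

/-! # STB, block funB : pairs of random points (Haar) -/

open MeasureTheory Filter Topology
open scoped InnerProductSpace
open Pool.Agent.Lib_helper15.STE

namespace STB

theorem funB_iso (x y a b : E3) (hx : ‖x‖ = 1) (hy : ‖y‖ = 1) (ha : ‖a‖ = 1) (hb : ‖b‖ = 1)
    (h : ⟪a, b⟫_ℝ = ⟪x, y⟫_ℝ) : ∃ k : E3 ≃ₗᵢ[ℝ] E3, k a = x ∧ k b = y := by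
  obtain ⟨k1, h1, -⟩ := STH.haaB_refl a x (ha.trans hx.symm)
  obtain ⟨k2, h2, h3⟩ := STH.haaB_refl (k1 b) y (by rw [k1.norm_map, hb, hy])
  have h4 : k2 x = x := by
    apply h3
    rw [inner_sub_left]
    nth_rewrite 1 [← h1]
    rw [k1.inner_map_map, real_inner_comm a b, h, real_inner_comm x y, sub_self]
  refine ⟨k1.trans k2, ?_, ?_⟩
  · rw [LinearIsometryEquiv.trans_apply, h1, h4]
  · rw [LinearIsometryEquiv.trans_apply, h2]

theorem funB_const {Γ : Type} [MeasurableSpace Γ] {H : Measure Γ} {γ : Γ → (E3 ≃ₗᵢ[ℝ] E3)}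
    (hH : STH.Haar H γ) (G : E3 → E3 → ℝ) (hG : Measurable (fun p : E3 × E3 => G p.1 p.2))
    (x y a b : E3) (hx : ‖x‖ = 1) (hy : ‖y‖ = 1) (ha : ‖a‖ = 1) (hb : ‖b‖ = 1)
    (h : ⟪a, b⟫_ℝ = ⟪x, y⟫_ℝ) :
    ∫ g, G (γ g x) (γ g y) ∂H = ∫ g, G (γ g a) (γ g b) ∂H := by
  obtain ⟨k, hk1, hk2⟩ := funB_iso x y a b hx hy ha hb h
  have e0 := hH.inv k a b
  rw [hk1, hk2] at e0
  have e1 : ∀ u v : E3, ∫ g, G (γ g u) (γ g v) ∂H
      = ∫ p, G p.1 p.2 ∂(H.map (fun g => (γ g u, γ g v))) := by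
    intro u v
    rw [integral_map (STH.haaB_meas2 hH u v).aemeasurable hG.aestronglyMeasurable]
  rw [e1, e1, e0]

theorem funB_swap {α β : Type} [MeasurableSpace α] [MeasurableSpace β] (μ : Measure α)
    (ν : Measure β) [IsFiniteMeasure μ] [IsFiniteMeasure ν] (K : α → β → ℝ)
    (hK : Measurable (fun p : α × β => K p.1 p.2))
    (C : ℝ) (hC : ∀ᵐ b ∂ν, ∀ a, |K a b| ≤ C) :
    ∫ a, ∫ b, K a b ∂ν ∂μ = ∫ b, ∫ a, K a b ∂μ ∂ν := by
  apply integral_integral_swap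
  refine Integrable.of_bound hK.aestronglyMeasurable C ?_
  have h1 : ∀ᵐ p ∂(μ.prod ν), ∀ a, |K a p.2| ≤ C :=
    Measure.quasiMeasurePreserving_snd.ae hC
  filter_upwards [h1] with p hp
  exact hp p.1

theorem funB_sub (Φ : ℝ → ℝ) :
    ∫ τ in (-1:ℝ)..1, Φ τ = ∫ α in (0:ℝ)..Real.pi, Real.sin α * Φ (Real.cos α) := by
  rw [intervalIntegral.integral_of_le (by norm_num), intervalIntegral.integral_of_le
    Real.pi_pos.le, ← integral_Icc_eq_integral_Ioc, ← integral_Icc_eq_integral_Ioc,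
    ← Real.bijOn_cos.image_eq, integral_image_eq_integral_abs_deriv_smul measurableSet_Icc
      (fun x _ => (Real.hasDerivAt_cos x).hasDerivWithinAt) Real.injOn_cos]
  refine setIntegral_congr_fun measurableSet_Icc ?_
  intro x hx
  have h1 := Real.sin_nonneg_of_mem_Icc hx
  simp only [abs_neg, abs_of_nonneg h1, smul_eq_mul]

theorem funB_e2 : ‖(e 2 : E3)‖ = 1 := by simp [e]

theorem funB_inner (τ φ : ℝ) : ⟪(e 2 : E3), pt τ φ⟫_ℝ = τ := by
  rw [PiLp.inner_apply, Fin.sum_univ_three]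
  simp [e, pt]

theorem funB_inner0 (φ ψ : ℝ) : ⟪pt 0 φ, pt 0 ψ⟫_ℝ = Real.cos (φ - ψ) := by
  rw [PiLp.inner_apply, Fin.sum_univ_three, Real.cos_sub]
  simp [pt]
  ring

theorem funB_measK {Γ : Type} [MeasurableSpace Γ] {H : Measure Γ} {γ : Γ → (E3 ≃ₗᵢ[ℝ] E3)}
    (hH : STH.Haar H γ) (G : E3 → E3 → ℝ) (hG : Measurable (fun p : E3 × E3 => G p.1 p.2)) :
    Measurable (fun p : Γ × E3 => G (γ p.1 (e 2)) (γ p.1 p.2)) :=
  hG.comp (((STH.haaB_meas hH (e 2)).comp measurable_fst).prodMk hH.meas)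

theorem funB_measf {Γ : Type} [MeasurableSpace Γ] {H : Measure Γ} {γ : Γ → (E3 ≃ₗᵢ[ℝ] E3)}
    (hH : STH.Haar H γ) (G : E3 → E3 → ℝ) (hG : Measurable (fun p : E3 × E3 => G p.1 p.2)) :
    Measurable (fun y : E3 => ∫ g, G (γ g (e 2)) (γ g y) ∂H) := by
  have := hH.prob
  exact ((funB_measK hH G hG).stronglyMeasurable.integral_prod_left' (μ := H)).measurable

theorem funB_bdf {Γ : Type} [MeasurableSpace Γ] {H : Measure Γ} {γ : Γ → (E3 ≃ₗᵢ[ℝ] E3)}
    (hH : STH.Haar H γ) (G : E3 → E3 → ℝ)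
    (C : ℝ) (hC : ∀ x y, ‖x‖ = 1 → ‖y‖ = 1 → |G x y| ≤ C) (y : E3) (hy : ‖y‖ = 1) :
    |∫ g, G (γ g (e 2)) (γ g y) ∂H| ≤ C := by
  have := hH.prob
  have h1 := norm_integral_le_of_norm_le_const (μ := H)
    (f := fun g => G (γ g (e 2)) (γ g y)) (C := C) (ae_of_all _ fun g => by
      rw [Real.norm_eq_abs]
      exact hC _ _ (by rw [LinearIsometryEquiv.norm_map, funB_e2])
        (by rw [LinearIsometryEquiv.norm_map, hy]))
  simpa using h1

/-- two independent points -/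
theorem funB_pair {Γ : Type} [MeasurableSpace Γ] {H : Measure Γ} {γ : Γ → (E3 ≃ₗᵢ[ℝ] E3)}
    (hH : STH.Haar H γ) (G : E3 → E3 → ℝ) (hG : Measurable (fun p : E3 × E3 => G p.1 p.2))
    (C : ℝ) (hC : ∀ x y, ‖x‖ = 1 → ‖y‖ = 1 → |G x y| ≤ C) :
    ∫ x, (∫ y, G x y ∂sig) ∂sig =
      1 / 2 * ∫ α in (0:ℝ)..Real.pi, Real.sin α *
        ∫ g, G (γ g (e 2)) (γ g (pt (Real.cos α) 0)) ∂H := by
  have := hH.prob
  have := sigA_prob
  have hfm := funB_measf hH G hG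
  have hfC := funB_bdf hH G C hC
  have h1 : ∫ x, (∫ y, G x y ∂sig) ∂sig
      = ∫ g, ∫ y, G (γ g (e 2)) (γ g y) ∂sig ∂H := by
    have hm : Measurable (fun x : E3 => ∫ y, G x y ∂sig) :=
      (hG.stronglyMeasurable.integral_prod_right' (ν := sig)).measurable
    conv_lhs => rw [← STH.avg_point hH (e 2) funB_e2]
    rw [integral_map (STH.haaB_meas hH (e 2)).aemeasurable]
    · refine integral_congr_ae (ae_of_all _ fun g => ?_)
      show ∫ y, G (γ g (e 2)) y ∂(H.map fun g => γ g (e 2)) = _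
      rw [STH.avg_point hH (e 2) funB_e2]
      conv_lhs => rw [← sigA_map (γ g)]
      rw [integral_map (γ g).continuous.measurable.aemeasurable]
      exact (hG.comp (measurable_const.prodMk measurable_id)).aestronglyMeasurable
    · rw [STH.avg_point hH (e 2) funB_e2]
      exact hm.aestronglyMeasurable
  have h2 : ∫ g, ∫ y, G (γ g (e 2)) (γ g y) ∂sig ∂H
      = ∫ y, ∫ g, G (γ g (e 2)) (γ g y) ∂H ∂sig := by
    refine funB_swap H sig (fun g y => G (γ g (e 2)) (γ g y)) (funB_measK hH G hG) C ?_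
    filter_upwards [sigA_sphere] with y hy g
    exact hC _ _ (by rw [LinearIsometryEquiv.norm_map, funB_e2])
      (by rw [LinearIsometryEquiv.norm_map, hy])
  rw [h1, h2, (sigC_integral _ hfm C hfC).2]
  congr 1
  rw [← funB_sub (fun τ => ∫ g, G (γ g (e 2)) (γ g (pt τ 0)) ∂H)]
  refine intervalIntegral.integral_congr fun τ hτ => ?_
  rw [Set.uIcc_of_le (by norm_num)] at hτ
  have hτ1 : |τ| ≤ 1 := abs_le.2 ⟨hτ.1, hτ.2⟩
  show cm _ τ = _
  unfold cm av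
  have h3 : ∀ φ : ℝ, ∫ g, G (γ g (e 2)) (γ g (pt τ φ)) ∂H
      = ∫ g, G (γ g (e 2)) (γ g (pt τ 0)) ∂H := by
    intro φ
    refine funB_const hH G hG _ _ _ _ funB_e2 (sigC_pt_norm τ φ hτ1) funB_e2
      (sigC_pt_norm τ 0 hτ1) ?_
    rw [funB_inner, funB_inner]
  simp_rw [h3]
  rw [intervalIntegral.integral_const, smul_eq_mul]
  have hpi := Real.pi_pos
  field_simp
  ring

/-- two points on a random great circle -/
theorem funB_circle {Γ : Type} [MeasurableSpace Γ] {H : Measure Γ} {γ : Γ → (E3 ≃ₗᵢ[ℝ] E3)}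
    (hH : STH.Haar H γ) (G : E3 → E3 → ℝ) (hG : Measurable (fun p : E3 × E3 => G p.1 p.2))
    (C : ℝ) (hC : ∀ x y, ‖x‖ = 1 → ‖y‖ = 1 → |G x y| ≤ C) :
    ∫ g, cm (fun x => cm (fun y => G (γ g x) (γ g y)) 0) 0 ∂H =
      1 / Real.pi * ∫ α in (0:ℝ)..Real.pi,
        ∫ g, G (γ g (e 2)) (γ g (pt (Real.cos α) 0)) ∂H := by
  have := hH.prob
  have hpi := Real.pi_pos
  have hfm := funB_measf hH G hG
  have hfC := funB_bdf hH G C hC
  set ν : Measure ℝ := volume.restrict (Set.Ioc (-Real.pi) Real.pi) with hν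
  have hνf : IsFiniteMeasure ν := ⟨by simp [hν]⟩
  set Ψ : ℝ → ℝ := fun α => ∫ g, G (γ g (e 2)) (γ g (pt (Real.cos α) 0)) ∂H with hΨ
  have hp1 : ∀ φ : ℝ, ‖pt 0 φ‖ = 1 := fun φ => sigC_pt_norm 0 φ (by simp)
  have hΨb : ∀ α, |Ψ α| ≤ C := fun α => hfC _ (sigC_pt_norm _ 0 (Real.abs_cos_le_one α))
  have hΨm : Measurable Ψ := by
    have h1 : Measurable (fun α : ℝ => pt (Real.cos α) 0) :=
      sigC_pt_meas.comp (Real.measurable_cos.prodMk measurable_const)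
    exact hfm.comp h1
  -- the joint measurability
  have hγm : Measurable (fun p : Γ × ℝ => γ p.1 (pt 0 p.2)) :=
    hH.meas.comp (measurable_fst.prodMk ((sigC_pt_meas_right 0).comp measurable_snd))
  have hK : Measurable (fun p : (Γ × ℝ) × ℝ =>
      G (γ p.1.1 (pt 0 p.1.2)) (γ p.1.1 (pt 0 p.2))) :=
    hG.comp ((hγm.comp measurable_fst).prodMk
      (hγm.comp ((measurable_fst.comp measurable_fst).prodMk measurable_snd)))
  have hGb : ∀ g φ ψ, |G (γ g (pt 0 φ)) (γ g (pt 0 ψ))| ≤ C := fun g φ ψ =>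
    hC _ _ (by rw [LinearIsometryEquiv.norm_map, hp1]) (by rw [LinearIsometryEquiv.norm_map, hp1])
  have hK1 : Measurable (fun p : Γ × ℝ => ∫ ψ, G (γ p.1 (pt 0 p.2)) (γ p.1 (pt 0 ψ)) ∂ν) :=
    (hK.stronglyMeasurable.integral_prod_right' (ν := ν)).measurable
  have hK1b : ∀ (φ : ℝ) (g : Γ), |∫ ψ, G (γ g (pt 0 φ)) (γ g (pt 0 ψ)) ∂ν|
      ≤ C * ν.real Set.univ := by
    intro φ g
    have h1 := norm_integral_le_of_norm_le_const (μ := ν)
      (f := fun ψ => G (γ g (pt 0 φ)) (γ g (pt 0 ψ))) (C := C)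
      (ae_of_all _ fun ψ => by rw [Real.norm_eq_abs]; exact hGb g φ ψ)
    rwa [Real.norm_eq_abs] at h1
  -- unfolding the means
  have h1 : ∀ g, cm (fun x => cm (fun y => G (γ g x) (γ g y)) 0) 0
      = (2 * Real.pi)⁻¹ * ((2 * Real.pi)⁻¹ *
        ∫ φ, (∫ ψ, G (γ g (pt 0 φ)) (γ g (pt 0 ψ)) ∂ν) ∂ν) := by
    intro g
    rw [sigC_cm_eq]
    congr 1
    rw [← integral_const_mul]
    refine integral_congr_ae (ae_of_all _ fun φ => ?_)
    show cm (fun y => G (γ g (pt 0 φ)) (γ g y)) 0 = _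
    rw [sigC_cm_eq]
  simp_rw [h1]
  rw [integral_const_mul, integral_const_mul]
  have h2 : ∫ g, ∫ φ, (∫ ψ, G (γ g (pt 0 φ)) (γ g (pt 0 ψ)) ∂ν) ∂ν ∂H
      = ∫ φ, ∫ ψ, Ψ (φ - ψ) ∂ν ∂ν := by
    rw [funB_swap H ν (fun g φ => ∫ ψ, G (γ g (pt 0 φ)) (γ g (pt 0 ψ)) ∂ν) hK1
      (C * ν.real Set.univ) (ae_of_all _ fun φ g => hK1b φ g)]
    refine integral_congr_ae (ae_of_all _ fun φ => ?_)
    show ∫ g, ∫ ψ, G (γ g (pt 0 φ)) (γ g (pt 0 ψ)) ∂ν ∂H = _
    rw [funB_swap H ν (fun g ψ => G (γ g (pt 0 φ)) (γ g (pt 0 ψ))) ?_ C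
      (ae_of_all _ fun ψ g => hGb g φ ψ)]
    · refine integral_congr_ae (ae_of_all _ fun ψ => ?_)
      refine funB_const hH G hG _ _ _ _ (hp1 φ) (hp1 ψ) funB_e2
        (sigC_pt_norm _ 0 (Real.abs_cos_le_one _)) ?_
      rw [funB_inner, funB_inner0]
    · exact hK.comp ((measurable_fst.prodMk measurable_const).prodMk measurable_snd)
  have hII : ∀ a b : ℝ, IntervalIntegrable Ψ volume a b := by
    intro a b
    constructor
    · refine Measure.integrableOn_of_bounded (M := C) (by simp) hΨm.aestronglyMeasurable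
        (ae_of_all _ fun α => by rw [Real.norm_eq_abs]; exact hΨb α)
    · refine Measure.integrableOn_of_bounded (M := C) (by simp) hΨm.aestronglyMeasurable
        (ae_of_all _ fun α => by rw [Real.norm_eq_abs]; exact hΨb α)
  have hper : Function.Periodic Ψ (2 * Real.pi) := by
    intro α
    simp only [hΨ, Real.cos_add_two_pi]
  have heven : ∀ α, Ψ (-α) = Ψ α := by
    intro α
    simp only [hΨ, Real.cos_neg]
  have h3 : ∀ φ : ℝ, ∫ ψ, Ψ (φ - ψ) ∂ν = 2 * ∫ α in (0:ℝ)..Real.pi, Ψ α := by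
    intro φ
    have e1 : ∫ ψ, Ψ (φ - ψ) ∂ν = ∫ ψ in (-Real.pi)..Real.pi, Ψ (φ - ψ) := by
      rw [intervalIntegral.integral_of_le (by linarith)]
    rw [e1, intervalIntegral.integral_comp_sub_left]
    have e2 := hper.intervalIntegral_add_eq (φ - Real.pi) (-Real.pi)
    have e3 : φ - Real.pi + 2 * Real.pi = φ - -Real.pi := by ring
    have e4 : -Real.pi + 2 * Real.pi = Real.pi := by ring
    rw [e3, e4] at e2
    rw [e2, ← intervalIntegral.integral_add_adjacent_intervals (hII (-Real.pi) 0) (hII 0 Real.pi)]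
    have e5 : ∫ x in (-Real.pi)..0, Ψ x = ∫ x in (0:ℝ)..Real.pi, Ψ x := by
      have e6 := intervalIntegral.integral_comp_neg (a := (0:ℝ)) (b := Real.pi) Ψ
      rw [neg_zero] at e6
      rw [← e6]
      refine intervalIntegral.integral_congr fun x _ => ?_
      exact heven x
    rw [e5]
    ring
  rw [h2]
  simp_rw [h3]
  rw [integral_const, hν]
  have h4 : (volume.restrict (Set.Ioc (-Real.pi) Real.pi)).real Set.univ = 2 * Real.pi := by
    rw [measureReal_restrict_apply MeasurableSet.univ, Set.univ_inter, Real.volume_real_Ioc,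
      max_eq_left (by linarith)]
    ring
  rw [h4, smul_eq_mul]
  field_simp

end STB
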