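import Pool.Agent.Lib_helper15.STB.Defs
import Pool.Agent.Lib_helper15.STB.B.funA
import Pool.Agent.Lib_helper15.STB.B.funB
import Pool.Agent.Lib_helper59.STHF.haaE
import Pool.Agent.Lib_helper15.STE.B.sigA
import Pool.Agent.Lib_helper15.STE.B.sigC

/-! # STB, block funC : the Funk transform contracts (uses funA, funB) -/

open MeasureTheory Filter Topology
open scoped InnerProductSpace
open Pool.Agent.Lib_helper15.STE

namespace STB

theorem funC_ii (a b : ℝ) (f : ℝ → ℝ) (hf : Measurable f) (C : ℝ) (hC : ∀ t, |f t| ≤ C) :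
    IntervalIntegrable f volume a b := by
  rw [intervalIntegrable_iff]
  refine Integrable.mono' (g := fun _ => C) ?_ hf.aestronglyMeasurable ?_
  · exact (integrableOn_const (by
      rw [Set.uIoc_eq_union]
      exact (measure_union_lt_top (by simp) (by simp)).ne)).integrable
  · exact Filter.Eventually.of_forall fun t => by rw [Real.norm_eq_abs]; exact hC t

/-- the average of the squared differences -/
theorem funC_av (f : ℝ → ℝ) (hf : Measurable f) (C : ℝ) (hC : ∀ t, |f t| ≤ C) :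
    av (fun φ => av (fun ψ => (f φ - f ψ) ^ 2)) = 2 * av (fun φ => f φ ^ 2) - 2 * av f ^ 2 := by
  have hpi := Real.pi_pos
  have hC0 : 0 ≤ C := (abs_nonneg _).trans (hC 0)
  have i1 : IntervalIntegrable f volume (-Real.pi) Real.pi := funC_ii _ _ f hf C hC
  have i2 : IntervalIntegrable (fun t => f t ^ 2) volume (-Real.pi) Real.pi := by
    refine funC_ii _ _ _ (hf.pow_const 2) (C ^ 2) fun t => ?_
    rw [abs_pow]
    exact pow_le_pow_left₀ (abs_nonneg _) (hC t) 2
  set m := av f with hm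
  set s := av (fun φ => f φ ^ 2) with hs
  have hI1 : ∫ φ in (-Real.pi)..Real.pi, f φ = 2 * Real.pi * m := by
    rw [hm, av]; field_simp
  have hI2 : ∫ φ in (-Real.pi)..Real.pi, f φ ^ 2 = 2 * Real.pi * s := by
    rw [hs, av]; field_simp
  have h1 : ∀ φ, av (fun ψ => (f φ - f ψ) ^ 2) = f φ ^ 2 - 2 * m * f φ + s := by
    intro φ
    have h2 : ∫ ψ in (-Real.pi)..Real.pi, (f φ - f ψ) ^ 2
        = ∫ ψ in (-Real.pi)..Real.pi, (f φ ^ 2 - 2 * f φ * f ψ + f ψ ^ 2) := by
      congr 1
      funext ψ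
      ring
    rw [av, h2, intervalIntegral.integral_add (by
      exact (intervalIntegrable_const).sub (i1.const_mul _)) i2,
      intervalIntegral.integral_sub intervalIntegrable_const (i1.const_mul _),
      intervalIntegral.integral_const, intervalIntegral.integral_const_mul, hI1, hI2,
      smul_eq_mul]
    field_simp
    ring
  simp_rw [h1]
  rw [av, intervalIntegral.integral_add (i2.sub (i1.const_mul _)) intervalIntegrable_const,
    intervalIntegral.integral_sub i2 (i1.const_mul _), intervalIntegral.integral_const_mul,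
    intervalIntegral.integral_const, hI1, hI2, smul_eq_mul]
  field_simp
  ring

theorem funC_num (c : ℝ) (s : ℝ) (hcs : s ^ 2 + c ^ 2 = 1) :
    √5 * (s * (7 + 5 * c ^ 2)) ≤ 16 := by
  have h5 : √5 ^ 2 = 5 := Real.sq_sqrt (by norm_num)
  have h50 : 0 ≤ √5 := Real.sqrt_nonneg _
  have h1 : (√5 * (s * (7 + 5 * c ^ 2))) ^ 2 ≤ 16 ^ 2 := by
    have h2 : (√5 * (s * (7 + 5 * c ^ 2))) ^ 2 = 5 * ((1 - c ^ 2) * (7 + 5 * c ^ 2) ^ 2) := by
      rw [mul_pow, h5, mul_pow]
      have : s ^ 2 = 1 - c ^ 2 := by linarith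
      rw [this]
    rw [h2]
    have h3 : 0 ≤ c ^ 2 := sq_nonneg c
    nlinarith [mul_nonneg (sq_nonneg (c ^ 2 - 1 / 5)) h3, sq_nonneg (c ^ 2 - 1 / 5)]
  exact le_of_sq_le_sq h1 (by norm_num)

/-- expectation over the sphere of the squared differences -/
theorem funC_var (F : E3 → ℝ) (hF : Measurable F) (C : ℝ) (hC : ∀ x, ‖x‖ = 1 → |F x| ≤ C) :
    ∫ x, (F x - ∫ y, F y ∂sig) ^ 2 ∂sig = (∫ x, F x ^ 2 ∂sig) - (∫ y, F y ∂sig) ^ 2 ∧
    ∫ x, (∫ y, (F x - F y) ^ 2 ∂sig) ∂sig = 2 * ∫ x, (F x - ∫ y, F y ∂sig) ^ 2 ∂sig := by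
  have := sigA_prob
  have hC0 : 0 ≤ C := (abs_nonneg _).trans (hC (e 2) STH.haaE_e2)
  have i1 : Integrable F sig := by
    refine Integrable.of_bound hF.aestronglyMeasurable C ?_
    filter_upwards [sigA_sphere] with x hx
    exact hC x hx
  have i2 : Integrable (fun x => F x ^ 2) sig := by
    refine Integrable.of_bound (hF.pow_const 2).aestronglyMeasurable (C ^ 2) ?_
    filter_upwards [sigA_sphere] with x hx
    rw [Real.norm_eq_abs, abs_pow]
    exact pow_le_pow_left₀ (abs_nonneg _) (hC x hx) 2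
  set m := ∫ y, F y ∂sig with hm
  set s := ∫ y, F y ^ 2 ∂sig with hs
  have key : ∀ a : ℝ, ∫ y, (a - F y) ^ 2 ∂sig = a ^ 2 - 2 * a * m + s := by
    intro a
    have h2 : ∫ y, (a - F y) ^ 2 ∂sig = ∫ y, ((a ^ 2 - 2 * a * F y) + F y ^ 2) ∂sig := by
      congr 1
      funext y
      ring
    have j1 : Integrable (fun y => a ^ 2 - 2 * a * F y) sig :=
      (integrable_const _).sub (i1.const_mul _)
    rw [h2, integral_add j1 i2,
      integral_sub (integrable_const _) (i1.const_mul _), integral_const_mul, integral_const]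
    simp only [probReal_univ, one_smul]
    rw [← hm, ← hs]
  have h1 : ∫ x, (F x - m) ^ 2 ∂sig = s - m ^ 2 := by
    have h2 : ∫ x, (F x - m) ^ 2 ∂sig = ∫ x, (m - F x) ^ 2 ∂sig := by
      congr 1
      funext y
      ring
    rw [h2, key]
    ring
  refine ⟨h1, ?_⟩
  simp_rw [key]
  have j2 : Integrable (fun x => F x ^ 2 - 2 * F x * m) sig :=
    i2.sub ((i1.const_mul 2).mul_const m)
  rw [integral_add j2 (integrable_const _)]
  rw [integral_sub i2 ((i1.const_mul 2).mul_const m), integral_mul_const, integral_const_mul,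
    integral_const]
  simp only [probReal_univ, one_smul]
  rw [← hm, ← hs, h1]
  ring

theorem funC_main {Γ : Type} [MeasurableSpace Γ] {H : Measure Γ} {γ : Γ → (E3 ≃ₗᵢ[ℝ] E3)}
    (hH : STH.Haar H γ) (F : E3 → ℝ) (hF : Measurable F) (C : ℝ)
    (hC : ∀ x, ‖x‖ = 1 → |F x| ≤ C) :
    Integrable (fun g => cm (F ∘ γ g) 0) H ∧
    Integrable (fun g => (cm (F ∘ γ g) 0 - ∫ x, F x ∂sig) ^ 2) H ∧
    ∫ g, (cm (F ∘ γ g) 0 - ∫ x, F x ∂sig) ^ 2 ∂H ≤
      (1 - √5 / Real.pi) * ∫ x, (F x - ∫ y, F y ∂sig) ^ 2 ∂sig ∧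
    ∫ g, cm (F ∘ γ g) 0 ∂H = ∫ x, F x ∂sig := by
  have hpr := hH.prob
  have hsp := sigA_prob
  have hpi := Real.pi_pos
  have hC0 : 0 ≤ C := (abs_nonneg _).trans (hC (e 2) STH.haaE_e2)
  have hF2m : Measurable fun x => F x ^ 2 := hF.pow_const 2
  have hC2 : ∀ x, ‖x‖ = 1 → |F x ^ 2| ≤ C ^ 2 := fun x hx => by
    rw [abs_pow]
    exact pow_le_pow_left₀ (abs_nonneg _) (hC x hx) 2
  obtain ⟨hv1, hv2⟩ := funC_var F hF C hC
  have hA := funA_main F hF C hC
  set m := ∫ y, F y ∂sig with hm
  set s := ∫ y, F y ^ 2 ∂sig with hs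
  set V := ∫ x, (F x - m) ^ 2 ∂sig with hV
  set c : Γ → ℝ := fun g => cm (fun x => F (γ g x)) 0 with hc
  set c2 : Γ → ℝ := fun g => cm (fun x => F (γ g x) ^ 2) 0 with hc2
  have h00 : |(0 : ℝ)| ≤ 1 := by norm_num
  have hcm : Measurable c := by
    have h1 := (STH.haaE_m2 hH hF).comp (measurable_id.prodMk (measurable_const (a := (0 : ℝ))))
    exact h1
  have hc2m : Measurable c2 := by
    have h1 := (STH.haaE_m2 hH hF2m).comp (measurable_id.prodMk (measurable_const (a := (0 : ℝ))))
    exact h1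
  have hcb : ∀ g, |c g| ≤ C := fun g => sigC_cm_bound _ C
    (fun x hx => hC _ (by rw [LinearIsometryEquiv.norm_map]; exact hx)) 0 h00
  have hc2b : ∀ g, |c2 g| ≤ C ^ 2 := fun g => sigC_cm_bound _ (C ^ 2)
    (fun x hx => hC2 _ (by rw [LinearIsometryEquiv.norm_map]; exact hx)) 0 h00
  have ic : Integrable c H := Integrable.of_bound hcm.aestronglyMeasurable C
    (Filter.Eventually.of_forall hcb)
  have ic2 : Integrable c2 H := Integrable.of_bound hc2m.aestronglyMeasurable (C ^ 2)
    (Filter.Eventually.of_forall hc2b)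
  have icc : Integrable (fun g => c g ^ 2) H := by
    refine Integrable.of_bound (hcm.pow_const 2).aestronglyMeasurable (C ^ 2)
      (Filter.Eventually.of_forall fun g => ?_)
    rw [Real.norm_eq_abs, abs_pow]
    exact pow_le_pow_left₀ (abs_nonneg _) (hcb g) 2
  have hcI : ∫ g, c g ∂H = m := by
    have h1 := STH.haaE_swap hH hF hC (w := fun _ => 1) measurable_const (C' := 1)
      (fun g => by norm_num) 0 h00 m (fun φ => by
        simp only [mul_one]
        exact STH.haaE_pt hH hF _ (sigC_pt_norm 0 φ h00))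
    simp only [mul_one] at h1
    exact h1
  have hc2I : ∫ g, c2 g ∂H = s := by
    have h1 := STH.haaE_swap hH hF2m hC2 (w := fun _ => 1) measurable_const (C' := 1)
      (fun g => by norm_num) 0 h00 s (fun φ => by
        simp only [mul_one]
        exact STH.haaE_pt hH hF2m _ (sigC_pt_norm 0 φ h00))
    simp only [mul_one] at h1
    exact h1
  have icm : Integrable (fun g => (c g - m) ^ 2) H := by
    have h1 : (fun g => (c g - m) ^ 2) = fun g => (c g ^ 2 - 2 * m * c g) + m ^ 2 := by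
      funext g; ring
    rw [h1]
    exact (icc.sub (ic.const_mul _)).add (integrable_const _)
  have hcmI : ∫ g, (c g - m) ^ 2 ∂H = (∫ g, c g ^ 2 ∂H) - m ^ 2 := by
    have h1 : ∫ g, (c g - m) ^ 2 ∂H = ∫ g, ((c g ^ 2 - 2 * m * c g) + m ^ 2) ∂H := by
      congr 1
      funext g; ring
    have j3 : Integrable (fun g => c g ^ 2 - 2 * m * c g) H := icc.sub (ic.const_mul _)
    rw [h1, integral_add j3 (integrable_const _),
      integral_sub icc (ic.const_mul _), integral_const_mul, integral_const, hcI]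
    simp only [probReal_univ, one_smul]
    ring

  have hG : Measurable (fun p : E3 × E3 => (F p.1 - F p.2) ^ 2) :=
    ((hF.comp measurable_fst).sub (hF.comp measurable_snd)).pow_const 2
  have hGb : ∀ x y, ‖x‖ = 1 → ‖y‖ = 1 → |(F x - F y) ^ 2| ≤ (2 * C) ^ 2 := by
    intro x y hx hy
    rw [abs_pow]
    refine pow_le_pow_left₀ (abs_nonneg _) ?_ 2
    refine (abs_sub _ _).trans ?_
    have := hC x hx
    have := hC y hy
    linarith
  have hcirc := funB_circle hH (fun x y => (F x - F y) ^ 2) hG ((2 * C) ^ 2) hGb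
  have hper : ∀ g, cm (fun x => cm (fun y => (F (γ g x) - F (γ g y)) ^ 2) 0) 0
      = 2 * c2 g - 2 * c g ^ 2 := by
    intro g
    have hfm : Measurable (fun φ => F (γ g (pt 0 φ))) :=
      hF.comp ((γ g).continuous.measurable.comp (sigC_pt_meas_right 0))
    exact funC_av (fun φ => F (γ g (pt 0 φ))) hfm C (fun φ => hC _ (by
      rw [LinearIsometryEquiv.norm_map]; exact sigC_pt_norm 0 φ h00))
  simp_rw [hper] at hcirc
  rw [integral_sub (ic2.const_mul 2) (icc.const_mul 2), integral_const_mul, integral_const_mul,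
    hc2I] at hcirc

  set E : ℝ → ℝ := fun α => ∫ g, (F (γ g (e 2)) - F (γ g (pt (Real.cos α) 0))) ^ 2 ∂H with hE
  have hcosb : ∀ α : ℝ, |Real.cos α| ≤ 1 := fun α => Real.abs_cos_le_one α
  have hptn : ∀ α : ℝ, ‖pt (Real.cos α) 0‖ = 1 := fun α => sigC_pt_norm _ _ (hcosb α)
  have hEm : Measurable E := by
    have h1 : Measurable (fun q : ℝ × Γ => (F (γ q.2 (e 2)) - F (γ q.2 (pt (Real.cos q.1) 0))) ^ 2) := by
      have h2 : Measurable (fun q : ℝ × Γ => γ q.2 (e 2)) :=
        hH.meas.comp (measurable_snd.prodMk measurable_const)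
      have h3 : Measurable (fun q : ℝ × Γ => γ q.2 (pt (Real.cos q.1) 0)) := by
        refine hH.meas.comp (measurable_snd.prodMk ?_)
        exact sigC_pt_meas.comp ((Real.measurable_cos.comp measurable_fst).prodMk measurable_const)
      exact ((hF.comp h2).sub (hF.comp h3)).pow_const 2
    exact (h1.stronglyMeasurable.integral_prod_right' (ν := H)).measurable
  have hE0 : ∀ α, 0 ≤ E α := fun α => integral_nonneg fun g => by positivity
  have hEb : ∀ α, |E α| ≤ (2 * C) ^ 2 := by
    intro α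
    have h1 : ‖E α‖ ≤ (2 * C) ^ 2 * H.real Set.univ := by
      apply norm_integral_le_of_norm_le_const
      refine Filter.Eventually.of_forall fun g => ?_
      exact hGb _ _ (by rw [LinearIsometryEquiv.norm_map]; exact STH.haaE_e2)
        (by rw [LinearIsometryEquiv.norm_map]; exact hptn α)
    rw [probReal_univ, mul_one] at h1
    exact h1

  have hG2 : Measurable (fun p : E3 × E3 => (F p.1 - F p.2) ^ 2 * (7 + 5 * ⟪p.1, p.2⟫_ℝ ^ 2)) := by
    refine hG.mul (measurable_const.add (measurable_const.mul (Measurable.pow_const ?_ 2)))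
    exact (continuous_fst.inner continuous_snd).measurable
  have hinb : ∀ x y : E3, ‖x‖ = 1 → ‖y‖ = 1 → |⟪x, y⟫_ℝ ^ 2| ≤ 1 := by
    intro x y hx hy
    have h1 := abs_real_inner_le_norm x y
    rw [hx, hy, one_mul] at h1
    rw [abs_pow]
    exact pow_le_one₀ (abs_nonneg _) h1
  have hG2b : ∀ x y : E3, ‖x‖ = 1 → ‖y‖ = 1 →
      |(F x - F y) ^ 2 * (7 + 5 * ⟪x, y⟫_ℝ ^ 2)| ≤ (2 * C) ^ 2 * 12 := by
    intro x y hx hy
    rw [abs_mul]
    refine mul_le_mul (hGb x y hx hy) ?_ (abs_nonneg _) (by positivity)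
    have h1 := hinb x y hx hy
    rw [abs_of_nonneg (sq_nonneg _)] at h1
    rw [abs_of_nonneg (by positivity)]
    linarith
  have hpair := funB_pair hH (fun x y => (F x - F y) ^ 2 * (7 + 5 * ⟪x, y⟫_ℝ ^ 2)) hG2
    ((2 * C) ^ 2 * 12) hG2b
  have hin2 : ∀ (g : Γ) (α : ℝ), ⟪γ g (e 2), γ g (pt (Real.cos α) 0)⟫_ℝ = Real.cos α := by
    intro g α
    rw [LinearIsometryEquiv.inner_map_map]
    unfold e
    rw [EuclideanSpace.inner_single_left]
    simp [pt]
  have hpair2 : ∀ α, ∫ g, (F (γ g (e 2)) - F (γ g (pt (Real.cos α) 0))) ^ 2 *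
      (7 + 5 * ⟪γ g (e 2), γ g (pt (Real.cos α) 0)⟫_ℝ ^ 2) ∂H = E α * (7 + 5 * Real.cos α ^ 2) := by
    intro α
    simp_rw [hin2]
    rw [integral_mul_const]
  simp_rw [hpair2] at hpair

  have hlow : 16 * V ≤ ∫ x, (∫ y, (F x - F y) ^ 2 * (7 + 5 * ⟪x, y⟫_ℝ ^ 2) ∂sig) ∂sig := by
    have hia : ∀ᵐ x ∂sig, Integrable (fun y => (F x - F y) ^ 2) sig := by
      filter_upwards [sigA_sphere] with x hx
      refine Integrable.of_bound
        ((measurable_const.sub hF).pow_const 2).aestronglyMeasurable ((2 * C) ^ 2) ?_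
      filter_upwards [sigA_sphere] with y hy
      exact hGb x y hx hy
    have hinm : Measurable (fun p : E3 × E3 => (F p.1 - F p.2) ^ 2 * ⟪p.1, p.2⟫_ℝ ^ 2) :=
      hG.mul ((continuous_fst.inner continuous_snd).measurable.pow_const 2)
    have hib : ∀ᵐ x ∂sig, Integrable (fun y => (F x - F y) ^ 2 * ⟪x, y⟫_ℝ ^ 2) sig := by
      filter_upwards [sigA_sphere] with x hx
      refine Integrable.of_bound
        (hinm.comp (measurable_const.prodMk measurable_id)).aestronglyMeasurable ((2 * C) ^ 2 * 1) ?_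
      filter_upwards [sigA_sphere] with y hy
      rw [Real.norm_eq_abs, abs_mul]
      exact mul_le_mul (hGb x y hx hy) (hinb x y hx hy) (abs_nonneg _) (by positivity)
    have hja : Integrable (fun x => ∫ y, (F x - F y) ^ 2 ∂sig) sig := by
      refine Integrable.of_bound
        (hG.stronglyMeasurable.integral_prod_right' (ν := sig)).aestronglyMeasurable
        ((2 * C) ^ 2 * sig.real Set.univ) ?_
      filter_upwards [sigA_sphere] with x hx
      apply norm_integral_le_of_norm_le_const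
      filter_upwards [sigA_sphere] with y hy
      exact hGb x y hx hy
    have hjb : Integrable (fun x => ∫ y, (F x - F y) ^ 2 * ⟪x, y⟫_ℝ ^ 2 ∂sig) sig := by
      refine Integrable.of_bound
        (hinm.stronglyMeasurable.integral_prod_right' (ν := sig)).aestronglyMeasurable
        ((2 * C) ^ 2 * 1 * sig.real Set.univ) ?_
      filter_upwards [sigA_sphere] with x hx
      apply norm_integral_le_of_norm_le_const
      filter_upwards [sigA_sphere] with y hy
      rw [Real.norm_eq_abs, abs_mul]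
      exact mul_le_mul (hGb x y hx hy) (hinb x y hx hy) (abs_nonneg _) (by positivity)
    have h1 : ∫ x, (∫ y, (F x - F y) ^ 2 * (7 + 5 * ⟪x, y⟫_ℝ ^ 2) ∂sig) ∂sig
        = ∫ x, (7 * (∫ y, (F x - F y) ^ 2 ∂sig)
          + 5 * ∫ y, (F x - F y) ^ 2 * ⟪x, y⟫_ℝ ^ 2 ∂sig) ∂sig := by
      apply integral_congr_ae
      filter_upwards [hia, hib] with x hxa hxb
      rw [← integral_const_mul, ← integral_const_mul, ← integral_add (hxa.const_mul 7)
        (hxb.const_mul 5)]
      congr 1
      funext y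
      ring
    rw [h1, integral_add (hja.const_mul 7) (hjb.const_mul 5), integral_const_mul,
      integral_const_mul, hv2]
    linarith

  have hcomp : √5 / (8 * Real.pi) * (1 / 2 * ∫ α in (0:ℝ)..Real.pi,
      Real.sin α * (E α * (7 + 5 * Real.cos α ^ 2))) ≤ 1 / Real.pi * ∫ α in (0:ℝ)..Real.pi, E α := by
    rw [← mul_assoc, ← intervalIntegral.integral_const_mul, ← intervalIntegral.integral_const_mul]
    have hm1 : Measurable (fun α => Real.sin α * (E α * (7 + 5 * Real.cos α ^ 2))) := by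
      refine Real.measurable_sin.mul (hEm.mul (measurable_const.add (measurable_const.mul
        (Real.measurable_cos.pow_const 2))))
    apply intervalIntegral.integral_mono_on hpi.le
    · apply IntervalIntegrable.const_mul
      refine funC_ii _ _ _ hm1 (1 * ((2 * C) ^ 2 * 12)) fun α => ?_
      rw [abs_mul, abs_mul]
      refine mul_le_mul (Real.abs_sin_le_one α) (mul_le_mul (hEb α) ?_ (abs_nonneg _)
        (by positivity)) (by positivity) (by norm_num)
      rw [abs_of_nonneg (by positivity)]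
      have := Real.cos_sq_le_one α
      linarith
    · apply IntervalIntegrable.const_mul
      exact funC_ii _ _ _ hEm _ hEb
    · intro α _
      have h1 := funC_num (Real.cos α) (Real.sin α) (Real.sin_sq_add_cos_sq α)
      have h2 : √5 / (8 * Real.pi) * (1 / 2) * (Real.sin α * (E α * (7 + 5 * Real.cos α ^ 2)))
          = (√5 * (Real.sin α * (7 + 5 * Real.cos α ^ 2))) * (E α / (16 * Real.pi)) := by
        field_simp
        ring
      have h3 : 1 / Real.pi * E α = 16 * (E α / (16 * Real.pi)) := by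
        field_simp
      rw [h2, h3]
      exact mul_le_mul_of_nonneg_right h1 (div_nonneg (hE0 α) (by positivity))
  refine ⟨ic, icm, ?_, hcI⟩
  show ∫ g, (c g - m) ^ 2 ∂H ≤ (1 - √5 / Real.pi) * V
  have hfin : √5 / (8 * Real.pi) * (16 * V) ≤ 2 * s - 2 * ∫ g, c g ^ 2 ∂H := by
    rw [hcirc]
    refine le_trans ?_ hcomp
    rw [← hpair]
    exact mul_le_mul_of_nonneg_left hlow (by positivity)
  have h5 : √5 / (8 * Real.pi) * (16 * V) = 2 * (√5 / Real.pi * V) := by
    field_simp
    ring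
  rw [h5] at hfin
  rw [hcmI]
  have h6 : V = s - m ^ 2 := hv1
  linarith

end STB
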