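import Pool.Agent.Lib_helper15.STB.DefsC
import Pool.Agent.Lib_helper15.STE.B.ball

/-! # STB, block kbl (helper53) : the infimum for the ball -/

open MeasureTheory Filter Topology
open scoped InnerProductSpace
open Pool.Agent.Lib_helper15.STE

namespace STB

/-- distance to a point of the points of a plane -/
theorem kbl_dist (P : E2 →ᵃⁱ[ℝ] E3) (c : E3) :
    ∃ (y0 : E2) (s : ℝ), ∀ y, ‖P y - c‖ ^ 2 = ‖y - y0‖ ^ 2 + s := by
  set A : E2 →ₗᵢ[ℝ] E3 := P.linearIsometry with hA
  have hP : ∀ y, P y = A y + P 0 := by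
    intro y
    have h := P.map_vadd 0 y
    simpa using h
  set w : E3 := c - P 0 with hw
  set y0 : E2 := ContinuousLinearMap.adjoint A.toContinuousLinearMap w with hy0
  refine ⟨y0, ‖w‖ ^ 2 - ‖y0‖ ^ 2, fun y => ?_⟩
  have h1 : P y - c = A y - w := by rw [hP, hw]; abel
  have h2 : ⟪A y, w⟫_ℝ = ⟪y, y0⟫_ℝ := by
    rw [hy0, ContinuousLinearMap.adjoint_inner_right]
    rfl
  rw [h1, norm_sub_sq_real (A y) w, norm_sub_sq_real y y0, h2, A.norm_map]
  ring

/-- a plane section of a ball of positive area is a disc -/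
theorem kbl_disc (P : E2 →ᵃⁱ[ℝ] E3) (c : E3) (r : ℝ) (hr : 0 < r)
    (h : 0 < volume (P ⁻¹' (Metric.closedBall c r))) :
    ∃ (y0 : E2) (ρ : ℝ), 0 < ρ ∧ P ⁻¹' (Metric.closedBall c r) = Metric.closedBall y0 ρ := by
  obtain ⟨y0, s, hs⟩ := kbl_dist P c
  have hmem : ∀ y, y ∈ P ⁻¹' (Metric.closedBall c r) ↔ ‖y - y0‖ ^ 2 ≤ r ^ 2 - s := by
    intro y
    rw [Set.mem_preimage, Metric.mem_closedBall, dist_eq_norm]
    have h1 := hs y
    constructor
    · intro h2
      have h3 : ‖P y - c‖ ^ 2 ≤ r ^ 2 := pow_le_pow_left₀ (norm_nonneg _) h2 2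
      linarith
    · intro h2
      have h3 : ‖P y - c‖ ^ 2 ≤ r ^ 2 := by linarith
      exact (pow_le_pow_iff_left₀ (norm_nonneg _) hr.le two_ne_zero).1 h3
  have hne : 0 ≤ r ^ 2 - s := by
    by_contra hcon
    push Not at hcon
    have h1 : P ⁻¹' (Metric.closedBall c r) = ∅ := by
      rw [Set.eq_empty_iff_forall_notMem]
      intro y hy
      have := (hmem y).1 hy
      have h2 : 0 ≤ ‖y - y0‖ ^ 2 := by positivity
      linarith
    rw [h1, measure_empty] at h
    exact lt_irrefl _ h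
  have hset : P ⁻¹' (Metric.closedBall c r) = Metric.closedBall y0 (√(r ^ 2 - s)) := by
    ext y
    rw [hmem, Metric.mem_closedBall, dist_eq_norm]
    rw [Real.le_sqrt (norm_nonneg _) hne]
  refine ⟨y0, √(r ^ 2 - s), ?_, hset⟩
  rcases (Real.sqrt_nonneg (r ^ 2 - s)).lt_or_eq with h1 | h1
  · exact h1
  · exfalso
    rw [hset, ← h1, ball_vol2 _ _ le_rfl] at h
    simp at h

theorem kbl_ratio (y0 : E2) (ρ : ℝ) (hρ : 0 < ρ) :
    (volume (Metric.closedBall y0 ρ)).toReal / (bd (Metric.closedBall y0 ρ)).toReal ^ 2 =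
      1 / (4 * Real.pi) := by
  have hpi := Real.pi_pos
  rw [ball_bd2 _ _ hρ.le, ball_vol2 _ _ hρ.le, ENNReal.toReal_ofReal (by positivity),
    ENNReal.toReal_ofReal (by positivity)]
  field_simp
  ring

theorem kbl_main (c : E3) (r : ℝ) (hr : 0 < r) :
    kap (Metric.closedBall c r) = 1 / (4 * Real.pi) ∧
    (volume (Metric.closedBall c r)).toReal ^ 2 / (bd (Metric.closedBall c r)).toReal ^ 3 =
      4 * Real.pi / 9 * kap (Metric.closedBall c r) ^ 2 := by
  have hpi := Real.pi_pos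
  have h1 : 1 / (4 * Real.pi) ∈ iot (Metric.closedBall c r) := by
    refine ⟨(AffineIsometryEquiv.vaddConst ℝ c).toAffineIsometry.comp
      ball_lin.toAffineIsometry, ?_⟩
    have h2 : ((AffineIsometryEquiv.vaddConst ℝ c).toAffineIsometry.comp
        ball_lin.toAffineIsometry) ⁻¹' (Metric.closedBall c r) =
        Metric.closedBall (0 : E2) r := by
      ext y
      rw [Set.mem_preimage, Metric.mem_closedBall, mem_closedBall_zero_iff]
      have h3 : dist (((AffineIsometryEquiv.vaddConst ℝ c).toAffineIsometry.comp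
          ball_lin.toAffineIsometry) y) c = ‖y‖ := by
        simp [dist_eq_norm]
      rw [h3]
    rw [h2, kbl_ratio 0 r hr, ball_vol2 _ _ hr.le]
    exact ⟨ENNReal.ofReal_pos.2 (by positivity), rfl⟩
  have h2 : iot (Metric.closedBall c r) = {1 / (4 * Real.pi)} := by
    ext x
    rw [Set.mem_singleton_iff]
    constructor
    · rintro ⟨P, hP, rfl⟩
      obtain ⟨y0, ρ, hρ, hset⟩ := kbl_disc P c r hr hP
      rw [hset, kbl_ratio y0 ρ hρ]
    · rintro rfl
      exact h1
  have h3 : kap (Metric.closedBall c r) = 1 / (4 * Real.pi) := by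
    rw [kap, h2, csInf_singleton]
  refine ⟨h3, ?_⟩
  rw [h3, ball_bd3 _ _ hr.le, ball_vol3 _ _ hr.le, ENNReal.toReal_ofReal (by positivity),
    ENNReal.toReal_ofReal (by positivity)]
  field_simp
  ring

end STB
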