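import Pool.Agent.Lib_helper15.STB.DefsC
import Pool.Agent.Lib_helper15.STB.B.seg

/-! # STB, block lbm : linear Brunn-Minkowski inequality with a disc of the same width (helper33) -/

open MeasureTheory Filter Topology
open scoped InnerProductSpace
open Pool.Agent.Lib_helper15.STE

namespace STB

theorem lbm_dist (φ : ℝ) (p q : ℝ × ℝ) :
    dist (seg_H φ p) (seg_H φ q) = √((p.1 - q.1) ^ 2 + (p.2 - q.2) ^ 2) := by
  rw [EuclideanSpace.dist_eq, Fin.sum_univ_two, Real.dist_eq, Real.dist_eq, sq_abs, sq_abs]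
  congr 1
  show (p.1 * Real.cos φ - p.2 * Real.sin φ - (q.1 * Real.cos φ - q.2 * Real.sin φ)) ^ 2 +
    (p.1 * Real.sin φ + p.2 * Real.cos φ - (q.1 * Real.sin φ + q.2 * Real.cos φ)) ^ 2 =
    (p.1 - q.1) ^ 2 + (p.2 - q.2) ^ 2
  linear_combination ((p.1 - q.1) ^ 2 + (p.2 - q.2) ^ 2) * Real.sin_sq_add_cos_sq φ

theorem lbm_key (φ : ℝ) (A : Set E2) (hA : IsCompact A) :
    volume A = volume (seg_G φ '' A) ∧ IsCompact (seg_G φ '' A) := by
  have h1 : IsCompact (seg_G φ '' A) := hA.image (seg_Gc φ)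
  refine ⟨?_, h1⟩
  have h2 : seg_G φ ⁻¹' (seg_G φ '' A) = A := by
    apply Set.preimage_image_eq
    intro x y hxy
    rw [← seg_HG φ x, hxy, seg_HG]
  rw [← (seg_mp φ).measure_preimage h1.measurableSet.nullMeasurableSet, h2]

theorem lbm_disc (a : ℝ) (ha : 0 ≤ a) :
    ∫⁻ u : ℝ, volume {v : ℝ | u ^ 2 + v ^ 2 ≤ a ^ 2} = ENNReal.ofReal (Real.pi * a ^ 2) := by
  have h1 : volume (Metric.closedBall (0 : E2) a) = ENNReal.ofReal (Real.pi * a ^ 2) := by
    rw [EuclideanSpace.volume_closedBall_fin_two, mul_comm Real.pi,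
      ENNReal.ofReal_mul (by positivity), ENNReal.ofReal_pow ha]
  have hcl : MeasurableSet {p : ℝ × ℝ | p.1 ^ 2 + p.2 ^ 2 ≤ a ^ 2} :=
    (isClosed_le (by fun_prop) continuous_const).measurableSet
  have h2 : seg_G 0 ⁻¹' {p : ℝ × ℝ | p.1 ^ 2 + p.2 ^ 2 ≤ a ^ 2} = Metric.closedBall (0 : E2) a := by
    ext y
    rw [mem_closedBall_zero_iff, EuclideanSpace.norm_eq, Fin.sum_univ_two, Real.norm_eq_abs,
      Real.norm_eq_abs, sq_abs, sq_abs, Real.sqrt_le_left ha]
    show (y 0 * Real.cos 0 + y 1 * Real.sin 0) ^ 2 +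
      (-(y 0 * Real.sin 0) + y 1 * Real.cos 0) ^ 2 ≤ a ^ 2 ↔ _
    simp
  rw [← h1, ← h2, (seg_mp 0).measure_preimage hcl.nullMeasurableSet, Measure.volume_eq_prod,
    Measure.prod_apply hcl]
  rfl

theorem lbm_half (g : ℝ → ENNReal) (hg : Measurable g) (c : ℝ) :
    ∫⁻ τ : ℝ, g ((τ + c) / 2) = 2 * ∫⁻ u : ℝ, g u := by
  have h1 : ∫⁻ τ : ℝ, g ((τ + c) / 2) = ∫⁻ τ : ℝ, g (τ / 2) :=
    lintegral_add_right_eq_self (μ := (volume : Measure ℝ)) (fun τ => g (τ / 2)) c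
  rw [h1]
  have h2 := Real.smul_map_volume_mul_left (a := (1 / 2 : ℝ)) (by norm_num)
  have h3 : ∫⁻ u : ℝ, g u = ENNReal.ofReal |(1 / 2 : ℝ)| * ∫⁻ τ : ℝ, g (τ / 2) := by
    conv_lhs => rw [← h2]
    rw [lintegral_smul_measure, lintegral_map hg (by fun_prop)]
    rw [smul_eq_mul]
    congr 1
    refine lintegral_congr fun τ => ?_
    congr 1
    ring
  rw [h3, ← mul_assoc]
  have h4 : (2 : ENNReal) * ENNReal.ofReal |(1 / 2 : ℝ)| = 1 := by
    rw [abs_of_pos (by norm_num : (0:ℝ) < 1 / 2)]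
    rw [show (2 : ENNReal) = ENNReal.ofReal 2 by norm_num, ← ENNReal.ofReal_mul (by norm_num)]
    norm_num
  rw [h4, one_mul]

theorem lbm_main (M : Set E2) (hM : Convex ℝ M) (hMc : IsCompact M) (hM0 : M.Nonempty)
    (φ : ℝ) : 2 * volume M + ENNReal.ofReal (2 * Real.pi * (wE M φ / 2) ^ 2) ≤
      volume (Metric.cthickening (wE M φ / 2) M) := by
  set a : ℝ := wE M φ / 2 with ha_def
  have hwn : 0 ≤ wE M φ := ENNReal.toReal_nonneg
  have ha : 0 ≤ a := by positivity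
  set S : Set E2 := Metric.cthickening a M with hS
  have hSc : IsCompact S := hMc.cthickening
  obtain ⟨hM1, hM2⟩ := lbm_key φ M hMc
  obtain ⟨hS1, hS2⟩ := lbm_key φ S hSc
  set T := seg_G φ '' M with hT
  have hTH : T = (seg_H φ) ⁻¹' M := by
    ext p
    constructor
    · rintro ⟨x, hx, rfl⟩
      show seg_H φ (seg_G φ x) ∈ M
      rw [seg_HG]
      exact hx
    · intro hp
      exact ⟨seg_H φ p, hp, seg_GH φ p⟩
  have hTc : Convex ℝ T := by
    rw [hTH]
    intro p hp q hq s t hs ht hst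
    show seg_H φ (s • p + t • q) ∈ M
    have e : seg_H φ (s • p + t • q) = s • seg_H φ p + t • seg_H φ q := by
      ext i
      fin_cases i
      · show (s * p.1 + t * q.1) * Real.cos φ - (s * p.2 + t * q.2) * Real.sin φ =
          s * (p.1 * Real.cos φ - p.2 * Real.sin φ) + t * (q.1 * Real.cos φ - q.2 * Real.sin φ)
        ring
      · show (s * p.1 + t * q.1) * Real.sin φ + (s * p.2 + t * q.2) * Real.cos φ =
          s * (p.1 * Real.sin φ + p.2 * Real.cos φ) + t * (q.1 * Real.sin φ + q.2 * Real.cos φ)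
        ring
    rw [e]
    exact hM hp hq hs ht hst
  have hfc : ∀ u : ℝ, Convex ℝ (Prod.mk u ⁻¹' T) ∧ IsCompact (Prod.mk u ⁻¹' T) := by
    intro u
    refine ⟨?_, ?_⟩
    · intro p hp q hq s t hs ht hst
      have := hTc hp hq hs ht hst
      have e : s • (u, p) + t • (u, q) = (u, s • p + t • q) := by
        refine Prod.ext ?_ rfl
        show s * u + t * u = u
        rw [← add_mul, hst, one_mul]
      show (u, s • p + t • q) ∈ T
      rw [← e]
      exact this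
    · have h1 : Prod.mk u ⁻¹' T ⊆ Prod.snd '' T := fun v hv => ⟨(u, v), hv, rfl⟩
      exact (hM2.image continuous_snd).of_isClosed_subset
        (hM2.isClosed.preimage (by fun_prop)) h1
  set P : Set ℝ := (fun y : E2 => y 0 * Real.cos φ + y 1 * Real.sin φ) '' M with hP
  have hPc : IsCompact P := hMc.image (by fun_prop)
  have hPne : P.Nonempty := hM0.image _
  have hPcv : Convex ℝ P := by
    rintro _ ⟨x, hx, rfl⟩ _ ⟨y, hy, rfl⟩ s t hs ht hst
    refine ⟨s • x + t • y, hM hx hy hs ht hst, ?_⟩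
    show (s * x 0 + t * y 0) * Real.cos φ + (s * x 1 + t * y 1) * Real.sin φ =
      s * (x 0 * Real.cos φ + x 1 * Real.sin φ) + t * (y 0 * Real.cos φ + y 1 * Real.sin φ)
    ring
  have hPn : ∀ u, (Prod.mk u ⁻¹' T).Nonempty ↔ u ∈ P := by
    intro u
    constructor
    · rintro ⟨v, x, hx, hxv⟩
      exact ⟨x, hx, congrArg Prod.fst hxv⟩
    · rintro ⟨x, hx, hxu⟩
      exact ⟨(seg_G φ x).2, x, hx, Prod.ext hxu rfl⟩
  obtain ⟨α, β, hαβ, hPI⟩ : ∃ α β, α ≤ β ∧ P = Set.Icc α β := by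
    refine ⟨sInf P, sSup P, ?_, ?_⟩
    · obtain ⟨x, hx⟩ := hPne
      exact (csInf_le hPc.bddBelow hx).trans (le_csSup hPc.bddAbove hx)
    · apply Set.Subset.antisymm
      · exact subset_Icc_csInf_csSup hPc.bddBelow hPc.bddAbove
      · exact hPcv.ordConnected.out (hPc.sInf_mem hPne) (hPc.sSup_mem hPne)
  have hw : wE M φ = β - α := by
    show (volume P).toReal = β - α
    rw [hPI, Real.volume_Icc, ENNReal.toReal_ofReal (by linarith)]
  have ha2 : β - α = 2 * a := by rw [ha_def, hw]; ring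
  set s0 : ℝ := (α + β) / 2 with hs0
  -- the fibres
  have hfib : ∀ τ : ℝ, volume (Prod.mk ((τ + s0) / 2) ⁻¹' T) +
      volume {v : ℝ | ((τ + -s0) / 2) ^ 2 + v ^ 2 ≤ a ^ 2} ≤
      volume (Prod.mk τ ⁻¹' (seg_G φ '' S)) := by
    intro τ
    by_cases hτ : (τ + s0) / 2 ∈ P
    · have hτ' : |(τ + -s0) / 2| ≤ a := by
        rw [hPI] at hτ
        obtain ⟨h1, h2⟩ := hτ
        rw [abs_le]
        constructor <;> linarith
      have hsq : ((τ + -s0) / 2) ^ 2 ≤ a ^ 2 := by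
        rw [← sq_abs]
        exact pow_le_pow_left₀ (abs_nonneg _) hτ' 2
      set δ : ℝ := (τ + -s0) / 2 with hδ
      have hr := Real.sqrt_nonneg (a ^ 2 - δ ^ 2)
      set r : ℝ := √(a ^ 2 - δ ^ 2) with hr_def
      have hr2 : r ^ 2 = a ^ 2 - δ ^ 2 := Real.sq_sqrt (by linarith)
      have h1 : {v : ℝ | δ ^ 2 + v ^ 2 ≤ a ^ 2} = Set.Icc (-r) r := by
        ext v
        show δ ^ 2 + v ^ 2 ≤ a ^ 2 ↔ v ∈ Set.Icc (-r) r
        rw [Set.mem_Icc, ← abs_le, ← sq_le_sq₀ (abs_nonneg v) hr, sq_abs, hr2]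
        constructor <;> intro h <;> linarith
      have h2 : volume {v : ℝ | δ ^ 2 + v ^ 2 ≤ a ^ 2} = ENNReal.ofReal (2 * r) := by
        rw [h1, Real.volume_Icc]
        congr 1
        ring
      have h3 := seg_fib (Prod.mk ((τ + s0) / 2) ⁻¹' T) (hfc _).1 (hfc _).2 r hr
      rw [if_pos ((hPn _).2 hτ)] at h3
      rw [h2, ← h3]
      apply measure_mono
      rintro v ⟨w, hw1, s, hs, rfl⟩
      have hmem : seg_H φ ((τ + s0) / 2, w) ∈ M := by
        have : ((τ + s0) / 2, w) ∈ T := hw1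
        rw [hTH] at this
        exact this
      show (τ, w + s) ∈ seg_G φ '' S
      refine ⟨seg_H φ (τ, w + s), ?_, seg_GH φ _⟩
      refine Metric.mem_cthickening_of_dist_le _ _ _ _ hmem ?_
      rw [lbm_dist, Real.sqrt_le_left ha]
      have hs2 : s ^ 2 ≤ r ^ 2 := by
        rw [← sq_abs s]
        exact pow_le_pow_left₀ (abs_nonneg _) (abs_le.2 hs) 2
      have e1 : (τ - (τ + s0) / 2) = δ := by rw [hδ]; ring
      have e2 : (w + s - w) = s := by ring
      show (τ - (τ + s0) / 2) ^ 2 + (w + s - w) ^ 2 ≤ a ^ 2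
      rw [e1, e2]
      linarith
    · have h1 : Prod.mk ((τ + s0) / 2) ⁻¹' T = ∅ := by
        rw [← Set.not_nonempty_iff_eq_empty]
        exact fun h => hτ ((hPn _).1 h)
      have h2 : {v : ℝ | ((τ + -s0) / 2) ^ 2 + v ^ 2 ≤ a ^ 2} = ∅ := by
        rw [Set.eq_empty_iff_forall_notMem]
        intro v hv
        apply hτ
        have hv' : ((τ + -s0) / 2) ^ 2 + v ^ 2 ≤ a ^ 2 := hv
        have h3 : |(τ + -s0) / 2| ≤ a := by
          rw [← sq_le_sq₀ (abs_nonneg _) ha, sq_abs]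
          nlinarith [sq_nonneg v]
        rw [hPI]
        obtain ⟨h4, h5⟩ := abs_le.1 h3
        constructor <;> linarith
      rw [h1, h2, measure_empty, add_zero]
      exact bot_le
  have hg : Measurable fun u : ℝ => volume (Prod.mk u ⁻¹' T) :=
    measurable_measure_prodMk_left hM2.measurableSet
  have hcl : MeasurableSet {p : ℝ × ℝ | p.1 ^ 2 + p.2 ^ 2 ≤ a ^ 2} :=
    (isClosed_le (by fun_prop) continuous_const).measurableSet
  have hh : Measurable fun u : ℝ => volume {v : ℝ | u ^ 2 + v ^ 2 ≤ a ^ 2} :=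
    measurable_measure_prodMk_left hcl
  have i1 : volume S = ∫⁻ τ : ℝ, volume (Prod.mk τ ⁻¹' (seg_G φ '' S)) := by
    rw [hS1, Measure.volume_eq_prod, Measure.prod_apply hS2.measurableSet]
  have i2 : volume M = ∫⁻ τ : ℝ, volume (Prod.mk τ ⁻¹' T) := by
    rw [hM1, Measure.volume_eq_prod, Measure.prod_apply hM2.measurableSet]
  have i3 : ∫⁻ τ : ℝ, (volume (Prod.mk ((τ + s0) / 2) ⁻¹' T) +
      volume {v : ℝ | ((τ + -s0) / 2) ^ 2 + v ^ 2 ≤ a ^ 2}) ≤ volume S := by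
    rw [i1]
    exact lintegral_mono hfib
  have hg2 : Measurable fun τ : ℝ => volume (Prod.mk ((τ + s0) / 2) ⁻¹' T) :=
    hg.comp (g := fun u : ℝ => volume (Prod.mk u ⁻¹' T)) (f := fun τ : ℝ => (τ + s0) / 2)
      (by fun_prop)
  rw [lintegral_add_left hg2] at i3
  rw [lbm_half (fun u => volume (Prod.mk u ⁻¹' T)) hg s0,
    lbm_half (fun u => volume {v : ℝ | u ^ 2 + v ^ 2 ≤ a ^ 2}) hh (-s0), ← i2,
    lbm_disc a ha] at i3
  refine le_trans (le_of_eq ?_) i3
  congr 1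
  rw [show (2 : ENNReal) = ENNReal.ofReal 2 by norm_num, ← ENNReal.ofReal_mul (by norm_num)]
  congr 1
  ring

end STB
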