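import Pool.Agent.Lib_helper15.STB.Defs

/-! # STB, block mec : a point of K whose ball contains K (helper99) -/

open MeasureTheory Filter Topology
open scoped InnerProductSpace
open Pool.Agent.Lib_helper15.STE

namespace STB

theorem mec_main (K : Set E3) (hK : CB K) (c : E3) (R : ℝ) (h : K ⊆ Metric.closedBall c R) :
    ∃ c' ∈ K, K ⊆ Metric.closedBall c' R := by
  obtain ⟨v, hv, hmin⟩ := exists_norm_eq_iInf_of_complete_convex
    (hK.int.mono interior_subset) hK.comp.isComplete hK.conv c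
  rw [norm_eq_iInf_iff_real_inner_le_zero hK.conv hv] at hmin
  refine ⟨v, hv, fun x hx => ?_⟩
  have h1 : ‖x - c‖ ≤ R := by
    have := h hx
    rwa [Metric.mem_closedBall, dist_eq_norm] at this
  have h2 := hmin x hx
  rw [Metric.mem_closedBall, dist_eq_norm]
  refine le_trans ?_ h1
  have h3 : x - c = (x - v) - (c - v) := by abel
  have h4 : ‖x - c‖ ^ 2 = ‖x - v‖ ^ 2 - 2 * ⟪c - v, x - v⟫_ℝ + ‖c - v‖ ^ 2 := by
    rw [h3, norm_sub_sq_real, real_inner_comm]
  have h5 : ‖x - v‖ ^ 2 ≤ ‖x - c‖ ^ 2 := by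
    rw [h4]
    nlinarith [sq_nonneg ‖c - v‖]
  exact (sq_le_sq₀ (norm_nonneg _) (norm_nonneg _)).1 h5

end STB
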