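import Pool.Agent.Lib_helper15.STB.DefsC
import Pool.Agent.Lib_helper15.STB.B.wid
import Pool.Agent.Lib_helper15.STB.B.pup
import Pool.Agent.Lib_helper15.STB.B.rie
import Pool.Agent.Lib_helper15.STB.B.per

/-! # STB, block stn (helper77): Steiner's formula in the plane (upper bound) -/

open MeasureTheory Filter Topology
open scoped InnerProductSpace
open Pool.Agent.Lib_helper15.STE

namespace STB

theorem stn_l (φ ψ s : ℝ) (z : E2) :
    wid_l φ (z + s • (!₂[-Real.sin ψ, Real.cos ψ] : E2)) = wid_l φ z + s * Real.sin (φ - ψ) := by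
  unfold wid_l
  have e0 : (z + s • (!₂[-Real.sin ψ, Real.cos ψ] : E2)) 0 = z 0 + s * (-Real.sin ψ) := rfl
  have e1 : (z + s • (!₂[-Real.sin ψ, Real.cos ψ] : E2)) 1 = z 1 + s * Real.cos ψ := rfl
  rw [e0, e1, Real.sin_sub]
  ring

theorem stn_near (M : Set E2) (ψ ρ : ℕ → ℝ) (ε : ℝ) (φ : ℝ) (k : ℕ) :
    ∀ y ∈ pup_M M ψ ρ ε k, ∃ x ∈ M,
      |wid_l φ y - wid_l φ x| ≤ ε * ∑ j ∈ Finset.range k, ρ j * |Real.sin (φ - ψ j)| := by
  induction k with
  | zero =>
    intro y hy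
    exact ⟨y, hy, by simp⟩
  | succ k ih =>
    rintro y ⟨z, hz, s, hs, rfl⟩
    obtain ⟨x, hx, hd⟩ := ih z hz
    refine ⟨x, hx, ?_⟩
    rw [stn_l, Finset.sum_range_succ, mul_add]
    have h1 : |s * Real.sin (φ - ψ k)| ≤ ε * (ρ k * |Real.sin (φ - ψ k)|) := by
      rw [abs_mul, ← mul_assoc]
      exact mul_le_mul_of_nonneg_right (abs_le.2 hs) (abs_nonneg _)
    have h2 : wid_l φ z + s * Real.sin (φ - ψ k) - wid_l φ x =
        (wid_l φ z - wid_l φ x) + s * Real.sin (φ - ψ k) := by ring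
    rw [h2]
    exact (abs_add_le _ _).trans (add_le_add hd h1)

theorem stn_wid (M : Set E2) (hM : Convex ℝ M) (hMc : IsCompact M) (hM0 : M.Nonempty)
    (ψ ρ : ℕ → ℝ) (hρ : ∀ j, 0 ≤ ρ j) (ε : ℝ) (hε : 0 ≤ ε) (φ : ℝ) (k : ℕ) :
    wE (pup_M M ψ ρ ε k) φ ≤ wE M φ +
      2 * (ε * ∑ j ∈ Finset.range k, ρ j * |Real.sin (φ - ψ j)|) := by
  obtain ⟨h1, h2, _⟩ := pup_props M hM hMc hM0 ψ ρ hρ ε hε k
  refine wid_close M _ hM hMc hM0 h1 h2 φ φ _ ?_ (stn_near M ψ ρ ε φ k)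
  exact mul_nonneg hε (Finset.sum_nonneg fun j _ => mul_nonneg (hρ j) (abs_nonneg _))

theorem stn_vol (M : Set E2) (hM : Convex ℝ M) (hMc : IsCompact M) (hM0 : M.Nonempty)
    (ψ ρ : ℕ → ℝ) (hρ : ∀ j, 0 ≤ ρ j) (ε : ℝ) (hε : 0 ≤ ε) (k : ℕ) :
    volume (pup_M M ψ ρ ε k) ≤ volume M +
      ENNReal.ofReal (2 * ε * ∑ j ∈ Finset.range k, ρ j * (wE M (ψ j) +
        2 * (ε * ∑ i ∈ Finset.range j, ρ i * |Real.sin (ψ j - ψ i)|))) := by
  induction k with
  | zero => simp [pup_M]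
  | succ k ih =>
    obtain ⟨h1, h2, h3⟩ := pup_props M hM hMc hM0 ψ ρ hρ ε hε k
    have h4 := seg_area (pup_M M ψ ρ ε k) h1 h2 (hM0.mono h3) (ψ k) (ε * ρ k)
      (mul_nonneg hε (hρ k))
    have h5 := stn_wid M hM hMc hM0 ψ ρ hρ ε hε (ψ k) k
    have hS : ∀ j, 0 ≤ ε * ∑ i ∈ Finset.range j, ρ i * |Real.sin (ψ j - ψ i)| := fun j =>
      mul_nonneg hε (Finset.sum_nonneg fun i _ => mul_nonneg (hρ i) (abs_nonneg _))
    have hT : ∀ j, 0 ≤ ρ j * (wE M (ψ j) +
        2 * (ε * ∑ i ∈ Finset.range j, ρ i * |Real.sin (ψ j - ψ i)|)) := fun j =>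
      mul_nonneg (hρ j) (add_nonneg (wid_nonneg M _) (mul_nonneg zero_le_two (hS j)))
    have h8 : 0 ≤ 2 * ε * ∑ j ∈ Finset.range k, ρ j * (wE M (ψ j) +
        2 * (ε * ∑ i ∈ Finset.range j, ρ i * |Real.sin (ψ j - ψ i)|)) :=
      mul_nonneg (by linarith) (Finset.sum_nonneg fun j _ => hT j)
    calc volume (pup_M M ψ ρ ε (k + 1))
        = volume (pup_M M ψ ρ ε k) + ENNReal.ofReal (2 * (ε * ρ k) * wE (pup_M M ψ ρ ε k) (ψ k)) :=
          h4
      _ ≤ (volume M +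
          ENNReal.ofReal (2 * ε * ∑ j ∈ Finset.range k, ρ j * (wE M (ψ j) +
            2 * (ε * ∑ i ∈ Finset.range j, ρ i * |Real.sin (ψ j - ψ i)|)))) +
          ENNReal.ofReal (2 * ε * (ρ k * (wE M (ψ k) +
            2 * (ε * ∑ i ∈ Finset.range k, ρ i * |Real.sin (ψ k - ψ i)|)))) := by
          refine add_le_add ih (ENNReal.ofReal_le_ofReal ?_)
          have h9 := mul_le_mul_of_nonneg_left h5 (mul_nonneg hε (hρ k))
          nlinarith [h9]
      _ = volume M +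
          ENNReal.ofReal (2 * ε * ∑ j ∈ Finset.range (k + 1), ρ j * (wE M (ψ j) +
            2 * (ε * ∑ i ∈ Finset.range j, ρ i * |Real.sin (ψ j - ψ i)|))) := by
          rw [add_assoc, ← ENNReal.ofReal_add h8 (mul_nonneg (by linarith) (hT k)),
            Finset.sum_range_succ, mul_add (2 * ε)]

/-- half of a symmetric double sum -/
theorem stn_half (f : ℕ → ℕ → ℝ) (hf : ∀ i j, 0 ≤ f i j) (hs : ∀ i j, f i j = f j i) (n : ℕ) :
    2 * ∑ j ∈ Finset.range n, ∑ i ∈ Finset.range j, f j i ≤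
      ∑ j ∈ Finset.range n, ∑ i ∈ Finset.range n, f j i := by
  induction n with
  | zero => simp
  | succ n ih =>
    have e1 : ∑ j ∈ Finset.range (n + 1), ∑ i ∈ Finset.range (n + 1), f j i =
        ∑ j ∈ Finset.range n, ∑ i ∈ Finset.range n, f j i + ∑ j ∈ Finset.range n, f j n +
          (∑ i ∈ Finset.range n, f n i + f n n) := by
      rw [Finset.sum_range_succ, Finset.sum_range_succ]
      congr 1
      rw [← Finset.sum_add_distrib]
      exact Finset.sum_congr rfl fun j _ => Finset.sum_range_succ _ _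
    have e2 : ∑ j ∈ Finset.range n, f j n = ∑ i ∈ Finset.range n, f n i :=
      Finset.sum_congr rfl fun j _ => hs j n
    rw [e1, e2, Finset.sum_range_succ]
    have := hf n n
    linarith

theorem stn_step (M : Set E2) (hM : Convex ℝ M) (hMc : IsCompact M) (hM0 : M.Nonempty) (C : ℝ)
    (hC : ∀ φ ψ, |wE M φ - wE M ψ| ≤ C * |φ - ψ|) (r : ℝ) (hr : 0 < r) (n : ℕ) (hn : 10 ≤ n) :
    volume (Metric.cthickening r M) ≤ volume M + ENNReal.ofReal
      (2 * r * (((∫ φ in (0:ℝ)..Real.pi, wE M φ) + C * Real.pi ^ 2 / n) /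
        (2 - Real.pi ^ 2 / n)) +
       2 * r ^ 2 * Real.pi * (2 + Real.pi ^ 2 / n) / (2 - Real.pi ^ 2 / n) ^ 2) := by
  have hn0 : 0 < n := by omega
  have hnR : (10:ℝ) ≤ n := by exact_mod_cast hn
  have hnp : (0:ℝ) < n := by linarith
  have hpi : Real.pi ^ 2 < 10 := by
    have h1 := Real.pi_lt_d2
    have h2 := Real.pi_pos
    nlinarith
  have hpp := Real.pi_pos
  have hd : Real.pi ^ 2 / n < 1 := by
    rw [div_lt_one hnp]
    linarith
  have hD : 0 < 2 - Real.pi ^ 2 / n := by linarith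
  set q : ℝ := (Real.pi / n) / (2 - Real.pi ^ 2 / n) with hq
  have hq0 : 0 ≤ q := div_nonneg (div_nonneg hpp.le hnp.le) hD.le
  set ψ : ℕ → ℝ := fun j => 0 + j * (Real.pi / n) with hψ
  have hs : ∀ θ : ℝ, 1 ≤ ∑ j ∈ Finset.range n, q * |Real.sin (θ - ψ j)| := by
    intro θ
    have hr := rie_main (fun x => |Real.sin (θ - x)|) 1 (per_abs_lip' θ) (per_abs_per' θ)
      n hn0 0
    rw [per_sin] at hr
    have hr2 := (abs_le.1 hr).1
    rw [← Finset.mul_sum, hq, div_mul_eq_mul_div, le_div_iff₀ hD, one_mul]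
    rw [one_mul] at hr2
    linarith
  have h1 := pup_thick M hMc ψ (fun _ => q) (fun _ => hq0) n hs r hr
  have h2 := stn_vol M hM hMc hM0 ψ (fun _ => q) (fun _ => hq0) r hr.le n
  refine (measure_mono h1).trans (h2.trans (add_le_add le_rfl (ENNReal.ofReal_le_ofReal ?_)))
  -- the sum of the widths
  have h3 : ∑ j ∈ Finset.range n, wE M (ψ j) ≤
      (n / Real.pi) * ((∫ φ in (0:ℝ)..Real.pi, wE M φ) + C * Real.pi ^ 2 / n) := by
    have hr := rie_main (wE M) C hC (wid_period M) n hn0 0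
    have hr2 := (abs_le.1 hr).2
    rw [div_mul_eq_mul_div, le_div_iff₀ hpp]
    have h4 : Real.pi / n * (∑ j ∈ Finset.range n, wE M (0 + j * (Real.pi / n))) ≤
      (∫ φ in (0:ℝ)..Real.pi, wE M φ) + C * Real.pi ^ 2 / n := by linarith
    have h5 := mul_le_mul_of_nonneg_left h4 hnp.le
    have h6 : (n:ℝ) * (Real.pi / n * (∑ j ∈ Finset.range n, wE M (0 + j * (Real.pi / n)))) =
        (∑ j ∈ Finset.range n, wE M (ψ j)) * Real.pi := by
      rw [hψ]
      field_simp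
    rw [h6] at h5
    exact h5
  -- the area of the zonogon
  have h7 : ∀ j, ∑ i ∈ Finset.range n, |Real.sin (ψ j - ψ i)| ≤
      (n / Real.pi) * (2 + Real.pi ^ 2 / n) := by
    intro j
    have hr := rie_main (fun x => |Real.sin (ψ j - x)|) 1 (per_abs_lip' (ψ j))
      (per_abs_per' (ψ j)) n hn0 0
    rw [per_sin] at hr
    have hr2 := (abs_le.1 hr).2
    rw [div_mul_eq_mul_div, le_div_iff₀ hpp]
    have h4 : Real.pi / n * (∑ i ∈ Finset.range n, |Real.sin (ψ j - (0 + i * (Real.pi / n)))|) ≤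
      2 + Real.pi ^ 2 / n := by
      rw [one_mul] at hr2
      linarith
    have h5 := mul_le_mul_of_nonneg_left h4 hnp.le
    have h6 : (n:ℝ) * (Real.pi / n *
        (∑ i ∈ Finset.range n, |Real.sin (ψ j - (0 + i * (Real.pi / n)))|)) =
        (∑ i ∈ Finset.range n, |Real.sin (ψ j - ψ i)|) * Real.pi := by
      have h7 : ∀ S : ℝ, (n:ℝ) * (Real.pi / n * S) = S * Real.pi := by
        intro S
        field_simp
      exact h7 _
    rw [h6] at h5
    exact h5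
  have h8 : 2 * ∑ j ∈ Finset.range n, ∑ i ∈ Finset.range j, |Real.sin (ψ j - ψ i)| ≤
      n * ((n / Real.pi) * (2 + Real.pi ^ 2 / n)) := by
    refine (stn_half (fun j i => |Real.sin (ψ j - ψ i)|) (fun _ _ => abs_nonneg _) ?_ n).trans ?_
    · intro i j
      show |Real.sin (ψ i - ψ j)| = |Real.sin (ψ j - ψ i)|
      rw [← neg_sub (ψ j) (ψ i), Real.sin_neg, abs_neg]
    · refine (Finset.sum_le_sum fun j _ => h7 j).trans (le_of_eq ?_)
      rw [Finset.sum_const, Finset.card_range, nsmul_eq_mul]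
  have e1 : 2 * r * ∑ j ∈ Finset.range n, q * (wE M (ψ j) +
        2 * (r * ∑ i ∈ Finset.range j, q * |Real.sin (ψ j - ψ i)|)) =
      2 * r * q * (∑ j ∈ Finset.range n, wE M (ψ j)) +
      2 * r ^ 2 * q ^ 2 *
        (2 * ∑ j ∈ Finset.range n, ∑ i ∈ Finset.range j, |Real.sin (ψ j - ψ i)|) := by
    have e2 : ∀ j, q * (wE M (ψ j) +
        2 * (r * ∑ i ∈ Finset.range j, q * |Real.sin (ψ j - ψ i)|)) =
        q * wE M (ψ j) + 2 * r * q ^ 2 * ∑ i ∈ Finset.range j, |Real.sin (ψ j - ψ i)| := by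
      intro j
      rw [← Finset.mul_sum]
      ring
    rw [Finset.sum_congr rfl fun j _ => e2 j, Finset.sum_add_distrib, ← Finset.mul_sum,
      ← Finset.mul_sum]
    ring
  rw [e1]
  refine add_le_add ?_ ?_
  · have h9 := mul_le_mul_of_nonneg_left h3 (mul_nonneg (mul_nonneg zero_le_two hr.le) hq0)
    refine h9.trans (le_of_eq ?_)
    rw [hq]
    field_simp
  · have h9 := mul_le_mul_of_nonneg_left h8
      (mul_nonneg (mul_nonneg zero_le_two (sq_nonneg r)) (sq_nonneg q))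
    refine h9.trans (le_of_eq ?_)
    rw [hq]
    field_simp

theorem stn_main (M : Set E2) (hM : Convex ℝ M) (hMc : IsCompact M) (hM0 : M.Nonempty)
    (r : ℝ) (hr : 0 ≤ r) : volume (Metric.cthickening r M) ≤
      volume M + ENNReal.ofReal (r * (∫ φ in (0:ℝ)..Real.pi, wE M φ) + Real.pi * r ^ 2) := by
  rcases hr.eq_or_lt with h0 | h0
  · rw [← h0, Metric.cthickening_zero, hMc.isClosed.closure_eq]
    exact le_self_add
  obtain ⟨C, hC0, _, hC⟩ := wid_lip M hM hMc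
  have hlim : Tendsto (fun n : ℕ => volume M + ENNReal.ofReal
      (2 * r * (((∫ φ in (0:ℝ)..Real.pi, wE M φ) + C * Real.pi ^ 2 / n) /
        (2 - Real.pi ^ 2 / n)) +
       2 * r ^ 2 * Real.pi * (2 + Real.pi ^ 2 / n) / (2 - Real.pi ^ 2 / n) ^ 2)) atTop
      (𝓝 (volume M + ENNReal.ofReal
        (r * (∫ φ in (0:ℝ)..Real.pi, wE M φ) + Real.pi * r ^ 2))) := by
    refine Tendsto.const_add _ (ENNReal.tendsto_ofReal ?_)
    have h1 : Tendsto (fun n : ℕ => C * Real.pi ^ 2 / (n:ℝ)) atTop (𝓝 0) :=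
      tendsto_const_div_atTop_nhds_zero_nat _
    have h2 : Tendsto (fun n : ℕ => Real.pi ^ 2 / (n:ℝ)) atTop (𝓝 0) :=
      tendsto_const_div_atTop_nhds_zero_nat _
    have hD := (tendsto_const_nhds (x := (2:ℝ))).sub h2
    have h3 := ((tendsto_const_nhds (x := ∫ φ in (0:ℝ)..Real.pi, wE M φ)).add h1).div
      hD (by norm_num)
    have h4 := (tendsto_const_nhds (x := 2 * r)).mul h3
    have h5 := (((tendsto_const_nhds (x := 2 * r ^ 2 * Real.pi)).mul
      ((tendsto_const_nhds (x := (2:ℝ))).add h2)).div (hD.pow 2) (by norm_num))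
    have h6 := h4.add h5
    have e : 2 * r * (((∫ φ in (0:ℝ)..Real.pi, wE M φ) + 0) / (2 - 0)) +
        2 * r ^ 2 * Real.pi * (2 + 0) / (2 - 0) ^ 2 =
        r * (∫ φ in (0:ℝ)..Real.pi, wE M φ) + Real.pi * r ^ 2 := by ring
    rw [e] at h6
    exact h6
  refine ge_of_tendsto hlim ?_
  filter_upwards [eventually_ge_atTop 10] with n hn
  exact stn_step M hM hMc hM0 C hC r h0 n hn

end STB
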