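import Pool.Agent.Lib_helper15.STB.DefsC
import Pool.Agent.Lib_helper15.STB.B.stn
import Pool.Agent.Lib_helper15.STB.B.lbm
import Pool.Agent.Lib_helper15.STB.B.wid

/-! # STB, block sch : planar inequality of Bonnesen type -/

open MeasureTheory Filter Topology
open scoped InnerProductSpace
open Pool.Agent.Lib_helper15.STE

namespace STB

theorem sch_main (M : Set E2) (hM : Convex ℝ M) (hMc : IsCompact M) (hM0 : M.Nonempty)
    (φ : ℝ) : ((∫ ψ in (0:ℝ)..Real.pi, wE M ψ) - Real.pi * wE M φ) ^ 2 ≤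
      (∫ ψ in (0:ℝ)..Real.pi, wE M ψ) ^ 2 - 4 * Real.pi * (volume M).toReal := by
  have hpi := Real.pi_pos
  have hw : 0 ≤ wE M φ := wid_nonneg M φ
  have h1 := lbm_main M hM hMc hM0 φ
  have h2 := stn_main M hM hMc hM0 (wE M φ / 2) (by linarith)
  have hfin : volume M ≠ ⊤ := hMc.measure_lt_top.ne
  have h3 := h1.trans h2
  set P := ∫ ψ in (0:ℝ)..Real.pi, wE M ψ with hP
  set r := wE M φ / 2 with hr
  have hwr : wE M φ = 2 * r := by rw [hr]; ring
  have hP0 : 0 ≤ P := intervalIntegral.integral_nonneg hpi.le fun x _ => wid_nonneg M x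
  have hr0 : 0 ≤ r := by linarith
  have hA : 0 ≤ (volume M).toReal := ENNReal.toReal_nonneg
  -- to real numbers
  have h4 : 2 * (volume M).toReal + 2 * Real.pi * r ^ 2 ≤
      (volume M).toReal + (r * P + Real.pi * r ^ 2) := by
    have hM' : volume M = ENNReal.ofReal (volume M).toReal := (ENNReal.ofReal_toReal hfin).symm
    rw [hM', ← ENNReal.ofReal_add hA (by positivity)] at h3
    have h5 : (2 : ENNReal) * ENNReal.ofReal (volume M).toReal =
        ENNReal.ofReal (2 * (volume M).toReal) := by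
      rw [ENNReal.ofReal_mul (by norm_num)]; simp
    rw [h5, ← ENNReal.ofReal_add (by positivity) (by positivity)] at h3
    exact (ENNReal.ofReal_le_ofReal_iff (by positivity)).1 h3
  rw [hwr]
  nlinarith [h4, hpi]

end STB
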