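import Pool.Agent.Lib_helper15.STB.DefsC
import Pool.Agent.Lib_helper15.STB.B.sch
import Pool.Agent.Lib_helper15.STB.B.sec
import Pool.Agent.Lib_helper15.STB.B.lcv
import Pool.Agent.Lib_helper15.STB.B.vol

/-! # STB, block pin : widths of the sections are pinched -/

open MeasureTheory Filter Topology
open scoped InnerProductSpace
open Pool.Agent.Lib_helper15.STE

namespace STB

theorem pin_main (K : Set E3) (hK : CB K) (f u : E3) (h : ON f u) (t : ℝ)
    (ht : t ∈ Set.Ioo (lo K u) (hi K u)) :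
    (Lt K f u t - Real.pi * Wd K f u t) ^ 2 ≤ (1 - 4 * Real.pi * kap K) * Lt K f u t ^ 2 ∧
    kap K ≤ 1 / (4 * Real.pi) := by
  obtain ⟨hc, hcp, hne, _, _⟩ := sec_comp K hK f u h t
  have hM0 := hne (Set.Ioo_subset_Icc_self ht)
  have h1 := sch_main (Sc K f u t) hc hcp hM0 0
  have e1 : (∫ ψ in (0:ℝ)..Real.pi, wE (Sc K f u t) ψ) = Lt K f u t := by
    unfold Lt
    exact intervalIntegral.integral_congr fun ψ _ => sec_width K hK f u h t ψ
  have e2 : wE (Sc K f u t) 0 = Wd K f u t := by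
    rw [sec_width K hK f u h t 0]
    congr 1
    unfold tw
    rw [Real.cos_zero, Real.sin_zero, one_smul, zero_smul, sub_zero]
  rw [e1, e2] at h1
  have h2 := vol_ptw K hK f u h t ht
  have hL := (lcv_lt K hK f u h).2.2.2.2.2.1 t ht
  have hpi := Real.pi_pos
  have h3 : 4 * Real.pi * (kap K * Lt K f u t ^ 2) ≤
      4 * Real.pi * (volume (Sc K f u t)).toReal :=
    mul_le_mul_of_nonneg_left h2 (by positivity)
  have h4 : (Lt K f u t - Real.pi * Wd K f u t) ^ 2 ≤
      (1 - 4 * Real.pi * kap K) * Lt K f u t ^ 2 := by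
    nlinarith
  refine ⟨h4, ?_⟩
  have h5 : 0 ≤ (1 - 4 * Real.pi * kap K) * Lt K f u t ^ 2 := (sq_nonneg _).trans h4
  have h6 : 0 ≤ 1 - 4 * Real.pi * kap K := by
    by_contra hneg
    push Not at hneg
    have : (1 - 4 * Real.pi * kap K) * Lt K f u t ^ 2 < 0 :=
      mul_neg_of_neg_of_pos hneg (by positivity)
    linarith
  rw [le_div_iff₀ (by positivity)]
  nlinarith

end STB
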