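import Pool.Agent.Lib_helper15.STB.DefsC
import Pool.Agent.Lib_helper15.STB.B.fraA
import Pool.Agent.Lib_helper15.STB.B.fraC

/-! # STB, block rgA : bodies whose sections have constant width, diametral chords -/

open MeasureTheory Filter Topology
open scoped InnerProductSpace
open Pool.Agent.Lib_helper15.STE

namespace STB

/-- the frame with a given first vector -/
theorem rgA_frame (n u : E3) (h : ON n u) : ∃ f : E3, ON f u ∧ cr f u = n := by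
  have h' : ON (-n) u := ⟨by rw [norm_neg]; exact h.nf, h.nu, by rw [inner_neg_left, h.or, neg_zero]⟩
  obtain ⟨_, _, h3, _, h5, _⟩ := fra_on' (-n) u h'
  exact ⟨cr (-n) u, h3, by rw [h5, neg_neg]⟩

/-- the interval of a width -/
theorem rgA_img (K : Set E3) (f u : E3) (h : ON f u) (t : ℝ) :
    {x : ℝ | ∃ s : ℝ, x • cr f u + s • f + t • u ∈ K} =
      (fun x : E3 => ⟪x, cr f u⟫_ℝ) '' (K ∩ {x | ⟪x, u⟫_ℝ = t}) := by
  obtain ⟨_, _, h3, h4, _, _⟩ := fra_on' f u h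
  ext x
  constructor
  · rintro ⟨s, hs⟩
    refine ⟨_, ⟨hs, ?_⟩, ?_⟩
    · show ⟪x • cr f u + s • f + t • u, u⟫_ℝ = t
      rw [inner_add_left, inner_add_left, real_inner_smul_left, real_inner_smul_left,
        real_inner_smul_left, h3.or, h.or, real_inner_self_eq_norm_sq, h.nu]
      ring
    · show ⟪x • cr f u + s • f + t • u, cr f u⟫_ℝ = x
      rw [inner_add_left, inner_add_left, real_inner_smul_left, real_inner_smul_left,
        real_inner_smul_left, real_inner_comm (cr f u) f, real_inner_comm (cr f u) u, h4.or, h3.or,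
        real_inner_self_eq_norm_sq, h3.nf]
      ring
  · rintro ⟨y, ⟨hy, hyt⟩, rfl⟩
    refine ⟨⟪y, f⟫_ℝ, ?_⟩
    have h6 := (fra_basis f u h y).1
    have hyt' : ⟪y, u⟫_ℝ = t := hyt
    rw [hyt'] at h6
    show ⟪y, cr f u⟫_ℝ • cr f u + ⟪y, f⟫_ℝ • f + t • u ∈ K
    rw [← h6]
    exact hy

/-- width as a difference -/
theorem rgA_wd (K : Set E3) (hK : CB K) (f u : E3) (h : ON f u) (t : ℝ)
    (hne : (K ∩ {x | ⟪x, u⟫_ℝ = t}).Nonempty) :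
    (∃ a ∈ K, ∃ b ∈ K, ⟪a, u⟫_ℝ = t ∧ ⟪b, u⟫_ℝ = t ∧ ⟪a - b, cr f u⟫_ℝ = Wd K f u t) ∧
    ∀ a ∈ K, ∀ b ∈ K, ⟪a, u⟫_ℝ = t → ⟪b, u⟫_ℝ = t → ⟪a - b, cr f u⟫_ℝ ≤ Wd K f u t := by
  set S : Set ℝ := (fun x : E3 => ⟪x, cr f u⟫_ℝ) '' (K ∩ {x | ⟪x, u⟫_ℝ = t}) with hS
  have hcl : IsClosed {x : E3 | ⟪x, u⟫_ℝ = t} :=
    isClosed_eq (continuous_id.inner continuous_const) continuous_const
  have hcp : IsCompact (K ∩ {x | ⟪x, u⟫_ℝ = t}) := hK.comp.inter_right hcl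
  have hcv : Convex ℝ (K ∩ {x | ⟪x, u⟫_ℝ = t}) := by
    refine hK.conv.inter ?_
    intro x hx y hy a b _ _ hab
    have hx' : ⟪x, u⟫_ℝ = t := hx
    have hy' : ⟪y, u⟫_ℝ = t := hy
    show ⟪a • x + b • y, u⟫_ℝ = t
    rw [inner_add_left, real_inner_smul_left, real_inner_smul_left, hx', hy', ← add_mul, hab,
      one_mul]
  have hcont : Continuous fun x : E3 => ⟪x, cr f u⟫_ℝ := continuous_id.inner continuous_const
  have hSc : IsCompact S := hcp.image hcont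
  have hSn : S.Nonempty := hne.image _
  have hSp : IsConnected S := (hcv.isConnected hne).image _ hcont.continuousOn
  have hSI : S = Set.Icc (sInf S) (sSup S) := eq_Icc_of_connected_compact hSp hSc
  have hle : sInf S ≤ sSup S := by
    obtain ⟨x, hx⟩ := hSn
    rw [hSI] at hx
    exact le_trans hx.1 hx.2
  have hW : Wd K f u t = sSup S - sInf S := by
    unfold Wd
    rw [rgA_img K f u h t]
    have : volume S = ENNReal.ofReal (sSup S - sInf S) := by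
      conv_lhs => rw [hSI]
      rw [Real.volume_Icc]
    rw [← hS, this, ENNReal.toReal_ofReal (by linarith)]
  constructor
  · obtain ⟨a, ⟨ha, hat⟩, ha'⟩ := hSc.sSup_mem hSn
    obtain ⟨b, ⟨hb, hbt⟩, hb'⟩ := hSc.sInf_mem hSn
    refine ⟨a, ha, b, hb, hat, hbt, ?_⟩
    have ha'' : ⟪a, cr f u⟫_ℝ = sSup S := ha'
    have hb'' : ⟪b, cr f u⟫_ℝ = sInf S := hb'
    rw [inner_sub_left, ha'', hb'', hW]
  · intro a ha b hb hat hbt
    have h1 : ⟪a, cr f u⟫_ℝ ∈ S := ⟨a, ⟨ha, hat⟩, rfl⟩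
    have h2 : ⟪b, cr f u⟫_ℝ ∈ S := ⟨b, ⟨hb, hbt⟩, rfl⟩
    have h3 : ⟪a, cr f u⟫_ℝ ≤ sSup S := le_csSup hSc.bddAbove h1
    have h4 : sInf S ≤ ⟪b, cr f u⟫_ℝ := csInf_le hSc.bddBelow h2
    rw [inner_sub_left, hW]
    linarith

/-- a common orthogonal unit vector -/
theorem rgA_orth (n m : E3) : ∃ u : E3, ‖u‖ = 1 ∧ ⟪n, u⟫_ℝ = 0 ∧ ⟪m, u⟫_ℝ = 0 := by
  classical
  set V : Submodule ℝ E3 := Submodule.span ℝ ({n, m} : Finset E3) with hV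
  have h1 : Module.finrank ℝ V ≤ 2 :=
    le_trans (finrank_span_finset_le_card _) (Finset.card_le_two)
  have h2 := Submodule.finrank_add_finrank_orthogonal V
  have h3 : Module.finrank ℝ E3 = 3 := by
    rw [finrank_euclideanSpace, Fintype.card_fin]
  have h4 : Vᗮ ≠ ⊥ := by
    intro h5
    rw [h5, finrank_bot, h3] at h2
    omega
  obtain ⟨v, hv, hv0⟩ := (Submodule.ne_bot_iff _).1 h4
  have hn : n ∈ V := Submodule.subset_span (by simp)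
  have hm : m ∈ V := Submodule.subset_span (by simp)
  have hvn : ‖v‖ ≠ 0 := norm_ne_zero_iff.2 hv0
  refine ⟨‖v‖⁻¹ • v, ?_, ?_, ?_⟩
  · rw [norm_smul, norm_inv, norm_norm, inv_mul_cancel₀ hvn]
  · rw [real_inner_smul_right, (Submodule.mem_orthogonal V v).1 hv n hn, mul_zero]
  · rw [real_inner_smul_right, (Submodule.mem_orthogonal V v).1 hv m hm, mul_zero]

/-- the diameter is attained -/
theorem rgA_diam (K : Set E3) (hK : CB K) : ∃ D : ℝ, ∃ p ∈ K, ∃ q ∈ K, D = ‖p - q‖ ∧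
    ∀ x ∈ K, ∀ y ∈ K, ‖x - y‖ ≤ D := by
  have hKn : K.Nonempty := hK.int.mono interior_subset
  have hcont : Continuous fun z : E3 × E3 => ‖z.1 - z.2‖ := (continuous_fst.sub continuous_snd).norm
  obtain ⟨z, hz, hmax⟩ := (hK.comp.prod hK.comp).exists_isMaxOn (hKn.prod hKn) hcont.continuousOn
  refine ⟨‖z.1 - z.2‖, z.1, hz.1, z.2, hz.2, rfl, fun x hx y hy => ?_⟩
  exact isMaxOn_iff.1 hmax (x, y) ⟨hx, hy⟩

theorem rgA_main (K : Set E3) (hK : CB K)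
    (h : ∀ f f' u, ON f u → ON f' u → ∀ t ∈ Set.Icc (lo K u) (hi K u),
      Wd K f u t = Wd K f' u t) :
    ∃ D : ℝ, 0 < D ∧ (∀ x ∈ K, ∀ y ∈ K, ‖x - y‖ ≤ D) ∧
      (∀ n : E3, ‖n‖ = 1 → ∃ a ∈ K, ∃ b ∈ K, a - b = D • n) ∧
      (∀ n m u : E3, ‖n‖ = 1 → ‖m‖ = 1 → ‖u‖ = 1 → ⟪n, u⟫_ℝ = 0 → ⟪m, u⟫_ℝ = 0 →
        ∀ a ∈ K, ∀ b ∈ K, ∀ a' ∈ K, ∀ b' ∈ K, a - b = D • n → a' - b' = D • m →
          ⟪a, u⟫_ℝ = ⟪a', u⟫_ℝ) := by
  -- the diameter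
  obtain ⟨D, p, hp, q, hq, hD, hDm⟩ := rgA_diam K hK
  have hD0 : 0 < D := by
    obtain ⟨u, hu, -, -⟩ := rgA_orth 0 0
    obtain ⟨h1, -, h3, -⟩ := fra_lohi K hK u hu
    obtain ⟨x, hx, hxl⟩ := h3 (lo K u) ⟨le_rfl, h1.le⟩
    obtain ⟨y, hy, hyh⟩ := h3 (hi K u) ⟨h1.le, le_rfl⟩
    have hne : x ≠ y := fun e => by
      rw [e, hyh] at hxl
      linarith
    exact lt_of_lt_of_le (norm_pos_iff.2 (sub_ne_zero.2 hne)) (hDm x hx y hy)
  obtain ⟨n0, hn0⟩ : ∃ n0 : E3, n0 = D⁻¹ • (p - q) := ⟨_, rfl⟩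
  have hn0n : ‖n0‖ = 1 := by
    rw [hn0, norm_smul, norm_inv, Real.norm_eq_abs, abs_of_pos hD0, ← hD,
      inv_mul_cancel₀ hD0.ne']
  have hpq : p - q = D • n0 := by
    rw [hn0, smul_smul, mul_inv_cancel₀ hD0.ne', one_smul]
  -- from one chord to all directions in a plane
  have key : ∀ n m u : E3, ‖n‖ = 1 → ‖m‖ = 1 → ‖u‖ = 1 → ⟪n, u⟫_ℝ = 0 → ⟪m, u⟫_ℝ = 0 →
      ∀ a ∈ K, ∀ b ∈ K, a - b = D • n →
      ∃ a' ∈ K, ∃ b' ∈ K, a' - b' = D • m ∧ ⟪a', u⟫_ℝ = ⟪a, u⟫_ℝ := by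
    intro n m u hn hm hu hnu hmu a ha b hb hab
    obtain ⟨f, hf, hfn⟩ := rgA_frame n u ⟨hn, hu, hnu⟩
    obtain ⟨f', hf', hfm⟩ := rgA_frame m u ⟨hm, hu, hmu⟩
    have hbu : ⟪b, u⟫_ℝ = ⟪a, u⟫_ℝ := by
      have h1 : ⟪a - b, u⟫_ℝ = 0 := by rw [hab, real_inner_smul_left, hnu, mul_zero]
      rw [inner_sub_left] at h1
      linarith
    have hne : (K ∩ {x | ⟪x, u⟫_ℝ = ⟪a, u⟫_ℝ}).Nonempty := ⟨a, ha, rfl⟩
    have ht : ⟪a, u⟫_ℝ ∈ Set.Icc (lo K u) (hi K u) := (fra_lohi K hK u hu).2.1 a ha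
    have h1 := (rgA_wd K hK f u hf ⟪a, u⟫_ℝ hne).2 a ha b hb rfl hbu
    obtain ⟨a', ha', b', hb', hat, hbt, hw⟩ := (rgA_wd K hK f' u hf' ⟪a, u⟫_ℝ hne).1
    rw [hfn, hab, real_inner_smul_left, real_inner_self_eq_norm_sq, hn, one_pow, mul_one,
      h f f' u hf hf' _ ht, ← hw, hfm] at h1
    refine ⟨a', ha', b', hb', ?_, hat⟩
    have h2 : ‖a' - b'‖ ≤ D := hDm a' ha' b' hb'
    have h3 : ‖a' - b' - D • m‖ ^ 2 ≤ 0 := by
      rw [norm_sub_sq_real, real_inner_smul_right, norm_smul, Real.norm_eq_abs, abs_of_pos hD0,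
        hm, mul_one]
      have h4 : ‖a' - b'‖ ^ 2 ≤ D ^ 2 := by
        exact pow_le_pow_left₀ (norm_nonneg _) h2 2
      nlinarith
    have h5 : ‖a' - b' - D • m‖ = 0 := by
      have := sq_nonneg ‖a' - b' - D • m‖
      exact pow_eq_zero_iff (two_ne_zero) |>.1 (le_antisymm h3 this)
    exact sub_eq_zero.1 (norm_eq_zero.1 h5)
  -- uniqueness of the chords
  have uniq : ∀ m : E3, ‖m‖ = 1 → ∀ a ∈ K, ∀ b ∈ K, ∀ a' ∈ K, ∀ b' ∈ K, a - b = D • m →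
      a' - b' = D • m → a = a' := by
    intro m hm a ha b hb a' ha' b' hb' hab hab'
    have h1 : a - b' = D • m + (a - a') := by
      rw [← hab']
      abel
    have h2 : a' - b = D • m - (a - a') := by
      rw [← hab]
      abel
    have h3 := parallelogram_law_with_norm ℝ (D • m) (a - a')
    have h4 : ‖a - b'‖ ≤ D := hDm a ha b' hb'
    have h5 : ‖a' - b‖ ≤ D := hDm a' ha' b hb
    have h6 : ‖D • m‖ = D := by
      rw [norm_smul, Real.norm_eq_abs, abs_of_pos hD0, hm, mul_one]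
    rw [← h1, ← h2, h6] at h3
    have h7 : ‖a - b'‖ * ‖a - b'‖ ≤ D * D := mul_self_le_mul_self (norm_nonneg _) h4
    have h8 : ‖a' - b‖ * ‖a' - b‖ ≤ D * D := mul_self_le_mul_self (norm_nonneg _) h5
    have h9 : ‖a - a'‖ * ‖a - a'‖ ≤ 0 := by linarith
    have h10 : ‖a - a'‖ = 0 := mul_self_eq_zero.1 (le_antisymm h9 (mul_self_nonneg _))
    exact sub_eq_zero.1 (norm_eq_zero.1 h10)
  refine ⟨D, hD0, hDm, ?_, ?_⟩
  · intro n hn
    obtain ⟨u, hu, h1, h2⟩ := rgA_orth n0 n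
    obtain ⟨a, ha, b, hb, hab, -⟩ := key n0 n u hn0n hn hu h1 h2 p hp q hq hpq
    exact ⟨a, ha, b, hb, hab⟩
  · intro n m u hn hm hu hnu hmu a ha b hb a' ha' b' hb' hab hab'
    obtain ⟨a'', ha'', b'', hb'', h1, h2⟩ := key n m u hn hm hu hnu hmu a ha b hb hab
    rw [← h2, uniq m hm a'' ha'' b'' hb'' a' ha' b' hb' h1 hab']

end STB
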