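import Pool.Agent.Lib_helper15.STB.DefsC

/-! # STB, block rgB : bodies with concurrent diametral chords are balls -/

open MeasureTheory Filter Topology
open scoped InnerProductSpace
open Pool.Agent.Lib_helper15.STE

namespace STB

theorem rgB_inner (x y : E3) : ⟪x, y⟫_ℝ = x 0 * y 0 + x 1 * y 1 + x 2 * y 2 := by
  simp [PiLp.inner_apply, Fin.sum_univ_three, mul_comm]

theorem rgB_unit {n : E3} (h : ‖n‖ = 1) : n 0 * n 0 + n 1 * n 1 + n 2 * n 2 = 1 := by
  rw [← rgB_inner, real_inner_self_eq_norm_sq, h]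
  norm_num

theorem rgB_perp (n : E3) (hn : ‖n‖ = 1) : ∃ v : E3, ‖v‖ = 1 ∧ ⟪n, v⟫_ℝ = 0 := by
  have key : ∃ v : E3, v ≠ 0 ∧ ⟪n, v⟫_ℝ = 0 := by
    by_cases h1 : n 1 = 0 ∧ n 2 = 0
    · refine ⟨!₂[0, 1, 0], ?_, ?_⟩
      · intro h
        have := congrFun (congrArg WithLp.ofLp h) 1
        simp at this
      · rw [rgB_inner, h1.1, h1.2]
        simp
    · refine ⟨!₂[0, n 2, -n 1], ?_, ?_⟩
      · intro h
        have e1 := congrFun (congrArg WithLp.ofLp h) 1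
        have e2 := congrFun (congrArg WithLp.ofLp h) 2
        simp at e1 e2
        exact h1 ⟨e2, e1⟩
      · rw [rgB_inner]
        simp
        ring
  obtain ⟨v, hv0, hv⟩ := key
  refine ⟨‖v‖⁻¹ • v, ?_, ?_⟩
  · rw [norm_smul, norm_inv, norm_norm, inv_mul_cancel₀ (norm_ne_zero_iff.2 hv0)]
  · rw [inner_smul_right, hv, mul_zero]

/-- all diametral chords pass through one point -/
theorem rgB_par (K : Set E3) (D : ℝ)
    (h1 : ∀ x ∈ K, ∀ y ∈ K, ‖x - y‖ ≤ D)
    (h2 : ∀ n : E3, ‖n‖ = 1 → ∃ a ∈ K, ∃ b ∈ K, a - b = D • n)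
    (h3 : ∀ n m u : E3, ‖n‖ = 1 → ‖m‖ = 1 → ‖u‖ = 1 → ⟪n, u⟫_ℝ = 0 → ⟪m, u⟫_ℝ = 0 →
        ∀ a ∈ K, ∀ b ∈ K, ∀ a' ∈ K, ∀ b' ∈ K, a - b = D • n → a' - b' = D • m →
          ⟪a, u⟫_ℝ = ⟪a', u⟫_ℝ) :
    ∃ O : E3, ∀ n : E3, ‖n‖ = 1 → ∃ α : ℝ, O + α • n ∈ K ∧ O + (α - D) • n ∈ K ∧
      ∀ x ∈ K, ⟪x - O, n⟫_ℝ ≤ α ∧ α - D ≤ ⟪x - O, n⟫_ℝ := by
  have h3' : ∀ n m v : E3, ‖n‖ = 1 → ‖m‖ = 1 → ⟪n, v⟫_ℝ = 0 → ⟪m, v⟫_ℝ = 0 →
      ∀ a ∈ K, ∀ b ∈ K, ∀ a' ∈ K, ∀ b' ∈ K, a - b = D • n → a' - b' = D • m →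
        ⟪a, v⟫_ℝ = ⟪a', v⟫_ℝ := by
    intro n m v hn hm hnv hmv a ha b hb a' ha' b' hb' hab hab'
    by_cases hv : v = 0
    · rw [hv, inner_zero_right, inner_zero_right]
    · have hv' : ‖v‖ ≠ 0 := norm_ne_zero_iff.2 hv
      have h := h3 n m (‖v‖⁻¹ • v) hn hm
        (by rw [norm_smul, norm_inv, norm_norm, inv_mul_cancel₀ hv'])
        (by rw [inner_smul_right, hnv, mul_zero]) (by rw [inner_smul_right, hmv, mul_zero])
        a ha b hb a' ha' b' hb' hab hab'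
      rw [inner_smul_right, inner_smul_right] at h
      exact mul_left_cancel₀ (inv_ne_zero hv') h
  set E0 : E3 := !₂[1, 0, 0] with hE0
  set E1 : E3 := !₂[0, 1, 0] with hE1
  set E2' : E3 := !₂[0, 0, 1] with hE2
  have n0 : ‖E0‖ = 1 := by simp [hE0, EuclideanSpace.norm_eq, Fin.sum_univ_three]
  have n1 : ‖E1‖ = 1 := by simp [hE1, EuclideanSpace.norm_eq, Fin.sum_univ_three]
  have n2 : ‖E2'‖ = 1 := by simp [hE2, EuclideanSpace.norm_eq, Fin.sum_univ_three]
  obtain ⟨a0, ha0, b0, hb0, hab0⟩ := h2 E0 n0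
  obtain ⟨a1, ha1, b1, hb1, hab1⟩ := h2 E1 n1
  obtain ⟨a2, ha2, b2, hb2, hab2⟩ := h2 E2' n2
  have c01 : a0 2 = a1 2 := by
    have := h3' E0 E1 E2' n0 n1 (by rw [rgB_inner]; simp [hE0, hE2])
      (by rw [rgB_inner]; simp [hE1, hE2]) a0 ha0 b0 hb0 a1 ha1 b1 hb1 hab0 hab1
    rw [rgB_inner, rgB_inner] at this
    simpa [hE2] using this
  have c02 : a0 1 = a2 1 := by
    have := h3' E0 E2' E1 n0 n2 (by rw [rgB_inner]; simp [hE0, hE1])
      (by rw [rgB_inner]; simp [hE1, hE2]) a0 ha0 b0 hb0 a2 ha2 b2 hb2 hab0 hab2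
    rw [rgB_inner, rgB_inner] at this
    simpa [hE1] using this
  have c12 : a1 0 = a2 0 := by
    have := h3' E1 E2' E0 n1 n2 (by rw [rgB_inner]; simp [hE0, hE1])
      (by rw [rgB_inner]; simp [hE0, hE2]) a1 ha1 b1 hb1 a2 ha2 b2 hb2 hab1 hab2
    rw [rgB_inner, rgB_inner] at this
    simpa [hE0] using this
  refine ⟨!₂[a1 0, a0 1, a0 2], ?_⟩
  intro n hn
  obtain ⟨a, ha, b, hb, hab⟩ := h2 n hn
  have hnn := rgB_unit hn
  have q0 : a 1 * n 2 - a 2 * n 1 = a0 1 * n 2 - a0 2 * n 1 := by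
    have := h3' n E0 !₂[0, n 2, -n 1] hn n0 (by rw [rgB_inner]; simp; ring)
      (by rw [rgB_inner]; simp [hE0]) a ha b hb a0 ha0 b0 hb0 hab hab0
    rw [rgB_inner, rgB_inner] at this
    simp at this
    linarith
  have q1 : a 2 * n 0 - a 0 * n 2 = a0 2 * n 0 - a1 0 * n 2 := by
    have := h3' n E1 !₂[-n 2, 0, n 0] hn n1 (by rw [rgB_inner]; simp; ring)
      (by rw [rgB_inner]; simp [hE1]) a ha b hb a1 ha1 b1 hb1 hab hab1
    rw [rgB_inner, rgB_inner] at this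
    simp at this
    rw [c01]
    linarith
  have q2 : a 0 * n 1 - a 1 * n 0 = a1 0 * n 1 - a0 1 * n 0 := by
    have := h3' n E2' !₂[n 1, -n 0, 0] hn n2 (by rw [rgB_inner]; simp; ring)
      (by rw [rgB_inner]; simp [hE2]) a ha b hb a2 ha2 b2 hb2 hab hab2
    rw [rgB_inner, rgB_inner] at this
    simp at this
    rw [c12, c02]
    linarith
  set O : E3 := !₂[a1 0, a0 1, a0 2] with hO
  have O0 : O 0 = a1 0 := by simp [hO]
  have O1 : O 1 = a0 1 := by simp [hO]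
  have O2 : O 2 = a0 2 := by simp [hO]
  set α : ℝ := ⟪a - O, n⟫_ℝ with hα
  have hαv : α = (a 0 - a1 0) * n 0 + (a 1 - a0 1) * n 1 + (a 2 - a0 2) * n 2 := by
    rw [hα, rgB_inner]
    simp only [PiLp.sub_apply, O0, O1, O2]
  have hsum : O + α • n = a := by
    ext i
    fin_cases i
    · show O 0 + α * n 0 = a 0
      rw [O0, hαv]
      linear_combination (a 0 - a1 0) * hnn + n 2 * q1 - n 1 * q2
    · show O 1 + α * n 1 = a 1
      rw [O1, hαv]
      linear_combination (a 1 - a0 1) * hnn - n 2 * q0 + n 0 * q2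
    · show O 2 + α * n 2 = a 2
      rw [O2, hαv]
      linear_combination (a 2 - a0 2) * hnn + n 1 * q0 - n 0 * q1
  have hb' : O + (α - D) • n = b := by
    have : b = a - D • n := by rw [← hab]; abel
    rw [this, ← hsum, sub_smul]
    abel
  have hself : ⟪n, n⟫_ℝ = 1 := by rw [real_inner_self_eq_norm_sq, hn]; norm_num
  refine ⟨α, by rw [hsum]; exact ha, by rw [hb']; exact hb, ?_⟩
  intro x hx
  constructor
  · have e1 : ⟪x - b, n⟫_ℝ ≤ D := by
      refine (real_inner_le_norm _ _).trans ?_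
      rw [hn, mul_one]
      exact h1 x hx b hb
    have e2 : ⟪x - b, n⟫_ℝ = ⟪x - O, n⟫_ℝ - (α - D) := by
      rw [← hb', show x - (O + (α - D) • n) = (x - O) - (α - D) • n by abel, inner_sub_left,
        inner_smul_left, hself]
      simp
    linarith
  · have e1 : ⟪a - x, n⟫_ℝ ≤ D := by
      refine (real_inner_le_norm _ _).trans ?_
      rw [hn, mul_one]
      exact h1 a ha x hx
    have e2 : ⟪a - x, n⟫_ℝ = α - ⟪x - O, n⟫_ℝ := by
      rw [← hsum, show O + α • n - x = α • n - (x - O) by abel, inner_sub_left,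
        inner_smul_left, hself]
      simp
    linarith

theorem rgB_const {g : ℝ → ℝ} {D : ℝ} (hD : 0 ≤ D) (h0 : ∀ t, 0 ≤ g t) (h1 : ∀ t, g t ≤ D)
    (h : ∀ s t, g s * Real.cos (s - t) ≤ g t) : g Real.pi = g 0 := by
  have hb : ∀ s t, g s - g t ≤ D / 2 * |s - t| ^ 2 := by
    intro s t
    have e1 := Real.one_sub_sq_div_two_le_cos (x := s - t)
    have e2 := h s t
    have e3 : g s * (1 - (s - t) ^ 2 / 2) ≤ g s * Real.cos (s - t) :=
      mul_le_mul_of_nonneg_left e1 (h0 s)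
    have e4 : g s * ((s - t) ^ 2 / 2) ≤ D * ((s - t) ^ 2 / 2) :=
      mul_le_mul_of_nonneg_right (h1 s) (by positivity)
    rw [sq_abs]
    nlinarith
  have habs : ∀ s t, |g s - g t| ≤ D / 2 * |s - t| ^ 2 := by
    intro s t
    rw [abs_le]
    constructor
    · have := hb t s
      rw [abs_sub_comm] at this
      linarith
    · exact hb s t
  have hder : ∀ t, HasDerivAt g 0 t := by
    intro t
    rw [hasDerivAt_iff_isLittleO]
    have e1 : (fun x' => g x' - g t - (x' - t) • (0:ℝ)) =O[𝓝 t] fun x' => ‖x' - t‖ ^ 2 := by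
      apply Asymptotics.IsBigO.of_bound (D / 2)
      apply Filter.Eventually.of_forall
      intro x'
      rw [smul_zero, sub_zero, Real.norm_eq_abs, norm_pow, norm_norm, Real.norm_eq_abs]
      exact habs x' t
    exact e1.trans_isLittleO (Asymptotics.isLittleO_pow_sub_sub t one_lt_two)
  exact is_const_of_deriv_eq_zero (fun t => (hder t).differentiableAt)
    (fun t => (hder t).deriv) _ _

theorem rgB_main (K : Set E3) (hK : CB K) (D : ℝ) (hD : 0 < D)
    (h1 : ∀ x ∈ K, ∀ y ∈ K, ‖x - y‖ ≤ D)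
    (h2 : ∀ n : E3, ‖n‖ = 1 → ∃ a ∈ K, ∃ b ∈ K, a - b = D • n)
    (h3 : ∀ n m u : E3, ‖n‖ = 1 → ‖m‖ = 1 → ‖u‖ = 1 → ⟪n, u⟫_ℝ = 0 → ⟪m, u⟫_ℝ = 0 →
        ∀ a ∈ K, ∀ b ∈ K, ∀ a' ∈ K, ∀ b' ∈ K, a - b = D • n → a' - b' = D • m →
          ⟪a, u⟫_ℝ = ⟪a', u⟫_ℝ) :
    ∃ (c : E3) (r : ℝ), 0 < r ∧ K = Metric.closedBall c r := by
  obtain ⟨O, hO⟩ := rgB_par K D h1 h2 h3
  -- the value is D/2
  have hhalf : ∀ n : E3, ‖n‖ = 1 → O + (D / 2) • n ∈ K ∧ ∀ x ∈ K, ⟪x - O, n⟫_ℝ ≤ D / 2 := by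
    intro n hn
    obtain ⟨v, hv, hnv⟩ := rgB_perp n hn
    have hvn : ⟪v, n⟫_ℝ = 0 := by rw [real_inner_comm]; exact hnv
    have hnn : ⟪n, n⟫_ℝ = 1 := by rw [real_inner_self_eq_norm_sq, hn]; norm_num
    have hvv : ⟪v, v⟫_ℝ = 1 := by rw [real_inner_self_eq_norm_sq, hv]; norm_num
    set c : ℝ → E3 := fun t => Real.cos t • n + Real.sin t • v with hc
    have hcc : ∀ s t, ⟪c s, c t⟫_ℝ = Real.cos (s - t) := by
      intro s t
      simp only [hc, inner_add_left, inner_add_right, inner_smul_left, inner_smul_right, hnn,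
        hvv, hnv, hvn, Real.cos_sub]
      simp
      ring
    have hcn : ∀ t, ‖c t‖ = 1 := by
      intro t
      have e1 := hcc t t
      rw [sub_self, Real.cos_zero, real_inner_self_eq_norm_sq] at e1
      nlinarith [norm_nonneg (c t)]
    have hex := fun t => hO (c t) (hcn t)
    choose g hg1 hg2 hg3 using hex
    have hup : ∀ s t, g s * Real.cos (s - t) ≤ g t := by
      intro s t
      have := (hg3 t _ (hg1 s)).1
      rw [add_sub_cancel_left, inner_smul_left, hcc] at this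
      simpa using this
    have hlow : ∀ s t, g t - D ≤ g s * Real.cos (s - t) := by
      intro s t
      have := (hg3 t _ (hg1 s)).2
      rw [add_sub_cancel_left, inner_smul_left, hcc] at this
      simpa using this
    have hcosq : ∀ t, Real.cos (t + Real.pi / 2 - t) = 0 := by
      intro t
      rw [add_sub_cancel_left, Real.cos_pi_div_two]
    have hg0 : ∀ t, 0 ≤ g t := by
      intro t
      have := hup (t + Real.pi / 2) t
      rwa [hcosq, mul_zero] at this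
    have hgD : ∀ t, g t ≤ D := by
      intro t
      have := hlow (t + Real.pi / 2) t
      rw [hcosq, mul_zero] at this
      linarith
    have hconst := rgB_const hD.le hg0 hgD hup
    have e1 := hlow Real.pi 0
    rw [sub_zero, Real.cos_pi] at e1
    have e2 := (hg3 Real.pi _ (hg2 0)).1
    rw [add_sub_cancel_left, inner_smul_left, hcc, zero_sub, Real.cos_neg, Real.cos_pi] at e2
    simp at e2
    have e3 : g 0 = D / 2 := by linarith
    have hc0 : c 0 = n := by simp [hc]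
    have f1 := hg1 0
    have f2 := hg3 0
    rw [hc0, e3] at f1 f2
    exact ⟨f1, fun x hx => (f2 x hx).1⟩
  refine ⟨O, D / 2, by linarith, ?_⟩
  apply Set.Subset.antisymm
  · intro x hx
    rw [Metric.mem_closedBall, dist_eq_norm]
    by_cases hxO : x - O = 0
    · rw [hxO, norm_zero]
      linarith
    · have hne : ‖x - O‖ ≠ 0 := norm_ne_zero_iff.2 hxO
      have h4 := (hhalf (‖x - O‖⁻¹ • (x - O)) (by
        rw [norm_smul, norm_inv, norm_norm, inv_mul_cancel₀ hne])).2 x hx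
      rw [inner_smul_right, real_inner_self_eq_norm_sq, sq, ← mul_assoc,
        inv_mul_cancel₀ hne, one_mul] at h4
      exact h4
  · intro y hy
    rw [Metric.mem_closedBall, dist_eq_norm] at hy
    -- a unit vector in the direction of y
    obtain ⟨n, hn, ρ, hρ0, hρ1, hyn⟩ : ∃ n : E3, ‖n‖ = 1 ∧ ∃ ρ : ℝ, 0 ≤ ρ ∧ ρ ≤ D / 2 ∧
        y = O + ρ • n := by
      by_cases hyO : y - O = 0
      · refine ⟨!₂[1, 0, 0], by simp [EuclideanSpace.norm_eq, Fin.sum_univ_three], 0, le_refl _,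
          by linarith, ?_⟩
        rw [zero_smul, add_zero]
        exact sub_eq_zero.1 hyO
      · have hne : ‖y - O‖ ≠ 0 := norm_ne_zero_iff.2 hyO
        refine ⟨‖y - O‖⁻¹ • (y - O), by
          rw [norm_smul, norm_inv, norm_norm, inv_mul_cancel₀ hne], ‖y - O‖, norm_nonneg _, hy, ?_⟩
        rw [smul_smul, mul_inv_cancel₀ hne, one_smul]
        abel
    have p1 := (hhalf n hn).1
    have p2 := (hhalf (-n) (by rw [norm_neg]; exact hn)).1
    have hmem := hK.conv p1 p2 (a := (1 / 2 + ρ / D)) (b := (1 / 2 - ρ / D))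
      (by positivity) (by
        have : ρ / D ≤ 1 / 2 := by
          rw [div_le_iff₀ hD]
          linarith
        linarith) (by ring)
    have hfin : (1 / 2 + ρ / D) • (O + (D / 2) • n) + (1 / 2 - ρ / D) • (O + (D / 2) • -n) = y := by
      rw [hyn]
      have hρD : ρ / D * D = ρ := div_mul_cancel₀ _ hD.ne'
      have e5 : (1 / 2 + ρ / D) • (O + (D / 2) • n) + (1 / 2 - ρ / D) • (O + (D / 2) • -n) =
          O + (ρ / D * D) • n := by
        module
      rw [e5, hρD]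
    rwa [hfin] at hmem

end STB
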