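import Pool.Agent.Lib_helper15.STB.DefsC
import Pool.Agent.Lib_helper15.STB.B.fraA
import Pool.Agent.Lib_helper15.STB.B.fraC
import Pool.Agent.Lib_helper15.STB.B.ccvA

/-! # STB, block wdc (helper45): the chord function is continuous up to the ends -/

open MeasureTheory Filter Topology
open scoped InnerProductSpace
open Pool.Agent.Lib_helper15.STE

namespace STB

/-- the chord as an image -/
theorem wdc_eq (K : Set E3) (f u : E3) (h : ON f u) (t : ℝ) :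
    {x : ℝ | ∃ s : ℝ, x • cr f u + s • f + t • u ∈ K} =
      (fun x : E3 => ⟪x, cr f u⟫_ℝ) '' (K ∩ {x | ⟪x, u⟫_ℝ = t}) := by
  obtain ⟨-, -, hcu, hcf, -, -⟩ := fra_on' f u h
  have hfc : ⟪f, cr f u⟫_ℝ = 0 := by rw [real_inner_comm]; exact hcf.or
  have huc : ⟪u, cr f u⟫_ℝ = 0 := by rw [real_inner_comm]; exact hcu.or
  have hcc : ⟪cr f u, cr f u⟫_ℝ = 1 := by
    rw [real_inner_self_eq_norm_sq, hcu.nf]
    norm_num
  have huu : ⟪u, u⟫_ℝ = 1 := by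
    rw [real_inner_self_eq_norm_sq, h.nu]
    norm_num
  ext x
  constructor
  · rintro ⟨s, hs⟩
    refine ⟨_, ⟨hs, ?_⟩, ?_⟩
    · show ⟪x • cr f u + s • f + t • u, u⟫_ℝ = t
      rw [inner_add_left, inner_add_left, inner_smul_left, inner_smul_left, inner_smul_left,
        hcu.or, h.or, huu]
      simp
    · show ⟪x • cr f u + s • f + t • u, cr f u⟫_ℝ = x
      rw [inner_add_left, inner_add_left, inner_smul_left, inner_smul_left, inner_smul_left,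
        hcc, hfc, huc]
      simp
  · rintro ⟨p, ⟨hp, hpt⟩, rfl⟩
    have hpt' : ⟪p, u⟫_ℝ = t := hpt
    obtain ⟨hb, -⟩ := fra_basis f u h p
    refine ⟨⟪p, f⟫_ℝ, ?_⟩
    rw [← hpt', ← hb]
    exact hp

theorem wdc_comp (K : Set E3) (hK : CB K) (f u : E3) (t : ℝ) :
    IsCompact ((fun x : E3 => ⟪x, cr f u⟫_ℝ) '' (K ∩ {x | ⟪x, u⟫_ℝ = t})) := by
  apply IsCompact.image
  · exact hK.comp.inter_right (isClosed_eq (by fun_prop) continuous_const)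
  · fun_prop

theorem wdc_conv (K : Set E3) (hK : CB K) (f u : E3) (t : ℝ) :
    Convex ℝ ((fun x : E3 => ⟪x, cr f u⟫_ℝ) '' (K ∩ {x | ⟪x, u⟫_ℝ = t})) := by
  rintro _ ⟨p, ⟨hp, hpt⟩, rfl⟩ _ ⟨q, ⟨hq, hqt⟩, rfl⟩ a b ha hb hab
  have hpt' : ⟪p, u⟫_ℝ = t := hpt
  have hqt' : ⟪q, u⟫_ℝ = t := hqt
  refine ⟨a • p + b • q, ⟨hK.conv hp hq ha hb hab, ?_⟩, ?_⟩
  · show ⟪a • p + b • q, u⟫_ℝ = t
    rw [inner_add_left, inner_smul_left, inner_smul_left, hpt', hqt']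
    simp only [conj_trivial]
    rw [← add_mul, hab, one_mul]
  · show ⟪a • p + b • q, cr f u⟫_ℝ = a • ⟪p, cr f u⟫_ℝ + b • ⟪q, cr f u⟫_ℝ
    rw [inner_add_left, inner_smul_left, inner_smul_left]
    simp

/-- two points of the same height give a lower bound -/
theorem wdc_le (K : Set E3) (hK : CB K) (f u : E3) (h : ON f u) {p q : E3} (hp : p ∈ K)
    (hq : q ∈ K) (hpq : ⟪p, u⟫_ℝ = ⟪q, u⟫_ℝ) :
    ⟪p, cr f u⟫_ℝ - ⟪q, cr f u⟫_ℝ ≤ Wd K f u ⟪p, u⟫_ℝ := by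
  obtain ⟨-, hpos, -⟩ := ccv_wd K hK f u h
  rcases le_or_gt ⟪p, cr f u⟫_ℝ ⟪q, cr f u⟫_ℝ with hle | hlt
  · linarith [hpos ⟪p, u⟫_ℝ]
  unfold Wd
  rw [wdc_eq K f u h]
  have hpm : ⟪p, cr f u⟫_ℝ ∈ (fun x : E3 => ⟪x, cr f u⟫_ℝ) '' (K ∩ {x | ⟪x, u⟫_ℝ = ⟪p, u⟫_ℝ}) :=
    ⟨p, ⟨hp, rfl⟩, rfl⟩
  have hqm : ⟪q, cr f u⟫_ℝ ∈ (fun x : E3 => ⟪x, cr f u⟫_ℝ) '' (K ∩ {x | ⟪x, u⟫_ℝ = ⟪p, u⟫_ℝ}) :=
    ⟨q, ⟨hq, hpq.symm⟩, rfl⟩
  have hsub := (wdc_conv K hK f u ⟪p, u⟫_ℝ).ordConnected.out hqm hpm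
  have h1 := measure_mono (μ := volume) hsub
  rw [Real.volume_Icc] at h1
  have h2 := ENNReal.toReal_mono (wdc_comp K hK f u ⟪p, u⟫_ℝ).measure_lt_top.ne h1
  rwa [ENNReal.toReal_ofReal (by linarith)] at h2

/-- the chord is attained -/
theorem wdc_attain (K : Set E3) (hK : CB K) (f u : E3) (h : ON f u) {t : ℝ}
    (ht : t ∈ Set.Icc (lo K u) (hi K u)) : ∃ p ∈ K, ∃ q ∈ K, ⟪p, u⟫_ℝ = t ∧ ⟪q, u⟫_ℝ = t ∧
      Wd K f u t = ⟪p, cr f u⟫_ℝ - ⟪q, cr f u⟫_ℝ := by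
  obtain ⟨-, -, hex, -⟩ := fra_lohi K hK u h.nu
  obtain ⟨x, hx, hxt⟩ := hex t ht
  have hne : ((fun x : E3 => ⟪x, cr f u⟫_ℝ) '' (K ∩ {x | ⟪x, u⟫_ℝ = t})).Nonempty :=
    ⟨_, x, ⟨hx, hxt⟩, rfl⟩
  have hcomp := wdc_comp K hK f u t
  have hconn : IsConnected ((fun x : E3 => ⟪x, cr f u⟫_ℝ) '' (K ∩ {x | ⟪x, u⟫_ℝ = t})) :=
    ⟨hne, (wdc_conv K hK f u t).isPreconnected⟩
  have heq := eq_Icc_of_connected_compact hconn hcomp
  obtain ⟨p, ⟨hp, hpt⟩, hps⟩ := hcomp.sSup_mem hne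
  obtain ⟨q, ⟨hq, hqt⟩, hqs⟩ := hcomp.sInf_mem hne
  refine ⟨p, hp, q, hq, hpt, hqt, ?_⟩
  have hle : sInf ((fun x : E3 => ⟪x, cr f u⟫_ℝ) '' (K ∩ {x | ⟪x, u⟫_ℝ = t})) ≤
      sSup ((fun x : E3 => ⟪x, cr f u⟫_ℝ) '' (K ∩ {x | ⟪x, u⟫_ℝ = t})) :=
    csInf_le_csSup hne hcomp.bddBelow hcomp.bddAbove
  have hps' : ⟪p, cr f u⟫_ℝ = sSup ((fun x : E3 => ⟪x, cr f u⟫_ℝ) '' (K ∩ {x | ⟪x, u⟫_ℝ = t})) :=
    hps
  have hqs' : ⟪q, cr f u⟫_ℝ = sInf ((fun x : E3 => ⟪x, cr f u⟫_ℝ) '' (K ∩ {x | ⟪x, u⟫_ℝ = t})) :=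
    hqs
  unfold Wd
  rw [wdc_eq K f u h, hps', hqs']
  conv_lhs => rw [heq]
  rw [Real.volume_Icc, ENNReal.toReal_ofReal (by linarith)]

/-- upper semicontinuity -/
theorem wdc_usc (K : Set E3) (hK : CB K) (f u : E3) (h : ON f u) {t₀ c : ℝ}
    (hc : Wd K f u t₀ < c) :
    ∀ᶠ t in 𝓝[Set.Icc (lo K u) (hi K u)] t₀, Wd K f u t < c := by
  let Q : Set (E3 × E3) := (K ×ˢ K) ∩ {z | ⟪z.1, u⟫_ℝ = ⟪z.2, u⟫_ℝ ∧
    c ≤ ⟪z.1, cr f u⟫_ℝ - ⟪z.2, cr f u⟫_ℝ}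
  have hQ : IsCompact Q := by
    apply (hK.comp.prod hK.comp).inter_right
    have h1 : IsClosed {z : E3 × E3 | ⟪z.1, u⟫_ℝ = ⟪z.2, u⟫_ℝ} :=
      isClosed_eq (by fun_prop) (by fun_prop)
    have h2 : IsClosed {z : E3 × E3 | c ≤ ⟪z.1, cr f u⟫_ℝ - ⟪z.2, cr f u⟫_ℝ} :=
      isClosed_le continuous_const (by fun_prop)
    exact h1.inter h2
  have hT : IsCompact ((fun z : E3 × E3 => ⟪z.1, u⟫_ℝ) '' Q) := hQ.image (by fun_prop)
  have hnot : t₀ ∉ (fun z : E3 × E3 => ⟪z.1, u⟫_ℝ) '' Q := by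
    rintro ⟨⟨p, q⟩, ⟨⟨hp, hq⟩, hpq, hcle⟩, hpt⟩
    have hp' : p ∈ K := hp
    have hq' : q ∈ K := hq
    have hpq' : ⟪p, u⟫_ℝ = ⟪q, u⟫_ℝ := hpq
    have hcle' : c ≤ ⟪p, cr f u⟫_ℝ - ⟪q, cr f u⟫_ℝ := hcle
    have hpt' : ⟪p, u⟫_ℝ = t₀ := hpt
    have h1 := wdc_le K hK f u h hp' hq' hpq'
    rw [hpt'] at h1
    linarith
  have hnhds : ((fun z : E3 × E3 => ⟪z.1, u⟫_ℝ) '' Q)ᶜ ∈ 𝓝 t₀ :=
    hT.isClosed.isOpen_compl.mem_nhds hnot
  filter_upwards [mem_nhdsWithin_of_mem_nhds hnhds, self_mem_nhdsWithin] with t ht htI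
  by_contra hlt
  push Not at hlt
  obtain ⟨p, hp, q, hq, hpt, hqt, hW⟩ := wdc_attain K hK f u h htI
  apply ht
  refine ⟨(p, q), ⟨⟨hp, hq⟩, ?_, ?_⟩, hpt⟩
  · show ⟪p, u⟫_ℝ = ⟪q, u⟫_ℝ
    rw [hpt, hqt]
  · show c ≤ ⟪p, cr f u⟫_ℝ - ⟪q, cr f u⟫_ℝ
    rw [← hW]
    exact hlt

/-- lower semicontinuity of concave functions at all points of an interval -/
theorem wdc_lsc {g : ℝ → ℝ} {a b : ℝ} (hab : a < b) (hg : ConcaveOn ℝ (Set.Icc a b) g)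
    (h0 : ∀ t, 0 ≤ g t) {t₀ c : ℝ} (ht₀ : t₀ ∈ Set.Icc a b) (hc : c < g t₀) :
    ∀ᶠ t in 𝓝[Set.Icc a b] t₀, c < g t := by
  -- the comparison with an end `e` of the interval
  have key : ∀ e ∈ Set.Icc a b, ∀ t ∈ Set.Icc a b, ∀ r : ℝ, 0 ≤ r → r ≤ 1 →
      t = (1 - r) * t₀ + r * e → (1 - r) * g t₀ ≤ g t := by
    intro e he t _ r hr0 hr1 htr
    have h1 := hg.2 ht₀ he (by linarith : 0 ≤ 1 - r) hr0 (by ring)
    simp only [smul_eq_mul] at h1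
    rw [← htr] at h1
    have h2 : 0 ≤ r * g e := mul_nonneg hr0 (h0 e)
    linarith
  have hR : ∀ᶠ t in 𝓝[Set.Icc a b] t₀, t₀ ≤ t → c < g t := by
    rcases lt_or_ge t₀ b with hb | hb
    · have hcont : ContinuousAt (fun t : ℝ => (1 - (t - t₀) / (b - t₀)) * g t₀) t₀ := by
        fun_prop (disch := linarith)
      have hval : c < (1 - (t₀ - t₀) / (b - t₀)) * g t₀ := by
        rw [sub_self, zero_div, sub_zero, one_mul]
        exact hc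
      have hev := hcont.eventually (lt_mem_nhds hval)
      filter_upwards [mem_nhdsWithin_of_mem_nhds hev, self_mem_nhdsWithin] with t ht htI hle
      refine lt_of_lt_of_le ht ?_
      have hbt : 0 < b - t₀ := by linarith
      apply key b ⟨hab.le, le_rfl⟩ t htI ((t - t₀) / (b - t₀)) (div_nonneg (by linarith) hbt.le)
        ((div_le_one hbt).2 (by linarith [htI.2]))
      field_simp
      ring
    · filter_upwards [self_mem_nhdsWithin] with t htI hle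
      have : t = t₀ := by
        have := htI.2
        linarith
      rw [this]
      exact hc
  have hL : ∀ᶠ t in 𝓝[Set.Icc a b] t₀, t ≤ t₀ → c < g t := by
    rcases lt_or_ge a t₀ with ha | ha
    · have hcont : ContinuousAt (fun t : ℝ => (1 - (t₀ - t) / (t₀ - a)) * g t₀) t₀ := by
        fun_prop (disch := linarith)
      have hval : c < (1 - (t₀ - t₀) / (t₀ - a)) * g t₀ := by
        rw [sub_self, zero_div, sub_zero, one_mul]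
        exact hc
      have hev := hcont.eventually (lt_mem_nhds hval)
      filter_upwards [mem_nhdsWithin_of_mem_nhds hev, self_mem_nhdsWithin] with t ht htI hle
      refine lt_of_lt_of_le ht ?_
      have hbt : 0 < t₀ - a := by linarith
      apply key a ⟨le_rfl, hab.le⟩ t htI ((t₀ - t) / (t₀ - a)) (div_nonneg (by linarith) hbt.le)
        ((div_le_one hbt).2 (by linarith [htI.1]))
      field_simp
      ring
    · filter_upwards [self_mem_nhdsWithin] with t htI hle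
      have : t = t₀ := by
        have := htI.1
        linarith
      rw [this]
      exact hc
  filter_upwards [hR, hL] with t h1 h2
  rcases le_total t₀ t with h | h
  · exact h1 h
  · exact h2 h

theorem wdc_main (K : Set E3) (hK : CB K) (f u : E3) (h : ON f u) :
    ContinuousOn (Wd K f u) (Set.Icc (lo K u) (hi K u)) := by
  obtain ⟨hlt, -⟩ := fra_lohi K hK u h.nu
  obtain ⟨hconc, hpos, -⟩ := ccv_wd K hK f u h
  intro t₀ ht₀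
  refine tendsto_order.2 ⟨fun c hc => ?_, fun c hc => ?_⟩
  · exact wdc_lsc hlt hconc hpos ht₀ hc
  · exact wdc_usc K hK f u h hc

end STB
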